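import Pool.Agent.Work.MP_ed0a9a_lc.H.MtLc

/-!
# Injective linear maps are elementary embeddings
-/

namespace Pool.Agent.Work.MP_ed0a9a_lc.HM

open FirstOrder FirstOrder.Language

variable {K : Type} [Field K] {a : ℕ → ℕ}

/-- The families `u` and `u'` have the same linear relations over `F`. -/
def Same {V V' : Type} [AddCommGroup V] [Module K V] [AddCommGroup V'] [Module K V']
    (F : Subfield K) {ι : Type} [Fintype ι] (u : ι → V) (u' : ι → V') : Prop :=
  ∀ c : ι → K, (∀ i, c i ∈ F) → (∑ i, c i • u i = 0 ↔ ∑ i, c i • u' i = 0)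

section
variable {V V' : Type} [AddCommGroup V] [Module K V] [AddCommGroup V'] [Module K V']

theorem sum_comp {ι κ : Type} [Fintype ι] [Fintype κ] (e : κ → ι) (c : κ → K) (u : ι → V) :
    ∑ k, c k • u (e k) = ∑ i, (open Classical in ∑ k ∈ Finset.univ.filter (fun k => e k = i), c k) • u i := by
  classical
  simp only [Finset.sum_smul]
  rw [← Finset.sum_fiberwise Finset.univ e (fun k => c k • u (e k))]
  refine Finset.sum_congr rfl fun i _ => ?_
  refine Finset.sum_congr rfl fun k hk => ?_
  rw [(Finset.mem_filter.1 hk).2]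

theorem Same.comp {F : Subfield K} {ι κ : Type} [Fintype ι] [Fintype κ] {u : ι → V} {u' : ι → V'}
    (h : Same F u u') (e : κ → ι) : Same F (fun k => u (e k)) (fun k => u' (e k)) := by
  classical
  intro c hc
  have h1 := h (fun i => ∑ k ∈ Finset.univ.filter (fun k => e k = i), c k)
    (fun i => Subfield.sum_mem _ fun k _ => hc k)
  have h2 := sum_comp e c u
  have h3 := sum_comp e c u'
  constructor
  · intro h0
    rw [h3]
    convert h1.1 (by rw [← h0, h2]) using 4
  · intro h0
    rw [h2]
    convert h1.2 (by rw [← h0, h3]) using 4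

theorem Same.symm {F : Subfield K} {ι : Type} [Fintype ι] {u : ι → V} {u' : ι → V'}
    (h : Same F u u') : Same F u' u := fun c hc => (h c hc).symm

theorem Same.extend {F : Subfield K} [Finite F] [Infinite V'] {ι : Type} [Fintype ι] {u : ι → V}
    {u' : ι → V'} (h : Same F u u') (x : V) :
    ∃ x' : V', Same F (fun o : Option ι => o.elim x u) (fun o : Option ι => o.elim x' u') := by
  classical
  have hsum : ∀ {W : Type} [AddCommGroup W] [Module K W] (c : Option ι → K) (y : W) (w : ι → W),
      ∑ o : Option ι, c o • o.elim y w = c none • y + ∑ i, c (some i) • w i := by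
    intro W _ _ c y w
    rw [Fintype.sum_option]
    rfl
  by_cases hx : ∃ b : ι → K, (∀ i, b i ∈ F) ∧ x = ∑ i, b i • u i
  · obtain ⟨b, hb, rfl⟩ := hx
    refine ⟨∑ i, b i • u' i, fun c hc => ?_⟩
    rw [hsum, hsum]
    have e : ∀ {W : Type} [AddCommGroup W] [Module K W] (w : ι → W),
        c none • ∑ i, b i • w i + ∑ i, c (some i) • w i =
          ∑ i, (c none * b i + c (some i)) • w i := by
      intro W _ _ w
      rw [Finset.smul_sum, ← Finset.sum_add_distrib]
      refine Finset.sum_congr rfl fun i _ => ?_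
      rw [add_smul, mul_smul]
    rw [e, e]
    exact h _ fun i => F.add_mem (F.mul_mem (hc _) (hb i)) (hc _)
  · have hfin : (Set.range fun b : ι → F => ∑ i, (b i : K) • u' i).Finite := Set.finite_range _
    obtain ⟨x', hx'⟩ := hfin.exists_notMem
    have key : ∀ {W : Type} [AddCommGroup W] [Module K W] (y : W) (w : ι → W),
        (¬ ∃ b : ι → K, (∀ i, b i ∈ F) ∧ y = ∑ i, b i • w i) → ∀ c : Option ι → K,
        (∀ o, c o ∈ F) → (∑ o : Option ι, c o • o.elim y w = 0 ↔
          c none = 0 ∧ ∑ i, c (some i) • w i = 0) := by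
      intro W _ _ y w hy c hc
      rw [hsum]
      constructor
      · intro h0
        by_cases hn : c none = 0
        · rw [hn, zero_smul, zero_add] at h0
          exact ⟨hn, h0⟩
        · exfalso
          apply hy
          refine ⟨fun i => -(c none)⁻¹ * c (some i), fun i =>
            F.mul_mem (F.neg_mem (F.inv_mem (hc _))) (hc _), ?_⟩
          have h1 : c none • y = -∑ i, c (some i) • w i := eq_neg_of_add_eq_zero_left h0
          have h2 : y = (c none)⁻¹ • (c none • y) := by
            rw [smul_smul, inv_mul_cancel₀ hn, one_smul]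
          rw [h2, h1, smul_neg, ← neg_smul, Finset.smul_sum]
          refine Finset.sum_congr rfl fun i _ => ?_
          rw [smul_smul]
      · rintro ⟨h1, h2⟩
        rw [h1, zero_smul, zero_add, h2]
    have hx2 : ¬ ∃ b : ι → K, (∀ i, b i ∈ F) ∧ x' = ∑ i, b i • u' i := by
      rintro ⟨b, hb, rfl⟩
      exact hx' ⟨fun i => ⟨b i, hb i⟩, rfl⟩
    refine ⟨x', fun c hc => ?_⟩
    rw [key x u hx c hc, key x' u' hx2 c hc]
    exact and_congr Iff.rfl (h _ fun i => hc _)

theorem lc_ofFn {m : ℕ} (c : Fin m → K) (u : Fin m → V) :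
    lc (List.ofFn c) (List.ofFn u) = ∑ j, c j • u j := by
  induction m with
  | zero => simp
  | succ m ih =>
    rw [List.ofFn_succ, List.ofFn_succ, lc_cons, ih, Fin.sum_univ_succ]

end

theorem term_var {k n : ℕ} (t : (sig a).Term (Fin k ⊕ Fin n)) : ∃ p, t = Term.var p := by
  cases t with
  | var p => exact ⟨p, rfl⟩
  | func f _ => exact Empty.elim f

theorem ef (D : MT K a) {k n : ℕ} (φ : (sig a).BoundedFormula (Fin k) n) :
    ∃ N₀ : ℕ, ∀ N, N₀ ≤ N → ∀ (V : Type) [AddCommGroup V] [Module K V] (V' : Type)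
      [AddCommGroup V'] [Module K V'], Infinite V → Infinite V' → ∀ (v : Fin k → V)
      (xs : Fin n → V) (v' : Fin k → V') (xs' : Fin n → V'),
      Same (D.F N) (Sum.elim v xs) (Sum.elim v' xs') →
      ((letI := D.str V; φ.Realize v xs) ↔ (letI := D.str V'; φ.Realize v' xs')) := by
  induction φ with
  | falsum => exact ⟨0, fun N _ V _ _ V' _ _ _ _ v xs v' xs' _ => Iff.rfl⟩
  | equal t₁ t₂ =>
    obtain ⟨p, rfl⟩ := term_var t₁
    obtain ⟨q, rfl⟩ := term_var t₂
    refine ⟨0, fun N _ V _ _ V' _ _ _ _ v xs v' xs' h => ?_⟩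
    have h1 := (h.comp (fun b : Bool => if b then p else q)) (fun b => if b then 1 else -1)
      (fun b => by cases b; · exact (D.F N).neg_mem (D.F N).one_mem
                   · exact (D.F N).one_mem)
    simp only [Fintype.sum_bool, if_true, Bool.false_eq_true, if_false, one_smul, neg_smul,
      ← sub_eq_add_neg, sub_eq_zero] at h1
    exact h1
  | rel R ts =>
    obtain ⟨i, hi⟩ := R
    subst hi
    choose p hp using fun j => term_var (ts j)
    obtain rfl : ts = fun j => Term.var (p j) := funext hp
    refine ⟨D.n i, fun N hN V _ _ V' _ _ _ _ v xs v' xs' h => ?_⟩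
    have h1 : D.R i V (List.ofFn fun j => Sum.elim v xs (p j)) ↔
        D.R i V' (List.ofFn fun j => Sum.elim v' xs' (p j)) := by
      refine D.inv i V V' _ _ (by simp) (by simp) fun c hc hcF => ?_
      have e : List.ofFn (fun j : Fin (a i) => c.get (j.cast hc.symm)) = c := by
        apply List.ext_get
        · simp [hc]
        · intro m h1 h2; simp
      rw [← e, lc_ofFn, lc_ofFn]
      exact h.comp p _ fun j => D.mono hN (hcF _ (List.get_mem _ _))
    exact h1
  | imp f₁ f₂ ih₁ ih₂ =>
    obtain ⟨N₁, h₁⟩ := ih₁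
    obtain ⟨N₂, h₂⟩ := ih₂
    refine ⟨max N₁ N₂, fun N hN V _ _ V' _ _ i1 i2 v xs v' xs' h => ?_⟩
    have a1 := h₁ N (le_of_max_le_left hN) V V' i1 i2 v xs v' xs' h
    have a2 := h₂ N (le_of_max_le_right hN) V V' i1 i2 v xs v' xs' h
    simp only [BoundedFormula.realize_imp]
    exact imp_congr a1 a2
  | @all n f ih =>
    obtain ⟨N₁, h₁⟩ := ih
    refine ⟨N₁, fun N hN V _ _ V' _ _ i1 i2 v xs v' xs' h => ?_⟩
    have hF := D.fin N
    have key : ∀ (V : Type) [AddCommGroup V] [Module K V] (V' : Type) [AddCommGroup V']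
        [Module K V'], Infinite V → Infinite V' → ∀ (v : Fin k → V)
        (xs : Fin n → V) (v' : Fin k → V') (xs' : Fin n → V'),
        Same (D.F N) (Sum.elim v xs) (Sum.elim v' xs') → ∀ x' : V', ∃ x : V,
        Same (D.F N) (Sum.elim v (Fin.snoc xs x : Fin (n + 1) → V))
          (Sum.elim v' (Fin.snoc xs' x' : Fin (n + 1) → V')) := by
      intro V _ _ V' _ _ i1 i2 v xs v' xs' h x'
      obtain ⟨x, hx⟩ := h.symm.extend x'
      refine ⟨x, ?_⟩
      have h2 := hx.symm.comp (Sum.elim (fun i => some (Sum.inl i))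
        (Fin.snoc (fun j => some (Sum.inr j)) none) : Fin k ⊕ Fin (n + 1) →
          Option (Fin k ⊕ Fin n))
      convert h2 using 1
      · funext q
        rcases q with q | q
        · rfl
        · refine Fin.lastCases ?_ (fun j => ?_) q
          · simp
          · simp
      · funext q
        rcases q with q | q
        · rfl
        · refine Fin.lastCases ?_ (fun j => ?_) q
          · simp
          · simp
    simp only [BoundedFormula.realize_all]
    constructor
    · intro hall x'
      obtain ⟨x, hx⟩ := key V V' i1 i2 v xs v' xs' h x'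
      exact (h₁ N hN V V' i1 i2 v _ v' _ hx).1 (hall x)
    · intro hall x
      obtain ⟨x', hx⟩ := key V' V i2 i1 v' xs' v xs h.symm x
      exact (h₁ N hN V V' i1 i2 v _ v' _ hx.symm).2 (hall x')

/-- An injective linear map is an elementary embedding. -/
theorem elementary (D : MT K a) (V : Type) [AddCommGroup V] [Module K V] (V' : Type)
    [AddCommGroup V'] [Module K V'] (hV : Infinite V) (hV' : Infinite V') (f : V →ₗ[K] V')
    (hf : Function.Injective f) :
    letI := D.str V
    letI := D.str V'
    ∃ g : V ↪ₑ[sig a] V', ∀ x, g x = f x := by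
  letI := D.str V
  letI := D.str V'
  refine ⟨⟨f, ?_⟩, fun x => rfl⟩
  intro n φ x
  obtain ⟨N₀, h₀⟩ := ef D φ
  have h1 := h₀ N₀ le_rfl V V' hV hV' x (default : Fin 0 → V) (f ∘ x) (default : Fin 0 → V') ?_
  · unfold Formula.Realize
    convert h1.symm using 2
  · intro c hc
    have e : (Sum.elim (f ∘ x) (default : Fin 0 → V')) =
        fun q => f (Sum.elim x (default : Fin 0 → V) q) := by
      funext q
      rcases q with q | q
      · rfl
      · exact q.elim0
    rw [e]
    simp only [← map_smul, ← map_sum]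
    rw [map_eq_zero_iff f hf]

end Pool.Agent.Work.MP_ed0a9a_lc.HM
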