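import Pool.Agent.Work.MP_ed0a9a_lc.H.MtLc

/-!
# Vector spaces satisfy the axioms; models of the axioms are vector spaces
-/

namespace Pool.Agent.Work.MP_ed0a9a_lc.HM

open FirstOrder FirstOrder.Language

variable {K : Type} [Field K] {a : ℕ → ℕ}

section
variable (D : MT K a) (V : Type) [AddCommGroup V] [Module K V]

include D in
theorem add_self' (x : V) : x + x = 0 := by
  have h := congrArg (fun c : K => c • x) D.two
  simpa [add_smul] using h

theorem rel0 (x y z : V) : D.rel V 0 [x, y, z] ↔ z = x + y := by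
  unfold MT.rel
  rw [D.plus, D.a0]
  constructor
  · rintro ⟨-, h⟩
    have h1 : z + z = 0 := add_self' D V z
    calc z = (x + y + z) + z := by rw [h, zero_add]
      _ = x + y + (z + z) := by abel
      _ = x + y := by rw [h1, add_zero]
  · rintro rfl
    exact ⟨rfl, add_self' D V _⟩

theorem zr_iff (x : V) : Zr (D.rel V) x ↔ x = 0 := by
  unfold Zr
  rw [rel0, add_self' D V]

theorem sc_iff [Infinite V] (c : K) (x y : V) : D.Sc (D.rel V) c x y ↔ y = c • x := by
  by_cases h0 : c ∈ D.F 0
  · unfold MT.Sc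
    rw [dif_pos h0]
    rcases D.F0 c h0 with rfl | rfl
    · rw [if_pos rfl, zr_iff, zero_smul]
    · rw [if_neg one_ne_zero, one_smul]
  · unfold MT.Sc
    rw [dif_neg h0]
    have hs := Classical.choose_spec (Classical.choose_spec (D.sc c h0))
    generalize Classical.choose (Classical.choose_spec (D.sc c h0)) = m at hs ⊢
    generalize Classical.choose (D.sc c h0) = i at hs ⊢
    obtain ⟨k, hi, hk, hs⟩ := hs
    rw [zr_iff, zr_iff]
    constructor
    · rintro (⟨rfl, rfl⟩ | ⟨t, ht⟩)
      · simp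
      · exact ((hs V x y (List.ofFn t) (by simp)).1 ht.2).2
    · rintro rfl
      by_cases hx : x = 0
      · left; simp [hx]
      · right
        have := D.fin k
        obtain ⟨t, ht, hi'⟩ := exists_extend (D.F k) [x, c • x] (indL_pair (D.F k) c hk x hx) m
        subst ht
        refine ⟨t.get, ?_, ?_⟩
        · simp [hi]
        · have e : List.ofFn t.get = t := List.ofFn_get t
          rw [hs V x _ _ (by simp), e]
          exact ⟨hi', rfl⟩

theorem lc_iff [Infinite V] (cs : List K) (l : List V) (w : V) :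
    D.Lc (D.rel V) cs l w ↔ w = lc cs l := by
  induction cs generalizing l w with
  | nil => rw [MT.Lc, zr_iff, lc_nil_left]
  | cons c cs ih =>
    cases l with
    | nil => rw [MT.Lc, zr_iff, lc_nil_right]
    | cons x l =>
      rw [MT.Lc, lc_cons]
      constructor
      · rintro ⟨u, v, h1, h2, h3⟩
        rw [sc_iff] at h1
        rw [ih] at h2
        rw [rel0] at h3
        rw [h3, h1, h2]
      · rintro rfl
        exact ⟨c • x, lc cs l, (sc_iff D V c x _).2 rfl, (ih l _).2 rfl, (rel0 D V _ _ _).2 rfl⟩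

theorem axioms_of_module [Nontrivial V] : D.Axioms (D.rel V) := by
  obtain ⟨v, hv⟩ := exists_ne (0 : V)
  have := D.inf
  have hinf : Infinite V := infinite_of_ne (K := K) hv
  refine ⟨⟨v, ?_⟩, ?_, ?_, ?_, ?_, ?_, ?_, ?_, ?_, ?_, ?_, ?_, ?_⟩
  · rw [zr_iff]; exact hv
  · intro x y; exact ⟨x + y, (rel0 D V _ _ _).2 rfl⟩
  · intro x y z w h1 h2
    rw [rel0] at h1 h2
    rw [h1, h2]
  · intro x y z h
    rw [rel0] at h ⊢
    rw [h, add_comm]
  · intro x y z u v w h1 h2 h3
    rw [rel0] at h1 h2 h3 ⊢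
    rw [h3, h1, h2, add_assoc]
  · intro x z h
    rw [rel0, add_self' D V] at h
    rw [zr_iff]; exact h
  · intro x z h
    rw [zr_iff] at h
    rw [rel0, h, add_zero]
  · intro c x; exact ⟨c • x, (sc_iff D V _ _ _).2 rfl⟩
  · intro c x y z h1 h2
    rw [sc_iff] at h1 h2
    rw [h1, h2]
  · intro c x y x' y' u w h1 h2 h3 h4
    rw [sc_iff] at h1 h2 ⊢
    rw [rel0] at h3 h4
    rw [h4, h1, h2, h3, smul_add]
  · intro c d x y z w h1 h2 h3
    rw [sc_iff] at h1 h2 ⊢
    rw [rel0] at h3
    rw [h3, h1, h2, add_smul]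
  · intro c d x y z h1 h2
    rw [sc_iff] at h1 h2 ⊢
    rw [h2, h1, mul_smul]
  · intro i S z hz
    have hlen : (List.ofFn z).length = a i := by simp
    have hz' : ∀ c : List K, c.length = a i → (∀ x ∈ c, x ∈ D.F (D.n i)) →
        (lc c (List.ofFn z) = 0 ↔ c ∈ S) := by
      intro c hc hcF
      have h := hz (fun j => ⟨c.get (j.cast hc.symm), hcF _ (List.get_mem _ _)⟩)
      have e : (List.ofFn fun j : Fin (a i) => c.get (j.cast hc.symm)) = c := by
        apply List.ext_get
        · simp [hc]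
        · intro m h1 h2; simp
      rw [e] at h
      rw [← h]
      constructor
      · intro h0
        exact ⟨0, by rw [lc_iff, h0], (zr_iff D V 0).2 rfl⟩
      · rintro ⟨w, h1, h2⟩
        rw [lc_iff] at h1
        rw [zr_iff] at h2
        rw [← h1, h2]
    constructor
    · rintro ⟨-, h⟩
      exact ⟨V, inferInstance, inferInstance, List.ofFn z, hlen, hz', h⟩
    · rintro ⟨V', i1, i2, l, hl, hS, hR⟩
      refine ⟨hlen, ?_⟩
      refine (D.inv i V V' (List.ofFn z) l hlen hl ?_).2 hR
      intro c hc hcF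
      rw [hz' c hc hcF, hS c hc hcF]

end

/-- Models of the axioms are vector spaces. -/
theorem module_of_axioms (D : MT K a) (N : Type) (H : ℕ → List N → Prop) (h : D.Axioms H) :
    ∃ (_ : AddCommGroup N) (_ : Module K N), Nontrivial N ∧
      ∀ i l, l.length = a i → (H i l ↔ D.R i N l) := by
  obtain ⟨v₀, hv₀⟩ := h.ne
  choose add hadd using h.p1
  have hadd' : ∀ x y z, H 0 [x, y, z] ↔ z = add x y := fun x y z =>
    ⟨fun h1 => h.p2 x y z _ h1 (hadd x y), fun h1 => h1 ▸ hadd x y⟩
  set z₀ : N := add v₀ v₀ with hz₀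
  have hzr : Zr H z₀ := h.p6 v₀ z₀ (hadd v₀ v₀)
  have hcomm : ∀ x y, add x y = add y x := fun x y =>
    (hadd' _ _ _).1 (h.p3 _ _ _ (hadd x y)) |>.symm ▸ rfl
  have hadd0 : ∀ x, add x z₀ = x := fun x => ((hadd' _ _ _).1 (h.p7 x z₀ hzr)).symm
  have hassoc : ∀ x y z, add (add x y) z = add x (add y z) := fun x y z =>
    (hadd' _ _ _).1 (h.p5 x y z _ _ _ (hadd x y) (hadd y z) (hadd _ z))
  have hzr' : ∀ z, Zr H z ↔ z = z₀ := by
    intro z
    constructor
    · intro hz
      have h1 : add z₀ z = z₀ := ((hadd' _ _ _).1 (h.p7 z₀ z hz)).symm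
      rw [← h1, hcomm, hadd0]
    · rintro rfl; exact hzr
  have hself : ∀ x, add x x = z₀ := fun x => (hzr' _).1 (h.p6 x _ (hadd x x))
  choose smul hsmul using h.s1
  have hsmul' : ∀ c x y, D.Sc H c x y ↔ y = smul c x := fun c x y =>
    ⟨fun h1 => h.s2 c x y _ h1 (hsmul c x), fun h1 => h1 ▸ hsmul c x⟩
  let j1 : Add N := ⟨add⟩
  let j2 : Zero N := ⟨z₀⟩
  let j3 : Neg N := ⟨fun x => x⟩
  let i0 : AddGroup N := AddGroup.ofLeftAxioms hassoc
    (fun x => by show add z₀ x = x; rw [hcomm]; exact hadd0 x) hself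
  let i1 : AddCommGroup N := { i0 with add_comm := hcomm }
  have hA : ∀ x y : N, x + y = add x y := fun _ _ => rfl
  have hZ : (0 : N) = z₀ := rfl
  have sadd : ∀ c x y, smul c (x + y) = smul c x + smul c y := by
    intro c x y
    exact ((hsmul' _ _ _).1 (h.s3 c x _ y _ _ _ (hsmul c x) (hsmul c y) (hadd x y)
      (hadd _ _))).symm
  have szero : ∀ c, smul c 0 = 0 := by
    intro c
    have h1 := sadd c 0 0
    rw [add_zero] at h1
    have h2 : smul c 0 + 0 = smul c 0 + smul c 0 := by rw [add_zero]; exact h1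
    exact (add_left_cancel h2).symm
  have hz0 : (0 : K) ∈ D.F 0 := (D.F 0).zero_mem
  have hz1 : (1 : K) ∈ D.F 0 := (D.F 0).one_mem
  let i2 : Module K N :=
    { smul := smul
      one_smul := fun x => by
        show smul 1 x = x
        have h1 := hsmul 1 x
        unfold MT.Sc at h1
        rw [dif_pos hz1, if_neg one_ne_zero] at h1
        exact h1
      mul_smul := fun c d x => by
        show smul (c * d) x = smul c (smul d x)
        exact ((hsmul' _ _ _).1 (h.s5 c d x _ _ (hsmul d x) (hsmul c _))).symm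
      smul_zero := szero
      smul_add := sadd
      add_smul := fun c d x => by
        show smul (c + d) x = smul c x + smul d x
        exact ((hsmul' _ _ _).1 (h.s4 c d x _ _ _ (hsmul c x) (hsmul d x) (hadd _ _))).symm
      zero_smul := fun x => by
        show smul 0 x = 0
        have h1 := hsmul 0 x
        unfold MT.Sc at h1
        rw [dif_pos hz0, if_pos rfl] at h1
        exact (hzr' _).1 h1 }
  have hS : ∀ (c : K) (x : N), c • x = smul c x := fun _ _ => rfl
  have hlc : ∀ (cs : List K) (l : List N) (w : N), D.Lc H cs l w ↔ w = lc cs l := by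
    intro cs
    induction cs with
    | nil => intro l w; rw [MT.Lc, hzr', lc_nil_left, hZ]
    | cons c cs ih =>
      intro l w
      cases l with
      | nil => rw [MT.Lc, hzr', lc_nil_right, hZ]
      | cons x l =>
        rw [MT.Lc, lc_cons]
        constructor
        · rintro ⟨u, v, h1, h2, h3⟩
          rw [hsmul'] at h1
          rw [ih] at h2
          rw [hadd'] at h3
          rw [h3, h1, h2, hA, hS]
        · rintro rfl
          exact ⟨c • x, lc cs l, (hsmul' c x _).2 rfl, (ih l _).2 rfl, (hadd' _ _ _).2 rfl⟩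
  refine ⟨i1, i2, ⟨⟨v₀, 0, fun h0 => hv₀ ((hzr' _).2 h0)⟩⟩, ?_⟩
  intro i l hl
  have hl' : ∃ z : Fin (a i) → N, List.ofFn z = l := by
    refine ⟨fun j => l.get (j.cast hl.symm), ?_⟩
    apply List.ext_get
    · simp [hl]
    · intro m h1 h2; simp
  obtain ⟨z, rfl⟩ := hl'
  set S : Set (List K) := {c | lc c (List.ofFn z) = 0} with hSdef
  have h1 := h.r i S z (by
    intro c
    constructor
    · rintro ⟨w, h2, h3⟩
      rw [hlc] at h2
      rw [hzr'] at h3
      show lc (List.ofFn fun l => (c l : K)) (List.ofFn z) = 0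
      rw [← h2, h3, hZ]
    · intro h2
      have h3 : lc (List.ofFn fun l => (c l : K)) (List.ofFn z) = 0 := h2
      refine ⟨0, ?_, (hzr' _).2 hZ⟩
      rw [hlc]
      exact h3.symm)
  rw [h1]
  constructor
  · rintro ⟨V', j1, j2, l', hl2, hS2, hR⟩
    refine (D.inv i N V' (List.ofFn z) l' hl hl2 ?_).2 hR
    intro c hc hcF
    rw [hS2 c hc hcF]
    rfl
  · intro hR
    exact ⟨N, i1, i2, List.ofFn z, hl, fun c _ _ => Iff.rfl, hR⟩

end Pool.Agent.Work.MP_ed0a9a_lc.HM
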