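import Pool.Agent.Work.MP_ed0a9a_lc.H.MtAx
import Pool.Agent.Work.MP_ed0a9a_lc.H.MtMod
import Pool.Agent.Work.MP_ed0a9a_lc.H.MtEF
import Pool.Agent.Work.MP_ed0a9a_lc.V.Cat
import Pool.Agent.Work.MP_ed0a9a_lc.V.Elem

/-!
# The theory of the structures on vector spaces
-/

set_option linter.style.haveILetI false

namespace Pool.Agent.Work.MP_ed0a9a_lc.HM

open FirstOrder FirstOrder.Language Cardinal

variable {K : Type} [Field K] {a : ℕ → ℕ}

theorem hd_ofFn {N : Type} (S : (sig a).Structure N) {n : ℕ} (r : (sig a).Relations n)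
    (v : Fin n → N) : hd a S r.1 (List.ofFn v) ↔ S.RelMap r v := by
  obtain ⟨i, hi⟩ := r
  subst hi
  unfold hd
  constructor
  · rintro ⟨h, hr⟩
    convert hr using 1
    funext t
    simp
  · intro hr
    refine ⟨by simp, ?_⟩
    convert hr using 1
    funext t
    simp

section
variable (D : MT K a) {V V' : Type} [AddCommGroup V] [Module K V] [AddCommGroup V'] [Module K V']

theorem R_map (f : V →ₗ[K] V') (hf : Function.Injective f) (i : ℕ) (l : List V)
    (hl : l.length = a i) : D.R i V' (l.map f) ↔ D.R i V l := by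
  refine D.inv i V' V _ _ (by simpa using hl) hl fun c _ _ => ?_
  rw [lc_map, map_eq_zero_iff f hf]

include D in
theorem countable_K : Countable K := by
  have h : (Set.univ : Set K) = ⋃ n, (D.F n : Set K) := by
    ext x
    simp only [Set.mem_univ, Set.mem_iUnion, true_iff]
    exact D.cov x
  rw [← Set.countable_univ_iff, h]
  refine Set.countable_iUnion fun n => ?_
  have := D.fin n
  exact Set.to_countable _

/-- Isomorphism of structures from a linear equivalence. -/
theorem equiv_of_linear (e : V ≃ₗ[K] V') :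
    letI := D.str V
    letI := D.str V'
    Nonempty (V ≃[sig a] V') := by
  letI := D.str V
  letI := D.str V'
  refine ⟨⟨e.toEquiv, ?_, ?_⟩⟩
  · intro n f; exact Empty.elim f
  · intro n r x
    obtain ⟨i, hi⟩ := r
    subst hi
    have h := R_map D (e : V →ₗ[K] V') e.injective i (List.ofFn x) (by simp)
    rw [List.map_ofFn] at h
    exact h

theorem linear_of_embedding [Nontrivial V] [Nontrivial V'] (f : letI := D.str V
    letI := D.str V'
    V ↪[sig a] V') : ∃ g : V →ₗ[K] V', Function.Injective g := by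
  letI := D.str V
  letI := D.str V'
  have := D.inf
  obtain ⟨v, hv⟩ := exists_ne (0 : V)
  obtain ⟨v', hv'⟩ := exists_ne (0 : V')
  have i1 : Infinite V := infinite_of_ne (K := K) hv
  have i2 : Infinite V' := infinite_of_ne (K := K) hv'
  have hR : ∀ i l, D.rel V' i (l.map f) ↔ D.rel V i l := by
    intro i l
    by_cases hl : l.length = a i
    · obtain ⟨x, rfl⟩ : ∃ x : Fin (a i) → V, List.ofFn x = l := by
        refine ⟨fun j => l.get (j.cast hl.symm), ?_⟩
        apply List.ext_get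
        · simp [hl]
        · intro m h1 h2; simp
      have h1 := f.map_rel (r := ⟨i, rfl⟩) x
      have h2 := hd_ofFn (D.str V) (n := a i) ⟨i, rfl⟩ x
      have h3 := hd_ofFn (D.str V') (n := a i) ⟨i, rfl⟩ (f ∘ x)
      rw [D.hd_str] at h2 h3
      rw [List.map_ofFn]
      exact h3.trans (h1.trans h2.symm)
    · constructor
      · rintro ⟨h, -⟩
        exact absurd (by simpa using h) hl
      · rintro ⟨h, -⟩
        exact absurd h hl
  have hadd : ∀ x y, f (x + y) = f x + f y := by
    intro x y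
    have h1 := (hR 0 [x, y, x + y]).2 ((rel0 D V x y _).2 rfl)
    exact (rel0 D V' _ _ _).1 h1
  have hz : ∀ x, Zr (D.rel V') (f x) ↔ Zr (D.rel V) x := fun x => hR 0 [x, x, x]
  have hsmul : ∀ (c : K) x, f (c • x) = c • f x := by
    intro c x
    have h1 := (sc_iff D V c x _).2 rfl
    rw [← sc_iff D V']
    unfold MT.Sc at h1 ⊢
    by_cases h0 : c ∈ D.F 0
    · rw [dif_pos h0] at h1 ⊢
      by_cases hc : c = 0
      · rw [if_pos hc] at h1 ⊢
        exact (hz _).2 h1
      · rw [if_neg hc] at h1 ⊢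
        rw [h1]
    · rw [dif_neg h0] at h1 ⊢
      rcases h1 with ⟨h1, h2⟩ | ⟨t, ht⟩
      · exact Or.inl ⟨(hz _).2 h1, (hz _).2 h2⟩
      · right
        refine ⟨fun j => f (t j), ?_⟩
        have h3 := (hR _ _).2 ht
        rw [List.map_cons, List.map_cons, List.map_ofFn] at h3
        exact h3
  exact ⟨{ toFun := f, map_add' := hadd, map_smul' := hsmul }, f.injective⟩

end

section
variable (D : MT K a)

theorem nontrivial_fs (J : Type) [Nonempty J] : Nontrivial (J →₀ K) := by
  have : Nontrivial K := inferInstance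
  infer_instance

include D in
theorem infinite_fs (J : Type) [Nonempty J] : Infinite (J →₀ K) := by
  have := D.inf
  have := nontrivial_fs (K := K) J
  obtain ⟨v, hv⟩ := exists_ne (0 : J →₀ K)
  exact infinite_of_ne (K := K) hv

theorem classify (N : Type) [S : (sig a).Structure N] (h : D.Axioms (hd a S)) :
    ∃ J : Type, Nonempty J ∧ (letI := D.str (J →₀ K); Nonempty ((J →₀ K) ≃[sig a] N)) := by
  obtain ⟨i1, i2, hnt, hH⟩ := module_of_axioms D N _ h
  let b := Module.Basis.ofVectorSpace K N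
  refine ⟨Module.Basis.ofVectorSpaceIndex K N, ?_, ?_⟩
  · by_contra hJ
    rw [not_nonempty_iff] at hJ
    obtain ⟨v, hv⟩ := exists_ne (0 : N)
    apply hv
    apply b.repr.injective
    ext j
    exact (hJ.false j).elim
  · letI := D.str (Module.Basis.ofVectorSpaceIndex K N →₀ K)
    have e := b.repr.symm
    refine ⟨⟨e.toEquiv, ?_, ?_⟩⟩
    · intro n f; exact Empty.elim f
    · intro n r x
      obtain ⟨i, hi⟩ := r
      subst hi
      have h1 := R_map D (e : (Module.Basis.ofVectorSpaceIndex K N →₀ K) →ₗ[K] N) e.injective i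
        (List.ofFn x) (by simp)
      rw [List.map_ofFn] at h1
      have h2 := hd_ofFn S (n := a i) ⟨i, rfl⟩ (e ∘ x)
      rw [hH i _ (by simp)] at h2
      exact h2.symm.trans h1

theorem categorical1 (T : (sig a).Theory)
    (hT : ∀ (N : Type) [Nonempty N] [S : (sig a).Structure N], N ⊨ T ↔ D.Axioms (hd a S)) :
    (Cardinal.aleph 1 : Cardinal.{0}).Categorical T := by
  have hlt : ℵ₀ < Cardinal.aleph 1 := by
    rw [← Cardinal.aleph_zero]
    exact Cardinal.aleph_lt_aleph.2 zero_lt_one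
  have hK := countable_K D
  have hKi := D.inf
  intro M N hM hN
  obtain ⟨J, hJ, ⟨f⟩⟩ := classify D M ((hT M).1 M.is_model)
  obtain ⟨J', hJ', ⟨f'⟩⟩ := classify D N ((hT N).1 N.is_model)
  letI := D.str (J →₀ K)
  letI := D.str (J' →₀ K)
  have key : ∀ (J : Type) (A : Type), Nonempty ((J →₀ K) ≃ A) → Cardinal.mk A = Cardinal.aleph 1 →
      Cardinal.mk J = Cardinal.aleph 1 := by
    rintro J A ⟨g⟩ hA
    have h1 : Cardinal.mk (J →₀ K) = Cardinal.aleph 1 := (Cardinal.mk_congr g).trans hA
    have hinf : Infinite J := by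
      by_contra hfin
      rw [not_infinite_iff_finite] at hfin
      have : Cardinal.mk (J →₀ K) ≤ ℵ₀ := Cardinal.mk_le_aleph0_iff.2 inferInstance
      rw [h1] at this
      exact absurd this (not_le.2 hlt)
    rw [Cardinal.mk_finsupp_of_infinite'] at h1
    rcases le_total (Cardinal.mk J) (Cardinal.mk K) with h | h
    · rw [max_eq_right h] at h1
      have : Cardinal.mk K ≤ ℵ₀ := Cardinal.mk_le_aleph0_iff.2 hK
      rw [h1] at this
      exact absurd this (not_le.2 hlt)
    · rwa [max_eq_left h] at h1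
  have h1 := key J M ⟨f.toEquiv⟩ hM
  have h2 := key J' N ⟨f'.toEquiv⟩ hN
  obtain ⟨e⟩ := Cardinal.eq.1 (h1.trans h2.symm)
  obtain ⟨F⟩ := equiv_of_linear D (Finsupp.domLCongr e : (J →₀ K) ≃ₗ[K] (J' →₀ K))
  exact ⟨f'.comp (F.comp f.symm)⟩

theorem complete_T (T : (sig a).Theory)
    (hT : ∀ (N : Type) [Nonempty N] [S : (sig a).Structure N], N ⊨ T ↔ D.Axioms (hd a S)) :
    T.IsComplete := by
  apply (categorical1 D T hT).isComplete (Cardinal.aleph 1) T
  · exact Cardinal.aleph0_le_aleph 1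
  · simp only [Cardinal.lift_id]
    exact (V.card_sig _).trans (Cardinal.aleph0_le_aleph 1)
  · letI := D.str (Unit →₀ K)
    have := nontrivial_fs (K := K) Unit
    have h : (Unit →₀ K) ⊨ T := by
      rw [hT, D.hd_str]
      exact axioms_of_module D _
    exact Theory.Model.isSatisfiable (Unit →₀ K)
  · intro M
    obtain ⟨J, hJ, ⟨f⟩⟩ := classify D M ((hT M).1 M.is_model)
    letI := D.str (J →₀ K)
    have := infinite_fs D J
    exact Infinite.of_injective f f.injective

theorem rank_le {I J : Type} [Nonempty I] [Nonempty J] (f : letI := D.str (I →₀ K)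
    letI := D.str (J →₀ K)
    (I →₀ K) ↪[sig a] (J →₀ K)) : Cardinal.mk I ≤ Cardinal.mk J := by
  have := nontrivial_fs (K := K) I
  have := nontrivial_fs (K := K) J
  obtain ⟨g, hg⟩ := linear_of_embedding D f
  have h := LinearMap.rank_le_of_injective g hg
  rwa [rank_finsupp_self', rank_finsupp_self'] at h

end

theorem exists_Jt' (J : Type) [Countable J] [Nonempty J] :
    ∃ i : ℕ∞, Nonempty (J ≃ Jt (i + 1)) := by
  obtain ⟨i, ⟨e⟩⟩ := V.exists_Jt J
  have hi : i ≠ 0 := by
    rintro rfl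
    obtain ⟨j⟩ := ‹Nonempty J›
    have := (e j).2
    simp at this
  obtain ⟨i', rfl⟩ : ∃ i' : ℕ∞, i = i' + 1 := by
    induction i using ENat.recTopCoe with
    | top => exact ⟨⊤, by simp⟩
    | coe n =>
      obtain ⟨m, rfl⟩ := Nat.exists_eq_succ_of_ne_zero (by simpa using hi)
      exact ⟨m, by push_cast; rfl⟩
  exact ⟨i', ⟨e⟩⟩

instance (i : ℕ∞) : Nonempty (Jt (i + 1)) := ⟨⟨0, by simp⟩⟩

/-- The model theoretic part. -/
theorem main (D : MT K a) : ∃ T : (sig a).Theory, T.IsComplete ∧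
    (Cardinal.aleph 1 : Cardinal.{0}).Categorical T ∧
    ¬ (Cardinal.aleph0 : Cardinal.{0}).Categorical T ∧
    (∀ i : ℕ∞, letI := D.str (Jt (i + 1) →₀ K)
      Countable (Jt (i + 1) →₀ K) ∧ (Jt (i + 1) →₀ K) ⊨ T) ∧
    (∀ (N : Type) [Nonempty N] [Countable N] [(sig a).Structure N], N ⊨ T →
      ∃ i : ℕ∞, letI := D.str (Jt (i + 1) →₀ K)
        Nonempty ((Jt (i + 1) →₀ K) ≃[sig a] N)) ∧
    (∀ i j : ℕ∞, (letI := D.str (Jt (i + 1) →₀ K)
      letI := D.str (Jt (j + 1) →₀ K)
      Nonempty ((Jt (i + 1) →₀ K) ↪ₑ[sig a] (Jt (j + 1) →₀ K))) ↔ i ≤ j) := by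
  obtain ⟨T, hT⟩ := exists_T D
  have hK := countable_K D
  have hKi := D.inf
  have hmod : ∀ (J : Type) [Nonempty J], letI := D.str (J →₀ K); (J →₀ K) ⊨ T := by
    intro J _
    letI := D.str (J →₀ K)
    have := nontrivial_fs (K := K) J
    rw [hT, D.hd_str]
    exact axioms_of_module D _
  refine ⟨T, complete_T D T hT, categorical1 D T hT, ?_, fun i => ⟨inferInstance, hmod _⟩, ?_, ?_⟩
  · intro hc
    letI s1 := D.str (Fin 1 →₀ K)
    letI s2 := D.str (Fin 2 →₀ K)
    have m1 := hmod (Fin 1)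
    have m2 := hmod (Fin 2)
    have := infinite_fs D (Fin 1)
    have := infinite_fs D (Fin 2)
    have h1 : Cardinal.mk (Fin 1 →₀ K) = ℵ₀ := Cardinal.mk_eq_aleph0 _
    have h2 : Cardinal.mk (Fin 2 →₀ K) = ℵ₀ := Cardinal.mk_eq_aleph0 _
    obtain ⟨f⟩ := hc (Theory.ModelType.of T (Fin 1 →₀ K)) (Theory.ModelType.of T (Fin 2 →₀ K))
      h1 h2
    let f' : (Fin 1 →₀ K) ≃[sig a] (Fin 2 →₀ K) := f
    have h3 := rank_le D f'.symm.toEmbedding
    simp only [Cardinal.mk_fin] at h3
    have h4 : (2 : ℕ) ≤ 1 := by exact_mod_cast h3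
    omega
  · intro N _ _ S hN
    obtain ⟨J, hJ, ⟨f⟩⟩ := classify D N ((hT N).1 hN)
    letI := D.str (J →₀ K)
    have hJc : Countable J := by
      have : Function.Injective (fun j : J => f (Finsupp.single j (1 : K))) := by
        intro j j' hj
        exact Finsupp.single_left_injective one_ne_zero (f.injective hj)
      exact this.countable
    obtain ⟨i, ⟨e⟩⟩ := exists_Jt' J
    refine ⟨i, ?_⟩
    letI := D.str (Jt (i + 1) →₀ K)
    obtain ⟨F⟩ := equiv_of_linear D (Finsupp.domLCongr e : (J →₀ K) ≃ₗ[K] (Jt (i + 1) →₀ K))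
    exact ⟨f.comp F.symm⟩
  · intro i j
    letI := D.str (Jt (i + 1) →₀ K)
    letI := D.str (Jt (j + 1) →₀ K)
    constructor
    · rintro ⟨f⟩
      have h1 := rank_le D f.toEmbedding
      by_contra hij
      have hji : j < i := not_le.1 hij
      obtain ⟨m, rfl⟩ := ENat.ne_top_iff_exists.1 (ne_top_of_lt hji)
      have e1 : Cardinal.mk (Jt ((m : ℕ∞) + 1)) = (m + 1 : ℕ) := by
        have : Nonempty (Jt ((m : ℕ∞) + 1) ≃ Fin (m + 1)) := ⟨{
          toFun := fun r => ⟨r.1, by exact_mod_cast r.2⟩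
          invFun := fun r => ⟨r.1, by exact_mod_cast r.2⟩
          left_inv := fun r => rfl
          right_inv := fun r => rfl }⟩
        rw [Cardinal.mk_congr this.some, Cardinal.mk_fin]
      have hlt : ∀ r : Fin (m + 2), ((r.1 : ℕ) : ℕ∞) < i + 1 := by
        intro r
        have h2 : ((m : ℕ∞) + 1) ≤ i := Order.add_one_le_of_lt hji
        have h3 : ((m : ℕ∞) + 1 + 1) ≤ i + 1 := add_le_add_left h2 1
        refine lt_of_lt_of_le ?_ h3
        have h4 : r.1 < m + 1 + 1 := r.2
        exact_mod_cast h4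
      have h5 : Function.Injective (fun r : Fin (m + 2) => (⟨r.1, hlt r⟩ : Jt (i + 1))) := by
        intro r r' h
        exact Fin.ext (congrArg Subtype.val h)
      have h6 := (Cardinal.mk_le_of_injective h5).trans h1
      rw [e1, Cardinal.mk_fin] at h6
      have h7 : m + 2 ≤ m + 1 := by exact_mod_cast h6
      omega
    · intro hij
      have hij' : i + 1 ≤ j + 1 := add_le_add_left hij 1
      let f : Jt (i + 1) → Jt (j + 1) := fun r => ⟨r.1, lt_of_lt_of_le r.2 hij'⟩
      have hf : Function.Injective f := by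
        intro r r' h
        have h1 : (f r).1 = (f r').1 := by rw [h]
        exact Subtype.ext h1
      have i1 := infinite_fs D (Jt (i + 1))
      have i2 := infinite_fs D (Jt (j + 1))
      obtain ⟨g, -⟩ := elementary D (Jt (i + 1) →₀ K) (Jt (j + 1) →₀ K) i1 i2
        (Finsupp.lmapDomain K K f) (Finsupp.mapDomain_injective hf)
      exact ⟨g⟩

end Pool.Agent.Work.MP_ed0a9a_lc.HM
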