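import Mathlib
import Pool.Agent.Work.MP_ed0a9a_lc.Bits

/-!
# Module `H/Fld`: a computable union of finite fields of characteristic 2

Nim multiplication on the natural numbers.  `fA n = 2 ^ 2 ^ n` is the size of the `n`-th field,
`fA (n+1)` consists of the numbers `x0 + fA n * x1`, with `w = fA n`, `w * w = w + fc n`,
`fc n = 2 ^ (2 ^ n - 1)`.
-/

namespace Pool.Agent.Work.MP_ed0a9a_lc.H

namespace Nim

/-- the size of the `n`-th finite field -/
def fA (n : ℕ) : ℕ := 2 ^ 2 ^ n

/-- the constant of the `n`-th quadratic extension -/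
def fc (n : ℕ) : ℕ := 2 ^ (2 ^ n - 1)

/-- reading a multiplication table -/
def look (n : ℕ) (T : List ℕ) (x y : ℕ) : ℕ := T.getD (x * fA n + y) 0

/-- one step of the multiplication table -/
def stepM (n : ℕ) (T : List ℕ) (x y : ℕ) : ℕ :=
  (look n T (x % fA n) (y % fA n) ^^^ look n T (look n T (x / fA n) (y / fA n)) (fc n)) +
    fA n * ((look n T (x % fA n) (y / fA n) ^^^ look n T (x / fA n) (y % fA n)) ^^^
      look n T (x / fA n) (y / fA n))

/-- the multiplication tables -/
def tab : ℕ → List ℕ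
  | 0 => [0, 0, 0, 1]
  | n + 1 => (List.range (fA (n + 1) * fA (n + 1))).map
      (fun k => stepM n (tab n) (k / fA (n + 1)) (k % fA (n + 1)))

/-- multiplication at level `n` -/
def nm (n x y : ℕ) : ℕ := look n (tab n) x y

/-- nim multiplication -/
def fmul (x y : ℕ) : ℕ := nm (x + y) x y

lemma fA_pos (n : ℕ) : 0 < fA n := by unfold fA; positivity

lemma fA_succ (n : ℕ) : fA (n + 1) = fA n * fA n := by
  unfold fA; rw [← pow_add, pow_succ]; congr 1; ring

lemma fA_zero : fA 0 = 2 := by decide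

lemma fA_mono {n m : ℕ} (h : n ≤ m) : fA n ≤ fA m := by
  unfold fA
  exact Nat.pow_le_pow_right (by norm_num) (Nat.pow_le_pow_right (by norm_num) h)

lemma two_le_fA (n : ℕ) : 2 ≤ fA n := by
  have := fA_mono (Nat.zero_le n); rwa [fA_zero] at this

lemma lt_fA (n : ℕ) : n < fA n := by
  unfold fA
  exact (Nat.lt_two_pow_self).trans Nat.lt_two_pow_self

lemma fc_lt (n : ℕ) : fc n < fA n := by
  unfold fc fA
  apply Nat.pow_lt_pow_right (by norm_num)
  have : 0 < 2 ^ n := by positivity
  omega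

lemma fc_succ (n : ℕ) : fc (n + 1) = fA n * fc n := by
  unfold fc fA
  rw [← pow_add]
  congr 1
  have : 0 < 2 ^ n := by positivity
  rw [pow_succ]; omega

lemma nm_zero : ∀ x < 2, ∀ y < 2, nm 0 x y = x * y := by decide

lemma nm_succ (n x y : ℕ) (hx : x < fA (n + 1)) (hy : y < fA (n + 1)) :
    nm (n + 1) x y =
      (nm n (x % fA n) (y % fA n) ^^^ nm n (nm n (x / fA n) (y / fA n)) (fc n)) +
      fA n * ((nm n (x % fA n) (y / fA n) ^^^ nm n (x / fA n) (y % fA n)) ^^^
        nm n (x / fA n) (y / fA n)) := by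
  have hk : x * fA (n + 1) + y < fA (n + 1) * fA (n + 1) := by
    calc x * fA (n + 1) + y < x * fA (n + 1) + fA (n + 1) := by omega
      _ = (x + 1) * fA (n + 1) := by ring
      _ ≤ fA (n + 1) * fA (n + 1) := Nat.mul_le_mul_right _ hx
  have h1 : (x * fA (n + 1) + y) / fA (n + 1) = x := by
    rw [mul_comm, Nat.mul_add_div (fA_pos _), Nat.div_eq_of_lt hy, add_zero]
  have h2 : (x * fA (n + 1) + y) % fA (n + 1) = y := by
    rw [mul_comm, Nat.mul_add_mod, Nat.mod_eq_of_lt hy]
  unfold nm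
  conv_lhs => rw [look, tab]
  rw [List.getD_eq_getElem?_getD, List.getElem?_map, List.getElem?_range hk]
  simp only [Option.map_some, Option.getD_some, h1, h2]
  rfl

/-- the inductive statement: level `n` is a field -/
private def Lv (n : ℕ) : Prop :=
  ∃ (T : Type) (_ : Field T) (e : Fin (fA n) ≃ T),
    (∀ x y, (e.symm (e x + e y)).val = x.val ^^^ y.val) ∧
    (∀ x y, (e.symm (e x * e y)).val = nm n x.val y.val) ∧
    (e.symm 0).val = 0 ∧ (e.symm 1).val = 1 ∧
    ∀ r : Fin (fA n), nm n r.val r.val ^^^ r.val ≠ fc n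

/-- splitting of a number -/
private def spl (n : ℕ) : Fin (fA (n + 1)) ≃ Fin (fA n) × Fin (fA n) where
  toFun x := (⟨x.val % fA n, Nat.mod_lt _ (fA_pos n)⟩,
    ⟨x.val / fA n, Nat.div_lt_of_lt_mul (by rw [← fA_succ]; exact x.isLt)⟩)
  invFun p := ⟨p.1.val + fA n * p.2.val, by
    rw [fA_succ]
    calc p.1.val + fA n * p.2.val < fA n + fA n * p.2.val := by have := p.1.isLt; omega
      _ = fA n * (p.2.val + 1) := by ring
      _ ≤ fA n * fA n := Nat.mul_le_mul_left _ p.2.isLt⟩
  left_inv x := by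
    apply Fin.ext
    exact Nat.mod_add_div _ _
  right_inv p := by
    apply Prod.ext
    · apply Fin.ext
      show (p.1.val + fA n * p.2.val) % fA n = p.1.val
      rw [Nat.add_mul_mod_self_left, Nat.mod_eq_of_lt p.1.isLt]
    · apply Fin.ext
      show (p.1.val + fA n * p.2.val) / fA n = p.2.val
      rw [Nat.add_mul_div_left _ _ (fA_pos n), Nat.div_eq_of_lt p.1.isLt, zero_add]

private lemma xor_spl (n x y : ℕ) :
    ((x % fA n) ^^^ (y % fA n)) + fA n * ((x / fA n) ^^^ (y / fA n)) = x ^^^ y := by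
  have h1 : (x ^^^ y) % fA n = (x % fA n) ^^^ (y % fA n) := Nat.xor_mod_two_pow
  have h2 : (x ^^^ y) / fA n = (x / fA n) ^^^ (y / fA n) := Nat.xor_div_two_pow
  rw [← h1, ← h2, Nat.mod_add_div]

private lemma lv_zero : Lv 0 := by
  have h2 : fA 0 = 2 := fA_zero
  refine ⟨ZMod 2, inferInstance, Equiv.refl (Fin 2), ?_, ?_, rfl, rfl, ?_⟩
  · intro x y; revert x y; decide
  · intro x y; revert x y; decide
  · intro r; revert r; decide

private lemma lv_succ (n : ℕ) (h : Lv n) : Lv (n + 1) := by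
  obtain ⟨T, F, e, hadd, hmul, h0, h1, hnr⟩ := h
  have hadd' : ∀ a b : T, (e.symm (a + b)).val = (e.symm a).val ^^^ (e.symm b).val := by
    intro a b
    have := hadd (e.symm a) (e.symm b)
    rwa [e.apply_symm_apply, e.apply_symm_apply] at this
  have hmul' : ∀ a b : T, (e.symm (a * b)).val = nm n (e.symm a).val (e.symm b).val := by
    intro a b
    have := hmul (e.symm a) (e.symm b)
    rwa [e.apply_symm_apply, e.apply_symm_apply] at this
  have hval : ∀ a b : T, (e.symm a).val = (e.symm b).val → a = b := by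
    intro a b hab
    exact e.symm.injective (Fin.ext hab)
  have hself : ∀ a : T, a + a = 0 := by
    intro a
    apply hval
    rw [hadd', Nat.xor_self, h0]
  set c : T := e ⟨fc n, fc_lt n⟩ with hc
  have hcv : (e.symm c).val = fc n := by rw [hc, e.symm_apply_apply]
  have hroot : ∀ r : T, r * r + r ≠ c := by
    intro r hr
    apply hnr (e.symm r)
    have := congrArg (fun t => (e.symm t).val) hr
    simp only [hadd', hmul', hcv] at this
    exact this
  have hfact : Fact (∀ r : T, r ^ 2 ≠ c + 1 * r) := ⟨by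
    intro r hr
    apply hroot r
    have : r * r = c + r := by rw [← sq, hr, one_mul]
    rw [this, add_assoc, hself, add_zero]⟩
  let E : Fin (fA (n + 1)) ≃ QuadraticAlgebra T c 1 :=
    ((spl n).trans (e.prodCongr e)).trans (QuadraticAlgebra.equivProd c 1).symm
  have he1 : ∀ x, (e.symm (E x).re).val = x.val % fA n := fun x => by
    show (e.symm (e _)).val = _
    rw [e.symm_apply_apply]
  have he2 : ∀ x, (e.symm (E x).im).val = x.val / fA n := fun x => by
    show (e.symm (e _)).val = _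
    rw [e.symm_apply_apply]
  have hes : ∀ z, (E.symm z).val = (e.symm z.re).val + fA n * (e.symm z.im).val := fun z => rfl
  have hM : ∀ x y, (E.symm (E x * E y)).val = nm (n + 1) x.val y.val := by
    intro x y
    rw [hes, QuadraticAlgebra.re_mul, QuadraticAlgebra.im_mul, nm_succ n _ _ x.isLt y.isLt]
    have e1 : (E x).re * (E y).re + c * (E x).im * (E y).im =
        (E x).re * (E y).re + ((E x).im * (E y).im) * c := by ring
    have e2 : (E x).re * (E y).im + (E x).im * (E y).re + 1 * (E x).im * (E y).im =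
        (E x).re * (E y).im + (E x).im * (E y).re + (E x).im * (E y).im := by ring
    rw [e1, e2]
    simp only [hadd', hmul', he1, he2, hcv]
  have hA : ∀ x y, (E.symm (E x + E y)).val = x.val ^^^ y.val := by
    intro x y
    rw [hes, QuadraticAlgebra.re_add, QuadraticAlgebra.im_add, hadd', hadd', he1, he1, he2, he2]
    exact xor_spl n x.val y.val
  refine ⟨QuadraticAlgebra T c 1, inferInstance, E, hA, hM, ?_, ?_, ?_⟩
  · rw [hes, QuadraticAlgebra.re_zero, QuadraticAlgebra.im_zero, h0, mul_zero, add_zero]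
  · have r1 : (1 : QuadraticAlgebra T c 1).re = 1 := rfl
    have r2 : (1 : QuadraticAlgebra T c 1).im = 0 := rfl
    rw [hes, r1, r2, h0, h1, mul_zero, add_zero]
  · intro r hr
    have h2 : (E.symm (E r * E r + E r)).val = fc (n + 1) := by
      have := hA (E.symm (E r * E r)) r
      rw [E.apply_symm_apply] at this
      rw [this, hM, hr]
    have h3 : E r * E r + E r = ⟨0, c⟩ := by
      apply E.symm.injective
      apply Fin.ext
      rw [h2, hes]
      show fc (n + 1) = (e.symm 0).val + fA n * (e.symm c).val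
      rw [h0, hcv, fc_succ, zero_add]
    have h4 := congrArg QuadraticAlgebra.im h3
    rw [QuadraticAlgebra.im_add, QuadraticAlgebra.im_mul] at h4
    apply hroot (E r).im
    have h5 : (E r).re * (E r).im + (E r).im * (E r).re + 1 * (E r).im * (E r).im +
      (E r).im = c := h4
    have := hself ((E r).re * (E r).im)
    linear_combination h5 - this

private lemma lv_all (n : ℕ) : Lv n := by
  induction n with
  | zero => exact lv_zero
  | succ n ih => exact lv_succ n ih

/-- what we use of level `n` -/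
private lemma lv_facts (n : ℕ) :
    (∀ x y, x < fA n → y < fA n → nm n x y < fA n) ∧
    (∀ x y, x < fA n → y < fA n → nm n x y = nm n y x) ∧
    (∀ x y z, x < fA n → y < fA n → z < fA n → nm n (nm n x y) z = nm n x (nm n y z)) ∧
    (∀ x y z, x < fA n → y < fA n → z < fA n → nm n x (y ^^^ z) = nm n x y ^^^ nm n x z) ∧
    (∀ x, x < fA n → nm n 1 x = x) ∧ (∀ x, x < fA n → nm n 0 x = 0) ∧
    (∀ x, x < fA n → x ≠ 0 → ∃ y, y < fA n ∧ nm n x y = 1) := by
  obtain ⟨T, F, e, hadd, hmul, h0, h1, -⟩ := lv_all n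
  have key : ∀ x y (hx : x < fA n) (hy : y < fA n),
      nm n x y = (e.symm (e ⟨x, hx⟩ * e ⟨y, hy⟩)).val := fun x y hx hy =>
    (hmul ⟨x, hx⟩ ⟨y, hy⟩).symm
  have keyx : ∀ x y (hx : x < fA n) (hy : y < fA n),
      x ^^^ y = (e.symm (e ⟨x, hx⟩ + e ⟨y, hy⟩)).val := fun x y hx hy =>
    (hadd ⟨x, hx⟩ ⟨y, hy⟩).symm
  have hcl : ∀ x y, x < fA n → y < fA n → nm n x y < fA n := by
    intro x y hx hy
    rw [key x y hx hy]
    exact (e.symm _).isLt
  have hxl : ∀ x y, x < fA n → y < fA n → x ^^^ y < fA n := by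
    intro x y hx hy
    exact Nat.xor_lt_two_pow hx hy
  have k2 : ∀ x y (hx : x < fA n) (hy : y < fA n),
      e ⟨nm n x y, hcl x y hx hy⟩ = e ⟨x, hx⟩ * e ⟨y, hy⟩ := by
    intro x y hx hy
    apply e.symm.injective
    apply Fin.ext
    rw [e.symm_apply_apply]
    exact key x y hx hy
  have k3 : ∀ x y (hx : x < fA n) (hy : y < fA n),
      e ⟨x ^^^ y, hxl x y hx hy⟩ = e ⟨x, hx⟩ + e ⟨y, hy⟩ := by
    intro x y hx hy
    apply e.symm.injective
    apply Fin.ext
    rw [e.symm_apply_apply]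
    exact keyx x y hx hy
  have e1 : e ⟨1, two_le_fA n⟩ = 1 := by
    apply e.symm.injective
    apply Fin.ext
    rw [e.symm_apply_apply, h1]
  have e0 : e ⟨0, fA_pos n⟩ = 0 := by
    apply e.symm.injective
    apply Fin.ext
    rw [e.symm_apply_apply, h0]
  refine ⟨hcl, ?_, ?_, ?_, ?_, ?_, ?_⟩
  · intro x y hx hy
    rw [key x y hx hy, key y x hy hx, mul_comm]
  · intro x y z hx hy hz
    rw [key _ z (hcl x y hx hy) hz, key x _ hx (hcl y z hy hz), k2 x y hx hy, k2 y z hy hz,
      mul_assoc]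
  · intro x y z hx hy hz
    rw [key x _ hx (hxl y z hy hz), keyx _ _ (hcl x y hx hy) (hcl x z hx hz), k3 y z hy hz,
      k2 x y hx hy, k2 x z hx hz, mul_add]
  · intro x hx
    rw [key 1 x (two_le_fA n) hx, e1, one_mul, e.symm_apply_apply]
  · intro x hx
    rw [key 0 x (fA_pos n) hx, e0, zero_mul, h0]
  · intro x hx hx0
    have hne : e ⟨x, hx⟩ ≠ 0 := by
      rw [← e0]
      intro hh
      have := e.injective hh
      exact hx0 (congrArg Fin.val this)
    refine ⟨(e.symm (e ⟨x, hx⟩)⁻¹).val, (e.symm _).isLt, ?_⟩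
    rw [key x _ hx (e.symm _).isLt]
    rw [Fin.eta, e.apply_symm_apply, mul_inv_cancel₀ hne, h1]

private lemma nm_stable_succ (n x y : ℕ) (hx : x < fA n) (hy : y < fA n) :
    nm (n + 1) x y = nm n x y := by
  have hle : fA n ≤ fA (n + 1) := fA_mono (Nat.le_succ n)
  obtain ⟨hcl, hcomm, -, -, -, hz, -⟩ := lv_facts n
  rw [nm_succ n x y (hx.trans_le hle) (hy.trans_le hle), Nat.mod_eq_of_lt hx, Nat.mod_eq_of_lt hy,
    Nat.div_eq_of_lt hx, Nat.div_eq_of_lt hy, hz y hy, hcomm x 0 hx (fA_pos n), hz x hx,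
    hz 0 (fA_pos n), hz (fc n) (fc_lt n)]
  simp

private lemma nm_stable (n m x y : ℕ) (hnm : n ≤ m) (hx : x < fA n) (hy : y < fA n) :
    nm m x y = nm n x y := by
  induction m, hnm using Nat.le_induction with
  | base => rfl
  | succ m hm ih =>
    rw [nm_stable_succ m x y (hx.trans_le (fA_mono hm)) (hy.trans_le (fA_mono hm)), ih]

private lemma fmul_eq (n x y : ℕ) (hx : x < fA n) (hy : y < fA n) : fmul x y = nm n x y := by
  unfold fmul
  have h1 : x < fA (x + y) := (lt_fA x).trans_le (fA_mono (by omega))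
  have h2 : y < fA (x + y) := (lt_fA y).trans_le (fA_mono (by omega))
  rcases le_total n (x + y) with h | h
  · exact nm_stable n (x + y) x y h hx hy
  · exact (nm_stable (x + y) n x y h h1 h2).symm

/-! ### The field on `ℕ` -/

private lemma fmul_lt (n x y : ℕ) (hx : x < fA n) (hy : y < fA n) : fmul x y < fA n := by
  rw [fmul_eq n x y hx hy]
  exact (lv_facts n).1 x y hx hy

private lemma ex_lvl3 (x y z : ℕ) : ∃ n, x < fA n ∧ y < fA n ∧ z < fA n :=
  ⟨x + y + z, (lt_fA x).trans_le (fA_mono (by omega)), (lt_fA y).trans_le (fA_mono (by omega)),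
    (lt_fA z).trans_le (fA_mono (by omega))⟩

private lemma fmul_comm (x y : ℕ) : fmul x y = fmul y x := by
  obtain ⟨n, hx, hy, -⟩ := ex_lvl3 x y 0
  rw [fmul_eq n x y hx hy, fmul_eq n y x hy hx]
  exact (lv_facts n).2.1 x y hx hy

private lemma fmul_assoc (x y z : ℕ) : fmul (fmul x y) z = fmul x (fmul y z) := by
  obtain ⟨n, hx, hy, hz⟩ := ex_lvl3 x y z
  rw [fmul_eq n _ z (fmul_lt n x y hx hy) hz, fmul_eq n x _ hx (fmul_lt n y z hy hz),
    fmul_eq n x y hx hy, fmul_eq n y z hy hz]
  exact (lv_facts n).2.2.1 x y z hx hy hz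

private lemma fmul_xor (x y z : ℕ) : fmul x (y ^^^ z) = fmul x y ^^^ fmul x z := by
  obtain ⟨n, hx, hy, hz⟩ := ex_lvl3 x y z
  rw [fmul_eq n x _ hx (Nat.xor_lt_two_pow hy hz), fmul_eq n x y hx hy, fmul_eq n x z hx hz]
  exact (lv_facts n).2.2.2.1 x y z hx hy hz

private lemma one_fmul (x : ℕ) : fmul 1 x = x := by
  obtain ⟨n, hx, h1, -⟩ := ex_lvl3 x 1 0
  rw [fmul_eq n 1 x h1 hx]
  exact (lv_facts n).2.2.2.2.1 x hx

private lemma zero_fmul (x : ℕ) : fmul 0 x = 0 := by
  obtain ⟨n, hx, h0, -⟩ := ex_lvl3 x 0 0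
  rw [fmul_eq n 0 x h0 hx]
  exact (lv_facts n).2.2.2.2.2.1 x hx

private lemma ex_inv (n x : ℕ) (hx : x < fA n) (h : x ≠ 0) : ∃ y < fA n, fmul x y = 1 := by
  obtain ⟨y, hy, h1⟩ := (lv_facts n).2.2.2.2.2.2 x hx h
  exact ⟨y, hy, by rw [fmul_eq n x y hx hy, h1]⟩

private lemma ex_inv' (x : ℕ) (h : x ≠ 0) : ∃ y, fmul x y = 1 :=
  (ex_inv x x (lt_fA x) h).imp fun _ hy => hy.2

private lemma inv_unique (x y z : ℕ) (h1 : fmul x y = 1) (h2 : fmul x z = 1) : y = z := by
  calc y = fmul 1 y := (one_fmul y).symm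
    _ = fmul (fmul x z) y := by rw [h2]
    _ = fmul (fmul x y) z := by rw [fmul_assoc, fmul_comm z y, ← fmul_assoc]
    _ = z := by rw [h1, one_fmul]

open Classical in
/-- the inverse -/
noncomputable def finv (x : ℕ) : ℕ := if h : x ≠ 0 then (ex_inv' x h).choose else 0

private lemma fmul_finv (x : ℕ) (h : x ≠ 0) : fmul x (finv x) = 1 := by
  unfold finv
  rw [dif_pos h]
  exact (ex_inv' x h).choose_spec

private lemma finv_lt (n x : ℕ) (hx : x < fA n) : finv x < fA n := by
  by_cases h : x = 0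
  · subst h
    have : finv 0 = 0 := by unfold finv; rw [dif_neg (by simp)]
    rw [this]; exact fA_pos n
  · obtain ⟨y, hy, h1⟩ := ex_inv n x hx h
    rw [inv_unique x (finv x) y (fmul_finv x h) h1]
    exact hy

/-- a copy of `ℕ` without its semiring structure -/
private def Kc : Type := ℕ

private noncomputable instance : Add Kc := ⟨fun a b => Nat.xor a b⟩
private noncomputable instance : Mul Kc := ⟨fun a b => fmul a b⟩
private instance : Zero Kc := ⟨(0 : ℕ)⟩
private instance : One Kc := ⟨(1 : ℕ)⟩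
private instance : Neg Kc := ⟨fun a => a⟩
private noncomputable instance : Inv Kc := ⟨fun a => finv a⟩

private noncomputable instance fieldKc : Field Kc where
  add_assoc a b c := Nat.xor_assoc a b c
  zero_add a := Nat.zero_xor a
  add_zero a := Nat.xor_zero a
  add_comm a b := Nat.xor_comm a b
  nsmul := nsmulRec
  zsmul := zsmulRec
  neg_add_cancel a := Nat.xor_self a
  left_distrib a b c := fmul_xor a b c
  right_distrib a b c := by
    show fmul (Nat.xor a b) c = Nat.xor (fmul a c) (fmul b c)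
    rw [fmul_comm, fmul_comm a c, fmul_comm b c]
    exact fmul_xor c a b
  zero_mul a := zero_fmul a
  mul_zero a := (fmul_comm a 0).trans (zero_fmul a)
  mul_assoc a b c := fmul_assoc a b c
  one_mul a := one_fmul a
  mul_one a := (fmul_comm a 1).trans (one_fmul a)
  mul_comm a b := fmul_comm a b
  exists_pair_ne := ⟨(0 : ℕ), (1 : ℕ), Nat.zero_ne_one⟩
  mul_inv_cancel a ha := fmul_finv a ha
  inv_zero := by
    show finv 0 = 0
    unfold finv; rw [dif_neg (by simp)]
  nnqsmul := _
  nnqsmul_def := fun _ _ => rfl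
  qsmul := _
  qsmul_def := fun _ _ => rfl

/-! ### Primitive recursiveness -/

private lemma primrec_fA : Primrec fA := primrec_pow2.comp primrec_pow2

private lemma primrec_fc : Primrec fc :=
  primrec_pow2.comp (Primrec.nat_sub.comp primrec_pow2 (Primrec.const 1))

private lemma primrec_look {α : Type*} [Primcodable α] {f : α → ℕ} {t : α → List ℕ}
    {x y : α → ℕ} (hf : Primrec f) (ht : Primrec t) (hx : Primrec x) (hy : Primrec y) :
    Primrec (fun a => look (f a) (t a) (x a) (y a)) :=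
  (Primrec.list_getD 0).comp ht
    (Primrec.nat_add.comp (Primrec.nat_mul.comp hx (primrec_fA.comp hf)) hy)

private lemma primrec_stepM {α : Type*} [Primcodable α] {f : α → ℕ} {t : α → List ℕ}
    {x y : α → ℕ} (hf : Primrec f) (ht : Primrec t) (hx : Primrec x) (hy : Primrec y) :
    Primrec (fun a => stepM (f a) (t a) (x a) (y a)) := by
  have hA := primrec_fA.comp hf
  have x0 := Primrec.nat_mod.comp hx hA
  have x1 := Primrec.nat_div.comp hx hA
  have y0 := Primrec.nat_mod.comp hy hA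
  have y1 := Primrec.nat_div.comp hy hA
  have l11 := primrec_look hf ht x1 y1
  refine Primrec.nat_add.comp (primrec_xor.comp (primrec_look hf ht x0 y0)
    (primrec_look hf ht l11 (primrec_fc.comp hf))) ?_
  exact Primrec.nat_mul.comp hA (primrec_xor.comp (primrec_xor.comp (primrec_look hf ht x0 y1)
    (primrec_look hf ht x1 y0)) l11)

private lemma primrec_tab : Primrec tab := by
  have hstep : Primrec₂ (fun (n : ℕ) (T : List ℕ) =>
      (List.range (fA (n + 1) * fA (n + 1))).map
        (fun k => stepM n T (k / fA (n + 1)) (k % fA (n + 1)))) := by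
    have hA : Primrec (fun p : ℕ × List ℕ => fA (p.1 + 1)) :=
      primrec_fA.comp (Primrec.succ.comp Primrec.fst)
    have h1 : Primrec (fun p : ℕ × List ℕ => List.range (fA (p.1 + 1) * fA (p.1 + 1))) :=
      Primrec.list_range.comp (Primrec.nat_mul.comp hA hA)
    have h2 : Primrec₂ (fun (p : ℕ × List ℕ) (k : ℕ) =>
        stepM p.1 p.2 (k / fA (p.1 + 1)) (k % fA (p.1 + 1))) := by
      have hA' : Primrec (fun r : (ℕ × List ℕ) × ℕ => fA (r.1.1 + 1)) := hA.comp Primrec.fst
      exact primrec_stepM (Primrec.fst.comp Primrec.fst) (Primrec.snd.comp Primrec.fst)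
        (Primrec.nat_div.comp Primrec.snd hA') (Primrec.nat_mod.comp Primrec.snd hA')
    exact Primrec.list_map h1 h2
  refine (Primrec.nat_rec₁ [0, 0, 0, 1] hstep).of_eq fun n => ?_
  induction n with
  | zero => rfl
  | succ n ih =>
    show _ = tab (n + 1)
    rw [tab, ← ih]

private lemma primrec_fmul : Primrec₂ fmul := by
  have h : Primrec (fun p : ℕ × ℕ => p.1 + p.2) := Primrec.nat_add
  exact primrec_look h (primrec_tab.comp h) Primrec.fst Primrec.snd

end Nim

/-- There is a field with underlying set `ℕ`, addition `xor`, primitive recursive multiplication,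
in which the numbers `< 2 ^ 2 ^ n` form a subfield. -/
theorem exists_field : ∃ F : Field ℕ, (∀ a b : ℕ, F.add a b = a ^^^ b) ∧
    Primrec₂ (fun a b : ℕ => F.mul a b) ∧ F.zero = (0 : ℕ) ∧ F.one = (1 : ℕ) ∧
    (∀ n a b : ℕ, a < 2 ^ 2 ^ n → b < 2 ^ 2 ^ n → F.mul a b < 2 ^ 2 ^ n) ∧
    (∀ n a : ℕ, a < 2 ^ 2 ^ n → F.inv a < 2 ^ 2 ^ n) :=
  ⟨Nim.fieldKc, fun _ _ => rfl, Nim.primrec_fmul, rfl, rfl,
    fun n a b ha hb => Nim.fmul_lt n a b ha hb, fun n a ha => Nim.finv_lt n a ha⟩

end Pool.Agent.Work.MP_ed0a9a_lc.H
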