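import Mathlib
import Pool.Agent.Work.MP_ed0a9a_lc.Defs
import Pool.Agent.Work.MP_ed0a9a_lc.H.Fld

/-!
# Base file of the block `H`: the field `K`, relations of tuples of vectors, interpretations

All other files of the block import this one.
-/

namespace Pool.Agent.Work.MP_ed0a9a_lc.H

open FirstOrder

/-! ## The field -/

/-- Number of elements of the finite field `F_n`. -/
def q (n : ℕ) : ℕ := 2 ^ 2 ^ n

/-- The field `K` (underlying set `ℕ`), the union of the finite fields `F_n`,
`F_n` = the numbers `< q n`; the addition is `xor`. -/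
def K : Type := ℕ

/-- A number as an element of `K`. -/
def toK (a : ℕ) : K := a

/-- An element of `K` as a number. -/
def ofK (a : K) : ℕ := a

@[simp] theorem ofK_toK (a : ℕ) : ofK (toK a) = a := rfl
@[simp] theorem toK_ofK (a : K) : toK (ofK a) = a := rfl

theorem toK_inj {a b : ℕ} : toK a = toK b ↔ a = b := Iff.rfl
theorem ofK_inj {a b : K} : ofK a = ofK b ↔ a = b := Iff.rfl

noncomputable instance instFieldK : Field K := exists_field.choose

/-- Multiplication of `K` on numbers. -/
noncomputable def kmul (a b : ℕ) : ℕ := ofK (toK a * toK b)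

theorem toK_kmul (a b : ℕ) : toK (kmul a b) = toK a * toK b := rfl

theorem toK_xor (a b : ℕ) : toK (a ^^^ b) = toK a + toK b :=
  (exists_field.choose_spec.1 a b).symm

theorem primrec_kmul : Primrec₂ kmul := exists_field.choose_spec.2.1

theorem toK_zero : toK 0 = 0 := exists_field.choose_spec.2.2.1.symm

theorem toK_one : toK 1 = 1 := exists_field.choose_spec.2.2.2.1.symm

theorem ofK_zero : ofK 0 = 0 := by rw [← toK_zero]; rfl

theorem ofK_one : ofK 1 = 1 := by rw [← toK_one]; rfl

theorem kmul_lt (n a b : ℕ) (ha : a < q n) (hb : b < q n) : kmul a b < q n :=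
  exists_field.choose_spec.2.2.2.2.1 n a b ha hb

theorem inv_lt (n : ℕ) (a : K) (ha : ofK a < q n) : ofK a⁻¹ < q n :=
  exists_field.choose_spec.2.2.2.2.2 n a ha

theorem K_add_self (a : K) : a + a = 0 := by
  have h := toK_xor (ofK a) (ofK a)
  rw [Nat.xor_self, toK_zero] at h
  exact h.symm

theorem K_neg (a : K) : -a = a := by
  rw [neg_eq_iff_add_eq_zero]
  exact K_add_self a

theorem one_lt_q (n : ℕ) : 1 < q n := Nat.one_lt_two_pow (by positivity)

theorem q_mono {m n : ℕ} (h : m ≤ n) : q m ≤ q n :=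
  Nat.pow_le_pow_right (by norm_num) (Nat.pow_le_pow_right (by norm_num) h)

/-- The finite field `F_n` as a subfield of `K`. -/
noncomputable def Fs (n : ℕ) : Subfield K where
  carrier := {x | ofK x < q n}
  mul_mem' := fun {a b} ha hb => kmul_lt n (ofK a) (ofK b) ha hb
  one_mem' := by
    show ofK 1 < q n
    rw [ofK_one]
    exact one_lt_q n
  add_mem' := fun {a b} ha hb => by
    show ofK (a + b) < q n
    have h : a + b = toK (ofK a ^^^ ofK b) := (toK_xor (ofK a) (ofK b)).symm
    rw [h, ofK_toK]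
    exact Nat.xor_lt_two_pow ha hb
  zero_mem' := by
    show ofK 0 < q n
    rw [ofK_zero]
    exact lt_trans one_pos (one_lt_q n)
  neg_mem' := fun {a} ha => by
    show ofK (-a) < q n
    rw [K_neg]
    exact ha
  inv_mem' := fun a ha => inv_lt n a ha

theorem mem_Fs {n : ℕ} {x : K} : x ∈ Fs n ↔ ofK x < q n := Iff.rfl

/-! ## Relations of tuples (lists) of vectors -/

section Rel

variable {W W' : Type*} [AddCommGroup W] [Module K W] [AddCommGroup W'] [Module K W']

/-- The linear combination `c₀ z₀ + c₁ z₁ + …`. -/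
noncomputable def lin (c : List K) (z : List W) : W := (List.zipWith (fun a v => a • v) c z).sum

/-- All entries of `c` are in `F_n`. -/
def IsF (n : ℕ) (c : List K) : Prop := ∀ x ∈ c, x ∈ Fs n

/-- The tuples `z`, `z'` have the same length and the same `F_n`-linear relations. -/
def Same (n : ℕ) (z : List W) (z' : List W') : Prop :=
  z.length = z'.length ∧
    ∀ c : List K, c.length = z.length → IsF n c → (lin c z = 0 ↔ lin c z' = 0)

/-- The tuple `z` is `F_n`-independent. -/
def Ind (n : ℕ) (z : List W) : Prop :=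
  ∀ c : List K, c.length = z.length → IsF n c → lin c z = 0 → ∀ x ∈ c, x = 0

/-- The number of the `F_n`-linear relations of the tuple `z`: it is `q n ^ (length - rank)`. -/
noncomputable def nrel (n : ℕ) (z : List W) : ℕ :=
  {c : List K | c.length = z.length ∧ IsF n c ∧ lin c z = 0}.ncard

end Rel

/-! ## Raw vectors -/

/-- Raw vectors: the list `[v₀, v₁, …, v_{r-1}]` is `(v₀, v₁, …, v_{r-1}, 0, 0, …)`. -/
abbrev Vec := List ℕ

/-- The meaning of a raw vector. -/
noncomputable def sem (v : Vec) : ℕ →₀ K :=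
  Finsupp.onFinset (Finset.range v.length) (fun i => toK (v.getD i 0)) (by
    intro i hi
    rw [Finset.mem_range]
    by_contra h
    apply hi
    rw [List.getD_eq_default _ _ (not_lt.1 h), toK_zero])

theorem sem_apply (v : Vec) (i : ℕ) : sem v i = toK (v.getD i 0) := rfl

/-! ## Interpretations -/

/-- Codes of basic interpretations: `(tag, n, n', c, lo, hi)`. -/
abbrev Itn := ℕ × ℕ × ℕ × ℕ × ℕ × ℕ

/-- `z = (u, v, u + v)`. -/
def Itn.plus : Itn := (0, 0, 0, 0, 0, 0)
/-- `z` is `F_n`-independent. -/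
def Itn.ind (n : ℕ) : Itn := (1, n, 0, 0, 0, 0)
/-- `z` is `F_n`-independent and `z₁ = a z₀`. -/
def Itn.sc (n a : ℕ) : Itn := (2, n, a, 0, 0, 0)
/-- `z` is `F_n`-independent and the number of `F_{n'}`-relations of `(z₀, …, z_{c-1})` is
between `q n' ^ lo` and `q n' ^ hi`. -/
def Itn.rk (n n' c lo hi : ℕ) : Itn := (3, n, n', c, lo, hi)
/-- Always false. -/
def Itn.none : Itn := (4, 0, 0, 0, 0, 0)

section Hold

variable {W : Type*} [AddCommGroup W] [Module K W]

/-- The meaning of the code `(tag, n, n', c, lo, hi)`. -/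
def hI (I : Itn) (z : List W) : Prop :=
  (I.1 = 0 ∧ ∃ u v : W, z = [u, v, u + v]) ∨
  (I.1 = 1 ∧ Ind I.2.1 z) ∨
  (I.1 = 2 ∧ Ind I.2.1 z ∧ ∃ (u : W) (t : List W), z = u :: (toK I.2.2.1 • u) :: t) ∨
  (I.1 = 3 ∧ Ind I.2.1 z ∧
    q I.2.2.1 ^ I.2.2.2.2.1 ≤ nrel I.2.2.1 (z.take I.2.2.2.1) ∧
    nrel I.2.2.1 (z.take I.2.2.2.1) ≤ q I.2.2.1 ^ I.2.2.2.2.2)

/-- Interpretations `(D, n', pats, itn)`: a tuple with the same `F_{n'}`-relations as a
pattern in the list `pats` gets the truth value `true` if one of the matching patterns has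
the truth value `true`, `false` otherwise; a tuple matching no pattern gets the value of `itn`.
(`D` is a bookkeeping number which has no influence on the meaning.) -/
abbrev Asg := ℕ × ℕ × List (List Vec × Bool) × Itn

/-- The meaning of an interpretation. -/
def holds (A : Asg) (z : List W) : Prop :=
  (∃ p ∈ A.2.2.1, Same A.2.1 (p.1.map sem) z ∧ p.2 = true) ∨
  ((∀ p ∈ A.2.2.1, ¬ Same A.2.1 (p.1.map sem) z) ∧ hI A.2.2.2 z)

end Hold

/-- The structure on the `K`-vector space `W` given by the interpretations `R i`. -/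
@[reducible] def strM (a : ℕ → ℕ) (R : ℕ → Asg) (W : Type) [AddCommGroup W] [Module K W] :
    (sig a).Structure W where
  funMap := fun f => Empty.elim f
  RelMap := fun r v => holds (R r.1) (List.ofFn v)

/-- The models: the `K`-vector space of dimension `i + 1` (`i ∈ ℕ∞`). -/
abbrev Md (i : ℕ∞) : Type := Jt (i + 1) →₀ K

end Pool.Agent.Work.MP_ed0a9a_lc.H
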