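import Mathlib
import Pool.Agent.Work.MP_ed0a9a_lc.H.Base

/-!
# Definitions of the machine (block `H`)

`St` is the state of the construction, `step` one transition, `st P t` the state after `t`
transitions, `asg P t i` the interpretation of the symbol `i` at stage `t`.
-/

namespace Pool.Agent.Work.MP_ed0a9a_lc.H

/-! ## Spans -/

section Spn

variable {W : Type*} [AddCommGroup W] [Module K W]

/-- `x` is in the `F_n`-span of the tuple `z`. -/
def Spn (n : ℕ) (z : List W) (x : W) : Prop :=
  ∃ c : List K, c.length = z.length ∧ IsF n c ∧ lin c z = x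

/-- The tuple `D` is `F_n`-independent modulo the `F_n`-span of `z`. -/
def Free (n : ℕ) (z D : List W) : Prop :=
  ∀ c d : List K, c.length = z.length → d.length = D.length → IsF n c → IsF n d →
    lin c z + lin d D = 0 → ∀ x ∈ d, x = 0

end Spn

/-! ## Raw vectors -/

/-- All lists of length `L` with entries `< b`. -/
def cl (b : ℕ) : ℕ → List (List ℕ)
  | 0 => [[]]
  | L + 1 => (List.range b).flatMap fun x => (cl b L).map fun c => x :: c

/-- All lists of length `≤ L` with entries `< b`. -/
def tups (b L : ℕ) : List (List ℕ) := (List.range (L + 1)).flatMap fun j => cl b j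

/-- Sum of raw vectors. -/
def vadd (u v : Vec) : Vec :=
  (List.range (max u.length v.length)).map fun i => u.getD i 0 ^^^ v.getD i 0

/-- Scalar multiple of a raw vector. -/
noncomputable def vsm (a : ℕ) (v : Vec) : Vec := v.map fun x => kmul a x

/-- Linear combination of raw vectors. -/
noncomputable def linV (c : List ℕ) (z : List Vec) : Vec :=
  (List.zipWith (fun a v => vsm a v) c z).foldr vadd []

/-- Is it the zero vector? -/
def vz (v : Vec) : Bool := v.all fun x => decide (x = 0)

/-- Equality of the vectors given by raw vectors. -/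
def veq (u v : Vec) : Bool := vz (vadd u v)

/-- Same `F_n`-relations. -/
noncomputable def sameV (n : ℕ) (z z' : List Vec) : Bool :=
  decide (z.length = z'.length) &&
    (cl (q n) z.length).all fun c => vz (linV c z) == vz (linV c z')

/-- `F_n`-independence. -/
noncomputable def indV (n : ℕ) (z : List Vec) : Bool :=
  (cl (q n) z.length).all fun c => !vz (linV c z) || vz c

/-- Number of `F_n`-relations. -/
noncomputable def nrelV (n : ℕ) (z : List Vec) : ℕ :=
  ((cl (q n) z.length).filter fun c => vz (linV c z)).length

/-- Evaluation of basic interpretations. -/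
noncomputable def evI (I : Itn) (z : List Vec) : Bool :=
  (decide (I.1 = 0) && (decide (z.length = 3) &&
    veq (vadd (z.getD 0 []) (z.getD 1 [])) (z.getD 2 []))) ||
  ((decide (I.1 = 1) && indV I.2.1 z) ||
  ((decide (I.1 = 2) && (indV I.2.1 z && (decide (2 ≤ z.length) &&
    veq (vsm I.2.2.1 (z.getD 0 [])) (z.getD 1 [])))) ||
  (decide (I.1 = 3) && (indV I.2.1 z &&
    (decide (q I.2.2.1 ^ I.2.2.2.2.1 ≤ nrelV I.2.2.1 (z.take I.2.2.2.1)) &&
    decide (nrelV I.2.2.1 (z.take I.2.2.2.1) ≤ q I.2.2.1 ^ I.2.2.2.2.2))))))

/-- Evaluation of interpretations. -/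
noncomputable def evA (A : Asg) (z : List Vec) : Bool :=
  (A.2.2.1.any fun p => sameV A.2.1 p.1 z && p.2) ||
  ((A.2.2.1.all fun p => !sameV A.2.1 p.1 z) && evI A.2.2.2 z)

/-- The tuple of the positions `p` with the names `I`. -/
def nm (p : List Vec) (I : List ℕ) : List Vec := I.map fun j => p.getD j []

/-! ## The events -/

/-- The vector has coordinates in `F_n` and support `< ρ`. -/
def core (n ρ : ℕ) (v : Vec) : Bool :=
  (List.range v.length).all fun i =>
    decide (v.getD i 0 < q n) && (decide (i < ρ) || decide (v.getD i 0 = 0))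

/-- First part of the test `chk` (one builder, old positions `P`, new positions `G`). -/
noncomputable def chk1 (n ρ N : ℕ) (P G : List Vec) : Bool :=
  decide (G.length = P.length) && (sameV n P G &&
  ((G.all fun v => decide (v.length ≤ ρ) && v.all fun x => decide (x < q N)) &&
  (((List.range P.length).all fun j =>
    !core n ρ (P.getD j []) || veq (G.getD j []) (P.getD j [])) &&
  ((tups P.length P.length).all fun I =>
    !indV n (nm P I) || decide (nrelV N (nm G I) = q N ^ (I.length - ρ))))))

/-- Second part of the test `chk` (two builders `β`, `β'`). -/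
noncomputable def chk2 (n m N β β' : ℕ) (P G P' G' : List Vec) : Bool :=
  (tups P.length P.length).all fun I => (cl P'.length I.length).all fun I' =>
    !(decide (m + 2 ≤ I.length) && (indV n (nm P I) && (indV n (nm P' I') &&
      sameV N (nm G I) (nm G' I')))) ||
    (decide (β = β') && (List.range (q n)).any fun a => (List.range I.length).all fun j =>
      veq (vsm a (P.getD (I.getD j 0) [])) (P'.getD (I'.getD j 0) []))

/-- Test of an event: field index `n`, level `m`, dimensions `rs`, old positions `Ps`, new
field index `N`, new positions `G`. -/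
noncomputable def chk (n m : ℕ) (rs : List ℕ) (Ps : List (List Vec)) (N : ℕ)
    (G : List (List Vec)) : Bool :=
  decide (n < N) && (decide (G.length = Ps.length) &&
  (((List.range Ps.length).all fun β =>
    chk1 n (rs.getD β 0) N (Ps.getD β []) (G.getD β [])) &&
  ((List.range Ps.length).all fun β => (List.range Ps.length).all fun β' =>
    chk2 n m N β β' (Ps.getD β []) (G.getD β []) (Ps.getD β' []) (G.getD β' []))))

/-- The meaning of `chk`. -/
structure GoodEv (n m : ℕ) (rs : List ℕ) (Ps : List (List Vec)) (N : ℕ)
    (G : List (List Vec)) : Prop where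
  lt : n < N
  len : G.length = Ps.length
  len' : ∀ β, (G.getD β []).length = (Ps.getD β []).length
  same : ∀ β, Same n ((Ps.getD β []).map sem) ((G.getD β []).map sem)
  sup : ∀ β, ∀ v ∈ G.getD β [], v.length ≤ rs.getD β 0 ∧ ∀ x ∈ v, x < q N
  core : ∀ β j, j < (Ps.getD β []).length →
    (∀ i, sem ((Ps.getD β []).getD j []) i ∈ Fs n ∧
      (rs.getD β 0 ≤ i → sem ((Ps.getD β []).getD j []) i = 0)) →
    sem ((G.getD β []).getD j []) = sem ((Ps.getD β []).getD j [])
  rank : ∀ β I, (∀ x ∈ I, x < (Ps.getD β []).length) →
    Ind n ((nm (Ps.getD β []) I).map sem) →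
    nrel N ((nm (G.getD β []) I).map sem) = q N ^ (I.length - rs.getD β 0)
  sep : ∀ β β' I I', (∀ x ∈ I, x < (Ps.getD β []).length) →
    (∀ x ∈ I', x < (Ps.getD β' []).length) → m + 2 ≤ I.length →
    Ind n ((nm (Ps.getD β []) I).map sem) → Ind n ((nm (Ps.getD β' []) I').map sem) →
    Same N ((nm (G.getD β []) I).map sem) ((nm (G.getD β' []) I').map sem) →
    β = β' ∧ ∃ a : K, a ∈ Fs n ∧ a ≠ 0 ∧
      (nm (Ps.getD β' []) I').map sem = ((nm (Ps.getD β []) I).map sem).map fun v => a • v

/-- Code of the first `(N, G)` which passes the test. -/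
noncomputable def evc (n m : ℕ) (rs : List ℕ) (Ps : List (List Vec)) : ℕ :=
  sInf {k | chk n m rs Ps (Denumerable.ofNat (ℕ × List (List Vec)) k).1
    (Denumerable.ofNat (ℕ × List (List Vec)) k).2 = true}

/-- The first `(N, G)` which passes the test. -/
noncomputable def ev (n m : ℕ) (rs : List ℕ) (Ps : List (List Vec)) : ℕ × List (List Vec) :=
  Denumerable.ofNat (ℕ × List (List Vec)) (evc n m rs Ps)

/-! ## Symbols -/

/-- The symbol created at transition `σ`, of kind `κ` (`0`: independence, `1`: scalar,
`2`: question) and parameter `p`. -/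
def sy (σ κ p : ℕ) : ℕ := Nat.pair σ (Nat.pair κ p) + 1

/-- Creation time. -/
def syS (i : ℕ) : ℕ := (i - 1).unpair.1
/-- Kind. -/
def syK (i : ℕ) : ℕ := (i - 1).unpair.2.unpair.1
/-- Parameter. -/
def syP (i : ℕ) : ℕ := (i - 1).unpair.2.unpair.2

/-- The arities: the symbol `0` is the addition, of arity 3. -/
def ar (i : ℕ) : ℕ :=
  if i = 0 then 3 else 2 * syS i + 8 + (if syK i = 0 then syP i else 0)

/-! ## Parameters -/

/-- Parameters: guards `l` of kind `knd l` (`true`: A, `false`: B), with a code `cod l` of a
partial computable structure, and a base `bas l` (kind A); `tg l i t = (c, lo, hi)`: target of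
guard `l` at level `i`, as seen at time `t` (`c = 0`: the guard is off); `rho β i t`:
dimension of builder `β` at level `i`, seen at time `t`; `ex β`: guards which may hurt
builder `β`. -/
structure Par where
  knd : ℕ → Bool
  cod : ℕ → ℕ
  bas : ℕ → List ℕ
  tg : ℕ → ℕ → ℕ → ℕ × ℕ × ℕ
  rho : ℕ → ℕ → ℕ → ℕ
  ex : ℕ → List ℕ

/-- Conditions on the parameters. -/
structure Par.Ok (P : Par) : Prop where
  knd : Computable P.knd
  cod : Computable P.cod
  bas : Computable P.bas
  tg : Computable (fun p : ℕ × ℕ × ℕ => P.tg p.1 p.2.1 p.2.2)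
  rho : Computable (fun p : ℕ × ℕ × ℕ => P.rho p.1 p.2.1 p.2.2)
  ex : Computable P.ex
  rho1 : ∀ β i t, 1 ≤ P.rho β i t
  rho2 : ∀ β i t, P.rho β i t ≤ i + 1
  tgl : ∀ l i, ∃ T, ∀ t, T ≤ t → P.tg l i t = P.tg l i T
  rhl : ∀ β i, ∃ T, ∀ t, T ≤ t → P.rho β i t = P.rho β i T
  kA : ∀ l i t, P.knd l = true → (P.tg l i t).1 ≠ 0 →
    P.tg l i t = ((P.bas l).length + 1, 1, 1) ∧ (P.bas l).length ≤ i
  kB : ∀ l i t, P.knd l = false → (P.tg l i t).1 ≠ 0 →
    ∃ c, 1 ≤ c ∧ c ≤ i ∧ P.tg l i t = (i, 0, i - c)

/-- Limit of the targets. -/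
noncomputable def Par.tgf (P : Par) (l i : ℕ) : ℕ × ℕ × ℕ :=
  P.tg l i (Classical.epsilon fun T => ∀ t, T ≤ t → P.tg l i t = P.tg l i T)

/-- Limit of the dimensions (see `Par.tgf`). -/
noncomputable def Par.rhof (P : Par) (β i : ℕ) : ℕ :=
  P.rho β i (Classical.epsilon fun T => ∀ t, T ≤ t → P.rho β i t = P.rho β i T)

/-! ## States -/

/-- A builder: (alive, number of growth steps, positions). -/
abbrev Bs := Bool × ℕ × List Vec

/-- A state: field indices of the levels `0, …, top`; for the levels `i < top` the stage of
the last configuration event and the list of the acting guards with their memories; the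
builders. -/
abbrev St := List ℕ × List ℕ × List (List (ℕ × ℕ)) × List Bs

/-- The top level. -/
def top (S : St) : ℕ := S.1.length - 1
/-- Field index of level `i`. -/
def kapA (S : St) (i : ℕ) : ℕ := S.1.getD i 0
/-- Stage of the last configuration event of level `i`. -/
def stgA (S : St) (i : ℕ) : ℕ := S.2.1.getD i 0
/-- The acting guards of level `i` with their memories. -/
def actA (S : St) (i : ℕ) : List (ℕ × ℕ) := S.2.2.1.getD i []
/-- The memory of guard `l` at level `i`. -/
def memA (S : St) (i l : ℕ) : Option ℕ := (actA S i).lookup l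
/-- Builder `β`. -/
def bldA (S : St) (β : ℕ) : Bs := S.2.2.2.getD β (false, 0, [])
/-- Number of builders. -/
def nbld (S : St) : ℕ := S.2.2.2.length

/-! ## Witnesses -/

/-- The `e`-th partial computable structure asked at time `t` about the symbol `i` and the
tuple `v`: `some 1`: true; `some 0`: false. -/
def evq (e t i : ℕ) (v : List ℕ) : Option ℕ :=
  Nat.Partrec.Code.evaln t (Denumerable.ofNat Nat.Partrec.Code e)
    (Nat.pair i (Encodable.encode v))

/-- Is the tuple `u` admissible for guard `l` at level `i` with last configuration stage `σ`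
and memory `y`? -/
def wok (P : Par) (σ l i y t : ℕ) (u : List ℕ) : Bool :=
  if P.knd l = true then
    decide (u.take (P.bas l).length = P.bas l) && decide (u.getD (P.bas l).length 0 = y)
  else
    decide (evq (P.cod l) t (sy σ 0 (2 * σ + 6 - i)) u = some 1) &&
    (List.range i).all fun j => decide (j ∈ u.take i) ||
      (decide (evq (P.cod l) t (sy σ 0 0) (j :: u.take (2 * σ + 7)) = some 0) &&
      decide (evq (P.cod l) t (sy σ 0 0) (j :: (u.take i ++ u.drop (2 * σ + 7))) = some 0))

/-- Length of the admissible tuples. -/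
def ulen (P : Par) (σ l i : ℕ) : ℕ := if P.knd l = true then 2 * σ + 7 else 4 * σ + 14 - i

/-- Number of witnesses `x < t` over the tuple `u`. -/
def cx (P : Par) (σ l t : ℕ) (u : List ℕ) : ℕ :=
  ((List.range t).filter fun x =>
    decide (evq (P.cod l) t (sy σ 0 0) (u.take (2 * σ + 7) ++ [x]) = some 1) &&
    decide (evq (P.cod l) t (sy σ 2 l) (u.take (2 * σ + 7) ++ [x]) = some 0)).length

/-- Maximal number of witnesses. -/
def nwy (P : Par) (σ l i y t : ℕ) : ℕ :=
  ((cl t (ulen P σ l i)).map fun u => if wok P σ l i y t u = true then cx P σ l t u else 0).foldr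
    max 0

/-! ## The transition -/

/-- Possible memories of a guard which is going to act at level `i`. -/
def ysl (S : St) (l i t : ℕ) : List ℕ :=
  match memA S (i - 1) l with
  | some y => [y]
  | none => List.range t

/-- May guard `l` act at level `i` with memory `y`? -/
def rdy (P : Par) (t : ℕ) (S : St) (l i y : ℕ) : Bool :=
  decide ((P.tg l i t).1 ≠ 0) &&
  (((List.range i).all fun i' => decide (i' < l) || (decide ((P.tg l i' t).1 = 0) ||
    (memA S i' l).any fun y' => decide (i ≤ nwy P (stgA S i') l i' y' t))) &&
  (decide (q (kapA S i) * (i + 1) < nwy P (stgA S i) l i y t) &&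
  ((List.range (nbld S)).all fun β => !(bldA S β).1 || (decide (l ∉ P.ex β) ||
    decide (q (kapA S i) * (i + 1 + (bldA S β).2.2.length) < nwy P (stgA S i) l i y t)))))

/-- The guards which want to act at level `i`, with their memories. -/
def nly (P : Par) (t : ℕ) (S : St) (i : ℕ) : List (ℕ × ℕ) :=
  (List.range (i + 1)).filterMap fun l =>
    if memA S i l = none then ((ysl S l i t).find? fun y => rdy P t S l i y).map fun y => (l, y)
    else none

/-- Has the configuration of level `i` changed? -/
def cfg (P : Par) (t : ℕ) (S : St) (i : ℕ) : Bool :=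
  (List.range (i + 1)).any fun l =>
    decide (P.tg l i t ≠ P.tg l i (stgA S i)) || decide (P.rho l i t ≠ P.rho l i (stgA S i))

/-- Does level `i` need attention? -/
def att (P : Par) (t : ℕ) (S : St) (i : ℕ) : Bool := cfg P t S i || !(nly P t S i).isEmpty

/-- The level of the event at transition `t`. -/
def lev (P : Par) (t : ℕ) (S : St) : ℕ :=
  ((List.range (top S)).find? fun i => att P t S i).getD (top S)

/-- Is the event a configuration event (including the creation of the level)? -/
def isc (P : Par) (t : ℕ) (S : St) : Bool :=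
  decide (lev P t S = top S) || cfg P t S (lev P t S)

/-- The new list of acting guards of the level of the event. -/
def actN (P : Par) (t : ℕ) (S : St) : List (ℕ × ℕ) :=
  if isc P t S = true then [] else actA S (lev P t S) ++ nly P t S (lev P t S)

/-- Would guard `l` acting at level `m` hurt builder `β`? -/
def hurt (P : Par) (β l m t : ℕ) : Bool :=
  decide ((P.tg l m t).1 ≠ 0) &&
  (decide ((P.tg l m t).2.1 ≤ (P.tg l m t).1 - P.rho β m t) &&
  decide ((P.tg l m t).1 - P.rho β m t ≤ (P.tg l m t).2.2))

/-- Does builder `β` survive transition `t`? -/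
def surv (P : Par) (t : ℕ) (S : St) (β : ℕ) : Bool :=
  (bldA S β).1 && (actN P t S).all fun p =>
    decide (p.1 ∈ P.ex β) || !hurt P β p.1 (lev P t S) t

/-- Old positions of the surviving builders (`[]` for the others). -/
def oldp (P : Par) (t : ℕ) (S : St) : List (List Vec) :=
  (List.range (nbld S)).map fun β => if surv P t S β = true then (bldA S β).2.2 else []

/-- The dimensions of the builders at the event. -/
def dms (P : Par) (t : ℕ) (S : St) : List ℕ :=
  (List.range (nbld S)).map fun β => P.rho β (lev P t S) t

/-- New field index and new positions. -/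
noncomputable def evn (P : Par) (t : ℕ) (S : St) : ℕ × List (List Vec) :=
  ev (kapA S (lev P t S)) (lev P t S) (dms P t S) (oldp P t S)

/-- New field indices. -/
noncomputable def kapN (P : Par) (t : ℕ) (S : St) : List ℕ :=
  S.1.take (lev P t S + 1) ++ [(evn P t S).1]

/-- New configuration stages. -/
def stgN (P : Par) (t : ℕ) (S : St) : List ℕ :=
  S.2.1.take (lev P t S) ++ [if isc P t S = true then t else stgA S (lev P t S)]

/-- New lists of acting guards. -/
def actsN (P : Par) (t : ℕ) (S : St) : List (List (ℕ × ℕ)) :=
  S.2.2.1.take (lev P t S) ++ [actN P t S]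

/-- The growth of builder `β` is allowed (`p` growth steps so far, `n` positions). -/
noncomputable def thr (P : Par) (t : ℕ) (S : St) (β p n : ℕ) : Bool :=
  (P.ex β).all fun l => (List.range (min (lev P t S) p + 1)).all fun i' =>
    decide (i' < l) || (decide ((P.tg l i' t).1 = 0) ||
    (((actsN P t S).getD i' []).lookup l).any fun y' =>
      decide (q ((kapN P t S).getD i' 0) * (n + 1) < nwy P ((stgN P t S).getD i' 0) l i' y' t))

/-- The new position (if any) at growth step `p`. -/
noncomputable def cand (ρ N p : ℕ) (G : List Vec) : List Vec :=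
  if (Denumerable.ofNat Vec p.unpair.1).length ≤ ρ ∧
      ((Denumerable.ofNat Vec p.unpair.1).all fun x => decide (x < q N)) = true ∧
      (G.all fun w => !veq (Denumerable.ofNat Vec p.unpair.1) w) = true
  then [Denumerable.ofNat Vec p.unpair.1] else []

/-- Builder `β` after transition `t`. -/
noncomputable def bldN (P : Par) (t : ℕ) (S : St) (β : ℕ) : Bs :=
  if surv P t S β = true then
    if thr P t S β (bldA S β).2.1 ((evn P t S).2.getD β []).length = true then
      (true, (bldA S β).2.1 + 1, (evn P t S).2.getD β [] ++
        cand (P.rho β (lev P t S) t) (evn P t S).1 (bldA S β).2.1 ((evn P t S).2.getD β []))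
    else (true, (bldA S β).2.1, (evn P t S).2.getD β [])
  else (false, 0, [])

/-- Transition `t`. -/
noncomputable def step (P : Par) (t : ℕ) (S : St) : St :=
  (kapN P t S, stgN P t S, actsN P t S,
    ((List.range (nbld S)).map fun β => bldN P t S β) ++ [(true, 0, [])])

/-- The state after `t` transitions. -/
noncomputable def st (P : Par) : ℕ → St
  | 0 => ([0], [], [], [])
  | t + 1 => step P t (st P t)

/-- Level of the event at transition `t`. -/
noncomputable def lv (P : Par) (t : ℕ) : ℕ := lev P t (st P t)

/-! ## The interpretations of the symbols -/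

/-- Interpretation of the symbol of kind `κ` and parameter `p` created at an event of level
`m` with old field index `n` and new field index `N`. -/
def crt (m n N κ p : ℕ) : Asg :=
  if κ = 0 then (m, 0, [], Itn.ind n)
  else if κ = 1 then (if q n ≤ p ∧ p < q N then (m + 1, 0, [], Itn.sc n p) else (0, 0, [], Itn.none))
  else (m + 1, 0, [], Itn.none)

/-- The declared facts about the symbol with interpretation `A` of arity `a`, as patterns. -/
noncomputable def patN (P : Par) (t : ℕ) (S : St) (a : ℕ) (A : Asg) : List (List Vec × Bool) :=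
  (List.range (nbld S)).flatMap fun β =>
    if surv P t S β = true then
      (cl (bldA S β).2.2.length a).map fun I =>
        (nm ((evn P t S).2.getD β []) I, evA A (nm (bldA S β).2.2 I))
    else []

/-- The new basic interpretation of an affected symbol. -/
noncomputable def itnN (P : Par) (t : ℕ) (S : St) (i : ℕ) : Itn :=
  if syK i = 2 ∧ (stgN P t S).getD (lev P t S) 0 = syS i ∧ (actN P t S).lookup (syP i) ≠ none
  then Itn.rk (kapA S (lev P t S)) (evn P t S).1 (P.tg (syP i) (lev P t S) t).1
    (P.tg (syP i) (lev P t S) t).2.1 (P.tg (syP i) (lev P t S) t).2.2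
  else Itn.none

/-- Interpretation of the symbol `i` at stage `t`; `D` (the first component) is the level
such that the interpretation is definable over the field of level `D`. -/
noncomputable def asg (P : Par) : ℕ → ℕ → Asg
  | 0, i => if i = 0 then (0, 0, [], Itn.plus) else (0, 0, [], Itn.none)
  | t + 1, i =>
    if i = 0 then (0, 0, [], Itn.plus)
    else if syS i = t then crt (lv P t) (kapA (st P t) (lv P t)) (evn P t (st P t)).1 (syK i) (syP i)
    else if t < syS i then (0, 0, [], Itn.none)
    else if (asg P t i).1 ≤ lv P t then asg P t i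
    else (lv P t + 1, (evn P t (st P t)).1, patN P t (st P t) (ar i) (asg P t i),
      itnN P t (st P t) i)

/-! ## Final values -/

/-- The last event of level `≤ i`; it has level `i`. -/
noncomputable def tau (P : Par) (i : ℕ) : ℕ :=
  Classical.epsilon fun τ => lv P τ = i ∧ ∀ t, τ < t → i < lv P t

/-- Final field index of level `i`. -/
noncomputable def kf (P : Par) (i : ℕ) : ℕ := kapA (st P (tau P i + 1)) i
/-- Final configuration stage of level `i`. -/
noncomputable def sf (P : Par) (i : ℕ) : ℕ := stgA (st P (tau P i + 1)) i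
/-- Final list of acting guards of level `i`. -/
noncomputable def af (P : Par) (i : ℕ) : List (ℕ × ℕ) := actA (st P (tau P i + 1)) i

/-- Final interpretation of the symbol `i`. -/
noncomputable def Rf (P : Par) (i : ℕ) : Asg :=
  asg P (Classical.epsilon fun T => ∀ t, T ≤ t → asg P t i = asg P T i) i

/-- The truth value only depends on the `F_n`-relations. -/
def InvS (n : ℕ) (A : Asg) : Prop :=
  ∀ (W W' : Type) [AddCommGroup W] [Module K W] [AddCommGroup W'] [Module K W']
    (z : List W) (z' : List W'), Same n z z' → (holds A z ↔ holds A z')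

/-- Guard `l` is alive: at every level where it is on it acts (finally) and has unboundedly
many witnesses. -/
def Alive (P : Par) (l : ℕ) : Prop :=
  ∀ i, l ≤ i → (P.tgf l i).1 ≠ 0 →
    ∃ y, (l, y) ∈ af P i ∧ ∀ M, ∃ t, M ≤ nwy P (sf P i) l i y t

/-- The `e`-th partial computable structure is total and isomorphic to the `K`-vector space
`W` with the final interpretations. -/
structure Thr (P : Par) (W : Type) [AddCommGroup W] [Module K W] (e : ℕ) where
  f : W ≃ ℕ
  r : ℕ → List ℕ → Bool
  comp : ∀ i v, (Denumerable.ofNat Nat.Partrec.Code e).eval (Nat.pair i (Encodable.encode v)) =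
    Part.some (Encodable.encode (r i v))
  spec : ∀ (i : ℕ) (w : List ℕ), w.length = ar i →
    (r i w = true ↔ holds (Rf P i) (w.map f.symm))

/-- `z0` is an admissible prefix for guard `l` at the (final) level `i`, with memory `y`. -/
def PP (P : Par) {W : Type} [AddCommGroup W] [Module K W] (f : W ≃ ℕ) (l i y : ℕ)
    (z0 : List W) : Prop :=
  z0.length = (P.tgf l i).1 ∧ Ind (kf P i) z0 ∧
    (P.knd l = true → z0.map f = P.bas l ++ [y]) ∧
    (P.knd l = false → ∀ j, j < i → Spn (kf P i) z0 (f.symm j))

/-- The intended meaning of the question symbol of guard `l` at level `i` is true. -/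
def Intd (P : Par) {W : Type} [AddCommGroup W] [Module K W] (l i : ℕ) (z0 : List W) : Prop :=
  q (kf P (i + 1)) ^ (P.tgf l i).2.1 ≤ nrel (kf P (i + 1)) z0 ∧
    nrel (kf P (i + 1)) z0 ≤ q (kf P (i + 1)) ^ (P.tgf l i).2.2

end Pool.Agent.Work.MP_ed0a9a_lc.H
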