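import Mathlib
import Pool.Agent.Work.MP_ed0a9a_lc.H.Defs

/-!
# Definitions for the builders (block `H`)
-/

namespace Pool.Agent.Work.MP_ed0a9a_lc.H

/-- Builder `β` is never killed. -/
def Liv (P : Par) (β : ℕ) : Prop := ∀ t, β < t → (bldA (st P t) β).1 = true

/-- The positions of builder `β` at stage `t`. -/
noncomputable def pos (P : Par) (t β : ℕ) : List Vec := (bldA (st P t) β).2.2

/-- The position of name `j` of builder `β` at stage `t`. -/
noncomputable def ps (P : Par) (t β j : ℕ) : ℕ →₀ K := sem ((pos P t β).getD j [])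

/-- Builder `β` builds the vector space of dimension `d`. -/
structure GB (P : Par) (β : ℕ) (d : ℕ∞) : Prop where
  liv : Liv P β
  ex : ∀ l ∈ P.ex β, Alive P l
  good : ∀ r : ℕ, (r : ℕ∞) ≤ d → ∀ i0, ∃ i, i0 ≤ i ∧ β ≤ i ∧ r ≤ P.rhof β i ∧
    (P.rhof β i : ℕ∞) ≤ d ∧ ∀ m t, i < m → P.rhof β i ≤ P.rho β m t

end Pool.Agent.Work.MP_ed0a9a_lc.H
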