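import Pool.Agent.Work.MP_ed0a9a_lc.H.Mt
import Pool.Agent.Work.MP_ed0a9a_lc.Bits

/-!
# Module `Pr1`: the relations of raw vectors are primitive recursive
-/

namespace Pool.Agent.Work.MP_ed0a9a_lc.H

/-- coordinate `j` of the linear combination of raw vectors -/
noncomputable def linC : List ℕ → List Vec → ℕ → ℕ
  | a :: c, v :: z, j => kmul a (v.getD j 0) ^^^ linC c z j
  | [], _, _ => 0
  | _ :: _, [], _ => 0

theorem kmul_zero' (a : ℕ) : kmul a 0 = 0 := by
  have h : toK (kmul a 0) = toK 0 := by rw [toK_kmul, toK_zero, mul_zero]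
  exact h

theorem toK_linC (c : List ℕ) (z : List Vec) (j : ℕ) :
    toK (linC c z j) = lin (c.map toK) (z.map sem) j := by
  induction c generalizing z with
  | nil =>
    rw [linC, toK_zero, List.map_nil, lin_nil]
    rfl
  | cons a c ih =>
    cases z with
    | nil =>
      rw [linC, toK_zero, List.map_nil, lin_nil']
      rfl
    | cons v z =>
      rw [linC, toK_xor, toK_kmul, ih, List.map_cons, List.map_cons, lin_cons,
        Finsupp.add_apply, Finsupp.smul_apply, sem_apply, smul_eq_mul]

theorem linC_eq (c : List ℕ) (z : List Vec) (j : ℕ) :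
    linC c z j = ((List.range c.length).map
      (fun i => kmul (c.getD i 0) ((z.getD i []).getD j 0))).foldr (fun x y => x ^^^ y) 0 := by
  induction c generalizing z with
  | nil => rw [linC]; rfl
  | cons a c ih =>
    rw [List.length_cons, List.range_succ_eq_map, List.map_cons, List.foldr_cons, List.map_map]
    cases z with
    | nil =>
      rw [linC]
      have h := ih []
      have e : ((fun i => kmul ((a :: c).getD i 0) ((([] : List Vec).getD i []).getD j 0)) ∘
          Nat.succ) = fun i => kmul (c.getD i 0) ((([] : List Vec).getD i []).getD j 0) := by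
        funext i; simp
      rw [e, ← h]
      cases c with
      | nil => rw [linC]; simp [kmul_zero']
      | cons b c => rw [linC]; simp [kmul_zero']
    | cons v z =>
      rw [linC, ih z]
      congr 1

/-- all lists of length `k` with entries `< Q` -/
def allL (Q : ℕ) : ℕ → List (List ℕ)
  | 0 => [[]]
  | k + 1 => (List.range Q).flatMap (fun a => (allL Q k).map (fun c => a :: c))

theorem mem_allL {Q k : ℕ} {c : List ℕ} :
    c ∈ allL Q k ↔ c.length = k ∧ ∀ x ∈ c, x < Q := by
  induction k generalizing c with
  | zero =>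
    rw [allL, List.mem_singleton]
    constructor
    · rintro rfl; simp
    · rintro ⟨h, -⟩; exact List.length_eq_zero_iff.1 h
  | succ k ih =>
    rw [allL, List.mem_flatMap]
    constructor
    · rintro ⟨a, ha, hc⟩
      rw [List.mem_map] at hc
      obtain ⟨c', hc', rfl⟩ := hc
      rw [ih] at hc'
      refine ⟨by rw [List.length_cons, hc'.1], ?_⟩
      intro x hx
      rw [List.mem_cons] at hx
      rcases hx with rfl | hx
      · exact List.mem_range.1 ha
      · exact hc'.2 x hx
    · rintro ⟨h1, h2⟩
      cases c with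
      | nil => simp at h1
      | cons a c =>
        refine ⟨a, List.mem_range.2 (h2 a (by simp)), ?_⟩
        rw [List.mem_map]
        exact ⟨c, ih.2 ⟨by simpa using h1, fun x hx => h2 x (by simp [hx])⟩, rfl⟩

theorem nodup_allL (Q k : ℕ) : (allL Q k).Nodup := by
  induction k with
  | zero => simp [allL]
  | succ k ih =>
    rw [allL, List.nodup_flatMap]
    refine ⟨fun a _ => ih.map (fun x y h => (List.cons.inj h).2), ?_⟩
    refine List.Pairwise.imp_of_mem ?_ List.nodup_range
    intro a b _ _ hab c hc hc'
    rw [List.mem_map] at hc hc'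
    obtain ⟨c1, -, rfl⟩ := hc
    obtain ⟨c2, -, h⟩ := hc'
    exact hab (List.cons.inj h).1.symm

/-- the linear combination of raw vectors is zero -/
def linZ (c : List ℕ) (z : List Vec) : Prop :=
  ∀ j < (z.map List.length).sum, linC c z j = 0

theorem linC_big (c : List ℕ) (z : List Vec) (j : ℕ) (h : (z.map List.length).sum ≤ j) :
    linC c z j = 0 := by
  induction c generalizing z with
  | nil => rw [linC]
  | cons a c ih =>
    cases z with
    | nil => rw [linC]
    | cons v z =>
      rw [List.map_cons, List.sum_cons] at h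
      rw [linC, ih z (by omega), List.getD_eq_default _ _ (by omega), kmul_zero']
      rfl

theorem linZ_iff (c : List ℕ) (z : List Vec) :
    linZ c z ↔ lin (c.map toK) (z.map sem) = 0 := by
  constructor
  · intro h
    ext j
    rw [← toK_linC, Finsupp.zero_apply, ← toK_zero, toK_inj]
    by_cases hj : j < (z.map List.length).sum
    · exact h j hj
    · exact linC_big c z j (not_lt.1 hj)
  · intro h j _
    rw [← toK_inj, toK_linC, h, toK_zero]
    rfl

theorem forall_IsF {n : ℕ} {k : ℕ} {P : List K → Prop} :
    (∀ c : List K, c.length = k → IsF n c → P c) ↔ ∀ c ∈ allL (q n) k, P (c.map toK) := by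
  constructor
  · intro h c hc
    rw [mem_allL] at hc
    refine h _ (by simpa using hc.1) ?_
    intro x hx
    rw [List.mem_map] at hx
    obtain ⟨y, hy, rfl⟩ := hx
    exact hc.2 y hy
  · intro h c hc hF
    have e : (c.map ofK).map toK = c := by
      rw [List.map_map]
      have : (toK ∘ ofK : K → K) = id := rfl
      rw [this, List.map_id]
    rw [← e]
    refine h _ ?_
    rw [mem_allL]
    refine ⟨by simpa using hc, ?_⟩
    intro x hx
    rw [List.mem_map] at hx
    obtain ⟨y, hy, rfl⟩ := hx
    exact hF y hy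

theorem same_iff (n : ℕ) (z z' : List Vec) : Same n (z.map sem) (z'.map sem) ↔
    z.length = z'.length ∧ ∀ c ∈ allL (q n) z.length, (linZ c z ↔ linZ c z') := by
  unfold Same
  rw [List.length_map, List.length_map]
  refine and_congr Iff.rfl ?_
  rw [forall_IsF (P := fun c => (lin c (z.map sem) = 0 ↔ lin c (z'.map sem) = 0))]
  simp only [linZ_iff]

theorem ind_iff (n : ℕ) (z : List Vec) : Ind n (z.map sem) ↔
    ∀ c ∈ allL (q n) z.length, linZ c z → ∀ x ∈ c, x = 0 := by
  unfold Ind
  rw [List.length_map]
  rw [forall_IsF (P := fun c => (lin c (z.map sem) = 0 → ∀ x ∈ c, x = 0))]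
  simp only [linZ_iff, List.mem_map, forall_exists_index, and_imp, forall_apply_eq_imp_iff₂,
    ← toK_zero, toK_inj]

open Classical in
theorem nrel_eq (n : ℕ) (z : List Vec) : nrel n (z.map sem) =
    ((allL (q n) z.length).filter (fun c => linZ c z)).length := by
  unfold nrel
  have h : {c : List K | c.length = (z.map sem).length ∧ IsF n c ∧ lin c (z.map sem) = 0} =
      (((allL (q n) z.length).filter (fun c => linZ c z)).toFinset.image (List.map toK) :
        Finset (List K)) := by
    ext c
    rw [Finset.coe_image, Set.mem_image]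
    constructor
    · rintro ⟨h1, h2, h3⟩
      have e : (c.map ofK).map toK = c := by
        rw [List.map_map]
        have : (toK ∘ ofK : K → K) = id := rfl
        rw [this, List.map_id]
      refine ⟨c.map ofK, ?_, e⟩
      rw [Finset.mem_coe, List.mem_toFinset, List.mem_filter, mem_allL]
      refine ⟨⟨by simpa using h1, ?_⟩, ?_⟩
      · intro x hx
        rw [List.mem_map] at hx
        obtain ⟨y, hy, rfl⟩ := hx
        exact h2 y hy
      · rw [decide_eq_true_eq, linZ_iff, e]
        exact h3
    · rintro ⟨c', hc', rfl⟩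
      rw [Finset.mem_coe, List.mem_toFinset, List.mem_filter, mem_allL, decide_eq_true_eq,
        linZ_iff] at hc'
      refine ⟨by simpa using hc'.1.1, ?_, hc'.2⟩
      intro x hx
      rw [List.mem_map] at hx
      obtain ⟨y, hy, rfl⟩ := hx
      exact hc'.1.2 y hy
  rw [h, Set.ncard_coe_finset, Finset.card_image_of_injective, List.toFinset_card_of_nodup]
  · exact (nodup_allL _ _).filter _
  · exact List.map_injective_iff.2 fun _ _ h => h

/-! ## Primitive recursiveness -/

theorem primrec_q : Primrec q := primrec_pow2.comp primrec_pow2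

theorem primrec_linC : Primrec (fun x : List ℕ × List Vec × ℕ => linC x.1 x.2.1 x.2.2) := by
  have h1 : Primrec (fun x : List ℕ × List Vec × ℕ => (List.range x.1.length).map
      (fun i => kmul (x.1.getD i 0) ((x.2.1.getD i []).getD x.2.2 0))) := by
    refine Primrec.list_map (Primrec.list_range.comp (Primrec.list_length.comp Primrec.fst)) ?_
    refine primrec_kmul.comp ?_ ?_
    · exact (Primrec.list_getD 0).comp (Primrec.fst.comp Primrec.fst) Primrec.snd
    · refine (Primrec.list_getD 0).comp ?_ ?_
      · exact (Primrec.list_getD []).comp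
          (Primrec.fst.comp (Primrec.snd.comp Primrec.fst)) Primrec.snd
      · exact Primrec.snd.comp (Primrec.snd.comp Primrec.fst)
  have h2 : Primrec (fun x : List ℕ × List Vec × ℕ => ((List.range x.1.length).map
      (fun i => kmul (x.1.getD i 0) ((x.2.1.getD i []).getD x.2.2 0))).foldr
        (fun x y => x ^^^ y) 0) := by
    refine Primrec.list_foldr (h := fun _ p => p.1 ^^^ p.2) h1 (Primrec.const 0) ?_
    exact (primrec_xor.comp (Primrec.fst.comp Primrec.snd) (Primrec.snd.comp Primrec.snd)).to₂
  exact h2.of_eq fun x => (linC_eq _ _ _).symm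

theorem primrec_sum : Primrec (fun l : List ℕ => l.sum) := by
  have h : Primrec (fun l : List ℕ => l.foldr (fun x y => x + y) 0) :=
    Primrec.list_foldr (h := fun _ p => p.1 + p.2) Primrec.id (Primrec.const 0)
      (Primrec.nat_add.comp (Primrec.fst.comp Primrec.snd) (Primrec.snd.comp Primrec.snd)).to₂
  exact h.of_eq fun l => rfl

theorem primrec_linZ : PrimrecRel linZ := by
  have hR : PrimrecRel (fun (j : ℕ) (x : List ℕ × List Vec) => linC x.1 x.2 j = 0) := by
    refine PrimrecRel.comp (R := fun a b : ℕ => a = b) Primrec.eq ?_ (Primrec.const 0)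
    exact primrec_linC.comp (Primrec.pair (Primrec.fst.comp Primrec.snd)
      (Primrec.pair (Primrec.snd.comp Primrec.snd) Primrec.fst))
  have h := hR.forall_mem_list
  have hs : Primrec (fun x : List ℕ × List Vec => List.range (x.2.map List.length).sum) :=
    Primrec.list_range.comp
      (primrec_sum.comp (Primrec.list_map Primrec.snd (Primrec.list_length.comp Primrec.snd).to₂))
  refine (PrimrecRel.comp h hs Primrec.id).of_eq fun x => ?_
  unfold linZ
  simp only [List.mem_range, id]

theorem primrec_allL : Primrec₂ allL := by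
  have hstep : Primrec₂ (fun (Q : ℕ) (p : ℕ × List (List ℕ)) =>
      (List.range Q).flatMap (fun a => p.2.map (fun c => a :: c))) := by
    have h1 : Primrec₂ (fun (x : ℕ × ℕ × List (List ℕ)) (a : ℕ) =>
        x.2.2.map (fun c => a :: c)) := by
      have h2 : Primrec₂ (fun (y : (ℕ × ℕ × List (List ℕ)) × ℕ) (c : List ℕ) => y.2 :: c) :=
        Primrec.list_cons.comp (Primrec.snd.comp Primrec.fst) Primrec.snd
      exact Primrec.list_map (Primrec.snd.comp (Primrec.snd.comp Primrec.fst)) h2
    exact Primrec.list_flatMap (Primrec.list_range.comp Primrec.fst) h1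
  have h : Primrec₂ (fun (Q k : ℕ) => Nat.rec (motive := fun _ => List (List ℕ)) [[]]
      (fun _ l => (List.range Q).flatMap (fun a => l.map (fun c => a :: c))) k) :=
    Primrec.nat_rec (Primrec.const [[]]) hstep
  refine h.of_eq fun Q k => ?_
  induction k with
  | zero => rfl
  | succ k ih => rw [allL, ← ih]

theorem primrec_same : PrimrecPred (fun x : ℕ × List Vec × List Vec =>
    Same x.1 (x.2.1.map sem) (x.2.2.map sem)) := by
  have hR : PrimrecRel (fun (c : List ℕ) (x : ℕ × List Vec × List Vec) =>
      (linZ c x.2.1 ↔ linZ c x.2.2)) := by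
    have h1 : PrimrecRel (fun (c : List ℕ) (x : ℕ × List Vec × List Vec) => linZ c x.2.1) :=
      PrimrecRel.comp primrec_linZ Primrec.fst (Primrec.fst.comp (Primrec.snd.comp Primrec.snd))
    have h2 : PrimrecRel (fun (c : List ℕ) (x : ℕ × List Vec × List Vec) => linZ c x.2.2) :=
      PrimrecRel.comp primrec_linZ Primrec.fst (Primrec.snd.comp (Primrec.snd.comp Primrec.snd))
    refine ((h1.and h2).or (h1.not.and h2.not)).of_eq fun x => ?_
    tauto
  have h := hR.forall_mem_list
  have h3 : PrimrecPred (fun x : ℕ × List Vec × List Vec =>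
      ∀ c ∈ allL (q x.1) x.2.1.length, (linZ c x.2.1 ↔ linZ c x.2.2)) :=
    PrimrecRel.comp h (primrec_allL.comp (primrec_q.comp Primrec.fst)
      (Primrec.list_length.comp (Primrec.fst.comp Primrec.snd))) Primrec.id
  have h4 : PrimrecPred (fun x : ℕ × List Vec × List Vec => x.2.1.length = x.2.2.length) :=
    PrimrecRel.comp (R := fun a b : ℕ => a = b) Primrec.eq
      (Primrec.list_length.comp (Primrec.fst.comp Primrec.snd))
      (Primrec.list_length.comp (Primrec.snd.comp Primrec.snd))
  exact (h4.and h3).of_eq fun x => (same_iff _ _ _).symm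

theorem primrec_ind : PrimrecPred (fun x : ℕ × List Vec => Ind x.1 (x.2.map sem)) := by
  have h0 : PrimrecPred (fun c : List ℕ => ∀ x ∈ c, x = 0) := by
    refine PrimrecPred.forall_mem_list ?_
    exact PrimrecRel.comp (R := fun a b : ℕ => a = b) Primrec.eq Primrec.id (Primrec.const 0)
  have hR : PrimrecRel (fun (c : List ℕ) (x : ℕ × List Vec) => linZ c x.2 → ∀ y ∈ c, y = 0) := by
    have h1 : PrimrecRel (fun (c : List ℕ) (x : ℕ × List Vec) => linZ c x.2) :=
      PrimrecRel.comp primrec_linZ Primrec.fst (Primrec.snd.comp Primrec.snd)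
    have h2 : PrimrecRel (fun (c : List ℕ) (x : ℕ × List Vec) => ∀ y ∈ c, y = 0) :=
      h0.comp Primrec.fst
    refine (h1.not.or h2).of_eq fun x => ?_
    tauto
  have h := hR.forall_mem_list
  have h3 : PrimrecPred (fun x : ℕ × List Vec =>
      ∀ c ∈ allL (q x.1) x.2.length, linZ c x.2 → ∀ y ∈ c, y = 0) :=
    PrimrecRel.comp h (primrec_allL.comp (primrec_q.comp Primrec.fst)
      (Primrec.list_length.comp Primrec.snd)) Primrec.id
  exact h3.of_eq fun x => (ind_iff _ _).symm

theorem primrec_nrel : Primrec₂ (fun (n : ℕ) (z : List Vec) => nrel n (z.map sem)) := by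
  classical
  have h1 : PrimrecRel (fun (c : List ℕ) (z : List Vec) => linZ c z) := primrec_linZ
  have h2 := h1.listFilter
  have h3 : Primrec₂ (fun (n : ℕ) (z : List Vec) =>
      ((allL (q n) z.length).filter (fun c => linZ c z)).length) := by
    refine Primrec.list_length.comp ?_
    exact h2.comp (primrec_allL.comp (primrec_q.comp Primrec.fst)
      (Primrec.list_length.comp Primrec.snd)) Primrec.snd
  exact h3.of_eq fun n z => (nrel_eq n z).symm

theorem primrec_qpow : Primrec₂ (fun n k : ℕ => q n ^ k) := by
  have h : Primrec₂ (fun n k : ℕ => 2 ^ (2 ^ n * k)) :=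
    primrec_pow2.comp (Primrec.nat_mul.comp (primrec_pow2.comp Primrec.fst) Primrec.snd)
  exact h.of_eq fun n k => by rw [q, ← pow_mul]

theorem primrec_hI : PrimrecPred (fun x : Itn × List Vec => hI x.1 (x.2.map sem)) := by
  have ht : ∀ t : ℕ, PrimrecPred (fun x : Itn × List Vec => x.1.1 = t) := fun t =>
    PrimrecRel.comp (R := fun a b : ℕ => a = b) Primrec.eq (Primrec.fst.comp Primrec.fst)
      (Primrec.const t)
  have hind : PrimrecPred (fun x : Itn × List Vec => Ind x.1.2.1 (x.2.map sem)) :=
    primrec_ind.comp (Primrec.pair (Primrec.fst.comp (Primrec.snd.comp Primrec.fst)) Primrec.snd)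
  have hlen : Primrec (fun x : Itn × List Vec => x.2.length) :=
    Primrec.list_length.comp Primrec.snd
  have hplus : PrimrecPred (fun x : Itn × List Vec =>
      x.2.length = 3 ∧ linZ [1, 1, 1] x.2) :=
    (PrimrecRel.comp (R := fun a b : ℕ => a = b) Primrec.eq hlen (Primrec.const 3)).and
      (PrimrecRel.comp primrec_linZ (Primrec.const [1, 1, 1]) Primrec.snd)
  have hsc : PrimrecPred (fun x : Itn × List Vec => 2 ≤ x.2.length ∧
      linZ (x.1.2.2.1 :: 1 :: (List.range (x.2.length - 2)).map (fun _ => 0)) x.2) := by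
    refine (PrimrecRel.comp (R := fun a b : ℕ => a ≤ b) Primrec.nat_le (Primrec.const 2)
      hlen).and (PrimrecRel.comp primrec_linZ ?_ Primrec.snd)
    refine Primrec.list_cons.comp
      (Primrec.fst.comp (Primrec.snd.comp (Primrec.snd.comp Primrec.fst))) ?_
    refine Primrec.list_cons.comp (Primrec.const 1) ?_
    exact Primrec.list_map (Primrec.list_range.comp (Primrec.nat_sub.comp hlen
      (Primrec.const 2))) (Primrec.const 0).to₂
  have hnrel : Primrec (fun x : Itn × List Vec =>
      nrel x.1.2.2.1 ((x.2.take x.1.2.2.2.1).map sem)) := by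
    refine primrec_nrel.comp
      (Primrec.fst.comp (Primrec.snd.comp (Primrec.snd.comp Primrec.fst))) ?_
    exact Primrec.list_take.comp (Primrec.fst.comp (Primrec.snd.comp (Primrec.snd.comp
      (Primrec.snd.comp Primrec.fst)))) Primrec.snd
  have hlo : PrimrecPred (fun x : Itn × List Vec =>
      q x.1.2.2.1 ^ x.1.2.2.2.2.1 ≤ nrel x.1.2.2.1 ((x.2.take x.1.2.2.2.1).map sem)) :=
    PrimrecRel.comp (R := fun a b : ℕ => a ≤ b) Primrec.nat_le
      (primrec_qpow.comp (Primrec.fst.comp (Primrec.snd.comp (Primrec.snd.comp Primrec.fst)))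
        (Primrec.fst.comp (Primrec.snd.comp (Primrec.snd.comp (Primrec.snd.comp
          (Primrec.snd.comp Primrec.fst)))))) hnrel
  have hhi : PrimrecPred (fun x : Itn × List Vec =>
      nrel x.1.2.2.1 ((x.2.take x.1.2.2.2.1).map sem) ≤ q x.1.2.2.1 ^ x.1.2.2.2.2.2) :=
    PrimrecRel.comp (R := fun a b : ℕ => a ≤ b) Primrec.nat_le hnrel
      (primrec_qpow.comp (Primrec.fst.comp (Primrec.snd.comp (Primrec.snd.comp Primrec.fst)))
        (Primrec.snd.comp (Primrec.snd.comp (Primrec.snd.comp (Primrec.snd.comp
          (Primrec.snd.comp Primrec.fst))))))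
  refine (((ht 0).and hplus).or (((ht 1).and hind).or (((ht 2).and (hind.and hsc)).or
    ((ht 3).and (hind.and (hlo.and hhi)))))).of_eq fun x => ?_
  unfold hI
  have e1 : (∃ u v : ℕ →₀ K, x.2.map sem = [u, v, u + v]) ↔
      x.2.length = 3 ∧ linZ [1, 1, 1] x.2 := by
    rw [plus_shape, linZ_iff, List.length_map]
    simp only [List.map_cons, List.map_nil, toK_one]
  have e2 : (∃ (u : ℕ →₀ K) (t : List (ℕ →₀ K)), x.2.map sem = u :: (toK x.1.2.2.1 • u) :: t) ↔
      2 ≤ x.2.length ∧
      linZ (x.1.2.2.1 :: 1 :: (List.range (x.2.length - 2)).map (fun _ => 0)) x.2 := by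
    rw [sc_shape, linZ_iff, List.length_map]
    have : ((List.range (x.2.length - 2)).map (fun _ => 0)).map toK =
        List.replicate (x.2.length - 2) (0 : K) := by
      rw [List.map_map]
      apply List.eq_replicate_iff.2
      refine ⟨by simp, ?_⟩
      intro y hy
      rw [List.mem_map] at hy
      obtain ⟨z, -, rfl⟩ := hy
      exact toK_zero
    rw [List.map_cons, List.map_cons, this, toK_one]
  rw [e1, e2, List.map_take]

/-- The meaning of interpretations on raw vectors is primitive recursive. -/
theorem primrec_holds : PrimrecPred (fun x : Asg × List Vec => holds x.1 (x.2.map sem)) := by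
  have hR : PrimrecRel (fun (p : List Vec × Bool) (x : Asg × List Vec) =>
      Same x.1.2.1 (p.1.map sem) (x.2.map sem)) :=
    primrec_same.comp (Primrec.pair
      (Primrec.fst.comp (Primrec.snd.comp (Primrec.fst.comp Primrec.snd)))
      (Primrec.pair (Primrec.fst.comp Primrec.fst) (Primrec.snd.comp Primrec.snd)))
  have hR2 : PrimrecRel (fun (p : List Vec × Bool) (x : Asg × List Vec) =>
      Same x.1.2.1 (p.1.map sem) (x.2.map sem) ∧ p.2 = true) :=
    hR.and (PrimrecRel.comp (R := fun a b : Bool => a = b) Primrec.eq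
      (Primrec.snd.comp Primrec.fst) (Primrec.const true))
  have hpats : Primrec (fun x : Asg × List Vec => x.1.2.2.1) :=
    Primrec.fst.comp (Primrec.snd.comp (Primrec.snd.comp Primrec.fst))
  have h1 : PrimrecPred (fun x : Asg × List Vec =>
      ∃ p ∈ x.1.2.2.1, Same x.1.2.1 (p.1.map sem) (x.2.map sem) ∧ p.2 = true) :=
    PrimrecRel.comp hR2.exists_mem_list hpats Primrec.id
  have h2 : PrimrecPred (fun x : Asg × List Vec =>
      ∀ p ∈ x.1.2.2.1, ¬ Same x.1.2.1 (p.1.map sem) (x.2.map sem)) :=
    PrimrecRel.comp hR.not.forall_mem_list hpats Primrec.id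
  have h3 : PrimrecPred (fun x : Asg × List Vec => hI x.1.2.2.2 (x.2.map sem)) :=
    primrec_hI.comp (Primrec.pair
      (Primrec.snd.comp (Primrec.snd.comp (Primrec.snd.comp Primrec.fst))) Primrec.snd)
  exact (h1.or (h2.and h3)).of_eq fun x => Iff.rfl

end Pool.Agent.Work.MP_ed0a9a_lc.H
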