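import Pool.Agent.Work.MP_ed0a9a_lc.H.Defs
import Pool.Agent.Work.MP_ed0a9a_lc.H.Pr1

/-!
# Module `Raw`: the meaning of the operations on raw vectors and of the tests
-/

namespace Pool.Agent.Work.MP_ed0a9a_lc.H

theorem sem_apply_getD (v : Vec) (i : ℕ) : sem v i = toK (v.getD i 0) := rfl

theorem sem_nil : sem [] = 0 := by
  ext i
  rw [sem_apply, List.getD_nil, toK_zero]
  rfl

theorem sem_vadd (u v : Vec) : sem (vadd u v) = sem u + sem v := by
  ext i
  rw [Finsupp.add_apply, sem_apply, sem_apply, sem_apply, ← toK_xor, toK_inj]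
  unfold vadd
  by_cases h : i < max u.length v.length
  · rw [List.getD_eq_getElem _ _ (by simpa using h), List.getElem_map, List.getElem_range]
  · rw [List.getD_eq_default _ _ (by simpa using h)]
    rw [not_lt, max_le_iff] at h
    rw [List.getD_eq_default _ _ h.1, List.getD_eq_default _ _ h.2]
    rfl

theorem sem_vsm (a : ℕ) (v : Vec) : sem (vsm a v) = toK a • sem v := by
  ext i
  rw [Finsupp.smul_apply, sem_apply, sem_apply, smul_eq_mul, ← toK_kmul, toK_inj]
  unfold vsm
  by_cases h : i < v.length
  · rw [List.getD_eq_getElem _ _ (by simpa using h), List.getElem_map,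
      List.getD_eq_getElem _ _ h]
  · rw [List.getD_eq_default _ _ (by simpa using h),
      List.getD_eq_default _ _ (by simpa using h), kmul_zero']

theorem sem_linV (c : List ℕ) (z : List Vec) :
    sem (linV c z) = lin (c.map toK) (z.map sem) := by
  unfold linV
  induction c generalizing z with
  | nil => rw [List.map_nil, lin_nil]; exact sem_nil
  | cons a c ih =>
    cases z with
    | nil => rw [List.map_nil, lin_nil']; exact sem_nil
    | cons v z =>
      rw [List.zipWith_cons_cons, List.foldr_cons, sem_vadd, sem_vsm, ih, List.map_cons,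
        List.map_cons, lin_cons]

theorem vz_iff (v : Vec) : vz v = true ↔ sem v = 0 := by
  unfold vz
  rw [List.all_eq_true]
  constructor
  · intro h
    ext i
    rw [sem_apply, Finsupp.zero_apply, ← toK_zero, toK_inj]
    by_cases hi : i < v.length
    · rw [List.getD_eq_getElem _ _ hi]
      simpa using h _ (List.getElem_mem hi)
    · rw [List.getD_eq_default _ _ (not_lt.1 hi)]
  · intro h x hx
    obtain ⟨i, hi, rfl⟩ := List.getElem_of_mem hx
    have h1 := DFunLike.congr_fun h i
    rw [sem_apply, Finsupp.zero_apply, ← toK_zero, toK_inj, List.getD_eq_getElem _ _ hi] at h1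
    simpa using h1

theorem veq_iff (u v : Vec) : veq u v = true ↔ sem u = sem v := by
  unfold veq
  rw [vz_iff, sem_vadd]
  constructor
  · intro h
    ext i
    have h1 := DFunLike.congr_fun h i
    rw [Finsupp.add_apply, Finsupp.zero_apply, add_eq_zero_iff_eq_neg, K_neg] at h1
    exact h1
  · intro h
    ext i
    rw [h, Finsupp.add_apply, K_add_self]
    rfl

theorem cl_eq (b L : ℕ) : cl b L = allL b L := by
  induction L with
  | zero => rfl
  | succ L ih => rw [cl, allL, ih]

theorem mem_cl {b L : ℕ} {c : List ℕ} : c ∈ cl b L ↔ c.length = L ∧ ∀ x ∈ c, x < b := by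
  rw [cl_eq, mem_allL]

theorem mem_tups {b L : ℕ} {c : List ℕ} : c ∈ tups b L ↔ c.length ≤ L ∧ ∀ x ∈ c, x < b := by
  unfold tups
  rw [List.mem_flatMap]
  constructor
  · rintro ⟨j, hj, hc⟩
    rw [mem_cl] at hc
    rw [List.mem_range] at hj
    exact ⟨by omega, hc.2⟩
  · rintro ⟨h1, h2⟩
    exact ⟨c.length, List.mem_range.2 (by omega), mem_cl.2 ⟨rfl, h2⟩⟩

theorem nodup_cl (b L : ℕ) : (cl b L).Nodup := by
  rw [cl_eq]
  exact nodup_allL b L

theorem vz_linV_iff (c : List ℕ) (z : List Vec) :
    vz (linV c z) = true ↔ lin (c.map toK) (z.map sem) = 0 := by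
  rw [vz_iff, sem_linV]

theorem vz_linV (c : List ℕ) (z : List Vec) : vz (linV c z) = true ↔ linZ c z := by
  rw [vz_linV_iff, linZ_iff]

theorem sameV_iff (n : ℕ) (z z' : List Vec) :
    sameV n z z' = true ↔ Same n (z.map sem) (z'.map sem) := by
  rw [same_iff]
  unfold sameV
  rw [Bool.and_eq_true, decide_eq_true_eq, List.all_eq_true, cl_eq]
  refine and_congr Iff.rfl ?_
  refine forall_congr' fun c => forall_congr' fun _ => ?_
  rw [beq_iff_eq, Bool.eq_iff_iff, vz_linV, vz_linV]

theorem sameV_false (n : ℕ) (z z' : List Vec) :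
    sameV n z z' = false ↔ ¬ Same n (z.map sem) (z'.map sem) := by
  rw [← sameV_iff]
  simp

theorem vz_list (c : List ℕ) : vz c = true ↔ ∀ x ∈ c, x = 0 := by
  unfold vz
  rw [List.all_eq_true]
  simp

theorem indV_iff (n : ℕ) (z : List Vec) : indV n z = true ↔ Ind n (z.map sem) := by
  rw [ind_iff]
  unfold indV
  rw [List.all_eq_true, cl_eq]
  refine forall_congr' fun c => forall_congr' fun _ => ?_
  rw [Bool.or_eq_true, Bool.not_eq_true', ← vz_list, ← vz_linV]
  cases vz (linV c z) <;> simp

theorem nrelV_eq (n : ℕ) (z : List Vec) : nrelV n z = nrel n (z.map sem) := by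
  classical
  rw [nrel_eq]
  unfold nrelV
  rw [cl_eq]
  congr 1
  apply List.filter_congr
  intro c _
  rw [Bool.eq_iff_iff, vz_linV, decide_eq_true_eq]

theorem evI_iff (I : Itn) (z : List Vec) : evI I z = true ↔ hI I (z.map sem) := by
  unfold evI hI
  rw [Bool.or_eq_true, Bool.or_eq_true, Bool.or_eq_true, Bool.and_eq_true, Bool.and_eq_true,
    Bool.and_eq_true, Bool.and_eq_true, Bool.and_eq_true, Bool.and_eq_true, Bool.and_eq_true,
    Bool.and_eq_true, Bool.and_eq_true, decide_eq_true_eq, decide_eq_true_eq,
    decide_eq_true_eq, decide_eq_true_eq, decide_eq_true_eq, decide_eq_true_eq,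
    decide_eq_true_eq, decide_eq_true_eq, indV_iff, veq_iff, veq_iff, sem_vadd, sem_vsm,
    nrelV_eq, List.map_take]
  refine or_congr (and_congr Iff.rfl ?_) (or_congr Iff.rfl
    (or_congr (and_congr Iff.rfl (and_congr Iff.rfl ?_)) Iff.rfl))
  · constructor
    · rintro ⟨h1, h2⟩
      obtain ⟨u, v, w, rfl⟩ := List.length_eq_three.1 h1
      refine ⟨sem u, sem v, ?_⟩
      simp only [List.map_cons, List.map_nil]
      simp only [List.getD_cons_zero, List.getD_cons_succ] at h2
      rw [h2]
    · rintro ⟨u, v, h⟩
      have h1 : z.length = 3 := by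
        have := congrArg List.length h
        simpa using this
      obtain ⟨u', v', w', rfl⟩ := List.length_eq_three.1 h1
      refine ⟨h1, ?_⟩
      simp only [List.map_cons, List.map_nil, List.cons.injEq, and_true] at h
      simp only [List.getD_cons_zero, List.getD_cons_succ]
      rw [h.1, h.2.1, h.2.2]
  · constructor
    · rintro ⟨h1, h2⟩
      match z, h1 with
      | u :: v :: t, _ =>
        refine ⟨sem u, t.map sem, ?_⟩
        simp only [List.getD_cons_zero, List.getD_cons_succ] at h2
        simp only [List.map_cons]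
        rw [h2]
    · rintro ⟨u, t, h⟩
      match z, h with
      | [], h => simp at h
      | [u'], h => simp at h
      | u' :: v' :: t', h =>
        simp only [List.map_cons, List.cons.injEq] at h
        refine ⟨by simp, ?_⟩
        simp only [List.getD_cons_zero, List.getD_cons_succ]
        rw [h.1, h.2.1]

theorem evA_iff (A : Asg) (z : List Vec) : evA A z = true ↔ holds A (z.map sem) := by
  unfold evA holds
  rw [Bool.or_eq_true, Bool.and_eq_true, List.any_eq_true, List.all_eq_true, evI_iff]
  refine or_congr ?_ (and_congr ?_ Iff.rfl)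
  · refine exists_congr fun p => and_congr Iff.rfl ?_
    rw [Bool.and_eq_true, sameV_iff]
  · refine forall_congr' fun p => forall_congr' fun _ => ?_
    rw [Bool.not_eq_true', sameV_false]

theorem evA_false (A : Asg) (z : List Vec) : evA A z = false ↔ ¬ holds A (z.map sem) := by
  rw [← evA_iff]
  simp

theorem core_iff (n ρ : ℕ) (v : Vec) :
    core n ρ v = true ↔ ∀ i, sem v i ∈ Fs n ∧ (ρ ≤ i → sem v i = 0) := by
  unfold core
  rw [List.all_eq_true]
  have hz : ∀ i, sem v i = 0 ↔ v.getD i 0 = 0 := by
    intro i
    rw [sem_apply, ← toK_zero, toK_inj]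
  have hF : ∀ i, sem v i ∈ Fs n ↔ v.getD i 0 < q n := fun i => Iff.rfl
  constructor
  · intro h i
    rw [hz, hF]
    by_cases hi : i < v.length
    · have h1 := h i (List.mem_range.2 hi)
      rw [Bool.and_eq_true, Bool.or_eq_true, decide_eq_true_eq, decide_eq_true_eq,
        decide_eq_true_eq] at h1
      exact ⟨h1.1, fun h2 => h1.2.resolve_left (by omega)⟩
    · rw [List.getD_eq_default _ _ (not_lt.1 hi)]
      exact ⟨lt_trans one_pos (one_lt_q n), fun _ => rfl⟩
  · intro h i _
    have h1 := h i
    rw [hz, hF] at h1
    rw [Bool.and_eq_true, Bool.or_eq_true, decide_eq_true_eq, decide_eq_true_eq,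
      decide_eq_true_eq]
    refine ⟨h1.1, ?_⟩
    by_cases h2 : i < ρ
    · exact Or.inl h2
    · exact Or.inr (h1.2 (not_lt.1 h2))

/-! ## Names -/

theorem nm_length (p : List Vec) (I : List ℕ) : (nm p I).length = I.length := by
  unfold nm
  rw [List.length_map]

theorem nm_nil (p : List Vec) : nm p [] = [] := rfl

theorem Ind.nodup {W : Type*} [AddCommGroup W] [Module K W] {n : ℕ} {z : List W}
    (h : Ind n z) : z.Nodup := by
  rw [List.nodup_iff_injective_get]
  intro i j hij
  by_contra hne
  -- the relation with coefficient 1 at `i` and `j`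
  let c : List K := (List.range z.length).map
    (fun k => if k = i.1 ∨ k = j.1 then (1 : K) else 0)
  have hc : c.length = z.length := by simp [c]
  have hF : IsF n c := by
    intro x hx
    simp only [c, List.mem_map] at hx
    obtain ⟨k, -, rfl⟩ := hx
    split_ifs
    · exact (Fs n).one_mem
    · exact (Fs n).zero_mem
  have hl : lin c z = 0 := by
    have e : lin c z = ∑ k : Fin z.length,
        (if k = i ∨ k = j then (1 : K) else 0) • z.get k := by
      unfold lin
      have e1 : List.zipWith (fun a v => a • v) c z = List.ofFn (fun k : Fin z.length =>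
          (if k = i ∨ k = j then (1 : K) else 0) • z.get k) := by
        apply List.ext_getElem
        · simp [hc]
        · intro k h1 h2
          simp only [c, List.getElem_zipWith, List.getElem_map, List.getElem_range,
            List.getElem_ofFn, List.get_eq_getElem, Fin.ext_iff]
      rw [e1, List.sum_ofFn]
    rw [e]
    have e2 : ∀ k : Fin z.length, (if k = i ∨ k = j then (1 : K) else 0) • z.get k =
        (if k = i then z.get i else 0) + (if k = j then z.get j else 0) := by
      intro k
      by_cases h1 : k = i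
      · subst h1
        have h2 : k ≠ j := hne
        simp [h2]
      · by_cases h2 : k = j
        · subst h2
          simp [h1]
        · simp [h1, h2]
    rw [Finset.sum_congr rfl (fun k _ => e2 k), Finset.sum_add_distrib,
      Finset.sum_ite_eq' Finset.univ i, Finset.sum_ite_eq' Finset.univ j]
    simp only [Finset.mem_univ, if_true]
    rw [hij]
    have : (1 : K) • z.get j + (1 : K) • z.get j = 0 := by
      rw [← add_smul, K_add_self, zero_smul]
    simpa using this
  have h0 := h c hc hF hl
  have h1 : (1 : K) ∈ c := by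
    simp only [c, List.mem_map, List.mem_range]
    exact ⟨i.1, i.2, by simp⟩
  exact one_ne_zero (h0 1 h1)

theorem Ind.length_le {n : ℕ} {P : List Vec} {I : List ℕ} (hI : ∀ x ∈ I, x < P.length)
    (h : Ind n ((nm P I).map sem)) : I.length ≤ P.length := by
  have h1 : ((nm P I).map sem).Nodup := h.nodup
  have h2 : I.Nodup := by
    unfold nm at h1
    rw [List.map_map] at h1
    exact List.Nodup.of_map _ h1
  have h3 : I ⊆ List.range P.length := fun x hx => List.mem_range.2 (hI x hx)
  have h4 := (List.subperm_of_subset h2 h3).length_le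
  rwa [List.length_range] at h4

theorem nrel_nil {W : Type*} [AddCommGroup W] [Module K W] (n : ℕ) :
    nrel n ([] : List W) = 1 := by
  unfold nrel
  have : {c : List K | c.length = ([] : List W).length ∧ IsF n c ∧ lin c ([] : List W) = 0} =
      {[]} := by
    ext c
    simp only [Set.mem_ofPred_eq, Set.mem_singleton_iff, List.length_nil]
    constructor
    · rintro ⟨h, -⟩
      exact List.length_eq_zero_iff.1 h
    · rintro rfl
      exact ⟨rfl, by intro x hx; simp at hx, lin_nil _⟩
  rw [this, Set.ncard_singleton]

end Pool.Agent.Work.MP_ed0a9a_lc.H
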