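import Mathlib
import Pool.Agent.Work.MP_ed0a9a_lc.H.Raw

/-!
# Module `Ca`: the number of witnesses

PROOFS.  `evq_mono`: `Nat.Partrec.Code.evaln_mono`.
`wok_mono`, `cx_mono`: `evq_mono` (values `some 1`, `some 0` persist), `List.all_eq_true`; for `cx`: the
filtered sublist of `List.range t` is contained (as a set, both without repetition) in the one for `t'`.
`nwy_spec`: the value of `foldr max 0` of a list is `0` or an element of the list
(`List.foldr_max_of_ne_nil`, or induction); so if it is positive it is `cx P σ l t u` for some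
`u ∈ cl t (ulen P σ l i)` with `wok = true`; `mem_cl`.
`le_nwy`: every element of the list is `≤` the fold (`List.le_max_of_le`, induction).
`nwy_mono`: from `nwy_spec`, `le_nwy`, `wok_mono`, `cx_mono`.
`cx_witness`: the `x` counted by `cx`, as a `Finset`.
`le_cx`: conversely a `Finset` of such `x`.
-/

namespace Pool.Agent.Work.MP_ed0a9a_lc.H

private theorem ca_foldr_mem : ∀ (L : List ℕ), 0 < L.foldr max 0 → L.foldr max 0 ∈ L
  | [], h => absurd h (lt_irrefl 0)
  | a :: L, h => by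
    rw [List.foldr_cons] at h ⊢
    rcases le_total a (L.foldr max 0) with h1 | h1
    · rw [max_eq_right h1] at h ⊢
      exact List.mem_cons_of_mem _ (ca_foldr_mem L h)
    · rw [max_eq_left h1]
      exact List.mem_cons_self

private theorem ca_le_foldr : ∀ (L : List ℕ) (a : ℕ), a ∈ L → a ≤ L.foldr max 0
  | [], a, h => absurd h List.not_mem_nil
  | b :: L, a, h => by
    rw [List.foldr_cons]
    rcases List.mem_cons.1 h with rfl | h
    · exact le_max_left _ _
    · exact (ca_le_foldr L a h).trans (le_max_right _ _)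

private theorem ca_cx_eq (P : Par) (σ l t : ℕ) (u : List ℕ) :
    cx P σ l t u = ((Finset.range t).filter fun x =>
      evq (P.cod l) t (sy σ 0 0) (u.take (2 * σ + 7) ++ [x]) = some 1 ∧
      evq (P.cod l) t (sy σ 2 l) (u.take (2 * σ + 7) ++ [x]) = some 0).card := by
  unfold cx
  rw [← List.toFinset_card_of_nodup (List.nodup_range.filter _)]
  congr 1
  ext x
  simp

theorem evq_mono {e t t' i : ℕ} {v : List ℕ} {b : ℕ} (h : t ≤ t') (hb : evq e t i v = some b) :
    evq e t' i v = some b := by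
  exact Nat.Partrec.Code.evaln_mono h hb

theorem wok_mono {P : Par} {σ l i y t t' : ℕ} {u : List ℕ} (h : t ≤ t')
    (hw : wok P σ l i y t u = true) : wok P σ l i y t' u = true := by
  unfold wok at hw ⊢
  by_cases hk : P.knd l = true
  · rw [if_pos hk] at hw ⊢
    exact hw
  · rw [if_neg hk] at hw ⊢
    simp only [Bool.and_eq_true, Bool.or_eq_true, decide_eq_true_eq, List.all_eq_true] at hw ⊢
    refine ⟨evq_mono h hw.1, fun j hj => ?_⟩
    rcases hw.2 j hj with h2 | ⟨h2, h3⟩
    · exact Or.inl h2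
    · exact Or.inr ⟨evq_mono h h2, evq_mono h h3⟩

theorem cx_mono {P : Par} {σ l t t' : ℕ} {u : List ℕ} (h : t ≤ t') :
    cx P σ l t u ≤ cx P σ l t' u := by
  rw [ca_cx_eq, ca_cx_eq]
  apply Finset.card_le_card
  intro x hx
  rw [Finset.mem_filter, Finset.mem_range] at hx ⊢
  exact ⟨hx.1.trans_le h, evq_mono h hx.2.1, evq_mono h hx.2.2⟩

theorem nwy_spec {P : Par} {σ l i y t : ℕ} (h : 0 < nwy P σ l i y t) :
    ∃ u, u.length = ulen P σ l i ∧ (∀ x ∈ u, x < t) ∧ wok P σ l i y t u = true ∧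
      cx P σ l t u = nwy P σ l i y t := by
  unfold nwy at h ⊢
  have h1 := ca_foldr_mem _ h
  rw [List.mem_map] at h1
  obtain ⟨u, hu, hu2⟩ := h1
  rw [mem_cl] at hu
  by_cases hw : wok P σ l i y t u = true
  · rw [if_pos hw] at hu2
    exact ⟨u, hu.1, hu.2, hw, hu2⟩
  · rw [if_neg hw] at hu2
    exact absurd hu2 h.ne

theorem le_nwy {P : Par} {σ l i y t : ℕ} {u : List ℕ} (hl : u.length = ulen P σ l i)
    (hu : ∀ x ∈ u, x < t) (hw : wok P σ l i y t u = true) :
    cx P σ l t u ≤ nwy P σ l i y t := by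
  unfold nwy
  apply ca_le_foldr
  rw [List.mem_map]
  exact ⟨u, mem_cl.2 ⟨hl, hu⟩, if_pos hw⟩

theorem nwy_mono {P : Par} {σ l i y t t' : ℕ} (h : t ≤ t') :
    nwy P σ l i y t ≤ nwy P σ l i y t' := by
  rcases Nat.eq_zero_or_pos (nwy P σ l i y t) with h0 | h0
  · rw [h0]
    exact Nat.zero_le _
  · obtain ⟨u, hl, hu, hw, he⟩ := nwy_spec h0
    rw [← he]
    exact (cx_mono h).trans (le_nwy hl (fun x hx => (hu x hx).trans_le h) (wok_mono h hw))

theorem cx_witness (P : Par) (σ l t : ℕ) (u : List ℕ) :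
    ∃ X : Finset ℕ, X.card = cx P σ l t u ∧ ∀ x ∈ X, x < t ∧
      evq (P.cod l) t (sy σ 0 0) (u.take (2 * σ + 7) ++ [x]) = some 1 ∧
      evq (P.cod l) t (sy σ 2 l) (u.take (2 * σ + 7) ++ [x]) = some 0 := by
  refine ⟨_, (ca_cx_eq P σ l t u).symm, ?_⟩
  intro x hx
  rw [Finset.mem_filter, Finset.mem_range] at hx
  exact hx

theorem le_cx (P : Par) (σ l t : ℕ) (u : List ℕ) (X : Finset ℕ) (h : ∀ x ∈ X, x < t ∧
      evq (P.cod l) t (sy σ 0 0) (u.take (2 * σ + 7) ++ [x]) = some 1 ∧
      evq (P.cod l) t (sy σ 2 l) (u.take (2 * σ + 7) ++ [x]) = some 0) :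
    X.card ≤ cx P σ l t u := by
  rw [ca_cx_eq]
  apply Finset.card_le_card
  intro x hx
  rw [Finset.mem_filter, Finset.mem_range]
  exact h x hx

end Pool.Agent.Work.MP_ed0a9a_lc.H
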