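import Mathlib
import Pool.Agent.Work.MP_ed0a9a_lc.H.Base

/-!
# Module `H/Ev1`: algebra of the fields `Fs n`, Moore's lemma
-/

namespace Pool.Agent.Work.MP_ed0a9a_lc.H.Ev

open Polynomial

instance instCharPK : CharP K 2 := by
  have h2 : (2 : K) = 0 := by
    rw [← one_add_one_eq_two]; exact K_add_self (1 : K)
  exact CharTwo.of_one_ne_zero_of_two_eq_zero one_ne_zero h2

theorem K_sub (a b : K) : a - b = a + b := by rw [sub_eq_add_neg, K_neg]

theorem Fs_mono {n n' : ℕ} (h : n ≤ n') : Fs n ≤ Fs n' := fun _ hx => lt_of_lt_of_le hx (q_mono h)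

theorem exists_Fs (x : K) : ∃ n, x ∈ Fs n := by
  refine ⟨ofK x, ?_⟩
  rw [mem_Fs]
  unfold q
  exact Nat.lt_two_pow_self.trans Nat.lt_two_pow_self

/-- the elements of `Fs n` are numbered by `Fin (q n)` -/
def FsEquiv (n : ℕ) : Fs n ≃ Fin (q n) where
  toFun x := ⟨ofK x.1, x.2⟩
  invFun i := ⟨toK i.1, i.2⟩
  left_inv _ := rfl
  right_inv _ := rfl

noncomputable instance instFintypeFs (n : ℕ) : Fintype (Fs n) := Fintype.ofEquiv _ (FsEquiv n).symm

theorem card_Fs (n : ℕ) : Fintype.card (Fs n) = q n := by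
  rw [Fintype.card_congr (FsEquiv n), Fintype.card_fin]

theorem q_pos (n : ℕ) : 0 < q n := lt_trans one_pos (one_lt_q n)

theorem q_succ (n : ℕ) : q (n + 1) = q n * q n := by
  unfold q; rw [← pow_add, pow_succ]; congr 1; ring

theorem frob_add (n : ℕ) (x y : K) : (x + y) ^ q n = x ^ q n + y ^ q n := by
  unfold q; exact add_pow_char_pow x y 2 _

theorem frobl_add (n l : ℕ) (x y : K) : (x + y) ^ (q n ^ l) = x ^ (q n ^ l) + y ^ (q n ^ l) := by
  unfold q; rw [← pow_mul]; exact add_pow_char_pow x y 2 _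

theorem frobl_sum {ι : Type*} (n l : ℕ) (s : Finset ι) (f : ι → K) :
    (∑ i ∈ s, f i) ^ (q n ^ l) = ∑ i ∈ s, f i ^ (q n ^ l) := by
  classical
  induction s using Finset.induction_on with
  | empty => simp [zero_pow (pow_pos (q_pos n) l).ne']
  | insert a s ha ih => rw [Finset.sum_insert ha, Finset.sum_insert ha, frobl_add, ih]

theorem pow_q_of_mem {n : ℕ} {x : K} (hx : x ∈ Fs n) : x ^ q n = x := by
  have h := FiniteField.pow_card (⟨x, hx⟩ : Fs n)
  rw [card_Fs] at h
  exact congrArg Subtype.val h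

theorem pow_ql_of_mem {n : ℕ} {x : K} (hx : x ∈ Fs n) (l : ℕ) : x ^ (q n ^ l) = x := by
  induction l with
  | zero => simp
  | succ l ih => rw [pow_succ, pow_mul, ih, pow_q_of_mem hx]

theorem mem_of_pow_q {n : ℕ} {x : K} (hx : x ^ q n = x) : x ∈ Fs n := by
  by_contra hn
  have hdeg : (X ^ q n - X : K[X]).natDegree = q n :=
    FiniteField.X_pow_card_sub_X_natDegree_eq K (one_lt_q n)
  have hz : (X ^ q n - X : K[X]) = 0 := by
    refine eq_zero_of_natDegree_lt_card_of_eval_eq_zero _
      (f := fun o : Option (Fs n) => o.elim x Subtype.val) ?_ ?_ ?_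
    · rintro (_ | a) (_ | b) h
      · rfl
      · have h' : x = b.1 := h
        exact absurd (h' ▸ b.2 : x ∈ Fs n) hn
      · have h' : a.1 = x := h
        exact absurd (h' ▸ a.2 : x ∈ Fs n) hn
      · exact congrArg some (Subtype.ext h)
    · rintro (_ | a)
      · simp [hx]
      · simp [pow_q_of_mem a.2]
    · rw [hdeg, Fintype.card_option, card_Fs]
      omega
  rw [hz, natDegree_zero] at hdeg
  exact (q_pos n).ne hdeg

/-- Moore's lemma: an `F_n`-independent family of `a` elements is not killed by a nonzero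
`q`-polynomial with `d ≤ a` terms. -/
theorem moore {n a d : ℕ} (x : Fin a → K)
    (hx : ∀ c : Fin a → K, (∀ i, c i ∈ Fs n) → ∑ i, c i * x i = 0 → ∀ i, c i = 0)
    (hd : d ≤ a) (c : Fin d → K)
    (h : ∀ i, ∑ l : Fin d, c l * x i ^ (q n ^ (l : ℕ)) = 0) : ∀ l, c l = 0 := by
  intro l0
  have hd0 : 0 < d := lt_of_le_of_lt (Nat.zero_le _) l0.isLt
  set p : K[X] := ∑ l : Fin d, C (c l) * X ^ (q n ^ (l : ℕ)) with hp
  have hz : p = 0 := by
    refine eq_zero_of_natDegree_lt_card_of_eval_eq_zero p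
      (f := fun b : Fin a → Fs n => ∑ i, (b i : K) * x i) ?_ ?_ ?_
    · intro b b' hb
      have hb' : ∑ i, (b i : K) * x i = ∑ i, (b' i : K) * x i := hb
      have h0 : ∑ i, ((b i : K) - (b' i : K)) * x i = 0 := by
        simp only [sub_mul, Finset.sum_sub_distrib, hb', sub_self]
      have := hx _ (fun i => (Fs n).sub_mem (b i).2 (b' i).2) h0
      funext i
      exact Subtype.ext (sub_eq_zero.mp (this i))
    · intro b
      show p.eval (∑ i, (b i : K) * x i) = 0
      rw [hp, eval_finsetSum]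
      simp only [eval_mul, eval_C, eval_pow, eval_X, frobl_sum, mul_pow,
        pow_ql_of_mem (Subtype.prop _)]
      have : ∀ l : Fin d, c l * ∑ i, (b i : K) * x i ^ (q n ^ (l : ℕ)) =
          ∑ i, (b i : K) * (c l * x i ^ (q n ^ (l : ℕ))) := by
        intro l
        rw [Finset.mul_sum]
        exact Finset.sum_congr rfl fun i _ => by ring
      simp only [this]
      rw [Finset.sum_comm]
      refine Finset.sum_eq_zero fun i _ => ?_
      rw [← Finset.mul_sum, h i, mul_zero]
    · have hc : Fintype.card (Fin a → Fs n) = q n ^ a := by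
        rw [Fintype.card_fun, card_Fs, Fintype.card_fin]
      rw [hc]
      have h1 : p.natDegree ≤ q n ^ (d - 1) := by
        rw [hp]
        refine natDegree_sum_le_of_forall_le _ _ fun l _ => ?_
        refine (natDegree_C_mul_X_pow_le _ _).trans ?_
        exact Nat.pow_le_pow_right (q_pos n) (by have := l.isLt; omega)
      exact h1.trans_lt (Nat.pow_lt_pow_right (one_lt_q n) (by omega))
  have hcf := congrArg (fun p => Polynomial.coeff p (q n ^ (l0 : ℕ))) hz
  simp only [hp, finsetSum_coeff, coeff_C_mul, coeff_X_pow, coeff_zero] at hcf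
  rw [Finset.sum_eq_single l0] at hcf
  · simpa using hcf
  · intro l _ hl
    rw [if_neg, mul_zero]
    intro he
    exact hl (Fin.ext (Nat.pow_right_injective (one_lt_q n) he).symm)
  · intro hh
    exact absurd (Finset.mem_univ _) hh

theorem exists_tau (n : ℕ) : ∃ t ∈ Fs (n + 2), ∀ a ∈ Fs n, ∀ b ∈ Fs n, ∀ c ∈ Fs n,
    a + b * t + c * t ^ 2 = 0 → a = 0 ∧ b = 0 ∧ c = 0 := by
  have hlt : ∀ k, q k < q (k + 1) := by
    intro k
    rw [q_succ]
    have := one_lt_q k
    nlinarith
  set t : K := toK (q (n + 1)) with ht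
  have ht2 : t ∈ Fs (n + 2) := hlt (n + 1)
  have ht1 : t ∉ Fs (n + 1) := by
    intro h
    exact lt_irrefl _ (mem_Fs.mp h)
  have ht0 : t ∉ Fs n := fun h => ht1 (Fs_mono (Nat.le_succ n) h)
  refine ⟨t, ht2, ?_⟩
  intro a ha b hb c hc h
  have hc0 : c = 0 := by
    by_contra hc0
    have e1 : a + b * t ^ q n + c * (t ^ q n) ^ 2 = 0 := by
      have h2 := congrArg (· ^ q n) h
      simp only [frob_add, mul_pow, pow_q_of_mem ha, pow_q_of_mem hb, pow_q_of_mem hc,
        zero_pow (q_pos n).ne'] at h2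
      rw [← h2]; ring
    have e2 : a + b * (t ^ q n) ^ q n + c * ((t ^ q n) ^ q n) ^ 2 = 0 := by
      have h2 := congrArg (· ^ q n) e1
      simp only [frob_add, mul_pow, pow_q_of_mem ha, pow_q_of_mem hb, pow_q_of_mem hc,
        zero_pow (q_pos n).ne'] at h2
      rw [← h2]; ring
    have n1 : t - t ^ q n ≠ 0 := fun h0 => ht0 (mem_of_pow_q (sub_eq_zero.mp h0).symm)
    have n2 : t ^ q n - (t ^ q n) ^ q n ≠ 0 := by
      have : t ^ q n - (t ^ q n) ^ q n = (t - t ^ q n) ^ q n := by
        rw [K_sub, K_sub, frob_add]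
      rw [this]
      exact pow_ne_zero _ n1
    have f1 : b + c * (t + t ^ q n) = 0 := by
      apply mul_left_cancel₀ n1
      linear_combination h - e1
    have f2 : b + c * (t ^ q n + (t ^ q n) ^ q n) = 0 := by
      apply mul_left_cancel₀ n2
      linear_combination e1 - e2
    have f3 : t = (t ^ q n) ^ q n := by
      have : c * (t - (t ^ q n) ^ q n) = 0 := by linear_combination f1 - f2
      rcases mul_eq_zero.mp this with h0 | h0
      · exact absurd h0 hc0
      · exact sub_eq_zero.mp h0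
    apply ht1
    apply mem_of_pow_q
    rw [q_succ, pow_mul]
    exact f3.symm
  subst hc0
  have hb0 : b = 0 := by
    by_contra hb0
    apply ht0
    have : t = - a / b := by
      rw [eq_div_iff hb0]
      linear_combination h
    rw [this]
    exact (Fs n).div_mem ((Fs n).neg_mem ha) hb
  subst hb0
  exact ⟨by simpa using h, rfl, rfl⟩

instance instInfiniteK : Infinite K := inferInstanceAs (Infinite ℕ)

private theorem exists_theta_fin (n D : ℕ) : ∃ t : Fin D → K, ∀ c : Fin D → K,
    (∀ i, c i ∈ Fs n) → ∑ i, c i * t i = 0 → ∀ i, c i = 0 := by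
  induction D with
  | zero => exact ⟨fun _ => 0, fun c _ _ i => i.elim0⟩
  | succ D ih =>
    obtain ⟨t, ht⟩ := ih
    have hfin : (Set.range (fun c : Fin D → Fs n => ∑ i, (c i : K) * t i)).Finite :=
      Set.finite_range _
    obtain ⟨u, hu⟩ := hfin.exists_notMem
    refine ⟨Fin.cons u t, fun c hc h => ?_⟩
    rw [Fin.sum_univ_succ] at h
    simp only [Fin.cons_zero, Fin.cons_succ] at h
    have hc0 : c 0 = 0 := by
      by_contra h0
      apply hu
      refine ⟨fun i => ⟨- (c i.succ / c 0),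
        (Fs n).neg_mem ((Fs n).div_mem (hc _) (hc _))⟩, ?_⟩
      show ∑ i, (-(c i.succ / c 0)) * t i = u
      have : ∑ i, (-(c i.succ / c 0)) * t i = - (∑ i, c i.succ * t i) / c 0 := by
        rw [← Finset.sum_neg_distrib, Finset.sum_div]
        exact Finset.sum_congr rfl fun i _ => by ring
      rw [this, div_eq_iff h0]
      linear_combination -h
    rw [hc0, zero_mul, zero_add] at h
    intro i
    refine Fin.cases hc0 (fun j => ?_) i
    exact ht (fun i => c i.succ) (fun i => hc _) h j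

theorem exists_theta (n : ℕ) (ι : Type) [Fintype ι] : ∃ t : ι → K, ∀ c : ι → K,
    (∀ i, c i ∈ Fs n) → ∑ i, c i * t i = 0 → ∀ i, c i = 0 := by
  obtain ⟨t, ht⟩ := exists_theta_fin n (Fintype.card ι)
  refine ⟨fun i => t (Fintype.equivFin ι i), fun c hc h i => ?_⟩
  have := ht (fun j => c ((Fintype.equivFin ι).symm j)) (fun j => hc _) (by
    rw [← h]
    exact Fintype.sum_equiv (Fintype.equivFin ι).symm _ _ fun j => by
      simp only [Equiv.apply_symm_apply]) (Fintype.equivFin ι i)
  simpa using this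

/-- every finite family lies in some `Fs n` -/
theorem exists_Fs_family (ι : Type) [Finite ι] (t : ι → K) : ∃ n, ∀ i, t i ∈ Fs n := by
  cases nonempty_fintype ι
  choose f hf using fun i => exists_Fs (t i)
  exact ⟨Finset.univ.sup f, fun i => Fs_mono (Finset.le_sup (Finset.mem_univ i)) (hf i)⟩

end Pool.Agent.Work.MP_ed0a9a_lc.H.Ev
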