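import Mathlib
import Pool.Agent.Work.MP_ed0a9a_lc.H.Ev1

/-!
# Module `H/Ev2`: the generic `F_n`-linear maps
-/

namespace Pool.Agent.Work.MP_ed0a9a_lc.H.Ev

open Finset

/-- vectors with coordinates in `F_n` and support `< r` -/
def Box (n r : ℕ) (v : ℕ →₀ K) : Prop := (∀ i, v i ∈ Fs n) ∧ ∀ i, r ≤ i → v i = 0

theorem Box.mono {n n' r r' : ℕ} (hn : n ≤ n') (hr : r ≤ r') {v : ℕ →₀ K} (h : Box n r v) :
    Box n' r' v := ⟨fun i => Fs_mono hn (h.1 i), fun i hi => h.2 i (hr.trans hi)⟩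

theorem Box.add {n r : ℕ} {v w : ℕ →₀ K} (hv : Box n r v) (hw : Box n r w) : Box n r (v + w) :=
  ⟨fun i => (Fs n).add_mem (hv.1 i) (hw.1 i), fun i hi => by
    rw [Finsupp.add_apply, hv.2 i hi, hw.2 i hi, add_zero]⟩

theorem Box.smul {n r : ℕ} {v : ℕ →₀ K} {c : K} (hc : c ∈ Fs n) (hv : Box n r v) :
    Box n r (c • v) :=
  ⟨fun i => (Fs n).mul_mem hc (hv.1 i), fun i hi => by
    rw [Finsupp.smul_apply, hv.2 i hi, smul_zero]⟩

theorem Box.zero {n r : ℕ} : Box n r 0 := ⟨fun _ => (Fs n).zero_mem, fun _ _ => rfl⟩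

theorem Box.sum {ι : Type*} {n r : ℕ} (s : Finset ι) (f : ι → (ℕ →₀ K))
    (h : ∀ i ∈ s, Box n r (f i)) : Box n r (∑ i ∈ s, f i) := by
  classical
  induction s using Finset.induction_on with
  | empty => simpa using Box.zero
  | insert a s ha ih =>
    rw [Finset.sum_insert ha]
    exact (h a (Finset.mem_insert_self a s)).add
      (ih fun i hi => h i (Finset.mem_insert_of_mem hi))

theorem Box.single {n r i : ℕ} (h : i < r) : Box n r (Finsupp.single i 1) := by
  classical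
  refine ⟨fun j => ?_, fun j hj => ?_⟩
  · rw [Finsupp.single_apply]
    split_ifs
    · exact (Fs n).one_mem
    · exact (Fs n).zero_mem
  · rw [Finsupp.single_apply, if_neg (by omega)]

/-- the generic functionals `f` -/
structure GenF (n n2 r N s : ℕ) (f : Fin s → (ℕ →₀ K) → K) : Prop where
  add : ∀ b x y, f b (x + y) = f b x + f b y
  smul : ∀ b, ∀ c ∈ Fs n, ∀ x, f b (c • x) = c * f b x
  mem : ∀ b v, Box n2 r v → f b v ∈ Fs N
  inj : ∀ b v, Box n2 r v → f b v = 0 → v = 0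
  prop : ∀ b b' v1 v2 v1' v2' (α : K), Box n2 r v1 → Box n2 r v2 → Box n2 r v1' →
    Box n2 r v2' → (∀ c1 ∈ Fs n, ∀ c2 ∈ Fs n, c1 • v1 + c2 • v2 = 0 → c1 = 0 ∧ c2 = 0) →
    v1' ≠ 0 → f b' v1' = α * f b v1 → f b' v2' = α * f b v2 → b = b' ∧ α ∈ Fs n

theorem exists_GenF (n n2 r s B : ℕ) (hn : n ≤ n2) : ∃ N, n < N ∧ B ≤ N ∧
    ∃ f : Fin s → (ℕ →₀ K) → K, GenF n n2 r N s f := by
  obtain ⟨θ, hθ⟩ := exists_theta n2 (Fin s × Fin r)
  obtain ⟨n3', hn3'⟩ := exists_Fs_family (Fin s × Fin r) θ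
  obtain ⟨n3, hθ3, hn23⟩ : ∃ n3, (∀ j, θ j ∈ Fs n3) ∧ n2 ≤ n3 :=
    ⟨max n3' n2, fun j => Fs_mono (le_max_left _ _) (hn3' j), le_max_right _ _⟩
  obtain ⟨τ, hτ, hτ3⟩ := exists_tau n3
  set ψ : Fin s → (ℕ →₀ K) → K := fun b v => ∑ i : Fin r, v i * θ (b, i) with hψ
  have ψadd : ∀ b x y, ψ b (x + y) = ψ b x + ψ b y := by
    intro b x y
    simp only [hψ, Finsupp.add_apply, add_mul, Finset.sum_add_distrib]
  have ψsmul : ∀ b (c : K) x, ψ b (c • x) = c * ψ b x := by
    intro b c x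
    simp only [hψ, Finsupp.smul_apply, smul_eq_mul, Finset.mul_sum, mul_assoc]
  have ψmem : ∀ b v, Box n2 r v → ψ b v ∈ Fs n3 := by
    intro b v hv
    exact (Fs n3).sum_mem fun i _ => (Fs n3).mul_mem (Fs_mono hn23 (hv.1 i)) (hθ3 _)
  have ψinj2 : ∀ b b' v v', Box n2 r v → Box n2 r v' → ψ b v = ψ b' v' → v ≠ 0 →
      b = b' ∧ v = v' := by
    intro b b' v v' hv hv' h hv0
    have key := hθ (fun p => (if p.1 = b then v p.2 else 0) - (if p.1 = b' then v' p.2 else 0))
      (fun p => by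
        refine (Fs n2).sub_mem ?_ ?_
        · split_ifs
          · exact hv.1 _
          · exact (Fs n2).zero_mem
        · split_ifs
          · exact hv'.1 _
          · exact (Fs n2).zero_mem)
      (by
        simp only [sub_mul, ite_mul, zero_mul, Finset.sum_sub_distrib]
        rw [Fintype.sum_prod_type, Fintype.sum_prod_type]
        rw [Finset.sum_eq_single b, Finset.sum_eq_single b']
        · simp only [if_true]
          exact sub_eq_zero.mpr h
        · intro c _ hc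
          simp [hc]
        · intro hh; exact absurd (Finset.mem_univ _) hh
        · intro c _ hc
          simp [hc]
        · intro hh; exact absurd (Finset.mem_univ _) hh)
    have hbb : b = b' := by
      by_contra hne
      apply hv0
      ext i
      by_cases hi : i < r
      · have := key (b, ⟨i, hi⟩)
        simpa [hne] using this
      · exact hv.2 i (not_lt.mp hi)
    subst hbb
    refine ⟨rfl, ?_⟩
    ext i
    by_cases hi : i < r
    · have := key (b, ⟨i, hi⟩)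
      simpa [sub_eq_zero] using this
    · rw [hv.2 i (not_lt.mp hi), hv'.2 i (not_lt.mp hi)]
  have ψ0 : ∀ b, ψ b 0 = 0 := by intro b; simp [hψ]
  have ψinj : ∀ b v, Box n2 r v → ψ b v = 0 → v = 0 := by
    intro b v hv h
    by_contra h0
    exact h0 (ψinj2 b b v 0 hv Box.zero (by rw [h, ψ0]) h0).2
  set N := max (n3 + 2) (max (n + 1) B) with hN
  have hN3 : n3 ≤ N := (Nat.le_add_right _ _).trans (le_max_left _ _)
  have hqmem : ∀ x ∈ Fs n3, x ^ q n ∈ Fs n3 := fun x hx => (Fs n3).pow_mem hx _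
  refine ⟨N, ?_, ?_, fun b v => ψ b v + τ * ψ b v ^ q n, ?_, ?_, ?_, ?_, ?_⟩
  · have : n + 1 ≤ N := (le_max_left _ _).trans (le_max_right _ _)
    omega
  · exact (le_max_right _ _).trans (le_max_right _ _)
  · intro b x y
    show ψ b (x + y) + τ * ψ b (x + y) ^ q n = _
    rw [ψadd, frob_add]; ring
  · intro b c hc x
    show ψ b (c • x) + τ * ψ b (c • x) ^ q n = _
    rw [ψsmul, mul_pow, pow_q_of_mem hc]; ring
  · intro b v hv
    refine (Fs N).add_mem (Fs_mono hN3 (ψmem b v hv)) ((Fs N).mul_mem ?_ ?_)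
    · exact Fs_mono (le_max_left _ _) hτ
    · exact Fs_mono hN3 (hqmem _ (ψmem b v hv))
  · intro b v hv h
    have h' : ψ b v + ψ b v ^ q n * τ + 0 * τ ^ 2 = 0 := by
      have h2 : ψ b v + τ * ψ b v ^ q n = 0 := h
      linear_combination h2
    exact ψinj b v hv (hτ3 _ (ψmem b v hv) _ (hqmem _ (ψmem b v hv)) 0 (Fs n3).zero_mem h').1
  · intro b b' v1 v2 v1' v2' α h1 h2 h1' h2' hind hv1' e1 e2
    have m1 := ψmem b v1 h1
    have m2 := ψmem b v2 h2
    have m1' := ψmem b' v1' h1'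
    have m2' := ψmem b' v2' h2'
    set y1 := ψ b v1 with hy1
    set y2 := ψ b v2 with hy2
    set y1' := ψ b' v1' with hy1'
    set y2' := ψ b' v2' with hy2'
    have e1' : y1' + τ * y1' ^ q n = α * (y1 + τ * y1 ^ q n) := e1
    have e2' : y2' + τ * y2' ^ q n = α * (y2 + τ * y2 ^ q n) := e2
    have E : (y1 * y2' - y1' * y2) +
        (y1 * y2' ^ q n + y1 ^ q n * y2' - y1' * y2 ^ q n - y1' ^ q n * y2) * τ +
        (y1 ^ q n * y2' ^ q n - y1' ^ q n * y2 ^ q n) * τ ^ 2 = 0 := by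
      have : (y1 + τ * y1 ^ q n) * (y2' + τ * y2' ^ q n) =
          (y1' + τ * y1' ^ q n) * (y2 + τ * y2 ^ q n) := by
        rw [e1', e2']; ring
      linear_combination this
    have q1 := hqmem _ m1
    have q2 := hqmem _ m2
    have q1' := hqmem _ m1'
    have q2' := hqmem _ m2'
    obtain ⟨E1, E2, -⟩ := hτ3 _ ((Fs n3).sub_mem ((Fs n3).mul_mem m1 m2') ((Fs n3).mul_mem m1' m2))
      _ ((Fs n3).sub_mem ((Fs n3).sub_mem ((Fs n3).add_mem ((Fs n3).mul_mem m1 q2')
        ((Fs n3).mul_mem q1 m2')) ((Fs n3).mul_mem m1' q2)) ((Fs n3).mul_mem q1' m2))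
      _ ((Fs n3).sub_mem ((Fs n3).mul_mem q1 q2') ((Fs n3).mul_mem q1' q2)) E
    have v1ne : v1 ≠ 0 := by
      intro h0
      have := (hind 1 (Fs n).one_mem 0 (Fs n).zero_mem (by rw [h0]; simp)).1
      exact one_ne_zero this
    have y1ne : y1 ≠ 0 := fun h0 => v1ne (ψinj b v1 h1 h0)
    obtain ⟨lam, hlam⟩ : ∃ lam, y1' = lam * y1 := ⟨y1' / y1, by field_simp⟩
    have hlam2 : y2' = lam * y2 := by
      apply mul_left_cancel₀ y1ne
      linear_combination E1 + y2 * hlam
    have hne : y1 * y2 ^ q n - y1 ^ q n * y2 ≠ 0 := by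
      intro h0
      have hμ : (y2 / y1) ^ q n = y2 / y1 := by
        rw [div_pow, div_eq_div_iff (pow_ne_zero _ y1ne) y1ne]
        linear_combination h0
      have hμm := mem_of_pow_q hμ
      have hv : v2 - (y2 / y1) • v1 = 0 := by
        have hbx : Box n2 r (v2 + (y2 / y1) • v1) := h2.add (h1.smul (Fs_mono hn hμm))
        have : ψ b (v2 + (y2 / y1) • v1) = 0 := by
          rw [ψadd, ψsmul, ← hy1, ← hy2, div_mul_cancel₀ _ y1ne, K_add_self]
        have := ψinj b _ hbx this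
        rw [← this]
        ext i
        simp [K_sub]
      have := (hind (-(y2 / y1)) ((Fs n).neg_mem hμm) 1 (Fs n).one_mem (by
        rw [neg_smul, one_smul, neg_add_eq_sub, hv])).2
      exact one_ne_zero this
    have hlq : lam ^ q n = lam := by
      have : (lam ^ q n - lam) * (y1 * y2 ^ q n - y1 ^ q n * y2) = 0 := by
        have E2' := E2
        rw [hlam, hlam2, mul_pow, mul_pow] at E2'
        linear_combination E2'
      rcases mul_eq_zero.mp this with h0 | h0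
      · exact sub_eq_zero.mp h0
      · exact absurd h0 hne
    have hlm := mem_of_pow_q hlq
    have hkey : ψ b (lam • v1) = ψ b' v1' := by
      rw [ψsmul, ← hy1, ← hy1', hlam]
    have hl0 : lam • v1 ≠ 0 := by
      intro h0
      apply hv1'
      apply ψinj b' v1' h1'
      rw [← hkey, h0, ψ0]
    obtain ⟨hb, -⟩ := ψinj2 b b' _ _ (h1.smul (Fs_mono hn hlm)) h1' hkey hl0
    refine ⟨hb, ?_⟩
    have hf1 : y1 + τ * y1 ^ q n ≠ 0 := by
      intro h0
      have h' : y1 + y1 ^ q n * τ + 0 * τ ^ 2 = 0 := by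
        linear_combination h0
      exact y1ne (hτ3 _ m1 _ q1 0 (Fs n3).zero_mem h').1
    have : (lam - α) * (y1 + τ * y1 ^ q n) = 0 := by
      rw [hlam, mul_pow, hlq] at e1'
      linear_combination e1'
    rcases mul_eq_zero.mp this with h0 | h0
    · rw [← sub_eq_zero.mp h0]; exact hlm
    · exact absurd h0 hf1

end Pool.Agent.Work.MP_ed0a9a_lc.H.Ev
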