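import Mathlib
import Pool.Agent.Work.MP_ed0a9a_lc.H.Ev2

/-!
# Module `H/Ev3`: the generic linear map of one builder, counting of the relations
-/

namespace Pool.Agent.Work.MP_ed0a9a_lc.H.Ev

open Finset

/-- the linear map `h` of a builder of dimension `ρ` made from the functional `f` -/
structure GenH (n ρ N : ℕ) (f : (ℕ →₀ K) → K) (n2 r : ℕ) (h : (ℕ →₀ K) → (ℕ →₀ K)) : Prop where
  box : ∀ v, Box n2 r v → Box N ρ (h v)
  core : ∀ v, Box n ρ v → h v = v
  add : ∀ x y, h (x + y) = h x + h y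
  smul : ∀ c ∈ Fs n, ∀ x, h (c • x) = c • h x
  rel : ∀ (a : ℕ) (c : Fin a → K) (z : Fin a → (ℕ →₀ K)),
    ∑ i, c i • h (z i) = 0 ↔ ∀ l : Fin ρ, ∑ i, c i * f (z i) ^ (q n ^ (l : ℕ)) = 0

theorem exists_GenH (n n2 r N ρ : ℕ) (hn : n ≤ n2) (hρ : ρ ≤ r) (f : (ℕ →₀ K) → K)
    (hadd : ∀ x y, f (x + y) = f x + f y) (hsmul : ∀ c ∈ Fs n, ∀ x, f (c • x) = c * f x)
    (hmem : ∀ v, Box n2 r v → f v ∈ Fs N) (hinj : ∀ v, Box n2 r v → f v = 0 → v = 0) :
    ∃ h, GenH n ρ N f n2 r h := by
  classical
  have hf0 : f 0 = 0 := by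
    have := hsmul 0 (Fs n).zero_mem 0
    simpa using this
  have hsum : ∀ {ι : Type} (s : Finset ι) (g : ι → (ℕ →₀ K)), f (∑ i ∈ s, g i) = ∑ i ∈ s, f (g i) := by
    intro ι s g
    induction s using Finset.induction_on with
    | empty => simpa using hf0
    | insert a s ha ih => rw [Finset.sum_insert ha, Finset.sum_insert ha, hadd, ih]
  have hbx : ∀ i : Fin ρ, Box n2 r (Finsupp.single (i : ℕ) (1 : K)) := fun i =>
    Box.single (lt_of_lt_of_le i.isLt hρ)
  set x : Fin ρ → Fs N := fun i => ⟨f (Finsupp.single (i : ℕ) 1), hmem _ (hbx i)⟩ with hx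
  have hxind : ∀ c : Fin ρ → K, (∀ i, c i ∈ Fs n) → ∑ i, c i * (x i : K) = 0 → ∀ i, c i = 0 := by
    intro c hc h i
    have h1 : f (∑ i : Fin ρ, c i • Finsupp.single (i : ℕ) (1 : K)) = 0 := by
      rw [hsum, ← h]
      exact Finset.sum_congr rfl fun i _ => hsmul _ (hc i) _
    have h2 := hinj _ (Box.sum _ _ fun i _ => (hbx i).smul (Fs_mono hn (hc i))) h1
    have h3 := DFunLike.congr_fun h2 (i : ℕ)
    rw [Finsupp.finsetSum_apply] at h3
    rw [Finset.sum_eq_single i] at h3
    · simpa using h3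
    · intro j _ hj
      rw [Finsupp.smul_apply, Finsupp.single_apply, if_neg (fun he => hj (Fin.ext he)), smul_zero]
    · intro hh; exact absurd (Finset.mem_univ _) hh
  set H : Matrix (Fin ρ) (Fin ρ) (Fs N) := fun l i => x i ^ (q n ^ (l : ℕ)) with hH
  have hunit : IsUnit H := by
    rw [← Matrix.linearIndependent_rows_iff_isUnit, Fintype.linearIndependent_iff]
    intro g hg l
    have := moore (fun i => (x i : K)) hxind le_rfl (fun l => (g l : K)) (fun i => by
      have h1 := congrFun hg i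
      have h2 := congrArg Subtype.val h1
      simpa [Finset.sum_apply, hH, Matrix.row] using h2) l
    exact Subtype.ext this
  have hdet : IsUnit H.det := (Matrix.isUnit_iff_isUnit_det H).mp hunit
  set M := H⁻¹ with hM
  have hMH : M * H = 1 := Matrix.nonsing_inv_mul H hdet
  have hHM : H * M = 1 := Matrix.mul_nonsing_inv H hdet
  have hMH' : ∀ l i, ∑ k, (M l k : K) * (H k i : K) = if l = i then 1 else 0 := by
    intro l i
    have := congrArg (fun A : Matrix (Fin ρ) (Fin ρ) (Fs N) => ((A l i : Fs N) : K)) hMH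
    simp only [Matrix.mul_apply, Matrix.one_apply] at this
    push_cast at this
    rw [this]
    split_ifs <;> rfl
  have hHM' : ∀ l i, ∑ k, (H l k : K) * (M k i : K) = if l = i then 1 else 0 := by
    intro l i
    have := congrArg (fun A : Matrix (Fin ρ) (Fin ρ) (Fs N) => ((A l i : Fs N) : K)) hHM
    simp only [Matrix.mul_apply, Matrix.one_apply] at this
    push_cast at this
    rw [this]
    split_ifs <;> rfl
  set h : (ℕ →₀ K) → (ℕ →₀ K) := fun v =>
    ∑ l : Fin ρ, Finsupp.single (l : ℕ) (∑ k : Fin ρ, (M l k : K) * f v ^ (q n ^ (k : ℕ))) with hh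
  have happ : ∀ v (l : Fin ρ), h v (l : ℕ) = ∑ k : Fin ρ, (M l k : K) * f v ^ (q n ^ (k : ℕ)) := by
    intro v l
    rw [hh]
    show (∑ l : Fin ρ, Finsupp.single (l : ℕ) _) (l : ℕ) = _
    rw [Finsupp.finsetSum_apply, Finset.sum_eq_single l]
    · rw [Finsupp.single_apply, if_pos rfl]
    · intro j _ hj
      rw [Finsupp.single_apply, if_neg (fun he => hj (Fin.ext he))]
    · intro hh; exact absurd (Finset.mem_univ _) hh
  have happ0 : ∀ v i, ρ ≤ i → h v i = 0 := by
    intro v i hi
    rw [hh]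
    show (∑ l : Fin ρ, Finsupp.single (l : ℕ) _) i = 0
    rw [Finsupp.finsetSum_apply]
    refine Finset.sum_eq_zero fun l _ => ?_
    rw [Finsupp.single_apply, if_neg]
    have := l.isLt
    omega
  have hext : ∀ v w : ℕ →₀ K, (∀ l : Fin ρ, v (l : ℕ) = w l) → (∀ i, ρ ≤ i → v i = w i) → v = w := by
    intro v w h1 h2
    ext i
    by_cases hi : i < ρ
    · exact h1 ⟨i, hi⟩
    · exact h2 i (not_lt.mp hi)
  have hHadd : ∀ x y, h (x + y) = h x + h y := by
    intro x y
    refine hext _ _ (fun l => ?_) (fun i hi => ?_)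
    · rw [Finsupp.add_apply, happ, happ, happ, ← Finset.sum_add_distrib]
      refine Finset.sum_congr rfl fun k _ => ?_
      rw [hadd, frobl_add]; ring
    · rw [Finsupp.add_apply, happ0 _ _ hi, happ0 _ _ hi, happ0 _ _ hi, add_zero]
  have hHsmul : ∀ c ∈ Fs n, ∀ x, h (c • x) = c • h x := by
    intro c hc x
    refine hext _ _ (fun l => ?_) (fun i hi => ?_)
    · rw [Finsupp.smul_apply, happ, happ, smul_eq_mul, Finset.mul_sum]
      refine Finset.sum_congr rfl fun k _ => ?_
      rw [hsmul c hc, mul_pow, pow_ql_of_mem hc]; ring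
    · rw [Finsupp.smul_apply, happ0 _ _ hi, happ0 _ _ hi, smul_zero]
  have hsingle : ∀ i : Fin ρ, h (Finsupp.single (i : ℕ) 1) = Finsupp.single (i : ℕ) 1 := by
    intro i
    refine hext _ _ (fun l => ?_) (fun j hj => ?_)
    · rw [happ]
      have h1 := hMH' l i
      have h2 : ∀ k : Fin ρ, (H k i : K) = f (Finsupp.single (i : ℕ) 1) ^ (q n ^ (k : ℕ)) := by
        intro k
        simp [hH, hx]
      simp only [h2] at h1
      rw [h1, Finsupp.single_apply]
      by_cases hli : l = i
      · subst hli; simp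
      · rw [if_neg hli, if_neg (fun he => hli (Fin.ext he).symm)]
    · rw [happ0 _ _ hj, Finsupp.single_apply, if_neg]
      have := i.isLt
      omega
  have h0 : h 0 = 0 := by
    have := hHsmul 0 (Fs n).zero_mem 0
    simpa using this
  have hHsum : ∀ {ι : Type} (s : Finset ι) (g : ι → (ℕ →₀ K)),
      h (∑ i ∈ s, g i) = ∑ i ∈ s, h (g i) := by
    intro ι s g
    induction s using Finset.induction_on with
    | empty => simpa using h0
    | insert a s ha ih => rw [Finset.sum_insert ha, Finset.sum_insert ha, hHadd, ih]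
  refine ⟨h, ?_, ?_, hHadd, hHsmul, ?_⟩
  · intro v hv
    refine ⟨fun i => ?_, fun i hi => happ0 v i hi⟩
    by_cases hi : i < ρ
    · rw [happ v ⟨i, hi⟩]
      exact (Fs N).sum_mem fun k _ => (Fs N).mul_mem (M _ k).2 ((Fs N).pow_mem (hmem v hv) _)
    · rw [happ0 v i (not_lt.mp hi)]
      exact (Fs N).zero_mem
  · intro v hv
    have hv' : v = ∑ i : Fin ρ, v i • Finsupp.single (i : ℕ) (1 : K) := by
      refine hext _ _ (fun l => ?_) (fun i hi => ?_)
      · rw [Finsupp.finsetSum_apply, Finset.sum_eq_single l]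
        · simp
        · intro j _ hj
          rw [Finsupp.smul_apply, Finsupp.single_apply, if_neg (fun he => hj (Fin.ext he)),
            smul_zero]
        · intro hh; exact absurd (Finset.mem_univ _) hh
      · rw [hv.2 i hi, Finsupp.finsetSum_apply]
        refine (Finset.sum_eq_zero fun l _ => ?_).symm
        rw [Finsupp.smul_apply, Finsupp.single_apply, if_neg, smul_zero]
        have := l.isLt
        omega
    conv_lhs => rw [hv']
    conv_rhs => rw [hv']
    rw [hHsum]
    refine Finset.sum_congr rfl fun i _ => ?_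
    rw [hHsmul _ (hv.1 _), hsingle]
  · intro a c z
    have key : ∀ l : Fin ρ, (∑ i, c i • h (z i)) (l : ℕ) =
        ∑ k, (M l k : K) * ∑ i, c i * f (z i) ^ (q n ^ (k : ℕ)) := by
      intro l
      rw [Finsupp.finsetSum_apply]
      simp only [Finsupp.smul_apply, smul_eq_mul, happ, Finset.mul_sum]
      rw [Finset.sum_comm]
      refine Finset.sum_congr rfl fun k _ => Finset.sum_congr rfl fun i _ => ?_
      ring
    constructor
    · intro h1 l
      have h2 : ∀ k' : Fin ρ, ∑ k, (M k' k : K) * ∑ i, c i * f (z i) ^ (q n ^ (k : ℕ)) = 0 := by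
        intro k'
        rw [← key, h1, Finsupp.zero_apply]
      have h3 : ∑ k', (H l k' : K) * ∑ k, (M k' k : K) * ∑ i, c i * f (z i) ^ (q n ^ (k : ℕ)) =
          ∑ i, c i * f (z i) ^ (q n ^ (l : ℕ)) := by
        simp only [Finset.mul_sum (s := (Finset.univ : Finset (Fin ρ)))]
        rw [Finset.sum_comm]
        simp only [← mul_assoc, ← Finset.sum_mul, hHM', ite_mul, one_mul, zero_mul,
          Finset.sum_ite_eq, Finset.mem_univ, if_true]
      rw [← h3]
      refine Finset.sum_eq_zero fun k' _ => ?_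
      rw [h2, mul_zero]
    · intro h1
      refine hext _ _ (fun l => ?_) (fun i hi => ?_)
      · rw [key, Finsupp.zero_apply]
        refine Finset.sum_eq_zero fun k _ => ?_
        rw [h1, mul_zero]
      · rw [Finsupp.finsetSum_apply, Finsupp.zero_apply]
        refine Finset.sum_eq_zero fun j _ => ?_
        rw [Finsupp.smul_apply, happ0 _ _ hi, smul_zero]

end Pool.Agent.Work.MP_ed0a9a_lc.H.Ev
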