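import Mathlib
import Pool.Agent.Work.MP_ed0a9a_lc.H.Ev3

/-!
# Module `H/Ev4`: counting of the relations, separation of the types
-/

namespace Pool.Agent.Work.MP_ed0a9a_lc.H.Ev

open Finset

private theorem card_rel_le (n N a ρ : ℕ) (x : Fin a → K) (hxN : ∀ i, x i ∈ Fs N)
    (hx : ∀ c : Fin a → K, (∀ i, c i ∈ Fs n) → ∑ i, c i * x i = 0 → ∀ i, c i = 0)
    (hρ : ρ ≤ a) :
    Nat.card {c : Fin a → Fs N // ∀ l : Fin ρ, ∑ i, (c i : K) * x i ^ (q n ^ (l : ℕ)) = 0} =
      q N ^ (a - ρ) := by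
  classical
  set A : Matrix (Fin ρ) (Fin a) (Fs N) := fun l i => (⟨x i, hxN i⟩ : Fs N) ^ (q n ^ (l : ℕ)) with hA
  have hrow : LinearIndependent (Fs N) A.row := by
    rw [Fintype.linearIndependent_iff]
    intro g hg l
    have := moore x hx hρ (fun l => (g l : K)) (fun i => by
      have h1 := congrFun hg i
      have h2 := congrArg Subtype.val h1
      simpa [Finset.sum_apply, hA, Matrix.row] using h2) l
    exact Subtype.ext this
  have hrank : A.rank = ρ := by
    have := hrow.rank_matrix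
    rwa [Fintype.card_fin] at this
  have hker : Module.finrank (Fs N) (LinearMap.ker A.mulVecLin) = a - ρ := by
    have h1 := LinearMap.finrank_range_add_finrank_ker A.mulVecLin
    have h2 : Module.finrank (Fs N) (LinearMap.range A.mulVecLin) = ρ := hrank
    rw [h2, Module.finrank_pi, Fintype.card_fin] at h1
    omega
  have hcard : Nat.card (LinearMap.ker A.mulVecLin) = q N ^ (a - ρ) := by
    rw [Nat.card_eq_fintype_card, Module.card_eq_pow_finrank (K := Fs N), hker, card_Fs]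
  rw [← hcard]
  refine Nat.card_congr (Equiv.subtypeEquivRight fun c => ?_)
  rw [LinearMap.mem_ker]
  constructor
  · intro h
    funext l
    apply Subtype.ext
    have := h l
    simp only [Matrix.mulVecLin_apply, Matrix.mulVec, dotProduct, hA, Pi.zero_apply]
    push_cast
    rw [← this]
    exact Finset.sum_congr rfl fun i _ => mul_comm _ _
  · intro h l
    have h1 := congrArg Subtype.val (congrFun h l)
    simp only [Matrix.mulVecLin_apply, Matrix.mulVec, dotProduct, hA, Pi.zero_apply] at h1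
    push_cast at h1
    rw [← h1]
    exact Finset.sum_congr rfl fun i _ => mul_comm _ _

theorem card_rel (n N a ρ : ℕ) (x : Fin a → K) (hxN : ∀ i, x i ∈ Fs N)
    (hx : ∀ c : Fin a → K, (∀ i, c i ∈ Fs n) → ∑ i, c i * x i = 0 → ∀ i, c i = 0) :
    Nat.card {c : Fin a → Fs N // ∀ l : Fin ρ, ∑ i, (c i : K) * x i ^ (q n ^ (l : ℕ)) = 0} =
      q N ^ (a - ρ) := by
  rcases le_total ρ a with h | h
  · exact card_rel_le n N a ρ x hxN hx h
  · have h1 := card_rel_le n N a a x hxN hx le_rfl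
    rw [Nat.sub_self, pow_zero, Nat.card_eq_one_iff_unique] at h1
    rw [Nat.sub_eq_zero_of_le h, pow_zero, Nat.card_eq_one_iff_unique]
    obtain ⟨hs, -⟩ := h1
    refine ⟨⟨fun c c' => ?_⟩, ⟨⟨0, fun l => by simp⟩⟩⟩
    have := hs.elim ⟨c.1, fun l => c.2 ⟨l.1, l.2.trans_le h⟩⟩ ⟨c'.1, fun l => c'.2 ⟨l.1, l.2.trans_le h⟩⟩
    exact Subtype.ext (Subtype.mk.inj this)

private theorem span_aux (N a ρ : ℕ) (y : Fin ρ → Fin a → K) (hy : ∀ l i, y l i ∈ Fs N)
    (w : Fin a → K) (hw : ∀ i, w i ∈ Fs N)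
    (h : ∀ c : Fin a → K, (∀ i, c i ∈ Fs N) → (∀ l, ∑ i, c i * y l i = 0) → ∑ i, c i * w i = 0) :
    ∃ α : Fin ρ → K, ∀ i, w i = ∑ l, α l * y l i := by
  classical
  set L : Fin ρ → ((Fin a → Fs N) →ₗ[Fs N] Fs N) := fun l =>
    ∑ i, (⟨y l i, hy l i⟩ : Fs N) • LinearMap.proj i with hL
  set W : (Fin a → Fs N) →ₗ[Fs N] Fs N := ∑ i, (⟨w i, hw i⟩ : Fs N) • LinearMap.proj i with hW
  have hLa : ∀ l c, ((L l c : Fs N) : K) = ∑ i, (c i : K) * y l i := by
    intro l c
    simp only [hL, LinearMap.sum_apply, LinearMap.smul_apply, LinearMap.proj_apply, smul_eq_mul]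
    push_cast
    exact Finset.sum_congr rfl fun i _ => mul_comm _ _
  have hWa : ∀ c, ((W c : Fs N) : K) = ∑ i, (c i : K) * w i := by
    intro c
    simp only [hW, LinearMap.sum_apply, LinearMap.smul_apply, LinearMap.proj_apply, smul_eq_mul]
    push_cast
    exact Finset.sum_congr rfl fun i _ => mul_comm _ _
  have hm : W ∈ Submodule.span (Fs N) (Set.range L) := by
    apply mem_span_of_iInf_ker_le_ker
    intro c hc
    rw [Submodule.mem_iInf] at hc
    rw [LinearMap.mem_ker]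
    apply Subtype.ext
    rw [hWa]
    refine h (fun i => (c i : K)) (fun i => (c i).2) fun l => ?_
    rw [← hLa, LinearMap.mem_ker.mp (hc l)]
    rfl
  rw [Submodule.mem_span_range_iff_exists_fun] at hm
  obtain ⟨α, hα⟩ := hm
  refine ⟨fun l => (α l : K), fun i => ?_⟩
  have h1 := congrArg (fun F : (Fin a → Fs N) →ₗ[Fs N] Fs N =>
    ((F (Pi.single i 1) : Fs N) : K)) hα
  simp only [LinearMap.sum_apply, LinearMap.smul_apply, smul_eq_mul] at h1
  rw [hWa] at h1
  push_cast at h1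
  simp only [hLa] at h1
  have e : ∀ u : Fin a → K, ∑ j, (((Pi.single i 1 : Fin a → Fs N) j : Fs N) : K) * u j = u i := by
    intro u
    rw [Finset.sum_eq_single i]
    · simp
    · intro j _ hj
      simp [Pi.single_eq_of_ne hj]
    · intro hh; exact absurd (Finset.mem_univ _) hh
  simp only [e] at h1
  exact h1.symm

/-- two families with the same `F_N`-relations of their Frobenius powers are proportional -/
private theorem prop_aux (n N a ρ ρ' : ℕ) (x x' : Fin a → K) (hxN : ∀ i, x i ∈ Fs N)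
    (hxN' : ∀ i, x' i ∈ Fs N)
    (hx : ∀ c : Fin a → K, (∀ i, c i ∈ Fs n) → ∑ i, c i * x i = 0 → ∀ i, c i = 0)
    (hx' : ∀ c : Fin a → K, (∀ i, c i ∈ Fs n) → ∑ i, c i * x' i = 0 → ∀ i, c i = 0)
    (hρ : 1 ≤ ρ) (hρ' : 1 ≤ ρ') (ha : ρ < a) (ha' : ρ' < a)
    (hs : ∀ c : Fin a → K, (∀ i, c i ∈ Fs N) →
      ((∀ l : Fin ρ, ∑ i, c i * x i ^ (q n ^ (l : ℕ)) = 0) ↔
        (∀ l : Fin ρ', ∑ i, c i * x' i ^ (q n ^ (l : ℕ)) = 0))) :
    ∃ α, ∀ i, x' i = α * x i := by
  classical
  have hρρ : ρ = ρ' := by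
    have h1 := card_rel n N a ρ x hxN hx
    have h2 := card_rel n N a ρ' x' hxN' hx'
    have h3 : Nat.card {c : Fin a → Fs N // ∀ l : Fin ρ, ∑ i, (c i : K) * x i ^ (q n ^ (l : ℕ)) = 0} =
      Nat.card {c : Fin a → Fs N // ∀ l : Fin ρ', ∑ i, (c i : K) * x' i ^ (q n ^ (l : ℕ)) = 0} :=
      Nat.card_congr (Equiv.subtypeEquivRight fun c => hs (fun i => (c i : K)) fun i => (c i).2)
    rw [h1, h2] at h3
    have := Nat.pow_right_injective (one_lt_q N) h3
    omega
  subst hρρ
  have hsp : ∀ j < ρ, ∃ α : ℕ → K, (∀ l, ρ ≤ l → α l = 0) ∧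
      ∀ i, x' i ^ (q n ^ j) = ∑ l ∈ range ρ, α l * x i ^ (q n ^ l) := by
    intro j hj
    obtain ⟨α, hα⟩ := span_aux N a ρ (fun l i => x i ^ (q n ^ (l : ℕ)))
      (fun l i => (Fs N).pow_mem (hxN i) _) (fun i => x' i ^ (q n ^ j))
      (fun i => (Fs N).pow_mem (hxN' i) _) (fun c hc h => (hs c hc).1 h ⟨j, hj⟩)
    refine ⟨fun l => if h : l < ρ then α ⟨l, h⟩ else 0, fun l hl => by simp [not_lt.mpr hl], ?_⟩
    intro i
    rw [hα i, Finset.sum_range]
    exact Finset.sum_congr rfl fun l _ => by simp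
  obtain ⟨α, hα0, hα⟩ := hsp 0 (by omega)
  simp only [pow_zero, pow_one] at hα
  have hx'0 : x' ⟨0, by omega⟩ ≠ 0 := by
    intro h0
    have := hx' (Pi.single ⟨0, by omega⟩ 1) (fun i => by
      by_cases hi : i = ⟨0, by omega⟩
      · subst hi; simp only [Pi.single_eq_same]; exact (Fs n).one_mem
      · rw [Pi.single_eq_of_ne hi]; exact (Fs n).zero_mem) (by
      rw [Finset.sum_eq_single ⟨0, by omega⟩]
      · rw [h0, mul_zero]
      · intro j _ hj; rw [Pi.single_eq_of_ne hj, zero_mul]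
      · intro hh; exact absurd (Finset.mem_univ _) hh) ⟨0, by omega⟩
    rw [Pi.single_eq_same] at this
    exact one_ne_zero this
  -- the largest index with a nonzero coefficient
  have hex : ∃ l, α l ≠ 0 := by
    by_contra hno
    push Not at hno
    apply hx'0
    rw [hα]
    exact Finset.sum_eq_zero fun l _ => by rw [hno, zero_mul]
  obtain ⟨L, hL, hLmax⟩ : ∃ L, α L ≠ 0 ∧ ∀ l, L < l → α l = 0 := by
    have hb : ∀ l, α l ≠ 0 → l ≤ ρ := fun l hl => by
      by_contra hh
      exact hl (hα0 l (by omega))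
    refine ⟨Nat.findGreatest (fun l => α l ≠ 0) ρ, ?_, ?_⟩
    · obtain ⟨l, hl⟩ := hex
      exact Nat.findGreatest_spec (P := fun l => α l ≠ 0) (hb l hl) hl
    · intro l hl
      by_contra h0
      exact absurd (Nat.le_findGreatest (hb l h0) h0) (not_le.mpr hl)
  have hLρ : L < ρ := by
    by_contra hh
    exact hL (hα0 L (by omega))
  have hα' : ∀ i, x' i = ∑ l ∈ range (L + 1), α l * x i ^ (q n ^ l) := by
    intro i
    rw [hα i]
    refine (Finset.sum_subset (fun l hl => by simp only [mem_range] at *; omega) ?_).symm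
    intro l _ hl
    rw [hLmax l (by simp only [mem_range] at hl; omega), zero_mul]
  rcases Nat.eq_zero_or_pos L with hL0 | hLpos
  · subst hL0
    refine ⟨α 0, fun i => ?_⟩
    rw [hα' i]
    simp
  · exfalso
    obtain ⟨β, hβ0, hβ⟩ := hsp (ρ - L) (by omega)
    set j := ρ - L with hj
    have hrel : ∀ i, ∑ t : Fin (ρ + 1), ((β (t : ℕ)) -
        (if j ≤ (t : ℕ) then α ((t : ℕ) - j) ^ (q n ^ j) else 0)) * x i ^ (q n ^ (t : ℕ)) = 0 := by
      intro i
      have e1 : ∑ t ∈ range (ρ + 1), β t * x i ^ (q n ^ t) = x' i ^ (q n ^ j) := by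
        rw [Finset.sum_range_succ, hβ0 ρ le_rfl, zero_mul, add_zero, hβ i]
      have e2 : ∑ t ∈ range (ρ + 1), (if j ≤ t then α (t - j) ^ (q n ^ j) else 0) *
          x i ^ (q n ^ t) = x' i ^ (q n ^ j) := by
        have hρj : ρ + 1 = j + (L + 1) := by omega
        rw [hρj, Finset.sum_range_add]
        rw [Finset.sum_eq_zero, zero_add]
        · rw [hα' i, frobl_sum]
          refine Finset.sum_congr rfl fun l _ => ?_
          rw [if_pos (by omega), Nat.add_sub_cancel_left, mul_pow, ← pow_mul, ← pow_add, add_comm j l]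
        · intro t ht
          rw [if_neg (by simp only [mem_range] at ht; omega), zero_mul]
      rw [← Finset.sum_range (fun t => ((β t) -
        (if j ≤ t then α (t - j) ^ (q n ^ j) else 0)) * x i ^ (q n ^ t))]
      simp only [sub_mul, Finset.sum_sub_distrib]
      rw [e1, e2, sub_self]
    have := moore x hx (by omega : ρ + 1 ≤ a) _ hrel ⟨ρ, by omega⟩
    simp only at this
    rw [hβ0 ρ le_rfl, if_pos (by omega), zero_sub, neg_eq_zero] at this
    have h2 : ρ - j = L := by omega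
    rw [h2] at this
    exact hL (pow_eq_zero_iff (pow_pos (q_pos n) j).ne' |>.mp this)

theorem sep_core {n n2 r N s : ℕ} {f : Fin s → (ℕ →₀ K) → K} (hn : n ≤ n2)
    (F : GenF n n2 r N s f) (b b' : Fin s) (ρ ρ' a : ℕ) (z z' : Fin a → (ℕ →₀ K))
    (hz : ∀ i, Box n2 r (z i)) (hz' : ∀ i, Box n2 r (z' i))
    (hi : ∀ c : Fin a → K, (∀ i, c i ∈ Fs n) → ∑ i, c i • z i = 0 → ∀ i, c i = 0)
    (hi' : ∀ c : Fin a → K, (∀ i, c i ∈ Fs n) → ∑ i, c i • z' i = 0 → ∀ i, c i = 0)
    (hρ : 1 ≤ ρ) (hρ' : 1 ≤ ρ') (ha : ρ < a) (ha' : ρ' < a)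
    (hs : ∀ c : Fin a → K, (∀ i, c i ∈ Fs N) →
      ((∀ l : Fin ρ, ∑ i, c i * f b (z i) ^ (q n ^ (l : ℕ)) = 0) ↔
        (∀ l : Fin ρ', ∑ i, c i * f b' (z' i) ^ (q n ^ (l : ℕ)) = 0))) :
    b = b' ∧ ∃ α ∈ Fs n, α ≠ 0 ∧ ∀ i, z' i = α • z i := by
  classical
  have f0 : ∀ b, f b 0 = 0 := by
    intro b
    have := F.smul b 0 (Fs n).zero_mem 0
    simpa using this
  have fsum : ∀ (b : Fin s) (g : Fin a → (ℕ →₀ K)) (t : Finset (Fin a)),
      f b (∑ i ∈ t, g i) = ∑ i ∈ t, f b (g i) := by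
    intro b g t
    induction t using Finset.induction_on with
    | empty => simpa using f0 b
    | insert a s ha ih => rw [Finset.sum_insert ha, Finset.sum_insert ha, F.add, ih]
  have find : ∀ (b : Fin s) (z : Fin a → (ℕ →₀ K)), (∀ i, Box n2 r (z i)) →
      (∀ c : Fin a → K, (∀ i, c i ∈ Fs n) → ∑ i, c i • z i = 0 → ∀ i, c i = 0) →
      ∀ c : Fin a → K, (∀ i, c i ∈ Fs n) → ∑ i, c i * f b (z i) = 0 → ∀ i, c i = 0 := by
    intro b z hz hi c hc h
    refine hi c hc (F.inj b _ (Box.sum _ _ fun i _ => (hz i).smul (Fs_mono hn (hc i))) ?_)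
    rw [fsum, ← h]
    exact Finset.sum_congr rfl fun i _ => F.smul b _ (hc i) _
  obtain ⟨α, hα⟩ := prop_aux n N a ρ ρ' (fun i => f b (z i)) (fun i => f b' (z' i))
    (fun i => F.mem b _ (hz i)) (fun i => F.mem b' _ (hz' i)) (find b z hz hi)
    (find b' z' hz' hi') hρ hρ' ha ha' hs
  have h2a : 2 ≤ a := by omega
  set i0 : Fin a := ⟨0, by omega⟩ with hi0
  set i1 : Fin a := ⟨1, by omega⟩ with hi1
  have hne01 : i0 ≠ i1 := by
    intro h; have := congrArg Fin.val h; simp [hi0, hi1] at this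
  have hz'0 : ∀ i, z' i ≠ 0 := by
    intro i h0
    have := hi' (Pi.single i 1) (fun j => by
      by_cases hj : j = i
      · subst hj; rw [Pi.single_eq_same]; exact (Fs n).one_mem
      · rw [Pi.single_eq_of_ne hj]; exact (Fs n).zero_mem) (by
      rw [Finset.sum_eq_single i]
      · rw [h0, smul_zero]
      · intro j _ hj; rw [Pi.single_eq_of_ne hj, zero_smul]
      · intro hh; exact absurd (Finset.mem_univ _) hh) i
    rw [Pi.single_eq_same] at this
    exact one_ne_zero this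
  obtain ⟨hb, hαn⟩ := F.prop b b' (z i0) (z i1) (z' i0) (z' i1) α (hz _) (hz _) (hz' _) (hz' _)
    (fun c1 h1 c2 h2 h => by
      have key := hi (fun i => if i = i0 then c1 else if i = i1 then c2 else 0) (fun i => by
        split_ifs
        · exact h1
        · exact h2
        · exact (Fs n).zero_mem) (by
        rw [← h]
        have e : ∀ i, (if i = i0 then c1 else if i = i1 then c2 else 0) • z i =
            (if i = i0 then c1 • z i0 else 0) + (if i = i1 then c2 • z i1 else 0) := by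
          intro i
          by_cases e0 : i = i0
          · subst e0
            simp [hne01]
          · by_cases e1 : i = i1
            · subst e1; simp [hne01.symm]
            · simp [e0, e1]
        simp only [e, Finset.sum_add_distrib, Finset.sum_ite_eq', Finset.mem_univ, if_true])
      have k0 := key i0
      have k1 := key i1
      simp only [if_true, hne01.symm, if_false] at k0 k1
      exact ⟨k0, k1⟩) (hz'0 _) (hα i0) (hα i1)
  subst hb
  refine ⟨rfl, α, hαn, ?_, ?_⟩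
  · intro h0
    apply hz'0 i0
    apply F.inj b _ (hz' _)
    rw [hα i0, h0, zero_mul]
  · intro i
    have h1 : f b (z' i + α • z i) = 0 := by
      rw [F.add, F.smul b α hαn, hα i, K_add_self]
    have h2 := F.inj b _ ((hz' i).add ((hz i).smul (Fs_mono hn hαn))) h1
    have h3 : z' i = -(α • z i) := eq_neg_of_add_eq_zero_left h2
    rw [h3]
    ext t
    rw [Finsupp.neg_apply, K_neg]

end Pool.Agent.Work.MP_ed0a9a_lc.H.Ev
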