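import Mathlib
import Pool.Agent.Work.MP_ed0a9a_lc.H.Defs
import Pool.Agent.Work.MP_ed0a9a_lc.H.Ev4

/-!
# Module `H/Gen`: the Event Lemma, `exists_goodEv`
-/

namespace Pool.Agent.Work.MP_ed0a9a_lc.H

open Finset

namespace Ev

theorem lin_ofFn {W : Type*} [AddCommGroup W] [Module K W] {a : ℕ} (c : Fin a → K)
    (z : Fin a → W) : lin (List.ofFn c) (List.ofFn z) = ∑ i, c i • z i := by
  induction a with
  | zero => simp [lin]
  | succ a ih =>
    rw [List.ofFn_succ, List.ofFn_succ, Fin.sum_univ_succ, ← ih]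
    simp [lin]

theorem isF_ofFn {n a : ℕ} {c : Fin a → K} (h : ∀ i, c i ∈ Fs n) : IsF n (List.ofFn c) := by
  intro x hx
  obtain ⟨i, rfl⟩ := (List.mem_ofFn' _ _).mp hx
  exact h i

theorem ind_ofFn {W : Type*} [AddCommGroup W] [Module K W] {n a : ℕ} {z : Fin a → W}
    (h : Ind n (List.ofFn z)) (c : Fin a → K) (hc : ∀ i, c i ∈ Fs n)
    (h0 : ∑ i, c i • z i = 0) : ∀ i, c i = 0 := by
  intro i
  refine h (List.ofFn c) (by simp) (isF_ofFn hc) (by rw [lin_ofFn, h0]) (c i) ?_
  exact (List.mem_ofFn' _ _).mpr ⟨i, rfl⟩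

theorem same_ofFn {W W' : Type*} [AddCommGroup W] [Module K W] [AddCommGroup W'] [Module K W']
    {n a : ℕ} {z : Fin a → W} {z' : Fin a → W'}
    (h : Same n (List.ofFn z) (List.ofFn z')) (c : Fin a → K) (hc : ∀ i, c i ∈ Fs n) :
    ∑ i, c i • z i = 0 ↔ ∑ i, c i • z' i = 0 := by
  have := h.2 (List.ofFn c) (by simp) (isF_ofFn hc)
  rwa [lin_ofFn, lin_ofFn] at this

theorem nrel_ofFn {W : Type*} [AddCommGroup W] [Module K W] {n a : ℕ} (z : Fin a → W) :
    nrel n (List.ofFn z) = Nat.card {c : Fin a → Fs n // ∑ i, (c i : K) • z i = 0} := by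
  have hinj : Function.Injective (fun c : Fin a → Fs n => List.ofFn (fun i => (c i : K))) := by
    intro c c' h
    have h1 := List.ofFn_injective h
    funext i
    exact Subtype.ext (congrFun h1 i)
  have himg : {c : List K | c.length = (List.ofFn z).length ∧ IsF n c ∧ lin c (List.ofFn z) = 0} =
      (fun c : Fin a → Fs n => List.ofFn (fun i => (c i : K))) ''
        {c | ∑ i, (c i : K) • z i = 0} := by
    ext c
    constructor
    · rintro ⟨h1, h2, h3⟩
      rw [List.length_ofFn] at h1
      subst h1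
      refine ⟨fun i => ⟨c.get i, h2 _ (List.get_mem c i)⟩, ?_, ?_⟩
      · show ∑ i, c.get i • z i = 0
        rw [← lin_ofFn, List.ofFn_get, h3]
      · exact List.ofFn_get c
    · rintro ⟨c', h1, rfl⟩
      refine ⟨by simp, isF_ofFn fun i => (c' i).2, ?_⟩
      rw [lin_ofFn]
      exact h1
  unfold nrel
  rw [himg, Set.ncard_image_of_injective _ hinj]
  rfl

theorem exists_ofFn {W : Type*} {a : ℕ} (l : List W) (h : l.length = a) :
    ∃ g : Fin a → W, l = List.ofFn g := by
  subst h
  exact ⟨l.get, (List.ofFn_get l).symm⟩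

/-- the raw vector of a vector with support `< ρ` -/
noncomputable def toRaw (ρ : ℕ) (w : ℕ →₀ K) : Vec := (List.range ρ).map fun i => ofK (w i)

theorem sem_toRaw {N ρ : ℕ} {w : ℕ →₀ K} (h : Box N ρ w) : sem (toRaw ρ w) = w := by
  ext i
  rw [sem_apply]
  unfold toRaw
  by_cases hi : i < ρ
  · rw [List.getD_eq_getElem?_getD, List.getElem?_map, List.getElem?_range hi]
    rfl
  · rw [List.getD_eq_default, toK_zero, h.2 i (not_lt.mp hi)]
    simpa using hi

theorem box_sem {n r : ℕ} {v : Vec} (h1 : ∀ x ∈ v, x ≤ n) (h2 : v.length ≤ r) :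
    Box n r (sem v) := by
  refine ⟨fun i => ?_, fun i hi => ?_⟩
  · rw [sem_apply]
    by_cases hi : i < v.length
    · rw [List.getD_eq_getElem _ _ hi]
      have := h1 _ (List.getElem_mem hi)
      rw [mem_Fs]
      show v[i] < q n
      exact lt_of_le_of_lt this (Nat.lt_two_pow_self.trans Nat.lt_two_pow_self)
    · rw [List.getD_eq_default _ _ (not_lt.mp hi), toK_zero]
      exact (Fs n).zero_mem
  · rw [sem_apply, List.getD_eq_default _ _ (h2.trans hi), toK_zero]

/-- linearity on lists -/
theorem lin_map {n : ℕ} {h : (ℕ →₀ K) → (ℕ →₀ K)} (hadd : ∀ x y, h (x + y) = h x + h y)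
    (hsmul : ∀ c ∈ Fs n, ∀ x, h (c • x) = c • h x) (c : List K) (hc : IsF n c)
    (z : List (ℕ →₀ K)) : lin c (z.map h) = h (lin c z) := by
  have h0 : h 0 = 0 := by
    have := hsmul 0 (Fs n).zero_mem 0
    simpa using this
  induction c generalizing z with
  | nil => simp [lin, h0]
  | cons a c ih =>
    cases z with
    | nil => simp [lin, h0]
    | cons v z =>
      have ih' := ih (fun x hx => hc x (List.mem_cons_of_mem a hx)) z
      have e1 : lin (a :: c) (List.map h (v :: z)) = a • h v + lin c (z.map h) := by simp [lin]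
      have e2 : lin (a :: c) (v :: z) = a • v + lin c z := by simp [lin]
      rw [e1, e2, ih', hadd, hsmul a (hc a List.mem_cons_self)]

end Ev

open Ev

theorem exists_goodEv (n m : ℕ) (rs : List ℕ) (Ps : List (List Vec))
    (hlen : rs.length = Ps.length) (hrs : ∀ r ∈ rs, 1 ≤ r ∧ r ≤ m + 1) :
    ∃ N G, GoodEv n m rs Ps N G := by
  classical
  set s := Ps.length with hs
  set n2 := n + (Ps.flatten).flatten.sum with hn2
  set r := m + 1 + ((Ps.flatten).map List.length).sum with hr
  have hn : n ≤ n2 := Nat.le_add_right _ _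
  have hPbox : ∀ β, ∀ v ∈ Ps.getD β [], Box n2 r (sem v) := by
    intro β v hv
    have hβ : β < Ps.length := by
      by_contra hh
      rw [List.getD_eq_default _ _ (not_lt.mp hh)] at hv
      simp at hv
    rw [List.getD_eq_getElem _ _ hβ] at hv
    have hv' : v ∈ Ps.flatten := List.mem_flatten.mpr ⟨_, List.getElem_mem hβ, hv⟩
    refine box_sem (fun x hx => ?_) ?_
    · have : x ∈ (Ps.flatten).flatten := List.mem_flatten.mpr ⟨v, hv', hx⟩
      have := List.le_sum_of_mem this
      omega
    · have : v.length ∈ (Ps.flatten).map List.length := List.mem_map_of_mem hv'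
      have := List.le_sum_of_mem this
      omega
  obtain ⟨N, hnN, -, f, F⟩ := exists_GenF n n2 r s 0 hn
  have hρ : ∀ b : Fin s, 1 ≤ rs.getD b 0 ∧ rs.getD b 0 ≤ m + 1 := by
    intro b
    have hb : (b : ℕ) < rs.length := by rw [hlen]; exact b.isLt
    rw [List.getD_eq_getElem _ _ hb]
    exact hrs _ (List.getElem_mem hb)
  have hH : ∀ b : Fin s, ∃ h, GenH n (rs.getD b 0) N (f b) n2 r h := fun b =>
    exists_GenH n n2 r N (rs.getD b 0) hn ((hρ b).2.trans (by omega)) (f b) (F.add b) (F.smul b)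
      (F.mem b) (F.inj b)
  choose h hh using hH
  set G : List (List Vec) := List.ofFn fun b : Fin s =>
    (Ps.getD b []).map fun v => toRaw (rs.getD b 0) (h b (sem v)) with hG
  have hGget : ∀ b : Fin s, G.getD b [] =
      (Ps.getD b []).map fun v => toRaw (rs.getD b 0) (h b (sem v)) := by
    intro b
    rw [List.getD_eq_getElem _ _ (by rw [hG, List.length_ofFn]; exact b.isLt)]
    simp [hG]
  have hGdef : ∀ β, s ≤ β → G.getD β [] = [] := by
    intro β hβ
    rw [List.getD_eq_default _ _ (by rw [hG, List.length_ofFn]; exact hβ)]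
  have hPdef : ∀ β, s ≤ β → Ps.getD β [] = [] := fun β hβ => List.getD_eq_default _ _ hβ
  have hinj : ∀ (b : Fin s) v, Box n2 r v → h b v = 0 → v = 0 := by
    intro b v hv h0
    have h1 := ((hh b).rel 1 (fun _ => 1) (fun _ => v)).mp (by simp [h0]) ⟨0, (hρ b).1⟩
    simp only [pow_zero, pow_one, Finset.univ_unique, Finset.sum_const, Finset.card_singleton,
      one_smul, one_mul] at h1
    exact F.inj b v hv h1
  have hGsem : ∀ b : Fin s, (G.getD b []).map sem = ((Ps.getD b []).map sem).map (h b) := by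
    intro b
    rw [hGget, List.map_map, List.map_map]
    refine List.map_congr_left fun v hv => ?_
    exact sem_toRaw ((hh b).box _ (hPbox b v hv))
  have hnm : ∀ (b : Fin s) (I : List ℕ), (∀ x ∈ I, x < (Ps.getD b []).length) →
      (nm (G.getD b []) I).map sem = ((nm (Ps.getD b []) I).map sem).map (h b) := by
    intro b I hI
    unfold nm
    rw [List.map_map, List.map_map, List.map_map]
    refine List.map_congr_left fun j hj => ?_
    have hj' := hI j hj
    show sem ((G.getD b []).getD j []) = h b (sem ((Ps.getD b []).getD j []))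
    rw [hGget, List.getD_eq_getElem _ _ (by rw [List.length_map]; exact hj'), List.getElem_map,
      List.getD_eq_getElem _ _ hj']
    exact sem_toRaw ((hh b).box _ (hPbox b _ (List.getElem_mem hj')))
  have hnmbox : ∀ (b : Fin s) (I : List ℕ), (∀ x ∈ I, x < (Ps.getD b []).length) →
      ∀ v ∈ (nm (Ps.getD b []) I).map sem, Box n2 r v := by
    intro b I hI v hv
    rw [List.mem_map] at hv
    obtain ⟨u, hu, rfl⟩ := hv
    unfold nm at hu
    rw [List.mem_map] at hu
    obtain ⟨j, hj, rfl⟩ := hu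
    rw [List.getD_eq_getElem _ _ (hI j hj)]
    exact hPbox b _ (List.getElem_mem _)
  refine ⟨N, G, ⟨hnN, by rw [hG, List.length_ofFn], ?_, ?_, ?_, ?_, ?_, ?_⟩⟩
  · intro β
    rcases lt_or_ge β s with hβ | hβ
    · have := hGget ⟨β, hβ⟩
      simp only at this
      rw [this, List.length_map]
    · rw [hGdef β hβ, hPdef β hβ]
  · intro β
    rcases lt_or_ge β s with hβ | hβ
    · have e := hGsem ⟨β, hβ⟩
      simp only at e
      rw [e]
      refine ⟨by simp, fun c hcl hc => ?_⟩
      rw [lin_map (hh ⟨β, hβ⟩).add (hh ⟨β, hβ⟩).smul c hc]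
      constructor
      · intro h0
        rw [h0]
        have := (hh ⟨β, hβ⟩).smul 0 (Fs n).zero_mem 0
        simpa using this
      · intro h0
        refine hinj ⟨β, hβ⟩ _ ?_ h0
        obtain ⟨g, hg⟩ := exists_ofFn ((Ps.getD β []).map sem) rfl
        obtain ⟨g', hg'⟩ := exists_ofFn c hcl
        rw [hg, hg', lin_ofFn]
        refine Box.sum _ _ fun i _ => Box.smul ?_ ?_
        · exact Fs_mono hn (hc _ (by rw [hg']; exact (List.mem_ofFn' _ _).mpr ⟨i, rfl⟩))
        · have : g i ∈ (Ps.getD β []).map sem := by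
            rw [hg]; exact (List.mem_ofFn' _ _).mpr ⟨i, rfl⟩
          rw [List.mem_map] at this
          obtain ⟨v, hv, hvi⟩ := this
          rw [← hvi]
          exact hPbox β v hv
    · rw [hGdef β hβ, hPdef β hβ]
      exact ⟨rfl, fun c _ _ => Iff.rfl⟩
  · intro β v hv
    rcases lt_or_ge β s with hβ | hβ
    · have e := hGget ⟨β, hβ⟩
      simp only at e
      rw [e, List.mem_map] at hv
      obtain ⟨u, hu, rfl⟩ := hv
      refine ⟨by simp [toRaw], fun x hx => ?_⟩
      unfold toRaw at hx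
      rw [List.mem_map] at hx
      obtain ⟨i, -, rfl⟩ := hx
      exact ((hh ⟨β, hβ⟩).box _ (hPbox β u hu)).1 i
    · rw [hGdef β hβ] at hv
      simp at hv
  · intro β j hj hc
    have hβ : β < s := by
      by_contra hβ
      rw [hPdef β (not_lt.mp hβ)] at hj
      simp at hj
    have e := hGget ⟨β, hβ⟩
    simp only at e
    rw [e, List.getD_eq_getElem _ _ (by rw [List.length_map]; exact hj), List.getElem_map]
    rw [List.getD_eq_getElem _ _ hj] at hc ⊢
    rw [sem_toRaw ((hh ⟨β, hβ⟩).box _ (hPbox β _ (List.getElem_mem hj)))]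
    exact (hh ⟨β, hβ⟩).core _ ⟨fun i => (hc i).1, fun i hi => (hc i).2 hi⟩
  · intro β I hI hind
    rcases lt_or_ge β s with hβ | hβ
    · have e := hnm ⟨β, hβ⟩ I hI
      have hb := hnmbox ⟨β, hβ⟩ I hI
      simp only at e hb
      rw [e]
      obtain ⟨g, hg⟩ := exists_ofFn (a := I.length) ((nm (Ps.getD β []) I).map sem)
        (by simp [nm])
      rw [hg] at hind hb ⊢
      rw [List.map_ofFn, nrel_ofFn]
      have hgb : ∀ i, Box n2 r (g i) := fun i => hb _ ((List.mem_ofFn' _ _).mpr ⟨i, rfl⟩)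
      have hx : ∀ c : Fin I.length → K, (∀ i, c i ∈ Fs n) →
          ∑ i, c i * f ⟨β, hβ⟩ (g i) = 0 → ∀ i, c i = 0 := by
        intro c hc h0
        refine ind_ofFn hind c hc ?_
        refine F.inj ⟨β, hβ⟩ _ (Box.sum _ _ fun i _ => (hgb i).smul (Fs_mono hn (hc i))) ?_
        have fsum : ∀ (t : Finset (Fin I.length)),
            f ⟨β, hβ⟩ (∑ i ∈ t, c i • g i) = ∑ i ∈ t, f ⟨β, hβ⟩ (c i • g i) := by
          intro t
          induction t using Finset.induction_on with
          | empty =>
            have := F.smul ⟨β, hβ⟩ 0 (Fs n).zero_mem 0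
            simpa using this
          | insert a s ha ih => rw [Finset.sum_insert ha, Finset.sum_insert ha, F.add, ih]
        rw [fsum, ← h0]
        exact Finset.sum_congr rfl fun i _ => F.smul _ _ (hc i) _
      rw [← card_rel n N I.length (rs.getD β 0) (fun i => f ⟨β, hβ⟩ (g i))
        (fun i => F.mem _ _ (hgb i)) hx]
      exact Nat.card_congr (Equiv.subtypeEquivRight fun c =>
        (hh ⟨β, hβ⟩).rel I.length (fun i => (c i : K)) g)
    · have hI0 : I = [] := by
        rw [hPdef β hβ] at hI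
        cases I with
        | nil => rfl
        | cons x t => exact absurd (hI x List.mem_cons_self) (by simp)
      subst hI0
      have e : nrel N (List.map sem (nm (G.getD β []) [])) = nrel N (List.ofFn (n := 0)
          (fun i => (i.elim0 : ℕ →₀ K))) := rfl
      rw [e, nrel_ofFn]
      simp
  · intro β β' I I' hI hI' hlenI hind hind' hsame
    have hβ : β < s := by
      by_contra hβ
      rw [hPdef β (not_lt.mp hβ)] at hI
      cases I with
      | nil => simp at hlenI
      | cons x t => exact absurd (hI x List.mem_cons_self) (by simp)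
    have hll : I'.length = I.length := by
      have := hsame.1
      simp only [nm, List.length_map] at this
      exact this.symm
    have hβ' : β' < s := by
      by_contra hβ'
      rw [hPdef β' (not_lt.mp hβ')] at hI'
      cases I' with
      | nil => rw [List.length_nil] at hll; omega
      | cons x t => exact absurd (hI' x List.mem_cons_self) (by simp)
    have e := hnm ⟨β, hβ⟩ I hI
    have e' := hnm ⟨β', hβ'⟩ I' hI'
    have hb := hnmbox ⟨β, hβ⟩ I hI
    have hb' := hnmbox ⟨β', hβ'⟩ I' hI'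
    simp only at e e' hb hb'
    rw [e, e'] at hsame
    obtain ⟨g, hg⟩ := exists_ofFn (a := I.length) ((nm (Ps.getD β []) I).map sem) (by simp [nm])
    obtain ⟨g', hg'⟩ := exists_ofFn (a := I.length) ((nm (Ps.getD β' []) I').map sem)
      (by simp [nm, hll])
    rw [hg] at hind hb hsame ⊢
    rw [hg'] at hind' hb' hsame ⊢
    rw [List.map_ofFn, List.map_ofFn] at hsame
    have hgb : ∀ i, Box n2 r (g i) := fun i => hb _ ((List.mem_ofFn' _ _).mpr ⟨i, rfl⟩)
    have hgb' : ∀ i, Box n2 r (g' i) := fun i => hb' _ ((List.mem_ofFn' _ _).mpr ⟨i, rfl⟩)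
    obtain ⟨hbb, α, hα, hα0, hαz⟩ := sep_core hn F ⟨β, hβ⟩ ⟨β', hβ'⟩ (rs.getD β 0)
      (rs.getD β' 0) I.length g g' hgb hgb' (ind_ofFn hind) (ind_ofFn hind')
      (hρ ⟨β, hβ⟩).1 (hρ ⟨β', hβ'⟩).1 (by have := (hρ ⟨β, hβ⟩).2; simp only at this; omega)
      (by have := (hρ ⟨β', hβ'⟩).2; simp only at this; omega)
      (fun c hc => by
        rw [← (hh ⟨β, hβ⟩).rel I.length c g, ← (hh ⟨β', hβ'⟩).rel I.length c g']
        exact same_ofFn hsame c hc)
    refine ⟨congrArg Fin.val hbb, α, hα, hα0, ?_⟩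
    rw [List.map_ofFn]
    congr 1
    funext i
    exact hαz i

end Pool.Agent.Work.MP_ed0a9a_lc.H
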