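import Pool.Agent.Work.MP_ed0a9a_lc.H.Raw

/-!
# Module `RawChk`: the meaning of the test `chk`, the search `ev`
-/

namespace Pool.Agent.Work.MP_ed0a9a_lc.H

theorem chk1_iff (n ρ N : ℕ) (P G : List Vec) : chk1 n ρ N P G = true ↔
    G.length = P.length ∧ Same n (P.map sem) (G.map sem) ∧
    (∀ v ∈ G, v.length ≤ ρ ∧ ∀ x ∈ v, x < q N) ∧
    (∀ j < P.length, (∀ i, sem (P.getD j []) i ∈ Fs n ∧ (ρ ≤ i → sem (P.getD j []) i = 0)) →
      sem (G.getD j []) = sem (P.getD j [])) ∧
    (∀ I : List ℕ, (∀ x ∈ I, x < P.length) → Ind n ((nm P I).map sem) →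
      nrel N ((nm G I).map sem) = q N ^ (I.length - ρ)) := by
  unfold chk1
  rw [Bool.and_eq_true, Bool.and_eq_true, Bool.and_eq_true, Bool.and_eq_true,
    decide_eq_true_eq, sameV_iff, List.all_eq_true, List.all_eq_true, List.all_eq_true]
  refine and_congr Iff.rfl (and_congr Iff.rfl (and_congr ?_ (and_congr ?_ ?_)))
  · refine forall_congr' fun v => forall_congr' fun _ => ?_
    rw [Bool.and_eq_true, decide_eq_true_eq, List.all_eq_true]
    refine and_congr Iff.rfl ?_
    refine forall_congr' fun x => forall_congr' fun _ => ?_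
    rw [decide_eq_true_eq]
  · refine forall_congr' fun j => ?_
    rw [List.mem_range]
    refine forall_congr' fun _ => ?_
    rw [Bool.or_eq_true, veq_iff, ← core_iff, Bool.not_eq_true']
    cases core n ρ (P.getD j []) <;> simp
  · constructor
    · intro h I hI hInd
      have h1 := h I (mem_tups.2 ⟨hInd.length_le hI, hI⟩)
      rw [Bool.or_eq_true, decide_eq_true_eq, nrelV_eq] at h1
      refine h1.resolve_left ?_
      rw [(indV_iff n (nm P I)).2 hInd]
      simp
    · intro h I hI
      rw [mem_tups] at hI
      rw [Bool.or_eq_true, decide_eq_true_eq, nrelV_eq]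
      by_cases hInd : Ind n ((nm P I).map sem)
      · exact Or.inr (h I hI.2 hInd)
      · left
        rw [← indV_iff] at hInd
        simpa using hInd

theorem nm_getElem (P : List Vec) (I : List ℕ) (j : ℕ) (hj : j < (nm P I).length) :
    (nm P I)[j] = P.getD (I.getD j 0) [] := by
  have h1 : j < I.length := by rwa [nm_length] at hj
  unfold nm
  rw [List.getElem_map, List.getD_eq_getElem I _ h1]

theorem smul_names_iff (P P' : List Vec) (I I' : List ℕ) (hl : I.length = I'.length) (a : ℕ) :
    ((List.range I.length).all fun j =>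
      veq (vsm a (P.getD (I.getD j 0) [])) (P'.getD (I'.getD j 0) [])) = true ↔
    (nm P' I').map sem = ((nm P I).map sem).map fun v => toK a • v := by
  rw [List.all_eq_true]
  constructor
  · intro h
    apply List.ext_getElem
    · simp [nm_length, hl]
    · intro j h1 h2
      rw [List.getElem_map, List.getElem_map, List.getElem_map, nm_getElem, nm_getElem]
      have h3 : j < I.length := by simpa [nm_length] using h2
      have h4 := h j (List.mem_range.2 h3)
      rw [veq_iff, sem_vsm] at h4
      exact h4.symm
  · intro h j hj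
    rw [List.mem_range] at hj
    have h1 : j < ((nm P' I').map sem).length := by
      rw [List.length_map, nm_length, ← hl]; exact hj
    have h2 : j < (((nm P I).map sem).map fun v => toK a • v).length := by
      rw [← h]; exact h1
    have h3 : ((nm P' I').map sem)[j] = (((nm P I).map sem).map fun v => toK a • v)[j] := by
      simp only [h]
    rw [List.getElem_map, List.getElem_map, List.getElem_map, nm_getElem, nm_getElem] at h3
    rw [veq_iff, sem_vsm, h3]

theorem chk2_iff (n m N β β' : ℕ) (P G P' G' : List Vec) :
    chk2 n m N β β' P G P' G' = true ↔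
    ∀ I I' : List ℕ, (∀ x ∈ I, x < P.length) → (∀ x ∈ I', x < P'.length) →
      m + 2 ≤ I.length → Ind n ((nm P I).map sem) → Ind n ((nm P' I').map sem) →
      Same N ((nm G I).map sem) ((nm G' I').map sem) →
      β = β' ∧ ∃ a : K, a ∈ Fs n ∧ a ≠ 0 ∧
        (nm P' I').map sem = ((nm P I).map sem).map fun v => a • v := by
  unfold chk2
  rw [List.all_eq_true]
  constructor
  · intro h I I' hI hI' hm hInd hInd' hS
    have hl : I.length = I'.length := by
      have := hS.1
      simpa [nm_length] using this
    have h1 := h I (mem_tups.2 ⟨hInd.length_le hI, hI⟩)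
    rw [List.all_eq_true] at h1
    have h2 := h1 I' (mem_cl.2 ⟨hl.symm, hI'⟩)
    rw [(indV_iff n (nm P I)).2 hInd, (indV_iff n (nm P' I')).2 hInd',
      (sameV_iff N _ _).2 hS, decide_eq_true hm, Bool.and_self, Bool.and_self, Bool.and_self,
      Bool.not_true, Bool.false_or, Bool.and_eq_true, decide_eq_true_eq, List.any_eq_true] at h2
    obtain ⟨hb, a, ha, h3⟩ := h2
    rw [smul_names_iff P P' I I' hl] at h3
    refine ⟨hb, toK a, List.mem_range.1 ha, ?_, h3⟩
    intro h0
    rw [h0] at h3
    -- the tuple for `P'` would be zero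
    have h4 : (nm P' I').map sem ≠ [] := by
      intro h5
      have h6 := congrArg List.length h5
      rw [List.length_map, nm_length, List.length_nil] at h6
      omega
    obtain ⟨v, t, hvt⟩ := List.exists_cons_of_ne_nil h4
    have hv : v = 0 := by
      have h5 : v ∈ (nm P' I').map sem := by rw [hvt]; simp
      rw [h3] at h5
      simp only [List.mem_map] at h5
      obtain ⟨w, -, hw⟩ := h5
      rw [← hw, zero_smul]
    rw [hvt, hv] at hInd'
    have h6 := hInd' ((1 : K) :: List.replicate t.length 0) (by simp) (by
      intro x hx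
      rw [List.mem_cons, List.mem_replicate] at hx
      rcases hx with rfl | ⟨-, rfl⟩
      · exact (Fs n).one_mem
      · exact (Fs n).zero_mem) (by
      rw [lin_cons, smul_zero, zero_add]
      exact lin_zeros _ _) 1 (by simp)
    exact one_ne_zero h6
  · intro h I hI
    rw [mem_tups] at hI
    rw [List.all_eq_true]
    intro I' hI'
    rw [mem_cl] at hI'
    rw [Bool.or_eq_true]
    by_cases hc : (decide (m + 2 ≤ I.length) && (indV n (nm P I) && (indV n (nm P' I') &&
      sameV N (nm G I) (nm G' I')))) = true
    · right
      rw [Bool.and_eq_true, Bool.and_eq_true, Bool.and_eq_true, decide_eq_true_eq,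
        indV_iff, indV_iff, sameV_iff] at hc
      obtain ⟨hb, a, ha, ha0, h1⟩ := h I I' hI.2 hI'.2 hc.1 hc.2.1 hc.2.2.1 hc.2.2.2
      rw [Bool.and_eq_true, decide_eq_true_eq, List.any_eq_true]
      refine ⟨hb, ofK a, List.mem_range.2 ha, ?_⟩
      rw [smul_names_iff P P' I I' hI'.1.symm]
      exact h1
    · left
      rw [Bool.not_eq_true] at hc
      rw [hc]
      rfl

/-- The test `chk` means `GoodEv`. -/
theorem chk_iff (n m : ℕ) (rs : List ℕ) (Ps : List (List Vec)) (N : ℕ) (G : List (List Vec)) :
    chk n m rs Ps N G = true ↔ GoodEv n m rs Ps N G := by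
  unfold chk
  rw [Bool.and_eq_true, Bool.and_eq_true, Bool.and_eq_true, decide_eq_true_eq,
    decide_eq_true_eq, List.all_eq_true, List.all_eq_true]
  have hout : G.length = Ps.length → ∀ β, β ∉ List.range Ps.length →
      Ps.getD β [] = [] ∧ G.getD β [] = [] := by
    intro hG β hβ
    rw [List.mem_range, not_lt] at hβ
    exact ⟨List.getD_eq_default _ _ hβ, List.getD_eq_default _ _ (by rw [hG]; exact hβ)⟩
  constructor
  · rintro ⟨hlt, hG, h1, h2⟩
    have h1' : ∀ β ∈ List.range Ps.length, _ := fun β hβ =>
      (chk1_iff n (rs.getD β 0) N (Ps.getD β []) (G.getD β [])).1 (h1 β hβ)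
    refine ⟨hlt, hG, ?_, ?_, ?_, ?_, ?_, ?_⟩
    · intro β
      by_cases hβ : β ∈ List.range Ps.length
      · exact (h1' β hβ).1
      · rw [(hout hG β hβ).1, (hout hG β hβ).2]
    · intro β
      by_cases hβ : β ∈ List.range Ps.length
      · exact (h1' β hβ).2.1
      · rw [(hout hG β hβ).1, (hout hG β hβ).2]
        exact ⟨rfl, fun c _ _ => Iff.rfl⟩
    · intro β
      by_cases hβ : β ∈ List.range Ps.length
      · exact (h1' β hβ).2.2.1
      · rw [(hout hG β hβ).2]
        intro v hv
        simp at hv
    · intro β
      by_cases hβ : β ∈ List.range Ps.length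
      · exact (h1' β hβ).2.2.2.1
      · rw [(hout hG β hβ).1, (hout hG β hβ).2]
        intro j hj
        simp at hj
    · intro β
      by_cases hβ : β ∈ List.range Ps.length
      · exact (h1' β hβ).2.2.2.2
      · rw [(hout hG β hβ).1, (hout hG β hβ).2]
        intro I hI _
        have hI0 : I = [] := by
          rw [List.eq_nil_iff_forall_not_mem]
          intro x hx
          have := hI x hx
          simp at this
        subst hI0
        rw [nm_nil, List.map_nil, nrel_nil]
        simp
    · intro β β' I I' hI hI' hm hInd hInd' hS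
      have hm1 : 0 < I.length := by omega
      have hm2 : 0 < I'.length := by
        have := hS.1
        simp only [List.length_map, nm_length] at this
        omega
      by_cases hβ : β ∈ List.range Ps.length
      · by_cases hβ' : β' ∈ List.range Ps.length
        · have h3 := h2 β hβ
          rw [List.all_eq_true] at h3
          have h4 := h3 β' hβ'
          rw [chk2_iff] at h4
          exact h4 I I' hI hI' hm hInd hInd' hS
        · exfalso
          rw [(hout hG β' hβ').1] at hI'
          have := hI' (I'[0]) (List.getElem_mem _)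
          simp at this
      · exfalso
        rw [(hout hG β hβ).1] at hI
        have := hI (I[0]) (List.getElem_mem _)
        simp at this
  · intro h
    refine ⟨h.lt, h.len, ?_, ?_⟩
    · intro β _
      rw [chk1_iff]
      exact ⟨h.len' β, h.same β, h.sup β, h.core β, h.rank β⟩
    · intro β _
      rw [List.all_eq_true]
      intro β' _
      rw [chk2_iff]
      exact h.sep β β'

/-- The search finds a good event when there is one. -/
theorem ev_spec {n m : ℕ} {rs : List ℕ} {Ps : List (List Vec)}
    (h : ∃ (N : ℕ) (G : List (List Vec)), GoodEv n m rs Ps N G) :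
    GoodEv n m rs Ps (ev n m rs Ps).1 (ev n m rs Ps).2 := by
  obtain ⟨N, G, hG⟩ := h
  rw [← chk_iff]
  have hne : {k | chk n m rs Ps (Denumerable.ofNat (ℕ × List (List Vec)) k).1
    (Denumerable.ofNat (ℕ × List (List Vec)) k).2 = true}.Nonempty := by
    refine ⟨Encodable.encode (N, G), ?_⟩
    change chk n m rs Ps (Denumerable.ofNat (ℕ × List (List Vec)) (Encodable.encode (N, G))).1
      (Denumerable.ofNat (ℕ × List (List Vec)) (Encodable.encode (N, G))).2 = true
    rw [Denumerable.ofNat_encode]
    exact (chk_iff n m rs Ps N G).2 hG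
  exact Nat.sInf_mem hne

end Pool.Agent.Work.MP_ed0a9a_lc.H
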