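import Mathlib
import Pool.Agent.Work.MP_ed0a9a_lc.H.Defs
import Pool.Agent.Work.MP_ed0a9a_lc.H.Gen
import Pool.Agent.Work.MP_ed0a9a_lc.H.RawChk

/-!
# Module `Ma`: one transition

PROOFS.  `lev_le`, `att_lev`, `att_lt`: `lev` is `((List.range n).find? p).getD n`:
`List.find?_range_eq_some`/`List.find?_eq_some_iff_append`, `List.mem_range`, `List.find?_some`,
`List.find?_eq_none`; split on the value of `find?`; for `att_lt` use `List.find?_range_eq_some` or
an induction on `n`.
`good_evn`: `ev_spec` (file `RawChk`) with `exists_goodEv` (file `Gen`): lengths by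
`List.length_map`; the entries of `dms` are values of `P.rho`, `hP.rho1`, `hP.rho2`.
`dms_getD`, `oldp_getD`: `List.getD_eq_getElem`, `List.getElem_map`, `List.getElem_range`; beyond the length
`oldp` has the default `[]` and `bldA S β = (false, 0, [])`, so `surv` is false (`surv_lt`).
`surv_*`: unfold `surv` (`Bool.and_eq_true`, `List.all_eq_true`).
`evn_len`: `GoodEv.len'`.  `evn_dead`: `len'` and `oldp_getD`.
-/

namespace Pool.Agent.Work.MP_ed0a9a_lc.H

private theorem lev_cases (P : Par) (t : ℕ) (S : St) :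
    (lev P t S = top S ∧ ∀ i < top S, att P t S i = false) ∨
      (lev P t S < top S ∧ att P t S (lev P t S) = true ∧
        ∀ i < lev P t S, att P t S i = false) := by
  unfold lev
  cases h : (List.range (top S)).find? fun i => att P t S i with
  | none =>
    left
    refine ⟨rfl, fun i hi => ?_⟩
    have h1 := List.find?_eq_none.1 h i (List.mem_range.2 hi)
    simpa using h1
  | some a =>
    right
    rw [List.find?_range_eq_some] at h
    obtain ⟨h1, h2, h3⟩ := h
    refine ⟨List.mem_range.1 h2, h1, fun i hi => ?_⟩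
    have h4 := h3 i hi
    simpa using h4

theorem lev_le (P : Par) (t : ℕ) (S : St) : lev P t S ≤ top S := by
  rcases lev_cases P t S with ⟨h, -⟩ | ⟨h, -⟩
  · exact h.le
  · exact h.le

theorem att_lev (P : Par) (t : ℕ) (S : St) (h : lev P t S < top S) :
    att P t S (lev P t S) = true := by
  rcases lev_cases P t S with ⟨h1, -⟩ | ⟨-, h1, -⟩
  · exact absurd h1 h.ne
  · exact h1

theorem att_lt (P : Par) (t : ℕ) (S : St) {i : ℕ} (h : i < lev P t S) :
    att P t S i = false := by
  rcases lev_cases P t S with ⟨h1, h2⟩ | ⟨-, -, h2⟩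
  · exact h2 i (h1 ▸ h)
  · exact h2 i h

theorem surv_lt {P : Par} {t : ℕ} {S : St} {β : ℕ} (h : surv P t S β = true) : β < nbld S := by
  by_contra hcon
  rw [not_lt] at hcon
  have h1 : bldA S β = (false, 0, []) := List.getD_eq_default _ _ hcon
  unfold surv at h
  rw [h1] at h
  simp at h

theorem surv_alive {P : Par} {t : ℕ} {S : St} {β : ℕ} (h : surv P t S β = true) :
    (bldA S β).1 = true := by
  unfold surv at h
  rw [Bool.and_eq_true] at h
  exact h.1

theorem surv_hurt {P : Par} {t : ℕ} {S : St} {β : ℕ} (h : surv P t S β = true) {p : ℕ × ℕ}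
    (hp : p ∈ actN P t S) : p.1 ∈ P.ex β ∨ hurt P β p.1 (lev P t S) t = false := by
  unfold surv at h
  rw [Bool.and_eq_true, List.all_eq_true] at h
  have h1 := h.2 p hp
  rw [Bool.or_eq_true, decide_eq_true_eq] at h1
  refine h1.imp id fun h2 => ?_
  simpa using h2

theorem surv_of {P : Par} {t : ℕ} {S : St} {β : ℕ} (h : (bldA S β).1 = true)
    (h' : ∀ p ∈ actN P t S, p.1 ∈ P.ex β ∨ hurt P β p.1 (lev P t S) t = false) :
    surv P t S β = true := by
  unfold surv
  rw [Bool.and_eq_true, List.all_eq_true]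
  refine ⟨h, fun p hp => ?_⟩
  rw [Bool.or_eq_true, decide_eq_true_eq]
  refine (h' p hp).imp id fun h2 => ?_
  rw [h2]
  rfl

theorem dms_getD (P : Par) (t : ℕ) (S : St) {β : ℕ} (h : β < nbld S) :
    (dms P t S).getD β 0 = P.rho β (lev P t S) t := by
  unfold dms
  rw [List.getD_eq_getElem _ _ (by simpa using h), List.getElem_map, List.getElem_range]

theorem oldp_getD (P : Par) (t : ℕ) (S : St) (β : ℕ) :
    (oldp P t S).getD β [] = if surv P t S β = true then (bldA S β).2.2 else [] := by
  by_cases h : β < nbld S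
  · unfold oldp
    rw [List.getD_eq_getElem _ _ (by simpa using h), List.getElem_map, List.getElem_range]
  · have h1 : ¬ surv P t S β = true := fun h2 => h (surv_lt h2)
    rw [if_neg h1]
    apply List.getD_eq_default
    unfold oldp
    simpa using h

theorem good_evn {P : Par} (hP : P.Ok) (t : ℕ) (S : St) :
    GoodEv (kapA S (lev P t S)) (lev P t S) (dms P t S) (oldp P t S) (evn P t S).1
      (evn P t S).2 := by
  apply ev_spec
  apply exists_goodEv
  · unfold dms oldp
    rw [List.length_map, List.length_map]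
  · intro r hr
    unfold dms at hr
    rw [List.mem_map] at hr
    obtain ⟨β, -, rfl⟩ := hr
    exact ⟨hP.rho1 _ _ _, hP.rho2 _ _ _⟩

theorem evn_len {P : Par} (hP : P.Ok) (t : ℕ) (S : St) {β : ℕ} (h : surv P t S β = true) :
    ((evn P t S).2.getD β []).length = (bldA S β).2.2.length := by
  rw [(good_evn hP t S).len' β, oldp_getD, if_pos h]

theorem kapA_lt_evn {P : Par} (hP : P.Ok) (t : ℕ) (S : St) :
    kapA S (lev P t S) < (evn P t S).1 := by
  exact (good_evn hP t S).lt

/-- Members of `nly`. -/
theorem mem_nly {P : Par} {t : ℕ} {S : St} {i l y : ℕ} (h : (l, y) ∈ nly P t S i) :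
    l ≤ i ∧ memA S i l = none ∧ y ∈ ysl S l i t ∧ rdy P t S l i y = true := by
  unfold nly at h
  rw [List.mem_filterMap] at h
  obtain ⟨a, ha, h1⟩ := h
  rw [List.mem_range] at ha
  by_cases h2 : memA S i a = none
  · rw [if_pos h2, Option.map_eq_some_iff] at h1
    obtain ⟨z, h3, h4⟩ := h1
    rw [Prod.mk.injEq] at h4
    obtain ⟨rfl, rfl⟩ := h4
    exact ⟨by omega, h2, List.mem_of_find?_eq_some h3, List.find?_some h3⟩
  · rw [if_neg h2] at h1
    exact absurd h1 (by simp)

/-- If nobody wants to act then nobody is ready. -/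
theorem nly_nil {P : Par} {t : ℕ} {S : St} {i l : ℕ} (h : nly P t S i = []) (hl : l ≤ i)
    (hm : memA S i l = none) {y : ℕ} (hy : y ∈ ysl S l i t) : rdy P t S l i y = false := by
  unfold nly at h
  rw [List.filterMap_eq_nil_iff] at h
  have h1 := h l (List.mem_range.2 (by omega))
  rw [if_pos hm, Option.map_eq_none_iff, List.find?_eq_none] at h1
  have h2 := h1 y hy
  simpa using h2

theorem cfg_false {P : Par} {t : ℕ} {S : St} {i l : ℕ} (h : cfg P t S i = false) (hl : l ≤ i) :
    P.tg l i t = P.tg l i (stgA S i) ∧ P.rho l i t = P.rho l i (stgA S i) := by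
  unfold cfg at h
  rw [List.any_eq_false] at h
  have h1 := h l (List.mem_range.2 (by omega))
  simpa using h1

end Pool.Agent.Work.MP_ed0a9a_lc.H
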