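import Mathlib
import Pool.Agent.Work.MP_ed0a9a_lc.H.Ma

/-!
# Module `Mb`: shape of the states of the run

PROOFS.  `st P (t + 1) = step P t (st P t)`, `lv P t = lev P t (st P t) ≤ top (st P t)` (`lev_le`).
`st_wf`, `nbld_st`: induction on `t`: `(l.take k).length = min k l.length` with `k ≤ l.length`.
`top_succ`: the new list of field indices has length `lv + 1 + 1`.
`kapA_succ` etc.: `List.getD_append`, `List.getD_append_right`, `List.getD`/`List.getElem?_take`.
`bldA_succ`, `bldA_new`, `bldA_ge`: the list of builders is `(List.range (nbld S)).map .. ++ [..]`,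
`nbld_st`.
`kapA_zero`: induction.  `kapA_lt`: induction on `t`: for `j ≤ lv` old; `j = lv + 1`:
`kapA_lt_evn` and the old inequality `kapA i ≤ kapA lv`.
`stgA_lt`, `le_stgA`: induction on `t`, cases `i < lv`, `i = lv` (`lv ≤ top ≤ t`), and
`i < top (st (t+1)) = lv + 1`.
`actA_out`: the list has length `top`, so `getD` gives `[]`.
-/

namespace Pool.Agent.Work.MP_ed0a9a_lc.H

variable (P : Par) (t : ℕ)

private theorem st_len (t : ℕ) : (st P t).1.length = top (st P t) + 1 ∧
    (st P t).2.1.length = top (st P t) ∧ (st P t).2.2.1.length = top (st P t) ∧
    nbld (st P t) = t := by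
  induction t with
  | zero => exact ⟨rfl, rfl, rfl, rfl⟩
  | succ t ih =>
    obtain ⟨h1, h2, h3, h4⟩ := ih
    have hl := lev_le P t (st P t)
    have e1 : (kapN P t (st P t)).length = lev P t (st P t) + 2 := by
      unfold kapN
      rw [List.length_append, List.length_take, h1, List.length_singleton]
      omega
    have e2 : (stgN P t (st P t)).length = lev P t (st P t) + 1 := by
      unfold stgN
      rw [List.length_append, List.length_take, h2, List.length_singleton]
      omega
    have e3 : (actsN P t (st P t)).length = lev P t (st P t) + 1 := by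
      unfold actsN
      rw [List.length_append, List.length_take, h3, List.length_singleton]
      omega
    have et : top (st P (t + 1)) = lev P t (st P t) + 1 := by
      show (kapN P t (st P t)).length - 1 = _
      rw [e1]; omega
    refine ⟨?_, ?_, ?_, ?_⟩
    · rw [et]; exact e1
    · rw [et]; exact e2
    · rw [et]; exact e3
    · show (((List.range (nbld (st P t))).map fun β => bldN P t (st P t) β) ++
        [(true, 0, [])]).length = t + 1
      rw [List.length_append, List.length_map, List.length_range, h4, List.length_singleton]

private theorem getD_append_left' {α : Type} (l l' : List α) (i : ℕ) (d : α) (h : i < l.length) :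
    (l ++ l').getD i d = l.getD i d := by
  rw [List.getD_eq_getElem?_getD, List.getD_eq_getElem?_getD, List.getElem?_append_left h]

private theorem getD_take' {α : Type} (l : List α) (n i : ℕ) (d : α) (h : i < n) :
    (l.take n).getD i d = l.getD i d := by
  rw [List.getD_eq_getElem?_getD, List.getD_eq_getElem?_getD, List.getElem?_take_of_lt h]

private theorem getD_append_last {α : Type} (l : List α) (x : α) (i : ℕ) (d : α)
    (h : i = l.length) : (l ++ [x]).getD i d = x := by
  subst h
  rw [List.getD_eq_getElem?_getD, List.getElem?_append_right le_rfl]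
  simp

theorem st_wf : (st P t).1.length = top (st P t) + 1 ∧ (st P t).2.1.length = top (st P t) ∧
    (st P t).2.2.1.length = top (st P t) :=
  ⟨(st_len P t).1, (st_len P t).2.1, (st_len P t).2.2.1⟩

theorem nbld_st : nbld (st P t) = t := (st_len P t).2.2.2

theorem lv_le_top : lv P t ≤ top (st P t) := lev_le P t _

theorem top_succ : top (st P (t + 1)) = lv P t + 1 := by
  have h1 := (st_len P t).1
  have hl := lv_le_top P t
  show (kapN P t (st P t)).length - 1 = _
  unfold kapN
  unfold lv at *
  rw [List.length_append, List.length_take, h1, List.length_singleton]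
  omega

theorem top_le : top (st P t) ≤ t := by
  induction t with
  | zero => exact le_rfl
  | succ t ih =>
    rw [top_succ]
    have := lv_le_top P t
    omega

theorem lv_le : lv P t ≤ t := (lv_le_top P t).trans (top_le P t)

theorem kapA_succ {i : ℕ} (hi : i ≤ lv P t) :
    kapA (st P (t + 1)) i = kapA (st P t) i := by
  have h1 := (st_len P t).1
  have hl := lv_le_top P t
  unfold lv at hi hl
  show (kapN P t (st P t)).getD i 0 = (st P t).1.getD i 0
  unfold kapN
  rw [getD_append_left', getD_take']
  · omega
  · rw [List.length_take]; omega

theorem kapA_succ_new : kapA (st P (t + 1)) (lv P t + 1) = (evn P t (st P t)).1 := by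
  have h1 := (st_len P t).1
  have hl := lv_le_top P t
  unfold lv at *
  show (kapN P t (st P t)).getD _ 0 = _
  unfold kapN
  rw [getD_append_last]
  rw [List.length_take]; omega

theorem stgA_succ {i : ℕ} (hi : i < lv P t) : stgA (st P (t + 1)) i = stgA (st P t) i := by
  have h1 := (st_len P t).2.1
  have hl := lv_le_top P t
  unfold lv at hi hl
  show (stgN P t (st P t)).getD i 0 = (st P t).2.1.getD i 0
  unfold stgN
  rw [getD_append_left', getD_take']
  · omega
  · rw [List.length_take]; omega

theorem stgA_succ_lv : stgA (st P (t + 1)) (lv P t) =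
    if isc P t (st P t) = true then t else stgA (st P t) (lv P t) := by
  have h1 := (st_len P t).2.1
  have hl := lv_le_top P t
  unfold lv at *
  show (stgN P t (st P t)).getD _ 0 = _
  unfold stgN
  rw [getD_append_last]
  rw [List.length_take]; omega

theorem actA_succ {i : ℕ} (hi : i < lv P t) : actA (st P (t + 1)) i = actA (st P t) i := by
  have h1 := (st_len P t).2.2.1
  have hl := lv_le_top P t
  unfold lv at hi hl
  show (actsN P t (st P t)).getD i [] = (st P t).2.2.1.getD i []
  unfold actsN
  rw [getD_append_left', getD_take']
  · omega
  · rw [List.length_take]; omega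

theorem actA_succ_lv : actA (st P (t + 1)) (lv P t) = actN P t (st P t) := by
  have h1 := (st_len P t).2.2.1
  have hl := lv_le_top P t
  unfold lv at *
  show (actsN P t (st P t)).getD _ [] = _
  unfold actsN
  rw [getD_append_last]
  rw [List.length_take]; omega

theorem actA_out {i : ℕ} (hi : top (st P t) ≤ i) : actA (st P t) i = [] := by
  have h1 := (st_len P t).2.2.1
  unfold actA
  rw [List.getD_eq_default]
  omega

theorem bldA_succ {β : ℕ} (h : β < t) : bldA (st P (t + 1)) β = bldN P t (st P t) β := by
  have h1 := nbld_st P t
  show (((List.range (nbld (st P t))).map fun β => bldN P t (st P t) β) ++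
        [(true, 0, [])]).getD β (false, 0, []) = _
  rw [getD_append_left']
  · rw [List.getD_eq_getElem?_getD, List.getElem?_map, List.getElem?_range (by omega)]
    rfl
  · rw [List.length_map, List.length_range]; omega

theorem bldA_new : bldA (st P (t + 1)) t = (true, 0, []) := by
  have h1 := nbld_st P t
  show (((List.range (nbld (st P t))).map fun β => bldN P t (st P t) β) ++
        [(true, 0, [])]).getD t (false, 0, []) = _
  rw [getD_append_last]
  rw [List.length_map, List.length_range, h1]

theorem bldA_ge {β : ℕ} (h : t ≤ β) : bldA (st P t) β = (false, 0, []) := by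
  have h1 := nbld_st P t
  unfold bldA
  rw [List.getD_eq_default]
  unfold nbld at h1
  omega

theorem kapA_zero : kapA (st P t) 0 = 0 := by
  induction t with
  | zero => rfl
  | succ t ih => rw [kapA_succ P t (Nat.zero_le _), ih]

theorem kapA_lt (hP : P.Ok) {i j : ℕ} (hij : i < j) (hj : j ≤ top (st P t)) :
    kapA (st P t) i < kapA (st P t) j := by
  induction t generalizing i j with
  | zero =>
    have h0 : top (st P 0) = 0 := rfl
    omega
  | succ t ih =>
    have hl := lv_le_top P t
    rw [top_succ] at hj
    rcases Nat.lt_or_ge (lv P t) j with hj' | hj'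
    · have e : j = lv P t + 1 := by omega
      subst e
      rw [kapA_succ_new, kapA_succ P t (by omega : i ≤ lv P t)]
      have h2 : kapA (st P t) (lv P t) < (evn P t (st P t)).1 := kapA_lt_evn hP t (st P t)
      rcases Nat.lt_or_ge i (lv P t) with h3 | h3
      · exact (ih h3 hl).trans h2
      · have e : i = lv P t := by omega
        rw [e]
        exact h2
    · rw [kapA_succ P t hj', kapA_succ P t (by omega : i ≤ lv P t)]
      exact ih hij (by omega)

theorem kapA_le (hP : P.Ok) {i j : ℕ} (hij : i ≤ j) (hj : j ≤ top (st P t)) :
    kapA (st P t) i ≤ kapA (st P t) j := by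
  rcases hij.eq_or_lt with h | h
  · rw [h]
  · exact (kapA_lt P t hP h hj).le

private theorem stg_both (t : ℕ) : ∀ i, i < top (st P t) →
    stgA (st P t) i < t ∧ i ≤ stgA (st P t) i := by
  induction t with
  | zero =>
    intro i hi
    have h0 : top (st P 0) = 0 := rfl
    omega
  | succ t ih =>
    intro i hi
    rw [top_succ] at hi
    have hl := lv_le_top P t
    have hlt := lv_le P t
    rcases Nat.lt_or_ge i (lv P t) with h | h
    · rw [stgA_succ P t h]
      have := ih i (by omega)
      omega
    · have e : i = lv P t := by omega
      subst e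
      rw [stgA_succ_lv]
      by_cases hc : isc P t (st P t) = true
      · rw [if_pos hc]
        omega
      · rw [if_neg hc]
        have hne : lv P t ≠ top (st P t) := by
          intro he
          apply hc
          unfold isc
          unfold lv at he
          rw [he]
          simp
        have := ih (lv P t) (by omega)
        omega

theorem stgA_lt {i : ℕ} (hi : i < top (st P t)) : stgA (st P t) i < t := (stg_both P t i hi).1

theorem le_stgA {i : ℕ} (hi : i < top (st P t)) : i ≤ stgA (st P t) i := (stg_both P t i hi).2

/-- The entries used by transition `t` in `thr`. -/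
theorem thr_entries {i : ℕ} (hi : i ≤ lv P t) :
    (actsN P t (st P t)).getD i [] = actA (st P (t + 1)) i ∧
    (kapN P t (st P t)).getD i 0 = kapA (st P (t + 1)) i ∧
    (stgN P t (st P t)).getD i 0 = stgA (st P (t + 1)) i :=
  ⟨rfl, rfl, rfl⟩

/-- A dead builder has no positions. -/
theorem bldA_dead {β : ℕ} (h : (bldA (st P t) β).1 = false) : bldA (st P t) β = (false, 0, []) := by
  rcases Nat.lt_or_ge β t with hb | hb
  · obtain ⟨s, rfl⟩ : ∃ s, t = s + 1 := ⟨t - 1, by omega⟩
    rcases Nat.lt_or_ge β s with hs | hs
    · rw [bldA_succ P s hs] at h ⊢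
      unfold bldN at h ⊢
      split_ifs at h ⊢ <;> first | rfl | (exact absurd h (by simp))
    · have e : β = s := by omega
      subst e
      rw [bldA_new] at h
      exact absurd h (by simp)
  · exact bldA_ge P t hb

/-- A builder alive at stage `t + 1` is new or survived transition `t`. -/
theorem alive_succ {β : ℕ} (h : (bldA (st P (t + 1)) β).1 = true) :
    β = t ∨ surv P t (st P t) β = true := by
  rcases Nat.lt_trichotomy β t with hb | hb | hb
  · right
    rw [bldA_succ P t hb] at h
    unfold bldN at h
    by_contra hc
    rw [if_neg hc] at h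
    exact absurd h (by simp)
  · exact Or.inl hb
  · rw [bldA_ge P (t + 1) (by omega)] at h
    exact absurd h (by simp)

private theorem cand_len (ρ N p : ℕ) (G : List Vec) : (cand ρ N p G).length ≤ 1 := by
  unfold cand
  split_ifs <;> simp

/-- Number of positions. -/
theorem len_le_cnt (hP : P.Ok) (β : ℕ) :
    (bldA (st P t) β).2.2.length ≤ (bldA (st P t) β).2.1 := by
  induction t with
  | zero => rw [bldA_ge P 0 (Nat.zero_le _)]; simp
  | succ t ih =>
    rcases Nat.lt_trichotomy β t with hb | hb | hb
    · rw [bldA_succ P t hb]
      unfold bldN
      by_cases hs : surv P t (st P t) β = true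
      · rw [if_pos hs]
        have hl := evn_len hP t (st P t) hs
        by_cases ht : thr P t (st P t) β (bldA (st P t) β).2.1
            ((evn P t (st P t)).2.getD β []).length = true
        · rw [if_pos ht]
          have hc := cand_len (P.rho β (lev P t (st P t)) t) (evn P t (st P t)).1
            (bldA (st P t) β).2.1 ((evn P t (st P t)).2.getD β [])
          show ((evn P t (st P t)).2.getD β [] ++ cand (P.rho β (lev P t (st P t)) t)
            (evn P t (st P t)).1 (bldA (st P t) β).2.1
            ((evn P t (st P t)).2.getD β [])).length ≤ (bldA (st P t) β).2.1 + 1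
          rw [List.length_append]
          omega
        · rw [if_neg ht]
          show ((evn P t (st P t)).2.getD β []).length ≤ (bldA (st P t) β).2.1
          omega
      · rw [if_neg hs]
        simp
    · subst hb
      rw [bldA_new]
      simp
    · rw [bldA_ge P (t + 1) (by omega)]
      simp

end Pool.Agent.Work.MP_ed0a9a_lc.H
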