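import Mathlib
import Pool.Agent.Work.MP_ed0a9a_lc.H.Mb

/-!
# Module `Mc`: invariants of the lists of acting guards

PROOFS.  Induction on `t`.  Let `m = lv P t`.  For `i < m` the entries of level `i` do not
change (`actA_succ`, `stgA_succ`).  For `i > m` the list is `[]` (`actA_out`, `top_succ`).  For `i = m`:
`actA_succ_lv`, `stgA_succ_lv`; if `isc` holds the list is `[]`; otherwise it is
`actA (st P t) m ++ nly P t (st P t) m`, the stage is unchanged, and `m < top (st P t)`,
`cfg P t (st P t) m = false`; members of `nly`: `mem_nly` (`l ≤ m`, `memA = none`,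
`y ∈ ysl`, `rdy`, whose first clause says `(P.tg l m t).1 ≠ 0`) and `cfg_false`.
`act_nodup`: `nly` is a `filterMap` over `List.range (m + 1)` whose values have first component the
index, so its first components are a sublist of `List.range (m + 1)`; they are not in the old list
because `memA S m l = none` (`List.lookup_eq_none_iff`).
`mem_iff_lookup`: for a list of pairs with `Nodup` first components `lookup l = some y` iff
`(l, y) ∈` (induction on the list).
`act_mem`: for `i + 1 < m` and `i + 1 > m` clear; for `i + 1 = m`: old members: induction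
hypothesis; new members: `y ∈ ysl S l m t` and `memA S (m - 1) l = some y'` give `y = y'`.
-/

namespace Pool.Agent.Work.MP_ed0a9a_lc.H

variable (P : Par) (t : ℕ)

private theorem act_zero (i : ℕ) : actA (st P 0) i = [] := by
  simp [actA, st]

/-- members of the lists after one transition -/
private theorem mem_cases {i l y : ℕ} (h : (l, y) ∈ actA (st P (t + 1)) i) :
    (i < lv P t ∧ (l, y) ∈ actA (st P t) i) ∨
    (i = lv P t ∧ isc P t (st P t) = false ∧ cfg P t (st P t) i = false ∧
      ((l, y) ∈ actA (st P t) i ∨ (l, y) ∈ nly P t (st P t) i)) := by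
  rcases lt_trichotomy i (lv P t) with hi | hi | hi
  · left
    rw [actA_succ P t hi] at h
    exact ⟨hi, h⟩
  · right
    subst hi
    rw [actA_succ_lv, actN] at h
    have hisc : isc P t (st P t) = false := by
      by_contra hc
      rw [Bool.not_eq_false] at hc
      rw [if_pos hc] at h
      exact absurd h List.not_mem_nil
    rw [if_neg (by rw [hisc]; exact Bool.false_ne_true)] at h
    refine ⟨rfl, hisc, ?_, List.mem_append.1 h⟩
    have h2 := hisc
    rw [isc, Bool.or_eq_false_iff] at h2
    exact h2.2
  · exfalso
    have h1 : top (st P (t + 1)) ≤ i := by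
      rw [top_succ]
      omega
    rw [actA_out P (t + 1) h1] at h
    exact absurd h List.not_mem_nil

private theorem lookup_none {L : List (ℕ × ℕ)} {l y : ℕ} (h : L.lookup l = none)
    (hm : (l, y) ∈ L) : False := by
  have := List.lookup_eq_none_iff.1 h _ hm
  simp at this

private theorem lookup_some {L : List (ℕ × ℕ)} (hn : (L.map Prod.fst).Nodup) {l y : ℕ} :
    L.lookup l = some y ↔ (l, y) ∈ L := by
  induction L with
  | nil => simp
  | cons p L ih =>
    obtain ⟨a, b⟩ := p
    rw [List.map_cons, List.nodup_cons] at hn
    rw [List.lookup_cons]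
    by_cases hla : l = a
    · subst hla
      simp only [beq_self_eq_true]
      constructor
      · intro h
        rw [Option.some.inj h]
        exact List.mem_cons_self
      · intro h
        rcases List.mem_cons.1 h with h1 | h1
        · rw [(Prod.mk.inj h1).2]
        · exact absurd (List.mem_map.2 ⟨(l, y), h1, rfl⟩) hn.1
    · have h1 : (l == a) = false := by simpa using hla
      simp only [h1]
      rw [ih hn.2]
      constructor
      · exact fun h => List.mem_cons_of_mem _ h
      · intro h
        rcases List.mem_cons.1 h with h2 | h2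
        · exact absurd (Prod.mk.inj h2).1 hla
        · exact h2

private theorem nly_nodup (S : St) (i : ℕ) : ((nly P t S i).map Prod.fst).Nodup := by
  unfold nly
  rw [List.map_filterMap]
  apply List.Nodup.filterMap _ List.nodup_range
  have key : ∀ a b : ℕ, b ∈ Option.map Prod.fst (if memA S i a = none then
      ((ysl S a i t).find? fun y => rdy P t S a i y).map fun y => (a, y) else none) → b = a := by
    intro a b hb
    split_ifs at hb with h1
    · cases h2 : (ysl S a i t).find? fun y => rdy P t S a i y with
      | none =>
        rw [h2] at hb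
        simp at hb
      | some y =>
        rw [h2] at hb
        simp at hb
        exact hb.symm
    · simp at hb
  intro a a' b hb hb'
  rw [← key a b hb, ← key a' b hb']

theorem act_le {i l y : ℕ} (h : (l, y) ∈ actA (st P t) i) : l ≤ i := by
  induction t generalizing i l y with
  | zero =>
    rw [act_zero] at h
    exact absurd h List.not_mem_nil
  | succ t ih =>
    rcases mem_cases P t h with ⟨-, h1⟩ | ⟨-, -, -, h1 | h1⟩
    · exact ih h1
    · exact ih h1
    · exact (mem_nly h1).1

theorem act_lt_top {i l y : ℕ} (h : (l, y) ∈ actA (st P t) i) : i < top (st P t) := by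
  by_contra hc
  rw [actA_out P t (not_lt.1 hc)] at h
  exact absurd h List.not_mem_nil

theorem act_on {i l y : ℕ} (h : (l, y) ∈ actA (st P t) i) :
    (P.tg l i (stgA (st P t) i)).1 ≠ 0 := by
  induction t generalizing i l y with
  | zero =>
    rw [act_zero] at h
    exact absurd h List.not_mem_nil
  | succ t ih =>
    rcases mem_cases P t h with ⟨hi, h1⟩ | ⟨hi, hisc, hcfg, h1⟩
    · rw [stgA_succ P t hi]
      exact ih h1
    · have hs : stgA (st P (t + 1)) i = stgA (st P t) i := by
        rw [hi, stgA_succ_lv, if_neg (by rw [hisc]; exact Bool.false_ne_true)]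
      rw [hs]
      rcases h1 with h1 | h1
      · exact ih h1
      · obtain ⟨hl, -, -, hr⟩ := mem_nly h1
        rw [← (cfg_false hcfg hl).1]
        rw [rdy, Bool.and_eq_true] at hr
        exact of_decide_eq_true hr.1

theorem act_nodup (i : ℕ) : ((actA (st P t) i).map Prod.fst).Nodup := by
  induction t generalizing i with
  | zero =>
    rw [act_zero]
    exact List.nodup_nil
  | succ t ih =>
    rcases lt_trichotomy i (lv P t) with hi | hi | hi
    · rw [actA_succ P t hi]
      exact ih i
    · subst hi
      rw [actA_succ_lv, actN]
      split_ifs with hc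
      · exact List.nodup_nil
      · rw [List.map_append, List.nodup_append]
        refine ⟨ih _, nly_nodup P t _ _, ?_⟩
        intro a ha b hb hab
        subst hab
        obtain ⟨⟨l, y⟩, h1, rfl⟩ := List.mem_map.1 ha
        obtain ⟨⟨l', y'⟩, h2, h3⟩ := List.mem_map.1 hb
        have h4 : l' = l := h3
        subst h4
        exact lookup_none (mem_nly h2).2.1 h1
    · have h1 : top (st P (t + 1)) ≤ i := by
        rw [top_succ]
        omega
      rw [actA_out P (t + 1) h1]
      exact List.nodup_nil

theorem mem_iff_lookup {i l y : ℕ} :
    memA (st P t) i l = some y ↔ (l, y) ∈ actA (st P t) i :=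
  lookup_some (act_nodup P t i)

theorem act_mem {i l y y' : ℕ} (h : (l, y) ∈ actA (st P t) (i + 1))
    (h' : (l, y') ∈ actA (st P t) i) : y = y' := by
  induction t generalizing i l y y' with
  | zero =>
    rw [act_zero] at h
    exact absurd h List.not_mem_nil
  | succ t ih =>
    rcases mem_cases P t h with ⟨hi, h1⟩ | ⟨hi, hisc, hcfg, h1⟩
    · rw [actA_succ P t (by omega)] at h'
      exact ih h1 h'
    · rw [actA_succ P t (by omega)] at h'
      rcases h1 with h1 | h1
      · exact ih h1 h'
      · obtain ⟨-, -, hy, -⟩ := mem_nly h1
        have h2 : memA (st P t) (i + 1 - 1) l = some y' := by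
          rw [Nat.add_sub_cancel]
          exact (mem_iff_lookup P t).2 h'
        rw [ysl, h2] at hy
        exact List.mem_singleton.1 hy

/-- Number of acting guards. -/
theorem act_length (i : ℕ) : (actA (st P t) i).length ≤ i + 1 := by
  have h1 : (actA (st P t) i).map Prod.fst ⊆ List.range (i + 1) := by
    intro a ha
    obtain ⟨⟨l, y⟩, h1, rfl⟩ := List.mem_map.1 ha
    exact List.mem_range.2 (Nat.lt_succ_of_le (act_le P t h1))
  have h2 := ((act_nodup P t i).subperm h1).length_le
  rwa [List.length_map, List.length_range] at h2

end Pool.Agent.Work.MP_ed0a9a_lc.H
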