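import Mathlib
import Pool.Agent.Work.MP_ed0a9a_lc.H.Mc

/-!
# Module `Fi`: every level has finitely many events

PROOF.  Strong induction on `i`: there is `T0` with `i ≤ lv P t` for all `t ≥ T0` (the maximum of
the bounds for the `j < i`; only `j = i - 1` is needed).  For `t ≥ T0 + 1`:
`top (st P t) = lv P (t - 1) + 1 ≥ i + 1`.  By `hP.tgl`, `hP.rhl` choose `T1 ≥ T0 + 1` such that
for all `l ≤ i` and `t ≥ T1`: `P.tg l i t = P.tg l i T1`, `P.rho l i t = P.rho l i T1`.
CLAIM 1: there is `T2 ≥ T1` such that for `t ≥ T2`: `¬ (lv P t = i ∧ isc P t (st P t) = true)`.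
Suppose `t1 ≥ T1`, `lv P t1 = i`, `isc`.  Then `stgA (st P (t1 + 1)) i = t1` (`stgA_succ_lv`),
and by induction `stgA (st P t) i = t1` for all `t ≥ t1 + 1` : if `i < lv P t` it is
unchanged; if `i = lv P t`: `cfg P t (st P t) i` is false because all values agree with those at
`t1 ≥ T1`, and `i < top (st P t)`, so `isc` is false.  So `T2 = t1 + 1` works.
If there is no such `t1` take `T2 = T1`.
CLAIM 2: for `t ≥ T2` with `lv P t = i`: `i < top (st P t)`, `att` holds (`att_lev`), `cfg` is false
(otherwise `isc`), so `nly P t (st P t) i ≠ []`, and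
`(actA (st P (t + 1)) i).length > (actA (st P t) i).length`.  For `t ≥ T2` with `lv P t > i` the length
is unchanged.  The length is at most `i + 1` (`act_length`), so only finitely many `t ≥ T2`
have `lv P t = i` (a monotone bounded sequence of natural numbers is eventually constant).
-/

namespace Pool.Agent.Work.MP_ed0a9a_lc.H

/-- Uniform bound for finitely many eventually true properties. -/
private theorem uniform_bound (Q : ℕ → ℕ → Prop) (h : ∀ l, ∃ T, ∀ t, T ≤ t → Q l t) (n : ℕ) :
    ∃ T, ∀ l, l < n → ∀ t, T ≤ t → Q l t := by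
  induction n with
  | zero => exact ⟨0, fun l hl => absurd hl (Nat.not_lt_zero l)⟩
  | succ n ih =>
    obtain ⟨T, hT⟩ := ih
    obtain ⟨T', hT'⟩ := h n
    refine ⟨max T T', fun l hl t ht => ?_⟩
    rcases Nat.lt_succ_iff_lt_or_eq.mp hl with h1 | h1
    · exact hT l h1 t ((le_max_left _ _).trans ht)
    · subst h1
      exact hT' t ((le_max_right _ _).trans ht)

/-- The inductive step. -/
private theorem fin_step {P : Par} (hP : P.Ok) (i T0 : ℕ) (hT0 : ∀ t, T0 ≤ t → i ≤ lv P t) :
    ∃ T, ∀ t, T ≤ t → i < lv P t := by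
  have htop : ∀ t, T0 + 1 ≤ t → i < top (st P t) := by
    intro t ht
    obtain ⟨s, rfl⟩ : ∃ s, t = s + 1 := ⟨t - 1, by omega⟩
    rw [top_succ]
    have := hT0 s (by omega)
    omega
  have hstab : ∃ T1, T0 + 1 ≤ T1 ∧ ∀ l, l ≤ i → ∀ t, T1 ≤ t → ∀ t', T1 ≤ t' →
      P.tg l i t = P.tg l i t' ∧ P.rho l i t = P.rho l i t' := by
    have h1 : ∀ l, ∃ T, ∀ t, T ≤ t → ∀ t', T ≤ t' →
        P.tg l i t = P.tg l i t' ∧ P.rho l i t = P.rho l i t' := by
      intro l
      obtain ⟨Ta, hTa⟩ := hP.tgl l i
      obtain ⟨Tb, hTb⟩ := hP.rhl l i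
      refine ⟨max Ta Tb, fun t ht t' ht' => ⟨?_, ?_⟩⟩
      · rw [hTa t ((le_max_left _ _).trans ht), hTa t' ((le_max_left _ _).trans ht')]
      · rw [hTb t ((le_max_right _ _).trans ht), hTb t' ((le_max_right _ _).trans ht')]
    obtain ⟨T, hT⟩ := uniform_bound (fun l T => ∀ t, T ≤ t → ∀ t', T ≤ t' →
        P.tg l i t = P.tg l i t' ∧ P.rho l i t = P.rho l i t') (by
          intro l
          obtain ⟨T, hT⟩ := h1 l
          exact ⟨T, fun s hs t ht t' ht' => hT t (hs.trans ht) t' (hs.trans ht')⟩) (i + 1)
    refine ⟨max T (T0 + 1), le_max_right _ _, fun l hl t ht t' ht' => ?_⟩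
    exact hT l (by omega) T le_rfl t ((le_max_left _ _).trans ht) t' ((le_max_left _ _).trans ht')
  obtain ⟨T1, hT01, hT1⟩ := hstab
  have hcfg : ∀ t, T1 ≤ t → T1 ≤ stgA (st P t) i → cfg P t (st P t) i = false := by
    intro t ht hs
    unfold cfg
    rw [List.any_eq_false]
    intro l hl
    rw [List.mem_range] at hl
    obtain ⟨e1, e2⟩ := hT1 l (by omega) t ht (stgA (st P t) i) hs
    simp [e1, e2]
  have hisc : ∀ t, T1 ≤ t → T1 ≤ stgA (st P t) i → lv P t = i → isc P t (st P t) = false := by
    intro t ht hs hl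
    have hl' : lev P t (st P t) = i := hl
    have h1 := htop t (hT01.trans ht)
    have h2 := hcfg t ht hs
    unfold isc
    rw [hl', h2]
    simp only [Bool.or_false, decide_eq_false_iff_not]
    omega
  -- claim 1
  have claim1 : ∃ T2, T1 ≤ T2 ∧ ∀ t, T2 ≤ t → lv P t = i → isc P t (st P t) = false := by
    by_cases h : ∃ t1, T1 ≤ t1 ∧ lv P t1 = i ∧ isc P t1 (st P t1) = true
    · obtain ⟨t1, h1, h2, h3⟩ := h
      have hs : ∀ t, t1 + 1 ≤ t → stgA (st P t) i = t1 := by
        intro t ht
        induction t, ht using Nat.le_induction with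
        | base =>
          have := stgA_succ_lv P t1
          rw [h2, if_pos h3] at this
          exact this
        | succ t ht ih =>
          rcases Nat.lt_or_ge i (lv P t) with h4 | h4
          · rw [stgA_succ P t h4, ih]
          · have h5 : lv P t = i := le_antisymm h4 (hT0 t (by omega))
            have h6 := hisc t (by omega) (by omega) h5
            have := stgA_succ_lv P t
            rw [h5, h6, if_neg (by simp)] at this
            rw [this, ih]
      refine ⟨t1 + 1, by omega, fun t ht hl => ?_⟩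
      exact hisc t (by omega) (by rw [hs t ht]; exact h1) hl
    · push Not at h
      refine ⟨T1, le_rfl, fun t ht hl => ?_⟩
      simpa using h t ht hl
  obtain ⟨T2, hT12, hT2⟩ := claim1
  -- claim 2
  have hgrow : ∀ t, T2 ≤ t → lv P t = i →
      (actA (st P t) i).length < (actA (st P (t + 1)) i).length := by
    intro t ht hl
    have hl' : lev P t (st P t) = i := hl
    have h1 := hT2 t ht hl
    have h2 := actA_succ_lv P t
    have h3 : i < top (st P t) := htop t (by omega)
    have h4 : att P t (st P t) i = true := by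
      have := att_lev P t (st P t) (by rw [hl']; exact h3)
      rwa [hl'] at this
    have h5 : cfg P t (st P t) i = false := by
      have := h1
      unfold isc at this
      rw [hl', Bool.or_eq_false_iff] at this
      exact this.2
    have h6 : nly P t (st P t) i ≠ [] := by
      intro h7
      unfold att at h4
      rw [h5, h7] at h4
      simp at h4
    rw [hl] at h2
    rw [h2]
    unfold actN
    rw [h1, hl', if_neg (by simp), List.length_append]
    have := List.length_pos_iff.mpr h6
    omega
  have hmono : ∀ t, T2 ≤ t → ∀ t', t ≤ t' →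
      (actA (st P t) i).length ≤ (actA (st P t') i).length := by
    intro t ht t' ht'
    induction t', ht' using Nat.le_induction with
    | base => exact le_rfl
    | succ s hs ih =>
      refine ih.trans ?_
      rcases Nat.lt_or_ge i (lv P s) with h4 | h4
      · rw [actA_succ P s h4]
      · exact (hgrow s (ht.trans hs) (le_antisymm h4 (hT0 s (by omega)))).le
  by_contra hcon
  push Not at hcon
  have hun : ∀ n, ∃ t, T2 ≤ t ∧ n ≤ (actA (st P t) i).length := by
    intro n
    induction n with
    | zero => exact ⟨T2, le_rfl, Nat.zero_le _⟩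
    | succ n ih =>
      obtain ⟨t, ht, hn⟩ := ih
      obtain ⟨s, hs, hl⟩ := hcon t
      have h1 : lv P s = i := le_antisymm hl (hT0 s (by omega))
      have h2 := hmono t ht s hs
      have h3 := hgrow s (ht.trans hs) h1
      exact ⟨s + 1, by omega, by omega⟩
  obtain ⟨t, _, h⟩ := hun (i + 2)
  have := act_length P t i
  omega

theorem fin_lv {P : Par} (hP : P.Ok) (i : ℕ) : ∃ T, ∀ t, T ≤ t → i < lv P t := by
  induction i with
  | zero => exact fin_step hP 0 0 (fun t _ => Nat.zero_le _)
  | succ i ih =>
    obtain ⟨T, hT⟩ := ih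
    exact fin_step hP (i + 1) T (fun t ht => hT t ht)

end Pool.Agent.Work.MP_ed0a9a_lc.H
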