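import Mathlib
import Pool.Agent.Work.MP_ed0a9a_lc.H.Fi

/-!
# Module `Mf`: final values

PROOFS.  `exists_tau`: by `fin_lv` there are finitely many `t` with `lv P t ≤ i`, and at least one:
`lv P 0 = 0` (`lv ≤ top (st P 0) = 0`).  Let `τ` be the last one (`Nat.findGreatest` or
`Set.Finite.exists_maximal`).  If `lv P τ < i` then `top (st P (τ + 1)) = lv P τ + 1 ≤ i`, so
`lv P (τ + 1) ≤ i`, contradiction.  `tau_spec`: `Classical.epsilon_spec`.
`tau_lt`: `lv P (tau P j) = j`, and if `tau P j ≤ tau P i` with `i < j` then: at `tau P i` the level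
is `i ≤ j`, so if `tau P j < tau P i` then `j < lv P (tau P i) = i`, contradiction; equality
is impossible because the levels differ.
`fin_top`: `tau P i < t`: `top (st P t) = lv P (t - 1) + 1`, `t - 1 ≥ tau P i`, so `≥ i + 1`.
`fin_kap`, `fin_stg`, `fin_act`: for `t = tau P i + 1` and `j = i` by definition; for `j < i`:
induction on `t ≥ tau P j + 1` (`kapA_succ`: `j + 1 ≤ lv P t` for `t > tau P j`).  So prove first:
for `t > tau P j`: `kapA (st P t) j' = kapA (st P (tau P j + 1)) j'` for all `j' ≤ j + 1`, and the same for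
`stgA`, `actA` (`j' ≤ j`), and then `tau P j' < tau P j` to identify with `kf P j'`.
For `kapA (st P (tau P i + 1)) (i + 1) = kf P (i + 1)`: `tau P (i + 1) + 1 > tau P i`.
`kf_lt`: `kapA_lt` at the stage `tau P j + 1`.  `kf_zero`: `kapA_zero`.
`fin_att`: `att_lt`.
`fin_tg`: for `t > tau P i`: `att P t (st P t) i = false`, so `cfg = false`, `cfg_false`:
`P.tg l i t = P.tg l i (sf P i)`, and the limit has the same value (`hP.tgl`,
`Classical.epsilon_spec`: `P.tg l i t = P.tgf l i` for large `t`).  For `t = tau P i`: if `isc` at `tau P i` then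
`sf P i = tau P i` (`stgA_succ_lv`); otherwise `cfg` is false at `tau P i` and
`stgA (st P (tau P i)) i = sf P i`.
`sf_le`, `le_sf`: `stgA_lt`, `le_stgA` at `tau P i + 1`.
`lv_sf`: INVARIANT: for all `t` and `i < top (st P t)`: let `σ = stgA (st P t) i`; then
`lv P σ = i`, `isc P σ (st P σ) = true` and `∀ s, σ ≤ s → s < t → i ≤ lv P s`
(induction on `t`).  Apply it at `t = tau P i + 1`, and beyond with `tau_spec`.
`af_eq`: `actA_succ_lv`.
`sf_act`: if `af P i ≠ []` then at `tau P i` the event is not a configuration event (else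
`actN = []`), so `stgA (st P (tau P i)) i = sf P i`, and `sf P i < tau P i` by `stgA_lt`
(`i < top (st P (tau P i))` since `isc` is false).
-/

namespace Pool.Agent.Work.MP_ed0a9a_lc.H

variable {P : Par}

private theorem mf_exists (hP : P.Ok) (i : ℕ) :
    ∃ τ, lv P τ = i ∧ ∀ t, τ < t → i < lv P t := by
  obtain ⟨T, hT⟩ := fin_lv hP i
  have h0 : lv P 0 ≤ i := (lv_le P 0).trans (Nat.zero_le _)
  obtain ⟨τ, hτ⟩ : ∃ τ, τ = Nat.findGreatest (fun t => lv P t ≤ i) T := ⟨_, rfl⟩
  have h1 : lv P τ ≤ i := by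
    rw [hτ]
    exact Nat.findGreatest_spec (P := fun t => lv P t ≤ i) (Nat.zero_le T) h0
  have h2 : ∀ t, τ < t → i < lv P t := by
    intro t ht
    by_contra hcon
    rw [not_lt] at hcon
    by_cases htT : T ≤ t
    · exact absurd (hT t htT) (not_lt.2 hcon)
    · have := Nat.le_findGreatest (P := fun t => lv P t ≤ i) (not_le.1 htT).le hcon
      omega
  refine ⟨τ, ?_, h2⟩
  by_contra hne
  have hlt : lv P τ < i := lt_of_le_of_ne h1 hne
  have h3 := h2 (τ + 1) (Nat.lt_succ_self _)
  have h4 := lv_le_top P (τ + 1)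
  rw [top_succ] at h4
  omega

theorem tau_spec (hP : P.Ok) (i : ℕ) : lv P (tau P i) = i ∧ ∀ t, tau P i < t → i < lv P t :=
  Classical.epsilon_spec (mf_exists hP i)

theorem tau_lt (hP : P.Ok) {i j : ℕ} (h : i < j) : tau P i < tau P j := by
  obtain ⟨h1, -⟩ := tau_spec hP i
  obtain ⟨h3, h4⟩ := tau_spec hP j
  by_contra hcon
  rw [not_lt] at hcon
  rcases hcon.lt_or_eq with hlt | heq
  · have := h4 _ hlt
    omega
  · rw [heq] at h3
    omega

private theorem mf_tau_le (hP : P.Ok) {i j : ℕ} (h : i ≤ j) : tau P i ≤ tau P j := by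
  rcases h.lt_or_eq with h | h
  · exact (tau_lt hP h).le
  · rw [h]

private theorem mf_lv (hP : P.Ok) {i t : ℕ} (h : tau P i < t) : i + 1 ≤ lv P t :=
  (tau_spec hP i).2 t h

private theorem mf_lv' (hP : P.Ok) {i t : ℕ} (h : tau P i ≤ t) : i ≤ lv P t := by
  rcases h.lt_or_eq with h | h
  · exact (Nat.le_succ i).trans (mf_lv hP h)
  · rw [← h, (tau_spec hP i).1]

theorem fin_top (hP : P.Ok) {i t : ℕ} (h : tau P i < t) : i < top (st P t) := by
  obtain ⟨s, rfl⟩ : ∃ s, t = s + 1 := ⟨t - 1, by omega⟩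
  rw [top_succ]
  have := mf_lv' hP (i := i) (t := s) (by omega)
  omega

private theorem mf_kap (hP : P.Ok) {i t : ℕ} (h : tau P i < t) {j : ℕ} (hj : j ≤ i + 1) :
    kapA (st P t) j = kapA (st P (tau P i + 1)) j := by
  induction t, h using Nat.le_induction with
  | base => rfl
  | succ t ht ih =>
    rw [kapA_succ P t (hj.trans (mf_lv hP ht)), ih]

theorem fin_kap (hP : P.Ok) {i t : ℕ} (h : tau P i < t) {j : ℕ} (hj : j ≤ i + 1) :
    kapA (st P t) j = kf P j := by
  unfold kf
  by_cases hji : j ≤ i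
  · exact mf_kap hP (lt_of_le_of_lt (mf_tau_le hP hji) h) (by omega)
  · have : j = i + 1 := by omega
    subst this
    rw [mf_kap hP h le_rfl]
    exact (mf_kap hP ((tau_lt hP (Nat.lt_succ_self i)).trans (Nat.lt_succ_self _)) le_rfl).symm

theorem fin_stg (hP : P.Ok) {i t : ℕ} (h : tau P i < t) {j : ℕ} (hj : j ≤ i) :
    stgA (st P t) j = sf P j := by
  unfold sf
  have h' : tau P j < t := lt_of_le_of_lt (mf_tau_le hP hj) h
  clear h
  induction t, h' using Nat.le_induction with
  | base => rfl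
  | succ t ht ih => rw [stgA_succ P t (mf_lv hP ht), ih]

theorem fin_act (hP : P.Ok) {i t : ℕ} (h : tau P i < t) {j : ℕ} (hj : j ≤ i) :
    actA (st P t) j = af P j := by
  unfold af
  have h' : tau P j < t := lt_of_le_of_lt (mf_tau_le hP hj) h
  clear h
  induction t, h' using Nat.le_induction with
  | base => rfl
  | succ t ht ih => rw [actA_succ P t (mf_lv hP ht), ih]

theorem fin_att (hP : P.Ok) {i t : ℕ} (h : tau P i < t) : cfg P t (st P t) i = false ∧
    nly P t (st P t) i = [] := by
  have h1 := att_lt P t (st P t) (i := i) ((tau_spec hP i).2 t h)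
  unfold att at h1
  rw [Bool.or_eq_false_iff] at h1
  refine ⟨h1.1, ?_⟩
  have h2 := h1.2
  rw [Bool.not_eq_false', List.isEmpty_iff] at h2
  exact h2

private theorem mf_isc {t : ℕ} {S : St} (h : isc P t S = false) :
    lev P t S < top S ∧ cfg P t S (lev P t S) = false := by
  unfold isc at h
  rw [Bool.or_eq_false_iff] at h
  refine ⟨lt_of_le_of_ne (lev_le P t S) ?_, h.2⟩
  exact of_decide_eq_false h.1

private theorem mf_tgf (hP : P.Ok) {i l : ℕ} (hl : l ≤ i) :
    P.tgf l i = P.tg l i (sf P i) ∧ P.rhof l i = P.rho l i (sf P i) := by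
  have h1 := Classical.epsilon_spec (hP.tgl l i)
  have h2 := Classical.epsilon_spec (hP.rhl l i)
  constructor
  · have ht : tau P i < max (tau P i + 1)
        (Classical.epsilon fun T => ∀ t, T ≤ t → P.tg l i t = P.tg l i T) :=
      lt_of_lt_of_le (Nat.lt_succ_self _) (le_max_left _ _)
    have h3 := (cfg_false (fin_att hP ht).1 hl).1
    rw [fin_stg hP ht le_rfl, h1 _ (le_max_right _ _)] at h3
    exact h3
  · have ht : tau P i < max (tau P i + 1)
        (Classical.epsilon fun T => ∀ t, T ≤ t → P.rho l i t = P.rho l i T) :=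
      lt_of_lt_of_le (Nat.lt_succ_self _) (le_max_left _ _)
    have h3 := (cfg_false (fin_att hP ht).1 hl).2
    rw [fin_stg hP ht le_rfl, h2 _ (le_max_right _ _)] at h3
    exact h3

private theorem mf_sf_eq (hP : P.Ok) (i : ℕ) :
    sf P i = if isc P (tau P i) (st P (tau P i)) = true then tau P i
      else stgA (st P (tau P i)) i := by
  have h := stgA_succ_lv P (tau P i)
  rw [(tau_spec hP i).1] at h
  exact h

private theorem mf_isc_tau (hP : P.Ok) {i : ℕ} (h : isc P (tau P i) (st P (tau P i)) = false) :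
    i < top (st P (tau P i)) ∧ cfg P (tau P i) (st P (tau P i)) i = false := by
  have h1 := mf_isc h
  have h2 : lev P (tau P i) (st P (tau P i)) = i := (tau_spec hP i).1
  rw [h2] at h1
  exact h1

theorem fin_tg (hP : P.Ok) {i t : ℕ} (h : tau P i ≤ t) {l : ℕ} (hl : l ≤ i) :
    P.tg l i t = P.tgf l i ∧ P.rho l i t = P.rhof l i := by
  obtain ⟨e1, e2⟩ := mf_tgf hP hl
  rw [e1, e2]
  rcases h.lt_or_eq with h | h
  · have h3 := cfg_false (fin_att hP h).1 hl
    rw [fin_stg hP h le_rfl] at h3
    exact h3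
  · rw [← h]
    by_cases hc : isc P (tau P i) (st P (tau P i)) = true
    · have h4 := mf_sf_eq hP i
      rw [if_pos hc] at h4
      rw [h4]
      exact ⟨rfl, rfl⟩
    · have h4 := mf_sf_eq hP i
      rw [if_neg hc] at h4
      rw [h4]
      exact cfg_false (mf_isc_tau hP (by simpa using hc)).2 hl

theorem kf_zero (hP : P.Ok) : kf P 0 = 0 := kapA_zero P _

theorem kf_lt (hP : P.Ok) {i j : ℕ} (h : i < j) : kf P i < kf P j := by
  have h1 := kapA_lt P (tau P j + 1) hP h (fin_top hP (Nat.lt_succ_self (tau P j))).le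
  rw [fin_kap hP (Nat.lt_succ_self (tau P j)) (by omega : i ≤ j + 1)] at h1
  exact h1

theorem le_kf (hP : P.Ok) (i : ℕ) : i ≤ kf P i := by
  induction i with
  | zero => exact Nat.zero_le _
  | succ i ih =>
    have := kf_lt hP (Nat.lt_succ_self i)
    have h2 : i.succ = i + 1 := rfl
    rw [h2] at this
    omega

theorem sf_le (hP : P.Ok) (i : ℕ) : sf P i ≤ tau P i := by
  have h := stgA_lt P (tau P i + 1) (fin_top hP (Nat.lt_succ_self (tau P i)))
  exact Nat.lt_succ_iff.1 h

theorem le_sf (hP : P.Ok) (i : ℕ) : i ≤ sf P i :=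
  le_stgA P (tau P i + 1) (fin_top hP (Nat.lt_succ_self (tau P i)))

private theorem mf_inv (t : ℕ) : ∀ i, i < top (st P t) →
    lv P (stgA (st P t) i) = i ∧ isc P (stgA (st P t) i) (st P (stgA (st P t) i)) = true ∧
      ∀ s, stgA (st P t) i ≤ s → s < t → i ≤ lv P s := by
  induction t with
  | zero =>
    intro i hi
    have := top_le P 0
    omega
  | succ t ih =>
    intro i hi
    rw [top_succ] at hi
    rcases (Nat.lt_succ_iff.1 hi).lt_or_eq with hlt | heq
    · rw [stgA_succ P t hlt]
      obtain ⟨h1, h2, h3⟩ := ih i (hlt.trans_le (lv_le_top P t))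
      refine ⟨h1, h2, fun s hs hst => ?_⟩
      rcases (Nat.lt_succ_iff.1 hst).lt_or_eq with h | h
      · exact h3 s hs h
      · rw [h]; exact hlt.le
    · have hS := stgA_succ_lv P t
      rw [← heq] at hS
      rw [hS]
      by_cases hc : isc P t (st P t) = true
      · rw [if_pos hc]
        refine ⟨heq.symm, hc, fun s hs hst => ?_⟩
        have : s = t := by omega
        rw [this]; exact heq.le
      · rw [if_neg hc]
        have hc' := (mf_isc (P := P) (t := t) (S := st P t) (by simpa using hc)).1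
        have hc2 : i < top (st P t) := by
          rw [heq]; exact hc'
        obtain ⟨h1, h2, h3⟩ := ih i hc2
        refine ⟨h1, h2, fun s hs hst => ?_⟩
        rcases (Nat.lt_succ_iff.1 hst).lt_or_eq with h | h
        · exact h3 s hs h
        · rw [h]; exact heq.le

theorem lv_sf (hP : P.Ok) (i : ℕ) : lv P (sf P i) = i ∧ isc P (sf P i) (st P (sf P i)) = true ∧
    ∀ t, sf P i ≤ t → i ≤ lv P t := by
  obtain ⟨h1, h2, h3⟩ := mf_inv (P := P) (tau P i + 1) i
    (fin_top hP (Nat.lt_succ_self (tau P i)))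
  refine ⟨h1, h2, fun t ht => ?_⟩
  by_cases h : t < tau P i + 1
  · exact h3 t ht h
  · exact mf_lv' hP (by omega)

/-- Between `sf P i` and the end the field index of level `i` and the stage are final. -/
theorem kap_sf (hP : P.Ok) {i t : ℕ} (h : sf P i ≤ t) : kapA (st P t) i = kf P i := by
  have key : ∀ s, sf P i ≤ s → kapA (st P s) i = kapA (st P (sf P i)) i := by
    intro s hs
    induction s, hs using Nat.le_induction with
    | base => rfl
    | succ s hs ih => rw [kapA_succ P s ((lv_sf hP i).2.2 s hs), ih]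
  unfold kf
  rw [key t h, key (tau P i + 1) ((sf_le hP i).trans (Nat.le_succ _))]

theorem stg_sf (hP : P.Ok) {i t : ℕ} (h : sf P i < t) :
    i < top (st P t) ∧ stgA (st P t) i = sf P i := by
  obtain ⟨h1, h2, h3⟩ := lv_sf hP i
  have htop : ∀ s, sf P i < s → i < top (st P s) := by
    intro s hs
    obtain ⟨r, rfl⟩ : ∃ r, s = r + 1 := ⟨s - 1, by omega⟩
    rw [top_succ]
    have := h3 r (by omega)
    omega
  refine ⟨htop t h, ?_⟩
  have hbase : stgA (st P (sf P i + 1)) i = sf P i := by
    have := stgA_succ_lv P (sf P i)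
    rw [h1, if_pos h2] at this
    exact this
  have hstep : ∀ s, sf P i < s → stgA (st P s) i ≤ stgA (st P (s + 1)) i := by
    intro s hs
    rcases (h3 s hs.le).lt_or_eq with hlt | heq
    · rw [stgA_succ P s hlt]
    · have hS := stgA_succ_lv P s
      rw [← heq] at hS
      rw [hS]
      split_ifs
      · exact (stgA_lt P s (htop s hs)).le
      · exact le_rfl
  have hmono : ∀ s r, sf P i < s → s ≤ r → stgA (st P s) i ≤ stgA (st P r) i := by
    intro s r hs hr
    induction r, hr using Nat.le_induction with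
    | base => exact le_rfl
    | succ r hr ih => exact ih.trans (hstep r (lt_of_lt_of_le hs hr))
  apply le_antisymm
  · have h4 := hmono t (max t (tau P i + 1)) h (le_max_left _ _)
    rwa [fin_stg hP (lt_of_lt_of_le (Nat.lt_succ_self (tau P i)) (le_max_right _ _)) le_rfl] at h4
  · have h5 := hmono (sf P i + 1) t (Nat.lt_succ_self _) h
    rwa [hbase] at h5

theorem af_eq (hP : P.Ok) (i : ℕ) : af P i = actN P (tau P i) (st P (tau P i)) := by
  have h := actA_succ_lv P (tau P i)
  rw [(tau_spec hP i).1] at h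
  exact h

theorem sf_lt_tau (hP : P.Ok) {i : ℕ} {p : ℕ × ℕ} (h : p ∈ af P i) : sf P i < tau P i ∧
    isc P (tau P i) (st P (tau P i)) = false := by
  rw [af_eq hP] at h
  unfold actN at h
  by_cases hc : isc P (tau P i) (st P (tau P i)) = true
  · rw [if_pos hc] at h
    exact absurd h List.not_mem_nil
  · have hc' : isc P (tau P i) (st P (tau P i)) = false := by simpa using hc
    refine ⟨?_, hc'⟩
    rw [mf_sf_eq hP, if_neg hc]
    exact stgA_lt P (tau P i) (mf_isc_tau hP hc').1

/-- Members of the final lists. -/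
theorem af_le (hP : P.Ok) {i l y : ℕ} (h : (l, y) ∈ af P i) : l ≤ i :=
  act_le P _ h

theorem af_on (hP : P.Ok) {i l y : ℕ} (h : (l, y) ∈ af P i) : (P.tgf l i).1 ≠ 0 := by
  rw [(mf_tgf hP (af_le hP h)).1]
  exact act_on P _ h

theorem af_lookup (hP : P.Ok) {i l y : ℕ} : (af P i).lookup l = some y ↔ (l, y) ∈ af P i :=
  mem_iff_lookup P (tau P i + 1)

theorem af_mem (hP : P.Ok) {i l y y' : ℕ} (h : (l, y) ∈ af P (i + 1))
    (h' : (l, y') ∈ af P i) : y = y' := by
  have ht := Nat.lt_succ_self (tau P (i + 1))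
  rw [← fin_act hP ht le_rfl] at h
  rw [← fin_act hP ht (Nat.le_succ i)] at h'
  exact act_mem P _ h h'

end Pool.Agent.Work.MP_ed0a9a_lc.H
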