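import Pool.Agent.Work.MP_ed0a9a_lc.H.Base
import Pool.Agent.Work.MP_ed0a9a_lc.H.MtCls

/-!
# Module `Mt`: the theory of the models `Md i`

For interpretations `R i` with `R 0` = addition and all scalars definable, the structures
`strM a R (Md i)`, `i ∈ ℕ∞`, are up to isomorphism the countable models of a complete,
`ℵ₁`-categorical, not `ℵ₀`-categorical theory.
-/

set_option linter.style.haveILetI false

namespace Pool.Agent.Work.MP_ed0a9a_lc.H

open FirstOrder FirstOrder.Language HM

section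
variable {W W' : Type*} [AddCommGroup W] [Module K W] [AddCommGroup W'] [Module K W']

theorem Fs_mono : Monotone Fs := fun _ _ h _ hx => lt_of_lt_of_le hx (q_mono h)

theorem IsF.mono {n m : ℕ} (h : n ≤ m) {c : List K} (hc : IsF n c) : IsF m c :=
  fun x hx => Fs_mono h (hc x hx)

theorem Same.mono {n m : ℕ} (h : n ≤ m) {z : List W} {z' : List W'} (hs : Same m z z') :
    Same n z z' := ⟨hs.1, fun c hc hF => hs.2 c hc (hF.mono h)⟩

theorem Same.symm {n : ℕ} {z : List W} {z' : List W'} (hs : Same n z z') : Same n z' z :=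
  ⟨hs.1.symm, fun c hc hF => (hs.2 c (hc.trans hs.1.symm) hF).symm⟩

theorem Same.trans {W'' : Type*} [AddCommGroup W''] [Module K W''] {n : ℕ} {z : List W}
    {z' : List W'} {z'' : List W''} (h : Same n z z') (h' : Same n z' z'') : Same n z z'' :=
  ⟨h.1.trans h'.1, fun c hc hF => (h.2 c hc hF).trans (h'.2 c (hc.trans h.1) hF)⟩

theorem lin_cons (x : K) (c : List K) (v : W) (z : List W) :
    lin (x :: c) (v :: z) = x • v + lin c z := by simp [lin]

theorem lin_nil (z : List W) : lin ([] : List K) z = 0 := by simp [lin]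

theorem lin_nil' (c : List K) : lin c ([] : List W) = 0 := by simp [lin]

theorem lin_zeros (n : ℕ) (z : List W) : lin (List.replicate n (0 : K)) z = 0 := by
  induction n generalizing z with
  | zero => exact lin_nil z
  | succ n ih =>
    cases z with
    | nil => exact lin_nil' _
    | cons v z => rw [List.replicate_succ, lin_cons, ih, zero_smul, zero_add]

theorem lin_take (c : List K) (z : List W) (k m : ℕ) (h : c.length = (z.take k).length) :
    lin (c ++ List.replicate m 0) z = lin c (z.take k) := by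
  induction c generalizing z k with
  | nil =>
    rw [List.nil_append, lin_zeros, lin_nil]
  | cons x c ih =>
    cases z with
    | nil => simp at h
    | cons v z =>
      cases k with
      | zero => simp at h
      | succ k =>
        rw [List.cons_append, lin_cons, List.take_succ_cons, lin_cons, ih z k (by simpa using h)]

theorem Same.take {n : ℕ} {z : List W} {z' : List W'} (h : Same n z z') (k : ℕ) :
    Same n (z.take k) (z'.take k) := by
  refine ⟨by rw [List.length_take, List.length_take, h.1], fun c hc hF => ?_⟩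
  have hc' : c.length = (z'.take k).length := by
    rw [hc, List.length_take, List.length_take, h.1]
  rw [← lin_take c z k (z.length - k) hc, ← lin_take c z' k (z.length - k) hc']
  refine h.2 _ ?_ ?_
  · rw [List.length_append, hc, List.length_replicate, List.length_take]
    omega
  · intro x hx
    rw [List.mem_append] at hx
    rcases hx with hx | hx
    · exact hF x hx
    · rw [(List.mem_replicate.1 hx).2]
      exact (Fs n).zero_mem

theorem Same.ind {n : ℕ} {z : List W} {z' : List W'} (h : Same n z z') :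
    Ind n z → Ind n z' :=
  fun hi c hc hF h0 => hi c (hc.trans h.1.symm) hF ((h.2 c (hc.trans h.1.symm) hF).2 h0)

theorem Same.nrel_eq {n : ℕ} {z : List W} {z' : List W'} (h : Same n z z') :
    nrel n z = nrel n z' := by
  unfold nrel
  congr 1
  ext c
  simp only [Set.mem_ofPred_eq]
  constructor
  · rintro ⟨h1, h2, h3⟩
    exact ⟨h1.trans h.1, h2, (h.2 c h1 h2).1 h3⟩
  · rintro ⟨h1, h2, h3⟩
    exact ⟨h1.trans h.1.symm, h2, (h.2 c (h1.trans h.1.symm) h2).2 h3⟩

theorem mem_Fs_self (x : ℕ) : toK x ∈ Fs x := by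
  rw [mem_Fs, ofK_toK]
  exact lt_trans Nat.lt_two_pow_self (Nat.lt_two_pow_self)

theorem self_add (v : W) : v + v = 0 := by
  have h := congrArg (fun c : K => c • v) (K_add_self 1)
  simpa [add_smul] using h

theorem plus_shape (z : List W) : (∃ u v : W, z = [u, v, u + v]) ↔
    z.length = 3 ∧ lin [1, 1, 1] z = 0 := by
  constructor
  · rintro ⟨u, v, rfl⟩
    refine ⟨rfl, ?_⟩
    rw [lin_cons, lin_cons, lin_cons, lin_nil, one_smul, one_smul, one_smul, add_zero,
      ← add_assoc, self_add]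
  · rintro ⟨h1, h2⟩
    match z, h1 with
    | [u, v, w], _ =>
      rw [lin_cons, lin_cons, lin_cons, lin_nil, one_smul, one_smul, one_smul, add_zero,
        ← add_assoc] at h2
      refine ⟨u, v, ?_⟩
      have h3 : w = u + v := by
        calc w = (u + v + w) + w := by rw [h2, zero_add]
          _ = u + v + (w + w) := by abel
          _ = u + v := by rw [self_add, add_zero]
      rw [h3]

theorem sc_shape (x : K) (z : List W) : (∃ (u : W) (t : List W), z = u :: (x • u) :: t) ↔
    2 ≤ z.length ∧ lin (x :: 1 :: List.replicate (z.length - 2) 0) z = 0 := by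
  constructor
  · rintro ⟨u, t, rfl⟩
    refine ⟨by simp, ?_⟩
    rw [lin_cons, lin_cons, lin_zeros, one_smul, add_zero, self_add]
  · rintro ⟨h1, h2⟩
    match z, h1 with
    | u :: v :: t, _ =>
      rw [lin_cons, lin_cons, lin_zeros, one_smul, add_zero] at h2
      refine ⟨u, t, ?_⟩
      have h3 : v = x • u := by
        calc v = (x • u + v) + v := by rw [h2, zero_add]
          _ = x • u + (v + v) := by abel
          _ = x • u := by rw [self_add, add_zero]
      rw [h3]

theorem hI_imp (I : Itn) {N : ℕ} (hN : I.2.1 + I.2.2.1 ≤ N) {z : List W} {z' : List W'}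
    (h : Same N z z') (hz : hI I z) : hI I z' := by
  have h1 : Same I.2.1 z z' := h.mono (le_trans (Nat.le_add_right _ _) hN)
  have h2 : Same I.2.2.1 z z' := h.mono (le_trans (Nat.le_add_left _ _) hN)
  rcases hz with ⟨ht, hz⟩ | ⟨ht, hz⟩ | ⟨ht, hz, hz'⟩ | ⟨ht, hz, h3, h4⟩
  · refine Or.inl ⟨ht, ?_⟩
    rw [plus_shape] at hz ⊢
    refine ⟨h.1 ▸ hz.1, ?_⟩
    refine (h.2 _ ?_ ?_).1 hz.2
    · rw [hz.1]; rfl
    · intro x hx
      simp only [List.mem_cons, List.not_mem_nil, or_false, or_self] at hx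
      rw [hx]; exact (Fs N).one_mem
  · exact Or.inr (Or.inl ⟨ht, h1.ind hz⟩)
  · refine Or.inr (Or.inr (Or.inl ⟨ht, h1.ind hz, ?_⟩))
    rw [sc_shape] at hz' ⊢
    rw [← h.1]
    refine ⟨hz'.1, ?_⟩
    refine (h2.2 _ ?_ ?_).1 hz'.2
    · simp only [List.length_cons, List.length_replicate]
      omega
    · intro x hx
      simp only [List.mem_cons, List.mem_replicate] at hx
      rcases hx with rfl | rfl | ⟨-, rfl⟩
      · exact mem_Fs_self _
      · exact (Fs _).one_mem
      · exact (Fs _).zero_mem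
  · refine Or.inr (Or.inr (Or.inr ⟨ht, h1.ind hz, ?_, ?_⟩))
    · rw [← (h2.take _).nrel_eq]; exact h3
    · rw [← (h2.take _).nrel_eq]; exact h4

theorem holds_imp (A : Asg) {N : ℕ} (hN : A.2.1 + (A.2.2.2.2.1 + A.2.2.2.2.2.1) ≤ N)
    {z : List W} {z' : List W'} (h : Same N z z') (hz : holds A z) : holds A z' := by
  have h1 : Same A.2.1 z z' := h.mono (le_trans (Nat.le_add_right _ _) hN)
  rcases hz with ⟨p, hp, hs, hb⟩ | ⟨hp, hz⟩
  · exact Or.inl ⟨p, hp, hs.trans h1, hb⟩
  · exact Or.inr ⟨fun p hpm hs => hp p hpm (hs.trans h1.symm),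
      hI_imp _ (le_trans (Nat.le_add_left _ _) hN) h hz⟩

theorem holds_nil (D n' : ℕ) (I : Itn) (z : List W) : holds (D, n', [], I) z ↔ hI I z := by
  unfold holds
  constructor
  · rintro (⟨p, hp, -⟩ | ⟨-, h⟩)
    · exact absurd hp List.not_mem_nil
    · exact h
  · exact fun h => Or.inr ⟨fun p hp => absurd hp List.not_mem_nil, h⟩

theorem hI_plus (z : List W) : hI Itn.plus z ↔ ∃ u v : W, z = [u, v, u + v] := by
  unfold hI Itn.plus
  constructor
  · rintro (⟨-, h⟩ | ⟨h, -⟩ | ⟨h, -⟩ | ⟨h, -⟩)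
    · exact h
    all_goals exact absurd h (by simp)
  · exact fun h => Or.inl ⟨rfl, h⟩

theorem hI_ind (n : ℕ) (z : List W) : hI (Itn.ind n) z ↔ Ind n z := by
  unfold hI Itn.ind
  constructor
  · rintro (⟨h, -⟩ | ⟨-, h⟩ | ⟨h, -⟩ | ⟨h, -⟩)
    · exact absurd h (by simp)
    · exact h
    all_goals exact absurd h (by simp)
  · exact fun h => Or.inr (Or.inl ⟨rfl, h⟩)

theorem hI_sc (n x : ℕ) (z : List W) : hI (Itn.sc n x) z ↔
    Ind n z ∧ ∃ (u : W) (t : List W), z = u :: (toK x • u) :: t := by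
  unfold hI Itn.sc
  constructor
  · rintro (⟨h, -⟩ | ⟨h, -⟩ | ⟨-, h⟩ | ⟨h, -⟩)
    · exact absurd h (by simp)
    · exact absurd h (by simp)
    · exact h
    · exact absurd h (by simp)
  · exact fun h => Or.inr (Or.inr (Or.inl ⟨rfl, h⟩))

theorem hI_rk (n n' c lo hi : ℕ) (z : List W) : hI (Itn.rk n n' c lo hi) z ↔
    Ind n z ∧ q n' ^ lo ≤ nrel n' (z.take c) ∧ nrel n' (z.take c) ≤ q n' ^ hi := by
  unfold hI Itn.rk
  constructor
  · rintro (⟨h, -⟩ | ⟨h, -⟩ | ⟨h, -⟩ | ⟨-, h⟩)
    · exact absurd h (by simp)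
    · exact absurd h (by simp)
    · exact absurd h (by simp)
    · exact h
  · exact fun h => Or.inr (Or.inr (Or.inr ⟨rfl, h⟩))

theorem hI_none (z : List W) : ¬ hI Itn.none z := by
  unfold hI Itn.none
  rintro (⟨h, -⟩ | ⟨h, -⟩ | ⟨h, -⟩ | ⟨h, -⟩) <;> exact absurd h (by simp)

/-- An interpretation depends only on the `F_N`-relations for some `N`. -/
theorem holds_congr (A : Asg) {N : ℕ} (hN : A.2.1 + (A.2.2.2.2.1 + A.2.2.2.2.2.1) ≤ N)
    {z : List W} {z' : List W'} (h : Same N z z') : holds A z ↔ holds A z' :=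
  ⟨holds_imp A hN h, holds_imp A hN h.symm⟩

end

/-- The data for the model theory. -/
noncomputable def mtData (a : ℕ → ℕ) (R : ℕ → Asg) (ha0 : a 0 = 3)
    (h0 : ∃ D n', R 0 = (D, n', [], Itn.plus))
    (hsc : ∀ x : ℕ, 2 ≤ x → ∃ i n D n', 2 ≤ a i ∧ q n ≤ x ∧ R i = (D, n', [], Itn.sc n x)) :
    MT K a where
  F := Fs
  fin := fun n => by
    have : (Fs n : Set K) ⊆ (Set.Iio (q n) : Set ℕ) := fun x hx => hx
    exact Set.Finite.subset (Set.finite_Iio (q n)) this
  mono := Fs_mono
  cov := fun x => ⟨ofK x, mem_Fs_self (ofK x)⟩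
  inf := inferInstanceAs (Infinite ℕ)
  two := K_add_self 1
  F0 := fun c hc => by
    have h : ofK c < 2 := by
      have h1 : ofK c < q 0 := hc
      have h2 : q 0 = 2 := by norm_num [q]
      rwa [h2] at h1
    interval_cases h3 : ofK c
    · left
      rw [← toK_zero, ← h3]; rfl
    · right
      rw [← toK_one, ← h3]; rfl
  R := fun i V _ _ l => holds (R i) l
  n := fun i => (R i).2.1 + ((R i).2.2.2.2.1 + (R i).2.2.2.2.2.1)
  inv := fun i V _ _ V' _ _ l l' hl hl' h => by
    refine holds_congr (R i) le_rfl ⟨hl.trans hl'.symm, fun c hc hF => ?_⟩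
    exact h c (hc.trans hl) hF
  a0 := ha0
  plus := fun V _ _ x y z => by
    obtain ⟨D, n', h0⟩ := h0
    have h1 : holds (R 0) [x, y, z] ↔ ∃ u v : V, [x, y, z] = [u, v, u + v] := by
      rw [h0, holds_nil, hI_plus]
    rw [h1, plus_shape, lin_cons, lin_cons, lin_cons, lin_nil, one_smul, one_smul, one_smul,
      add_zero, ← add_assoc]
    simp
  sc := fun c hc => by
    have hc2 : 2 ≤ ofK c := by
      by_contra h
      apply hc
      rw [mem_Fs]
      have h2 : q 0 = 2 := by norm_num [q]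
      omega
    obtain ⟨i, n, D, n', h1, h2, h3⟩ := hsc (ofK c) hc2
    refine ⟨i, a i - 2, n, by omega, ?_, ?_⟩
    · rw [mem_Fs]; exact not_lt.2 h2
    · intro V _ _ x y t ht
      rw [h3, holds_nil, hI_sc, toK_ofK]
      refine and_congr Iff.rfl ?_
      constructor
      · rintro ⟨u, s, hu⟩
        injection hu with e1 e2
        injection e2 with e2 e3
        subst e1
        exact e2
      · rintro rfl
        exact ⟨x, t, rfl⟩

/-- The model theoretic part for the structures `strM a R (Md i)`. -/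
theorem mt (a : ℕ → ℕ) (R : ℕ → Asg) (ha0 : a 0 = 3)
    (h0 : ∃ D n', R 0 = (D, n', [], Itn.plus))
    (hsc : ∀ x : ℕ, 2 ≤ x → ∃ i n D n', 2 ≤ a i ∧ q n ≤ x ∧ R i = (D, n', [], Itn.sc n x)) :
    ∃ T : (sig a).Theory, T.IsComplete ∧
      (Cardinal.aleph 1 : Cardinal.{0}).Categorical T ∧
      ¬ (Cardinal.aleph0 : Cardinal.{0}).Categorical T ∧
      (∀ i : ℕ∞, letI := strM a R (Md i); Countable (Md i) ∧ Md i ⊨ T) ∧
      (∀ (N : Type) [Nonempty N] [Countable N] [(sig a).Structure N], N ⊨ T →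
        ∃ i : ℕ∞, letI := strM a R (Md i); Nonempty (Md i ≃[sig a] N)) ∧
      (∀ i j : ℕ∞, (letI := strM a R (Md i); letI := strM a R (Md j);
        Nonempty (Md i ↪ₑ[sig a] Md j)) ↔ i ≤ j) :=
  HM.main (mtData a R ha0 h0 hsc)

end Pool.Agent.Work.MP_ed0a9a_lc.H
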