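import Mathlib
import Pool.Agent.Work.MP_ed0a9a_lc.H.Defs
import Pool.Agent.Work.MP_ed0a9a_lc.H.Mt

/-!
# Module `La`: linear combinations of tuples

PROOFS. `lin c z = (List.zipWith (fun a v => a • v) c z).sum`.  `lin_cons`, `lin_nil`: by `rfl`
/ `simp [lin]`.  `lin_append`: induction on `c`, `z` (same length), or
`List.zipWith_append`.  `lin_map`, `lin_smul_vec`, `lin_mul`, `lin_add`, `lin_zero`:
induction on the lists (`List.map`, `map_add`, `map_smul`, `smul_add`, `mul_smul`,
`add_smul`).  `lin_eq_sum`: induction, `Finset.sum_range_succ'`.  `isF_*`: `Fs n` is a subfield.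
`add_self_vec`: `x + x = (1 + 1) • x = 0 • x` with `K_add_self`.
-/

namespace Pool.Agent.Work.MP_ed0a9a_lc.H

variable {W W' : Type*} [AddCommGroup W] [Module K W] [AddCommGroup W'] [Module K W']

theorem lin_nil_right (c : List K) : lin c ([] : List W) = 0 := by
  simp [lin]

theorem lin_append (c c' : List K) (z z' : List W) (h : c.length = z.length) :
    lin (c ++ c') (z ++ z') = lin c z + lin c' z' := by
  unfold lin
  rw [List.zipWith_append h, List.sum_append]

theorem lin_map (f : W →ₗ[K] W') (c : List K) (z : List W) :
    lin c (z.map f) = f (lin c z) := by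
  induction c generalizing z with
  | nil => rw [lin_nil, lin_nil, map_zero]
  | cons a c ih =>
    cases z with
    | nil => rw [List.map_nil, lin_nil_right, lin_nil_right, map_zero]
    | cons v z => rw [List.map_cons, lin_cons, lin_cons, ih, map_add, map_smul]

theorem lin_smul_vec (a : K) (c : List K) (z : List W) :
    lin c (z.map fun v => a • v) = a • lin c z := by
  induction c generalizing z with
  | nil => rw [lin_nil, lin_nil, smul_zero]
  | cons b c ih =>
    cases z with
    | nil => rw [List.map_nil, lin_nil_right, smul_zero]
    | cons v z => rw [List.map_cons, lin_cons, lin_cons, ih, smul_add, smul_comm]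

theorem lin_mul (a : K) (c : List K) (z : List W) :
    lin (c.map fun x => a * x) z = a • lin c z := by
  induction c generalizing z with
  | nil => rw [List.map_nil, lin_nil, smul_zero]
  | cons b c ih =>
    cases z with
    | nil => rw [lin_nil_right, lin_nil_right, smul_zero]
    | cons v z => rw [List.map_cons, lin_cons, lin_cons, ih, smul_add, mul_smul]

theorem lin_add (c c' : List K) (z : List W) (h : c.length = z.length)
    (h' : c'.length = z.length) :
    lin (List.zipWith (fun x y => x + y) c c') z = lin c z + lin c' z := by
  induction z generalizing c c' with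
  | nil => rw [lin_nil_right, lin_nil_right, lin_nil_right, add_zero]
  | cons v z ih =>
    cases c with
    | nil => simp at h
    | cons a c =>
      cases c' with
      | nil => simp at h'
      | cons b c' =>
        rw [List.zipWith_cons_cons, lin_cons, lin_cons, lin_cons,
          ih c c' (by simpa using h) (by simpa using h'), add_smul]
        abel

theorem lin_zero (z : List W) (k : ℕ) : lin (List.replicate k 0) z = 0 := by
  induction k generalizing z with
  | zero => rw [List.replicate_zero, lin_nil]
  | succ k ih =>
    cases z with
    | nil => rw [lin_nil_right]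
    | cons v z => rw [List.replicate_succ, lin_cons, ih, zero_smul, add_zero]

theorem lin_eq_sum (c : List K) (z : List W) (m : ℕ) (hc : c.length = m) (hz : z.length = m) :
    lin c z = ∑ i ∈ Finset.range m, c.getD i 0 • z.getD i 0 := by
  induction m generalizing c z with
  | zero =>
    have : c = [] := List.length_eq_zero_iff.mp hc
    rw [this, lin_nil, Finset.range_zero, Finset.sum_empty]
  | succ m ih =>
    cases c with
    | nil => simp at hc
    | cons a c =>
      cases z with
      | nil => simp at hz
      | cons v z =>
        rw [lin_cons, Finset.sum_range_succ', ih c z (by simpa using hc) (by simpa using hz),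
          add_comm]
        simp only [List.getD_cons_succ, List.getD_cons_zero]

theorem add_self_vec (x : W) : x + x = 0 := by
  have h : x + x = ((1 : K) + 1) • x := by rw [add_smul, one_smul]
  rw [h, K_add_self, zero_smul]

theorem add_eq_zero_vec (x y : W) : x + y = 0 ↔ x = y := by
  constructor
  · intro h
    have h1 := add_self_vec y
    rw [← h1] at h
    exact add_right_cancel h
  · rintro rfl
    exact add_self_vec x

theorem isF_mono {n n' : ℕ} (h : n ≤ n') {c : List K} (hc : IsF n c) : IsF n' c := by
  intro x hx
  exact mem_Fs.mpr ((mem_Fs.mp (hc x hx)).trans_le (q_mono h))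

theorem isF_mul {n : ℕ} {a : K} (ha : a ∈ Fs n) {c : List K} (hc : IsF n c) :
    IsF n (c.map fun x => a * x) := by
  intro x hx
  obtain ⟨y, hy, rfl⟩ := List.mem_map.mp hx
  exact (Fs n).mul_mem ha (hc y hy)

theorem isF_add {n : ℕ} {c c' : List K} (hc : IsF n c) (hc' : IsF n c') :
    IsF n (List.zipWith (fun x y => x + y) c c') := by
  induction c generalizing c' with
  | nil => intro x hx; simp at hx
  | cons a c ih =>
    cases c' with
    | nil => intro x hx; simp at hx
    | cons b c' =>
      intro x hx
      rw [List.zipWith_cons_cons, List.mem_cons] at hx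
      rcases hx with rfl | hx
      · exact (Fs n).add_mem (hc a (List.mem_cons_self)) (hc' b (List.mem_cons_self))
      · exact ih (fun y hy => hc y (List.mem_cons_of_mem _ hy))
          (fun y hy => hc' y (List.mem_cons_of_mem _ hy)) x hx

theorem isF_append {n : ℕ} {c c' : List K} : IsF n (c ++ c') ↔ IsF n c ∧ IsF n c' := by
  unfold IsF
  constructor
  · intro h
    exact ⟨fun x hx => h x (List.mem_append_left _ hx), fun x hx => h x (List.mem_append_right _ hx)⟩
  · rintro ⟨h1, h2⟩ x hx
    rcases List.mem_append.mp hx with h | h
    · exact h1 x h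
    · exact h2 x h

theorem isF_cons {n : ℕ} {a : K} {c : List K} : IsF n (a :: c) ↔ a ∈ Fs n ∧ IsF n c := by
  unfold IsF
  exact List.forall_mem_cons

theorem isF_getD {n : ℕ} {c : List K} (hc : IsF n c) (i : ℕ) : c.getD i 0 ∈ Fs n := by
  by_cases h : i < c.length
  · rw [List.getD_eq_getElem _ _ h]
    exact hc _ (List.getElem_mem h)
  · rw [List.getD_eq_default _ _ (not_lt.1 h)]
    exact (Fs n).zero_mem

theorem isF_replicate_zero (n k : ℕ) : IsF n (List.replicate k 0) := by
  intro x hx
  rw [(List.mem_replicate.mp hx).2]
  exact (Fs n).zero_mem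

end Pool.Agent.Work.MP_ed0a9a_lc.H
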