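import Mathlib
import Pool.Agent.Work.MP_ed0a9a_lc.H.La

/-!
# Module `Lb`: tuples with the same relations

PROOFS.  `same_refl`, `same_symm`, `same_trans`: immediate.  `same_mono`: `isF_mono`.
`same_map`: `lin_map`, injectivity.  `same_smul`: `lin_smul_vec`, `smul_eq_zero`.
`same_pick`: `lin c (I.map (z.getD · 0)) = lin C z` where `C` (length `z.length`) has the entries
`C_j = ∑ of the c_s with I_s = j`, in `Fs n` (`Subfield.sum_mem`): by induction on `I`/`c`:
if `C` works for `(c, I)` then `C + a e_j` works for `(a :: c, j :: I)` (`lin_add`; the unit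
vector `e_j := (List.range L).map (fun s => if s = j then a else 0)`, `lin e_j z = a • z_j`
by `lin_eq_sum`).  State it as a private lemma: for all `c`, `I` with `c.length = I.length`
there is `C` with `IsF n C`, `C.length = L` and, for ALL modules and all `z` of length `L`,
`lin c (I.map ..) = lin C z` (or for both given lists `z`, `z'` at the same time).
`same_prefix`: for `c` of length `z.length` use `c ++ 0 … 0` (`lin_append`, `lin_zero`).
`same_tail` the same with `0 … 0 ++ c`.
`same_comb`: use `c ++ [1]` and `add_eq_zero_vec`; the lengths of `z`, `z'` agree.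
`same_eq_iff`: `same_pick` with `I = [i, j]`, relation `[1, 1]`, `add_eq_zero_vec`.
`same_spn`: from `same_comb`.
-/

namespace Pool.Agent.Work.MP_ed0a9a_lc.H

variable {W W' W'' : Type*} [AddCommGroup W] [Module K W] [AddCommGroup W'] [Module K W']
  [AddCommGroup W''] [Module K W'']

theorem same_refl (n : ℕ) (z : List W) : Same n z z :=
  ⟨rfl, fun _ _ _ => Iff.rfl⟩

theorem same_symm {n : ℕ} {z : List W} {z' : List W'} (h : Same n z z') : Same n z' z :=
  ⟨h.1.symm, fun c hc hF => (h.2 c (hc.trans h.1.symm) hF).symm⟩

theorem same_trans {n : ℕ} {z : List W} {z' : List W'} {z'' : List W''} (h : Same n z z')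
    (h' : Same n z' z'') : Same n z z'' :=
  ⟨h.1.trans h'.1, fun c hc hF => (h.2 c hc hF).trans (h'.2 c (hc.trans h.1) hF)⟩

theorem same_mono {n n' : ℕ} (hn : n ≤ n') {z : List W} {z' : List W'} (h : Same n' z z') :
    Same n z z' :=
  ⟨h.1, fun c hc hF => h.2 c hc (isF_mono hn hF)⟩

theorem same_map (n : ℕ) (f : W →ₗ[K] W') (hf : Function.Injective f) (z : List W) :
    Same n z (z.map f) := by
  refine ⟨(List.length_map _).symm, fun c _ _ => ?_⟩
  rw [lin_map]
  constructor
  · intro h
    rw [h, map_zero]
  · intro h
    apply hf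
    rw [h, map_zero]

theorem same_smul (n : ℕ) {a : K} (ha : a ≠ 0) (z : List W) :
    Same n z (z.map fun v => a • v) := by
  refine ⟨(List.length_map _).symm, fun c _ _ => ?_⟩
  rw [lin_smul_vec]
  constructor
  · intro h
    rw [h, smul_zero]
  · intro h
    exact (smul_eq_zero.1 h).resolve_left ha

private theorem lin_unit (a : K) (z : List W) (j : ℕ) (hj : j < z.length) :
    lin ((List.range z.length).map fun s => if s = j then a else 0) z = a • z.getD j 0 := by
  rw [lin_eq_sum _ z z.length (by simp) rfl, Finset.sum_eq_single j]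
  · have h : ((List.range z.length).map fun s => if s = j then a else (0 : K)).getD j 0 = a := by
      rw [List.getD_eq_getElem _ _ (by simpa using hj)]
      simp
    rw [h]
  · intro i hi hij
    rw [Finset.mem_range] at hi
    have h : ((List.range z.length).map fun s => if s = j then a else (0 : K)).getD i 0 = 0 := by
      rw [List.getD_eq_getElem _ _ (by simpa using hi)]
      simp [hij]
    rw [h, zero_smul]
  · intro h
    exact absurd (Finset.mem_range.2 hj) h

private theorem pick_aux {n : ℕ} {z : List W} {z' : List W'} (hl : z.length = z'.length) :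
    ∀ (c : List K) (I : List ℕ), c.length = I.length → (∀ j ∈ I, j < z.length) → IsF n c →
      ∃ C : List K, C.length = z.length ∧ IsF n C ∧
        lin c (I.map fun j => z.getD j 0) = lin C z ∧
        lin c (I.map fun j => z'.getD j 0) = lin C z' := by
  intro c
  induction c with
  | nil =>
    intro I _ _ _
    refine ⟨List.replicate z.length 0, by simp, isF_replicate_zero n _, ?_, ?_⟩
    · rw [lin_nil, lin_zero]
    · rw [lin_nil, lin_zero]
  | cons a c ih =>
    intro I hI hb hF
    cases I with
    | nil => simp at hI
    | cons j I =>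
      obtain ⟨ha, hc⟩ := isF_cons.1 hF
      obtain ⟨C, hC, hCF, e1, e2⟩ := ih I (by simpa using hI)
        (fun s hs => hb s (List.mem_cons_of_mem _ hs)) hc
      have hj : j < z.length := hb j List.mem_cons_self
      refine ⟨List.zipWith (fun x y => x + y)
        ((List.range z.length).map fun s => if s = j then a else 0) C, ?_, ?_, ?_, ?_⟩
      · rw [List.length_zipWith, List.length_map, List.length_range, hC, min_self]
      · apply isF_add _ hCF
        intro x hx
        obtain ⟨s, _, rfl⟩ := List.mem_map.1 hx
        split_ifs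
        · exact ha
        · exact (Fs n).zero_mem
      · rw [List.map_cons, lin_cons, e1, lin_add _ _ _ (by simp) hC, lin_unit a z j hj]
      · rw [List.map_cons, lin_cons, e2, lin_add _ _ _ (by simp [hl]) (hC.trans hl), hl,
          lin_unit a z' j (hl ▸ hj)]

/-- Sub-tuples (with repetitions) of tuples with the same relations. -/
theorem same_pick {n : ℕ} {z : List W} {z' : List W'} (h : Same n z z') (I : List ℕ)
    (hI : ∀ j ∈ I, j < z.length) :
    Same n (I.map fun j => z.getD j 0) (I.map fun j => z'.getD j 0) := by
  refine ⟨by simp, fun c hc hF => ?_⟩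
  obtain ⟨C, hC, hCF, e1, e2⟩ := pick_aux h.1 c I (by simpa using hc) hI hF
  rw [e1, e2]
  exact h.2 C hC hCF

theorem same_prefix {n : ℕ} {z x : List W} {z' x' : List W'} (hl : z.length = z'.length)
    (h : Same n (z ++ x) (z' ++ x')) : Same n z z' := by
  refine ⟨hl, fun c hc hF => ?_⟩
  have h1 := h.2 (c ++ List.replicate x.length 0) (by simp [hc])
    (isF_append.2 ⟨hF, isF_replicate_zero n _⟩)
  rw [lin_append _ _ _ _ hc, lin_append _ _ _ _ (hc.trans hl), lin_zero, lin_zero, add_zero,
    add_zero] at h1
  exact h1

theorem same_tail {n : ℕ} {z x : List W} {z' x' : List W'} (hl : z.length = z'.length)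
    (h : Same n (z ++ x) (z' ++ x')) : Same n x x' := by
  have hx : x.length = x'.length := by
    have := h.1
    rw [List.length_append, List.length_append, hl] at this
    exact Nat.add_left_cancel this
  refine ⟨hx, fun c hc hF => ?_⟩
  have h1 := h.2 (List.replicate z.length 0 ++ c) (by simp [hc])
    (isF_append.2 ⟨isF_replicate_zero n _, hF⟩)
  rw [lin_append _ _ _ _ (by simp), lin_append _ _ _ _ (by simp [hl]), lin_zero, lin_zero,
    zero_add, zero_add] at h1
  exact h1

theorem same_take {n : ℕ} {z : List W} {z' : List W'} (h : Same n z z') (k : ℕ) :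
    Same n (z.take k) (z'.take k) := by
  apply same_prefix (x := z.drop k) (x' := z'.drop k)
  · rw [List.length_take, List.length_take, h.1]
  · rw [List.take_append_drop, List.take_append_drop]
    exact h

private theorem comb_aux {n : ℕ} {z : List W} {x : W} (c : List K) (hc : c.length = z.length) :
    lin (c ++ [1]) (z ++ [x]) = 0 ↔ lin c z = x := by
  rw [lin_append _ _ _ _ hc, lin_cons, lin_nil, add_zero, one_smul, add_eq_zero_vec]

theorem same_comb {n : ℕ} {z : List W} {z' : List W'} {x : W} {x' : W'}
    (h : Same n (z ++ [x]) (z' ++ [x'])) (c : List K) (hc : c.length = z.length)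
    (hF : IsF n c) : lin c z = x ↔ lin c z' = x' := by
  have hl : z.length = z'.length := by
    have := h.1
    rw [List.length_append, List.length_append] at this
    simpa using this
  rw [← comb_aux (n := n) c hc, ← comb_aux (n := n) c (hc.trans hl)]
  apply h.2
  · simp [hc]
  · refine isF_append.2 ⟨hF, isF_cons.2 ⟨(Fs n).one_mem, ?_⟩⟩
    intro y hy
    simp at hy

theorem same_eq_iff {n : ℕ} {z : List W} {z' : List W'} (h : Same n z z') {i j : ℕ}
    (hi : i < z.length) (hj : j < z.length) :
    z.getD i 0 = z.getD j 0 ↔ z'.getD i 0 = z'.getD j 0 := by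
  have h1 := same_pick h [i, j] (by
    intro s hs
    simp only [List.mem_cons, List.not_mem_nil, or_false] at hs
    rcases hs with rfl | rfl
    · exact hi
    · exact hj)
  have h2 := h1.2 [1, 1] (by simp) (isF_cons.2 ⟨(Fs n).one_mem,
    isF_cons.2 ⟨(Fs n).one_mem, by intro y hy; simp at hy⟩⟩)
  simp only [List.map_cons, List.map_nil, lin_cons, lin_nil, one_smul, add_zero,
    add_eq_zero_vec] at h2
  exact h2

theorem same_spn {n : ℕ} {z : List W} {z' : List W'} {x : W} {x' : W'}
    (h : Same n (z ++ [x]) (z' ++ [x'])) : Spn n z x ↔ Spn n z' x' := by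
  have hl : z.length = z'.length := by
    have := h.1
    rw [List.length_append, List.length_append] at this
    simpa using this
  constructor
  · rintro ⟨c, hc, hF, e⟩
    exact ⟨c, hc.trans hl, hF, (same_comb h c hc hF).1 e⟩
  · rintro ⟨c, hc, hF, e⟩
    exact ⟨c, hc.trans hl.symm, hF, (same_comb h c (hc.trans hl.symm) hF).2 e⟩

end Pool.Agent.Work.MP_ed0a9a_lc.H
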