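import Mathlib
import Pool.Agent.Work.MP_ed0a9a_lc.H.Lb

/-!
# Module `Lc`: independent tuples

PROOFS.  `ind_same`, `ind_mono`: definitions (`isF_mono`).
`ind_sublist`: extend the coefficient list by zeros along `List.Sublist` (induction on the
sublist relation: a coefficient list `c'` for `z'` gives `c` for `z` with `lin c z = lin c' z'`,
`IsF n c` and every entry of `c'` is an entry of `c`).
`ind_nodup`: if `z_i = z_j`, `i < j`, the relation with `1` at `i` and `j` (char 2:
`add_self_vec`); or by `List.nodup_iff_sublist`: `[x, x]` is a sublist, contradiction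
with `ind_sublist` and the relation `[1, 1]`.  `ind_ne_zero`: `[x]` is a sublist, relation `[1]`.
`ind_append_iff`, `ind_cons_iff`: a relation `c ++ [a]` with `a ≠ 0` gives
`x = lin (c.map (a⁻¹ * ·)) z` (char 2), `inv_mem`; with `a = 0` a relation of `z`.
`ind_cover`: `x = lin (a ++ b) (z ++ D) = lin (a' ++ d) (z ++ D')`, so
`lin (a + a') z + lin b D + lin d D' = 0`, a relation of `z ++ D ++ D'`, so `b = 0`
(all entries), `x = lin a z`.
`ind_free`: relation of `z ++ D`: `Free` gives `d = 0`, then `Ind z` gives `c = 0`.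
`free_of_ind`: clear.  `free_append`: as usual.  `ind_mono_free`, `free_mono`: `isF_mono`.
`free_spn`: the span of `z` over `Fs n` with `Ind n (z ++ D)`: if `x` is in the span of
`z ++ D` and ... (see the statements).
-/

namespace Pool.Agent.Work.MP_ed0a9a_lc.H

variable {W W' : Type*} [AddCommGroup W] [Module K W] [AddCommGroup W'] [Module K W']

private theorem lin_all_zero {c : List K} (z : List W) (h : ∀ x ∈ c, x = 0) : lin c z = 0 := by
  rw [List.eq_replicate_iff.2 ⟨rfl, h⟩, lin_zero]

private theorem split_two (c : List K) (k m : ℕ) (h : c.length = k + m) :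
    ∃ a b : List K, c = a ++ b ∧ a.length = k ∧ b.length = m :=
  ⟨c.take k, c.drop k, (List.take_append_drop k c).symm, by
    rw [List.length_take, h]; omega, by rw [List.length_drop, h]; omega⟩

private theorem split_last (c : List K) (m : ℕ) (h : c.length = m + 1) :
    ∃ (c0 : List K) (a : K), c = c0 ++ [a] ∧ c0.length = m := by
  obtain ⟨a, b, rfl, ha, hb⟩ := split_two c m 1 h
  obtain ⟨y, rfl⟩ := List.length_eq_one_iff.1 hb
  exact ⟨a, y, rfl, ha⟩

private theorem lin_sing (a : K) (x : W) : lin [a] [x] = a • x := by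
  rw [lin_cons, lin_nil, add_zero]

private theorem isF_sing {n : ℕ} {a : K} (ha : a ∈ Fs n) : IsF n [a] := by
  intro y hy
  rw [List.mem_singleton] at hy
  rw [hy]
  exact ha

private theorem ext_sublist {n : ℕ} {z z' : List W} (hz : z'.Sublist z) :
    ∀ c' : List K, c'.length = z'.length → IsF n c' →
      ∃ c : List K, c.length = z.length ∧ IsF n c ∧ lin c z = lin c' z' ∧ ∀ x ∈ c', x ∈ c := by
  induction hz with
  | slnil =>
    intro c' hc' hF
    exact ⟨c', hc', hF, rfl, fun x hx => hx⟩
  | cons a _ ih =>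
    intro c' hc' hF
    obtain ⟨c, hc, hcF, e, hm⟩ := ih c' hc' hF
    refine ⟨0 :: c, by simp [hc], isF_cons.2 ⟨(Fs n).zero_mem, hcF⟩, ?_, fun x hx =>
      List.mem_cons_of_mem _ (hm x hx)⟩
    rw [lin_cons, zero_smul, zero_add, e]
  | cons_cons a _ ih =>
    intro c' hc' hF
    cases c' with
    | nil => simp at hc'
    | cons b c' =>
      obtain ⟨hb, hc'F⟩ := isF_cons.1 hF
      obtain ⟨c, hc, hcF, e, hm⟩ := ih c' (by simpa using hc') hc'F
      refine ⟨b :: c, by simp [hc], isF_cons.2 ⟨hb, hcF⟩, ?_, ?_⟩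
      · rw [lin_cons, lin_cons, e]
      · intro x hx
        rcases List.mem_cons.1 hx with rfl | hx
        · exact List.mem_cons_self
        · exact List.mem_cons_of_mem _ (hm x hx)

theorem ind_same {n : ℕ} {z : List W} {z' : List W'} (h : Same n z z') :
    Ind n z ↔ Ind n z' :=
  ⟨h.ind, (same_symm h).ind⟩

theorem ind_mono {n n' : ℕ} (hn : n ≤ n') {z : List W} (h : Ind n' z) : Ind n z :=
  fun c hc hF h0 => h c hc (isF_mono hn hF) h0

theorem ind_sublist {n : ℕ} {z z' : List W} (hz : z'.Sublist z) (h : Ind n z) : Ind n z' := by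
  intro c' hc' hF h0 x hx
  obtain ⟨c, hc, hcF, e, hm⟩ := ext_sublist hz c' hc' hF
  exact h c hc hcF (e.trans h0) x (hm x hx)

theorem ind_take {n : ℕ} {z : List W} (h : Ind n z) (k : ℕ) : Ind n (z.take k) :=
  ind_sublist (List.take_sublist k z) h

theorem ind_smul {n : ℕ} {a : K} (ha : a ≠ 0) {z : List W} :
    Ind n (z.map fun v => a • v) ↔ Ind n z :=
  (ind_same (same_smul n ha z)).symm

theorem ind_nodup {n : ℕ} {z : List W} (h : Ind n z) : z.Nodup := by
  rw [List.nodup_iff_sublist]
  intro x hx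
  have h1 := ind_sublist hx h [1, 1] rfl (isF_cons.2 ⟨(Fs n).one_mem, isF_sing (Fs n).one_mem⟩) (by
    rw [lin_cons, lin_sing, one_smul, add_self_vec]) 1 List.mem_cons_self
  exact one_ne_zero h1

theorem ind_ne_zero {n : ℕ} {z : List W} (h : Ind n z) {x : W} (hx : x ∈ z) : x ≠ 0 := by
  intro hx0
  have h1 := ind_sublist (List.singleton_sublist.2 hx) h [1] rfl (isF_sing (Fs n).one_mem) (by
    rw [lin_sing, one_smul, hx0]) 1 List.mem_cons_self
  exact one_ne_zero h1

theorem ind_nil (n : ℕ) : Ind n ([] : List W) := by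
  intro c hc _ _ x hx
  rw [List.length_eq_zero_iff.1 hc] at hx
  simp at hx

theorem ind_append_iff {n : ℕ} {z : List W} (h : Ind n z) (x : W) :
    Ind n (z ++ [x]) ↔ ¬ Spn n z x := by
  constructor
  · rintro hi ⟨c, hc, hF, e⟩
    have h1 := hi (c ++ [1]) (by simp [hc]) (isF_append.2 ⟨hF, isF_sing (Fs n).one_mem⟩) (by
      rw [lin_append _ _ _ _ hc, lin_sing, one_smul, e, add_self_vec]) 1 (by simp)
    exact one_ne_zero h1
  · intro hs c hc hF h0
    obtain ⟨c0, a, rfl, hc0⟩ := split_last c z.length (by simpa using hc)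
    obtain ⟨hF0, hFa⟩ := isF_append.1 hF
    have haF : a ∈ Fs n := hFa a List.mem_cons_self
    rw [lin_append _ _ _ _ hc0, lin_sing] at h0
    by_cases ha : a = 0
    · rw [ha, zero_smul, add_zero] at h0
      intro y hy
      rcases List.mem_append.1 hy with hy | hy
      · exact h c0 hc0 hF0 h0 y hy
      · rw [List.mem_singleton] at hy
        rw [hy, ha]
    · exfalso
      apply hs
      refine ⟨c0.map fun y => a⁻¹ * y, by simp [hc0], isF_mul ((Fs n).inv_mem haF) hF0, ?_⟩
      rw [lin_mul, (add_eq_zero_vec _ _).1 h0, smul_smul, inv_mul_cancel₀ ha, one_smul]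

theorem ind_cons_iff {n : ℕ} {z : List W} (h : Ind n z) (x : W) :
    Ind n (x :: z) ↔ ¬ Spn n z x := by
  constructor
  · rintro hi ⟨c, hc, hF, e⟩
    have h1 := hi (1 :: c) (by simp [hc]) (isF_cons.2 ⟨(Fs n).one_mem, hF⟩) (by
      rw [lin_cons, one_smul, e, add_self_vec]) 1 List.mem_cons_self
    exact one_ne_zero h1
  · intro hs c hc hF h0
    cases c with
    | nil => simp at hc
    | cons a c0 =>
      obtain ⟨haF, hF0⟩ := isF_cons.1 hF
      have hc0 : c0.length = z.length := by simpa using hc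
      rw [lin_cons] at h0
      by_cases ha : a = 0
      · rw [ha, zero_smul, zero_add] at h0
        intro y hy
        rcases List.mem_cons.1 hy with hy | hy
        · rw [hy, ha]
        · exact h c0 hc0 hF0 h0 y hy
      · exfalso
        apply hs
        refine ⟨c0.map fun y => a⁻¹ * y, by simp [hc0], isF_mul ((Fs n).inv_mem haF) hF0, ?_⟩
        rw [lin_mul, ← (add_eq_zero_vec _ _).1 h0, smul_smul, inv_mul_cancel₀ ha, one_smul]

theorem ind_cover {n : ℕ} {z D D' : List W} (h : Ind n (z ++ D ++ D')) {x : W}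
    (h1 : Spn n (z ++ D) x) (h2 : Spn n (z ++ D') x) : Spn n z x := by
  obtain ⟨c1, hc1, hF1, e1⟩ := h1
  obtain ⟨c2, hc2, hF2, e2⟩ := h2
  obtain ⟨a, b, rfl, ha, hb⟩ := split_two c1 z.length D.length (by simpa using hc1)
  obtain ⟨a', d, rfl, ha', hd⟩ := split_two c2 z.length D'.length (by simpa using hc2)
  obtain ⟨hFa, hFb⟩ := isF_append.1 hF1
  obtain ⟨hFa', hFd⟩ := isF_append.1 hF2
  rw [lin_append _ _ _ _ ha] at e1
  rw [lin_append _ _ _ _ ha'] at e2
  have hl : (List.zipWith (fun x y => x + y) a a').length = z.length := by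
    rw [List.length_zipWith, ha, ha', min_self]
  have key := h (List.zipWith (fun x y => x + y) a a' ++ b ++ d)
    (by simp only [List.length_append, hl, hb, hd])
    (isF_append.2 ⟨isF_append.2 ⟨isF_add hFa hFa', hFb⟩, hFd⟩) (by
      rw [lin_append _ _ _ _ (by simp only [List.length_append, hl, hb]),
        lin_append _ _ _ _ hl, lin_add _ _ _ ha ha']
      have e3 : lin a z + lin a' z + lin b D + lin d D' =
          (lin a z + lin b D) + (lin a' z + lin d D') := by abel
      rw [e3, e1, e2, add_self_vec])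
  have hb0 : ∀ y ∈ b, y = 0 := fun y hy => key y (by
    simp only [List.mem_append]
    exact Or.inl (Or.inr hy))
  refine ⟨a, ha, hFa, ?_⟩
  rw [lin_all_zero D hb0, add_zero] at e1
  exact e1

theorem ind_of_free {n : ℕ} {z D : List W} (h : Ind n z) (h' : Free n z D) :
    Ind n (z ++ D) := by
  intro c hc hF h0
  obtain ⟨a, b, rfl, ha, hb⟩ := split_two c z.length D.length (by simpa using hc)
  obtain ⟨hFa, hFb⟩ := isF_append.1 hF
  rw [lin_append _ _ _ _ ha] at h0
  have hb0 := h' a b ha hb hFa hFb h0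
  rw [lin_all_zero D hb0, add_zero] at h0
  have ha0 := h a ha hFa h0
  intro y hy
  rcases List.mem_append.1 hy with hy | hy
  · exact ha0 y hy
  · exact hb0 y hy

theorem free_mono {n n' : ℕ} (hn : n ≤ n') {z D : List W} (h : Free n' z D) : Free n z D :=
  fun c d hc hd hFc hFd h0 => h c d hc hd (isF_mono hn hFc) (isF_mono hn hFd) h0

/-- If `D ++ D'` is free over `z` then so are `D` and `D'`, and `D'` is free over `z ++ D`. -/
theorem free_split {n : ℕ} {z D D' : List W} (h : Free n z (D ++ D')) :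
    Free n z D ∧ Free n z D' ∧ Free n (z ++ D) D' := by
  refine ⟨?_, ?_, ?_⟩
  · intro c d hc hd hFc hFd h0 x hx
    refine h c (d ++ List.replicate D'.length 0) hc (by simp [hd]) hFc
      (isF_append.2 ⟨hFd, isF_replicate_zero n _⟩) ?_ x (List.mem_append_left _ hx)
    rw [lin_append _ _ _ _ hd, lin_zero, add_zero]
    exact h0
  · intro c d hc hd hFc hFd h0 x hx
    refine h c (List.replicate D.length 0 ++ d) hc (by simp [hd]) hFc
      (isF_append.2 ⟨isF_replicate_zero n _, hFd⟩) ?_ x (List.mem_append_right _ hx)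
    rw [lin_append _ _ _ _ (by simp), lin_zero, zero_add]
    exact h0
  · intro c d hc hd hFc hFd h0 x hx
    obtain ⟨a, b, rfl, ha, hb⟩ := split_two c z.length D.length (by simpa using hc)
    obtain ⟨hFa, hFb⟩ := isF_append.1 hFc
    refine h a (b ++ d) ha (by simp [hb, hd]) hFa (isF_append.2 ⟨hFb, hFd⟩) ?_ x
      (List.mem_append_right _ hx)
    rw [lin_append _ _ _ _ hb, ← add_assoc, ← lin_append _ _ _ _ ha]
    exact h0

theorem free_append {n : ℕ} {z D D' : List W} (h : Free n z D) (h' : Free n (z ++ D) D') :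
    Free n z (D ++ D') := by
  intro c d hc hd hFc hFd h0
  obtain ⟨b, e, rfl, hb, he⟩ := split_two d D.length D'.length (by simpa using hd)
  obtain ⟨hFb, hFe⟩ := isF_append.1 hFd
  rw [lin_append _ _ _ _ hb, ← add_assoc] at h0
  have he0 := h' (c ++ b) e (by simp [hc, hb]) he (isF_append.2 ⟨hFc, hFb⟩) hFe (by
    rw [lin_append _ _ _ _ hc]
    exact h0)
  rw [lin_all_zero D' he0, add_zero] at h0
  have hb0 := h c b hc hb hFc hFb h0
  intro y hy
  rcases List.mem_append.1 hy with hy | hy
  · exact hb0 y hy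
  · exact he0 y hy

theorem spn_of_mem {n : ℕ} {z : List W} {x : W} (hx : x ∈ z) : Spn n z x := by
  obtain ⟨c, hc, hF, e, -⟩ := ext_sublist (List.singleton_sublist.2 hx) [1] rfl
    (isF_sing (Fs n).one_mem)
  exact ⟨c, hc, hF, by rw [e, lin_sing, one_smul]⟩

theorem spn_append {n : ℕ} {z D : List W} {x : W} (hx : Spn n z x) : Spn n (z ++ D) x := by
  obtain ⟨c, hc, hF, e⟩ := hx
  refine ⟨c ++ List.replicate D.length 0, by simp [hc],
    isF_append.2 ⟨hF, isF_replicate_zero n _⟩, ?_⟩
  rw [lin_append _ _ _ _ hc, lin_zero, add_zero, e]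

theorem spn_map (n : ℕ) (f : W →ₗ[K] W') {z : List W} {x : W} (hx : Spn n z x) :
    Spn n (z.map f) (f x) := by
  obtain ⟨c, hc, hF, e⟩ := hx
  exact ⟨c, by simp [hc], hF, by rw [lin_map, e]⟩

end Pool.Agent.Work.MP_ed0a9a_lc.H
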