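import Mathlib
import Pool.Agent.Work.MP_ed0a9a_lc.H.Lc

/-!
# Module `Le`: the number of relations

PROOFS.  Let `C n L = {c : List K | c.length = L ∧ IsF n c}`; it is finite with `q n ^ L`
elements (`ncard_isF`: induction on `L`, or the image of `Fintype.piFinset`/`List.Vector`;
`Fs n` has `q n` elements: it is in bijection with `{x : ℕ | x < q n}` by `ofK`).
`nrel n z` is the `ncard` of a subset of `C n z.length`.
`nrel_same`: the two sets are equal (same length, same relations).
`nrel_pos`: the zero list.  `nrel_eq_one`: the set is `{0 … 0}` iff `Ind` (`Set.ncard_eq_one`;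
a list all of whose entries are `0` is `List.replicate`).
`nrel_le`: subset of `C`.
`nrel_append_free`: `c ↦ c ++ 0 … 0` is a bijection between the relations of `z` and of `z ++ D`
(`Free` says that the last part of a relation is zero).
`nrel_ind_append`: if `y` is not in the span of `b` then `Ind n (b ++ [y])`, so `1`.
Otherwise `y = lin c b`, `c` unique, and the relations of `b ++ [y]` are the lists
`(c.map (a * ·)) ++ [a]`, `a ∈ Fs n` (char 2): `q n` of them.
`exists_comb_of_nrel`: if no relation of `z ++ [x]` has a non-zero last entry, then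
`c ↦ c ++ [0]` is a bijection of the relations of `z` and of `z ++ [x]`, contradiction.
So there is a relation `c ++ [a]`, `a ≠ 0`, `x = lin (c.map (a⁻¹ * ·)) z` (char 2).
`nrel_spn_le`: the map `c ↦ lin c z` from `C n z.length` (with `q n ^ z.length` elements) to `W`:
every nonempty fibre has exactly `nrel n z` elements (translate by a fixed element of the fibre,
`lin_add`, char 2), and its image contains the `q n ^ v.length` different vectors
`lin d v`, `d ∈ C n v.length` (different since `Ind n v`; in the image since every entry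
of `v` is in the span of `z`, so is every combination).
-/

namespace Pool.Agent.Work.MP_ed0a9a_lc.H

variable {W W' : Type*} [AddCommGroup W] [Module K W] [AddCommGroup W'] [Module K W']

private theorem lin_all_zero {c : List K} (z : List W) (h : ∀ x ∈ c, x = 0) : lin c z = 0 := by
  rw [List.eq_replicate_iff.2 ⟨rfl, h⟩, lin_zero]

private theorem split_last (c : List K) (m : ℕ) (h : c.length = m + 1) :
    ∃ (c0 : List K) (a : K), c = c0 ++ [a] ∧ c0.length = m := by
  have h1 : (c.drop m).length = 1 := by rw [List.length_drop, h]; omega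
  obtain ⟨y, hy⟩ := List.length_eq_one_iff.1 h1
  refine ⟨c.take m, y, ?_, ?_⟩
  · rw [← hy, List.take_append_drop]
  · rw [List.length_take, h]
    omega

private theorem lin_sing (a : K) (x : W) : lin [a] [x] = a • x := by
  rw [lin_cons, lin_nil, add_zero]

private theorem isF_eq_image (n L : ℕ) : {c : List K | c.length = L ∧ IsF n c} =
    (List.map (fun x : Fs n => (x : K))) '' {l : List (Fs n) | l.length = L} := by
  ext c
  constructor
  · rintro ⟨hc, hF⟩
    refine ⟨c.attach.map (fun x => (⟨x.1, hF x.1 x.2⟩ : Fs n)), ?_, ?_⟩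
    · show (c.attach.map _).length = L
      rw [List.length_map, List.length_attach, hc]
    · rw [List.map_map]
      exact c.attach_map_subtype_val
  · rintro ⟨l, hl, rfl⟩
    refine ⟨by rw [List.length_map]; exact hl, ?_⟩
    intro x hx
    obtain ⟨y, -, rfl⟩ := List.mem_map.1 hx
    exact y.2

private theorem map_inj (n : ℕ) :
    Function.Injective (List.map (fun x : Fs n => (x : K))) :=
  List.map_injective_iff.2 Subtype.val_injective

private instance finFs (n : ℕ) : Finite (Fs n) := by
  have : (Fs n : Set K) ⊆ (Set.Iio (q n) : Set ℕ) := fun x hx => hx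
  exact Set.Finite.subset (Set.finite_Iio (q n)) this

private theorem card_Fs (n : ℕ) : Nat.card (Fs n) = q n := by
  have e : Fs n ≃ Fin (q n) :=
    { toFun := fun x => ⟨ofK x.1, x.2⟩
      invFun := fun i => ⟨toK i.1, i.2⟩
      left_inv := fun x => rfl
      right_inv := fun i => rfl }
  rw [Nat.card_congr e, Nat.card_fin]

theorem finite_isF (n L : ℕ) : {c : List K | c.length = L ∧ IsF n c}.Finite := by
  rw [isF_eq_image]
  exact (List.finite_length_eq (Fs n) L).image _

theorem ncard_isF (n L : ℕ) : {c : List K | c.length = L ∧ IsF n c}.ncard = q n ^ L := by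
  rw [isF_eq_image, Set.ncard_image_of_injective _ (map_inj n), ← card_Fs n]
  have h : Nat.card (List.Vector (Fs n) L) = Nat.card (Fs n) ^ L := by
    have := Fintype.ofFinite (Fs n)
    rw [Nat.card_eq_fintype_card, Nat.card_eq_fintype_card, card_vector]
  exact h

theorem nrel_same {n : ℕ} {z : List W} {z' : List W'} (h : Same n z z') :
    nrel n z = nrel n z' :=
  h.nrel_eq

private theorem rel_sub (n : ℕ) (z : List W) :
    {c : List K | c.length = z.length ∧ IsF n c ∧ lin c z = 0} ⊆
      {c : List K | c.length = z.length ∧ IsF n c} :=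
  fun _ hc => ⟨hc.1, hc.2.1⟩

private theorem rel_fin (n : ℕ) (z : List W) :
    {c : List K | c.length = z.length ∧ IsF n c ∧ lin c z = 0}.Finite :=
  (finite_isF n z.length).subset (rel_sub n z)

theorem nrel_pos (n : ℕ) (z : List W) : 0 < nrel n z :=
  (Set.ncard_pos (rel_fin n z)).2 ⟨List.replicate z.length 0, by simp, isF_replicate_zero n _,
    lin_zero z _⟩

theorem nrel_eq_one (n : ℕ) (z : List W) : nrel n z = 1 ↔ Ind n z := by
  have h0 : List.replicate z.length (0 : K) ∈
      {c : List K | c.length = z.length ∧ IsF n c ∧ lin c z = 0} :=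
    ⟨by simp, isF_replicate_zero n _, lin_zero z _⟩
  constructor
  · intro h c hc hF hl
    obtain ⟨a, ha⟩ := Set.ncard_eq_one.1 h
    have h1 : c ∈ ({a} : Set (List K)) := ha ▸ ⟨hc, hF, hl⟩
    have h2 : List.replicate z.length (0 : K) ∈ ({a} : Set (List K)) := ha ▸ h0
    rw [Set.mem_singleton_iff] at h1 h2
    intro x hx
    rw [h1, ← h2] at hx
    exact (List.mem_replicate.1 hx).2
  · intro h
    refine Set.ncard_eq_one.2 ⟨List.replicate z.length 0, ?_⟩
    ext c
    rw [Set.mem_singleton_iff]
    constructor
    · rintro ⟨hc, hF, hl⟩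
      exact List.eq_replicate_iff.2 ⟨hc, h c hc hF hl⟩
    · rintro rfl
      exact h0

theorem nrel_le (n : ℕ) (z : List W) : nrel n z ≤ q n ^ z.length := by
  rw [← ncard_isF n z.length]
  exact Set.ncard_le_ncard (rel_sub n z) (finite_isF n z.length)

theorem nrel_append_free {n : ℕ} {z D : List W} (h : Free n z D) :
    nrel n (z ++ D) = nrel n z := by
  have hinj : Function.Injective (fun c : List K => c ++ List.replicate D.length (0 : K)) :=
    List.append_left_injective _
  have e : {c : List K | c.length = (z ++ D).length ∧ IsF n c ∧ lin c (z ++ D) = 0} =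
      (fun c : List K => c ++ List.replicate D.length (0 : K)) ''
        {c : List K | c.length = z.length ∧ IsF n c ∧ lin c z = 0} := by
    ext c
    constructor
    · rintro ⟨hc, hF, hl⟩
      have hc' : c.length = z.length + D.length := by rw [hc, List.length_append]
      have ht : (c.take z.length).length = z.length := by rw [List.length_take]; omega
      have hd : (c.drop z.length).length = D.length := by rw [List.length_drop]; omega
      have hs : c = c.take z.length ++ c.drop z.length := (List.take_append_drop _ _).symm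
      have hF' := hF
      rw [hs] at hF' hl
      obtain ⟨hFt, hFd⟩ := isF_append.1 hF'
      rw [lin_append _ _ _ _ ht] at hl
      have h0 := h _ _ ht hd hFt hFd hl
      rw [lin_all_zero D h0, add_zero] at hl
      refine ⟨c.take z.length, ⟨ht, hFt, hl⟩, ?_⟩
      show c.take z.length ++ List.replicate D.length 0 = c
      rw [← List.eq_replicate_iff.2 ⟨hd, h0⟩, List.take_append_drop]
    · rintro ⟨c, ⟨hc, hF, hl⟩, rfl⟩
      refine ⟨by simp [hc], isF_append.2 ⟨hF, isF_replicate_zero n _⟩, ?_⟩
      show lin (c ++ List.replicate D.length 0) (z ++ D) = 0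
      rw [lin_append _ _ _ _ hc, lin_zero, add_zero, hl]
  unfold nrel
  rw [e, Set.ncard_image_of_injective _ hinj]

private theorem K_add_eq_zero (x y : K) : x + y = 0 ↔ x = y := by
  constructor
  · intro h
    have := add_eq_zero_iff_eq_neg.1 h
    rw [this, K_neg]
  · rintro rfl
    exact K_add_self x

private theorem eq_of_lin_eq {n : ℕ} {b : List W} (h : Ind n b) {c d : List K}
    (hc : c.length = b.length) (hd : d.length = b.length) (hFc : IsF n c) (hFd : IsF n d)
    (he : lin c b = lin d b) : c = d := by
  have h0 := h (List.zipWith (fun x y => x + y) c d)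
    (by rw [List.length_zipWith, hc, hd, min_self]) (isF_add hFc hFd) (by
      rw [lin_add _ _ _ hc hd, he, add_self_vec])
  apply List.ext_getElem (hc.trans hd.symm)
  intro i h1 h2
  have h3 : i < (List.zipWith (fun x y => x + y) c d).length := by
    rw [List.length_zipWith]
    omega
  have h4 := h0 _ (List.getElem_mem h3)
  rw [List.getElem_zipWith] at h4
  exact (K_add_eq_zero _ _).1 h4

theorem nrel_ind_append {n : ℕ} {b : List W} (h : Ind n b) (y : W) :
    nrel n (b ++ [y]) = 1 ∨ nrel n (b ++ [y]) = q n := by
  by_cases hs : Spn n b y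
  · right
    obtain ⟨c, hc, hF, hy⟩ := hs
    have hinj : Function.Injective (fun a : K => (c.map fun x => a * x) ++ [a]) := by
      intro a a' haa
      have h1 : ((c.map fun x => a * x) ++ [a]).getLast? =
          ((c.map fun x => a' * x) ++ [a']).getLast? := congrArg List.getLast? haa
      rw [List.getLast?_concat, List.getLast?_concat] at h1
      exact Option.some.inj h1
    have e : {c' : List K | c'.length = (b ++ [y]).length ∧ IsF n c' ∧ lin c' (b ++ [y]) = 0} =
        (fun a : K => (c.map fun x => a * x) ++ [a]) '' (Fs n : Set K) := by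
      ext c'
      constructor
      · rintro ⟨hc', hF', hl⟩
        obtain ⟨c0, a, rfl, hc0⟩ := split_last c' b.length (by simpa using hc')
        obtain ⟨hF0, hFa⟩ := isF_append.1 hF'
        have haF : a ∈ Fs n := hFa a List.mem_cons_self
        rw [lin_append _ _ _ _ hc0, lin_sing, add_eq_zero_vec, ← hy, ← lin_mul] at hl
        refine ⟨a, haF, ?_⟩
        show (c.map fun x => a * x) ++ [a] = c0 ++ [a]
        rw [eq_of_lin_eq h hc0 (by simp [hc]) hF0 (isF_mul haF hF) hl]
      · rintro ⟨a, ha, rfl⟩
        refine ⟨by simp [hc], isF_append.2 ⟨isF_mul ha hF, ?_⟩, ?_⟩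
        · intro x hx
          rw [List.mem_singleton] at hx
          rw [hx]
          exact ha
        · show lin ((c.map fun x => a * x) ++ [a]) (b ++ [y]) = 0
          rw [lin_append _ _ _ _ (by simp [hc]), lin_sing, lin_mul, hy, add_self_vec]
    unfold nrel
    rw [e, Set.ncard_image_of_injective _ hinj, ← card_Fs n]
    rfl
  · left
    rw [nrel_eq_one, ind_append_iff h]
    exact hs

theorem exists_comb_of_nrel {n : ℕ} {z : List W} {x : W}
    (h : nrel n z < nrel n (z ++ [x])) : Spn n z x := by
  by_contra hs
  apply absurd h (not_lt.2 _)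
  have hsub : {c : List K | c.length = (z ++ [x]).length ∧ IsF n c ∧ lin c (z ++ [x]) = 0} ⊆
      (fun c : List K => c ++ [0]) ''
        {c : List K | c.length = z.length ∧ IsF n c ∧ lin c z = 0} := by
    rintro c' ⟨hc', hF', hl⟩
    obtain ⟨c0, a, rfl, hc0⟩ := split_last c' z.length (by simpa using hc')
    obtain ⟨hF0, hFa⟩ := isF_append.1 hF'
    have haF : a ∈ Fs n := hFa a List.mem_cons_self
    rw [lin_append _ _ _ _ hc0, lin_sing] at hl
    by_cases ha : a = 0
    · subst ha
      rw [zero_smul, add_zero] at hl
      exact ⟨c0, ⟨hc0, hF0, hl⟩, rfl⟩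
    · exfalso
      apply hs
      refine ⟨c0.map fun y => a⁻¹ * y, by simp [hc0], isF_mul ((Fs n).inv_mem haF) hF0, ?_⟩
      rw [lin_mul, (add_eq_zero_vec _ _).1 hl, smul_smul, inv_mul_cancel₀ ha, one_smul]
  exact (Set.ncard_le_ncard hsub ((rel_fin n z).image _)).trans
    (Set.ncard_image_le (rel_fin n z))

private theorem comb_closed {n : ℕ} {z : List W} : ∀ (v : List W), (∀ x ∈ v, Spn n z x) →
    ∀ d : List K, d.length = v.length → IsF n d →
      ∃ c : List K, c.length = z.length ∧ IsF n c ∧ lin c z = lin d v := by
  intro v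
  induction v with
  | nil =>
    intro _ d _ _
    exact ⟨List.replicate z.length 0, by simp, isF_replicate_zero n _, by
      rw [lin_zero, lin_nil_right]⟩
  | cons x v ih =>
    intro hs d hd hF
    cases d with
    | nil => simp at hd
    | cons a d =>
      obtain ⟨ha, hF'⟩ := isF_cons.1 hF
      obtain ⟨c, hc, hcF, e⟩ := ih (fun y hy => hs y (List.mem_cons_of_mem _ hy)) d
        (by simpa using hd) hF'
      obtain ⟨c', hc', hcF', e'⟩ := hs x List.mem_cons_self
      have hl : (c'.map fun y => a * y).length = z.length := by simp [hc']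
      refine ⟨List.zipWith (fun x y => x + y) (c'.map fun y => a * y) c, ?_,
        isF_add (isF_mul ha hcF') hcF, ?_⟩
      · rw [List.length_zipWith, hl, hc, min_self]
      · rw [lin_add _ _ _ hl hc, lin_mul, e', e, lin_cons]

theorem nrel_spn_le {n : ℕ} {z v : List W} (hv : Ind n v) (hs : ∀ x ∈ v, Spn n z x) :
    nrel n z * q n ^ v.length ≤ q n ^ z.length := by
  classical
  have hex : ∀ d : List K, ∃ c : List K, d.length = v.length → IsF n d →
      c.length = z.length ∧ IsF n c ∧ lin c z = lin d v := by
    intro d
    by_cases h : d.length = v.length ∧ IsF n d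
    · obtain ⟨c, hc⟩ := comb_closed v hs d h.1 h.2
      exact ⟨c, fun _ _ => hc⟩
    · exact ⟨[], fun h1 h2 => absurd ⟨h1, h2⟩ h⟩
  choose g hg using hex
  rw [← ncard_isF n v.length, ← ncard_isF n z.length]
  unfold nrel
  rw [← Set.ncard_prod]
  refine Set.ncard_le_ncard_of_injOn
    (fun p : List K × List K => List.zipWith (fun x y => x + y) (g p.2) p.1) ?_ ?_
    (finite_isF n z.length)
  · rintro ⟨r, d⟩ ⟨⟨hr, hrF, -⟩, ⟨hd, hdF⟩⟩
    obtain ⟨h1, h2, -⟩ := hg d hd hdF
    refine ⟨?_, isF_add h2 hrF⟩
    show (List.zipWith (fun x y => x + y) (g d) r).length = z.length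
    rw [List.length_zipWith, h1]
    have hr' : r.length = z.length := hr
    rw [hr', min_self]
  · rintro ⟨r, d⟩ ⟨⟨hr, hrF, hr0⟩, ⟨hd, hdF⟩⟩ ⟨r', d'⟩ ⟨⟨hr', hrF', hr0'⟩, ⟨hd', hdF'⟩⟩ he
    have hr1 : r.length = z.length := hr
    have hr1' : r'.length = z.length := hr'
    have hr2 : lin r z = 0 := hr0
    have hr2' : lin r' z = 0 := hr0'
    have hd1 : d.length = v.length := hd
    have hd1' : d'.length = v.length := hd'
    obtain ⟨h1, h2, h3⟩ := hg d hd hdF
    obtain ⟨h1', h2', h3'⟩ := hg d' hd' hdF'
    have he' : List.zipWith (fun x y => x + y) (g d) r =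
        List.zipWith (fun x y => x + y) (g d') r' := he
    have e1 : lin (List.zipWith (fun x y => x + y) (g d) r) z =
        lin (List.zipWith (fun x y => x + y) (g d') r') z := congrArg (fun c => lin c z) he'
    rw [lin_add _ _ _ h1 hr1, lin_add _ _ _ h1' hr1', hr2, hr2', add_zero, add_zero, h3,
      h3'] at e1
    have hdd : d = d' := eq_of_lin_eq hv hd1 hd1' hdF hdF' e1
    subst hdd
    have hrr : r = r' := by
      apply List.ext_getElem (hr1.trans hr1'.symm)
      intro i hi hi'
      have hgi : i < (g d).length := by rw [h1, ← hr1]; exact hi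
      have k1 : i < (List.zipWith (fun x y => x + y) (g d) r).length := by
        rw [List.length_zipWith]; omega
      have k2 : i < (List.zipWith (fun x y => x + y) (g d) r').length := by
        rw [List.length_zipWith]; omega
      have e2 : (List.zipWith (fun x y => x + y) (g d) r)[i] =
          (List.zipWith (fun x y => x + y) (g d) r')[i] := by
        simp only [he']
      rw [List.getElem_zipWith, List.getElem_zipWith] at e2
      exact add_left_cancel e2
    rw [hrr]

end Pool.Agent.Work.MP_ed0a9a_lc.H
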