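import Mathlib
import Pool.Agent.Work.MP_ed0a9a_lc.H.Lc
import Pool.Agent.Work.MP_ed0a9a_lc.H.Le

/-!
# Module `Ld`: invariance of the interpretations

PROOFS.  Unfold `hI`.
`hI_plus_same`: `z = [u, v, u + v]` iff `z.length = 3` and `lin [1, 1, 1] z = 0`
(`add_eq_zero_vec`); `IsF 0 [1, 1, 1]` (`one_mem`), `same_mono`.
`hI_ind_same`: `ind_same`, `same_mono`.
`hI_sc_same`: `z = u :: v :: t` with `v = a • u` iff the relation `[a, 1, 0, …, 0]` holds
(lengths agree; `a ∈ Fs N` since `a < q N`).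
`hI_rk_same`: `nrel_same` (module `Le`) with `same_take`, `same_mono`.
`hI_map`: each part: `ind_same` with `same_map`; `u ↦ f u`; conversely if
`z.map f = u' :: (a • u') :: t'` then `z = u :: v :: t`, `f v = a • f u = f (a • u)`;
`nrel_same` with `same_map`, `List.map_take`.
`holds_map`: `same_map`, `same_trans`, `same_symm`, `hI_map`.
`holds_same`: `same_trans`, `same_symm`, `same_mono` for the patterns.
`holds_nil_pats`: definition.
-/

namespace Pool.Agent.Work.MP_ed0a9a_lc.H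

variable {W W' : Type*} [AddCommGroup W] [Module K W] [AddCommGroup W'] [Module K W']

theorem hI_plus_same {N : ℕ} {z : List W} {z' : List W'} (h : Same N z z') :
    hI Itn.plus z ↔ hI Itn.plus z' :=
  ⟨hI_imp Itn.plus (Nat.zero_le N) h, hI_imp Itn.plus (Nat.zero_le N) (same_symm h)⟩

theorem hI_ind_iff {n : ℕ} {z : List W} : hI (Itn.ind n) z ↔ Ind n z :=
  hI_ind n z

theorem hI_sc_iff {n a : ℕ} {z : List W} :
    hI (Itn.sc n a) z ↔ Ind n z ∧ ∃ (u : W) (t : List W), z = u :: (toK a • u) :: t :=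
  hI_sc n a z

theorem hI_rk_iff {n n' c lo hi : ℕ} {z : List W} :
    hI (Itn.rk n n' c lo hi) z ↔ Ind n z ∧ q n' ^ lo ≤ nrel n' (z.take c) ∧
      nrel n' (z.take c) ≤ q n' ^ hi :=
  hI_rk n n' c lo hi z

theorem hI_plus_iff {z : List W} : hI Itn.plus z ↔ ∃ u v : W, z = [u, v, u + v] :=
  hI_plus z

theorem hI_ind_same {n N : ℕ} (hn : n ≤ N) {z : List W} {z' : List W'} (h : Same N z z') :
    hI (Itn.ind n) z ↔ hI (Itn.ind n) z' := by
  rw [hI_ind_iff, hI_ind_iff]
  exact ind_same (same_mono hn h)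

private theorem sc_same_aux {a N : ℕ} (ha : a < q N) {z : List W} {z' : List W'}
    (h : Same N z z') (hz : ∃ (u : W) (t : List W), z = u :: (toK a • u) :: t) :
    ∃ (u : W') (t : List W'), z' = u :: (toK a • u) :: t := by
  rw [sc_shape] at hz ⊢
  rw [← h.1]
  refine ⟨hz.1, ?_⟩
  have hl : 2 ≤ z.length := hz.1
  refine (h.2 _ ?_ ?_).1 hz.2
  · simp only [List.length_cons, List.length_replicate]
    omega
  · exact isF_cons.2 ⟨mem_Fs.2 (by rw [ofK_toK]; exact ha),
      isF_cons.2 ⟨(Fs N).one_mem, isF_replicate_zero N _⟩⟩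

theorem hI_sc_same {n a N : ℕ} (hn : n ≤ N) (ha : a < q N) {z : List W} {z' : List W'}
    (h : Same N z z') : hI (Itn.sc n a) z ↔ hI (Itn.sc n a) z' := by
  rw [hI_sc_iff, hI_sc_iff]
  exact and_congr (ind_same (same_mono hn h))
    ⟨sc_same_aux ha h, sc_same_aux ha (same_symm h)⟩

theorem hI_rk_same {n n' c lo hi N : ℕ} (hn : n ≤ N) (hn' : n' ≤ N) {z : List W}
    {z' : List W'} (h : Same N z z') :
    hI (Itn.rk n n' c lo hi) z ↔ hI (Itn.rk n n' c lo hi) z' := by
  rw [hI_rk_iff, hI_rk_iff, ind_same (same_mono hn h), (same_take (same_mono hn' h) c).nrel_eq]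

theorem hI_map (f : W →ₗ[K] W') (hf : Function.Injective f) (I : Itn) (z : List W) :
    hI I (z.map f) ↔ hI I z :=
  ⟨hI_imp I le_rfl (same_symm (same_map _ f hf z)), hI_imp I le_rfl (same_map _ f hf z)⟩

theorem holds_map (f : W →ₗ[K] W') (hf : Function.Injective f) (A : Asg) (z : List W) :
    holds A (z.map f) ↔ holds A z :=
  holds_congr A le_rfl (same_symm (same_map _ f hf z))

private theorem holds_same_aux {A : Asg} {N : ℕ} (hA : A.2.1 ≤ N) {z : List W} {z' : List W'}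
    (h : Same N z z') (hI' : hI A.2.2.2 z → hI A.2.2.2 z') (hz : holds A z) : holds A z' := by
  have h1 : Same A.2.1 z z' := same_mono hA h
  rcases hz with ⟨p, hp, hs, hb⟩ | ⟨hp, hz⟩
  · exact Or.inl ⟨p, hp, same_trans hs h1, hb⟩
  · exact Or.inr ⟨fun p hpm hs => hp p hpm (same_trans hs (same_symm h1)), hI' hz⟩

theorem holds_same {A : Asg} {N : ℕ} (hA : A.2.1 ≤ N) {z : List W} {z' : List W'}
    (h : Same N z z') (hI' : hI A.2.2.2 z ↔ hI A.2.2.2 z') : holds A z ↔ holds A z' :=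
  ⟨holds_same_aux hA h hI'.1, holds_same_aux hA (same_symm h) hI'.2⟩

theorem holds_nil_pats (D n' : ℕ) (I : Itn) (z : List W) :
    holds (D, n', [], I) z ↔ hI I z :=
  holds_nil D n' I z

end Pool.Agent.Work.MP_ed0a9a_lc.H
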