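import Mathlib
import Pool.Agent.Work.MP_ed0a9a_lc.H.Mb
import Pool.Agent.Work.MP_ed0a9a_lc.H.Ld

/-!
# Module `Sa`: invariants of the interpretations

`AInv P t i`: with `A = asg P t i`, `D = A.1`:
(a) `D ≤ top (st P t)`; (b) the truth values only depend on the `F_n`-relations,
`n = kapA (st P t) D` the field index of level `D`; (c) if `D ≥ 1` then true tuples of length `ar i`
are independent over the field of level `D - 1`; (d) if `D ≥ 1` then `i ≠ 0`, `syS i < t` and
`D ≤ syS i + 1`.

PROOF of `ainv` by induction on `t`, following the definition of `asg`.  `t = 0`: `D = 0`; (b) by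
`holds_nil_pats`, `hI_plus_same`, `hI_none`.  Step, `m = lv P t`, `N = (evn P t (st P t)).1`,
`kapA (st P (t+1)) (m + 1) = N` (`kapA_succ_new`), `kapA (st P (t+1)) j = kapA (st P t) j` for
`j ≤ m`, `top (st P (t + 1)) = m + 1`:
* `i = 0`: `D = 0`, plus.
* `syS i = t`: `crt`: kind 0: `D = m`, `ind` with index `kapA (st P t) m` (`hI_ind_same` with equality); (c):
  independent over level `m`, so over level `m - 1` (`ind_mono`, `kapA_le`), (d) `m ≤ t` (`lv_le`);
  kind 1: `D = m + 1`, `hI_sc_same` with `p < q N`, `kapA_lt_evn`; (c) `Ind` over level `m`; or `none` with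
  `D = 0`; kind `≥ 2`: none.
* `t < syS i`: none, `D = 0`.
* `A.1 ≤ m`: unchanged; (a) `D ≤ m`; (b) same field index; (c) `D - 1 ≤ m`.
* otherwise `D' = m + 1`, `n' = N`: (b) `holds_same` with `A.2.1 = N`, and `itnN` is `rk n_m N ..` or `none`:
  `hI_rk_same` with `n_m < N` (`kapA_lt_evn`).  (c): if `holds` then either some pattern of
  `patN` with value `true` has the same `N`-relations: the pattern is
  `(nm G_β I).map sem` with `I ∈ cl .. (ar i)`, `evA A (nm P_β I) = true`, so by (c) for `A` (and
  `D > m`, `ind_mono`, `kapA_le`) `(nm P_β I).map sem` is independent over level `m`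
  (`evA_iff`, length `ar i`), hence `(nm G_β I).map sem` too (`GoodEv.same`, `same_pick`,
  `map_sem_nm`-style rewriting, `ind_same`), hence `z` (`ind_same` with `same_mono`).  Or
  `hI (itnN ..) z`: `rk`: `Ind` over level `m`.  (d): `m + 1 ≤ D ≤ syS i + 1`.
`scal_inv`: from (b) with `same_smul`.
-/

namespace Pool.Agent.Work.MP_ed0a9a_lc.H

/-- Invariants of the interpretation of the symbol `i` at stage `t`. -/
structure AInv (P : Par) (t i : ℕ) : Prop where
  le : (asg P t i).1 ≤ top (st P t)
  inv : InvS (kapA (st P t) (asg P t i).1) (asg P t i)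
  ind : 1 ≤ (asg P t i).1 → ∀ (W : Type) [AddCommGroup W] [Module K W] (z : List W),
    z.length = ar i → holds (asg P t i) z → Ind (kapA (st P t) ((asg P t i).1 - 1)) z
  pos : 1 ≤ (asg P t i).1 → i ≠ 0 ∧ syS i < t ∧ (asg P t i).1 ≤ syS i + 1

private theorem ainv_triv {P : Par} {t i : ℕ} {I : Itn} (hA : asg P t i = (0, 0, [], I))
    (h : I = Itn.plus ∨ I = Itn.none) : AInv P t i := by
  refine ⟨?_, ?_, ?_, ?_⟩
  · rw [hA]
    exact Nat.zero_le _
  · rw [hA]
    intro W W' _ _ _ _ z z' hs
    rw [holds_nil_pats, holds_nil_pats]
    rcases h with h | h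
    · rw [h]
      exact hI_plus_same hs
    · rw [h]
      exact iff_of_false (hI_none _) (hI_none _)
  · rw [hA]
    intro h1
    exact absurd h1 (Nat.not_succ_le_zero 0)
  · rw [hA]
    intro h1
    exact absurd h1 (Nat.not_succ_le_zero 0)

private theorem asg_zero (P : Par) (i : ℕ) :
    asg P 0 i = if i = 0 then (0, 0, [], Itn.plus) else (0, 0, [], Itn.none) := rfl

private theorem asg_succ (P : Par) (t i : ℕ) :
    asg P (t + 1) i = if i = 0 then (0, 0, [], Itn.plus)
    else if syS i = t then crt (lv P t) (kapA (st P t) (lv P t)) (evn P t (st P t)).1 (syK i) (syP i)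
    else if t < syS i then (0, 0, [], Itn.none)
    else if (asg P t i).1 ≤ lv P t then asg P t i
    else (lv P t + 1, (evn P t (st P t)).1, patN P t (st P t) (ar i) (asg P t i),
      itnN P t (st P t) i) := rfl

private theorem nm_sem (p : List Vec) (I : List ℕ) :
    (nm p I).map sem = I.map fun j => (p.map sem).getD j 0 := by
  unfold nm
  rw [List.map_map]
  apply List.map_congr_left
  intro j _
  show sem (p.getD j []) = (p.map sem).getD j 0
  rw [← sem_nil, List.getD_map]

private theorem itn_cases (P : Par) (t i : ℕ) :
    (∃ c lo hi, itnN P t (st P t) i =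
      Itn.rk (kapA (st P t) (lv P t)) (evn P t (st P t)).1 c lo hi) ∨
    itnN P t (st P t) i = Itn.none := by
  unfold itnN
  split_ifs
  · exact Or.inl ⟨_, _, _, rfl⟩
  · exact Or.inr rfl

theorem ainv {P : Par} (hP : P.Ok) (t i : ℕ) : AInv P t i := by
  induction t with
  | zero =>
    by_cases hi : i = 0
    · exact ainv_triv (by rw [asg_zero, if_pos hi]) (Or.inl rfl)
    · exact ainv_triv (by rw [asg_zero, if_neg hi]) (Or.inr rfl)
  | succ t ih =>
    have hN : kapA (st P t) (lv P t) ≤ (evn P t (st P t)).1 := (kapA_lt_evn hP t (st P t)).le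
    have htop : top (st P (t + 1)) = lv P t + 1 := top_succ P t
    have hnew : kapA (st P (t + 1)) (lv P t + 1) = (evn P t (st P t)).1 := kapA_succ_new P t
    have hold : ∀ {j : ℕ}, j ≤ lv P t → kapA (st P (t + 1)) j = kapA (st P t) j :=
      fun hj => kapA_succ P t hj
    have hlt : lv P t ≤ t := lv_le P t
    by_cases hi : i = 0
    · exact ainv_triv (by rw [asg_succ, if_pos hi]) (Or.inl rfl)
    by_cases hs : syS i = t
    · by_cases hk0 : syK i = 0
      · have hA : asg P (t + 1) i = (lv P t, 0, [], Itn.ind (kapA (st P t) (lv P t))) := by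
          rw [asg_succ, if_neg hi, if_pos hs]
          unfold crt
          rw [if_pos hk0]
        refine ⟨?_, ?_, ?_, ?_⟩
        · rw [hA, htop]
          exact Nat.le_succ _
        · rw [hA]
          intro W W' _ _ _ _ z z' hz
          rw [holds_nil_pats, holds_nil_pats]
          exact hI_ind_same (by rw [hold le_rfl]) hz
        · rw [hA]
          intro h1 W _ _ z _ hz
          rw [holds_nil_pats, hI_ind_iff] at hz
          refine ind_mono ?_ hz
          rw [hold (Nat.sub_le _ _)]
          exact kapA_le P t hP (Nat.sub_le _ _) (lv_le_top P t)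
        · rw [hA]
          intro _
          refine ⟨hi, by omega, ?_⟩
          show lv P t ≤ syS i + 1
          omega
      · by_cases hk1 : syK i = 1
        · by_cases hp : q (kapA (st P t) (lv P t)) ≤ syP i ∧ syP i < q (evn P t (st P t)).1
          · have hA : asg P (t + 1) i =
                (lv P t + 1, 0, [], Itn.sc (kapA (st P t) (lv P t)) (syP i)) := by
              rw [asg_succ, if_neg hi, if_pos hs]
              unfold crt
              rw [if_neg hk0, if_pos hk1, if_pos hp]
            refine ⟨?_, ?_, ?_, ?_⟩
            · rw [hA, htop]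
            · rw [hA]
              intro W W' _ _ _ _ z z' hz
              rw [holds_nil_pats, holds_nil_pats]
              have hz' : Same (evn P t (st P t)).1 z z' := by
                rw [← hnew]
                exact hz
              exact hI_sc_same hN hp.2 hz'
            · rw [hA]
              intro h1 W _ _ z _ hz
              rw [holds_nil_pats, hI_sc_iff] at hz
              show Ind (kapA (st P (t + 1)) (lv P t + 1 - 1)) z
              rw [Nat.add_sub_cancel, hold le_rfl]
              exact hz.1
            · rw [hA]
              intro _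
              refine ⟨hi, by omega, ?_⟩
              show lv P t + 1 ≤ syS i + 1
              omega
          · refine ainv_triv (I := Itn.none) ?_ (Or.inr rfl)
            rw [asg_succ, if_neg hi, if_pos hs]
            unfold crt
            rw [if_neg hk0, if_pos hk1, if_neg hp]
        · have hA : asg P (t + 1) i = (lv P t + 1, 0, [], Itn.none) := by
            rw [asg_succ, if_neg hi, if_pos hs]
            unfold crt
            rw [if_neg hk0, if_neg hk1]
          refine ⟨?_, ?_, ?_, ?_⟩
          · rw [hA, htop]
          · rw [hA]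
            intro W W' _ _ _ _ z z' hz
            rw [holds_nil_pats, holds_nil_pats]
            exact iff_of_false (hI_none _) (hI_none _)
          · rw [hA]
            intro h1 W _ _ z _ hz
            rw [holds_nil_pats] at hz
            exact absurd hz (hI_none _)
          · rw [hA]
            intro _
            refine ⟨hi, by omega, ?_⟩
            show lv P t + 1 ≤ syS i + 1
            omega
    by_cases hlt' : t < syS i
    · refine ainv_triv (I := Itn.none) ?_ (Or.inr rfl)
      rw [asg_succ, if_neg hi, if_neg hs, if_pos hlt']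
    by_cases hD : (asg P t i).1 ≤ lv P t
    · have hA : asg P (t + 1) i = asg P t i := by
        rw [asg_succ, if_neg hi, if_neg hs, if_neg hlt', if_pos hD]
      refine ⟨?_, ?_, ?_, ?_⟩
      · rw [hA, htop]
        omega
      · rw [hA, hold hD]
        exact ih.inv
      · rw [hA, hold ((Nat.sub_le _ _).trans hD)]
        exact ih.ind
      · rw [hA]
        intro h1
        obtain ⟨h2, h3, h4⟩ := ih.pos h1
        exact ⟨h2, h3.trans (Nat.lt_succ_self t), h4⟩
    · have hA : asg P (t + 1) i = (lv P t + 1, (evn P t (st P t)).1,
          patN P t (st P t) (ar i) (asg P t i), itnN P t (st P t) i) := by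
        rw [asg_succ, if_neg hi, if_neg hs, if_neg hlt', if_neg hD]
      have hD1 : lv P t + 1 ≤ (asg P t i).1 := not_le.1 hD
      have hpos : 1 ≤ (asg P t i).1 := le_trans (Nat.le_add_left _ _) hD1
      refine ⟨?_, ?_, ?_, ?_⟩
      · rw [hA, htop]
      · rw [hA]
        intro W W' _ _ _ _ z z' hz
        have hz' : Same (evn P t (st P t)).1 z z' := by
          rw [← hnew]
          exact hz
        refine holds_same (N := (evn P t (st P t)).1) le_rfl hz' ?_
        show hI (itnN P t (st P t) i) z ↔ hI (itnN P t (st P t) i) z'
        rcases itn_cases P t i with ⟨c, lo, hi', h⟩ | h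
        · rw [h]
          exact hI_rk_same hN le_rfl hz'
        · rw [h]
          exact iff_of_false (hI_none _) (hI_none _)
      · rw [hA]
        intro _ W _ _ z hzl hz
        show Ind (kapA (st P (t + 1)) (lv P t + 1 - 1)) z
        rw [Nat.add_sub_cancel, hold le_rfl]
        rcases hz with ⟨p, hp, hsame, hp2⟩ | ⟨_, hz⟩
        · have hp' : p ∈ patN P t (st P t) (ar i) (asg P t i) := hp
          have hsame' : Same (evn P t (st P t)).1 (p.1.map sem) z := hsame
          unfold patN at hp'
          rw [List.mem_flatMap] at hp'
          obtain ⟨β, _, hp'⟩ := hp'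
          by_cases hsv : surv P t (st P t) β = true
          · rw [if_pos hsv, List.mem_map] at hp'
            obtain ⟨I, hI, rfl⟩ := hp'
            rw [mem_cl] at hI
            have h1 : holds (asg P t i) ((nm (bldA (st P t) β).2.2 I).map sem) :=
              (evA_iff _ _).1 hp2
            have h2 := ih.ind hpos (ℕ →₀ K) ((nm (bldA (st P t) β).2.2 I).map sem)
              (by rw [List.length_map, nm_length]; exact hI.1) h1
            have h3 : Ind (kapA (st P t) (lv P t)) ((nm (bldA (st P t) β).2.2 I).map sem) := by
              refine ind_mono (kapA_le P t hP (by omega) ?_) h2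
              exact (Nat.sub_le _ _).trans ih.le
            have hG := (good_evn hP t (st P t)).same β
            rw [oldp_getD, if_pos hsv] at hG
            have h4 : Same (kapA (st P t) (lv P t)) ((nm (bldA (st P t) β).2.2 I).map sem)
                ((nm ((evn P t (st P t)).2.getD β []) I).map sem) := by
              rw [nm_sem, nm_sem]
              exact same_pick hG I (by
                intro j hj
                rw [List.length_map]
                exact hI.2 j hj)
            have h5 := (ind_same h4).1 h3
            exact (ind_same (same_mono hN hsame')).1 h5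
          · rw [if_neg hsv] at hp'
            exact absurd hp' List.not_mem_nil
        · have hz' : hI (itnN P t (st P t) i) z := hz
          rcases itn_cases P t i with ⟨c, lo, hi', h⟩ | h
          · rw [h, hI_rk_iff] at hz'
            exact hz'.1
          · rw [h] at hz'
            exact absurd hz' (hI_none _)
      · rw [hA]
        intro _
        obtain ⟨h2, h3, h4⟩ := ih.pos hpos
        exact ⟨h2, h3.trans (Nat.lt_succ_self t), hD1.trans h4⟩

theorem InvS.smul {n : ℕ} {A : Asg} (h : InvS n A) {W : Type} [AddCommGroup W] [Module K W]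
    (z : List W) {a : K} (ha : a ≠ 0) : holds A (z.map fun v => a • v) ↔ holds A z := by
  exact (h W W z (z.map fun v => a • v) (same_smul n ha z)).symm

theorem InvS.mono {n n' : ℕ} (hn : n ≤ n') {A : Asg} (h : InvS n A) : InvS n' A := by
  intro W W' _ _ _ _ z z' hz
  exact h W W' z z' (same_mono hn hz)

/-- Length of affected symbols. -/
theorem ar_ge (i : ℕ) (h : i ≠ 0) : 2 * syS i + 8 ≤ ar i := by
  unfold ar
  rw [if_neg h]
  exact Nat.le_add_right _ _

end Pool.Agent.Work.MP_ed0a9a_lc.H
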