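import Mathlib
import Pool.Agent.Work.MP_ed0a9a_lc.H.Sa

/-!
# Module `Sb`: declared facts are never changed

PROOF of `persist`.  Let `m = lv P t`, `S = st P t`, `A = asg P t i`, `n_m = kapA S m`,
`N = (evn P t S).1`, `P_β = (bldA S β).2.2`, `G_β = (evn P t S).2.getD β []`, `G_β.length = P_β.length`
(`evn_len`).  Since `β` survives, `bldA (st P (t+1)) β = bldN P t S β`, whose positions are
`G_β` or `G_β ++ cand ..`; for names `j < P_β.length` the position is `G_β.getD j []`
(`pos_succ`), so `nm (new positions) I = nm G_β I` (`nm_succ`).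
`oldp.getD β [] = P_β` (`oldp_getD`), so `GoodEv` gives: `Same n_m (P_β.map sem) (G_β.map sem)`, so by
`same_pick` the tuples `(nm P_β I).map sem` and `(nm G_β I).map sem` have the same `n_m`-relations.
* `i = 0`: the interpretation is `plus` before and after (`asg`), use `hI_plus_same` (with `evA_iff`).
* `i ≠ 0`, `syS i < t`, `A.1 ≤ m`: `asg P (t+1) i = A`; `(ainv).inv`, `kapA S A.1 ≤ n_m` (`kapA_le`,
  `same_mono`).
* `i ≠ 0`, `syS i < t`, `m < A.1`: the new interpretation is `(m + 1, N, patN .., itnN ..)`.
  The tuple `nm G_β I` is a pattern with value `evA A (nm P_β I)` (`I ∈ cl P_β.length (ar i)`, `mem_cl`).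
  If the old value is `true`: `holds` by the first alternative (`same_refl`).
  If the old value is `false`: suppose the new value is `true`.  The second alternative of `holds` is
  impossible (the own pattern matches).  So there is a pattern `(nm G_β' I', true)`, `β'` surviving,
  `I' ∈ cl .. (ar i)`, `evA A (nm P_β' I') = true`, with
  `Same N ((nm G_β' I').map sem) ((nm G_β I).map sem)`.  By `(ainv).ind` and `m ≤ A.1 - 1`,
  `kapA_le`, `ind_mono`: `Ind n_m ((nm P_β' I').map sem)`; by `same`: `Ind n_m` for `G_β' I'`; by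
  `same_mono` (`n_m < N`) `Ind n_m` for `G_β I`; by `same`: for `P_β I`.  `GoodEv.sep` with
  `m + 2 ≤ ar i` (`(ainv).pos`: `m + 1 ≤ A.1 ≤ syS i + 1`, `ar_ge`): `β' = β` and
  `(nm P_β I).map sem = a • ((nm P_β' I').map sem)`, `a ≠ 0`, so by `InvS.smul` the old values agree,
  contradiction.
-/

namespace Pool.Agent.Work.MP_ed0a9a_lc.H

private theorem getD_sem (p : List Vec) (j : ℕ) : (p.map sem).getD j 0 = sem (p.getD j []) := by
  by_cases h : j < p.length
  · rw [List.getD_eq_getElem _ _ (by simpa using h), List.getElem_map, List.getD_eq_getElem _ _ h]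
  · rw [List.getD_eq_default _ _ (by simpa using h), List.getD_eq_default _ _ (not_lt.1 h), sem_nil]

private theorem sem_nm (p : List Vec) (I : List ℕ) :
    (nm p I).map sem = I.map fun j => (p.map sem).getD j 0 := by
  unfold nm
  rw [List.map_map]
  refine List.map_congr_left fun j _ => ?_
  rw [getD_sem]
  rfl

private theorem same_nm {n : ℕ} {p g : List Vec} (h : Same n (p.map sem) (g.map sem)) {I : List ℕ}
    (hI : ∀ j ∈ I, j < p.length) : Same n ((nm p I).map sem) ((nm g I).map sem) := by
  rw [sem_nm, sem_nm]
  exact same_pick h I (by simpa using hI)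

private theorem bldA_cases {P : Par} {t β : ℕ} (hβ : surv P t (st P t) β = true) :
    ∃ e : List Vec, (bldA (st P (t + 1)) β).2.2 = (evn P t (st P t)).2.getD β [] ++ e := by
  have hlt : β < t := by
    have h := surv_lt hβ
    rwa [nbld_st] at h
  rw [bldA_succ P t hlt]
  unfold bldN
  rw [if_pos hβ]
  split_ifs
  · exact ⟨_, rfl⟩
  · exact ⟨[], (List.append_nil _).symm⟩

/-- Position of an old name after the transition. -/
theorem pos_succ {P : Par} (hP : P.Ok) {t β j : ℕ} (hβ : surv P t (st P t) β = true)
    (hj : j < (bldA (st P t) β).2.2.length) :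
    (bldA (st P (t + 1)) β).2.2.getD j [] = ((evn P t (st P t)).2.getD β []).getD j [] := by
  obtain ⟨e, he⟩ := bldA_cases hβ
  rw [he]
  exact List.getD_append _ _ _ _ (by rwa [evn_len hP t (st P t) hβ])

theorem nm_succ {P : Par} (hP : P.Ok) {t β : ℕ} (hβ : surv P t (st P t) β = true) (I : List ℕ)
    (hI : ∀ j ∈ I, j < (bldA (st P t) β).2.2.length) :
    nm (bldA (st P (t + 1)) β).2.2 I = nm ((evn P t (st P t)).2.getD β []) I := by
  unfold nm
  exact List.map_congr_left fun j hj => pos_succ hP hβ (hI j hj)

theorem len_succ {P : Par} (hP : P.Ok) {t β : ℕ} (hβ : surv P t (st P t) β = true) :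
    (bldA (st P t) β).2.2.length ≤ (bldA (st P (t + 1)) β).2.2.length := by
  obtain ⟨e, he⟩ := bldA_cases hβ
  rw [he, List.length_append, evn_len hP t (st P t) hβ]
  exact Nat.le_add_right _ _

private theorem bool_eq {a b : Bool} (h : a = true ↔ b = true) : a = b := by
  cases a <;> cases b <;> simp_all

private theorem asg_zero (P : Par) (t : ℕ) : asg P t 0 = (0, 0, [], Itn.plus) := by
  cases t <;> simp [asg]

private theorem mem_patN {P : Par} {t : ℕ} {S : St} {a : ℕ} {A : Asg} {p : List Vec × Bool} :
    p ∈ patN P t S a A ↔ ∃ β, surv P t S β = true ∧ ∃ I : List ℕ, I.length = a ∧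
      (∀ x ∈ I, x < (bldA S β).2.2.length) ∧
      p = (nm ((evn P t S).2.getD β []) I, evA A (nm (bldA S β).2.2 I)) := by
  unfold patN
  rw [List.mem_flatMap]
  constructor
  · rintro ⟨β, _, h⟩
    by_cases hs : surv P t S β = true
    · rw [if_pos hs, List.mem_map] at h
      obtain ⟨I, hI, e⟩ := h
      rw [mem_cl] at hI
      exact ⟨β, hs, I, hI.1, hI.2, e.symm⟩
    · rw [if_neg hs] at h
      simp at h
  · rintro ⟨β, hs, I, h1, h2, e⟩
    refine ⟨β, List.mem_range.2 (surv_lt hs), ?_⟩
    rw [if_pos hs, List.mem_map]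
    exact ⟨I, mem_cl.2 ⟨h1, h2⟩, e.symm⟩

/-- Declared facts persist. -/
theorem persist {P : Par} (hP : P.Ok) {t β i : ℕ} (hβ : surv P t (st P t) β = true)
    (hi : i = 0 ∨ syS i < t) (I : List ℕ) (hlen : I.length = ar i)
    (hI : ∀ j ∈ I, j < (bldA (st P t) β).2.2.length) :
    evA (asg P (t + 1) i) (nm (bldA (st P (t + 1)) β).2.2 I) =
      evA (asg P t i) (nm (bldA (st P t) β).2.2 I) := by
  rw [nm_succ hP hβ I hI]
  have hg := good_evn hP t (st P t)
  have hold : ∀ β', surv P t (st P t) β' = true →
      (oldp P t (st P t)).getD β' [] = (bldA (st P t) β').2.2 := by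
    intro β' h'
    rw [oldp_getD, if_pos h']
  have hsame : ∀ β', surv P t (st P t) β' = true → ∀ I' : List ℕ,
      (∀ j ∈ I', j < (bldA (st P t) β').2.2.length) →
      Same (kapA (st P t) (lev P t (st P t))) ((nm (bldA (st P t) β').2.2 I').map sem)
        ((nm ((evn P t (st P t)).2.getD β' []) I').map sem) := by
    intro β' h' I' hI'
    have h := hg.same β'
    rw [hold β' h'] at h
    exact same_nm h hI'
  apply bool_eq
  rw [evA_iff, evA_iff]
  by_cases h0 : i = 0
  · subst h0
    rw [asg_zero, asg_zero, holds_nil_pats, holds_nil_pats]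
    exact (hI_plus_same (hsame β hβ I hI)).symm
  · have hsy : syS i < t := by
      rcases hi with h | h
      · exact absurd h h0
      · exact h
    have hasg : asg P (t + 1) i = if (asg P t i).1 ≤ lv P t then asg P t i
        else (lv P t + 1, (evn P t (st P t)).1, patN P t (st P t) (ar i) (asg P t i),
          itnN P t (st P t) i) := by
      rw [asg, if_neg h0, if_neg (by omega), if_neg (by omega)]
    have hA := ainv hP t i
    rw [hasg]
    by_cases hm : (asg P t i).1 ≤ lv P t
    · rw [if_pos hm]
      have hk : kapA (st P t) (asg P t i).1 ≤ kapA (st P t) (lev P t (st P t)) :=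
        kapA_le P t hP hm (lv_le_top P t)
      exact (hA.inv _ _ _ _ (same_mono hk (hsame β hβ I hI))).symm
    · rw [if_neg hm]
      have hm' : lv P t < (asg P t i).1 := not_le.1 hm
      have hpos := hA.pos (by omega)
      have hown : ((nm ((evn P t (st P t)).2.getD β []) I,
          evA (asg P t i) (nm (bldA (st P t) β).2.2 I)) : List Vec × Bool) ∈
          patN P t (st P t) (ar i) (asg P t i) :=
        mem_patN.2 ⟨β, hβ, I, hlen, hI, rfl⟩
      constructor
      · rintro (⟨p, hp, hS, hT⟩ | ⟨hall, _⟩)
        · obtain ⟨β', hβ', I', hI'l, hI', rfl⟩ := mem_patN.1 hp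
          have hS' : Same (evn P t (st P t)).1
              ((nm ((evn P t (st P t)).2.getD β' []) I').map sem)
              ((nm ((evn P t (st P t)).2.getD β []) I).map sem) := hS
          have hT' : evA (asg P t i) (nm (bldA (st P t) β').2.2 I') = true := hT
          rw [evA_iff] at hT'
          have hind0 : Ind (kapA (st P t) ((asg P t i).1 - 1))
              ((nm (bldA (st P t) β').2.2 I').map sem) :=
            hA.ind (by omega) _ _ (by rw [List.length_map, nm_length, hI'l]) hT'
          have hkk : kapA (st P t) (lev P t (st P t)) ≤ kapA (st P t) ((asg P t i).1 - 1) :=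
            kapA_le P t hP (by change lv P t ≤ _; omega) ((Nat.sub_le _ _).trans hA.le)
          have hind1 := ind_mono hkk hind0
          have hind2 := (ind_same (hsame β' hβ' I' hI')).1 hind1
          have hlt := kapA_lt_evn hP t (st P t)
          have hind3 := (ind_same (same_mono hlt.le hS')).1 hind2
          have hind4 := (ind_same (hsame β hβ I hI)).2 hind3
          have hml : lev P t (st P t) + 2 ≤ I.length := by
            have h1 := ar_ge i h0
            have h2 := hpos.2.2
            have h3 : lev P t (st P t) < (asg P t i).1 := hm'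
            rw [hlen]
            omega
          have hsep := hg.sep β β' I I'
          rw [hold β hβ, hold β' hβ'] at hsep
          obtain ⟨_, a, _, ha, he⟩ := hsep hI hI' hml hind4 hind1 (same_symm hS')
          rw [he] at hT'
          exact (InvS.smul hA.inv _ ha).1 hT'
        · exact absurd (same_refl _ _) (hall _ hown)
      · intro h
        left
        exact ⟨_, hown, same_refl _ _, (evA_iff _ _).2 h⟩

end Pool.Agent.Work.MP_ed0a9a_lc.H
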