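import Mathlib
import Pool.Agent.Work.MP_ed0a9a_lc.H.BDefs
import Pool.Agent.Work.MP_ed0a9a_lc.H.Mf
import Pool.Agent.Work.MP_ed0a9a_lc.H.Ca
import Pool.Agent.Work.MP_ed0a9a_lc.H.Sb

/-!
# Module `Ba`: life and growth of a builder

PROOFS.  `liv_of`: induction on `t ≥ β + 1`: `bldA_new`; step: `surv_of`, `bldA_succ`, `bldN`.
`liv_surv`: alive at `t + 1`, `alive_succ`, `β ≠ t`.
`pos_len_succ`: `bldN`: the positions at `t + 1` are `G_β` or `G_β ++ cand ..`, `evn_len`; `cand` has length
`≤ 1`.  `pos_len_mono`.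
`cnt_succ`: `bldN`.
`grow_at`: CLAIM: for every `p` there is `t > β` with `(bldA (st P t) β).2.1 = p` : induction on `p`
(`p = 0`: `t = β + 1`, `bldA_new`; from `p` to `p + 1`: a `t` as in the statement, next stage).
For fixed `p`, `t0 > β` with counter `p` at `t0`: suppose `thr` is false at all `t ≥ t0` (as long
as the counter is `p`): then the counter is `p` and the number of positions is constantly `n` for all
`t ≥ t0`.  Each `l ∈ P.ex β` is alive: for each `i' ≤ p` with `l ≤ i'`, `(P.tgf l i').1 ≠ 0` there are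
`(l, y) ∈ af P i'` and `t` with `q (kf P i') * (n + 1) < nwy P (sf P i') l i' y t`; finitely many
`(l, i')`, so (`nwy_mono`) one `t ≥ t0`, `t > tau P p` works for all.  At this `t` `thr` is true: for
`l ∈ P.ex β`, `i' ≤ min (lv P t) p`: if not `i' < l` and not `(P.tg l i' t).1 = 0`, then
`(P.tgf l i').1 ≠ 0` (`fin_tg`, `tau P i' ≤ tau P p`, `tau_lt`), the list of level `i'` used by `thr` is
`actA (st P (t + 1)) i' = af P i'` (`thr_entries`, `fin_act`), `af_lookup`, `fin_kap`, `fin_stg`.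
Contradiction.
-/

namespace Pool.Agent.Work.MP_ed0a9a_lc.H

variable {P : Par}

theorem liv_of {β : ℕ} (h : ∀ t, β < t → ∀ p ∈ actN P t (st P t),
    p.1 ∈ P.ex β ∨ hurt P β p.1 (lv P t) t = false) : Liv P β := by
  intro t ht
  induction t, ht using Nat.le_induction with
  | base => rw [bldA_new]
  | succ t ht ih =>
    have hs : surv P t (st P t) β = true := surv_of ih (h t ht)
    rw [bldA_succ P t ht]
    unfold bldN
    rw [if_pos hs]
    split_ifs <;> rfl

theorem liv_surv {β t : ℕ} (hL : Liv P β) (h : β < t) : surv P t (st P t) β = true := by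
  rcases alive_succ P t (hL (t + 1) (by omega)) with h1 | h1
  · omega
  · exact h1

private theorem ba_cand_len (ρ N p : ℕ) (G : List Vec) : (cand ρ N p G).length ≤ 1 := by
  unfold cand
  split_ifs <;> simp

theorem pos_len_succ (hP : P.Ok) {β t : ℕ} (hL : Liv P β) (h : β < t) :
    (pos P t β).length ≤ (pos P (t + 1) β).length ∧
      (pos P (t + 1) β).length ≤ (pos P t β).length + 1 := by
  have hs := liv_surv hL h
  have hl := evn_len hP t (st P t) hs
  have hc := ba_cand_len (P.rho β (lev P t (st P t)) t) (evn P t (st P t)).1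
    (bldA (st P t) β).2.1 ((evn P t (st P t)).2.getD β [])
  unfold pos
  rw [bldA_succ P t h]
  unfold bldN
  rw [if_pos hs]
  split_ifs
  · simp only [List.length_append]
    omega
  · simp only
    omega

theorem pos_len_mono (hP : P.Ok) {β t t' : ℕ} (hL : Liv P β) (h : β < t) (h' : t ≤ t') :
    (pos P t β).length ≤ (pos P t' β).length := by
  induction t', h' using Nat.le_induction with
  | base => exact le_rfl
  | succ s hs ih => exact ih.trans (pos_len_succ hP hL (lt_of_lt_of_le h hs)).1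

private theorem ba_step (hP : P.Ok) {β t : ℕ} (hL : Liv P β) (h : β < t) :
    (thr P t (st P t) β (bldA (st P t) β).2.1
        ((evn P t (st P t)).2.getD β []).length = true →
      (bldA (st P (t + 1)) β).2.1 = (bldA (st P t) β).2.1 + 1) ∧
    (¬ thr P t (st P t) β (bldA (st P t) β).2.1
        ((evn P t (st P t)).2.getD β []).length = true →
      (bldA (st P (t + 1)) β).2.1 = (bldA (st P t) β).2.1 ∧
      (bldA (st P (t + 1)) β).2.2.length = (bldA (st P t) β).2.2.length) := by
  have hs := liv_surv hL h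
  have hl := evn_len hP t (st P t) hs
  rw [bldA_succ P t h]
  unfold bldN
  rw [if_pos hs]
  constructor
  · intro h1
    rw [if_pos h1]
  · intro h1
    rw [if_neg h1]
    exact ⟨rfl, hl⟩

private theorem ba_all {Q : ℕ → ℕ → ℕ → Prop} (L : List ℕ) (p : ℕ)
    (h : ∀ l ∈ L, ∀ i, i ≤ p → ∃ T, ∀ t, T ≤ t → Q l i t) :
    ∃ T, ∀ l ∈ L, ∀ i, i ≤ p → ∀ t, T ≤ t → Q l i t := by
  have h1 : ∀ l i, ∃ T, l ∈ L → i ≤ p → ∀ t, T ≤ t → Q l i t := by
    intro l i
    by_cases hl : l ∈ L
    · by_cases hi : i ≤ p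
      · obtain ⟨T, hT⟩ := h l hl i hi
        exact ⟨T, fun _ _ => hT⟩
      · exact ⟨0, fun _ h2 => absurd h2 hi⟩
    · exact ⟨0, fun h2 => absurd h2 hl⟩
  choose T hT using h1
  refine ⟨(L.toFinset ×ˢ Finset.range (p + 1)).sup fun x => T x.1 x.2,
    fun l hl i hi t ht => hT l i hl hi t (le_trans ?_ ht)⟩
  exact Finset.le_sup (f := fun x : ℕ × ℕ => T x.1 x.2) (b := (l, i))
    (Finset.mem_product.2 ⟨List.mem_toFinset.2 hl, Finset.mem_range.2 (Nat.lt_succ_of_le hi)⟩)

private theorem ba_thr (hP : P.Ok) {l i n : ℕ} (hA : Alive P l) :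
    ∃ T, ∀ t, T ≤ t → (decide (i < l) || (decide ((P.tg l i t).1 = 0) ||
      (((actsN P t (st P t)).getD i []).lookup l).any fun y' =>
      decide (q ((kapN P t (st P t)).getD i 0) * (n + 1) <
        nwy P ((stgN P t (st P t)).getD i 0) l i y' t))) = true := by
  by_cases hil : i < l
  · exact ⟨0, fun t _ => by rw [decide_eq_true hil, Bool.true_or]⟩
  rw [not_lt] at hil
  by_cases h0 : (P.tgf l i).1 = 0
  · refine ⟨tau P i, fun t ht => ?_⟩
    rw [(fin_tg hP ht hil).1, decide_eq_true h0, Bool.true_or, Bool.or_true]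
  · obtain ⟨y, hy, hM⟩ := hA i hil h0
    obtain ⟨t0, ht0⟩ := hM (q (kf P i) * (n + 1) + 1)
    refine ⟨max t0 (tau P i), fun t ht => ?_⟩
    have ht1 : tau P i ≤ t := (le_max_right _ _).trans ht
    have ht2 : tau P i < t + 1 := Nat.lt_succ_of_le ht1
    have hlv : i ≤ lv P t := by
      rcases ht1.lt_or_eq with h3 | h3
      · exact ((tau_spec hP i).2 t h3).le
      · rw [← h3, (tau_spec hP i).1]
    obtain ⟨e1, e2, e3⟩ := thr_entries P t hlv
    rw [e1, e2, e3, fin_act hP ht2 le_rfl, fin_kap hP ht2 (Nat.le_succ i),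
      fin_stg hP ht2 le_rfl, (af_lookup hP).2 hy]
    have h4 : q (kf P i) * (n + 1) < nwy P (sf P i) l i y t :=
      lt_of_lt_of_le (Nat.lt_of_succ_le ht0) (nwy_mono ((le_max_left _ _).trans ht))
    rw [Option.any_some, decide_eq_true h4, Bool.or_true, Bool.or_true]

private theorem ba_main (hP : P.Ok) {β : ℕ} (hL : Liv P β) (hex : ∀ l ∈ P.ex β, Alive P l)
    {t0 : ℕ} (h0 : β < t0) : ∃ t, t0 ≤ t ∧ (bldA (st P t) β).2.1 = (bldA (st P t0) β).2.1 ∧
      thr P t (st P t) β (bldA (st P t0) β).2.1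
        ((evn P t (st P t)).2.getD β []).length = true := by
  by_contra hcon
  push Not at hcon
  have key : ∀ t, t0 ≤ t → (bldA (st P t) β).2.1 = (bldA (st P t0) β).2.1 ∧
      (bldA (st P t) β).2.2.length = (bldA (st P t0) β).2.2.length := by
    intro t ht
    induction t, ht using Nat.le_induction with
    | base => exact ⟨rfl, rfl⟩
    | succ s hs ih =>
      have h1 := hcon s hs ih.1
      have h2 := (ba_step hP hL (lt_of_lt_of_le h0 hs)).2 (by rw [ih.1]; exact h1)
      exact ⟨h2.1.trans ih.1, h2.2.trans ih.2⟩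
  obtain ⟨T, hT⟩ := ba_all (Q := fun l i t => (decide (i < l) || (decide ((P.tg l i t).1 = 0) ||
      (((actsN P t (st P t)).getD i []).lookup l).any fun y' =>
      decide (q ((kapN P t (st P t)).getD i 0) * ((bldA (st P t0) β).2.2.length + 1) <
        nwy P ((stgN P t (st P t)).getD i 0) l i y' t))) = true)
    (P.ex β) (bldA (st P t0) β).2.1 (fun l hl i _ => ba_thr hP (hex l hl))
  refine hcon (max T t0) (le_max_right _ _) (key _ (le_max_right _ _)).1 ?_
  have hlt : β < max T t0 := lt_of_lt_of_le h0 (le_max_right _ _)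
  rw [evn_len hP _ _ (liv_surv hL hlt), (key _ (le_max_right _ _)).2]
  unfold thr
  rw [List.all_eq_true]
  intro l hl
  rw [List.all_eq_true]
  intro i hi
  refine hT l hl i ?_ _ (le_max_left _ _)
  have := List.mem_range.1 hi
  omega

theorem grow_at (hP : P.Ok) {β : ℕ} (hL : Liv P β) (hex : ∀ l ∈ P.ex β, Alive P l) (p : ℕ) :
    ∃ t, β < t ∧ (bldA (st P t) β).2.1 = p ∧
      thr P t (st P t) β p ((evn P t (st P t)).2.getD β []).length = true := by
  have h1 : ∃ t0, β < t0 ∧ (bldA (st P t0) β).2.1 = p := by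
    induction p with
    | zero => exact ⟨β + 1, Nat.lt_succ_self _, by rw [bldA_new]⟩
    | succ p ih =>
      obtain ⟨t0, h2, h3⟩ := ih
      obtain ⟨t, h4, h5, h6⟩ := ba_main hP hL hex h2
      have hlt : β < t := lt_of_lt_of_le h2 h4
      refine ⟨t + 1, by omega, ?_⟩
      rw [(ba_step hP hL hlt).1 (by rw [h5]; exact h6), h5, h3]
  obtain ⟨t0, h2, h3⟩ := h1
  obtain ⟨t, h4, h5, h6⟩ := ba_main hP hL hex h2
  rw [h3] at h5 h6
  exact ⟨t, lt_of_lt_of_le h2 h4, h5, h6⟩

end Pool.Agent.Work.MP_ed0a9a_lc.H
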