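import Mathlib

/-!
# Module `CKit`: computable list operations with parameters

PROOFS.  `comp_foldr`: `(l a).foldr (g a) (b a)` is the value at `n = (l a).length` of the recursion
`u 0 = b a`, `u (n + 1) = g a ((l a).getD ((l a).length - 1 - n) x) (u n)`; to avoid a default
element use `(l a)[..]?` and `Option.casesOn`; or first do `foldl` on the reversed list:
`Computable.nat_rec`, `Primrec.list_getElem?` (or `Computable.list_getElem?`),
`Computable.option_casesOn`, `Primrec.list_length`, `Primrec.list_reverse`.
All the others from `comp_foldr`:
`l.map f = l.foldr (fun x r => f x :: r) []`,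
`l.filter p = l.foldr (fun x r => bif p x then x :: r else r) []`,
`l.filterMap f`, `l.flatMap f = l.foldr (fun x r => f x ++ r) []`,
`l.all p = l.foldr (fun x r => p x && r) true`, `l.any p`,
`l.find? p = l.foldr (fun x r => bif p x then some x else r) none`.
`primrec_take`: `l.take n = (List.range n).filterMap (l[·]?)` or by recursion on `n`;
`primrec_drop`: `(fun l => l.tail)^[n] l`; `primrec_lookup`: `Primrec.list_foldr` on
`l.foldr (fun p r => if p.1 = k then some p.2 else r) none`; `primrec_mem`: `l.any (· = k)` or
`Primrec.list_find?`, `primrec_getD`: `(l[n]?).getD d`.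
-/

namespace Pool.Agent.Work.MP_ed0a9a_lc.H

variable {α β γ : Type} [Primcodable α] [Primcodable β] [Primcodable γ]

theorem comp_foldr {l : α → List β} {b : α → γ} {g : α → β → γ → γ} (hl : Computable l)
    (hb : Computable b) (hg : Computable fun p : α × β × γ => g p.1 p.2.1 p.2.2) :
    Computable fun a => (l a).foldr (g a) (b a) := by
  have hh : Computable₂ fun (a : α) (p : ℕ × γ) =>
      (Option.casesOn (((l a).reverse)[p.1]?) p.2 (fun x => g a x p.2) : γ) := by
    refine Computable.option_casesOn (o := fun q : α × (ℕ × γ) => ((l q.1).reverse)[q.2.1]?)
      (f := fun q => q.2.2) (g := fun q x => g q.1 x q.2.2) ?_ ?_ ?_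
    · exact Computable.list_getElem?.comp
        (Computable.list_reverse.comp (hl.comp Computable.fst)) (Computable.fst.comp Computable.snd)
    · exact Computable.snd.comp Computable.snd
    · exact hg.comp (Computable.pair (Computable.fst.comp Computable.fst)
        (Computable.pair Computable.snd (Computable.snd.comp (Computable.snd.comp Computable.fst))))
  have h1 := Computable.nat_rec (f := fun a => (l a).length) (g := b)
    (h := fun (a : α) (p : ℕ × γ) =>
      (Option.casesOn (((l a).reverse)[p.1]?) p.2 (fun x => g a x p.2) : γ))
    (Computable.list_length.comp hl) hb hh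
  refine h1.of_eq fun a => ?_
  have key : ∀ (L : List β) (n : ℕ), (Nat.rec (motive := fun _ => γ) (b a)
      (fun y IH => (Option.casesOn (L[y]?) IH (fun x => g a x IH) : γ)) n : γ) =
      (L.take n).foldl (fun r x => g a x r) (b a) := by
    intro L n
    induction n with
    | zero => rfl
    | succ n ih =>
      show (Option.casesOn (L[n]?) _ (fun x => g a x _) : γ) = _
      rw [ih, List.take_add_one, List.foldl_append]
      cases L[n]? <;> rfl
  have h2 := key (l a).reverse (l a).length
  rw [List.take_of_length_le (by simp), List.foldl_reverse] at h2
  exact h2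

theorem comp_map {l : α → List β} {f : α → β → γ} (hl : Computable l) (hf : Computable₂ f) :
    Computable fun a => (l a).map (f a) := by
  have h := comp_foldr (g := fun (a : α) (x : β) (r : List γ) => f a x :: r) hl
    (Computable.const ([] : List γ))
    (Computable.list_cons.comp (hf.comp Computable.fst (Computable.fst.comp Computable.snd))
      (Computable.snd.comp Computable.snd))
  refine h.of_eq fun a => ?_
  induction l a with
  | nil => rfl
  | cons x t ih => rw [List.foldr_cons, ih, List.map_cons]

theorem comp_filter {l : α → List β} {p : α → β → Bool} (hl : Computable l)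
    (hp : Computable₂ p) : Computable fun a => (l a).filter (p a) := by
  have h := comp_foldr (g := fun (a : α) (x : β) (r : List β) => bif p a x then x :: r else r) hl
    (Computable.const ([] : List β))
    (Computable.cond (hp.comp Computable.fst (Computable.fst.comp Computable.snd))
      (Computable.list_cons.comp (Computable.fst.comp Computable.snd)
        (Computable.snd.comp Computable.snd)) (Computable.snd.comp Computable.snd))
  refine h.of_eq fun a => ?_
  induction l a with
  | nil => rfl
  | cons x t ih =>
    rw [List.foldr_cons, ih, List.filter_cons]
    cases p a x <;> rfl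

theorem comp_filterMap {l : α → List β} {f : α → β → Option γ} (hl : Computable l)
    (hf : Computable₂ f) : Computable fun a => (l a).filterMap (f a) := by
  have h := comp_foldr (g := fun (a : α) (x : β) (r : List γ) =>
      (Option.casesOn (f a x) r (fun y => y :: r) : List γ)) hl
    (Computable.const ([] : List γ))
    (Computable.option_casesOn (hf.comp Computable.fst (Computable.fst.comp Computable.snd))
      (Computable.snd.comp Computable.snd)
      (Computable.list_cons.comp Computable.snd
        (Computable.snd.comp (Computable.snd.comp Computable.fst))).to₂)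
  refine h.of_eq fun a => ?_
  induction l a with
  | nil => rfl
  | cons x t ih =>
    rw [List.foldr_cons, ih, List.filterMap_cons]
    cases f a x <;> rfl

theorem comp_flatMap {l : α → List β} {f : α → β → List γ} (hl : Computable l)
    (hf : Computable₂ f) : Computable fun a => (l a).flatMap (f a) := by
  have h := comp_foldr (g := fun (a : α) (x : β) (r : List γ) => f a x ++ r) hl
    (Computable.const ([] : List γ))
    (Computable.list_append.comp (hf.comp Computable.fst (Computable.fst.comp Computable.snd))
      (Computable.snd.comp Computable.snd))
  refine h.of_eq fun a => ?_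
  induction l a with
  | nil => rfl
  | cons x t ih => rw [List.foldr_cons, ih, List.flatMap_cons]

theorem comp_all {l : α → List β} {p : α → β → Bool} (hl : Computable l)
    (hp : Computable₂ p) : Computable fun a => (l a).all (p a) := by
  have h := comp_foldr (g := fun (a : α) (x : β) (r : Bool) => bif p a x then r else false) hl
    (Computable.const true)
    (Computable.cond (hp.comp Computable.fst (Computable.fst.comp Computable.snd))
      (Computable.snd.comp Computable.snd) (Computable.const false))
  refine h.of_eq fun a => ?_
  induction l a with
  | nil => rfl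
  | cons x t ih =>
    rw [List.foldr_cons, ih, List.all_cons]
    cases p a x <;> simp

theorem comp_any {l : α → List β} {p : α → β → Bool} (hl : Computable l)
    (hp : Computable₂ p) : Computable fun a => (l a).any (p a) := by
  have h := comp_foldr (g := fun (a : α) (x : β) (r : Bool) => bif p a x then true else r) hl
    (Computable.const false)
    (Computable.cond (hp.comp Computable.fst (Computable.fst.comp Computable.snd))
      (Computable.const true) (Computable.snd.comp Computable.snd))
  refine h.of_eq fun a => ?_
  induction l a with
  | nil => rfl
  | cons x t ih =>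
    rw [List.foldr_cons, ih, List.any_cons]
    cases p a x <;> simp

theorem comp_find {l : α → List β} {p : α → β → Bool} (hl : Computable l)
    (hp : Computable₂ p) : Computable fun a => (l a).find? (p a) := by
  have h := comp_foldr (g := fun (a : α) (x : β) (r : Option β) => bif p a x then some x else r) hl
    (Computable.const (none : Option β))
    (Computable.cond (hp.comp Computable.fst (Computable.fst.comp Computable.snd))
      (Computable.option_some.comp (Computable.fst.comp Computable.snd))
      (Computable.snd.comp Computable.snd))
  refine h.of_eq fun a => ?_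
  induction l a with
  | nil => rfl
  | cons x t ih =>
    rw [List.foldr_cons, ih, List.find?_cons]
    cases p a x <;> rfl

theorem comp_option_any {l : α → Option β} {p : α → β → Bool} (hl : Computable l)
    (hp : Computable₂ p) : Computable fun a => (l a).any (p a) := by
  refine (Computable.option_casesOn hl (Computable.const false) hp).of_eq fun a => ?_
  cases l a <;> rfl

theorem primrec_take : Primrec₂ (fun (n : ℕ) (l : List β) => l.take n) := by
  have h : Primrec fun q : ℕ × List β => (Nat.rec (motive := fun _ => List β) []
      (fun y IH => IH ++ (q.2[y]?).toList) q.1 : List β) := by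
    refine Primrec.nat_rec' (f := fun q : ℕ × List β => q.1) (g := fun _ => ([] : List β))
      (h := fun (q : ℕ × List β) (p : ℕ × List β) => p.2 ++ (q.2[p.1]?).toList)
      Primrec.fst (Primrec.const []) ?_
    refine Primrec.list_append.comp (Primrec.snd.comp Primrec.snd) ?_
    refine Primrec.optionToList.comp ?_
    exact Primrec.list_getElem?.comp (Primrec.snd.comp Primrec.fst) (Primrec.fst.comp Primrec.snd)
  refine h.of_eq fun q => ?_
  have key : ∀ (L : List β) (n : ℕ), (Nat.rec (motive := fun _ => List β) []
      (fun y IH => IH ++ (L[y]?).toList) n : List β) = L.take n := by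
    intro L n
    induction n with
    | zero => rfl
    | succ n ih =>
      show _ ++ (L[n]?).toList = _
      rw [ih, List.take_add_one]
  exact key q.2 q.1

theorem primrec_drop : Primrec₂ (fun (n : ℕ) (l : List β) => l.drop n) := by
  have h : Primrec fun q : ℕ × List β => (fun l : List β => l.tail)^[q.1] q.2 :=
    Primrec.nat_iterate Primrec.fst Primrec.snd (Primrec.list_tail.comp Primrec.snd)
  refine h.of_eq fun q => ?_
  have key : ∀ (n : ℕ) (L : List β), (fun l : List β => l.tail)^[n] L = L.drop n := by
    intro n
    induction n with
    | zero => intro L; rfl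
    | succ n ih =>
      intro L
      rw [Function.iterate_succ_apply', ih, List.tail_drop]
  exact key q.1 q.2

theorem primrec_getD (d : β) : Primrec₂ (fun (l : List β) (n : ℕ) => l.getD n d) :=
  Primrec.list_getD d

theorem primrec_lookup : Primrec₂ (fun (l : List (ℕ × ℕ)) (k : ℕ) => l.lookup k) := by
  have h : Primrec fun q : List (ℕ × ℕ) × ℕ => (q.1.foldr (fun (b : ℕ × ℕ) (s : Option ℕ) =>
      if q.2 = b.1 then some b.2 else s) none : Option ℕ) := by
    refine Primrec.list_foldr (h := fun (q : List (ℕ × ℕ) × ℕ) (p : (ℕ × ℕ) × Option ℕ) =>
      if q.2 = p.1.1 then some p.1.2 else p.2) Primrec.fst (Primrec.const none) ?_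
    refine Primrec.ite (Primrec.eq.comp (Primrec.snd.comp Primrec.fst)
      (Primrec.fst.comp (Primrec.fst.comp Primrec.snd))) ?_ (Primrec.snd.comp Primrec.snd)
    exact Primrec.option_some.comp (Primrec.snd.comp (Primrec.fst.comp Primrec.snd))
  refine h.of_eq fun q => ?_
  obtain ⟨l, k⟩ := q
  show (l.foldr (fun (b : ℕ × ℕ) (s : Option ℕ) => if k = b.1 then some b.2 else s) none) =
    l.lookup k
  induction l with
  | nil => rfl
  | cons b t ih =>
    rw [List.foldr_cons, ih]
    obtain ⟨x, y⟩ := b
    rw [List.lookup_cons]
    by_cases hk : k = x
    · simp [hk]
    · rw [show (k == x) = false from beq_eq_false_iff_ne.2 hk, if_neg hk]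

theorem primrec_mem : Primrec₂ (fun (k : ℕ) (l : List ℕ) => decide (k ∈ l)) := by
  have h : Primrec fun q : ℕ × List ℕ => (q.2.foldr (fun (b : ℕ) (s : Bool) =>
      if q.1 = b then true else s) false : Bool) := by
    refine Primrec.list_foldr (h := fun (q : ℕ × List ℕ) (p : ℕ × Bool) =>
      if q.1 = p.1 then true else p.2) Primrec.snd (Primrec.const false) ?_
    exact Primrec.ite (Primrec.eq.comp (Primrec.fst.comp Primrec.fst)
      (Primrec.fst.comp Primrec.snd)) (Primrec.const true) (Primrec.snd.comp Primrec.snd)
  refine h.of_eq fun q => ?_
  obtain ⟨k, l⟩ := q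
  show (l.foldr (fun (b : ℕ) (s : Bool) => if k = b then true else s) false) = decide (k ∈ l)
  induction l with
  | nil => simp
  | cons b t ih =>
    rw [List.foldr_cons, ih]
    by_cases hk : k = b
    · simp [hk]
    · simp [hk]

end Pool.Agent.Work.MP_ed0a9a_lc.H
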