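import Mathlib
import Pool.Agent.Work.MP_ed0a9a_lc.H.CKit

/-!
# Module `Wa`: a `Π⁰₃` statement as: infinitely many limits are true

PROOF.  For `k m s` let `g k m s` be the least `x < m` for which
`∃ y ≤ m, ∀ z < s, R k x y z` fails, and `m` if there is none:
`g k m s = ((List.range m).find? (fun x => !((List.range (m + 1)).any fun y =>
(List.range s).all fun z => R k x y z))).getD m`; computable by `comp_find`, `comp_any`, `comp_all` (module
`CKit`), `Computable.option_getD`.  Put `w k m s := decide (g k m s ≠ g k (m - 1) s)`.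
(1) `g k m s` is nonincreasing in `s`, so it is constant for large `s`; let `F k m` be the limit.  So
`w k m s` has a limit, which is `decide (F k m ≠ F k (m - 1))`.
(2) for `x < m`: `x < F k m` iff for all `x' ≤ x` there is `y ≤ m` with `∀ z, R k x' y z` (for finitely
many `x'`, `y` the least counterexamples `z` are below a common bound); `F k m ≤ m`.
(3) `F k m` is nondecreasing in `m`.
(4) If `∀ x, ∃ y, ∀ z, R k x y z` then `F k m` is unbounded (given `N` take `m ≥ N` and `m ≥` witnesses
`y` for all `x < N`), so for infinitely many `m`: `F k m ≠ F k (m - 1)`.  Conversely if there are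
infinitely many such `m` then (3) `F k m` is unbounded, and (2) gives `∃ y, ∀ z, R k x y z` for every `x`.
-/

namespace Pool.Agent.Work.MP_ed0a9a_lc.H

/-- `w k i t` is eventually `b` as `t → ∞`. -/
def Lim (w : ℕ → ℕ → ℕ → Bool) (k i : ℕ) (b : Bool) : Prop := ∃ T, ∀ t, T ≤ t → w k i t = b

private def tst (R : ℕ → ℕ → ℕ → ℕ → Bool) (k m s x : ℕ) : Bool :=
  (List.range (m + 1)).any fun y => (List.range s).all fun z => R k x y z

private def gg (R : ℕ → ℕ → ℕ → ℕ → Bool) (k m s : ℕ) : ℕ :=
  ((List.range m).find? fun x => !(tst R k m s x)).getD m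

private theorem lt_find (p : ℕ → Bool) (m x : ℕ) :
    x < ((List.range m).find? fun x => !(p x)).getD m ↔ x < m ∧ ∀ x', x' ≤ x → p x' = true := by
  rcases hf : (List.range m).find? (fun x => !(p x)) with _ | a
  · rw [Option.getD_none]
    rw [List.find?_eq_none] at hf
    constructor
    · intro h
      refine ⟨h, fun x' hx' => ?_⟩
      have := hf x' (List.mem_range.2 (by omega))
      simpa using this
    · exact fun h => h.1
  · rw [Option.getD_some]
    rw [List.find?_range_eq_some] at hf
    obtain ⟨h1, h2, h3⟩ := hf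
    have h2' : a < m := List.mem_range.1 h2
    constructor
    · intro h
      refine ⟨by omega, fun x' hx' => ?_⟩
      have := h3 x' (by omega)
      simpa using this
    · rintro ⟨h4, h5⟩
      by_contra h6
      have := h5 a (by omega)
      rw [this] at h1
      simp at h1

/-- The limit of the tests. -/
private def TI (R : ℕ → ℕ → ℕ → ℕ → Bool) (k m x : ℕ) : Prop :=
  ∃ y, y ≤ m ∧ ∀ z, R k x y z = true

private theorem tst_of_TI {R : ℕ → ℕ → ℕ → ℕ → Bool} {k m x : ℕ} (h : TI R k m x) (s : ℕ) :
    tst R k m s x = true := by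
  obtain ⟨y, hy, hz⟩ := h
  unfold tst
  rw [List.any_eq_true]
  refine ⟨y, List.mem_range.2 (by omega), ?_⟩
  rw [List.all_eq_true]
  exact fun z _ => hz z

private theorem tst_false {R : ℕ → ℕ → ℕ → ℕ → Bool} {k m x : ℕ} (h : ¬ TI R k m x) :
    ∃ S, ∀ s, S ≤ s → tst R k m s x = false := by
  have h1 : ∀ n, n ≤ m + 1 → ∃ S, ∀ s, S ≤ s → ∀ y, y < n →
      ((List.range s).all fun z => R k x y z) = false := by
    intro n
    induction n with
    | zero => exact fun _ => ⟨0, fun s _ y hy => absurd hy (Nat.not_lt_zero y)⟩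
    | succ n ih =>
      intro hn
      obtain ⟨S, hS⟩ := ih (by omega)
      have h2 : ∃ z, R k x n z ≠ true := by
        by_contra hc
        push Not at hc
        exact h ⟨n, by omega, hc⟩
      obtain ⟨z, hz⟩ := h2
      refine ⟨max S (z + 1), fun s hs y hy => ?_⟩
      rcases Nat.lt_succ_iff_lt_or_eq.mp hy with h3 | h3
      · exact hS s ((le_max_left _ _).trans hs) y h3
      · subst h3
        rw [List.all_eq_false]
        refine ⟨z, List.mem_range.2 ?_, hz⟩
        have := (le_max_right S (z + 1)).trans hs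
        omega
  obtain ⟨S, hS⟩ := h1 (m + 1) le_rfl
  refine ⟨S, fun s hs => ?_⟩
  unfold tst
  rw [List.any_eq_false]
  intro y hy
  rw [hS s hs y (List.mem_range.1 hy)]
  simp

private theorem tst_lim (R : ℕ → ℕ → ℕ → ℕ → Bool) (k m n : ℕ) :
    ∃ S, ∀ s, S ≤ s → ∀ x, x < n → (tst R k m s x = true ↔ TI R k m x) := by
  induction n with
  | zero => exact ⟨0, fun s _ x hx => absurd hx (Nat.not_lt_zero x)⟩
  | succ n ih =>
    obtain ⟨S, hS⟩ := ih
    by_cases h : TI R k m n
    · refine ⟨S, fun s hs x hx => ?_⟩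
      rcases Nat.lt_succ_iff_lt_or_eq.mp hx with h3 | h3
      · exact hS s hs x h3
      · subst h3
        exact ⟨fun _ => h, fun _ => tst_of_TI h s⟩
    · obtain ⟨S', hS'⟩ := tst_false h
      refine ⟨max S S', fun s hs x hx => ?_⟩
      rcases Nat.lt_succ_iff_lt_or_eq.mp hx with h3 | h3
      · exact hS s ((le_max_left _ _).trans hs) x h3
      · subst h3
        rw [hS' s ((le_max_right _ _).trans hs)]
        exact ⟨fun hh => absurd hh (by simp), fun hh => absurd hh h⟩

/-- The limits of the numbers `gg`. -/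
private theorem exists_F (R : ℕ → ℕ → ℕ → ℕ → Bool) (k m : ℕ) :
    ∃ F S, (∀ s, S ≤ s → gg R k m s = F) ∧
      ∀ x, x < F ↔ x < m ∧ ∀ x', x' ≤ x → TI R k m x' := by
  obtain ⟨S, hS⟩ := tst_lim R k m m
  have key : ∀ s, S ≤ s → ∀ x, x < gg R k m s ↔ x < m ∧ ∀ x', x' ≤ x → TI R k m x' := by
    intro s hs x
    unfold gg
    rw [lt_find]
    constructor
    · rintro ⟨h1, h2⟩
      exact ⟨h1, fun x' hx' => (hS s hs x' (by omega)).1 (h2 x' hx')⟩
    · rintro ⟨h1, h2⟩
      exact ⟨h1, fun x' hx' => (hS s hs x' (by omega)).2 (h2 x' hx')⟩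
  refine ⟨gg R k m S, S, fun s hs => ?_, key S le_rfl⟩
  apply le_antisymm
  · by_contra hc
    push Not at hc
    exact absurd ((key S le_rfl _).2 ((key s hs _).1 hc)) (lt_irrefl _)
  · by_contra hc
    push Not at hc
    exact absurd ((key s hs _).2 ((key S le_rfl _).1 hc)) (lt_irrefl _)

private theorem comp_tst {R : ℕ → ℕ → ℕ → ℕ → Bool}
    (hR : Computable fun p : ℕ × ℕ × ℕ × ℕ => R p.1 p.2.1 p.2.2.1 p.2.2.2) :
    Computable fun a : (ℕ × ℕ × ℕ) × ℕ => tst R a.1.1 a.1.2.1 a.1.2.2 a.2 := by
  unfold tst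
  have h1 : Computable fun a : (ℕ × ℕ × ℕ) × ℕ => List.range (a.1.2.1 + 1) :=
    Primrec.list_range.to_comp.comp (Computable.succ.comp
      (Computable.fst.comp (Computable.snd.comp Computable.fst)))
  have h2 : Computable₂ fun (a : (ℕ × ℕ × ℕ) × ℕ) (y : ℕ) =>
      (List.range a.1.2.2).all fun z => R a.1.1 a.2 y z := by
    have h3 : Computable fun b : ((ℕ × ℕ × ℕ) × ℕ) × ℕ => List.range b.1.1.2.2 :=
      Primrec.list_range.to_comp.comp (Computable.snd.comp (Computable.snd.comp
        (Computable.fst.comp Computable.fst)))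
    have h4 : Computable₂ fun (b : ((ℕ × ℕ × ℕ) × ℕ) × ℕ) (z : ℕ) => R b.1.1.1 b.1.2 b.2 z := by
      have h5 : Computable fun c : (((ℕ × ℕ × ℕ) × ℕ) × ℕ) × ℕ =>
          (c.1.1.1.1, c.1.1.2, c.1.2, c.2) :=
        ((Computable.fst.comp (Computable.fst.comp (Computable.fst.comp Computable.fst))).pair
          ((Computable.snd.comp (Computable.fst.comp Computable.fst)).pair
            ((Computable.snd.comp Computable.fst).pair Computable.snd)))
      have h6 := hR.comp h5
      exact h6
    have h7 := comp_all h3 h4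
    exact h7
  have h8 := comp_any h1 h2
  exact h8

private theorem comp_gg {R : ℕ → ℕ → ℕ → ℕ → Bool}
    (hR : Computable fun p : ℕ × ℕ × ℕ × ℕ => R p.1 p.2.1 p.2.2.1 p.2.2.2) :
    Computable fun a : ℕ × ℕ × ℕ => gg R a.1 a.2.1 a.2.2 := by
  unfold gg
  have h1 : Computable fun a : ℕ × ℕ × ℕ => List.range a.2.1 :=
    Primrec.list_range.to_comp.comp (Computable.fst.comp Computable.snd)
  have h2 : Computable₂ fun (a : ℕ × ℕ × ℕ) (x : ℕ) => !(tst R a.1 a.2.1 a.2.2 x) :=
    (Primrec.not.to_comp).comp (comp_tst hR)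
  have h3 := comp_find h1 h2
  have h4 : Computable fun a : ℕ × ℕ × ℕ => a.2.1 := Computable.fst.comp Computable.snd
  have h5 := Computable.option_getD h3 h4
  exact h5

theorem exists_approx (R : ℕ → ℕ → ℕ → ℕ → Bool)
    (hR : Computable fun p : ℕ × ℕ × ℕ × ℕ => R p.1 p.2.1 p.2.2.1 p.2.2.2) :
    ∃ w : ℕ → ℕ → ℕ → Bool, (Computable fun p : ℕ × ℕ × ℕ => w p.1 p.2.1 p.2.2) ∧
      (∀ k i, ∃ T, ∀ t, T ≤ t → w k i t = w k i T) ∧
      ∀ k, (∀ x, ∃ y, ∀ z, R k x y z = true) ↔ ∀ i0, ∃ i, i0 ≤ i ∧ Lim w k i true := by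
  choose F S hFS hF using exists_F R
  refine ⟨fun k m s => decide (gg R k m s ≠ gg R k (m - 1) s), ?_, ?_, ?_⟩
  · have h1 := comp_gg hR
    have h2 : Computable fun a : ℕ × ℕ × ℕ => gg R a.1 (a.2.1 - 1) a.2.2 := by
      have h3 : Computable fun a : ℕ × ℕ × ℕ => (a.1, a.2.1 - 1, a.2.2) :=
        Computable.fst.pair (((Primrec.pred.to_comp).comp
          (Computable.fst.comp Computable.snd)).pair (Computable.snd.comp Computable.snd))
      have h4 := h1.comp h3
      exact h4
    have h4 : Computable₂ fun a b : ℕ => decide (a ≠ b) := by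
      have h5 : Primrec₂ fun a b : ℕ => decide (a = b) := Primrec.eq.decide
      have h6 : Primrec₂ fun a b : ℕ => !(decide (a = b)) := Primrec.not.comp₂ h5
      exact (h6.of_eq fun a b => by simp).to_comp
    exact h4.comp h1 h2
  · intro k i
    refine ⟨max (S k i) (S k (i - 1)), fun t ht => ?_⟩
    have e1 := hFS k i t ((le_max_left _ _).trans ht)
    have e2 := hFS k (i - 1) t ((le_max_right _ _).trans ht)
    have e3 := hFS k i _ (le_max_left (S k i) (S k (i - 1)))
    have e4 := hFS k (i - 1) _ (le_max_right (S k i) (S k (i - 1)))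
    simp only [e1, e2, e3, e4]
  · intro k
    have hlim : ∀ i, Lim (fun k m s => decide (gg R k m s ≠ gg R k (m - 1) s)) k i true ↔
        F k i ≠ F k (i - 1) := by
      intro i
      constructor
      · rintro ⟨T, hT⟩
        have h1 := hT (max T (max (S k i) (S k (i - 1)))) (le_max_left _ _)
        have e1 := hFS k i (max T (max (S k i) (S k (i - 1))))
          ((le_max_left _ _).trans (le_max_right _ _))
        have e2 := hFS k (i - 1) (max T (max (S k i) (S k (i - 1))))
          ((le_max_right _ _).trans (le_max_right _ _))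
        simp only [e1, e2] at h1
        simpa using h1
      · intro h
        refine ⟨max (S k i) (S k (i - 1)), fun t ht => ?_⟩
        have e1 := hFS k i t ((le_max_left _ _).trans ht)
        have e2 := hFS k (i - 1) t ((le_max_right _ _).trans ht)
        simp only [e1, e2]
        simpa using h
    have hTI : ∀ {m m' x}, m ≤ m' → TI R k m x → TI R k m' x := by
      rintro m m' x hm ⟨y, hy, hz⟩
      exact ⟨y, hy.trans hm, hz⟩
    have hmono : ∀ m m', m ≤ m' → F k m ≤ F k m' := by
      intro m m' hm
      by_contra hc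
      push Not at hc
      obtain ⟨h1, h2⟩ := (hF k m _).1 hc
      exact absurd ((hF k m' _).2 ⟨by omega, fun x' hx' => hTI hm (h2 x' hx')⟩) (lt_irrefl _)
    simp only [hlim]
    constructor
    · intro hall
      by_contra hc
      push Not at hc
      obtain ⟨i0, hi0⟩ := hc
      have hconst : ∀ i, i0 ≤ i → F k i = F k i0 := by
        intro i hi
        induction i, hi using Nat.le_induction with
        | base => rfl
        | succ i hi ih =>
          have := hi0 (i + 1) (by omega)
          rw [Nat.add_sub_cancel] at this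
          rw [this, ih]
      choose y hy using hall
      have hb : ∀ n, ∃ B, ∀ x, x < n → y x ≤ B := by
        intro n
        induction n with
        | zero => exact ⟨0, fun x hx => absurd hx (Nat.not_lt_zero x)⟩
        | succ n ih =>
          obtain ⟨B, hB⟩ := ih
          refine ⟨max B (y n), fun x hx => ?_⟩
          rcases Nat.lt_succ_iff_lt_or_eq.mp hx with h3 | h3
          · exact (hB x h3).trans (le_max_left _ _)
          · subst h3
            exact le_max_right _ _
      obtain ⟨B, hB⟩ := hb (F k i0 + 1)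
      set M := max i0 (max (F k i0 + 1) B) with hM
      have h1 : i0 ≤ M := le_max_left _ _
      have h2 : F k i0 + 1 ≤ M := (le_max_left _ _).trans (le_max_right _ _)
      have h3 : B ≤ M := (le_max_right _ _).trans (le_max_right _ _)
      have h4 : F k i0 < F k M := (hF k M _).2 ⟨by omega, fun x' hx' =>
        ⟨y x', (hB x' (by omega)).trans h3, hy x'⟩⟩
      rw [hconst M h1] at h4
      exact absurd h4 (lt_irrefl _)
    · intro hinf x0
      by_contra hc
      push Not at hc
      have hle : ∀ m, F k m ≤ x0 := by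
        intro m
        by_contra h1
        push Not at h1
        obtain ⟨y, _, hz⟩ := ((hF k m x0).1 h1).2 x0 le_rfl
        obtain ⟨z, hz'⟩ := hc y
        exact hz' (hz z)
      have hun : ∀ n, ∃ m, n ≤ F k m := by
        intro n
        induction n with
        | zero => exact ⟨0, Nat.zero_le _⟩
        | succ n ih =>
          obtain ⟨m, hm⟩ := ih
          obtain ⟨i, hi, hne⟩ := hinf (m + 1)
          have h1 := hmono (i - 1) i (by omega)
          have h2 := hmono m (i - 1) (by omega)
          exact ⟨i, by omega⟩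
      obtain ⟨m, hm⟩ := hun (x0 + 1)
      have := hle m
      omega

end Pool.Agent.Work.MP_ed0a9a_lc.H
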