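import Mathlib
import Pool.Agent.Work.MP_ed0a9a_lc.H.BDefs
import Pool.Agent.Work.MP_ed0a9a_lc.H.Wa

/-!
# The two instances: definitions (block `H`)
-/

namespace Pool.Agent.Work.MP_ed0a9a_lc.H

/-- A good family of approximations: computable, with limits. -/
structure Apx (w : ℕ → ℕ → ℕ → Bool) : Prop where
  comp : Computable fun p : ℕ × ℕ × ℕ => w p.1 p.2.1 p.2.2
  lim : ∀ k i, ∃ T, ∀ t, T ≤ t → w k i t = w k i T

/-- The `k`-th limit set is infinite. -/
def InfW (w : ℕ → ℕ → ℕ → Bool) (k : ℕ) : Prop := ∀ i0, ∃ i, i0 ≤ i ∧ Lim w k i true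

/-- The list with number `n`. -/
def lst (n : ℕ) : List ℕ := Denumerable.ofNat (List ℕ) n

/-- First instance (`ω ∈ X`).  Guard `l`: code `l.unpair.1`, base `lst l.unpair.2` of length `k`; on at
level `i` iff `1 ≤ k ≤ i` and the approximations of all the sets number `(k, e)`, `e ≤ l`, are false at
`i`.  Builder `β`: `g = β.unpair.2`; `g = 0`: the dimension is `i + 1`; `g = (k, (e, list)) + 1`: the
dimension is `k` if the approximation of the set number `(k, e)` is true at `i`
(and `1 ≤ k ≤ i`), `i + 1` otherwise. -/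
def P1 (w : ℕ → ℕ → ℕ → Bool) : Par where
  knd := fun _ => true
  cod := fun l => l.unpair.1
  bas := fun l => lst l.unpair.2
  tg := fun l i t =>
    if (decide (1 ≤ (lst l.unpair.2).length) && (decide ((lst l.unpair.2).length ≤ i) &&
      (List.range (l + 1)).all fun e => !w (Nat.pair (lst l.unpair.2).length e) i t)) = true
    then ((lst l.unpair.2).length + 1, 1, 1) else (0, 0, 0)
  rho := fun β i t =>
    if (decide (β.unpair.2 ≠ 0) && (decide (1 ≤ (β.unpair.2 - 1).unpair.1) &&
      (decide ((β.unpair.2 - 1).unpair.1 ≤ i) &&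
      w (Nat.pair (β.unpair.2 - 1).unpair.1 (β.unpair.2 - 1).unpair.2.unpair.1) i t))) = true
    then (β.unpair.2 - 1).unpair.1 else i + 1
  ex := fun β => if β.unpair.2 = 0 then [] else lst (β.unpair.2 - 1).unpair.2.unpair.2

/-- Second instance (`ω ∉ X`).  Guard `l` even: kind A, code and base from `l / 2`, on at level `i` iff
`1 ≤ k ≤ i` and the approximation number `k` is false at `i`.  Guard `l` odd: kind B, code `l / 2`,
the target is rank `≥ k' + 1`, where `k' < i` is the least `k' ≥ max l 1` whose approximation is true at `i`.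
Builder `β`: `k = β.unpair.2.unpair.1 + 1`; the dimension at level `i` is the least `k' ∈ [k, i]` whose
approximation is true at `i`, otherwise `i + 1`. -/
def P2 (w : ℕ → ℕ → ℕ → Bool) : Par where
  knd := fun l => decide (l % 2 = 0)
  cod := fun l => if l % 2 = 0 then (l / 2).unpair.1 else l / 2
  bas := fun l => if l % 2 = 0 then lst (l / 2).unpair.2 else []
  tg := fun l i t =>
    if l % 2 = 0 then
      (if (decide (1 ≤ (lst (l / 2).unpair.2).length) &&
        (decide ((lst (l / 2).unpair.2).length ≤ i) && !w (lst (l / 2).unpair.2).length i t)) = true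
      then ((lst (l / 2).unpair.2).length + 1, 1, 1) else (0, 0, 0))
    else ((((List.range i).find? fun k => decide (max l 1 ≤ k) && w k i t).map fun k =>
      (i, 0, i - (k + 1))).getD (0, 0, 0))
  rho := fun β i t =>
    ((List.range (i + 1)).find? fun k => decide (β.unpair.2.unpair.1 + 1 ≤ k) && w k i t).getD
      (i + 1)
  ex := fun β => lst β.unpair.2.unpair.2

end Pool.Agent.Work.MP_ed0a9a_lc.H
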