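import Mathlib
import Pool.Agent.Work.MP_ed0a9a_lc.H.IDefs

/-!
# Module `Ia`: the parameters of the first instance

PROOFS.  `P1_ok`: computability: `comp_all` (CKit), `Computable.cond`/`Computable.ite`-style
(`PrimrecPred.decide`, `Computable.cond`), `Primrec.unpair`, `Primrec.ofNat` (`lst`),
`Primrec.list_length`, `Primrec₂.natPair`.  `rho1`: in the first case `1 ≤ k` is part of the condition.  `rho2`:
`k ≤ i`.  `tgl`, `rhl`: the condition depends on finitely many values `w _ i t` with limits; take the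
maximum of the bounds.  `kA`: by the definition.  `kB`: `knd = true`.
`P1_hurt`: `hurt` says: on, so `1 ≤ k_l ≤ m` and `w (k_l, e) m t = false` for all `e ≤ l`; and
`1 ≤ (k_l + 1) - ρ ≤ 1`, so `ρ = k_l` (`ρ ≥ 1`...: `(k_l + 1) - ρ = 1` iff `ρ = k_l`).
If `ρ = m + 1` then `k_l = m + 1 > m`, impossible.  So `g ≠ 0`, `ρ = k_β = k_l` and `w (k_β, e_β) m t = true`, so
`e_β ≤ l` is impossible.
`P1_tgf`: for `k = (lst l.unpair.2).length`, `1 ≤ k ≤ i` and `Lim w (k, e) i false` for all `e ≤ l`: for large `t` the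
value is `(k + 1, 1, 1)`, so the limit is (`Par.tgf`, `Classical.epsilon_spec` with `tgl`).
`P1_rhof`: the same.  `P1_rho_ge`: both cases.
-/

namespace Pool.Agent.Work.MP_ed0a9a_lc.H

variable {w : ℕ → ℕ → ℕ → Bool}

/-- condition of guard `l` -/
private def Cg (w : ℕ → ℕ → ℕ → Bool) (l i t : ℕ) : Bool :=
  decide (1 ≤ (lst l.unpair.2).length) && (decide ((lst l.unpair.2).length ≤ i) &&
    (List.range (l + 1)).all fun e => !w (Nat.pair (lst l.unpair.2).length e) i t)

/-- condition of builder `β` -/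
private def Cb (w : ℕ → ℕ → ℕ → Bool) (β i t : ℕ) : Bool :=
  decide (β.unpair.2 ≠ 0) && (decide (1 ≤ (β.unpair.2 - 1).unpair.1) &&
    (decide ((β.unpair.2 - 1).unpair.1 ≤ i) &&
    w (Nat.pair (β.unpair.2 - 1).unpair.1 (β.unpair.2 - 1).unpair.2.unpair.1) i t))

private theorem tg_eq (l i t : ℕ) : (P1 w).tg l i t =
    if Cg w l i t = true then ((lst l.unpair.2).length + 1, 1, 1) else (0, 0, 0) := rfl

private theorem rho_eq (β i t : ℕ) : (P1 w).rho β i t =
    if Cb w β i t = true then (β.unpair.2 - 1).unpair.1 else i + 1 := rfl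

private theorem Cg_iff (l i t : ℕ) : Cg w l i t = true ↔ 1 ≤ (lst l.unpair.2).length ∧
    (lst l.unpair.2).length ≤ i ∧
      ∀ e, e ≤ l → w (Nat.pair (lst l.unpair.2).length e) i t = false := by
  unfold Cg
  rw [Bool.and_eq_true, Bool.and_eq_true, decide_eq_true_eq, decide_eq_true_eq,
    List.all_eq_true]
  constructor
  · rintro ⟨h1, h2, h3⟩
    refine ⟨h1, h2, fun e he => ?_⟩
    have := h3 e (List.mem_range.2 (Nat.lt_succ_of_le he))
    simpa using this
  · rintro ⟨h1, h2, h3⟩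
    refine ⟨h1, h2, fun e he => ?_⟩
    have := h3 e (Nat.le_of_lt_succ (List.mem_range.1 he))
    simpa using this

private theorem Cb_iff (β i t : ℕ) : Cb w β i t = true ↔ β.unpair.2 ≠ 0 ∧
    1 ≤ (β.unpair.2 - 1).unpair.1 ∧ (β.unpair.2 - 1).unpair.1 ≤ i ∧
    w (Nat.pair (β.unpair.2 - 1).unpair.1 (β.unpair.2 - 1).unpair.2.unpair.1) i t = true := by
  unfold Cb
  rw [Bool.and_eq_true, Bool.and_eq_true, Bool.and_eq_true, decide_eq_true_eq,
    decide_eq_true_eq, decide_eq_true_eq]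

private theorem prim_lst : Primrec lst := Primrec.ofNat (List ℕ)

private theorem comp_Cg (hw : Apx w) :
    Computable fun p : ℕ × ℕ × ℕ => Cg w p.1 p.2.1 p.2.2 := by
  have hlen : Primrec fun p : ℕ × ℕ × ℕ => (lst p.1.unpair.2).length :=
    Primrec.list_length.comp (prim_lst.comp (Primrec.snd.comp
      (Primrec.unpair.comp Primrec.fst)))
  have h1 : Primrec fun p : ℕ × ℕ × ℕ => decide (1 ≤ (lst p.1.unpair.2).length) :=
    (Primrec.nat_le.comp (Primrec.const 1) hlen).decide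
  have h2 : Primrec fun p : ℕ × ℕ × ℕ => decide ((lst p.1.unpair.2).length ≤ p.2.1) :=
    (Primrec.nat_le.comp hlen (Primrec.fst.comp Primrec.snd)).decide
  have h3 : Computable fun p : ℕ × ℕ × ℕ => (List.range (p.1 + 1)).all fun e =>
      !w (Nat.pair (lst p.1.unpair.2).length e) p.2.1 p.2.2 := by
    refine comp_all (l := fun p : ℕ × ℕ × ℕ => List.range (p.1 + 1))
      (p := fun (p : ℕ × ℕ × ℕ) (e : ℕ) =>
        !w (Nat.pair (lst p.1.unpair.2).length e) p.2.1 p.2.2) ?_ ?_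
    · exact (Primrec.list_range.comp (Primrec.succ.comp Primrec.fst)).to_comp
    · have hq : Computable fun q : (ℕ × ℕ × ℕ) × ℕ =>
          ((Nat.pair (lst q.1.1.unpair.2).length q.2, q.1.2.1, q.1.2.2) : ℕ × ℕ × ℕ) :=
        ((Primrec₂.natPair.comp (hlen.comp Primrec.fst) Primrec.snd).pair
          ((Primrec.fst.comp (Primrec.snd.comp Primrec.fst)).pair
            (Primrec.snd.comp (Primrec.snd.comp Primrec.fst)))).to_comp
      have h4 := hw.comp.comp hq
      have h5 := Primrec.not.to_comp.comp h4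
      exact h5
  exact Primrec.and.to_comp.comp h1.to_comp (Primrec.and.to_comp.comp h2.to_comp h3)

private theorem comp_Cb (hw : Apx w) :
    Computable fun p : ℕ × ℕ × ℕ => Cb w p.1 p.2.1 p.2.2 := by
  have hg : Primrec fun p : ℕ × ℕ × ℕ => p.1.unpair.2 :=
    Primrec.snd.comp (Primrec.unpair.comp Primrec.fst)
  have hg1 : Primrec fun p : ℕ × ℕ × ℕ => (p.1.unpair.2 - 1).unpair :=
    Primrec.unpair.comp (Primrec.nat_sub.comp hg (Primrec.const 1))
  have hk : Primrec fun p : ℕ × ℕ × ℕ => (p.1.unpair.2 - 1).unpair.1 := Primrec.fst.comp hg1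
  have he : Primrec fun p : ℕ × ℕ × ℕ => (p.1.unpair.2 - 1).unpair.2.unpair.1 :=
    Primrec.fst.comp (Primrec.unpair.comp (Primrec.snd.comp hg1))
  have h0 : Primrec fun p : ℕ × ℕ × ℕ => decide (p.1.unpair.2 ≠ 0) := by
    have h := Primrec.not.comp ((Primrec.eq.comp hg (Primrec.const 0)).decide)
    refine h.of_eq fun p => ?_
    simp
  have h1 : Primrec fun p : ℕ × ℕ × ℕ => decide (1 ≤ (p.1.unpair.2 - 1).unpair.1) :=
    (Primrec.nat_le.comp (Primrec.const 1) hk).decide
  have h2 : Primrec fun p : ℕ × ℕ × ℕ => decide ((p.1.unpair.2 - 1).unpair.1 ≤ p.2.1) :=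
    (Primrec.nat_le.comp hk (Primrec.fst.comp Primrec.snd)).decide
  have h3 : Computable fun p : ℕ × ℕ × ℕ =>
      w (Nat.pair (p.1.unpair.2 - 1).unpair.1 (p.1.unpair.2 - 1).unpair.2.unpair.1)
        p.2.1 p.2.2 := by
    have hq : Computable fun p : ℕ × ℕ × ℕ =>
        ((Nat.pair (p.1.unpair.2 - 1).unpair.1 (p.1.unpair.2 - 1).unpair.2.unpair.1,
          p.2.1, p.2.2) : ℕ × ℕ × ℕ) :=
      ((Primrec₂.natPair.comp hk he).pair
        ((Primrec.fst.comp Primrec.snd).pair (Primrec.snd.comp Primrec.snd))).to_comp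
    have h4 := hw.comp.comp hq
    exact h4
  exact Primrec.and.to_comp.comp h0.to_comp (Primrec.and.to_comp.comp h1.to_comp
    (Primrec.and.to_comp.comp h2.to_comp h3))

/-- a common bound for finitely many approximations -/
private theorem common (hw : Apx w) (L : List ℕ) (i : ℕ) :
    ∃ T, ∀ k ∈ L, ∀ t, T ≤ t → w k i t = w k i T := by
  induction L with
  | nil => exact ⟨0, fun k hk => by simp at hk⟩
  | cons a L ih =>
    obtain ⟨T, hT⟩ := ih
    obtain ⟨T', hT'⟩ := hw.lim a i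
    refine ⟨max T T', fun k hk t ht => ?_⟩
    rcases List.mem_cons.1 hk with rfl | hk
    · rw [hT' t ((le_max_right _ _).trans ht), hT' (max T T') (le_max_right _ _)]
    · rw [hT k hk t ((le_max_left _ _).trans ht), hT k hk (max T T') (le_max_left _ _)]

private theorem Cg_lim (hw : Apx w) (l i : ℕ) : ∃ T, ∀ t, T ≤ t → Cg w l i t = Cg w l i T := by
  obtain ⟨T, hT⟩ := common hw ((List.range (l + 1)).map fun e =>
    Nat.pair (lst l.unpair.2).length e) i
  refine ⟨T, fun t ht => ?_⟩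
  rw [Bool.eq_iff_iff, Cg_iff, Cg_iff]
  have h : ∀ e, e ≤ l → w (Nat.pair (lst l.unpair.2).length e) i t =
      w (Nat.pair (lst l.unpair.2).length e) i T := fun e he =>
    hT _ (List.mem_map.2 ⟨e, List.mem_range.2 (Nat.lt_succ_of_le he), rfl⟩) t ht
  constructor
  · rintro ⟨h1, h2, h3⟩
    exact ⟨h1, h2, fun e he => by rw [← h e he]; exact h3 e he⟩
  · rintro ⟨h1, h2, h3⟩
    exact ⟨h1, h2, fun e he => by rw [h e he]; exact h3 e he⟩

private theorem Cb_lim (hw : Apx w) (β i : ℕ) : ∃ T, ∀ t, T ≤ t → Cb w β i t = Cb w β i T := by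
  obtain ⟨T, hT⟩ := hw.lim
    (Nat.pair (β.unpair.2 - 1).unpair.1 (β.unpair.2 - 1).unpair.2.unpair.1) i
  refine ⟨T, fun t ht => ?_⟩
  unfold Cb
  rw [hT t ht]

theorem P1_ok (hw : Apx w) : (P1 w).Ok := by
  refine ⟨?_, ?_, ?_, ?_, ?_, ?_, ?_, ?_, ?_, ?_, ?_, ?_⟩
  · exact Computable.const true
  · exact (Primrec.fst.comp Primrec.unpair).to_comp
  · exact (prim_lst.comp (Primrec.snd.comp Primrec.unpair)).to_comp
  · have h : Computable fun p : ℕ × ℕ × ℕ => (bif Cg w p.1 p.2.1 p.2.2 then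
        ((lst p.1.unpair.2).length + 1, 1, 1) else (0, 0, 0) : ℕ × ℕ × ℕ) := by
      refine Computable.cond (comp_Cg hw) ?_ (Computable.const (0, 0, 0))
      exact (Primrec.pair (Primrec.succ.comp (Primrec.list_length.comp (prim_lst.comp
        (Primrec.snd.comp (Primrec.unpair.comp Primrec.fst)))))
        (Primrec.const ((1, 1) : ℕ × ℕ))).to_comp
    refine h.of_eq fun p => ?_
    rw [tg_eq]
    cases Cg w p.1 p.2.1 p.2.2 <;> rfl
  · have h : Computable fun p : ℕ × ℕ × ℕ => (bif Cb w p.1 p.2.1 p.2.2 then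
        (p.1.unpair.2 - 1).unpair.1 else p.2.1 + 1 : ℕ) := by
      refine Computable.cond (comp_Cb hw) ?_ ?_
      · exact (Primrec.fst.comp (Primrec.unpair.comp (Primrec.nat_sub.comp
          (Primrec.snd.comp (Primrec.unpair.comp Primrec.fst)) (Primrec.const 1)))).to_comp
      · exact (Primrec.succ.comp (Primrec.fst.comp Primrec.snd)).to_comp
    refine h.of_eq fun p => ?_
    rw [rho_eq]
    cases Cb w p.1 p.2.1 p.2.2 <;> rfl
  · have h : Primrec fun β : ℕ => (if β.unpair.2 = 0 then ([] : List ℕ) else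
        lst (β.unpair.2 - 1).unpair.2.unpair.2) := by
      refine Primrec.ite (Primrec.eq.comp (Primrec.snd.comp Primrec.unpair) (Primrec.const 0))
        (Primrec.const []) ?_
      exact prim_lst.comp (Primrec.snd.comp (Primrec.unpair.comp (Primrec.snd.comp
        (Primrec.unpair.comp (Primrec.nat_sub.comp (Primrec.snd.comp Primrec.unpair)
          (Primrec.const 1))))))
    exact h.to_comp
  · intro β i t
    rw [rho_eq]
    split_ifs with h
    · exact ((Cb_iff β i t).1 h).2.1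
    · omega
  · intro β i t
    rw [rho_eq]
    split_ifs with h
    · have := ((Cb_iff β i t).1 h).2.2.1
      omega
    · exact le_rfl
  · intro l i
    obtain ⟨T, hT⟩ := Cg_lim hw l i
    refine ⟨T, fun t ht => ?_⟩
    rw [tg_eq, tg_eq, hT t ht]
  · intro β i
    obtain ⟨T, hT⟩ := Cb_lim hw β i
    refine ⟨T, fun t ht => ?_⟩
    rw [rho_eq, rho_eq, hT t ht]
  · intro l i t _ h
    rw [tg_eq] at h ⊢
    split_ifs at h ⊢ with hc
    · exact ⟨rfl, ((Cg_iff l i t).1 hc).2.1⟩
    · exact absurd rfl h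
  · intro l i t hk
    exact absurd hk (by simp [P1])

theorem P1_hurt {β l m t : ℕ} (h : hurt (P1 w) β l m t = true) :
    β.unpair.2 ≠ 0 ∧ l < (β.unpair.2 - 1).unpair.2.unpair.1 := by
  unfold hurt at h
  rw [Bool.and_eq_true, Bool.and_eq_true, decide_eq_true_eq, decide_eq_true_eq,
    decide_eq_true_eq] at h
  obtain ⟨h1, h2, h3⟩ := h
  rw [tg_eq] at h1 h2 h3
  by_cases hc : Cg w l m t = true
  · rw [if_pos hc] at h2 h3
    obtain ⟨c1, c2, c3⟩ := (Cg_iff l m t).1 hc
    rw [rho_eq] at h2 h3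
    by_cases hb : Cb w β m t = true
    · rw [if_pos hb] at h2 h3
      obtain ⟨b1, b2, b3, b4⟩ := (Cb_iff β m t).1 hb
      refine ⟨b1, ?_⟩
      by_contra hle
      have e : (β.unpair.2 - 1).unpair.1 = (lst l.unpair.2).length := by
        simp only at h2 h3
        omega
      have h4 := c3 _ (not_lt.1 hle)
      rw [e, h4] at b4
      exact absurd b4 (by simp)
    · rw [if_neg hb] at h2 h3
      simp only at h2 h3
      omega
  · rw [if_neg hc] at h1
    exact absurd rfl h1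

theorem P1_tgf (hw : Apx w) {l i : ℕ} (h1 : 1 ≤ (lst l.unpair.2).length)
    (h2 : (lst l.unpair.2).length ≤ i)
    (h3 : ∀ e, e ≤ l → Lim w (Nat.pair (lst l.unpair.2).length e) i false) :
    (P1 w).tgf l i = ((lst l.unpair.2).length + 1, 1, 1) := by
  have hex := (P1_ok hw).tgl l i
  have hsp := Classical.epsilon_spec hex
  obtain ⟨T, hT⟩ := common hw ((List.range (l + 1)).map fun e =>
    Nat.pair (lst l.unpair.2).length e) i
  set E := Classical.epsilon fun T => ∀ t, T ≤ t → (P1 w).tg l i t = (P1 w).tg l i T with hE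
  have hlim : ∀ e, e ≤ l → w (Nat.pair (lst l.unpair.2).length e) i (max E T) = false := by
    intro e he
    obtain ⟨T', hT'⟩ := h3 e he
    have hm : Nat.pair (lst l.unpair.2).length e ∈ ((List.range (l + 1)).map fun e =>
        Nat.pair (lst l.unpair.2).length e) :=
      List.mem_map.2 ⟨e, List.mem_range.2 (Nat.lt_succ_of_le he), rfl⟩
    have e1 := hT _ hm (max (max E T) T') (((le_max_right _ _).trans (le_max_left _ _)))
    have e2 := hT _ hm (max E T) (le_max_right _ _)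
    rw [e2, ← e1]
    exact hT' _ (le_max_right _ _)
  have h5 : (P1 w).tgf l i = (P1 w).tg l i (max E T) := by
    rw [hsp (max E T) (le_max_left _ _)]
    rfl
  rw [h5, tg_eq, if_pos ((Cg_iff l i (max E T)).2 ⟨h1, h2, hlim⟩)]

private theorem unp1 (c k e x : ℕ) :
    ((Nat.pair c (Nat.pair k (Nat.pair e x) + 1)).unpair.2 - 1).unpair.1 = k := by
  simp [Nat.unpair_pair]

private theorem unp2 (c k e x : ℕ) :
    ((Nat.pair c (Nat.pair k (Nat.pair e x) + 1)).unpair.2 - 1).unpair.2.unpair.1 = e := by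
  simp [Nat.unpair_pair]

private theorem unp0 (c k e x : ℕ) :
    (Nat.pair c (Nat.pair k (Nat.pair e x) + 1)).unpair.2 ≠ 0 := by
  simp [Nat.unpair_pair]

theorem P1_rhof (hw : Apx w) {c k e x i : ℕ} (h1 : 1 ≤ k) (h2 : k ≤ i)
    (h3 : Lim w (Nat.pair k e) i true) :
    (P1 w).rhof (Nat.pair c (Nat.pair k (Nat.pair e x) + 1)) i = k := by
  have hex := (P1_ok hw).rhl (Nat.pair c (Nat.pair k (Nat.pair e x) + 1)) i
  have hsp := Classical.epsilon_spec hex
  obtain ⟨T, hT⟩ := h3
  set E := Classical.epsilon fun T => ∀ t, T ≤ t →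
    (P1 w).rho (Nat.pair c (Nat.pair k (Nat.pair e x) + 1)) i t =
      (P1 w).rho (Nat.pair c (Nat.pair k (Nat.pair e x) + 1)) i T with hE
  have h5 : (P1 w).rhof (Nat.pair c (Nat.pair k (Nat.pair e x) + 1)) i =
      (P1 w).rho (Nat.pair c (Nat.pair k (Nat.pair e x) + 1)) i (max E T) := by
    rw [hsp (max E T) (le_max_left _ _)]
    rfl
  have h6 : Cb w (Nat.pair c (Nat.pair k (Nat.pair e x) + 1)) i (max E T) = true := by
    rw [Cb_iff, unp1, unp2]
    exact ⟨unp0 c k e x, h1, h2, hT _ (le_max_right _ _)⟩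
  rw [h5, rho_eq, if_pos h6, unp1]

theorem P1_rho_ge {c k e x m t : ℕ} (h : k ≤ m) :
    k ≤ (P1 w).rho (Nat.pair c (Nat.pair k (Nat.pair e x) + 1)) m t := by
  rw [rho_eq, unp1]
  split_ifs
  · exact le_rfl
  · omega

theorem P1_rho_zero (i t : ℕ) : (P1 w).rho 0 i t = i + 1 ∧ (P1 w).ex 0 = [] := by
  have h0 : (Nat.unpair 0).2 = 0 := by simp
  constructor
  · rw [rho_eq, if_neg]
    intro h
    exact ((Cb_iff 0 i t).1 h).1 h0
  · show (if (Nat.unpair 0).2 = 0 then ([] : List ℕ) else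
      lst ((Nat.unpair 0).2 - 1).unpair.2.unpair.2) = []
    rw [if_pos h0]

theorem P1_rhof_zero (i : ℕ) : (P1 w).rhof 0 i = i + 1 := (P1_rho_zero i _).1

end Pool.Agent.Work.MP_ed0a9a_lc.H
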