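import Mathlib
import Pool.Agent.Work.MP_ed0a9a_lc.H.IDefs

/-!
# Module `Ib`: the parameters of the second instance

PROOFS.  `P2_ok`: as in the module `Ia`: computability with `comp_find` (CKit), `Primrec.nat_mod`,
`Primrec.nat_div`, `Primrec.nat_max`, `Computable.option_map`, `Computable.option_getD`.
`rho1`: the value found is `≥ β.unpair.2.unpair.1 + 1 ≥ 1`.  `rho2`: the value found is `< i + 1`.
`tgl`, `rhl`: the values depend on finitely many `w k i t`, `k ≤ i`, with limits.
`kA`: definition (`knd l = true` iff `l % 2 = 0`).  `kB`: the value found is `k < i`, `c = k + 1`.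
`P2_hurt`: `l` even: on: `w k_l m t = false`, `k_l ≤ m`; hurt: `ρ = k_l` (as in `P1_hurt`).  `ρ = m + 1` is impossible,
otherwise `ρ` is the value found, so `w ρ m t = true`, contradiction.  `l` odd: the target is
`(m, 0, m - (k1 + 1))`, `max l 1 ≤ k1 < m`, `w k1 m t = true`; hurt: `m - ρ ≤ m - (k1 + 1)`, so `k1 + 1 ≤ ρ`
(`k1 + 1 ≤ m`).  Suppose `l ≥ k_β := β.unpair.2.unpair.1 + 1`: then `k1 ∈ [k_β, m]` satisfies the condition of the
search in `rho`, so `ρ ≤ k1`, contradiction.
`P2_tgf_A`, `P2_rhof`: limits as in `Ia` (for `P2_rhof`: the search finds `k` itself for large `t`, being the first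
candidate `≥ k`).  `P2_rho_ge`: the value found is `≥ k`, or `m + 1`.
`P2_tgf_B`: for large `t` all the `w k' i t`, `k' ≤ i`, have their limit values; the search finds some
`k' ≤ k` (`k` satisfies the condition, `max l 1 ≤ k < i`).
-/

namespace Pool.Agent.Work.MP_ed0a9a_lc.H

variable {w : ℕ → ℕ → ℕ → Bool}

private theorem ib_find_congr {p q : ℕ → Bool} (l : List ℕ) (h : ∀ x ∈ l, p x = q x) :
    l.find? p = l.find? q := by
  induction l with
  | nil => rfl
  | cons a l ih =>
    rw [List.find?_cons, List.find?_cons, h a List.mem_cons_self,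
      ih fun x hx => h x (List.mem_cons_of_mem a hx)]

private theorem ib_find_some {p : ℕ → Bool} {n a : ℕ} (h : (List.range n).find? p = some a) :
    p a = true ∧ a < n ∧ ∀ b, b < a → p b = false := by
  rw [List.find?_range_eq_some] at h
  obtain ⟨h1, h2, h3⟩ := h
  exact ⟨h1, List.mem_range.mp h2, fun b hb => by simpa using h3 b hb⟩

private theorem ib_find_le {p : ℕ → Bool} {n b : ℕ} (hb : b < n) (hp : p b = true) :
    ∃ a, a ≤ b ∧ (List.range n).find? p = some a := by
  cases h : (List.range n).find? p with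
  | none =>
    rw [List.find?_eq_none] at h
    exact absurd hp (h b (List.mem_range.mpr hb))
  | some a =>
    refine ⟨a, ?_, rfl⟩
    by_contra hlt
    have := (ib_find_some h).2.2 b (not_le.mp hlt)
    rw [hp] at this
    exact Bool.noConfusion this

private theorem ib_unif (hw : Apx w) (i B : ℕ) :
    ∃ T, ∀ k, k ≤ B → ∀ t, T ≤ t → w k i t = w k i T := by
  induction B with
  | zero =>
    obtain ⟨T, hT⟩ := hw.lim 0 i
    refine ⟨T, fun k hk t ht => ?_⟩
    have : k = 0 := by omega
    subst this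
    exact hT t ht
  | succ B ih =>
    obtain ⟨T1, h1⟩ := ih
    obtain ⟨T2, h2⟩ := hw.lim (B + 1) i
    refine ⟨max T1 T2, fun k hk t ht => ?_⟩
    rcases Nat.lt_or_ge B k with h | h
    · have : k = B + 1 := by omega
      subst this
      rw [h2 t ((le_max_right _ _).trans ht), h2 _ (le_max_right _ _)]
    · rw [h1 k h t ((le_max_left _ _).trans ht), h1 k h _ (le_max_left _ _)]

private theorem ib_even {l i t : ℕ} (h : l % 2 = 0) : (P2 w).tg l i t =
    if (decide (1 ≤ (lst (l / 2).unpair.2).length) &&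
        (decide ((lst (l / 2).unpair.2).length ≤ i) && !w (lst (l / 2).unpair.2).length i t)) = true
      then ((lst (l / 2).unpair.2).length + 1, 1, 1) else (0, 0, 0) := if_pos h

private theorem ib_odd {l i t : ℕ} (h : l % 2 ≠ 0) : (P2 w).tg l i t =
    (((List.range i).find? fun k => decide (max l 1 ≤ k) && w k i t).map fun k =>
      (i, 0, i - (k + 1))).getD (0, 0, 0) := if_neg h

private theorem ib_rho1 (β i t : ℕ) : 1 ≤ (P2 w).rho β i t ∧ (P2 w).rho β i t ≤ i + 1 := by
  show 1 ≤ ((List.range (i + 1)).find? fun k => decide (β.unpair.2.unpair.1 + 1 ≤ k) &&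
    w k i t).getD (i + 1) ∧ ((List.range (i + 1)).find? fun k =>
    decide (β.unpair.2.unpair.1 + 1 ≤ k) && w k i t).getD (i + 1) ≤ i + 1
  cases h : (List.range (i + 1)).find? fun k => decide (β.unpair.2.unpair.1 + 1 ≤ k) &&
    w k i t with
  | none => simp
  | some a =>
    obtain ⟨h1, h2, -⟩ := ib_find_some h
    rw [Bool.and_eq_true, decide_eq_true_eq] at h1
    simp only [Option.getD_some]
    omega

private theorem ib_tgl (hw : Apx w) (l i : ℕ) :
    ∃ T, ∀ t, T ≤ t → (P2 w).tg l i t = (P2 w).tg l i T := by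
  obtain ⟨T, hT⟩ := ib_unif hw i ((lst (l / 2).unpair.2).length + i)
  refine ⟨T, fun t ht => ?_⟩
  by_cases h : l % 2 = 0
  · rw [ib_even h, ib_even h, hT _ (Nat.le_add_right _ _) t ht]
  · rw [ib_odd h, ib_odd h]
    rw [ib_find_congr (List.range i) (q := fun k => decide (max l 1 ≤ k) && w k i T)]
    intro k hk
    have := List.mem_range.mp hk
    rw [hT k (by omega) t ht]

private theorem ib_rhl (hw : Apx w) (β i : ℕ) :
    ∃ T, ∀ t, T ≤ t → (P2 w).rho β i t = (P2 w).rho β i T := by
  obtain ⟨T, hT⟩ := ib_unif hw i i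
  refine ⟨T, fun t ht => ?_⟩
  show ((List.range (i + 1)).find? fun k => decide (β.unpair.2.unpair.1 + 1 ≤ k) &&
    w k i t).getD (i + 1) = ((List.range (i + 1)).find? fun k =>
    decide (β.unpair.2.unpair.1 + 1 ≤ k) && w k i T).getD (i + 1)
  rw [ib_find_congr (List.range (i + 1))
    (q := fun k => decide (β.unpair.2.unpair.1 + 1 ≤ k) && w k i T)]
  intro k hk
  have := List.mem_range.mp hk
  rw [hT k (by omega) t ht]

private theorem ib_len : Primrec fun l : ℕ => (lst (l / 2).unpair.2).length :=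
  Primrec.list_length.comp ((Primrec.ofNat (List ℕ)).comp (Primrec.snd.comp
    (Primrec.unpair.comp (Primrec.nat_div.comp Primrec.id (Primrec.const 2)))))

private theorem ib_par : PrimrecPred fun l : ℕ => l % 2 = 0 :=
  Primrec.eq.comp (Primrec.nat_mod.comp Primrec.id (Primrec.const 2)) (Primrec.const 0)

private theorem ib_tg_comp (hw : Apx w) :
    Computable (fun p : ℕ × ℕ × ℕ => (P2 w).tg p.1 p.2.1 p.2.2) := by
  have hlen : Computable fun p : ℕ × ℕ × ℕ => (lst (p.1 / 2).unpair.2).length :=
    (ib_len.comp Primrec.fst).to_comp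
  have hwl : Computable fun p : ℕ × ℕ × ℕ => w (lst (p.1 / 2).unpair.2).length p.2.1 p.2.2 :=
    hw.comp.comp (Computable.pair hlen (Computable.pair (Computable.fst.comp Computable.snd)
      (Computable.snd.comp Computable.snd)))
  have hcond : Computable fun p : ℕ × ℕ × ℕ =>
      (decide (1 ≤ (lst (p.1 / 2).unpair.2).length) &&
        (decide ((lst (p.1 / 2).unpair.2).length ≤ p.2.1) &&
          !w (lst (p.1 / 2).unpair.2).length p.2.1 p.2.2)) := by
    refine Primrec.and.to_comp.comp ?_ (Primrec.and.to_comp.comp ?_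
      (Primrec.not.to_comp.comp hwl))
    · exact (Primrec.nat_le.comp (Primrec.const 1) (ib_len.comp Primrec.fst)).decide.to_comp
    · exact (Primrec.nat_le.comp (ib_len.comp Primrec.fst)
        (Primrec.fst.comp Primrec.snd)).decide.to_comp
  have hE : Computable fun p : ℕ × ℕ × ℕ => bif (decide (1 ≤ (lst (p.1 / 2).unpair.2).length) &&
        (decide ((lst (p.1 / 2).unpair.2).length ≤ p.2.1) &&
          !w (lst (p.1 / 2).unpair.2).length p.2.1 p.2.2)) then
        ((lst (p.1 / 2).unpair.2).length + 1, 1, 1) else (0, 0, 0) :=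
    Computable.cond hcond (Computable.pair (Computable.succ.comp hlen)
      (Computable.const (1, 1))) (Computable.const (0, 0, 0))
  have hpred : Computable₂ fun (p : ℕ × ℕ × ℕ) (k : ℕ) =>
      decide (max p.1 1 ≤ k) && w k p.2.1 p.2.2 := by
    refine Primrec.and.to_comp.comp ?_ ?_
    · exact (Primrec.nat_le.comp (Primrec.nat_max.comp (Primrec.fst.comp Primrec.fst)
        (Primrec.const 1)) Primrec.snd).decide.to_comp
    · exact hw.comp.comp (Computable.pair Computable.snd (Computable.pair
        (Computable.fst.comp (Computable.snd.comp Computable.fst))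
        (Computable.snd.comp (Computable.snd.comp Computable.fst))))
  have hF : Computable fun p : ℕ × ℕ × ℕ =>
      (List.range p.2.1).find? fun k => decide (max p.1 1 ≤ k) && w k p.2.1 p.2.2 :=
    comp_find (Primrec.list_range.comp (Primrec.fst.comp Primrec.snd)).to_comp hpred
  have hO : Computable fun p : ℕ × ℕ × ℕ =>
      (((List.range p.2.1).find? fun k => decide (max p.1 1 ≤ k) && w k p.2.1 p.2.2).map fun k =>
      (p.2.1, 0, p.2.1 - (k + 1))).getD (0, 0, 0) := by
    refine Computable.option_getD (Computable.option_map hF ?_) (Computable.const (0, 0, 0))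
    exact (Primrec.pair (Primrec.fst.comp (Primrec.snd.comp Primrec.fst))
      (Primrec.pair (Primrec.const 0) (Primrec.nat_sub.comp
        (Primrec.fst.comp (Primrec.snd.comp Primrec.fst))
        (Primrec.succ.comp Primrec.snd)))).to_comp
  have hpar : Computable fun p : ℕ × ℕ × ℕ => decide (p.1 % 2 = 0) :=
    (ib_par.comp Primrec.fst).decide.to_comp
  refine (Computable.cond hpar hE hO).of_eq fun p => ?_
  by_cases h : p.1 % 2 = 0
  · rw [ib_even h]
    simp only [h, decide_true, Bool.cond_eq_ite, if_true]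
  · rw [ib_odd h]
    simp only [h, decide_false, cond_false]

private theorem ib_rho_comp (hw : Apx w) :
    Computable (fun p : ℕ × ℕ × ℕ => (P2 w).rho p.1 p.2.1 p.2.2) := by
  have hpred : Computable₂ fun (p : ℕ × ℕ × ℕ) (k : ℕ) =>
      decide (p.1.unpair.2.unpair.1 + 1 ≤ k) && w k p.2.1 p.2.2 := by
    refine Primrec.and.to_comp.comp ?_ ?_
    · exact (Primrec.nat_le.comp (Primrec.succ.comp (Primrec.fst.comp (Primrec.unpair.comp
        (Primrec.snd.comp (Primrec.unpair.comp (Primrec.fst.comp Primrec.fst))))))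
        Primrec.snd).decide.to_comp
    · exact hw.comp.comp (Computable.pair Computable.snd (Computable.pair
        (Computable.fst.comp (Computable.snd.comp Computable.fst))
        (Computable.snd.comp (Computable.snd.comp Computable.fst))))
  have hi : Primrec fun p : ℕ × ℕ × ℕ => p.2.1 + 1 :=
    Primrec.succ.comp (Primrec.fst.comp Primrec.snd)
  exact Computable.option_getD (comp_find (Primrec.list_range.comp hi).to_comp hpred) hi.to_comp

theorem P2_ok (hw : Apx w) : (P2 w).Ok := by
  refine ⟨?_, ?_, ?_, ib_tg_comp hw, ib_rho_comp hw, ?_, fun β i t => (ib_rho1 β i t).1,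
    fun β i t => (ib_rho1 β i t).2, ib_tgl hw, ib_rhl hw, ?_, ?_⟩
  · exact ib_par.decide.to_comp
  · exact (Primrec.ite ib_par (Primrec.fst.comp (Primrec.unpair.comp
      (Primrec.nat_div.comp Primrec.id (Primrec.const 2))))
      (Primrec.nat_div.comp Primrec.id (Primrec.const 2))).to_comp
  · exact (Primrec.ite ib_par ((Primrec.ofNat (List ℕ)).comp (Primrec.snd.comp
      (Primrec.unpair.comp (Primrec.nat_div.comp Primrec.id (Primrec.const 2)))))
      (Primrec.const [])).to_comp
  · exact ((Primrec.ofNat (List ℕ)).comp (Primrec.snd.comp (Primrec.unpair.comp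
      (Primrec.snd.comp Primrec.unpair)))).to_comp
  · intro l i t hk h
    have hl : l % 2 = 0 := of_decide_eq_true hk
    have hb : (P2 w).bas l = lst (l / 2).unpair.2 := if_pos hl
    rw [ib_even hl] at h ⊢
    rw [hb]
    split_ifs at h ⊢ with hc
    · rw [Bool.and_eq_true, Bool.and_eq_true, decide_eq_true_eq, decide_eq_true_eq] at hc
      exact ⟨rfl, hc.2.1⟩
    · exact absurd rfl h
  · intro l i t hk h
    have hl : l % 2 ≠ 0 := of_decide_eq_false hk
    rw [ib_odd hl] at h ⊢
    cases hf : (List.range i).find? fun k => decide (max l 1 ≤ k) && w k i t with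
    | none => rw [hf] at h; exact absurd rfl h
    | some k =>
      obtain ⟨-, h2, -⟩ := ib_find_some hf
      exact ⟨k + 1, by omega, by omega, rfl⟩

theorem P2_hurt {β l m t : ℕ} (h : hurt (P2 w) β l m t = true) :
    l < β.unpair.2.unpair.1 + 1 := by
  unfold hurt at h
  rw [Bool.and_eq_true, Bool.and_eq_true, decide_eq_true_eq, decide_eq_true_eq,
    decide_eq_true_eq] at h
  obtain ⟨h0, h1, h2⟩ := h
  have hρ : (P2 w).rho β m t = ((List.range (m + 1)).find? fun k =>
    decide (β.unpair.2.unpair.1 + 1 ≤ k) && w k m t).getD (m + 1) := rfl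
  by_cases hl : l % 2 = 0
  · exfalso
    rw [ib_even hl] at h0 h1 h2
    split_ifs at h0 h1 h2 with hc
    · rw [Bool.and_eq_true, Bool.and_eq_true, decide_eq_true_eq, decide_eq_true_eq,
        Bool.not_eq_true'] at hc
      obtain ⟨c1, c2, c3⟩ := hc
      simp only at h1 h2
      cases hf : (List.range (m + 1)).find? fun k =>
        decide (β.unpair.2.unpair.1 + 1 ≤ k) && w k m t with
      | none =>
        rw [hf, Option.getD_none] at hρ
        omega
      | some a =>
        rw [hf, Option.getD_some] at hρ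
        have ha : a = (lst (l / 2).unpair.2).length := by omega
        obtain ⟨f1, -, -⟩ := ib_find_some hf
        rw [Bool.and_eq_true] at f1
        rw [ha, c3] at f1
        exact Bool.noConfusion f1.2
    · exact h0 rfl
  · rw [ib_odd hl] at h0 h1 h2
    cases hf : (List.range m).find? fun k => decide (max l 1 ≤ k) && w k m t with
    | none => rw [hf] at h0; exact absurd rfl h0
    | some k1 =>
      rw [hf] at h1 h2
      simp only [Option.map_some, Option.getD_some] at h1 h2
      obtain ⟨f1, f2, -⟩ := ib_find_some hf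
      rw [Bool.and_eq_true, decide_eq_true_eq] at f1
      by_contra hlt
      obtain ⟨a, ha, hfa⟩ := ib_find_le (n := m + 1) (b := k1) (p := fun k =>
        decide (β.unpair.2.unpair.1 + 1 ≤ k) && w k m t) (by omega) (by
          show (decide (β.unpair.2.unpair.1 + 1 ≤ k1) && w k1 m t) = true
          rw [f1.2, Bool.and_true, decide_eq_true_eq]
          have := (le_max_left l 1).trans f1.1
          omega)
      rw [hfa, Option.getD_some] at hρ
      omega

private theorem ib_tgf (hw : Apx w) {l i : ℕ} {v : ℕ × ℕ × ℕ}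
    (h : ∃ T, ∀ T', T ≤ T' → ∃ t, T' ≤ t ∧ (P2 w).tg l i t = v) : (P2 w).tgf l i = v := by
  have hs := Classical.epsilon_spec (p := fun T => ∀ t, T ≤ t →
    (P2 w).tg l i t = (P2 w).tg l i T) (ib_tgl hw l i)
  obtain ⟨T, hT⟩ := h
  obtain ⟨t, ht, hv⟩ := hT _ (le_max_left T (Classical.epsilon fun T => ∀ t, T ≤ t →
    (P2 w).tg l i t = (P2 w).tg l i T))
  have := hs t ((le_max_right _ _).trans ht)
  unfold Par.tgf
  rw [← this, hv]

theorem P2_tgf_A (hw : Apx w) {l i : ℕ} (h0 : l % 2 = 0)
    (h1 : 1 ≤ (lst (l / 2).unpair.2).length) (h2 : (lst (l / 2).unpair.2).length ≤ i)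
    (h3 : Lim w (lst (l / 2).unpair.2).length i false) :
    (P2 w).tgf l i = ((lst (l / 2).unpair.2).length + 1, 1, 1) := by
  obtain ⟨T, hT⟩ := h3
  refine ib_tgf hw ⟨T, fun T' hT' => ⟨T', le_rfl, ?_⟩⟩
  rw [ib_even h0, if_pos]
  rw [hT T' hT', Bool.and_eq_true, Bool.and_eq_true, decide_eq_true_eq, decide_eq_true_eq]
  exact ⟨h1, h2, rfl⟩

theorem P2_tgf_B (hw : Apx w) {l i k : ℕ} (h0 : l % 2 = 1) (h1 : max l 1 ≤ k) (h2 : k < i)
    (h3 : Lim w k i true) : ∃ k', k' ≤ k ∧ (P2 w).tgf l i = (i, 0, i - (k' + 1)) := by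
  have hl : l % 2 ≠ 0 := by omega
  obtain ⟨T, hT⟩ := h3
  have hs := Classical.epsilon_spec (p := fun T => ∀ t, T ≤ t →
    (P2 w).tg l i t = (P2 w).tg l i T) (ib_tgl hw l i)
  set E := Classical.epsilon fun T => ∀ t, T ≤ t → (P2 w).tg l i t = (P2 w).tg l i T with hE
  obtain ⟨a, ha, hfa⟩ := ib_find_le (n := i) (b := k) (p := fun k =>
    decide (max l 1 ≤ k) && w k i (max T E)) h2 (by
      show (decide (max l 1 ≤ k) && w k i (max T E)) = true
      rw [hT _ (le_max_left _ _), Bool.and_true, decide_eq_true_eq]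
      exact h1)
  refine ⟨a, ha, ?_⟩
  have := hs (max T E) (le_max_right _ _)
  unfold Par.tgf
  rw [← hE, ← this, ib_odd hl, hfa]
  rfl

theorem P2_rhof (hw : Apx w) {c k x i : ℕ} (h2 : k + 1 ≤ i) (h3 : Lim w (k + 1) i true) :
    (P2 w).rhof (Nat.pair c (Nat.pair k x)) i = k + 1 := by
  obtain ⟨T, hT⟩ := h3
  have hs := Classical.epsilon_spec (p := fun T => ∀ t, T ≤ t →
    (P2 w).rho (Nat.pair c (Nat.pair k x)) i t = (P2 w).rho (Nat.pair c (Nat.pair k x)) i T)
    (ib_rhl hw _ i)
  set E := Classical.epsilon fun T => ∀ t, T ≤ t →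
    (P2 w).rho (Nat.pair c (Nat.pair k x)) i t = (P2 w).rho (Nat.pair c (Nat.pair k x)) i T with hE
  have := hs (max T E) (le_max_right _ _)
  unfold Par.rhof
  rw [← hE, ← this]
  show ((List.range (i + 1)).find? fun k' =>
    decide ((Nat.pair c (Nat.pair k x)).unpair.2.unpair.1 + 1 ≤ k') &&
      w k' i (max T E)).getD (i + 1) = k + 1
  rw [Nat.unpair_pair]
  simp only [Nat.unpair_pair]
  obtain ⟨a, ha, hfa⟩ := ib_find_le (n := i + 1) (b := k + 1) (p := fun k' =>
    decide (k + 1 ≤ k') && w k' i (max T E)) (by omega) (by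
      show (decide (k + 1 ≤ k + 1) && w (k + 1) i (max T E)) = true
      rw [hT _ (le_max_left _ _), Bool.and_true, decide_eq_true_eq])
  rw [hfa, Option.getD_some]
  obtain ⟨f1, -, -⟩ := ib_find_some hfa
  rw [Bool.and_eq_true, decide_eq_true_eq] at f1
  omega

theorem P2_rho_ge {c k x m t : ℕ} (h : k + 1 ≤ m) :
    k + 1 ≤ (P2 w).rho (Nat.pair c (Nat.pair k x)) m t := by
  show k + 1 ≤ ((List.range (m + 1)).find? fun k' =>
    decide ((Nat.pair c (Nat.pair k x)).unpair.2.unpair.1 + 1 ≤ k') &&
      w k' m t).getD (m + 1)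
  rw [Nat.unpair_pair]
  simp only [Nat.unpair_pair]
  cases hf : (List.range (m + 1)).find? fun k' => decide (k + 1 ≤ k') && w k' m t with
  | none => rw [Option.getD_none]; omega
  | some a =>
    rw [Option.getD_some]
    obtain ⟨f1, -, -⟩ := ib_find_some hf
    rw [Bool.and_eq_true, decide_eq_true_eq] at f1
    exact f1.1

end Pool.Agent.Work.MP_ed0a9a_lc.H
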