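import Mathlib
import Pool.Agent.Work.MP_ed0a9a_lc.H.Sa
import Pool.Agent.Work.MP_ed0a9a_lc.H.Mf

/-!
# Module `Sc`: the interpretations stabilise

PROOFS.  `asg_stab_of`: induction on `t ≥ T`: the symbol is born (`syS i < t`) and
`(asg P T i).1 ≤ D0 ≤ lv P t`, so it is unchanged.
`exists_stab`: if `i = 0`: constant.  For `t > syS i` let `D_t = (asg P t i).1`; it is nonincreasing
(the new value is `lv P t + 1` only if `lv P t < D_t`).  Let `D0 = D_{syS i + 1}`; all `D_t ≤ D0`.
By `fin_lv` choose `T > syS i` with `D0 ≤ lv P t` for all `t ≥ T`; then nothing changes after `T`.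
`Rf_eq`: `Classical.epsilon_spec` of `exists_stab`; two large stages give the same value.
`Rf_of_stab`: special case with the bound on the levels.
`Rf_zero`: clear.  `Rf_inv`: `(ainv ..).inv` at a large stage.
`InvS`-constants: `kf`.
-/

namespace Pool.Agent.Work.MP_ed0a9a_lc.H

variable {P : Par}

private theorem sc_zero (P : Par) (t : ℕ) : asg P t 0 = (0, 0, [], Itn.plus) := by
  cases t with
  | zero => simp [asg]
  | succ t => simp [asg]

private theorem sc_succ (P : Par) {t i : ℕ} (hi : i ≠ 0) (ht : syS i < t) :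
    asg P (t + 1) i = if (asg P t i).1 ≤ lv P t then asg P t i
      else (lv P t + 1, (evn P t (st P t)).1, patN P t (st P t) (ar i) (asg P t i),
        itnN P t (st P t) i) := by
  rw [asg, if_neg hi, if_neg (by omega), if_neg (by omega)]

private theorem sc_const (P : Par) {i T : ℕ} (hi : syS i < T)
    (h : ∀ t, T ≤ t → (asg P T i).1 ≤ lv P t) : ∀ t, T ≤ t → asg P t i = asg P T i := by
  intro t ht
  by_cases h0 : i = 0
  · rw [h0, sc_zero, sc_zero]
  · induction t, ht using Nat.le_induction with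
    | base => rfl
    | succ t ht ih =>
      rw [sc_succ P h0 (by omega), ih, if_pos (h t ht)]

theorem exists_stab (hP : P.Ok) (i : ℕ) : ∃ T, ∀ t, T ≤ t → asg P t i = asg P T i := by
  by_cases h0 : i = 0
  · refine ⟨0, fun t _ => ?_⟩
    rw [h0, sc_zero, sc_zero]
  · have hle : ∀ t, syS i + 1 ≤ t → (asg P t i).1 ≤ (asg P (syS i + 1) i).1 := by
      intro t ht
      induction t, ht using Nat.le_induction with
      | base => exact le_rfl
      | succ t ht ih =>
        rw [sc_succ P h0 (by omega)]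
        by_cases hc : (asg P t i).1 ≤ lv P t
        · rw [if_pos hc]
          exact ih
        · rw [if_neg hc]
          show lv P t + 1 ≤ _
          omega
    obtain ⟨T1, hT1⟩ := fin_lv hP (asg P (syS i + 1) i).1
    refine ⟨max T1 (syS i + 1), sc_const P (by omega) fun t ht => ?_⟩
    have h1 := hle (max T1 (syS i + 1)) (le_max_right _ _)
    have h2 := hT1 t (le_trans (le_max_left _ _) ht)
    omega

private theorem sc_spec (hP : P.Ok) (i : ℕ) : ∀ t,
    (Classical.epsilon fun T => ∀ t, T ≤ t → asg P t i = asg P T i) ≤ t →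
      asg P t i = Rf P i := by
  have h := Classical.epsilon_spec (exists_stab hP i)
  exact h

theorem Rf_eq (hP : P.Ok) (i : ℕ) : ∃ T, ∀ t, T ≤ t → asg P t i = Rf P i :=
  ⟨_, sc_spec hP i⟩

/-- If the symbol is born and all later events have levels `≥ D` then its interpretation is
final. -/
theorem Rf_of_stab (hP : P.Ok) {i T : ℕ} (hi : syS i < T)
    (h : ∀ t, T ≤ t → (asg P T i).1 ≤ lv P t) : ∀ t, T ≤ t → asg P t i = Rf P i := by
  intro t ht
  obtain ⟨T', hT'⟩ := Rf_eq hP i
  have h1 := sc_const P hi h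
  rw [h1 t ht, ← h1 (max T T') (le_max_left _ _), hT' _ (le_max_right _ _)]

theorem Rf_zero (hP : P.Ok) : Rf P 0 = (0, 0, [], Itn.plus) := by
  obtain ⟨T, hT⟩ := Rf_eq hP 0
  rw [← hT T le_rfl, sc_zero]

theorem Rf_inv (hP : P.Ok) (i : ℕ) : ∃ n, InvS n (Rf P i) := by
  obtain ⟨T, hT⟩ := Rf_eq hP i
  rw [← hT T le_rfl]
  exact ⟨_, (ainv hP T i).inv⟩

end Pool.Agent.Work.MP_ed0a9a_lc.H
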