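import Mathlib
import Pool.Agent.Work.MP_ed0a9a_lc.H.Sc

/-!
# Module `Sd`: final interpretations of the symbols of the levels

Simplify `syS (sy σ κ p) = σ` etc. (`syS_sy`, `syK_sy`, `syP_sy`: `Nat.unpair_pair`).

PROOFS.
`Rf_ind`: let `σ = sf P i`; `lv P σ = i` (`lv_sf`), so `asg P (σ + 1) (sy σ 0 p) = crt i (kapA (st P σ) i) .. 0 p
= (i, 0, [], ind (kf P i))` (`kap_sf`).  All later events have levels `≥ i` (`lv_sf`):
`Rf_of_stab`.
`Rf_sc`: let `τ = tau P i`; `lv P τ = i` (`tau_spec`), so `asg P (τ + 1) (sy τ 1 a)` is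
`(i + 1, 0, [], sc (kf P i) a)`: `kapA (st P τ) i = kf P i` (`kap_sf`, `sf_le`), and
`(evn P τ (st P τ)).1 = kapA (st P (τ + 1)) (i + 1) = kf P (i + 1)` (`kapA_succ_new`, `fin_kap`).
Later events have levels `≥ i + 1`: `Rf_of_stab`.
`exists_sc`: `kf P 0 = 0`, `q 0 = 2`, `kf` is unbounded (`le_kf`), `x < q x`: take the largest `i` with
`q (kf P i) ≤ x` (`Nat.find` for the least `i` with `x < q (kf P (i + 1))`).
`asg_q`: for `sf P i < t ≤ tau P i + 1` the interpretation of `s = sy (sf P i) 2 l` has `D = i + 1`: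
induction on `t`: at `t = sf P i + 1`: `crt` of kind 2: `(i + 1, 0, [], none)`.  Step at `t` with
`sf P i < t ≤ tau P i`: `lv P t ≥ i`; if `lv P t > i` unchanged; if `lv P t = i` the new value is
`(i + 1, N, patN .., itnN ..)`.
`Rf_q_on`: `(l, y) ∈ af P i`: `sf P i < tau P i` (`sf_lt_tau`), at `τ = tau P i` the level is `i < D = i + 1`, the
new interpretation is `(i + 1, N, patN P τ (st P τ) (ar s) (asg P τ s), itnN P τ (st P τ) s)`, with
`itnN = rk ..` because `syK s = 2`, `(stgN ..).getD i 0 = stgA (st P (τ + 1)) i = sf P i` (`thr_entries`),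
and the lookup of `l` in `actN = af P i` is not `none` (`af_eq`, `af_lookup`);
`P.tg l i τ = P.tgf l i` (`fin_tg`).  Later events have levels `≥ i + 1`: `Rf_of_stab`.
`Rf_q_off`: `l ∉ af P i`.  CLAIM: for `sf P i < t ≤ tau P i + 1`, `asg P t s` is false on all tuples (in all
modules): induction on `t`: `crt` gives `none`.  Step: unchanged, or `lv P t = i`: `patN` has
only values `evA (asg P t s) .. = false` (`evA_iff` and the claim), and `itnN = none` unless
`l ∈ actN P t (st P t)`; but then `l ∈ actA (st P (t+1)) i`, and since there is no configuration event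
of level `i` after `sf P i` (`stg_sf`: the stage does not change) the acting guards of level `i` are never
removed until `tau P i + 1` (`actA_succ_lv`, `actN` appends), so `l ∈ af P i`, contradiction
(lemma `act_sub_af`).  Then `Rf_of_stab` at `tau P i + 1` (`D ≤ i + 1`).
-/

namespace Pool.Agent.Work.MP_ed0a9a_lc.H

variable {P : Par}

theorem syS_sy (σ κ p : ℕ) : syS (sy σ κ p) = σ := by
  unfold syS sy
  rw [Nat.add_sub_cancel, Nat.unpair_pair]

theorem syK_sy (σ κ p : ℕ) : syK (sy σ κ p) = κ := by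
  unfold syK sy
  rw [Nat.add_sub_cancel, Nat.unpair_pair, Nat.unpair_pair]

theorem syP_sy (σ κ p : ℕ) : syP (sy σ κ p) = p := by
  unfold syP sy
  rw [Nat.add_sub_cancel, Nat.unpair_pair, Nat.unpair_pair]

private theorem sy_ne (σ κ p : ℕ) : sy σ κ p ≠ 0 := Nat.succ_ne_zero _

theorem ar_sy_zero (σ p : ℕ) : ar (sy σ 0 p) = 2 * σ + 8 + p := by
  unfold ar
  rw [if_neg (sy_ne _ _ _), syS_sy, syK_sy, syP_sy, if_pos rfl]

theorem ar_sy_succ (σ κ p : ℕ) : ar (sy σ (κ + 1) p) = 2 * σ + 8 := by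
  unfold ar
  rw [if_neg (sy_ne _ _ _), syS_sy, syK_sy, if_neg (Nat.succ_ne_zero _)]

private theorem sd_succ (P : Par) (t i : ℕ) :
    asg P (t + 1) i = if i = 0 then (0, 0, [], Itn.plus)
    else if syS i = t then crt (lv P t) (kapA (st P t) (lv P t)) (evn P t (st P t)).1 (syK i) (syP i)
    else if t < syS i then (0, 0, [], Itn.none)
    else if (asg P t i).1 ≤ lv P t then asg P t i
    else (lv P t + 1, (evn P t (st P t)).1, patN P t (st P t) (ar i) (asg P t i),
      itnN P t (st P t) i) := rfl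

private theorem sd_born (P : Par) (σ κ p : ℕ) :
    asg P (σ + 1) (sy σ κ p) =
      crt (lv P σ) (kapA (st P σ) (lv P σ)) (evn P σ (st P σ)).1 κ p := by
  rw [sd_succ, if_neg (sy_ne _ _ _), syS_sy, if_pos rfl, syK_sy, syP_sy]

private theorem sd_keep (P : Par) {σ κ p t : ℕ} (ht : σ < t)
    (h : (asg P t (sy σ κ p)).1 ≤ lv P t) :
    asg P (t + 1) (sy σ κ p) = asg P t (sy σ κ p) := by
  rw [sd_succ, if_neg (sy_ne _ _ _), syS_sy, if_neg ht.ne, if_neg (Nat.lt_asymm ht), if_pos h]

private theorem sd_change (P : Par) {σ κ p t : ℕ} (ht : σ < t)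
    (h : ¬ (asg P t (sy σ κ p)).1 ≤ lv P t) :
    asg P (t + 1) (sy σ κ p) = (lv P t + 1, (evn P t (st P t)).1,
      patN P t (st P t) (ar (sy σ κ p)) (asg P t (sy σ κ p)), itnN P t (st P t) (sy σ κ p)) := by
  rw [sd_succ, if_neg (sy_ne _ _ _), syS_sy, if_neg ht.ne, if_neg (Nat.lt_asymm ht), if_neg h]

theorem Rf_ind (hP : P.Ok) (i p : ℕ) :
    Rf P (sy (sf P i) 0 p) = (i, 0, [], Itn.ind (kf P i)) := by
  have h1 : asg P (sf P i + 1) (sy (sf P i) 0 p) = (i, 0, [], Itn.ind (kf P i)) := by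
    rw [sd_born]
    unfold crt
    rw [if_pos rfl, (lv_sf hP i).1, kap_sf hP le_rfl]
  rw [← Rf_of_stab hP (i := sy (sf P i) 0 p) (T := sf P i + 1)
    (by rw [syS_sy]; exact Nat.lt_succ_self _)
    (fun t ht => by rw [h1]; exact (lv_sf hP i).2.2 t (by omega)) _ le_rfl, h1]

private theorem sd_new (hP : P.Ok) (i : ℕ) :
    (evn P (tau P i) (st P (tau P i))).1 = kf P (i + 1) := by
  have h := kapA_succ_new P (tau P i)
  rw [(tau_spec hP i).1, fin_kap hP (Nat.lt_succ_self (tau P i)) le_rfl] at h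
  exact h.symm

theorem Rf_sc (hP : P.Ok) (i a : ℕ) (h : q (kf P i) ≤ a) (h' : a < q (kf P (i + 1))) :
    Rf P (sy (tau P i) 1 a) = (i + 1, 0, [], Itn.sc (kf P i) a) := by
  have h1 : asg P (tau P i + 1) (sy (tau P i) 1 a) = (i + 1, 0, [], Itn.sc (kf P i) a) := by
    rw [sd_born]
    unfold crt
    rw [if_neg one_ne_zero, if_pos rfl, sd_new hP, (tau_spec hP i).1, kap_sf hP (sf_le hP i),
      if_pos ⟨h, h'⟩]
  rw [← Rf_of_stab hP (i := sy (tau P i) 1 a) (T := tau P i + 1)
    (by rw [syS_sy]; exact Nat.lt_succ_self _)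
    (fun t ht => by rw [h1]; exact (tau_spec hP i).2 t (by omega)) _ le_rfl, h1]

/-- All scalars are named. -/
theorem exists_sc (hP : P.Ok) (x : ℕ) (hx : 2 ≤ x) :
    ∃ i n D n', 2 ≤ ar i ∧ q n ≤ x ∧ Rf P i = (D, n', [], Itn.sc n x) := by
  classical
  have hq : ∀ n, n < q n := fun n =>
    lt_trans Nat.lt_two_pow_self Nat.lt_two_pow_self
  have hex : ∃ j, x < q (kf P j) := ⟨x, lt_of_lt_of_le (hq x) (q_mono (le_kf hP x))⟩
  obtain ⟨j, hj, hmin⟩ : ∃ j, x < q (kf P j) ∧ ∀ k, k < j → ¬ x < q (kf P k) :=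
    ⟨Nat.find hex, Nat.find_spec hex, fun k hk => Nat.find_min hex hk⟩
  cases j with
  | zero =>
    exfalso
    rw [kf_zero hP] at hj
    have : q 0 = 2 := rfl
    omega
  | succ j =>
    have h1 : q (kf P j) ≤ x := not_lt.1 (hmin j (Nat.lt_succ_self j))
    refine ⟨sy (tau P j) 1 x, kf P j, j + 1, 0, ?_, h1, Rf_sc hP j x h1 hj⟩
    rw [ar_sy_succ]
    omega

/-- The acting guards of level `i` are never removed after the stage `sf P i`. -/
theorem act_sub_af (hP : P.Ok) {i t : ℕ} (h : sf P i < t) {p : ℕ × ℕ}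
    (hp : p ∈ actA (st P t) i) : p ∈ af P i := by
  have hstep : ∀ s, sf P i < s → p ∈ actA (st P s) i → p ∈ actA (st P (s + 1)) i := by
    intro s hs hps
    rcases ((lv_sf hP i).2.2 s hs.le).lt_or_eq with hl | hl
    · rw [actA_succ P s hl]
      exact hps
    · have h1 := actA_succ_lv P s
      have h2 := stgA_succ_lv P s
      rw [← hl] at h1 h2
      rw [(stg_sf hP (Nat.lt_succ_of_lt hs)).2] at h2
      have hisc : ¬ isc P s (st P s) = true := by
        intro hc
        rw [if_pos hc] at h2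
        omega
      rw [h1]
      unfold actN
      rw [if_neg hisc]
      apply List.mem_append_left
      have hl' : lev P s (st P s) = i := hl.symm
      rw [hl']
      exact hps
  have hall : ∀ s, t ≤ s → p ∈ actA (st P s) i := by
    intro s hs
    induction s, hs using Nat.le_induction with
    | base => exact hp
    | succ s hs ih => exact hstep s (lt_of_lt_of_le h hs) ih
  have h1 := hall (max t (tau P i + 1)) (le_max_left _ _)
  rw [fin_act hP (i := i) (lt_of_lt_of_le (Nat.lt_succ_self _) (le_max_right _ _)) le_rfl] at h1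
  exact h1

private theorem sd_base (hP : P.Ok) (i l : ℕ) :
    asg P (sf P i + 1) (sy (sf P i) 2 l) = (i + 1, 0, [], Itn.none) := by
  rw [sd_born]
  unfold crt
  rw [if_neg (by norm_num), if_neg (by norm_num), (lv_sf hP i).1]

private theorem sd_D (hP : P.Ok) (i l : ℕ) {t : ℕ} (ht : sf P i + 1 ≤ t) :
    (asg P t (sy (sf P i) 2 l)).1 = i + 1 := by
  induction t, ht using Nat.le_induction with
  | base => rw [sd_base hP]
  | succ t ht ih =>
    by_cases h : (asg P t (sy (sf P i) 2 l)).1 ≤ lv P t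
    · rw [sd_keep P (by omega) h, ih]
    · rw [sd_change P (by omega) h]
      have h1 := (lv_sf hP i).2.2 t (by omega)
      show lv P t + 1 = i + 1
      omega

theorem Rf_q_off (hP : P.Ok) {i l : ℕ} (h : ∀ y, (l, y) ∉ af P i) {W : Type}
    [AddCommGroup W] [Module K W] (z : List W) : ¬ holds (Rf P (sy (sf P i) 2 l)) z := by
  have key : ∀ t, sf P i + 1 ≤ t → ∀ (W : Type) [AddCommGroup W] [Module K W] (z : List W),
      ¬ holds (asg P t (sy (sf P i) 2 l)) z := by
    intro t ht
    induction t, ht using Nat.le_induction with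
    | base =>
      intro W _ _ z
      rw [sd_base hP, holds_nil_pats]
      exact hI_none _
    | succ t ht ih =>
      intro W _ _ z
      by_cases hD : (asg P t (sy (sf P i) 2 l)).1 ≤ lv P t
      · rw [sd_keep P (by omega) hD]
        exact ih W z
      · have hlv : lv P t = i := by
          rw [sd_D hP i l ht] at hD
          have h1 := (lv_sf hP i).2.2 t (by omega)
          omega
        have hit : itnN P t (st P t) (sy (sf P i) 2 l) = Itn.none := by
          unfold itnN
          rw [if_neg]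
          rintro ⟨-, -, h3⟩
          rw [syP_sy, ← actA_succ_lv, hlv] at h3
          obtain ⟨y, hy⟩ := Option.ne_none_iff_exists'.1 h3
          have hy' := (mem_iff_lookup P (t + 1)).1 hy
          exact h y (act_sub_af hP (by omega) hy')
        rw [sd_change P (by omega) hD, hit]
        rintro (⟨p, hp, -, hp2⟩ | ⟨-, h2⟩)
        · have hp' : p ∈ patN P t (st P t) (ar (sy (sf P i) 2 l))
              (asg P t (sy (sf P i) 2 l)) := hp
          unfold patN at hp'
          rw [List.mem_flatMap] at hp'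
          obtain ⟨β, -, hβ⟩ := hp'
          split_ifs at hβ with hs
          · rw [List.mem_map] at hβ
            obtain ⟨I, -, rfl⟩ := hβ
            exact ih _ _ ((evA_iff _ _).1 hp2)
          · exact absurd hβ List.not_mem_nil
        · exact hI_none _ h2
  obtain ⟨T, hT⟩ := Rf_eq hP (sy (sf P i) 2 l)
  rw [← hT (max T (sf P i + 1)) (le_max_left _ _)]
  exact key _ (le_max_right _ _) W z

theorem Rf_q_on (hP : P.Ok) {i l y : ℕ} (h : (l, y) ∈ af P i) :
    Rf P (sy (sf P i) 2 l) = (i + 1, kf P (i + 1),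
      patN P (tau P i) (st P (tau P i)) (2 * sf P i + 8) (asg P (tau P i) (sy (sf P i) 2 l)),
      Itn.rk (kf P i) (kf P (i + 1)) (P.tgf l i).1 (P.tgf l i).2.1 (P.tgf l i).2.2) := by
  have hst := (sf_lt_tau hP h).1
  have hlv : lv P (tau P i) = i := (tau_spec hP i).1
  have hD := sd_D hP i l (t := tau P i) (by omega)
  have hit : itnN P (tau P i) (st P (tau P i)) (sy (sf P i) 2 l) =
      Itn.rk (kf P i) (kf P (i + 1)) (P.tgf l i).1 (P.tgf l i).2.1 (P.tgf l i).2.2 := by
    have hlv' : lev P (tau P i) (st P (tau P i)) = i := hlv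
    unfold itnN
    rw [if_pos, syP_sy, hlv', sd_new hP, kap_sf hP hst.le, (fin_tg hP le_rfl (af_le hP h)).1]
    refine ⟨syK_sy _ _ _, ?_, ?_⟩
    · rw [hlv', syS_sy]
      exact (thr_entries P (tau P i) (i := i) hlv.ge).2.2
    · rw [syP_sy, ← af_eq hP, (af_lookup hP).2 h]
      exact Option.some_ne_none _
  have h1 : asg P (tau P i + 1) (sy (sf P i) 2 l) = (i + 1, kf P (i + 1),
      patN P (tau P i) (st P (tau P i)) (2 * sf P i + 8) (asg P (tau P i) (sy (sf P i) 2 l)),
      Itn.rk (kf P i) (kf P (i + 1)) (P.tgf l i).1 (P.tgf l i).2.1 (P.tgf l i).2.2) := by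
    rw [sd_change P hst (by rw [hD, hlv]; omega), hit, hlv, sd_new hP, ar_sy_succ]
  rw [← Rf_of_stab hP (i := sy (sf P i) 2 l) (T := tau P i + 1)
    (by rw [syS_sy]; omega)
    (fun t ht => by rw [h1]; exact (tau_spec hP i).2 t (by omega)) _ le_rfl, h1]

end Pool.Agent.Work.MP_ed0a9a_lc.H
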