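import Mathlib
import Pool.Agent.Work.MP_ed0a9a_lc.H.Sd
import Pool.Agent.Work.MP_ed0a9a_lc.H.Ca

/-!
# Module `Ka`: computable copies as threats

PROOFS.  `Encodable.encode true = 1`, `Encodable.encode false = 0`.
`evq_sound`: `Nat.Partrec.Code.evaln_sound` and `T.comp`.
`evq_exists`: `Nat.Partrec.Code.evaln_complete` and `evq_mono`.
`evq_one`, `evq_zero`, `ev_true`, `ev_false`: with `T.spec`.
`evq_ind`: `Rf_ind`, `holds_nil_pats`, `hI_ind_iff`, `ar_sy_zero`; `ev_ind`, `ev_not_ind` the same.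
`thr_of_comp`: let `S`, `r`, `hr : Computable₂ r`, `hS`, `F : W ≃[sig ar] ℕ` be given by `HasCompCopy`.  Put
`f = F.toEquiv`.  The function `n ↦ encode (r n.unpair.1 (Denumerable.ofNat (List ℕ) n.unpair.2))` is
computable, so it has a code `c` (`Nat.Partrec.Code.exists_code`), `e = encode c`
(`Denumerable.ofNat_encode`).  `spec`: a list `w` of length `ar i` is `List.ofFn v` (up to a cast);
`r i (ofFn v) = true ↔ S.RelMap ⟨i, rfl⟩ v ↔ RelMap ⟨i, rfl⟩ (f.symm ∘ v)` in `W` (`F.symm.map_rel`), which is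
`holds (Rf P i) (ofFn (f.symm ∘ v)) = holds (Rf P i) (w.map f.symm)` (`List.map_ofFn`).
-/

namespace Pool.Agent.Work.MP_ed0a9a_lc.H

open FirstOrder FirstOrder.Language

variable {P : Par} {W : Type} [AddCommGroup W] [Module K W] {e : ℕ}

theorem evq_sound (T : Thr P W e) {t i : ℕ} {v : List ℕ} {b : ℕ} (h : evq e t i v = some b) :
    b = Encodable.encode (T.r i v) := by
  have h1 : b ∈ (Denumerable.ofNat Nat.Partrec.Code e).eval (Nat.pair i (Encodable.encode v)) :=
    Nat.Partrec.Code.evaln_sound (by exact h)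
  rw [T.comp] at h1
  exact Part.mem_some_iff.1 h1

theorem evq_exists (T : Thr P W e) (i : ℕ) (v : List ℕ) :
    ∃ t0, ∀ t, t0 ≤ t → evq e t i v = some (Encodable.encode (T.r i v)) := by
  have h1 : Encodable.encode (T.r i v) ∈
      (Denumerable.ofNat Nat.Partrec.Code e).eval (Nat.pair i (Encodable.encode v)) := by
    rw [T.comp]
    exact Part.mem_some _
  obtain ⟨k, hk⟩ := Nat.Partrec.Code.evaln_complete.1 h1
  exact ⟨k, fun t ht => evq_mono ht hk⟩

theorem evq_one (T : Thr P W e) {t i : ℕ} {w : List ℕ} (h : evq e t i w = some 1)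
    (hw : w.length = ar i) : holds (Rf P i) (w.map T.f.symm) := by
  have h1 := evq_sound T h
  rw [← T.spec i w hw]
  cases hb : T.r i w with
  | true => rfl
  | false =>
    rw [hb] at h1
    exact absurd h1 (by decide)

theorem evq_zero (T : Thr P W e) {t i : ℕ} {w : List ℕ} (h : evq e t i w = some 0)
    (hw : w.length = ar i) : ¬ holds (Rf P i) (w.map T.f.symm) := by
  have h1 := evq_sound T h
  rw [← T.spec i w hw]
  cases hb : T.r i w with
  | false => simp
  | true =>
    rw [hb] at h1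
    exact absurd h1 (by decide)

theorem ev_true (T : Thr P W e) {i : ℕ} {w : List ℕ} (hw : w.length = ar i)
    (h : holds (Rf P i) (w.map T.f.symm)) : ∃ t0, ∀ t, t0 ≤ t → evq e t i w = some 1 := by
  obtain ⟨t0, ht⟩ := evq_exists T i w
  refine ⟨t0, fun t h1 => ?_⟩
  rw [ht t h1, (T.spec i w hw).2 h]
  rfl

theorem ev_false (T : Thr P W e) {i : ℕ} {w : List ℕ} (hw : w.length = ar i)
    (h : ¬ holds (Rf P i) (w.map T.f.symm)) : ∃ t0, ∀ t, t0 ≤ t → evq e t i w = some 0 := by
  obtain ⟨t0, ht⟩ := evq_exists T i w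
  refine ⟨t0, fun t h1 => ?_⟩
  have h2 : T.r i w = false := by
    rw [← T.spec i w hw] at h
    simpa using h
  rw [ht t h1, h2]
  rfl

private theorem holds_ind (hP : P.Ok) (i p : ℕ) (z : List W) :
    holds (Rf P (sy (sf P i) 0 p)) z ↔ Ind (kf P i) z := by
  rw [Rf_ind hP, holds_nil_pats, hI_ind_iff]

/-- The independence symbols of the final level `i`. -/
theorem evq_ind (hP : P.Ok) (T : Thr P W e) {t i p : ℕ} {w : List ℕ}
    (hw : w.length = 2 * sf P i + 8 + p) (h : evq e t (sy (sf P i) 0 p) w = some 1) :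
    Ind (kf P i) (w.map T.f.symm) :=
  (holds_ind hP i p _).1 (evq_one T h (by rw [ar_sy_zero]; exact hw))

theorem evq_not_ind (hP : P.Ok) (T : Thr P W e) {t i p : ℕ} {w : List ℕ}
    (hw : w.length = 2 * sf P i + 8 + p) (h : evq e t (sy (sf P i) 0 p) w = some 0) :
    ¬ Ind (kf P i) (w.map T.f.symm) := fun hi =>
  evq_zero T h (by rw [ar_sy_zero]; exact hw) ((holds_ind hP i p _).2 hi)

theorem ev_ind (hP : P.Ok) (T : Thr P W e) {i p : ℕ} {w : List ℕ}
    (hw : w.length = 2 * sf P i + 8 + p) (h : Ind (kf P i) (w.map T.f.symm)) :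
    ∃ t0, ∀ t, t0 ≤ t → evq e t (sy (sf P i) 0 p) w = some 1 :=
  ev_true T (by rw [ar_sy_zero]; exact hw) ((holds_ind hP i p _).2 h)

theorem ev_not_ind (hP : P.Ok) (T : Thr P W e) {i p : ℕ} {w : List ℕ}
    (hw : w.length = 2 * sf P i + 8 + p) (h : ¬ Ind (kf P i) (w.map T.f.symm)) :
    ∃ t0, ∀ t, t0 ≤ t → evq e t (sy (sf P i) 0 p) w = some 0 :=
  ev_false T (by rw [ar_sy_zero]; exact hw) (fun hh => h ((holds_ind hP i p _).1 hh))

private theorem ex_ofFn {n : ℕ} (w : List ℕ) (h : w.length = n) :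
    ∃ v : Fin n → ℕ, List.ofFn v = w := by
  subst h
  exact ⟨w.get, List.ofFn_get w⟩

theorem thr_of_comp (P : Par) (W : Type) [AddCommGroup W] [Module K W]
    (h : letI := strM ar (Rf P) W; HasCompCopy ar W) : ∃ e, Nonempty (Thr P W e) := by
  letI := strM ar (Rf P) W
  obtain ⟨S, r, hr, hS, ⟨F⟩⟩ := h
  have hg : Computable (fun n : ℕ => Encodable.encode
      (r n.unpair.1 (Denumerable.ofNat (List ℕ) n.unpair.2))) :=
    Computable.encode.comp (hr.comp
      ((Computable.fst).comp (Primrec.unpair.to_comp))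
      ((Computable.ofNat (List ℕ)).comp ((Computable.snd).comp (Primrec.unpair.to_comp))))
  obtain ⟨c, hc⟩ := Nat.Partrec.Code.exists_code.1 (Partrec.nat_iff.1 hg.partrec)
  refine ⟨Encodable.encode c, ⟨⟨F.toEquiv, r, ?_, ?_⟩⟩⟩
  · intro i v
    rw [Denumerable.ofNat_encode, hc]
    simp
  · intro i w hw
    obtain ⟨v, rfl⟩ := ex_ofFn w hw
    rw [hS i v]
    have h1 := F.map_rel (⟨i, rfl⟩ : (sig ar).Relations (ar i)) (fun t => F.toEquiv.symm (v t))
    have h2 : (F ∘ fun t => F.toEquiv.symm (v t)) = v := by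
      funext t
      exact F.toEquiv.apply_symm_apply (v t)
    rw [h2] at h1
    rw [List.map_ofFn]
    exact h1

end Pool.Agent.Work.MP_ed0a9a_lc.H
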