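import Mathlib
import Pool.Agent.Work.MP_ed0a9a_lc.H.Ka
import Pool.Agent.Work.MP_ed0a9a_lc.H.Lc

/-!
# Module `Kb`: the meaning of admissible tuples

PROOFS.  `P.tgf l i` is a value `P.tg l i T`, so `hP.kA`, `hP.kB` apply (`tgf_A`, `tgf_B`).
`i ≤ σ := sf P i` (`le_sf`).
`wok_PP`: kind A: `wok` says `u.take k = bas`, `u.getD k 0 = y`, `k = (P.bas l).length ≤ i`;
`u.length = 2 σ + 7 > k`, so `u.take (k + 1) = bas ++ [y]`, `(P.tgf l i).1 = k + 1`;
`((u.take (k+1)).map f.symm).map f` is `u.take (k + 1)`; `Ind` of the prefix by `ind_sublist`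
(`u.take (k + 1)` is a sublist of `u.take (2 σ + 7)`).
Kind B: `(P.tgf l i).1 = i`, `u.length = 4 σ + 14 - i`.  Let `z = u.take i`, `w = u.take (2 σ + 7)`,
`D = w.drop i`, `D' = u.drop (2 σ + 7)`, so `w = z ++ D`, `u = z ++ D ++ D'`.  The first clause of `wok`
and `evq_ind` (`p = 2 σ + 6 - i`) give `Ind (kf P i) (u.map f.symm)`.  For `j < i`: if `j ∈ z`:
`spn_of_mem`.  Otherwise `evq .. (j :: w) = some 0`, so `¬ Ind (f.symm j :: w.map f.symm)`
(`evq_not_ind`, length `2 σ + 8`), so `Spn (kf P i) (w.map f.symm) (f.symm j)` (`ind_cons_iff`; `w` is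
independent by `ind_sublist`), in the same way `Spn` for `z ++ D'` (length `2 σ + 7`), and
`ind_cover`.
-/

namespace Pool.Agent.Work.MP_ed0a9a_lc.H

variable {P : Par} {W : Type} [AddCommGroup W] [Module K W]

theorem tgf_A (hP : P.Ok) {l i : ℕ} (hk : P.knd l = true) (h : (P.tgf l i).1 ≠ 0) :
    P.tgf l i = ((P.bas l).length + 1, 1, 1) ∧ (P.bas l).length ≤ i :=
  hP.kA l i _ hk h

theorem tgf_B (hP : P.Ok) {l i : ℕ} (hk : P.knd l = false) (h : (P.tgf l i).1 ≠ 0) :
    ∃ c, 1 ≤ c ∧ c ≤ i ∧ P.tgf l i = (i, 0, i - c) :=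
  hP.kB l i _ hk h

theorem tgf_le (hP : P.Ok) (l i : ℕ) : (P.tgf l i).1 ≤ i + 1 := by
  by_cases h : (P.tgf l i).1 = 0
  · rw [h]; exact Nat.zero_le _
  · cases hk : P.knd l with
    | true =>
      obtain ⟨h1, h2⟩ := tgf_A hP hk h
      rw [h1]
      show (P.bas l).length + 1 ≤ i + 1
      omega
    | false =>
      obtain ⟨c, h1, h2, h3⟩ := tgf_B hP hk h
      rw [h3]
      show i ≤ i + 1
      omega

theorem wok_PP (hP : P.Ok) {l i y t : ℕ} (T : Thr P W (P.cod l)) (hon : (P.tgf l i).1 ≠ 0)
    {u : List ℕ} (hu : u.length = ulen P (sf P i) l i)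
    (hw : wok P (sf P i) l i y t u = true)
    (hI : Ind (kf P i) ((u.take (2 * sf P i + 7)).map T.f.symm)) :
    PP P T.f l i y ((u.take (P.tgf l i).1).map T.f.symm) := by
  have hσ := le_sf hP i
  set σ := sf P i with hσ'
  cases hk : P.knd l with
  | true =>
    obtain ⟨h1, h2⟩ := tgf_A hP hk hon
    have hul : u.length = 2 * σ + 7 := by
      rw [hu]
      simp [ulen, hk]
    have h3 : (P.tgf l i).1 = (P.bas l).length + 1 := by rw [h1]
    simp only [wok, hk, if_true, Bool.and_eq_true, decide_eq_true_eq] at hw
    obtain ⟨hw1, hw2⟩ := hw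
    rw [h3]
    refine ⟨?_, ?_, ?_, ?_⟩
    · rw [h3, List.length_map, List.length_take, hul]
      omega
    · have h4 : (u.take ((P.bas l).length + 1)).map T.f.symm =
          ((u.take (2 * σ + 7)).map T.f.symm).take ((P.bas l).length + 1) := by
        rw [← List.map_take, List.take_take]
        congr 2
        omega
      rw [h4]
      exact ind_take hI _
    · intro _
      rw [List.map_map]
      have h4 : (T.f ∘ T.f.symm) = id := by
        funext x
        exact T.f.apply_symm_apply x
      rw [h4, List.map_id, List.take_add_one, hw1]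
      congr 1
      have h5 : (P.bas l).length < u.length := by omega
      rw [List.getElem?_eq_getElem h5]
      rw [List.getD_eq_getElem?_getD, List.getElem?_eq_getElem h5] at hw2
      simpa using hw2
    · intro hf
      rw [hk] at hf
      exact absurd hf (by decide)
  | false =>
    obtain ⟨c, hc1, hc2, hc3⟩ := tgf_B hP hk hon
    have h3 : (P.tgf l i).1 = i := by rw [hc3]
    have hul : u.length = 4 * σ + 14 - i := by
      rw [hu]
      simp [ulen, hk]
    simp only [wok, hk, Bool.false_eq_true, if_false, Bool.and_eq_true, decide_eq_true_eq,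
      List.all_eq_true, List.mem_range, Bool.or_eq_true] at hw
    obtain ⟨hw1, hw2⟩ := hw
    have hIu : Ind (kf P i) (u.map T.f.symm) := by
      apply evq_ind hP T _ hw1
      rw [hul]
      omega
    rw [h3]
    -- the three parts
    have e1 : u.take (2 * σ + 7) = u.take i ++ (u.take (2 * σ + 7)).drop i := by
      conv_lhs => rw [← List.take_append_drop i (u.take (2 * σ + 7))]
      rw [List.take_take]
      congr 2
      omega
    have e2 : u = u.take i ++ (u.take (2 * σ + 7)).drop i ++ u.drop (2 * σ + 7) := by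
      rw [← e1, List.take_append_drop]
    set z := u.take i with hz
    set D := (u.take (2 * σ + 7)).drop i with hD
    set D' := u.drop (2 * σ + 7) with hD'
    have hIu' : Ind (kf P i) (z.map T.f.symm ++ D.map T.f.symm ++ D'.map T.f.symm) := by
      rw [← List.map_append, ← List.map_append, ← e2]
      exact hIu
    have hzl : z.length = i := by
      rw [hz, List.length_take, hul]
      omega
    have hD'l : D'.length = 2 * σ + 7 - i := by
      rw [hD', List.length_drop, hul]
      omega
    refine ⟨?_, ?_, ?_, ?_⟩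
    · rw [h3, List.length_map, hzl]
    · refine ind_sublist ?_ hIu'
      rw [List.append_assoc]
      exact List.sublist_append_left _ _
    · intro hf
      rw [hk] at hf
      exact absurd hf (by decide)
    · intro _ j hj
      rcases hw2 j hj with hm | ⟨hm1, hm2⟩
      · exact spn_of_mem (List.mem_map_of_mem hm)
      · have n1 := evq_not_ind hP T (p := 0) (by
          rw [List.length_cons, List.length_take, hul]
          omega) hm1
        have n2 := evq_not_ind hP T (p := 0) (by
          rw [List.length_cons, List.length_append, hzl, hD'l]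
          omega) hm2
        rw [List.map_cons, ind_cons_iff hI, not_not, e1, List.map_append] at n1
        have hI2 : Ind (kf P i) ((z ++ D').map T.f.symm) := by
          rw [List.map_append]
          refine ind_sublist ?_ hIu'
          exact List.Sublist.append (List.sublist_append_left _ _) (List.Sublist.refl _)
        rw [List.map_cons, ind_cons_iff hI2, not_not, List.map_append] at n2
        exact ind_cover hIu' n1 n2

end Pool.Agent.Work.MP_ed0a9a_lc.H
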