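import Mathlib
import Pool.Agent.Work.MP_ed0a9a_lc.H.Lc
import Pool.Agent.Work.MP_ed0a9a_lc.H.Le

/-!
# Module `Lf`: extensions of tuples; passing from the fields `F_n` to `K`

PROOFS.  `W` is infinite: `W ≠ 0`, `x ≠ 0`, `a ↦ a • x` is injective on the infinite field `K`.
The set of all `x` with `Spn n z x` is finite (image of the finite set `finite_isF`).
`exists_free`: by induction on `k`: choose `x` with `¬ Spn n (z ++ D) x` and append it
(`free_append`; for one vector `[x]`: `lin c z + a • x = 0`, `a ≠ 0`, would give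
`x = lin (c.map (a⁻¹ * ·)) z`).  `exists_many_free`: a finite subset with `M` elements of the
infinite set of the `x` with `¬ Spn n z x` (`Set.Infinite.exists_subset_card_eq`).
`exists_ind_extend`: `exists_free` and `ind_of_free`.
`ind_all_iff`: `z` (a list) is `K`-linearly independent (as a family indexed by
`Fin z.length`) iff `Ind n z` for all `n`: a finite list of elements of `K` is contained in
some `F_n` (every number is `< q n` for large `n`); convert with `lin_eq_sum`,
`Fintype.linearIndependent_iff`.
`ind_cofinal`: `z` is `K`-independent if `Ind n z` for infinitely many `n` (`ind_mono`).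
`exists_cover`: let `b` be a maximal `F_n`-independent sub-list of the list
`X = [x_0, …, x_{i-1}]` (induction on `i`: if `Spn n b x` keep `b`, otherwise
`b ++ [x]` by `ind_append_iff`); its length is `≤ i` and all the `x_j` are in its span;
extend by `exists_ind_extend` to length `i` (`spn_append`).
-/

namespace Pool.Agent.Work.MP_ed0a9a_lc.H

variable {W : Type*} [AddCommGroup W] [Module K W]

theorem infinite_vec [Nontrivial W] : Infinite W := by
  obtain ⟨x, hx⟩ := exists_ne (0 : W)
  have hK : Infinite K := inferInstanceAs (Infinite ℕ)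
  exact Infinite.of_injective (fun a : K => a • x) (smul_left_injective K hx)

theorem finite_spn (n : ℕ) (z : List W) : {x : W | Spn n z x}.Finite := by
  refine ((finite_isF n z.length).image (fun c => lin c z)).subset ?_
  rintro x ⟨c, h1, h2, h3⟩
  exact ⟨c, ⟨h1, h2⟩, h3⟩

theorem free_singleton {n : ℕ} {z : List W} {x : W} (h : ¬ Spn n z x) : Free n z [x] := by
  intro c d hc hd hcF hdF h0
  obtain ⟨a, rfl⟩ : ∃ a, d = [a] := List.length_eq_one_iff.1 hd
  intro y hy
  rw [List.mem_singleton] at hy
  subst hy
  by_contra ha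
  apply h
  rw [lin_cons, lin_nil, add_zero, add_eq_zero_vec] at h0
  refine ⟨c.map fun t => y⁻¹ * t, by rw [List.length_map]; exact hc, ?_, ?_⟩
  · exact isF_mul ((Fs n).inv_mem (hdF y (List.mem_singleton_self y))) hcF
  · rw [lin_mul, h0, smul_smul, inv_mul_cancel₀ ha, one_smul]

private theorem exists_not_spn [Nontrivial W] (n : ℕ) (z : List W) : ∃ x : W, ¬ Spn n z x := by
  have := infinite_vec (W := W)
  obtain ⟨x, hx⟩ := (finite_spn n z).infinite_compl.nonempty
  exact ⟨x, hx⟩

theorem exists_free [Nontrivial W] (n : ℕ) (z : List W) (k : ℕ) :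
    ∃ D : List W, D.length = k ∧ Free n z D := by
  induction k with
  | zero =>
    refine ⟨[], rfl, ?_⟩
    intro c d _ hd _ _ _ x hx
    rw [List.length_nil, List.length_eq_zero_iff] at hd
    rw [hd] at hx
    exact absurd hx List.not_mem_nil
  | succ k ih =>
    obtain ⟨D, hD, hF⟩ := ih
    obtain ⟨x, hx⟩ := exists_not_spn n (z ++ D)
    refine ⟨D ++ [x], ?_, free_append hF (free_singleton hx)⟩
    rw [List.length_append, hD, List.length_singleton]

theorem exists_many_free [Nontrivial W] (n : ℕ) (z : List W) (M : ℕ) :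
    ∃ X : Finset W, X.card = M ∧ ∀ x ∈ X, Free n z [x] := by
  have := infinite_vec (W := W)
  obtain ⟨X, hX, hc⟩ := (finite_spn n z).infinite_compl.exists_subset_card_eq M
  exact ⟨X, hc, fun x hx => free_singleton (hX hx)⟩

theorem exists_ind_extend [Nontrivial W] {n : ℕ} {z : List W} (h : Ind n z) (k : ℕ) :
    ∃ D : List W, D.length = k ∧ Ind n (z ++ D) := by
  obtain ⟨D, hD, hF⟩ := exists_free n z k
  exact ⟨D, hD, ind_of_free h hF⟩

private theorem exists_isF (c : List K) : ∃ n, IsF n c := by
  induction c with
  | nil => exact ⟨0, fun x hx => absurd hx List.not_mem_nil⟩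
  | cons a c ih =>
    obtain ⟨n, hn⟩ := ih
    refine ⟨max n (ofK a), isF_cons.2 ⟨?_, isF_mono (le_max_left _ _) hn⟩⟩
    rw [mem_Fs]
    have h1 : ofK a < q (ofK a) :=
      lt_trans Nat.lt_two_pow_self Nat.lt_two_pow_self
    exact lt_of_lt_of_le h1 (q_mono (le_max_right _ _))

private theorem lin_fin (c : List K) (z : List W) (h : c.length = z.length) :
    lin c z = ∑ j : Fin z.length, c.getD j 0 • z.get j := by
  rw [lin_eq_sum c z z.length h rfl, Finset.sum_range]
  apply Finset.sum_congr rfl
  intro j _
  congr 1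
  rw [List.getD_eq_getElem _ _ j.isLt]
  rfl

theorem ind_all_iff (z : List W) :
    (∀ n, Ind n z) ↔ LinearIndependent K (fun j : Fin z.length => z.get j) := by
  constructor
  · intro h
    rw [Fintype.linearIndependent_iff]
    intro g hg j
    obtain ⟨n, hn⟩ := exists_isF (List.ofFn g)
    have hl : (List.ofFn g).length = z.length := List.length_ofFn
    have h1 : lin (List.ofFn g) z = 0 := by
      rw [lin_fin _ _ hl, ← hg]
      apply Finset.sum_congr rfl
      intro i _
      congr 1
      rw [List.getD_eq_getElem _ _ (by rw [hl]; exact i.isLt), List.getElem_ofFn]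
    exact h n (List.ofFn g) hl hn h1 (g j) (List.mem_ofFn.2 ⟨j, rfl⟩)
  · intro h n c hc _ h0 x hx
    rw [Fintype.linearIndependent_iff] at h
    rw [lin_fin c z hc] at h0
    obtain ⟨i, hi, rfl⟩ := List.getElem_of_mem hx
    have h1 := h (fun j => c.getD j 0) h0 ⟨i, hc ▸ hi⟩
    rw [← h1]
    exact (List.getD_eq_getElem _ _ hi).symm

theorem ind_cofinal {z : List W} (h : ∀ n, ∃ m, n ≤ m ∧ Ind m z) :
    LinearIndependent K (fun j : Fin z.length => z.get j) := by
  rw [← ind_all_iff]
  intro n
  obtain ⟨m, hm, hI⟩ := h n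
  exact ind_mono hm hI

theorem exists_cover [Nontrivial W] (n : ℕ) (x : ℕ → W) (i : ℕ) :
    ∃ z : List W, z.length = i ∧ Ind n z ∧ ∀ j, j < i → Spn n z (x j) := by
  have key : ∃ b : List W, b.length ≤ i ∧ Ind n b ∧ ∀ j, j < i → Spn n b (x j) := by
    induction i with
    | zero => exact ⟨[], le_rfl, ind_nil n, fun j hj => absurd hj (Nat.not_lt_zero j)⟩
    | succ i ih =>
      obtain ⟨b, hb, hI, hS⟩ := ih
      by_cases hx : Spn n b (x i)
      · refine ⟨b, by omega, hI, ?_⟩
        intro j hj
        rcases Nat.lt_succ_iff_lt_or_eq.1 hj with h | h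
        · exact hS j h
        · rw [h]
          exact hx
      · refine ⟨b ++ [x i], ?_, (ind_append_iff hI (x i)).2 hx, ?_⟩
        · rw [List.length_append, List.length_singleton]
          omega
        · intro j hj
          rcases Nat.lt_succ_iff_lt_or_eq.1 hj with h | h
          · exact spn_append (hS j h)
          · rw [h]
            exact spn_of_mem (List.mem_append_right _ (List.mem_singleton_self _))
  obtain ⟨b, hb, hI, hS⟩ := key
  obtain ⟨D, hD, hI'⟩ := exists_ind_extend hI (i - b.length)
  refine ⟨b ++ D, ?_, hI', fun j hj => spn_append (hS j hj)⟩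
  rw [List.length_append, hD]
  omega

end Pool.Agent.Work.MP_ed0a9a_lc.H
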