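import Mathlib
import Pool.Agent.Work.MP_ed0a9a_lc.H.Kb
import Pool.Agent.Work.MP_ed0a9a_lc.H.Lf

/-!
# Module `Kd`: the number of witnesses is unbounded

PROOF.  Let `σ = sf P i ≥ i`, `n = kf P i`, `N = kf P (i + 1)`, `c = z0.length = (P.tgf l i).1 ≤ i + 1`
(`tgf_le`).  Choose (`exists_free N z0 k`) a tuple `E` of length `(2 σ + 7 - c) + (2 σ + 7 - i)`, free over `z0`;
let `D = E.take (2 σ + 7 - c)`, `D' = E.drop ..`, and (`exists_many_free N (z0 ++ E) M`) a set `X` of `M`
vectors, free over `z0 ++ D ++ D'`.  By `free_split`, `free_append`, `free_mono`, `ind_of_free`: `D ++ [x]` and `D' ` are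
free over `z0` (for `N` and for `n`), and `z0 ++ D ++ D'`, `z0 ++ D ++ [x]`, `z0 ++ D` are
`n`-independent.  (`Free N (z0 ++ D ++ D') [x]` implies `Free N (z0 ++ D) [x]`: pad by zeros.)
Let `f = T.f`, `w = (z0 ++ D).map f`, `u = w` for kind A and `u = w ++ D'.map f` for kind B; so
`u.length = ulen P σ l i`, `u.take (2 σ + 7) = w`.
* `I`: `evq .. (sy σ 0 0) (w ++ [f x]) = some 1` for large `t` (`ev_ind`).
* `Q`: `¬ holds (Rf P (sy σ 2 l)) (z0 ++ D ++ [x])`, so `some 0` for large `t` (`ev_false`,
  `ar_sy_succ`): if `∀ y', (l, y') ∉ af P i`: `Rf_q_off`.  Otherwise some `(l, y') ∈ af P i` and `¬ Intd P l i z0`: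
  `Rf_q_on`; `hI (rk ..)` is false: `(z0 ++ D ++ [x]).take c = z0` (`hI_rk_iff`); no pattern matches: a pattern is
  `(nm G_β I).map sem`, `β` surviving at `τ = tau P i`, `I` of length `2 σ + 8`; if it has the
  same `N`-relations as `z = z0 ++ D ++ [x]` then it is `n`-independent (`ind_same`, `same_mono`), so the
  old tuple is (`GoodEv.same`, `same_pick`), and by `GoodEv.rank` its `nrel N` is `q N ^ (2 σ + 8 - ρ)`,
  `ρ ≤ i + 1`; but `nrel N z = nrel N z0 ≤ q N ^ c` (`nrel_append_free`, `nrel_le`), and
  `c ≤ i + 1 < 2 σ + 8 - ρ`, contradiction.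
* `wok`: kind A: `PP` says `z0.map f = bas ++ [y]`, so `u.take k = bas`, `u.getD k 0 = y`.
  Kind B: `I` of the whole `u` (`ev_ind` with `p = 2 σ + 6 - i`, length `4 σ + 14 - i`); for
  `j < i` with `j ∉ u.take i`: `Spn n z0 (f.symm j)`, so `f.symm j :: (z0 ++ D)` and `f.symm j :: (z0 ++ D')` are
  not independent (`ind_cons_iff`, `spn_append`), `ev_not_ind`; (`u.take i = z0.map f`, `c = i`; and
  `j ∈ u.take i` is decidable, no problem).
Take `t` larger than all these finitely many bounds and than all the names in `u` and `X.image f`.  Then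
`le_cx`, `le_nwy`: `M ≤ nwy P σ l i y t`.
-/

namespace Pool.Agent.Work.MP_ed0a9a_lc.H

variable {P : Par} {W : Type} [AddCommGroup W] [Module K W]

private theorem kd_nm_sem (p : List Vec) (I : List ℕ) :
    (nm p I).map sem = I.map fun j => (p.map sem).getD j 0 := by
  unfold nm
  rw [List.map_map]
  apply List.map_congr_left
  intro j _
  rw [Function.comp_apply]
  by_cases hj : j < p.length
  · rw [List.getD_eq_getElem _ _ hj, List.getD_eq_getElem _ _ (by simpa using hj), List.getElem_map]
  · rw [List.getD_eq_default _ _ (not_lt.1 hj), List.getD_eq_default _ _ (by simpa using hj), sem_nil]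

/-- The declared patterns do not match. -/
private theorem kd_nopat (hP : P.Ok) {i : ℕ} {z0 D : List W} (hz0 : Ind (kf P i) z0)
    (hc : z0.length ≤ i + 1) (hD : Free (kf P (i + 1)) z0 D)
    (A : Asg) :
    ∀ p ∈ patN P (tau P i) (st P (tau P i)) (2 * sf P i + 8) A,
      ¬ Same (kf P (i + 1)) (p.1.map sem) (z0 ++ D) := by
  have hnN : kf P i ≤ kf P (i + 1) := (kf_lt hP (Nat.lt_succ_self i)).le
  have hlv : lev P (tau P i) (st P (tau P i)) = i := (tau_spec hP i).1
  have hz : Ind (kf P i) (z0 ++ D) := ind_of_free hz0 (free_mono hnN hD)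
  have hkn : kapA (st P (tau P i)) (lev P (tau P i) (st P (tau P i))) = kf P i := by
    rw [hlv]
    exact kap_sf hP (sf_le hP i)
  have hkN : (evn P (tau P i) (st P (tau P i))).1 = kf P (i + 1) := by
    have h1 := kapA_succ_new (P := P) (t := tau P i)
    rw [← h1]
    have h2 : lv P (tau P i) = i := hlv
    rw [h2]
    exact fin_kap hP (Nat.lt_succ_self _) le_rfl
  have good := good_evn hP (tau P i) (st P (tau P i))
  rw [hkn, hkN] at good
  rintro p hp hs
  unfold patN at hp
  rw [List.mem_flatMap] at hp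
  obtain ⟨β, hβ, hp⟩ := hp
  by_cases hsv : surv P (tau P i) (st P (tau P i)) β = true
  · rw [if_pos hsv, List.mem_map] at hp
    obtain ⟨I, hI, rfl⟩ := hp
    rw [mem_cl] at hI
    obtain ⟨hIl, hIx⟩ := hI
    have hPs : (oldp P (tau P i) (st P (tau P i))).getD β [] = (bldA (st P (tau P i)) β).2.2 := by
      rw [oldp_getD, if_pos hsv]
    have hIx' : ∀ x ∈ I, x < ((oldp P (tau P i) (st P (tau P i))).getD β []).length := by
      rw [hPs]
      exact hIx
    have hG : Ind (kf P i) ((nm ((evn P (tau P i) (st P (tau P i))).2.getD β []) I).map sem) :=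
      (ind_same (same_mono hnN hs)).2 hz
    have hO : Ind (kf P i) ((nm ((oldp P (tau P i) (st P (tau P i))).getD β []) I).map sem) := by
      rw [kd_nm_sem] at hG ⊢
      exact (ind_same (same_pick (good.same β) I (by
        intro j hj
        rw [List.length_map]
        exact hIx' j hj))).2 hG
    have hr := good.rank β I hIx' hO
    have hρ : (dms P (tau P i) (st P (tau P i))).getD β 0 ≤ i + 1 := by
      rw [dms_getD P _ _ (List.mem_range.1 hβ), hlv]
      exact hP.rho2 β i _
    have h1 : nrel (kf P (i + 1)) (z0 ++ D) =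
        q (kf P (i + 1)) ^ (I.length - (dms P (tau P i) (st P (tau P i))).getD β 0) := by
      rw [← nrel_same hs]
      exact hr
    rw [nrel_append_free hD] at h1
    have h2 := nrel_le (kf P (i + 1)) z0
    rw [h1] at h2
    have h3 := (Nat.pow_le_pow_iff_right (one_lt_q _)).1 h2
    have h4 := le_sf hP i
    omega
  · rw [if_neg hsv] at hp
    exact absurd hp List.not_mem_nil

/-- The question is answered by no. -/
private theorem kd_false (hP : P.Ok) {l i : ℕ} {z0 D : List W} (hz0 : Ind (kf P i) z0)
    (hl : z0.length = (P.tgf l i).1)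
    (hc : z0.length ≤ i + 1) (hD : Free (kf P (i + 1)) z0 D)
    (h' : (∀ y', (l, y') ∉ af P i) ∨ ¬ Intd P l i z0) :
    ¬ holds (Rf P (sy (sf P i) 2 l)) (z0 ++ D) := by
  by_cases hoff : ∀ y', (l, y') ∉ af P i
  · exact Rf_q_off hP hoff _
  · have hI : ¬ Intd P l i z0 := h'.resolve_left hoff
    push Not at hoff
    obtain ⟨y', hy'⟩ := hoff
    rw [Rf_q_on hP hy']
    rintro (⟨p, hp, hs, -⟩ | ⟨-, hh⟩)
    · exact kd_nopat hP hz0 hc hD _ p hp hs
    · rw [hI_rk_iff] at hh
      apply hI
      have : (z0 ++ D).take (P.tgf l i).1 = z0 := by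
        rw [← hl, List.take_left]
      rw [this] at hh
      exact hh.2

theorem nwy_unb (hP : P.Ok) [Nontrivial W] {l i y : ℕ} (T : Thr P W (P.cod l))
    (hon : (P.tgf l i).1 ≠ 0) {z0 : List W} (h : PP P T.f l i y z0)
    (h' : (∀ y', (l, y') ∉ af P i) ∨ ¬ Intd P l i z0) (M : ℕ) :
    ∃ t, M ≤ nwy P (sf P i) l i y t := by
  classical
  obtain ⟨hc, hI0, hA, hB⟩ := h
  have hc1 : z0.length ≤ i + 1 := hc ▸ tgf_le hP l i
  have hσ := le_sf hP i
  set σ := sf P i with hσdef
  have hnN : kf P i ≤ kf P (i + 1) := (kf_lt hP (Nat.lt_succ_self i)).le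
  obtain ⟨E, hE, hEF⟩ := exists_free (kf P (i + 1)) z0 ((2 * σ + 7 - z0.length) + (2 * σ + 7 - i))
  obtain ⟨D, D', rfl, hDl, hDl'⟩ : ∃ D D' : List W, E = D ++ D' ∧
      D.length = 2 * σ + 7 - z0.length ∧ D'.length = 2 * σ + 7 - i := by
    refine ⟨E.take (2 * σ + 7 - z0.length), E.drop (2 * σ + 7 - z0.length),
      (List.take_append_drop _ _).symm, ?_, ?_⟩
    · rw [List.length_take]
      omega
    · rw [List.length_drop]
      omega
  obtain ⟨X, hX, hXF⟩ := exists_many_free (kf P (i + 1)) (z0 ++ (D ++ D')) M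
  obtain ⟨hFD, hFD', hFDD'⟩ := free_split hEF
  have hFx : ∀ x ∈ X, Free (kf P (i + 1)) z0 (D ++ [x]) := by
    intro x hx
    have h1 : Free (kf P (i + 1)) z0 ((D ++ D') ++ [x]) := free_append hEF (hXF x hx)
    rw [List.append_assoc] at h1
    exact free_append hFD (free_split (free_split h1).2.2).2.1
  have hIx : ∀ x ∈ X, Ind (kf P i) (z0 ++ (D ++ [x])) := fun x hx =>
    ind_of_free hI0 (free_mono hnN (hFx x hx))
  have hID : Ind (kf P i) (z0 ++ D) := ind_of_free hI0 (free_mono hnN hFD)
  have hID' : Ind (kf P i) (z0 ++ D') := ind_of_free hI0 (free_mono hnN hFD')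
  have hIE : Ind (kf P i) (z0 ++ (D ++ D')) := ind_of_free hI0 (free_mono hnN hEF)
  -- the tuple
  set w : List ℕ := (z0 ++ D).map T.f with hw
  have hwl : w.length = 2 * σ + 7 := by
    rw [hw, List.length_map, List.length_append]
    omega
  have hback : ∀ L : List W, (L.map T.f).map T.f.symm = L := by
    intro L
    rw [List.map_map]
    conv_rhs => rw [← List.map_id L]
    apply List.map_congr_left
    intro a _
    simp
  have hwx : ∀ x : W, w ++ [T.f x] = (z0 ++ (D ++ [x])).map T.f := by
    intro x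
    rw [hw]
    simp
  have e1 : ∀ x ∈ X, ∀ᶠ t in Filter.atTop,
      evq (P.cod l) t (sy σ 0 0) (w ++ [T.f x]) = some 1 := by
    intro x hx
    obtain ⟨t0, ht0⟩ := ev_ind hP T (i := i) (p := 0) (w := w ++ [T.f x])
      (by rw [List.length_append, hwl, List.length_singleton]) (by
        rw [hwx, hback]
        exact hIx x hx)
    exact Filter.eventually_atTop.2 ⟨t0, ht0⟩
  have e2 : ∀ x ∈ X, ∀ᶠ t in Filter.atTop,
      evq (P.cod l) t (sy σ 2 l) (w ++ [T.f x]) = some 0 := by
    intro x hx
    obtain ⟨t0, ht0⟩ := ev_false T (i := sy σ 2 l) (w := w ++ [T.f x])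
      (by rw [List.length_append, hwl, List.length_singleton, ar_sy_succ]) (by
        rw [hwx, hback]
        exact kd_false hP hI0 hc hc1 (hFx x hx) h')
    exact Filter.eventually_atTop.2 ⟨t0, ht0⟩
  -- the admissible tuple
  obtain ⟨u, hul, hut, huw⟩ : ∃ u : List ℕ, u.length = ulen P σ l i ∧ u.take (2 * σ + 7) = w ∧
      ∀ᶠ t in Filter.atTop, wok P σ l i y t u = true := by
    by_cases hk : P.knd l = true
    · refine ⟨w, ?_, ?_, ?_⟩
      · unfold ulen
        rw [if_pos hk, hwl]
      · rw [← hwl, List.take_length]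
      · refine Filter.Eventually.of_forall fun t => ?_
        unfold wok
        rw [if_pos hk, hw, List.map_append, hA hk]
        simp
    · have hkf : P.knd l = false := by simpa using hk
      obtain ⟨c', hc'1, hc'2, htg⟩ := tgf_B hP hkf hon
      have hci : z0.length = i := by rw [hc, htg]
      refine ⟨w ++ D'.map T.f, ?_, ?_, ?_⟩
      · unfold ulen
        rw [if_neg hk, List.length_append, hwl, List.length_map, hDl']
        omega
      · rw [← hwl, List.take_left]
      · have htake : (w ++ D'.map T.f).take i = z0.map T.f := by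
          rw [hw, List.map_append, List.append_assoc, ← hci]
          have : z0.length = (z0.map T.f).length := by rw [List.length_map]
          rw [this, List.take_left]
        have htake' : (w ++ D'.map T.f).take (2 * σ + 7) = w := by
          rw [← hwl, List.take_left]
        have hdrop : (w ++ D'.map T.f).drop (2 * σ + 7) = D'.map T.f := by
          rw [← hwl, List.drop_left]
        have f1 : ∀ᶠ t in Filter.atTop,
            evq (P.cod l) t (sy σ 0 (2 * σ + 6 - i)) (w ++ D'.map T.f) = some 1 := by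
          obtain ⟨t0, ht0⟩ := ev_ind hP T (i := i) (p := 2 * σ + 6 - i) (w := w ++ D'.map T.f)
            (by rw [List.length_append, hwl, List.length_map, hDl']; omega) (by
              rw [hw, ← List.map_append, hback, List.append_assoc]
              exact hIE)
          exact Filter.eventually_atTop.2 ⟨t0, ht0⟩
        have f2 : ∀ j ∈ Finset.range i, ∀ᶠ t in Filter.atTop,
            evq (P.cod l) t (sy σ 0 0) (j :: w) = some 0 := by
          intro j hj
          have hs := hB hkf j (Finset.mem_range.1 hj)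
          obtain ⟨t0, ht0⟩ := ev_not_ind hP T (i := i) (p := 0) (w := j :: w)
            (by rw [List.length_cons, hwl]) (by
              rw [List.map_cons, hw, hback, ind_cons_iff hID]
              exact not_not.2 (spn_append hs))
          exact Filter.eventually_atTop.2 ⟨t0, ht0⟩
        have f3 : ∀ j ∈ Finset.range i, ∀ᶠ t in Filter.atTop,
            evq (P.cod l) t (sy σ 0 0) (j :: (z0.map T.f ++ D'.map T.f)) = some 0 := by
          intro j hj
          have hs := hB hkf j (Finset.mem_range.1 hj)
          obtain ⟨t0, ht0⟩ := ev_not_ind hP T (i := i) (p := 0)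
            (w := j :: (z0.map T.f ++ D'.map T.f))
            (by
              rw [List.length_cons, List.length_append, List.length_map, List.length_map, hDl']
              omega) (by
              rw [List.map_cons, ← List.map_append, hback, ind_cons_iff hID']
              exact not_not.2 (spn_append hs))
          exact Filter.eventually_atTop.2 ⟨t0, ht0⟩
        have f2' := (Filter.eventually_all_finset (Finset.range i)).2 f2
        have f3' := (Filter.eventually_all_finset (Finset.range i)).2 f3
        filter_upwards [f1, f2', f3'] with t g1 g2 g3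
        unfold wok
        rw [if_neg hk, htake, htake', hdrop]
        simp only [Bool.and_eq_true, Bool.or_eq_true, decide_eq_true_eq, List.all_eq_true]
        refine ⟨g1, fun j hj => Or.inr ⟨g2 j ?_, g3 j ?_⟩⟩
        · exact Finset.mem_range.2 (List.mem_range.1 hj)
        · exact Finset.mem_range.2 (List.mem_range.1 hj)
  have e3 : ∀ᶠ t in Filter.atTop, ∀ x ∈ u.toFinset, x < t :=
    (Filter.eventually_all_finset _).2 fun x _ => Filter.eventually_gt_atTop x
  have e4 : ∀ᶠ t in Filter.atTop, ∀ x ∈ X.image T.f, x < t :=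
    (Filter.eventually_all_finset _).2 fun x _ => Filter.eventually_gt_atTop x
  have e1' := (Filter.eventually_all_finset X).2 e1
  have e2' := (Filter.eventually_all_finset X).2 e2
  obtain ⟨t, g1, g2, g3, g4, g5⟩ := (e1'.and (e2'.and (e3.and (e4.and huw)))).exists
  refine ⟨t, le_trans ?_ (le_nwy hul (fun x hx => g3 x (List.mem_toFinset.2 hx)) g5)⟩
  have hcard : (X.image T.f).card = M := by
    rw [Finset.card_image_of_injective _ T.f.injective, hX]
  rw [← hcard]
  apply le_cx
  intro x hx
  refine ⟨g4 x hx, ?_⟩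
  obtain ⟨x0, hx0, rfl⟩ := Finset.mem_image.1 hx
  rw [hut]
  exact ⟨g1 x0 hx0, g2 x0 hx0⟩

end Pool.Agent.Work.MP_ed0a9a_lc.H
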