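import Mathlib
import Pool.Agent.Work.MP_ed0a9a_lc.H.Mc
import Pool.Agent.Work.MP_ed0a9a_lc.H.Ca

/-!
# Module `Cb`: the count invariant

PROOF of `count_base`, `count_inv`, by induction on `t`.  Let `m = lv P t`, `S = st P t`,
`(l, y) ∈ actA (st P (t+1)) i`, so `i ≤ m` (`act_lt_top`, `top_succ`).
The entries `kapA`, `stgA` of level `i` at stage `t + 1`: for `i < m` unchanged; for `i = m`: `kapA`
unchanged, and since `actN` is not `[]`, `isc` is false, so `stgA` is unchanged
(`stgA_succ_lv`).  So in both cases `kapA (st P (t+1)) i = kapA S i`, `stgA (st P (t+1)) i = stgA S i`.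
`(l, y)` is old (`(l, y) ∈ actA S i`) or new (`i = m`, `(l, y) ∈ nly P t S m`).
`count_base` : old: induction hypothesis and `nwy_mono`; new: the third clause of `rdy` and
`nwy_mono`.
`count_inv`: let `β` be alive at `t + 1` with `l ∈ P.ex β`.  If `β = t` it has no positions, and
`count_base` gives `0 < nwy`.  Otherwise `surv P t S β` (`alive_succ`), the builder is
`bldN P t S β`; put `n = (bldA S β).2.2.length`, `p = (bldA S β).2.1`, `n ≤ p` (`len_le_cnt`).
* no growth (`thr = false`): the number of positions is `n` (`evn_len`); old: induction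
  hypothesis; new: the last clause of `rdy` (`β < nbld S`, alive): `q .. * (m + 1 + n) < nwy`.
* growth: the number is `≤ n + 1`.  New: `q * (m + 1 + n) ≥ q * (n + 1)`.  Old: if `p < i`: the number is
  `≤ p + 1 ≤ i`, use `count_base`.  If `i ≤ p`: `thr` at `l ∈ P.ex β`, `i' = i ≤ min m p`:
  `l ≤ i` (`act_le`); the guard is on at time `t`: `(P.tg l i t).1 ≠ 0`, because
  `act_on` says `(P.tg l i (stgA S i)).1 ≠ 0` and `cfg P t S i = false` (for `i < m` by `att_lt`, for
  `i = m` because `isc` is false), `cfg_false`.  So the lookup of `l` in the list of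
  level `i` (which is `y`: `mem_iff_lookup` at stage `t + 1`, `thr_entries`) satisfies
  `q (kapA ..) * (n + 1) < nwy P (stgA ..) l i y t ≤ nwy .. (t + 1)`.
-/

namespace Pool.Agent.Work.MP_ed0a9a_lc.H

private theorem cb_cases {P : Par} (t : ℕ) {i l y : ℕ} (h : (l, y) ∈ actA (st P (t + 1)) i) :
    i ≤ lv P t ∧ kapA (st P (t + 1)) i = kapA (st P t) i ∧
      stgA (st P (t + 1)) i = stgA (st P t) i ∧ cfg P t (st P t) i = false ∧
      ((l, y) ∈ actA (st P t) i ∨ (l, y) ∈ nly P t (st P t) i) := by
  have hlt := act_lt_top P (t + 1) h
  rw [top_succ] at hlt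
  have hle : i ≤ lv P t := Nat.lt_succ_iff.1 hlt
  refine ⟨hle, kapA_succ P t hle, ?_⟩
  rcases hle.lt_or_eq with hi | hi
  · refine ⟨stgA_succ P t hi, ?_, ?_⟩
    · have h1 := att_lt P t (st P t) (i := i) hi
      unfold att at h1
      rw [Bool.or_eq_false_iff] at h1
      exact h1.1
    · left
      rwa [actA_succ P t hi] at h
  · subst hi
    rw [actA_succ_lv] at h
    unfold actN at h
    by_cases hc : isc P t (st P t) = true
    · rw [if_pos hc] at h
      exact absurd h (List.not_mem_nil)
    · rw [if_neg hc, List.mem_append] at h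
      refine ⟨?_, ?_, h⟩
      · rw [stgA_succ_lv, if_neg hc]
      · have hc' : isc P t (st P t) = false := by simpa using hc
        unfold isc at hc'
        rw [Bool.or_eq_false_iff] at hc'
        exact hc'.2

private theorem cb_zero {P : Par} {i l y : ℕ} (h : (l, y) ∈ actA (st P 0) i) : False := by
  have hlt := act_lt_top P 0 h
  have h0 := top_le P 0
  omega

private theorem cb_rdy {P : Par} {t : ℕ} {S : St} {l i y : ℕ} (h : rdy P t S l i y = true) :
    q (kapA S i) * (i + 1) < nwy P (stgA S i) l i y t ∧
    ∀ β, β < nbld S → (bldA S β).1 = true → l ∈ P.ex β →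
      q (kapA S i) * (i + 1 + (bldA S β).2.2.length) < nwy P (stgA S i) l i y t := by
  unfold rdy at h
  rw [Bool.and_eq_true, Bool.and_eq_true, Bool.and_eq_true] at h
  obtain ⟨-, -, h3, h4⟩ := h
  refine ⟨of_decide_eq_true h3, fun β hβ ha hl => ?_⟩
  rw [List.all_eq_true] at h4
  have h5 := h4 β (List.mem_range.2 hβ)
  rw [ha] at h5
  simp only [Bool.not_true, Bool.false_or, Bool.or_eq_true, decide_eq_true_eq] at h5
  rcases h5 with h5 | h5
  · exact absurd hl h5
  · exact h5

theorem count_base {P : Par} (hP : P.Ok) (t : ℕ) {i l y : ℕ} (h : (l, y) ∈ actA (st P t) i) :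
    q (kapA (st P t) i) * (i + 1) < nwy P (stgA (st P t) i) l i y t := by
  induction t with
  | zero => exact (cb_zero h).elim
  | succ t ih =>
    obtain ⟨-, hk, hs, -, h' | h'⟩ := cb_cases t h
    · rw [hk, hs]
      exact (ih h').trans_le (nwy_mono (Nat.le_succ t))
    · rw [hk, hs]
      exact (cb_rdy (mem_nly h').2.2.2).1.trans_le (nwy_mono (Nat.le_succ t))

private theorem cb_cand (ρ N p : ℕ) (G : List Vec) : (cand ρ N p G).length ≤ 1 := by
  unfold cand
  split_ifs
  · simp
  · simp

theorem count_inv {P : Par} (hP : P.Ok) (t : ℕ) {i l y β : ℕ}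
    (h : (l, y) ∈ actA (st P t) i) (hβ : (bldA (st P t) β).1 = true) (hl : l ∈ P.ex β) :
    q (kapA (st P t) i) * (bldA (st P t) β).2.2.length <
      nwy P (stgA (st P t) i) l i y t := by
  induction t with
  | zero => exact (cb_zero h).elim
  | succ t ih =>
    have hb := count_base hP (t + 1) h
    rcases alive_succ P t hβ with rfl | hsv
    · rw [bldA_new]
      simp only [List.length_nil, Nat.mul_zero]
      exact lt_of_le_of_lt (Nat.zero_le _) hb
    · have hlt : β < t := by
        have := surv_lt hsv
        rwa [nbld_st] at this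
      have hn := evn_len hP t (st P t) hsv
      have hal := surv_alive hsv
      have hnp := len_le_cnt P t hP β
      obtain ⟨hle, hk, hs, hcf, hmem⟩ := cb_cases t h
      rw [bldA_succ P t hlt]
      unfold bldN
      rw [if_pos hsv]
      by_cases hth : thr P t (st P t) β (bldA (st P t) β).2.1
          ((evn P t (st P t)).2.getD β []).length = true
      · rw [if_pos hth]
        simp only [List.length_append]
        have hc := cb_cand (P.rho β (lev P t (st P t)) t) (evn P t (st P t)).1
          (bldA (st P t) β).2.1 ((evn P t (st P t)).2.getD β [])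
        have hL : q (kapA (st P (t + 1)) i) * (((evn P t (st P t)).2.getD β []).length +
            (cand (P.rho β (lev P t (st P t)) t) (evn P t (st P t)).1
              (bldA (st P t) β).2.1 ((evn P t (st P t)).2.getD β [])).length) ≤
            q (kapA (st P (t + 1)) i) * ((bldA (st P t) β).2.2.length + 1) :=
          Nat.mul_le_mul_left _ (by omega)
        refine lt_of_le_of_lt hL ?_
        rcases hmem with hm | hm
        · by_cases hpi : (bldA (st P t) β).2.1 < i
          · refine lt_of_le_of_lt (Nat.mul_le_mul_left _ ?_) hb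
            omega
          · have hth' := hth
            unfold thr at hth'
            rw [List.all_eq_true] at hth'
            have h1 := hth' l hl
            rw [List.all_eq_true] at h1
            have h2 := h1 i (List.mem_range.2 (by
              have : i ≤ lev P t (st P t) := hle
              omega))
            have hli : ¬ i < l := not_lt.2 (act_le P (t + 1) h)
            have hon : ¬ (P.tg l i t).1 = 0 := by
              rw [(cfg_false hcf (act_le P (t + 1) h)).1]
              exact act_on P t hm
            obtain ⟨e1, e2, e3⟩ := thr_entries P t (i := i) hle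
            rw [e1, e2, e3] at h2
            have hlk : (actA (st P (t + 1)) i).lookup l = some y :=
              (mem_iff_lookup P (t + 1)).2 h
            rw [hlk] at h2
            simp only [hli, hon, decide_false, Bool.false_or, Option.any_some,
              decide_eq_true_eq] at h2
            rw [hn] at h2
            exact h2.trans_le (nwy_mono (Nat.le_succ t))
        · have h1 := (cb_rdy (mem_nly hm).2.2.2).2 β (surv_lt hsv) hal hl
          rw [hk, hs]
          refine lt_of_le_of_lt (Nat.mul_le_mul_left _ ?_)
            (h1.trans_le (nwy_mono (Nat.le_succ t)))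
          omega
      · rw [if_neg hth]
        simp only [hn]
        rcases hmem with hm | hm
        · rw [hk, hs]
          exact (ih hm hal).trans_le (nwy_mono (Nat.le_succ t))
        · have h1 := (cb_rdy (mem_nly hm).2.2.2).2 β (surv_lt hsv) hal hl
          rw [hk, hs]
          refine lt_of_le_of_lt (Nat.mul_le_mul_left _ ?_)
            (h1.trans_le (nwy_mono (Nat.le_succ t)))
          omega

end Pool.Agent.Work.MP_ed0a9a_lc.H
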