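import Mathlib
import Pool.Agent.Work.MP_ed0a9a_lc.H.Lb
import Pool.Agent.Work.MP_ed0a9a_lc.H.Le

/-!
# Module `Pig`: the pigeonhole principle for exceptional tuples

PROOF.  If `X` is empty the claim is clear; fix `x0 ∈ X`.  For `x ∈ X` choose `a x ∈ Fs n`,
`a x ≠ 0`, with `pre x = a x • pre x0` where `pre x := ((I x).take L).map (G.getD · 0)`
(`hsep x0 x`), and let `j x` be the last entry of `I x` (`(I x).getD L 0`), `j x < G.length`.
The map `x ↦ (ofK (a x), j x)` sends `X` to `Finset.range (q n) ×ˢ Finset.range G.length`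
(`mem_Fs`).  It is injective: if `a x = a x'` and `j x = j x'` then
`(I x).map (G.getD · 0) = pre x ++ [G.getD (j x) 0]` (`List.take_append_drop`, length `L + 1`) is
the same list for `x` and `x'`.  `hrank` gives `nrel N (pre x) < nrel N (pre x ++ [G_j])`
(`1 < q N`, `L - ρ < L + 1 - ρ` because `ρ ≤ L`), so by `exists_comb_of_nrel` there is `c` with
`lin c (pre x) = G_j`, `IsF N c`; by `same_comb` (with `hI`)
`lin c w = x` and `lin c w = x'`, so `x = x'`.  `Finset.card_le_card_of_injOn`.
-/

namespace Pool.Agent.Work.MP_ed0a9a_lc.H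

theorem pigeon {W W' : Type*} [AddCommGroup W] [Module K W] [AddCommGroup W'] [Module K W']
    (n N ρ L : ℕ) (hρ : ρ ≤ L) (G : List W') (w : List W) (hw : w.length = L)
    (X : Finset W) (I : W → List ℕ) (hlt : ∀ x ∈ X, ∀ j ∈ I x, j < G.length)
    (hlen : ∀ x ∈ X, (I x).length = L + 1)
    (hI : ∀ x ∈ X, Same N ((I x).map fun j => G.getD j 0) (w ++ [x]))
    (hrank : ∀ x ∈ X, nrel N (((I x).take L).map fun j => G.getD j 0) = q N ^ (L - ρ))
    (hrank' : ∀ x ∈ X, nrel N ((I x).map fun j => G.getD j 0) = q N ^ (L + 1 - ρ))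
    (hsep : ∀ x ∈ X, ∀ x' ∈ X, ∃ a : K, a ∈ Fs n ∧ a ≠ 0 ∧
      (((I x').take L).map fun j => G.getD j 0) =
        (((I x).take L).map fun j => G.getD j 0).map fun v => a • v) :
    X.card ≤ q n * G.length := by
  classical
  rcases X.eq_empty_or_nonempty with hX | ⟨x0, hx0⟩
  · rw [hX, Finset.card_empty]
    exact Nat.zero_le _
  have hch : ∀ x, ∃ a : K, x ∈ X → a ∈ Fs n ∧ a ≠ 0 ∧
      ((I x).take L).map (fun j => G.getD j 0) =
        (((I x0).take L).map fun j => G.getD j 0).map fun v => a • v := by
    intro x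
    by_cases hx : x ∈ X
    · obtain ⟨a, h⟩ := hsep x0 hx0 x hx
      exact ⟨a, fun _ => h⟩
    · exact ⟨0, fun h => absurd h hx⟩
  choose a ha using hch
  have hsplit : ∀ x ∈ X, (I x).map (fun j => G.getD j 0) =
      ((I x).take L).map (fun j => G.getD j 0) ++ [G.getD ((I x).getD L 0) 0] := by
    intro x hx
    have h1 := hlen x hx
    have h2 : I x = (I x).take L ++ [(I x).getD L 0] := by
      have h3 : (I x).drop L = [(I x).getD L 0] := by
        have h4 : L < (I x).length := by omega
        rw [List.drop_eq_getElem_cons h4, List.drop_eq_nil_of_le (by omega),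
          List.getD_eq_getElem _ _ h4]
      conv_lhs => rw [← List.take_append_drop L (I x), h3]
    conv_lhs => rw [h2]
    rw [List.map_append, List.map_singleton]
  have hspn : ∀ x ∈ X, ∃ c : List K, c.length = (((I x).take L).map fun j => G.getD j 0).length ∧
      IsF N c ∧ lin c (((I x).take L).map fun j => G.getD j 0) = G.getD ((I x).getD L 0) 0 := by
    intro x hx
    have h1 : nrel N (((I x).take L).map fun j => G.getD j 0) <
        nrel N (((I x).take L).map (fun j => G.getD j 0) ++ [G.getD ((I x).getD L 0) 0]) := by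
      rw [← hsplit x hx, hrank x hx, hrank' x hx]
      exact Nat.pow_lt_pow_right (one_lt_q N) (by omega)
    exact exists_comb_of_nrel h1
  have key := Finset.card_le_card_of_injOn (s := X)
    (t := Finset.range (q n) ×ˢ Finset.range G.length)
    (fun x => (ofK (a x), (I x).getD L 0)) ?_ ?_
  · rwa [Finset.card_product, Finset.card_range, Finset.card_range] at key
  · intro x hx
    have hx' : x ∈ X := hx
    have h1 : (I x).getD L 0 ∈ I x := by
      have h4 : L < (I x).length := by
        have := hlen x hx'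
        omega
      rw [List.getD_eq_getElem _ _ h4]
      exact List.getElem_mem h4
    have h2 : (ofK (a x), (I x).getD L 0) ∈ Finset.range (q n) ×ˢ Finset.range G.length := by
      rw [Finset.mem_product, Finset.mem_range, Finset.mem_range]
      exact ⟨mem_Fs.1 (ha x hx').1, hlt x hx' _ h1⟩
    exact h2
  · intro x hx x' hx' h
    have hxX : x ∈ X := hx
    have hxX' : x' ∈ X := hx'
    have h' : (ofK (a x), (I x).getD L 0) = (ofK (a x'), (I x').getD L 0) := h
    rw [Prod.mk.injEq] at h'
    obtain ⟨h1, h2⟩ := h'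
    have h3 : a x = a x' := ofK_inj.1 h1
    have hpre : ((I x).take L).map (fun j => G.getD j 0) =
        ((I x').take L).map (fun j => G.getD j 0) := by
      rw [(ha x hxX).2.2, (ha x' hxX').2.2, h3]
    obtain ⟨c, hc1, hc2, hc3⟩ := hspn x hxX
    have e1 := hI x hxX
    rw [hsplit x hxX] at e1
    have e2 := hI x' hxX'
    rw [hsplit x' hxX', ← hpre, ← h2] at e2
    have f1 := (same_comb e1 c hc1 hc2).1 hc3
    have f2 := (same_comb e2 c hc1 hc2).1 hc3
    exact f1.symm.trans f2

end Pool.Agent.Work.MP_ed0a9a_lc.H
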