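import Mathlib
import Pool.Agent.Work.MP_ed0a9a_lc.H.Kb
import Pool.Agent.Work.MP_ed0a9a_lc.H.Cb
import Pool.Agent.Work.MP_ed0a9a_lc.H.Sb
import Pool.Agent.Work.MP_ed0a9a_lc.H.Pig

/-!
# Module `Kc`: the killing core

`kill_core`: if guard `l` acts (finally) at level `i` and the structure number `P.cod l` is a
computable copy of `W` then it has an admissible prefix for which the intended meaning of the question
symbol is false.

PROOF.  Let `τ = tau P i`, `σ = sf P i`, `S = st P τ`, `n = kf P i`, `N = kf P (i + 1)`; `lv P τ = i`,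
`kapA S i = n` (`kap_sf`, `sf_le`), `(evn P τ S).1 = N` (`kapA_succ_new`, `fin_kap`), `af P i = actN P τ S`
(`af_eq`), `l ≤ i` (`af_le`), the guard is on (`af_on`), `P.tg l i τ = P.tgf l i` (`fin_tg`).
At stage `τ + 1`: `actA .. i = af P i`, `kapA .. i = n`, `stgA .. i = σ`.
`count_base`, `count_inv` at `τ + 1`: `0 < nwy P σ l i y (τ + 1)`, and
`q n * (bldA (st P (τ+1)) β).2.2.length < nwy` for every `β` alive at `τ + 1` with `l ∈ P.ex β`.
`nwy_spec`: tuple `u`; `cx_witness`: `X`, `X.card = nwy > 0`.  Let `w = u.take (2 σ + 7)` (length `2 σ + 7`: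
`ulen` is `2 σ + 7` or `4 σ + 14 - i ≥ 2 σ + 7`), `g = T.f.symm`, `wx = (w ++ [x]).map g`.
For `x ∈ X`: `Ind n wx` (`evq_ind`, `p = 0`), `¬ holds (Rf P (sy σ 2 l)) wx` (`evq_zero`, `ar_sy_succ`).
Let `c = (P.tgf l i).1 ≤ i + 1 ≤ 2 σ + 7`, `z0 = (u.take c).map g`; `PP` by `wok_PP`.
SUPPOSE `Intd P l i z0`.  `Rf_q_on` gives the patterns `patN P τ S (2 σ + 8) ..` and `rk n N ..`.
`wx.take c = z0`, so `hI (rk ..) wx` (`hI_rk_iff`).  `¬ holds` therefore gives a matching pattern: there are
`β` with `surv P τ S β`, `I ∈ cl P_β.length (2 σ + 8)` (`P_β = (bldA S β).2.2`, `G_β = (evn P τ S).2.getD β []`)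
with `Same N ((nm G_β I).map sem) wx`.
(1) `Ind n ((nm G_β I).map sem)` (`ind_same`, `same_mono`), so `Ind n ((nm P_β I).map sem)`
(`GoodEv.same`, `same_pick`, `oldp_getD`); the same for the sub-tuples `I.take c`, `I.take (2 σ + 7)`.
(2) `GoodEv.rank` for `I.take c`: `nrel N ((nm G_β (I.take c)).map sem) = q N ^ (c - ρ)`, `ρ = P.rho β i τ`
(`dms_getD`), and it equals `nrel N z0` (`same_take`, `nrel_same`).  With `Intd`:
`lo ≤ c - ρ ≤ hi` (`1 < q N`, `Nat.pow_le_pow_iff_right`), so `hurt P β l i τ = true`, and `surv_hurt` gives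
`l ∈ P.ex β`.
(3) for `x, x' ∈ X` with `(β, I)`, `(β', I')`: the prefixes of length `2 σ + 7` have the same `N`-relations
as `w.map g` (`same_take`), hence as each other; `i + 2 ≤ 2 σ + 7`; `GoodEv.sep`: `β = β'` and they are
proportional by `a ∈ Fs n`, `a ≠ 0` (in `P`; use `GoodEv.same`/`same_comb`-type argument or: `GoodEv.sep`
gives the equation for the old positions; for the new positions: the tuple
`P I ++ P I'` (a pick of the old list) and `G I ++ G I'` have the same `n`-relations (`same_pick` with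
`I ++ I'`), and the equation `P_(I'_j) = a P_(I_j)` is an `n`-relation; so `G_(I'_j) = a G_(I_j)`).
Fix `x0 ∈ X` and its `β`.  Apply `pigeon` with `n`, `N`, `ρ`, `L = 2 σ + 7`, `G = G_β.map sem`, `w.map g`, the image
of `X` under `g` (injective), `ρ ≤ i + 1 ≤ L` (`hP.rho2`), `hrank` by `GoodEv.rank`:
`X.card ≤ q n * G_β.length = q n * P_β.length ≤ q n * (bldA (st P (τ+1)) β).2.2.length < nwy = X.card`
(`evn_len`, `len_succ`; `β` is alive at `τ + 1`: `bldA_succ`, `bldN`).  Contradiction.
So `¬ Intd P l i z0`.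
-/

namespace Pool.Agent.Work.MP_ed0a9a_lc.H

variable {P : Par} {W : Type} [AddCommGroup W] [Module K W]

private theorem kc_getD_sem (p : List Vec) (j : ℕ) :
    (p.map sem).getD j 0 = sem (p.getD j []) := by
  by_cases h : j < p.length
  · rw [List.getD_eq_getElem _ _ (by simpa using h), List.getElem_map, List.getD_eq_getElem _ _ h]
  · rw [List.getD_eq_default _ _ (by simpa using h), List.getD_eq_default _ _ (not_lt.1 h), sem_nil]

private theorem kc_sem_nm (p : List Vec) (I : List ℕ) :
    (nm p I).map sem = I.map fun j => (p.map sem).getD j 0 := by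
  unfold nm
  rw [List.map_map]
  refine List.map_congr_left fun j _ => ?_
  rw [kc_getD_sem]
  rfl

private theorem kc_same_nm {n : ℕ} {p g : List Vec} (h : Same n (p.map sem) (g.map sem))
    {I : List ℕ} (hI : ∀ j ∈ I, j < p.length) :
    Same n ((nm p I).map sem) ((nm g I).map sem) := by
  rw [kc_sem_nm, kc_sem_nm]
  exact same_pick h I (by simpa using hI)

private theorem kc_nm_take (p : List Vec) (I : List ℕ) (k : ℕ) :
    (nm p (I.take k)).map sem = ((nm p I).map sem).take k := by
  unfold nm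
  rw [List.map_take, List.map_take]

private theorem kc_mem_patN {t : ℕ} {S : St} {a : ℕ} {A : Asg} {p : List Vec × Bool}
    (hp : p ∈ patN P t S a A) : ∃ β, surv P t S β = true ∧ ∃ I : List ℕ, I.length = a ∧
      (∀ x ∈ I, x < (bldA S β).2.2.length) ∧ p.1 = nm ((evn P t S).2.getD β []) I := by
  unfold patN at hp
  rw [List.mem_flatMap] at hp
  obtain ⟨β, _, h⟩ := hp
  by_cases hs : surv P t S β = true
  · rw [if_pos hs, List.mem_map] at h
    obtain ⟨I, hI, e⟩ := h
    rw [mem_cl] at hI
    exact ⟨β, hs, I, hI.1, hI.2, by rw [← e]⟩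
  · rw [if_neg hs] at h
    simp at h

private theorem kc_prop_aux {V : Type*} [AddCommGroup V] [Module K V] {a : K} (f f' : ℕ → V)
    (m : ℕ) (h : ∀ x, x < m → ∀ x', x' < m → f x' = a • f x → f' x' = a • f' x) :
    ∀ J J' : List ℕ, (∀ j ∈ J, j < m) → (∀ j ∈ J', j < m) →
      J'.map f = (J.map f).map (fun v => a • v) → J'.map f' = (J.map f').map (fun v => a • v)
  | [], [], _, _, _ => rfl
  | [], _ :: _, _, _, he => by simp at he
  | _ :: _, [], _, _, he => by simp at he
  | x :: J, x' :: J', hJ, hJ', he => by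
    simp only [List.map_cons, List.cons.injEq] at he ⊢
    exact ⟨h x (hJ x (by simp)) x' (hJ' x' (by simp)) he.1,
      kc_prop_aux f f' m h J J' (fun j hj => hJ j (by simp [hj]))
        (fun j hj => hJ' j (by simp [hj])) he.2⟩

private theorem kc_lin_sing {V : Type*} [AddCommGroup V] [Module K V] (a : K) (x : V) :
    lin [a] [x] = a • x := by
  simp [lin]

private theorem kc_prop {n : ℕ} {p g : List Vec} (h : Same n (p.map sem) (g.map sem))
    {J J' : List ℕ} (hJ : ∀ j ∈ J, j < p.length) (hJ' : ∀ j ∈ J', j < p.length) {a : K}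
    (ha : a ∈ Fs n) (he : (nm p J').map sem = ((nm p J).map sem).map fun v => a • v) :
    (nm g J').map sem = ((nm g J).map sem).map fun v => a • v := by
  rw [kc_sem_nm, kc_sem_nm] at he ⊢
  refine kc_prop_aux (a := a) (fun j => (p.map sem).getD j 0) (fun j => (g.map sem).getD j 0)
    p.length ?_ J J' hJ hJ' he
  intro x hx x' hx' hxx
  have h1 := same_pick h [x, x'] (by
    intro j hj
    rw [List.length_map]
    rcases List.mem_cons.1 hj with rfl | hj
    · exact hx
    · rw [List.mem_singleton] at hj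
      rw [hj]
      exact hx')
  have h2 : Same n ([(p.map sem).getD x 0] ++ [(p.map sem).getD x' 0])
      ([(g.map sem).getD x 0] ++ [(g.map sem).getD x' 0]) := h1
  have h3 := same_comb h2 [a] rfl (by
    intro b hb
    rw [List.mem_singleton] at hb
    rw [hb]
    exact ha)
  rw [kc_lin_sing, kc_lin_sing] at h3
  exact (h3.1 hxx.symm).symm

theorem kill_core (hP : P.Ok) {l i y : ℕ} (T : Thr P W (P.cod l)) (h : (l, y) ∈ af P i) :
    ∃ z0 : List W, PP P T.f l i y z0 ∧ ¬ Intd P l i z0 := by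
  classical
  have hlv : lev P (tau P i) (st P (tau P i)) = i := (tau_spec hP i).1
  have hlt : tau P i < tau P i + 1 := Nat.lt_succ_self _
  have hkap : kapA (st P (tau P i)) i = kf P i := kap_sf hP (sf_le hP i)
  have hN : (evn P (tau P i) (st P (tau P i))).1 = kf P (i + 1) := by
    have h1 := kapA_succ_new P (tau P i)
    have h2 : lv P (tau P i) = i := hlv
    rw [h2, fin_kap hP hlt (j := i + 1) le_rfl] at h1
    exact h1.symm
  have hli : l ≤ i := af_le hP h
  have hon := af_on hP h
  have htg : P.tg l i (tau P i) = P.tgf l i := (fin_tg hP le_rfl hli).1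
  have hact : (l, y) ∈ actA (st P (tau P i + 1)) i := by
    rw [fin_act hP hlt le_rfl]
    exact h
  have hactN : (l, y) ∈ actN P (tau P i) (st P (tau P i)) := by
    rw [← af_eq hP i]
    exact h
  have hk1 : kapA (st P (tau P i + 1)) i = kf P i := fin_kap hP hlt (Nat.le_succ i)
  have hs1 : stgA (st P (tau P i + 1)) i = sf P i := fin_stg hP hlt le_rfl
  have hb := count_base hP (tau P i + 1) hact
  rw [hk1, hs1] at hb
  have hpos : 0 < nwy P (sf P i) l i y (tau P i + 1) := lt_of_le_of_lt (Nat.zero_le _) hb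
  obtain ⟨u, hul, hut, hw, hcx⟩ := nwy_spec hpos
  obtain ⟨X, hX, hX'⟩ := cx_witness P (sf P i) l (tau P i + 1) u
  have his : i ≤ sf P i := le_sf hP i
  have hwl : (u.take (2 * sf P i + 7)).length = 2 * sf P i + 7 := by
    rw [List.length_take, hul]
    unfold ulen
    split_ifs <;> omega
  have hXpos : 0 < X.card := by
    rw [hX, hcx]
    exact hpos
  obtain ⟨x0, hx0⟩ := Finset.card_pos.1 hXpos
  -- the tuples
  have hInd : ∀ x ∈ X, Ind (kf P i)
      ((u.take (2 * sf P i + 7)).map T.f.symm ++ [T.f.symm x]) := by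
    intro x hx
    have h1 := evq_ind (p := 0) hP T (w := u.take (2 * sf P i + 7) ++ [x])
      (by rw [List.length_append, hwl]; rfl) (hX' x hx).2.1
    rwa [List.map_append, List.map_singleton] at h1
  have hnot : ∀ x ∈ X, ¬ holds (Rf P (sy (sf P i) 2 l))
      ((u.take (2 * sf P i + 7)).map T.f.symm ++ [T.f.symm x]) := by
    intro x hx
    have h1 := evq_zero T (w := u.take (2 * sf P i + 7) ++ [x]) (hX' x hx).2.2
      (by rw [List.length_append, hwl]; exact (ar_sy_succ (sf P i) 1 l).symm)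
    rwa [List.map_append, List.map_singleton] at h1
  have hIw : Ind (kf P i) ((u.take (2 * sf P i + 7)).map T.f.symm) :=
    ind_sublist (List.sublist_append_left _ _) (hInd x0 hx0)
  have hc : (P.tgf l i).1 ≤ i + 1 := tgf_le hP l i
  refine ⟨(u.take (P.tgf l i).1).map T.f.symm, wok_PP hP T hon hul hw hIw, ?_⟩
  intro hint
  have htake : ∀ x : W, ((u.take (2 * sf P i + 7)).map T.f.symm ++ [x]).take (P.tgf l i).1 =
      (u.take (P.tgf l i).1).map T.f.symm := by
    intro x
    rw [List.take_append_of_le_length (by rw [List.length_map, hwl]; omega), ← List.map_take,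
      List.take_take, min_eq_left (by omega)]
  -- every witness matches a pattern
  have hpat : ∀ x ∈ X, ∃ β, surv P (tau P i) (st P (tau P i)) β = true ∧ ∃ I : List ℕ,
      I.length = 2 * sf P i + 8 ∧ (∀ j ∈ I, j < (bldA (st P (tau P i)) β).2.2.length) ∧
      Same (kf P (i + 1))
        ((nm ((evn P (tau P i) (st P (tau P i))).2.getD β []) I).map sem)
        ((u.take (2 * sf P i + 7)).map T.f.symm ++ [T.f.symm x]) := by
    intro x hx
    have h1 := hnot x hx
    rw [Rf_q_on hP h] at h1
    have h2 : ∃ p ∈ patN P (tau P i) (st P (tau P i)) (2 * sf P i + 8)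
        (asg P (tau P i) (sy (sf P i) 2 l)), Same (kf P (i + 1)) (p.1.map sem)
          ((u.take (2 * sf P i + 7)).map T.f.symm ++ [T.f.symm x]) := by
      by_contra hcon
      push Not at hcon
      apply h1
      right
      refine ⟨hcon, ?_⟩
      show hI (Itn.rk (kf P i) (kf P (i + 1)) (P.tgf l i).1 (P.tgf l i).2.1 (P.tgf l i).2.2) _
      rw [hI_rk_iff, htake]
      exact ⟨hInd x hx, hint⟩
    obtain ⟨p, hp, hS⟩ := h2
    obtain ⟨β, hβ, I, hI1, hI2, hI3⟩ := kc_mem_patN hp
    rw [hI3] at hS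
    exact ⟨β, hβ, I, hI1, hI2, hS⟩
  -- the event
  have hg := good_evn hP (tau P i) (st P (tau P i))
  rw [hlv, hkap, hN] at hg
  have hnN : kf P i ≤ kf P (i + 1) := (kf_lt hP (Nat.lt_succ_self i)).le
  have hold : ∀ β, surv P (tau P i) (st P (tau P i)) β = true →
      (oldp P (tau P i) (st P (tau P i))).getD β [] = (bldA (st P (tau P i)) β).2.2 := by
    intro β h'
    rw [oldp_getD, if_pos h']
  have hsP : ∀ β, surv P (tau P i) (st P (tau P i)) β = true →
      Same (kf P i) ((bldA (st P (tau P i)) β).2.2.map sem)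
        (((evn P (tau P i) (st P (tau P i))).2.getD β []).map sem) := by
    intro β h'
    have h1 := hg.same β
    rwa [hold β h'] at h1
  have hrank : ∀ β, surv P (tau P i) (st P (tau P i)) β = true → ∀ J : List ℕ,
      (∀ j ∈ J, j < (bldA (st P (tau P i)) β).2.2.length) →
      Ind (kf P i) ((nm (bldA (st P (tau P i)) β).2.2 J).map sem) →
      nrel (kf P (i + 1)) ((nm ((evn P (tau P i) (st P (tau P i))).2.getD β []) J).map sem) =
        q (kf P (i + 1)) ^ (J.length - P.rho β i (tau P i)) := by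
    intro β h' J hJ hJi
    have h1 := hg.rank β J
    rw [hold β h', dms_getD P (tau P i) (st P (tau P i)) (surv_lt h'), hlv] at h1
    exact h1 hJ hJi
  -- independence of the old tuples
  have hPI : ∀ x ∈ X, ∀ β, surv P (tau P i) (st P (tau P i)) β = true → ∀ I : List ℕ,
      (∀ j ∈ I, j < (bldA (st P (tau P i)) β).2.2.length) →
      Same (kf P (i + 1))
        ((nm ((evn P (tau P i) (st P (tau P i))).2.getD β []) I).map sem)
        ((u.take (2 * sf P i + 7)).map T.f.symm ++ [T.f.symm x]) →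
      ∀ k, Ind (kf P i) ((nm (bldA (st P (tau P i)) β).2.2 (I.take k)).map sem) := by
    intro x hx β hβ I hI hS k
    rw [kc_nm_take]
    apply ind_take
    exact (ind_same (kc_same_nm (hsP β hβ) hI)).2
      ((ind_same (same_mono hnN hS)).2 (hInd x hx))
  have hsub : ∀ (I : List ℕ) (m k : ℕ), (∀ j ∈ I, j < m) → ∀ j ∈ I.take k, j < m :=
    fun I m k hI j hj => hI j (List.mem_of_mem_take hj)
  -- matching builders are exceptional
  have hex : ∀ x ∈ X, ∀ β, surv P (tau P i) (st P (tau P i)) β = true → ∀ I : List ℕ,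
      I.length = 2 * sf P i + 8 → (∀ j ∈ I, j < (bldA (st P (tau P i)) β).2.2.length) →
      Same (kf P (i + 1))
        ((nm ((evn P (tau P i) (st P (tau P i))).2.getD β []) I).map sem)
        ((u.take (2 * sf P i + 7)).map T.f.symm ++ [T.f.symm x]) → l ∈ P.ex β := by
    intro x hx β hβ I hIl hI hS
    have h1 := hrank β hβ (I.take (P.tgf l i).1) (hsub I _ _ hI) (hPI x hx β hβ I hI hS _)
    have h2 := nrel_same (same_take hS (P.tgf l i).1)
    rw [← kc_nm_take, h1, htake, List.length_take, hIl, min_eq_left (by omega)] at h2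
    obtain ⟨h3, h4⟩ := hint
    rw [← h2] at h3 h4
    have h5 := (Nat.pow_le_pow_iff_right (one_lt_q (kf P (i + 1)))).1 h3
    have h6 := (Nat.pow_le_pow_iff_right (one_lt_q (kf P (i + 1)))).1 h4
    rcases surv_hurt hβ hactN with h7 | h7
    · exact h7
    · exfalso
      rw [hlv] at h7
      unfold hurt at h7
      rw [htg] at h7
      have h8 : (decide ((P.tgf l i).1 ≠ 0) &&
          (decide ((P.tgf l i).2.1 ≤ (P.tgf l i).1 - P.rho β i (tau P i)) &&
          decide ((P.tgf l i).1 - P.rho β i (tau P i) ≤ (P.tgf l i).2.2))) = true := by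
        rw [Bool.and_eq_true, Bool.and_eq_true]
        exact ⟨decide_eq_true hon, decide_eq_true h5, decide_eq_true h6⟩
      rw [h8] at h7
      exact absurd h7 (by decide)
  obtain ⟨β, hβ, I0, hI0l, hI0, hS0⟩ := hpat x0 hx0
  have hexβ := hex x0 hx0 β hβ I0 hI0l hI0 hS0
  -- prefixes
  have hpre : ∀ (x : W) (z : List (ℕ →₀ K)),
      Same (kf P (i + 1)) z ((u.take (2 * sf P i + 7)).map T.f.symm ++ [x]) →
      Same (kf P (i + 1)) (z.take (2 * sf P i + 7)) ((u.take (2 * sf P i + 7)).map T.f.symm) := by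
    intro x z hz
    have h1 := same_take hz (2 * sf P i + 7)
    have h2 : ((u.take (2 * sf P i + 7)).map T.f.symm ++ [x]).take (2 * sf P i + 7) =
        (u.take (2 * sf P i + 7)).map T.f.symm := by
      rw [List.take_append_of_le_length (by rw [List.length_map, hwl])]
      exact List.take_of_length_le (by rw [List.length_map, hwl])
    rwa [h2] at h1
  have hsep : ∀ x ∈ X, ∀ x' ∈ X, ∀ β', surv P (tau P i) (st P (tau P i)) β' = true →
      ∀ β'', surv P (tau P i) (st P (tau P i)) β'' = true → ∀ I : List ℕ,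
      I.length = 2 * sf P i + 8 → (∀ j ∈ I, j < (bldA (st P (tau P i)) β').2.2.length) →
      Same (kf P (i + 1))
        ((nm ((evn P (tau P i) (st P (tau P i))).2.getD β' []) I).map sem)
        ((u.take (2 * sf P i + 7)).map T.f.symm ++ [T.f.symm x]) → ∀ I' : List ℕ,
      I'.length = 2 * sf P i + 8 → (∀ j ∈ I', j < (bldA (st P (tau P i)) β'').2.2.length) →
      Same (kf P (i + 1))
        ((nm ((evn P (tau P i) (st P (tau P i))).2.getD β'' []) I').map sem)
        ((u.take (2 * sf P i + 7)).map T.f.symm ++ [T.f.symm x']) →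
      β' = β'' ∧ ∃ a : K, a ∈ Fs (kf P i) ∧ a ≠ 0 ∧
        (nm (bldA (st P (tau P i)) β'').2.2 (I'.take (2 * sf P i + 7))).map sem =
          ((nm (bldA (st P (tau P i)) β').2.2 (I.take (2 * sf P i + 7))).map sem).map
            fun v => a • v := by
    intro x hx x' hx' β' hβ' β'' hβ'' I hIl hI hS I' hI'l hI' hS'
    have h1 := hg.sep β' β'' (I.take (2 * sf P i + 7)) (I'.take (2 * sf P i + 7))
    rw [hold β' hβ', hold β'' hβ''] at h1
    refine h1 (hsub I _ _ hI) (hsub I' _ _ hI') ?_ (hPI x hx β' hβ' I hI hS _)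
      (hPI x' hx' β'' hβ'' I' hI' hS' _) ?_
    · rw [List.length_take, hIl]
      omega
    · rw [kc_nm_take, kc_nm_take]
      exact same_trans (hpre _ _ hS) (same_symm (hpre _ _ hS'))
  have hch : ∀ x : W, ∃ I : List ℕ, T.f x ∈ X → I.length = 2 * sf P i + 8 ∧
      (∀ j ∈ I, j < (bldA (st P (tau P i)) β).2.2.length) ∧
      Same (kf P (i + 1))
        ((nm ((evn P (tau P i) (st P (tau P i))).2.getD β []) I).map sem)
        ((u.take (2 * sf P i + 7)).map T.f.symm ++ [x]) := by
    intro x
    by_cases hx : T.f x ∈ X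
    · obtain ⟨β', hβ', I, hIl, hI, hS⟩ := hpat (T.f x) hx
      have h1 := (hsep x0 hx0 (T.f x) hx β hβ β' hβ' I0 hI0l hI0 hS0 I hIl hI hS).1
      subst h1
      rw [Equiv.symm_apply_apply] at hS
      exact ⟨I, fun _ => ⟨hIl, hI, hS⟩⟩
    · exact ⟨[], fun h' => absurd h' hx⟩
  choose I hI using hch
  have hlenG := evn_len hP (tau P i) (st P (tau P i)) hβ
  have hmemX : ∀ x ∈ X.image T.f.symm, T.f x ∈ X := by
    intro x hx
    obtain ⟨k, hk, rfl⟩ := Finset.mem_image.1 hx
    rwa [Equiv.apply_symm_apply]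
  have hrho : P.rho β i (tau P i) ≤ 2 * sf P i + 7 := (hP.rho2 β i (tau P i)).trans (by omega)
  have key := pigeon (kf P i) (kf P (i + 1)) (P.rho β i (tau P i)) (2 * sf P i + 7) hrho
    (((evn P (tau P i) (st P (tau P i))).2.getD β []).map sem)
    ((u.take (2 * sf P i + 7)).map T.f.symm) (by rw [List.length_map, hwl])
    (X.image T.f.symm) I ?_ ?_ ?_ ?_ ?_ ?_
  · rw [Finset.card_image_of_injective _ T.f.symm.injective, List.length_map, hlenG, hX, hcx]
      at key
    have hal : (bldA (st P (tau P i + 1)) β).1 = true := by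
      have hβt : β < tau P i := by
        have := surv_lt hβ
        rwa [nbld_st] at this
      rw [bldA_succ P (tau P i) hβt]
      unfold bldN
      rw [if_pos hβ]
      split_ifs <;> rfl
    have h1 := count_inv hP (tau P i + 1) hact hal hexβ
    rw [hk1, hs1] at h1
    have h2 : q (kf P i) * (bldA (st P (tau P i)) β).2.2.length ≤
        q (kf P i) * (bldA (st P (tau P i + 1)) β).2.2.length :=
      Nat.mul_le_mul_left _ (len_succ hP hβ)
    omega
  · intro x hx j hj
    rw [List.length_map, hlenG]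
    exact (hI x (hmemX x hx)).2.1 j hj
  · intro x hx
    exact (hI x (hmemX x hx)).1
  · intro x hx
    have h1 := (hI x (hmemX x hx)).2.2
    rwa [kc_sem_nm] at h1
  · intro x hx
    obtain ⟨h1, h2, h3⟩ := hI x (hmemX x hx)
    have h4 := hrank β hβ ((I x).take (2 * sf P i + 7)) (hsub _ _ _ h2) (hPI (T.f x) (hmemX x hx)
      β hβ (I x) h2 (by rwa [Equiv.symm_apply_apply]) _)
    rw [kc_sem_nm, List.length_take, h1, min_eq_left (by omega)] at h4
    exact h4
  · intro x hx
    obtain ⟨h1, h2, h3⟩ := hI x (hmemX x hx)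
    have h0 := hPI (T.f x) (hmemX x hx) β hβ (I x) h2 (by rwa [Equiv.symm_apply_apply])
      (2 * sf P i + 8)
    rw [List.take_of_length_le (by omega)] at h0
    have h4 := hrank β hβ (I x) h2 h0
    rw [kc_sem_nm, h1] at h4
    exact h4
  · intro x hx x' hx'
    obtain ⟨h1, h2, h3⟩ := hI x (hmemX x hx)
    obtain ⟨h1', h2', h3'⟩ := hI x' (hmemX x' hx')
    obtain ⟨-, a, ha, ha0, he⟩ := hsep (T.f x) (hmemX x hx) (T.f x') (hmemX x' hx') β hβ β hβ
      (I x) h1 h2 (by rwa [Equiv.symm_apply_apply]) (I x') h1' h2'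
      (by rwa [Equiv.symm_apply_apply])
    refine ⟨a, ha, ha0, ?_⟩
    have h5 := kc_prop (hsP β hβ) (hsub _ _ _ h2) (hsub _ _ _ h2') ha he
    rwa [kc_sem_nm, kc_sem_nm] at h5

end Pool.Agent.Work.MP_ed0a9a_lc.H
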