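import Mathlib
import Pool.Agent.Work.MP_ed0a9a_lc.H.Kc
import Pool.Agent.Work.MP_ed0a9a_lc.H.Lf

/-!
# Module `Ke`: admissible prefixes for a guard which has not acted

PROOFS.  `core_A`: kind A, `(l, y) ∈ af P i`.  By `kill_core` there is `z0` with `z0.map f = bas ++ [y]`, so
`z0 = bas.map f.symm ++ [f.symm y]`, and `¬ Intd`: `P.tgf l i = (k + 1, 1, 1)` (`tgf_A`, `af_on`), so
`nrel (kf P (i+1)) z0 ≠ q (kf P (i+1))`; `nrel_ind_append` with `hb`: it is `1`: `nrel_eq_one`.
`exists_PP`: kind A: `hb` says that the base `b = bas.map f.symm` is independent over all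
`F_n`.  If `1 ≤ i` and `(l, y') ∈ af P (i - 1)` for some `y'`: `core_A` at level `i - 1` gives
`Ind (kf P i) (b ++ [f.symm y'])` (`i - 1 + 1 = i`); take `y = y'` (the `y'` is unique: `af_lookup`) and
`z0 = b ++ [f.symm y']`, of length `k + 1 = (P.tgf l i).1` (`tgf_A`).  Otherwise choose `x` not in the
`kf P i`-span of `b` (`finite_spn`, `infinite_vec`), `y = f x`, `z0 = b ++ [x]` (`ind_append_iff`).
Kind B: `exists_cover (kf P i) (fun j => f.symm j) i`, `(P.tgf l i).1 = i` (`tgf_B`), with `y = y'` if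
`1 ≤ i` and `(l, y') ∈ af P (i - 1)`, `y = 0` otherwise.
-/

namespace Pool.Agent.Work.MP_ed0a9a_lc.H

variable {P : Par} {W : Type} [AddCommGroup W] [Module K W]

private theorem map_back (f : W ≃ ℕ) (z0 : List W) (b : List ℕ) (y : ℕ)
    (h : z0.map f = b ++ [y]) : z0 = b.map f.symm ++ [f.symm y] := by
  have h1 : (z0.map f).map f.symm = z0 := by
    rw [List.map_map]
    have : (⇑f.symm ∘ ⇑f) = id := by
      funext x
      exact f.symm_apply_apply x
    rw [this, List.map_id]
  rw [← h1, h, List.map_append, List.map_singleton]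

private theorem map_forth (f : W ≃ ℕ) (b : List ℕ) (x : W) :
    (b.map f.symm ++ [x]).map f = b ++ [f x] := by
  rw [List.map_append, List.map_map, List.map_singleton]
  have : (⇑f ∘ ⇑f.symm) = id := by
    funext x
    exact f.apply_symm_apply x
  rw [this, List.map_id]

theorem core_A (hP : P.Ok) {l i y : ℕ} (T : Thr P W (P.cod l)) (hk : P.knd l = true)
    (hb : ∀ n, Ind n ((P.bas l).map T.f.symm)) (h : (l, y) ∈ af P i) :
    Ind (kf P (i + 1)) ((P.bas l).map T.f.symm ++ [T.f.symm y]) := by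
  obtain ⟨z0, ⟨-, -, h3, -⟩, hI⟩ := kill_core hP T h
  have hz := map_back T.f z0 (P.bas l) y (h3 hk)
  have ht := (tgf_A hP hk (af_on hP h)).1
  rcases nrel_ind_append (hb (kf P (i + 1))) (T.f.symm y) with h1 | h1
  · exact (nrel_eq_one _ _).1 h1
  · exfalso
    apply hI
    unfold Intd
    rw [ht, hz, h1, pow_one]
    exact ⟨le_rfl, le_rfl⟩

theorem exists_PP (hP : P.Ok) [Nontrivial W] {l i : ℕ} (T : Thr P W (P.cod l))
    (hb : P.knd l = true → ∀ n, Ind n ((P.bas l).map T.f.symm))
    (hon : (P.tgf l i).1 ≠ 0) :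
    ∃ (y : ℕ) (z0 : List W), PP P T.f l i y z0 ∧
      ∀ y', 1 ≤ i → (l, y') ∈ af P (i - 1) → y = y' := by
  have huniq : ∀ y y', (l, y) ∈ af P (i - 1) → (l, y') ∈ af P (i - 1) → y = y' := by
    intro y y' h h'
    have h1 := (af_lookup hP).2 h
    have h2 := (af_lookup hP).2 h'
    rw [h1] at h2
    exact Option.some.inj h2
  cases hk : P.knd l with
  | true =>
    have ht := (tgf_A hP hk hon).1
    have hb' := hb hk
    by_cases hex : ∃ y', 1 ≤ i ∧ (l, y') ∈ af P (i - 1)
    · obtain ⟨y', hi, hy'⟩ := hex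
      have h1 := core_A hP T hk hb' hy'
      rw [Nat.sub_add_cancel hi] at h1
      refine ⟨y', (P.bas l).map T.f.symm ++ [T.f.symm y'], ⟨?_, h1, ?_, ?_⟩, ?_⟩
      · rw [ht]
        simp
      · intro _
        rw [map_forth, T.f.apply_symm_apply]
      · intro hf
        rw [hk] at hf
        exact absurd hf (by simp)
      · intro y'' _ hy''
        exact huniq _ _ hy' hy''
    · obtain ⟨D, hD, hI⟩ := exists_ind_extend (hb' (kf P i)) 1
      obtain ⟨x, rfl⟩ := List.length_eq_one_iff.1 hD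
      refine ⟨T.f x, (P.bas l).map T.f.symm ++ [x], ⟨?_, hI, ?_, ?_⟩, ?_⟩
      · rw [ht]
        simp
      · intro _
        rw [map_forth]
      · intro hf
        rw [hk] at hf
        exact absurd hf (by simp)
      · intro y'' hi hy''
        exact absurd ⟨y'', hi, hy''⟩ hex
  | false =>
    obtain ⟨c, -, -, ht⟩ := tgf_B hP hk hon
    obtain ⟨z, hz, hI, hS⟩ := exists_cover (kf P i) (fun j => T.f.symm j) i
    by_cases hex : ∃ y', 1 ≤ i ∧ (l, y') ∈ af P (i - 1)
    · obtain ⟨y', hi, hy'⟩ := hex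
      refine ⟨y', z, ⟨?_, hI, ?_, ?_⟩, ?_⟩
      · rw [ht]
        exact hz
      · intro hf
        rw [hk] at hf
        exact absurd hf (by simp)
      · intro _
        exact hS
      · intro y'' _ hy''
        exact huniq _ _ hy' hy''
    · refine ⟨0, z, ⟨?_, hI, ?_, ?_⟩, ?_⟩
      · rw [ht]
        exact hz
      · intro hf
        rw [hk] at hf
        exact absurd hf (by simp)
      · intro _
        exact hS
      · intro y'' hi hy''
        exact absurd ⟨y'', hi, hy''⟩ hex

end Pool.Agent.Work.MP_ed0a9a_lc.H
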