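import Mathlib
import Pool.Agent.Work.MP_ed0a9a_lc.H.Kd
import Pool.Agent.Work.MP_ed0a9a_lc.H.Ke

/-!
# Module `Kf`: the guard of a real threat is alive

PROOF of `cnt_bdd`.  Suppose no `(l, y)` is in `af P i`, `l ≤ i`, the guard is on at level `i`.  Let
`τ = tau P i`, `C` the maximum of `(bldA (st P (τ + 1)) β).2.1` over `β < τ + 1`.  CLAIM: for `t > τ` and all `β` alive at
stage `t` with `l ∈ P.ex β`: `(bldA (st P t) β).2.1 ≤ max C i`.  Induction on `t ≥ τ + 1`
(for `β ≥ t` the builder is dead, `bldA_ge`).  Step: `β = t`: `0`.  Otherwise (`alive_succ`) `β` survives, with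
`p = (bldA (st P t) β).2.1`; if it does not grow: clear.  If it grows, `thr = true`; if `i ≤ p` then
`i ≤ min (lv P t) p` (`i < lv P t`), and the clause for `l`, `i' = i` says: `i < l` (no), or
`(P.tg l i t).1 = 0` (no: `fin_tg`), or the lookup of `l` in the list of level `i` at stage `t + 1`
(`thr_entries`, `fin_act`: it is `af P i`) is some `y'`: no.  So `p < i` and the new value is `p + 1 ≤ i`.

PROOF of `alive_of_thr`.  Strong induction on the level `i`.  If `(l, y) ∈ af P i` for some `y`: `kill_core` gives `z0`,
and `nwy_unb` with the second alternative.  Suppose `(l, y) ∉ af P i` for all `y`.  `exists_PP`: `y`, `z0`;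
`nwy_unb` with the first alternative: the witness numbers `nwy P (sf P i) l i y t` are unbounded
(and monotone: `nwy_mono`).  Take a large `t > tau P i` (`t > y`) and put `S = st P t`.  `fin_att`: `nly P t S i = []`.
`memA S i l = none` (`fin_act`, `mem_iff_lookup`).  `y ∈ ysl S l i t`: if `1 ≤ i` and `memA S (i - 1) l = some y'` then
`(l, y') ∈ af P (i - 1)`, so `y = y'`; if it is `none`: `y < t`; if `i = 0`: `memA S 0 l = none`.
So by `nly_nil` `rdy P t S l i y = false`.  But for large `t` all clauses hold: on: `fin_tg`; for `i' < i`,
`l ≤ i'`, on at time `t`, i.e. `(P.tgf l i').1 ≠ 0` (`fin_tg`, `tau_lt`): the induction hypothesis gives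
`(l, y') ∈ af P i'` with unbounded witness numbers, `memA S i' l = some y'`, `stgA S i' = sf P i'`;
`q (kf P i) * (i + 1) < nwy`; and for `β < nbld S` alive with `l ∈ P.ex β`:
`(bldA S β).2.2.length ≤ (bldA S β).2.1 ≤ max C i` (`len_le_cnt`, `cnt_bdd`), so
`q (kf P i) * (i + 1 + length) < nwy` for `t` large (independent of `β`).  Contradiction.
-/

namespace Pool.Agent.Work.MP_ed0a9a_lc.H

variable {P : Par} {W : Type} [AddCommGroup W] [Module K W]

private theorem kf_dead {t β : ℕ} (h : (bldA (st P t) β).1 = true) : β < t := by
  by_contra hc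
  rw [bldA_ge P t (not_lt.1 hc)] at h
  exact absurd h (by decide)

private theorem kf_lookup (hP : P.Ok) {l i t j : ℕ} (h : tau P i < t) (hj : j ≤ i)
    (hn : ∀ y, (l, y) ∉ af P j) : memA (st P t) j l = none := by
  unfold memA
  rw [fin_act hP h hj]
  cases hx : (af P j).lookup l with
  | none => rfl
  | some y => exact absurd ((af_lookup hP).1 hx) (hn y)

theorem cnt_bdd (hP : P.Ok) {l i : ℕ} (hl : l ≤ i) (hon : (P.tgf l i).1 ≠ 0)
    (h : ∀ y, (l, y) ∉ af P i) : ∃ C, ∀ t, tau P i < t → ∀ β, (bldA (st P t) β).1 = true →
      l ∈ P.ex β → (bldA (st P t) β).2.1 ≤ C := by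
  refine ⟨max ((Finset.range (tau P i + 1)).sup fun β => (bldA (st P (tau P i + 1)) β).2.1) i, ?_⟩
  intro t ht
  induction t, ht using Nat.le_induction with
  | base =>
    intro β hβ _
    refine le_trans ?_ (le_max_left _ _)
    exact Finset.le_sup (f := fun β => (bldA (st P (tau P i + 1)) β).2.1)
      (Finset.mem_range.2 (kf_dead hβ))
  | succ t ht ih =>
    intro β hβ hex
    rcases alive_succ P t hβ with rfl | hsv
    · rw [bldA_new]
      exact Nat.zero_le _
    · have hlt : β < t := by
        have := surv_lt hsv
        rwa [nbld_st] at this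
      have hI := ih β (surv_alive hsv) hex
      rw [bldA_succ P t hlt]
      unfold bldN
      rw [if_pos hsv]
      by_cases hth : thr P t (st P t) β (bldA (st P t) β).2.1
          ((evn P t (st P t)).2.getD β []).length = true
      · rw [if_pos hth]
        by_cases hpi : (bldA (st P t) β).2.1 < i
        · exact le_trans (by simpa using hpi) (le_max_right _ _)
        · exfalso
          have hle : i ≤ lv P t := ((tau_spec hP i).2 t ht).le
          unfold thr at hth
          rw [List.all_eq_true] at hth
          have h1 := hth l hex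
          rw [List.all_eq_true] at h1
          have h2 := h1 i (List.mem_range.2 (by
            have : i ≤ lev P t (st P t) := hle
            omega))
          have hli : ¬ i < l := not_lt.2 hl
          have hon' : ¬ (P.tg l i t).1 = 0 := by
            rw [(fin_tg hP (le_of_lt ht) hl).1]
            exact hon
          obtain ⟨e1, e2, e3⟩ := thr_entries P t (i := i) hle
          rw [e1, e2, e3] at h2
          have hlk : (actA (st P (t + 1)) i).lookup l = none :=
            kf_lookup hP (lt_of_lt_of_le ht (Nat.le_succ t)) le_rfl h
          rw [hlk] at h2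
          simp [hli, hon'] at h2
      · rw [if_neg hth]
        exact hI

theorem alive_of_thr (hP : P.Ok) [Nontrivial W] {l : ℕ} (T : Thr P W (P.cod l))
    (hb : P.knd l = true → ∀ n, Ind n ((P.bas l).map T.f.symm)) : Alive P l := by
  intro i
  induction i using Nat.strong_induction_on with
  | _ i ih =>
    intro hl hon
    by_cases hex : ∃ y, (l, y) ∈ af P i
    · obtain ⟨y, hy⟩ := hex
      obtain ⟨z0, hPP, hnI⟩ := kill_core hP T hy
      exact ⟨y, hy, fun M => nwy_unb hP T hon hPP (Or.inr hnI) M⟩
    · exfalso
      have h : ∀ y, (l, y) ∉ af P i := fun y hy => hex ⟨y, hy⟩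
      obtain ⟨y, z0, hPP, hy⟩ := exists_PP hP T hb hon
      obtain ⟨C, hC⟩ := cnt_bdd hP hl hon h
      obtain ⟨t0, ht0⟩ := nwy_unb hP T hon hPP (Or.inl h) (q (kf P i) * (i + 1 + C) + 1)
      have h1 : ∀ i', ∃ T', i' < i → l ≤ i' → (P.tgf l i').1 ≠ 0 →
          ∃ y', (l, y') ∈ af P i' ∧ i ≤ nwy P (sf P i') l i' y' T' := by
        intro i'
        by_cases hc : i' < i ∧ l ≤ i' ∧ (P.tgf l i').1 ≠ 0
        · obtain ⟨y', hy', hM⟩ := ih i' hc.1 hc.2.1 hc.2.2
          obtain ⟨T', hT'⟩ := hM i
          exact ⟨T', fun _ _ _ => ⟨y', hy', hT'⟩⟩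
        · exact ⟨0, fun a b c => absurd ⟨a, b, c⟩ hc⟩
      choose T' hT' using h1
      obtain ⟨t, ht⟩ : ∃ t, t = max (max (tau P i + 1) (y + 1))
          (max t0 ((Finset.range i).sup T')) := ⟨_, rfl⟩
      have hτ : tau P i < t := by
        rw [ht]
        exact lt_of_lt_of_le (Nat.lt_succ_self _) ((le_max_left _ _).trans (le_max_left _ _))
      have hyt : y < t := by
        rw [ht]
        exact lt_of_lt_of_le (Nat.lt_succ_self _) ((le_max_right _ _).trans (le_max_left _ _))
      have ht0t : t0 ≤ t := by
        rw [ht]
        exact (le_max_left _ _).trans (le_max_right _ _)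
      have hTt : ∀ i', i' < i → T' i' ≤ t := by
        intro i' hi'
        rw [ht]
        exact (Finset.le_sup (Finset.mem_range.2 hi')).trans
          ((le_max_right _ _).trans (le_max_right _ _))
      have hnil := (fin_att hP hτ).2
      have hm : memA (st P t) i l = none := kf_lookup hP hτ le_rfl h
      have hysl : y ∈ ysl (st P t) l i t := by
        unfold ysl
        cases hx : memA (st P t) (i - 1) l with
        | none => exact List.mem_range.2 hyt
        | some y' =>
          rcases Nat.eq_zero_or_pos i with h0 | h0
          · exfalso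
            rw [h0] at hx hm
            rw [hm] at hx
            exact absurd hx (by simp)
          · unfold memA at hx
            rw [fin_act hP hτ (Nat.sub_le i 1)] at hx
            have := hy y' h0 ((af_lookup hP).1 hx)
            rw [this]
            exact List.mem_singleton.2 rfl
      have hk : kapA (st P t) i = kf P i := fin_kap hP hτ (Nat.le_succ i)
      have hs : stgA (st P t) i = sf P i := fin_stg hP hτ le_rfl
      have hbig : q (kf P i) * (i + 1 + C) < nwy P (sf P i) l i y t :=
        lt_of_lt_of_le (Nat.lt_of_succ_le ht0) (nwy_mono ht0t)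
      have hf := nly_nil hnil hl hm hysl
      have hr : rdy P t (st P t) l i y = true := by
        unfold rdy
        rw [Bool.and_eq_true, Bool.and_eq_true, Bool.and_eq_true]
        refine ⟨?_, ?_, ?_, ?_⟩
        · rw [decide_eq_true_eq, (fin_tg hP hτ.le hl).1]
          exact hon
        · rw [List.all_eq_true]
          intro i' hi'
          rw [List.mem_range] at hi'
          by_cases hli : i' < l
          · simp [hli]
          · have hli' : l ≤ i' := not_lt.1 hli
            have hτ' : tau P i' ≤ t := ((tau_lt hP hi').trans hτ).le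
            by_cases hon' : (P.tgf l i').1 = 0
            · simp [(fin_tg hP hτ' hli').1, hon']
            · obtain ⟨y', hy', hM⟩ := hT' i' hi' hli' hon'
              have hm' : memA (st P t) i' l = some y' := by
                unfold memA
                rw [fin_act hP hτ hi'.le]
                exact (af_lookup hP).2 hy'
              have hs' : stgA (st P t) i' = sf P i' := fin_stg hP hτ hi'.le
              have hM' := hM.trans (nwy_mono (hTt i' hi'))
              rw [hm', hs']
              simp [hM']
        · rw [decide_eq_true_eq, hk, hs]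
          exact lt_of_le_of_lt (Nat.mul_le_mul_left _ (Nat.le_add_right _ _)) hbig
        · rw [List.all_eq_true]
          intro β _
          by_cases hal : (bldA (st P t) β).1 = true
          · by_cases hexβ : l ∈ P.ex β
            · have h5 : (bldA (st P t) β).2.2.length ≤ C :=
                (len_le_cnt P t hP β).trans (hC t hτ β hal hexβ)
              have h6 : q (kapA (st P t) i) * (i + 1 + (bldA (st P t) β).2.2.length) <
                  nwy P (stgA (st P t) i) l i y t := by
                rw [hk, hs]
                exact lt_of_le_of_lt (Nat.mul_le_mul_left _ (Nat.add_le_add_left h5 _)) hbig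
              simp [h6]
            · simp [hexβ]
          · simp [hal]
      rw [hr] at hf
      exact absurd hf (by decide)

end Pool.Agent.Work.MP_ed0a9a_lc.H
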