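import Mathlib
import Pool.Agent.Work.MP_ed0a9a_lc.H.Kf

/-!
# Module `Kg`: killing

PROOF of `kill_A`.  `alive_of_thr`.  For `i ≥ j0 := max i0 l` choose `y_i` with `(l, y_i) ∈ af P i` (`Alive`).
`af_mem`: `y_(i+1) = y_i`, so all are equal to `y = y_(j0)`.  `core_A`: `Ind (kf P (i + 1)) (b ++ [f.symm y])` for all
`i ≥ j0`; since `n ≤ kf P (i + 1)` for large `i` (`le_kf`, `ind_mono`): `Ind n` for all `n`, contradiction
with `hdim`.

PROOF of `kill_B`.  Let `i1` be larger than all names `T.f x`, `x ∈ v`.  By `hon` there is a level `i ≥ max i1 l` with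
`P.tgf l i = (i, 0, i - v.length)`, `v.length ≤ i`, `i ≠ 0`.  `alive_of_thr`: `(l, y) ∈ af P i`.  `kill_core`: `z0` with
`z0.length = i`, every `f.symm j`, `j < i`, in the `kf P i`-span of `z0`, and `¬ Intd`:
`¬ (1 ≤ nrel N z0 ∧ nrel N z0 ≤ q N ^ (i - c))`, `N = kf P (i + 1)`, `c = v.length`.  Every `x ∈ v` is in the
`N`-span of `z0` (`isF_mono`), so `nrel_spn_le`: `nrel N z0 * q N ^ c ≤ q N ^ i`, hence
`nrel N z0 ≤ q N ^ (i - c)` (`pow_sub`, cancel `q N ^ c`), and `nrel_pos`.  Contradiction.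

PROOF of `dead_fin`.  `¬ Alive P l`: there is `i0 ≥ l` with `(P.tgf l i0).1 ≠ 0` and for all `y`:
`(l, y) ∉ af P i0` or the numbers `nwy P (sf P i0) l i0 y t` are bounded.  Since there is at most one `y` with
`(l, y) ∈ af P i0` (`af_lookup`) there is `M0` with: `∀ y t, (l, y) ∈ af P i0 → nwy P (sf P i0) l i0 y t < M0`.
Let `j = max i0 M0`, `T = tau P j + 1`.  CLAIM: for `t ≥ T`, `m > j` and all `y`: `(l, y) ∉ actA (st P t) m`.
`t = T`: `top (st P T) = lv P (tau P j) + 1 = j + 1 ≤ m`, `actA_out`.  Step: `m < lv P t`: unchanged.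
`m > lv P t`: `actA_out`.  `m = lv P t`: the list is `actN`, i.e. `[]` or `actA (st P t) m ++ nly P t (st P t) m`.
If `(l, y)` is in `nly`: `mem_nly`, `rdy` with `i' = i0 < m`: `l ≤ i0`, `(P.tg l i0 t).1 ≠ 0` (`fin_tg`,
`tau P i0 ≤ t`), so `memA (st P t) i0 l = some y'`, `m ≤ nwy P (stgA (st P t) i0) l i0 y' t`; by `fin_act`, `fin_stg`
(`tau P i0 ≤ tau P j < t`) `(l, y') ∈ af P i0`, `m ≤ nwy P (sf P i0) l i0 y' t < M0 ≤ j < m`, contradiction.
Finally for `t ≥ T`: `j < lv P t` (`tau_spec`) and `actN P t (st P t) = actA (st P (t+1)) (lv P t)`.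
-/

namespace Pool.Agent.Work.MP_ed0a9a_lc.H

variable {P : Par} {W : Type} [AddCommGroup W] [Module K W]

theorem kill_A (hP : P.Ok) [Nontrivial W] {l : ℕ} (hk : P.knd l = true)
    (T : Thr P W (P.cod l)) (hb : ∀ n, Ind n ((P.bas l).map T.f.symm))
    (hdim : ∀ x : W, ¬ ∀ n, Ind n ((P.bas l).map T.f.symm ++ [x]))
    (hon : ∃ i0, ∀ i, i0 ≤ i → (P.tgf l i).1 ≠ 0) : False := by
  have hal := alive_of_thr hP T (fun _ => hb)
  obtain ⟨i0, hi0⟩ := hon
  obtain ⟨y, hy, -⟩ := hal (max i0 l) (le_max_right _ _) (hi0 _ (le_max_left _ _))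
  have hall : ∀ k, (l, y) ∈ af P (max i0 l + k) := by
    intro k
    induction k with
    | zero => exact hy
    | succ k ih =>
      obtain ⟨y', hy', -⟩ := hal (max i0 l + (k + 1)) (by omega) (hi0 _ (by omega))
      have h1 : y' = y := af_mem hP (i := max i0 l + k) hy' ih
      rw [← h1]
      exact hy'
  refine hdim (T.f.symm y) fun n => ?_
  have h2 := core_A hP T hk hb (hall n)
  refine ind_mono ?_ h2
  have h3 := le_kf hP (max i0 l + n + 1)
  omega

theorem kill_B (hP : P.Ok) [Nontrivial W] {l : ℕ} (hk : P.knd l = false)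
    (T : Thr P W (P.cod l)) (v : List W) (hv : ∀ n, Ind n v)
    (hon : ∀ i0, ∃ i, i0 ≤ i ∧ 1 ≤ i ∧ v.length ≤ i ∧ P.tgf l i = (i, 0, i - v.length)) :
    False := by
  have hal := alive_of_thr hP T (fun h => by rw [hk] at h; exact absurd h (by simp))
  obtain ⟨M, hM⟩ : ∃ M, ∀ x ∈ v, T.f x ≤ M :=
    ⟨(v.map T.f).sum, fun x hx => List.le_sum_of_mem (List.mem_map_of_mem hx)⟩
  obtain ⟨i, hi, hi1, hvl, htg⟩ := hon (max (M + 1) l)
  obtain ⟨y, hy, -⟩ := hal i (by omega) (by rw [htg]; show i ≠ 0; omega)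
  obtain ⟨z0, hPP, hI⟩ := kill_core hP T hy
  obtain ⟨p1, p2, -, p4⟩ := hPP
  rw [htg] at p1
  have p1' : z0.length = i := p1
  apply hI
  unfold Intd
  rw [htg]
  have hs : ∀ x ∈ v, Spn (kf P (i + 1)) z0 x := by
    intro x hx
    have h1 := hM x hx
    obtain ⟨c, c1, c2, c3⟩ := p4 hk (T.f x) (by omega)
    rw [Equiv.symm_apply_apply] at c3
    exact ⟨c, c1, isF_mono (kf_lt hP (Nat.lt_succ_self i)).le c2, c3⟩
  have h2 := nrel_spn_le (hv (kf P (i + 1))) hs
  rw [p1'] at h2
  have hq : 0 < q (kf P (i + 1)) := (one_lt_q _).trans' one_pos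
  constructor
  · show q (kf P (i + 1)) ^ 0 ≤ _
    rw [pow_zero]
    exact nrel_pos _ _
  · show _ ≤ q (kf P (i + 1)) ^ (i - v.length)
    have h3 : nrel (kf P (i + 1)) z0 * q (kf P (i + 1)) ^ v.length ≤
        q (kf P (i + 1)) ^ (i - v.length) * q (kf P (i + 1)) ^ v.length := by
      rw [← pow_add, Nat.sub_add_cancel hvl]
      exact h2
    exact Nat.le_of_mul_le_mul_right h3 (pow_pos hq _)

theorem dead_fin (hP : P.Ok) {l : ℕ} (h : ¬ Alive P l) :
    ∃ T, ∀ t, T ≤ t → ∀ y, (l, y) ∉ actN P t (st P t) := by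
  unfold Alive at h
  push Not at h
  obtain ⟨i0, hl, hon, hb⟩ := h
  obtain ⟨M0, hM0⟩ : ∃ M0, ∀ y t, (l, y) ∈ af P i0 → nwy P (sf P i0) l i0 y t < M0 := by
    by_cases hex : ∃ y, (l, y) ∈ af P i0
    · obtain ⟨y, hy⟩ := hex
      obtain ⟨M, hM⟩ := hb y hy
      refine ⟨M, fun y' t hy' => ?_⟩
      have e1 := (af_lookup hP).2 hy
      have e2 := (af_lookup hP).2 hy'
      rw [e1] at e2
      rw [← Option.some.inj e2]
      exact hM t
    · push Not at hex
      exact ⟨0, fun y t hy => absurd hy (hex y)⟩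
  have htau : ∀ t, tau P (max i0 M0) < t → tau P i0 < t := by
    intro t ht
    rcases Nat.lt_or_ge i0 (max i0 M0) with h1 | h1
    · exact (tau_lt hP h1).trans ht
    · have h2 : max i0 M0 = i0 := le_antisymm h1 (le_max_left _ _)
      rw [h2] at ht
      exact ht
  have claim : ∀ t, tau P (max i0 M0) + 1 ≤ t → ∀ m, max i0 M0 < m → ∀ y,
      (l, y) ∉ actA (st P t) m := by
    intro t ht
    induction t, ht using Nat.le_induction with
    | base =>
      intro m hm y hy
      have h1 := top_succ P (tau P (max i0 M0))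
      rw [(tau_spec hP (max i0 M0)).1] at h1
      rw [actA_out P _ (by omega)] at hy
      simp at hy
    | succ t ht ih =>
      intro m hm y hy
      rcases lt_trichotomy m (lv P t) with h1 | h1 | h1
      · rw [actA_succ P t h1] at hy
        exact ih m hm y hy
      · rw [h1, actA_succ_lv] at hy
        unfold actN at hy
        split_ifs at hy with hc
        · simp at hy
        · rw [List.mem_append] at hy
          have e : lev P t (st P t) = m := h1.symm
          rw [e] at hy
          rcases hy with hy | hy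
          · exact ih m hm y hy
          · obtain ⟨-, -, -, hr⟩ := mem_nly hy
            unfold rdy at hr
            rw [Bool.and_eq_true, Bool.and_eq_true, List.all_eq_true] at hr
            have h2 := hr.2.1 i0 (List.mem_range.2 (by omega))
            have ht0 : tau P i0 < t := htau t (by omega)
            rw [Bool.or_eq_true, Bool.or_eq_true, decide_eq_true_eq, decide_eq_true_eq,
              (fin_tg hP ht0.le hl).1] at h2
            rcases h2 with h2 | h2 | h2
            · omega
            · exact hon h2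
            · have h3 : memA (st P t) i0 l = (af P i0).lookup l := by
                unfold memA
                rw [fin_act hP ht0 le_rfl]
              rw [h3, fin_stg hP ht0 le_rfl] at h2
              cases hlk : (af P i0).lookup l with
              | none => rw [hlk] at h2; simp at h2
              | some y' =>
                rw [hlk] at h2
                have h4 : m ≤ nwy P (sf P i0) l i0 y' t := by simpa using h2
                have h5 := hM0 y' t ((af_lookup hP).1 hlk)
                omega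
      · have h2 := top_succ P t
        rw [actA_out P _ (by omega)] at hy
        simp at hy
  refine ⟨tau P (max i0 M0) + 1, fun t ht y hy => ?_⟩
  rw [← actA_succ_lv] at hy
  exact claim (t + 1) (by omega) (lv P t) ((tau_spec hP (max i0 M0)).2 t (by omega)) y hy

end Pool.Agent.Work.MP_ed0a9a_lc.H
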