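import Mathlib
import Pool.Agent.Work.MP_ed0a9a_lc.H.Ia
import Pool.Agent.Work.MP_ed0a9a_lc.H.Ib
import Pool.Agent.Work.MP_ed0a9a_lc.H.Ba
import Pool.Agent.Work.MP_ed0a9a_lc.H.Kg

/-!
# Module `Ic`: the good builders of the two instances

PROOFS.  `exists_GB`: let `L` be the list of the `l < e0` with `Alive P l` (`(List.range e0).filter ..`,
classical).  For every `l < e0` which is not alive `dead_fin` gives a stage `T_l`; let `T` be the maximum.  Take `c ≥ T`
with `β = b c L` (hypothesis `hb`: `c ≤ β`).  `Liv P β` by `liv_of`: for `t > β ≥ T` and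
`p ∈ actN P t (st P t)`, if `hurt P β p.1 (lv P t) t = true` then `p.1 < e0` (`hhurt`), and `p.1` is alive (otherwise
`dead_fin`), so `p.1 ∈ L = P.ex β`.  `ex`: clear.  `good`: hypothesis.
`P1_builder`: `exists_GB` with `e0 = e`, `b c L = Nat.pair c (Nat.pair k (Nat.pair e (encode L)) + 1)`
(`Nat.left_le_pair`, `Nat.unpair_pair`, `Denumerable.ofNat_encode`), `P1_hurt`; `good`: given `r ≤ k`, `i0`: by `hinf` there
is `i ≥ max i0 (max β k)` with `Lim w (k, e) i true`; `P1_rhof`, `P1_rho_ge`.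
`P1_omega`: `β = 0`: `hurt` is impossible (`P1_hurt`: `(Nat.unpair 0).2 = 0`), `liv_of`; `ex = []`; `good`: `i = max i0 r`,
`P1_rhof_zero`, `P1_rho_zero`.
`P2_builder`: the same with `k = k' + 1`, `b c L = Nat.pair c (Nat.pair k' (encode L))`, `e0 = k' + 1`.
-/

namespace Pool.Agent.Work.MP_ed0a9a_lc.H

variable {w : ℕ → ℕ → ℕ → Bool}

theorem exists_GB {P : Par} (hP : P.Ok) (d : ℕ∞) (e0 : ℕ) (b : ℕ → List ℕ → ℕ)
    (hb : ∀ c L, c ≤ b c L) (hex : ∀ c L, P.ex (b c L) = L)
    (hhurt : ∀ c L l m t, hurt P (b c L) l m t = true → l < e0)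
    (hgood : ∀ c L, ∀ r : ℕ, (r : ℕ∞) ≤ d → ∀ i0, ∃ i, i0 ≤ i ∧ b c L ≤ i ∧
      r ≤ P.rhof (b c L) i ∧ (P.rhof (b c L) i : ℕ∞) ≤ d ∧
      ∀ m t, i < m → P.rhof (b c L) i ≤ P.rho (b c L) m t) : ∃ β, GB P β d := by
  classical
  have hdead : ∀ l, ∃ T, ¬ Alive P l → ∀ t, T ≤ t → ∀ y, (l, y) ∉ actN P t (st P t) := by
    intro l
    by_cases h : Alive P l
    · exact ⟨0, fun h' => absurd h h'⟩
    · obtain ⟨T, hT⟩ := dead_fin hP h
      exact ⟨T, fun _ => hT⟩
  choose T hT using hdead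
  set L : List ℕ := (List.range e0).filter fun l => decide (Alive P l) with hL
  have hmem : ∀ l, l ∈ L ↔ l < e0 ∧ Alive P l := by
    intro l
    rw [hL, List.mem_filter, List.mem_range, decide_eq_true_eq]
  set c : ℕ := (Finset.range e0).sup T with hc
  refine ⟨b c L, ?_, ?_, hgood c L⟩
  · apply liv_of
    intro t ht p hp
    by_cases hh : hurt P (b c L) p.1 (lv P t) t = true
    · left
      have h1 := hhurt c L p.1 (lv P t) t hh
      rw [hex, hmem]
      refine ⟨h1, ?_⟩
      by_contra hA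
      have h2 : T p.1 ≤ c := Finset.le_sup (f := T) (Finset.mem_range.mpr h1)
      exact hT p.1 hA t ((h2.trans (hb c L)).trans ht.le) p.2 hp
    · right
      simpa using hh
  · intro l hl
    rw [hex, hmem] at hl
    exact hl.2

private theorem lst_encode (L : List ℕ) : lst (Encodable.encode L) = L :=
  Denumerable.ofNat_encode L

theorem P1_builder (hw : Apx w) {k e : ℕ} (hk : 1 ≤ k) (h : InfW w (Nat.pair k e)) :
    ∃ β, GB (P1 w) β (k : ℕ∞) := by
  refine exists_GB (P1_ok hw) (k : ℕ∞) e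
    (fun c L => Nat.pair c (Nat.pair k (Nat.pair e (Encodable.encode L)) + 1))
    (fun c L => Nat.left_le_pair _ _) (fun c L => ?_) (fun c L l m t hh => ?_)
    (fun c L r hr i0 => ?_)
  · show (if (Nat.unpair (Nat.pair c (Nat.pair k (Nat.pair e (Encodable.encode L)) + 1))).2 = 0
      then [] else lst (((Nat.unpair (Nat.pair c (Nat.pair k (Nat.pair e
        (Encodable.encode L)) + 1))).2 - 1).unpair.2.unpair.2)) = L
    simp only [Nat.unpair_pair, Nat.add_sub_cancel]
    rw [if_neg (Nat.succ_ne_zero _), lst_encode]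
  · have := (P1_hurt hh).2
    simpa only [Nat.unpair_pair, Nat.add_sub_cancel] using this
  · obtain ⟨i, hi, hlim⟩ := h (max i0 (max (Nat.pair c (Nat.pair k (Nat.pair e
      (Encodable.encode L)) + 1)) k))
    have hki : k ≤ i := ((le_max_right _ _).trans (le_max_right _ _)).trans hi
    have hr' : r ≤ k := Nat.cast_le.mp hr
    have e1 := P1_rhof hw (c := c) (x := Encodable.encode L) hk hki hlim
    refine ⟨i, (le_max_left _ _).trans hi, ((le_max_left _ _).trans (le_max_right _ _)).trans hi,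
      ?_, ?_, ?_⟩
    · rw [e1]; exact hr'
    · rw [e1]
    · intro m t hm
      rw [e1]
      exact P1_rho_ge (by omega)

theorem P1_omega (hw : Apx w) : ∃ β, GB (P1 w) β ⊤ := by
  refine ⟨0, ?_, ?_, ?_⟩
  · apply liv_of
    intro t ht p hp
    right
    by_contra hh
    have h1 : hurt (P1 w) 0 p.1 (lv (P1 w) t) t = true := by simpa using hh
    exact (P1_hurt h1).1 (by simp)
  · intro l hl
    rw [(P1_rho_zero (w := w) 0 0).2] at hl
    simp at hl
  · intro r _ i0
    refine ⟨max i0 r, le_max_left _ _, Nat.zero_le _, ?_, le_top, ?_⟩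
    · rw [P1_rhof_zero]
      exact (le_max_right i0 r).trans (Nat.le_succ _)
    · intro m t hm
      rw [P1_rhof_zero, (P1_rho_zero m t).1]
      omega

theorem P2_builder (hw : Apx w) {k : ℕ} (hk : 1 ≤ k) (h : InfW w k) :
    ∃ β, GB (P2 w) β (k : ℕ∞) := by
  obtain ⟨k', rfl⟩ : ∃ k', k = k' + 1 := ⟨k - 1, by omega⟩
  refine exists_GB (P2_ok hw) ((k' + 1 : ℕ) : ℕ∞) (k' + 1)
    (fun c L => Nat.pair c (Nat.pair k' (Encodable.encode L)))
    (fun c L => Nat.left_le_pair _ _) (fun c L => ?_) (fun c L l m t hh => ?_)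
    (fun c L r hr i0 => ?_)
  · show lst ((Nat.pair c (Nat.pair k' (Encodable.encode L))).unpair.2.unpair.2) = L
    simp only [Nat.unpair_pair]
    exact lst_encode L
  · have := P2_hurt hh
    simpa only [Nat.unpair_pair] using this
  · obtain ⟨i, hi, hlim⟩ := h (max i0 (max (Nat.pair c (Nat.pair k' (Encodable.encode L)))
      (k' + 1)))
    have hki : k' + 1 ≤ i := ((le_max_right _ _).trans (le_max_right _ _)).trans hi
    have hr' : r ≤ k' + 1 := Nat.cast_le.mp hr
    have e1 := P2_rhof hw (c := c) (x := Encodable.encode L) hki hlim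
    refine ⟨i, (le_max_left _ _).trans hi, ((le_max_left _ _).trans (le_max_right _ _)).trans hi,
      ?_, ?_, ?_⟩
    · rw [e1]; exact hr'
    · rw [e1]
    · intro m t hm
      rw [e1]
      exact P2_rho_ge (by omega)

end Pool.Agent.Work.MP_ed0a9a_lc.H
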