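import Mathlib
import Pool.Agent.Work.MP_ed0a9a_lc.H.Ia
import Pool.Agent.Work.MP_ed0a9a_lc.H.Ib
import Pool.Agent.Work.MP_ed0a9a_lc.H.Kg
import Pool.Agent.Work.MP_ed0a9a_lc.H.Lf

/-!
# Module `Id`: the killed models of the two instances

`Md i = Jt (i + 1) →₀ K`, `Jt (i + 1) = {r : ℕ // (r : ℕ∞) < i + 1}`.

PROOFS.  `base_fin`: `b = (List.finRange (i + 1)).map (fun j => Finsupp.single ⟨j, _⟩ 1)`; independent over `K`
(`Finsupp.linearIndependent_single_one` composed with an injective map), so `Ind n` for all `n` (`ind_all_iff`); `b ++ [x]`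
would be `i + 2` independent vectors in a space of dimension `i + 1` (`LinearIndependent.fintype_card_le_finrank`,
`Module.finrank_finsupp_self`, `Fintype.card (Jt (i + 1)) = i + 1`).
`kill_fin_A` (any `P`): `thr_of_comp` gives `e` and `T : Thr P (Md i) e`; let `b` be as in
`base_fin`, and `l` (hypothesis `hl`) a guard with `P.cod l = e`, `P.bas l = b.map T.f`, kind A.  Transport `T` along `P.cod l = e`.
`(P.bas l).map T.f.symm = b`.  `kill_A`.
`P1_kill`: `l = Nat.pair e (encode (b.map f))`; `hon`: for `e' ≤ l` there is `i0` beyond which `Lim w (k, e') i false`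
(`hfin`), take the maximum, and `P1_tgf`.  (`¬ InfW w (k, e')` gives: for `i ≥ i0`: not `Lim .. true`, so by
`hw.lim` the limit is `false`.)
`P2_kill`: `l = 2 * Nat.pair e (encode (b.map f))`, `P2_tgf_A`.
`P2_kill_omega`: `thr_of_comp`: `e`, `T`; `l = 2 * e + 1`.  Choose `k ≥ max l 1` with `InfW w k` (`hD`).  For the infinitely
many `i > k` with `Lim w k i true`, `P2_tgf_B` gives `k'_i ≤ k`; by the pigeonhole principle there is one `k'`
with `(P2 w).tgf l i = (i, 0, i - (k' + 1))` for infinitely many `i`.  `v = [single 0 1, …, single k' 1]`, `k' + 1` independent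
vectors of `Md ⊤` (`⊤ + 1 = ⊤`).  `kill_B` (`hv` by `ind_all_iff`).
-/

namespace Pool.Agent.Work.MP_ed0a9a_lc.H

open FirstOrder FirstOrder.Language

variable {w : ℕ → ℕ → ℕ → Bool}

private theorem ind_single {J : Type} {a : ℕ} (g : Fin a → J) (hg : Function.Injective g) :
    ∀ n, Ind n (List.ofFn fun j => (Finsupp.single (g j) (1 : K) : J →₀ K)) := by
  rw [ind_all_iff]
  have hl : (List.ofFn fun j => (Finsupp.single (g j) (1 : K) : J →₀ K)).length = a :=
    List.length_ofFn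
  have h1 := (Finsupp.linearIndependent_single_one K J).comp (fun j => g (Fin.cast hl j))
    (fun x y hxy => Fin.cast_injective hl (hg hxy))
  have h2 : (fun j : Fin (List.ofFn fun j => (Finsupp.single (g j) (1 : K) : J →₀ K)).length =>
      (List.ofFn fun j => (Finsupp.single (g j) (1 : K) : J →₀ K)).get j) =
      (fun i => (Finsupp.single i (1 : K) : J →₀ K)) ∘ fun j => g (Fin.cast hl j) := by
    funext j
    simp only [List.get_eq_getElem, List.getElem_ofFn, Function.comp_apply]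
    rfl
  rw [h2]
  exact h1

private def eqJ (i : ℕ) : Jt ((i : ℕ∞) + 1) ≃ Fin (i + 1) where
  toFun r := ⟨r.1, by exact_mod_cast r.2⟩
  invFun j := ⟨j.1, by exact_mod_cast j.2⟩
  left_inv _ := rfl
  right_inv _ := rfl

private theorem ntr (i : ℕ∞) : Nontrivial (Md i) := by
  have h1 : Nonempty (Jt (i + 1)) := ⟨⟨0, by
    have : (0 : ℕ∞) < i + 1 := lt_of_lt_of_le zero_lt_one le_add_self
    exact_mod_cast this⟩⟩
  have h2 : Nontrivial K := inferInstance
  exact Finsupp.instNontrivial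

theorem base_fin (i : ℕ) : ∃ b : List (Md (i : ℕ∞)), b.length = i + 1 ∧ (∀ n, Ind n b) ∧
    ∀ x, ¬ ∀ n, Ind n (b ++ [x]) := by
  refine ⟨List.ofFn fun j => Finsupp.single ((eqJ i).symm j) (1 : K), List.length_ofFn,
    ind_single _ (eqJ i).symm.injective, fun x hx => ?_⟩
  rw [ind_all_iff] at hx
  have hJ : Fintype (Jt ((i : ℕ∞) + 1)) := Fintype.ofEquiv _ (eqJ i).symm
  have h1 := hx.fintype_card_le_finrank
  rw [Module.finrank_finsupp_self, Fintype.card_fin, List.length_append, List.length_ofFn,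
    Fintype.card_congr (eqJ i), Fintype.card_fin, List.length_singleton] at h1
  omega

theorem base_top (k : ℕ) : ∃ b : List (Md (⊤ : ℕ∞)), b.length = k ∧ ∀ n, Ind n b := by
  have h : ∀ j : ℕ, (j : ℕ∞) < (⊤ : ℕ∞) + 1 := by
    intro j
    rw [top_add]
    exact ENat.natCast_lt_top j
  refine ⟨List.ofFn fun j : Fin k => Finsupp.single (⟨j.1, h j.1⟩ : Jt ((⊤ : ℕ∞) + 1)) (1 : K),
    List.length_ofFn, ind_single _ ?_⟩
  intro x y hxy
  exact Fin.ext (congrArg Subtype.val hxy)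

theorem kill_fin_A {P : Par} (hP : P.Ok) (i : ℕ)
    (hl : ∀ (e : ℕ) (b : List ℕ), b.length = i + 1 → ∃ l, P.knd l = true ∧ P.cod l = e ∧
      P.bas l = b ∧ ∃ i0, ∀ m, i0 ≤ m → (P.tgf l m).1 ≠ 0) :
    ¬ (letI := strM ar (Rf P) (Md (i : ℕ∞)); HasCompCopy ar (Md (i : ℕ∞))) := by
  intro h
  obtain ⟨e, ⟨T⟩⟩ := thr_of_comp P (Md (i : ℕ∞)) h
  obtain ⟨b, hb1, hb2, hb3⟩ := base_fin i
  obtain ⟨l, hk, hc, hbas, hon⟩ := hl e (b.map T.f) (by rw [List.length_map, hb1])
  subst hc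
  have hnt := ntr (i : ℕ∞)
  have hm : (P.bas l).map T.f.symm = b := by
    rw [hbas, List.map_map]
    have : (T.f.symm : ℕ → Md (i : ℕ∞)) ∘ T.f = id := by
      funext x
      exact T.f.symm_apply_apply x
    rw [this, List.map_id]
  exact kill_A hP hk T (by rw [hm]; exact hb2) (by rw [hm]; exact hb3) hon

private theorem ev_false_of (hw : Apx w) {k : ℕ} (h : ¬ InfW w k) :
    ∃ i0, ∀ i, i0 ≤ i → Lim w k i false := by
  unfold InfW at h
  push Not at h
  obtain ⟨i0, hi0⟩ := h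
  refine ⟨i0, fun i hi => ?_⟩
  obtain ⟨T, hT⟩ := hw.lim k i
  refine ⟨T, fun t ht => ?_⟩
  rw [hT t ht]
  by_contra hne
  rw [Bool.not_eq_false] at hne
  exact hi0 i hi ⟨T, fun t ht => (hT t ht).trans hne⟩

private theorem ev_false_all (hw : Apx w) (f : ℕ → ℕ) (h : ∀ e, ¬ InfW w (f e)) (l : ℕ) :
    ∃ i0, ∀ i, i0 ≤ i → ∀ e, e ≤ l → Lim w (f e) i false := by
  induction l with
  | zero =>
    obtain ⟨i0, hi0⟩ := ev_false_of hw (h 0)
    refine ⟨i0, fun i hi e he => ?_⟩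
    rw [Nat.le_zero.1 he]
    exact hi0 i hi
  | succ l ih =>
    obtain ⟨i0, hi0⟩ := ih
    obtain ⟨i1, hi1⟩ := ev_false_of hw (h (l + 1))
    refine ⟨max i0 i1, fun i hi e he => ?_⟩
    rcases Nat.le_succ_iff.1 he with h1 | h1
    · exact hi0 i (le_trans (le_max_left _ _) hi) e h1
    · rw [h1]
      exact hi1 i (le_trans (le_max_right _ _) hi)

private theorem lst_encode (b : List ℕ) : lst (Encodable.encode b) = b :=
  Denumerable.ofNat_encode b

theorem P1_kill (hw : Apx w) (i : ℕ) (h : ∀ e, ¬ InfW w (Nat.pair (i + 1) e)) :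
    ¬ (letI := strM ar (Rf (P1 w)) (Md (i : ℕ∞)); HasCompCopy ar (Md (i : ℕ∞))) := by
  refine kill_fin_A (P1_ok hw) i fun e b hb => ?_
  have hl1 : (Nat.pair e (Encodable.encode b)).unpair.1 = e := by rw [Nat.unpair_pair]
  have hl2 : lst (Nat.pair e (Encodable.encode b)).unpair.2 = b := by
    rw [Nat.unpair_pair]
    exact lst_encode b
  refine ⟨Nat.pair e (Encodable.encode b), rfl, hl1, hl2, ?_⟩
  obtain ⟨i0, hi0⟩ := ev_false_all hw (fun e => Nat.pair (i + 1) e) h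
    (Nat.pair e (Encodable.encode b))
  refine ⟨max i0 (i + 1), fun m hm => ?_⟩
  rw [P1_tgf hw (by rw [hl2, hb]; omega)
    (by rw [hl2, hb]; exact le_trans (le_max_right _ _) hm)
    (fun e' he' => by
      rw [hl2, hb]
      exact hi0 m (le_trans (le_max_left _ _) hm) e' he')]
  exact Nat.succ_ne_zero _

theorem P2_kill (hw : Apx w) (i : ℕ) (h : ¬ InfW w (i + 1)) :
    ¬ (letI := strM ar (Rf (P2 w)) (Md (i : ℕ∞)); HasCompCopy ar (Md (i : ℕ∞))) := by
  refine kill_fin_A (P2_ok hw) i fun e b hb => ?_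
  have hm0 : (2 * Nat.pair e (Encodable.encode b)) % 2 = 0 := Nat.mul_mod_right 2 _
  have hd0 : (2 * Nat.pair e (Encodable.encode b)) / 2 = Nat.pair e (Encodable.encode b) :=
    Nat.mul_div_cancel_left _ two_pos
  have hl2 : lst ((2 * Nat.pair e (Encodable.encode b)) / 2).unpair.2 = b := by
    rw [hd0, Nat.unpair_pair]
    exact lst_encode b
  refine ⟨2 * Nat.pair e (Encodable.encode b), ?_, ?_, ?_, ?_⟩
  · change decide _ = true
    rw [hm0]
    rfl
  · change (if _ then _ else _) = e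
    rw [if_pos hm0, hd0, Nat.unpair_pair]
  · change (if _ then _ else _) = b
    rw [if_pos hm0, hl2]
  · obtain ⟨i0, hi0⟩ := ev_false_of hw h
    refine ⟨max i0 (i + 1), fun m hm => ?_⟩
    rw [P2_tgf_A hw hm0 (by rw [hl2, hb]; omega)
      (by rw [hl2, hb]; exact le_trans (le_max_right _ _) hm)
      (by
        rw [hl2, hb]
        exact hi0 m (le_trans (le_max_left _ _) hm))]
    exact Nat.succ_ne_zero _

private theorem pigeonId {p : ℕ → ℕ → Prop} (k : ℕ)
    (h : ∀ i0, ∃ i, i0 ≤ i ∧ ∃ k', k' ≤ k ∧ p k' i) :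
    ∃ k', k' ≤ k ∧ ∀ i0, ∃ i, i0 ≤ i ∧ p k' i := by
  by_contra hcon
  push Not at hcon
  choose! f hf using hcon
  obtain ⟨i, hi, k', hk', hp⟩ := h ((Finset.range (k + 1)).sup f)
  refine hf k' hk' i (le_trans ?_ hi) hp
  exact Finset.le_sup (f := f) (Finset.mem_range.2 (Nat.lt_succ_of_le hk'))

theorem P2_kill_omega (hw : Apx w) (hD : ∀ k, ∃ k', k ≤ k' ∧ InfW w k') :
    ¬ (letI := strM ar (Rf (P2 w)) (Md (⊤ : ℕ∞)); HasCompCopy ar (Md (⊤ : ℕ∞))) := by
  intro h
  obtain ⟨e, ⟨T⟩⟩ := thr_of_comp (P2 w) (Md (⊤ : ℕ∞)) h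
  have hnt := ntr (⊤ : ℕ∞)
  have hm1 : (2 * e + 1) % 2 = 1 := by omega
  have hne : ¬ (2 * e + 1) % 2 = 0 := by omega
  have hkn : (P2 w).knd (2 * e + 1) = false := by
    change decide _ = false
    rw [decide_eq_false_iff_not]
    exact hne
  have hcod : (P2 w).cod (2 * e + 1) = e := by
    change (if _ then _ else _) = e
    rw [if_neg hne]
    omega
  obtain ⟨k, hk, hInf⟩ := hD (max (2 * e + 1) 1)
  obtain ⟨k', hk', hp⟩ := pigeonId
    (p := fun k' i => k < i ∧ (P2 w).tgf (2 * e + 1) i = (i, 0, i - (k' + 1))) k (by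
      intro i0
      obtain ⟨i, hi, hL⟩ := hInf (max i0 (k + 1))
      have hki : k < i := lt_of_lt_of_le (Nat.lt_succ_self k) (le_trans (le_max_right _ _) hi)
      obtain ⟨k', h1, h2⟩ := P2_tgf_B hw hm1 hk hki hL
      exact ⟨i, le_trans (le_max_left _ _) hi, k', h1, hki, h2⟩)
  obtain ⟨v, hv1, hv2⟩ := base_top (k' + 1)
  have T' : Thr (P2 w) (Md (⊤ : ℕ∞)) ((P2 w).cod (2 * e + 1)) := by
    rw [hcod]
    exact T
  refine kill_B (P2_ok hw) hkn T' v hv2 fun i0 => ?_
  obtain ⟨i, hi, hki, htg⟩ := hp i0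
  refine ⟨i, hi, by omega, by rw [hv1]; omega, ?_⟩
  rw [hv1]
  exact htg

end Pool.Agent.Work.MP_ed0a9a_lc.H
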