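import Pool.Agent.Work.MP_ed0a9a_lc.H.Cmp1

/-!
# Module `Cmp2`: computability of the decisions of a transition
-/

namespace Pool.Agent.Work.MP_ed0a9a_lc.H.HR

open Computable

variable {α : Type} [Primcodable α]

theorem comp_dtrue {p : α → Bool} (hp : Computable p) :
    Computable (fun a => decide (p a = true)) := by
  refine hp.of_eq fun a => ?_
  cases p a <;> rfl

theorem comp_dnone {β : Type} [Primcodable β] {o : α → Option β} (ho : Computable o)
    [∀ a, Decidable (o a = none)] :
    Computable (fun a => decide (o a = none)) := by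
  refine (comp_ocase ho (const true) (const false).to₂).of_eq fun a => ?_
  rw [Bool.eq_iff_iff, decide_eq_true_eq]
  cases o a <;> simp

theorem comp_pred {n : α → ℕ} (hn : Computable n) : Computable (fun a => n a - 1) :=
  comp_sub hn (const 1)

theorem comp_succ {n : α → ℕ} (hn : Computable n) : Computable (fun a => n a + 1) :=
  Computable.succ.comp hn

theorem comp_pair' {n m : α → ℕ} (hn : Computable n) (hm : Computable m) :
    Computable (fun a => Nat.pair (n a) (m a)) := Primrec₂.natPair.to_comp.comp hn hm

/-! ## The parameters -/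

theorem comp_knd {P : Par} (hP : P.Ok) {l : α → ℕ} (hl : Computable l) :
    Computable (fun a => P.knd (l a)) := hP.knd.comp hl

theorem comp_cod {P : Par} (hP : P.Ok) {l : α → ℕ} (hl : Computable l) :
    Computable (fun a => P.cod (l a)) := hP.cod.comp hl

theorem comp_bas {P : Par} (hP : P.Ok) {l : α → ℕ} (hl : Computable l) :
    Computable (fun a => P.bas (l a)) := hP.bas.comp hl

theorem comp_ex {P : Par} (hP : P.Ok) {l : α → ℕ} (hl : Computable l) :
    Computable (fun a => P.ex (l a)) := hP.ex.comp hl

theorem comp_tg {P : Par} (hP : P.Ok) {l i t : α → ℕ} (hl : Computable l)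
    (hi : Computable i) (ht : Computable t) :
    Computable (fun a => P.tg (l a) (i a) (t a)) := hP.tg.comp (pair hl (pair hi ht))

theorem comp_rho {P : Par} (hP : P.Ok) {l i t : α → ℕ} (hl : Computable l)
    (hi : Computable i) (ht : Computable t) :
    Computable (fun a => P.rho (l a) (i a) (t a)) := hP.rho.comp (pair hl (pair hi ht))

/-! ## Symbols and questions -/

theorem comp_sy {σ κ p : α → ℕ} (hσ : Computable σ) (hκ : Computable κ) (hp : Computable p) :
    Computable (fun a => sy (σ a) (κ a) (p a)) :=
  comp_succ (comp_pair' hσ (comp_pair' hκ hp))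

theorem comp_syS {i : α → ℕ} (hi : Computable i) : Computable (fun a => syS (i a)) :=
  fst.comp (Computable.unpair.comp (comp_pred hi))

theorem comp_syK {i : α → ℕ} (hi : Computable i) : Computable (fun a => syK (i a)) :=
  fst.comp (Computable.unpair.comp (snd.comp (Computable.unpair.comp (comp_pred hi))))

theorem comp_syP {i : α → ℕ} (hi : Computable i) : Computable (fun a => syP (i a)) :=
  snd.comp (Computable.unpair.comp (snd.comp (Computable.unpair.comp (comp_pred hi))))

theorem comp_ar {i : α → ℕ} (hi : Computable i) : Computable (fun a => ar (i a)) := by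
  unfold ar
  refine comp_ite (comp_deq hi (const 0)) (const 3) ?_
  refine comp_add (comp_add (comp_mul (const 2) (comp_syS hi)) (const 8)) ?_
  exact comp_ite (comp_deq (comp_syK hi) (const 0)) (comp_syP hi) (const 0)

theorem computable_ar : Computable ar := comp_ar Computable.id

theorem comp_evq {e t i : α → ℕ} {v : α → List ℕ} (he : Computable e) (ht : Computable t)
    (hi : Computable i) (hv : Computable v) :
    Computable (fun a => evq (e a) (t a) (i a) (v a)) := by
  unfold evq
  exact Nat.Partrec.Code.primrec_evaln.to_comp.comp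
    (pair (pair ht ((Computable.ofNat Nat.Partrec.Code).comp he))
      (comp_pair' hi (Computable.encode.comp hv)))

theorem comp_wok {P : Par} (hP : P.Ok) {σ l i y t : α → ℕ} {u : α → List ℕ}
    (hσ : Computable σ) (hl : Computable l) (hi : Computable i) (hy : Computable y)
    (ht : Computable t) (hu : Computable u) :
    Computable (fun a => wok P (σ a) (l a) (i a) (y a) (t a) (u a)) := by
  unfold wok
  have hb := comp_bas hP hl
  have hc := comp_cod hP hl
  refine comp_cond (comp_knd hP hl) ?_ ?_
  · exact comp_and (comp_deq (comp_take (comp_length hb) hu) hb)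
      (comp_deq (comp_getD 0 hu (comp_length hb)) hy)
  · refine comp_and ?_ ?_
    · refine comp_deq (comp_evq hc ht (comp_sy hσ (const 0) ?_) hu) (const (some 1))
      exact comp_sub (comp_add (comp_mul (const 2) hσ) (const 6)) hi
    · refine comp_all (comp_range hi) ?_
      have hj : Computable (fun x : α × ℕ => x.2) := snd
      have hs : Computable (fun x : α × ℕ => sy (σ x.1) 0 0) :=
        comp_sy (hσ.comp fst) (const 0) (const 0)
      have hu1 : Computable (fun x : α × ℕ => u x.1) := hu.comp fst
      have h7 : Computable (fun x : α × ℕ => 2 * σ x.1 + 7) :=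
        comp_add (comp_mul (const 2) (hσ.comp fst)) (const 7)
      refine comp_or (comp_mem hj (comp_take (hi.comp fst) hu1)) (comp_and ?_ ?_)
      · exact comp_deq (comp_evq (hc.comp fst) (ht.comp fst) hs
          (comp_cons hj (comp_take h7 hu1))) (const (some 0))
      · exact comp_deq (comp_evq (hc.comp fst) (ht.comp fst) hs
          (comp_cons hj (comp_append (comp_take (hi.comp fst) hu1) (comp_drop h7 hu1))))
            (const (some 0))

theorem comp_ulen {P : Par} (hP : P.Ok) {σ l i : α → ℕ} (hσ : Computable σ)
    (hl : Computable l) (hi : Computable i) :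
    Computable (fun a => ulen P (σ a) (l a) (i a)) := by
  unfold ulen
  refine comp_cond (comp_knd hP hl) ?_ ?_
  · exact comp_add (comp_mul (const 2) hσ) (const 7)
  · exact comp_sub (comp_add (comp_mul (const 4) hσ) (const 14)) hi

theorem comp_cx {P : Par} (hP : P.Ok) {σ l t : α → ℕ} {u : α → List ℕ} (hσ : Computable σ)
    (hl : Computable l) (ht : Computable t) (hu : Computable u) :
    Computable (fun a => cx P (σ a) (l a) (t a) (u a)) := by
  unfold cx
  refine comp_length (comp_filter (comp_range ht) ?_)
  have hc : Computable (fun x : α × ℕ => P.cod (l x.1)) := (comp_cod hP hl).comp fst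
  have ht1 : Computable (fun x : α × ℕ => t x.1) := ht.comp fst
  have h7 : Computable (fun x : α × ℕ => 2 * σ x.1 + 7) :=
    comp_add (comp_mul (const 2) (hσ.comp fst)) (const 7)
  have hv : Computable (fun x : α × ℕ => (u x.1).take (2 * σ x.1 + 7) ++ [x.2]) :=
    comp_append (comp_take h7 (hu.comp fst)) (comp_sing snd)
  refine comp_and ?_ ?_
  · exact comp_deq (comp_evq hc ht1 (comp_sy (hσ.comp fst) (const 0) (const 0)) hv)
      (const (some 1))
  · exact comp_deq (comp_evq hc ht1 (comp_sy (hσ.comp fst) (const 2) (hl.comp fst)) hv)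
      (const (some 0))

theorem comp_nwy {P : Par} (hP : P.Ok) {σ l i y t : α → ℕ}
    (hσ : Computable σ) (hl : Computable l) (hi : Computable i) (hy : Computable y)
    (ht : Computable t) :
    Computable (fun a => nwy P (σ a) (l a) (i a) (y a) (t a)) := by
  unfold nwy
  refine comp_foldr_max (comp_map (comp_cl ht (comp_ulen hP hσ hl hi)) ?_)
  refine comp_cond ?_ ?_ (const 0)
  · exact comp_wok hP (hσ.comp fst) (hl.comp fst) (hi.comp fst) (hy.comp fst) (ht.comp fst) snd
  · exact comp_cx hP (hσ.comp fst) (hl.comp fst) (ht.comp fst) snd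

/-! ## States -/

theorem comp_top {S : α → St} (hS : Computable S) : Computable (fun a => top (S a)) :=
  comp_pred (comp_length (fst.comp hS))

theorem comp_kapA {S : α → St} {i : α → ℕ} (hS : Computable S) (hi : Computable i) :
    Computable (fun a => kapA (S a) (i a)) := comp_getD 0 (fst.comp hS) hi

theorem comp_stgA {S : α → St} {i : α → ℕ} (hS : Computable S) (hi : Computable i) :
    Computable (fun a => stgA (S a) (i a)) := comp_getD 0 (fst.comp (snd.comp hS)) hi

theorem comp_actA {S : α → St} {i : α → ℕ} (hS : Computable S) (hi : Computable i) :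
    Computable (fun a => actA (S a) (i a)) :=
  comp_getD [] (fst.comp (snd.comp (snd.comp hS))) hi

theorem comp_memA {S : α → St} {i l : α → ℕ} (hS : Computable S) (hi : Computable i)
    (hl : Computable l) : Computable (fun a => memA (S a) (i a) (l a)) :=
  comp_lookup hl (comp_actA hS hi)

theorem comp_bldA {S : α → St} {β : α → ℕ} (hS : Computable S) (hβ : Computable β) :
    Computable (fun a => bldA (S a) (β a)) :=
  comp_getD (false, 0, []) (snd.comp (snd.comp (snd.comp hS))) hβ

theorem comp_nbld {S : α → St} (hS : Computable S) : Computable (fun a => nbld (S a)) :=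
  comp_length (snd.comp (snd.comp (snd.comp hS)))

/-! ## The decisions -/

theorem comp_ysl {S : α → St} {l i t : α → ℕ} (hS : Computable S) (hl : Computable l)
    (hi : Computable i) (ht : Computable t) :
    Computable (fun a => ysl (S a) (l a) (i a) (t a)) := by
  refine (comp_ocase (comp_memA hS (comp_pred hi) hl) (comp_range ht)
    (g := fun _ y => [y]) (comp_sing snd)).of_eq fun a => ?_
  unfold ysl
  cases memA (S a) (i a - 1) (l a) <;> rfl

theorem comp_rdy {P : Par} (hP : P.Ok) {S : α → St} {l i y t : α → ℕ} (ht : Computable t)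
    (hS : Computable S) (hl : Computable l) (hi : Computable i) (hy : Computable y) :
    Computable (fun a => rdy P (t a) (S a) (l a) (i a) (y a)) := by
  unfold rdy
  have hk := comp_kapA hS hi
  have hs := comp_stgA hS hi
  have hn := comp_nwy hP hs hl hi hy ht
  refine comp_and (comp_dne (fst.comp (comp_tg hP hl hi ht)) (const 0)) (comp_and ?_
    (comp_and ?_ ?_))
  · refine comp_all (comp_range hi) ?_
    refine comp_or (comp_dlt snd (hl.comp fst)) (comp_or ?_ ?_)
    · exact comp_deq (fst.comp (comp_tg hP (hl.comp fst) snd (ht.comp fst))) (const 0)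
    · refine comp_oany (comp_memA (hS.comp fst) snd (hl.comp fst)) ?_
      have ha : Computable (fun x : (α × ℕ) × ℕ => x.1.1) := fst.comp fst
      refine comp_dle (hi.comp ha) ?_
      exact comp_nwy hP (comp_stgA (hS.comp ha) (snd.comp fst)) (hl.comp ha) (snd.comp fst) snd
        (ht.comp ha)
  · exact comp_dlt (comp_mul (comp_q hk) (comp_succ hi)) hn
  · refine comp_all (comp_range (comp_nbld hS)) ?_
    have hb : Computable (fun x : α × ℕ => bldA (S x.1) x.2) := comp_bldA (hS.comp fst) snd
    refine comp_or (comp_not (fst.comp hb)) (comp_or ?_ ?_)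
    · exact comp_nmem (hl.comp fst) (comp_ex hP snd)
    · refine comp_dlt (comp_mul (comp_q (hk.comp fst)) ?_) (hn.comp fst)
      exact comp_add (comp_succ (hi.comp fst)) (comp_length (snd.comp (snd.comp hb)))

theorem comp_nly {P : Par} (hP : P.Ok) {S : α → St} {i t : α → ℕ} (ht : Computable t)
    (hS : Computable S) (hi : Computable i) :
    Computable (fun a => nly P (t a) (S a) (i a)) := by
  unfold nly
  refine comp_filterMap (comp_range (comp_succ hi)) ?_
  refine comp_ite (comp_dnone (comp_memA (hS.comp fst) (hi.comp fst) snd)) ?_ (const none)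
  refine Computable.option_map (comp_find (comp_ysl (hS.comp fst) snd (hi.comp fst)
    (ht.comp fst)) ?_) ?_
  · have ha : Computable (fun x : (α × ℕ) × ℕ => x.1.1) := fst.comp fst
    exact comp_rdy hP (ht.comp ha) (hS.comp ha) (snd.comp fst) (hi.comp ha) snd
  · exact pair (snd.comp fst) snd

theorem comp_cfg {P : Par} (hP : P.Ok) {S : α → St} {i t : α → ℕ} (ht : Computable t)
    (hS : Computable S) (hi : Computable i) :
    Computable (fun a => cfg P (t a) (S a) (i a)) := by
  unfold cfg
  refine comp_any (comp_range (comp_succ hi)) ?_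
  have hs : Computable (fun x : α × ℕ => stgA (S x.1) (i x.1)) := (comp_stgA hS hi).comp fst
  refine comp_or ?_ ?_
  · exact comp_dne (comp_tg hP snd (hi.comp fst) (ht.comp fst)) (comp_tg hP snd (hi.comp fst) hs)
  · exact comp_dne (comp_rho hP snd (hi.comp fst) (ht.comp fst))
      (comp_rho hP snd (hi.comp fst) hs)

theorem comp_att {P : Par} (hP : P.Ok) {S : α → St} {i t : α → ℕ} (ht : Computable t)
    (hS : Computable S) (hi : Computable i) :
    Computable (fun a => att P (t a) (S a) (i a)) := by
  unfold att
  exact comp_or (comp_cfg hP ht hS hi) (comp_not (comp_isEmpty (comp_nly hP ht hS hi)))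

theorem comp_lev {P : Par} (hP : P.Ok) {S : α → St} {t : α → ℕ} (ht : Computable t)
    (hS : Computable S) : Computable (fun a => lev P (t a) (S a)) := by
  unfold lev
  refine Computable.option_getD (comp_find (comp_range (comp_top hS)) ?_) (comp_top hS)
  exact comp_att hP (ht.comp fst) (hS.comp fst) snd

theorem comp_isc {P : Par} (hP : P.Ok) {S : α → St} {t : α → ℕ} (ht : Computable t)
    (hS : Computable S) : Computable (fun a => isc P (t a) (S a)) := by
  unfold isc
  have hl := comp_lev hP ht hS
  exact comp_or (comp_deq hl (comp_top hS)) (comp_cfg hP ht hS hl)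

theorem comp_actN {P : Par} (hP : P.Ok) {S : α → St} {t : α → ℕ} (ht : Computable t)
    (hS : Computable S) : Computable (fun a => actN P (t a) (S a)) := by
  unfold actN
  have hl := comp_lev hP ht hS
  exact comp_cond (comp_isc hP ht hS) (const []) (comp_append (comp_actA hS hl)
    (comp_nly hP ht hS hl))

theorem comp_hurt {P : Par} (hP : P.Ok) {β l m t : α → ℕ} (hβ : Computable β)
    (hl : Computable l) (hm : Computable m) (ht : Computable t) :
    Computable (fun a => hurt P (β a) (l a) (m a) (t a)) := by
  unfold hurt
  have hT := comp_tg hP hl hm ht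
  have hr := comp_rho hP hβ hm ht
  exact comp_and (comp_dne (fst.comp hT) (const 0))
    (comp_and (comp_dle (fst.comp (snd.comp hT)) (comp_sub (fst.comp hT) hr))
      (comp_dle (comp_sub (fst.comp hT) hr) (snd.comp (snd.comp hT))))

theorem comp_surv {P : Par} (hP : P.Ok) {S : α → St} {t β : α → ℕ} (ht : Computable t)
    (hS : Computable S) (hβ : Computable β) :
    Computable (fun a => surv P (t a) (S a) (β a)) := by
  unfold surv
  refine comp_and (fst.comp (comp_bldA hS hβ)) (comp_all (comp_actN hP ht hS) ?_)
  refine comp_or (comp_mem (fst.comp snd) (comp_ex hP (hβ.comp fst))) (comp_not ?_)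
  exact comp_hurt hP (hβ.comp fst) (fst.comp snd) ((comp_lev hP ht hS).comp fst) (ht.comp fst)

theorem comp_oldp {P : Par} (hP : P.Ok) {S : α → St} {t : α → ℕ} (ht : Computable t)
    (hS : Computable S) : Computable (fun a => oldp P (t a) (S a)) := by
  unfold oldp
  refine comp_map (comp_range (comp_nbld hS)) ?_
  exact comp_cond (comp_surv hP (ht.comp fst) (hS.comp fst) snd)
    (snd.comp (snd.comp (comp_bldA (hS.comp fst) snd))) (const [])

theorem comp_dms {P : Par} (hP : P.Ok) {S : α → St} {t : α → ℕ} (ht : Computable t)
    (hS : Computable S) : Computable (fun a => dms P (t a) (S a)) := by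
  unfold dms
  refine comp_map (comp_range (comp_nbld hS)) ?_
  exact comp_rho hP snd ((comp_lev hP ht hS).comp fst) (ht.comp fst)

end Pool.Agent.Work.MP_ed0a9a_lc.H.HR
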