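import Mathlib
import Pool.Agent.Work.MP_ed0a9a_lc.H.IDefs

/-!
# The third instance: definitions (block `H`)

It contains the two others: `w0 = false` is the case `ω ∈ X`; `w0` is an infinite `Π⁰₃` set of
dimensions which are to be made computable in the case `ω ∉ X`.
-/

namespace Pool.Agent.Work.MP_ed0a9a_lc.H

/-- Condition for a guard of kind A (number `l`, dimension `k`) to be on at level `i`. -/
def cA (w w0 : ℕ → ℕ → ℕ → Bool) (l k i t : ℕ) : Bool :=
  decide (1 ≤ k) && (decide (k ≤ i) && (!w0 k i t &&
    (List.range (l + 1)).all fun e => !w (Nat.pair k e) i t))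

/-- Condition for the dimension `k` at level `i` of a builder with parameters `(k, e)`. -/
def cB (w : ℕ → ℕ → ℕ → Bool) (k e i t : ℕ) : Bool :=
  decide (k ≤ i) && w (Nat.pair k e) i t

/-- The least `k' < n`, `a ≤ k'`, with `w0 k' i t`. -/
def fnd (w0 : ℕ → ℕ → ℕ → Bool) (n a i t : ℕ) : Option ℕ :=
  (List.range n).find? fun k => decide (a ≤ k) && w0 k i t

/-- Third instance.  Guard `l` even: kind A, code and base from `l / 2`, dimension `k` = length of the
base, on at level `i` iff `1 ≤ k ≤ i`, `w0 k i t` is false and `w (k, e) i t` is false for all `e ≤ l`.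
Guard `l` odd: kind B, code `l / 2`, target rank `≥ k' + 1` where `k' < i` is the least
`k' ≥ max l 1` with `w0 k' i t`.  Builder `β`, `g = β.unpair.2`: if `g = 0` the dimension is `i + 1`; if
`g = (k', (e, list)) + 1` and `k = k' + 1` then the dimension at level `i` is `k` if `k ≤ i` and
`w (k, e) i t`; otherwise it is the least `k'' ∈ [k, i]` with `w0 k'' i t`, otherwise `i + 1`. -/
def P3 (w w0 : ℕ → ℕ → ℕ → Bool) : Par where
  knd := fun l => decide (l % 2 = 0)
  cod := fun l => if l % 2 = 0 then (l / 2).unpair.1 else l / 2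
  bas := fun l => if l % 2 = 0 then lst (l / 2).unpair.2 else []
  tg := fun l i t =>
    if l % 2 = 0 then
      (if cA w w0 l (lst (l / 2).unpair.2).length i t = true
      then ((lst (l / 2).unpair.2).length + 1, 1, 1) else (0, 0, 0))
    else (((fnd w0 i (max l 1) i t).map fun k => (i, 0, i - (k + 1))).getD (0, 0, 0))
  rho := fun β i t =>
    if β.unpair.2 = 0 then i + 1
    else if cB w ((β.unpair.2 - 1).unpair.1 + 1) (β.unpair.2 - 1).unpair.2.unpair.1 i t = true
    then (β.unpair.2 - 1).unpair.1 + 1
    else (fnd w0 (i + 1) ((β.unpair.2 - 1).unpair.1 + 1) i t).getD (i + 1)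
  ex := fun β => if β.unpair.2 = 0 then [] else lst (β.unpair.2 - 1).unpair.2.unpair.2

end Pool.Agent.Work.MP_ed0a9a_lc.H
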