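import Mathlib
import Pool.Agent.Work.MP_ed0a9a_lc.H.JDefs
import Pool.Agent.Work.MP_ed0a9a_lc.H.Cmp2

/-!
# Module `Ja`: the parameters of the third instance
-/

namespace Pool.Agent.Work.MP_ed0a9a_lc.H

variable {w w0 : ℕ → ℕ → ℕ → Bool}

theorem cA_iff (l k i t : ℕ) : cA w w0 l k i t = true ↔ 1 ≤ k ∧ k ≤ i ∧ w0 k i t = false ∧
    ∀ e, e ≤ l → w (Nat.pair k e) i t = false := by
  unfold cA
  rw [Bool.and_eq_true, Bool.and_eq_true, Bool.and_eq_true, decide_eq_true_eq,
    decide_eq_true_eq, List.all_eq_true, Bool.not_eq_true']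
  refine and_congr Iff.rfl (and_congr Iff.rfl (and_congr Iff.rfl ?_))
  constructor
  · intro h e he
    have := h e (List.mem_range.2 (Nat.lt_succ_of_le he))
    simpa using this
  · intro h e he
    have := h e (Nat.le_of_lt_succ (List.mem_range.1 he))
    simpa using this

theorem cB_iff (k e i t : ℕ) : cB w k e i t = true ↔ k ≤ i ∧ w (Nat.pair k e) i t = true := by
  unfold cB
  rw [Bool.and_eq_true, decide_eq_true_eq]

theorem fnd_some {n a i t k : ℕ} (h : fnd w0 n a i t = some k) :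
    a ≤ k ∧ w0 k i t = true ∧ k < n ∧ ∀ k', k' < k → a ≤ k' → w0 k' i t = false := by
  unfold fnd at h
  rw [List.find?_range_eq_some] at h
  obtain ⟨h1, h2, h3⟩ := h
  rw [Bool.and_eq_true, decide_eq_true_eq] at h1
  refine ⟨h1.1, h1.2, List.mem_range.1 h2, fun k' hk' ha => ?_⟩
  have h4 := h3 k' hk'
  simp only [ha, decide_true, Bool.true_and] at h4
  simpa using h4

theorem fnd_ex {n a i t k : ℕ} (h1 : a ≤ k) (h2 : k < n) (h3 : w0 k i t = true) :
    ∃ k', k' ≤ k ∧ fnd w0 n a i t = some k' := by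
  cases h : fnd w0 n a i t with
  | none =>
    unfold fnd at h
    rw [List.find?_eq_none] at h
    exact absurd (by simp [h1, h3]) (h k (List.mem_range.2 h2))
  | some k' =>
    refine ⟨k', ?_, rfl⟩
    by_contra hlt
    have h4 := (fnd_some h).2.2.2 k (not_le.1 hlt) h1
    rw [h3] at h4
    exact Bool.noConfusion h4

theorem fnd_congr {n a i t t' : ℕ} (h : ∀ k, k < n → w0 k i t = w0 k i t') :
    fnd w0 n a i t = fnd w0 n a i t' := by
  unfold fnd
  have h1 : ∀ l : List ℕ, (∀ x ∈ l, x < n) →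
      l.find? (fun k => decide (a ≤ k) && w0 k i t) =
      l.find? (fun k => decide (a ≤ k) && w0 k i t') := by
    intro l
    induction l with
    | nil => intro _; rfl
    | cons x l ih =>
      intro hl
      rw [List.find?_cons, List.find?_cons, h x (hl x List.mem_cons_self),
        ih fun y hy => hl y (List.mem_cons_of_mem x hy)]
  exact h1 _ fun x hx => List.mem_range.1 hx

theorem P3_tg_even {l i t : ℕ} (h : l % 2 = 0) : (P3 w w0).tg l i t =
    if cA w w0 l (lst (l / 2).unpair.2).length i t = true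
      then ((lst (l / 2).unpair.2).length + 1, 1, 1) else (0, 0, 0) := if_pos h

theorem P3_tg_odd {l i t : ℕ} (h : l % 2 ≠ 0) : (P3 w w0).tg l i t =
    ((fnd w0 i (max l 1) i t).map fun k => (i, 0, i - (k + 1))).getD (0, 0, 0) := if_neg h

theorem P3_rho (β i t : ℕ) : (P3 w w0).rho β i t = if β.unpair.2 = 0 then i + 1
    else if cB w ((β.unpair.2 - 1).unpair.1 + 1) (β.unpair.2 - 1).unpair.2.unpair.1 i t = true
    then (β.unpair.2 - 1).unpair.1 + 1
    else (fnd w0 (i + 1) ((β.unpair.2 - 1).unpair.1 + 1) i t).getD (i + 1) := rfl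

/-- a common bound for finitely many approximations -/
theorem apx_common (hw : Apx w) (f : ℕ → ℕ) (i n : ℕ) :
    ∃ T, ∀ k, k ≤ n → ∀ t, T ≤ t → w (f k) i t = w (f k) i T := by
  induction n with
  | zero =>
    obtain ⟨T, hT⟩ := hw.lim (f 0) i
    refine ⟨T, fun k hk t ht => ?_⟩
    rw [Nat.le_zero.1 hk]
    exact hT t ht
  | succ n ih =>
    obtain ⟨T1, h1⟩ := ih
    obtain ⟨T2, h2⟩ := hw.lim (f (n + 1)) i
    refine ⟨max T1 T2, fun k hk t ht => ?_⟩
    rcases Nat.le_succ_iff.1 hk with h | h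
    · rw [h1 k h t ((le_max_left _ _).trans ht), h1 k h _ (le_max_left _ _)]
    · rw [h, h2 t ((le_max_right _ _).trans ht), h2 _ (le_max_right _ _)]

theorem P3_tgl (hw : Apx w) (hw0 : Apx w0) (l i : ℕ) :
    ∃ T, ∀ t, T ≤ t → (P3 w w0).tg l i t = (P3 w w0).tg l i T := by
  obtain ⟨T1, h1⟩ := apx_common hw (fun e => Nat.pair (lst (l / 2).unpair.2).length e) i l
  obtain ⟨T2, h2⟩ := apx_common hw0 (fun k => k) i ((lst (l / 2).unpair.2).length + i)
  refine ⟨max T1 T2, fun t ht => ?_⟩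
  have e1 : ∀ e, e ≤ l → w (Nat.pair (lst (l / 2).unpair.2).length e) i t =
      w (Nat.pair (lst (l / 2).unpair.2).length e) i (max T1 T2) := fun e he =>
    (h1 e he t ((le_max_left _ _).trans ht)).trans (h1 e he _ (le_max_left _ _)).symm
  have e2 : ∀ k, k ≤ (lst (l / 2).unpair.2).length + i → w0 k i t = w0 k i (max T1 T2) :=
    fun k hk => (h2 k hk t ((le_max_right _ _).trans ht)).trans
      (h2 k hk _ (le_max_right _ _)).symm
  by_cases h : l % 2 = 0
  · rw [P3_tg_even h, P3_tg_even h]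
    have e3 : cA w w0 l (lst (l / 2).unpair.2).length i t =
        cA w w0 l (lst (l / 2).unpair.2).length i (max T1 T2) := by
      rw [Bool.eq_iff_iff, cA_iff, cA_iff, e2 _ (Nat.le_add_right _ _)]
      refine and_congr Iff.rfl (and_congr Iff.rfl (and_congr Iff.rfl ?_))
      exact forall_congr' fun e => forall_congr' fun he => by rw [e1 e he]
    rw [e3]
  · rw [P3_tg_odd h, P3_tg_odd h, fnd_congr fun k hk => e2 k (by omega)]

theorem P3_rhl (hw : Apx w) (hw0 : Apx w0) (β i : ℕ) :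
    ∃ T, ∀ t, T ≤ t → (P3 w w0).rho β i t = (P3 w w0).rho β i T := by
  obtain ⟨T1, h1⟩ := hw.lim (Nat.pair ((β.unpair.2 - 1).unpair.1 + 1)
    (β.unpair.2 - 1).unpair.2.unpair.1) i
  obtain ⟨T2, h2⟩ := apx_common hw0 (fun k => k) i (i + 1)
  refine ⟨max T1 T2, fun t ht => ?_⟩
  have e2 : ∀ k, k < i + 1 → w0 k i t = w0 k i (max T1 T2) :=
    fun k hk => (h2 k (by omega) t ((le_max_right _ _).trans ht)).trans
      (h2 k (by omega) _ (le_max_right _ _)).symm
  rw [P3_rho, P3_rho, fnd_congr e2]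
  unfold cB
  rw [h1 t ((le_max_left _ _).trans ht), h1 (max T1 T2) (le_max_left _ _)]

section Comp

open Computable

variable {α : Type} [Primcodable α]

theorem comp_apx (hw : Apx w) {k i t : α → ℕ} (hk : Computable k) (hi : Computable i)
    (ht : Computable t) : Computable (fun a => w (k a) (i a) (t a)) :=
  hw.comp.comp (pair hk (pair hi ht))

theorem comp_lst {n : α → ℕ} (hn : Computable n) : Computable (fun a => lst (n a)) :=
  (Computable.ofNat (List ℕ)).comp hn

theorem comp_fst {n : α → ℕ} (hn : Computable n) : Computable (fun a => (n a).unpair.1) :=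
  fst.comp (Computable.unpair.comp hn)

theorem comp_snd {n : α → ℕ} (hn : Computable n) : Computable (fun a => (n a).unpair.2) :=
  snd.comp (Computable.unpair.comp hn)

theorem comp_half {n : α → ℕ} (hn : Computable n) : Computable (fun a => n a / 2) :=
  Primrec.nat_div.to_comp.comp hn (const 2)

theorem comp_par {n : α → ℕ} (hn : Computable n) :
    Computable (fun a => decide (n a % 2 = 0)) :=
  HR.comp_deq (Primrec.nat_mod.to_comp.comp hn (const 2)) (const 0)

theorem comp_cA (hw : Apx w) (hw0 : Apx w0) {l k i t : α → ℕ} (hl : Computable l)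
    (hk : Computable k) (hi : Computable i) (ht : Computable t) :
    Computable (fun a => cA w w0 (l a) (k a) (i a) (t a)) := by
  unfold cA
  refine HR.comp_and (HR.comp_dle (const 1) hk) (HR.comp_and (HR.comp_dle hk hi)
    (HR.comp_and (HR.comp_not (comp_apx hw0 hk hi ht))
    (HR.comp_all (HR.comp_range (HR.comp_succ hl)) ?_)))
  exact HR.comp_not (comp_apx hw (HR.comp_pair' (hk.comp fst) snd) (hi.comp fst) (ht.comp fst))

theorem comp_cB (hw : Apx w) {k e i t : α → ℕ} (hk : Computable k)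
    (he : Computable e) (hi : Computable i) (ht : Computable t) :
    Computable (fun a => cB w (k a) (e a) (i a) (t a)) := by
  unfold cB
  exact HR.comp_and (HR.comp_dle hk hi) (comp_apx hw (HR.comp_pair' hk he) hi ht)

theorem comp_fnd (hw0 : Apx w0) {n b i t : α → ℕ} (hn : Computable n)
    (hb : Computable b) (hi : Computable i) (ht : Computable t) :
    Computable (fun a => fnd w0 (n a) (b a) (i a) (t a)) := by
  unfold fnd
  refine HR.comp_find (HR.comp_range hn) ?_
  exact HR.comp_and (HR.comp_dle (hb.comp fst) snd) (comp_apx hw0 snd (hi.comp fst) (ht.comp fst))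

theorem P3_comp_tg (hw : Apx w) (hw0 : Apx w0) :
    Computable (fun p : ℕ × ℕ × ℕ => (P3 w w0).tg p.1 p.2.1 p.2.2) := by
  have hl : Computable (fun p : ℕ × ℕ × ℕ => p.1) := fst
  have hi : Computable (fun p : ℕ × ℕ × ℕ => p.2.1) := fst.comp snd
  have ht : Computable (fun p : ℕ × ℕ × ℕ => p.2.2) := snd.comp snd
  have hk : Computable (fun p : ℕ × ℕ × ℕ => (lst (p.1 / 2).unpair.2).length) :=
    HR.comp_length (comp_lst (comp_snd (comp_half hl)))
  have h1 : Computable (fun p : ℕ × ℕ × ℕ =>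
      if cA w w0 p.1 (lst (p.1 / 2).unpair.2).length p.2.1 p.2.2 = true
      then ((lst (p.1 / 2).unpair.2).length + 1, 1, 1) else ((0, 0, 0) : ℕ × ℕ × ℕ)) :=
    HR.comp_cond (comp_cA hw hw0 hl hk hi ht) (pair (HR.comp_succ hk) (const (1, 1)))
      (const (0, 0, 0))
  have h2 : Computable (fun p : ℕ × ℕ × ℕ =>
      ((fnd w0 p.2.1 (max p.1 1) p.2.1 p.2.2).map fun k =>
        ((p.2.1, 0, p.2.1 - (k + 1)) : ℕ × ℕ × ℕ)).getD (0, 0, 0)) := by
    refine Computable.option_getD (Computable.option_map (comp_fnd hw0 hi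
      (Primrec.nat_max.to_comp.comp hl (const 1)) hi ht) ?_) (const (0, 0, 0))
    exact pair (hi.comp fst) (pair (const 0) (HR.comp_sub (hi.comp fst) (HR.comp_succ snd)))
  refine (HR.comp_ite (comp_par hl) h1 h2).of_eq fun p => ?_
  by_cases h : p.1 % 2 = 0
  · rw [if_pos h, P3_tg_even h]
  · rw [if_neg h, P3_tg_odd h]

theorem P3_comp_rho (hw : Apx w) (hw0 : Apx w0) :
    Computable (fun p : ℕ × ℕ × ℕ => (P3 w w0).rho p.1 p.2.1 p.2.2) := by
  have hβ : Computable (fun p : ℕ × ℕ × ℕ => p.1) := fst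
  have hi : Computable (fun p : ℕ × ℕ × ℕ => p.2.1) := fst.comp snd
  have ht : Computable (fun p : ℕ × ℕ × ℕ => p.2.2) := snd.comp snd
  have hg : Computable (fun p : ℕ × ℕ × ℕ => p.1.unpair.2) := comp_snd hβ
  have hk : Computable (fun p : ℕ × ℕ × ℕ => (p.1.unpair.2 - 1).unpair.1 + 1) :=
    HR.comp_succ (comp_fst (HR.comp_pred hg))
  have he : Computable (fun p : ℕ × ℕ × ℕ => (p.1.unpair.2 - 1).unpair.2.unpair.1) :=
    comp_fst (comp_snd (HR.comp_pred hg))
  refine (HR.comp_ite (p := fun p : ℕ × ℕ × ℕ => p.1.unpair.2 = 0) (HR.comp_deq hg (const 0))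
    (HR.comp_succ hi) (HR.comp_cond (comp_cB hw hk he hi ht) hk
    (Computable.option_getD (comp_fnd hw0 (HR.comp_succ hi) hk hi ht)
      (HR.comp_succ hi)))).of_eq fun p => ?_
  rw [P3_rho]

end Comp

theorem P3_rho_bd (β i t : ℕ) : 1 ≤ (P3 w w0).rho β i t ∧ (P3 w w0).rho β i t ≤ i + 1 := by
  rw [P3_rho]
  split_ifs with h1 h2
  · omega
  · have h3 := (cB_iff (w := w) _ _ i t).1 h2
    omega
  · cases hf : fnd w0 (i + 1) ((β.unpair.2 - 1).unpair.1 + 1) i t with
    | none => rw [Option.getD_none]; omega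
    | some k =>
      have h3 := fnd_some hf
      rw [Option.getD_some]
      omega

theorem P3_ok (hw : Apx w) (hw0 : Apx w0) : (P3 w w0).Ok := by
  refine ⟨?_, ?_, ?_, P3_comp_tg hw hw0, P3_comp_rho hw hw0, ?_, fun β i t => (P3_rho_bd β i t).1,
    fun β i t => (P3_rho_bd β i t).2, P3_tgl hw hw0, P3_rhl hw hw0, ?_, ?_⟩
  · exact comp_par Computable.id
  · exact HR.comp_ite (comp_par Computable.id) (comp_fst (comp_half Computable.id))
      (comp_half Computable.id)
  · exact HR.comp_ite (comp_par Computable.id) (comp_lst (comp_snd (comp_half Computable.id)))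
      (Computable.const [])
  · exact HR.comp_ite (HR.comp_deq (comp_snd Computable.id) (Computable.const 0))
      (Computable.const []) (comp_lst (comp_snd (comp_snd (HR.comp_pred
        (comp_snd Computable.id)))))
  · intro l i t hk h
    have hl : l % 2 = 0 := of_decide_eq_true hk
    have hb : (P3 w w0).bas l = lst (l / 2).unpair.2 := if_pos hl
    rw [P3_tg_even hl] at h ⊢
    rw [hb]
    split_ifs at h ⊢ with hc
    · exact ⟨rfl, ((cA_iff l _ i t).1 hc).2.1⟩
    · exact absurd rfl h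
  · intro l i t hk h
    have hl : l % 2 ≠ 0 := of_decide_eq_false hk
    rw [P3_tg_odd hl] at h ⊢
    cases hf : fnd w0 i (max l 1) i t with
    | none => rw [hf] at h; exact absurd rfl h
    | some k =>
      have h2 := fnd_some hf
      exact ⟨k + 1, by omega, by omega, rfl⟩

/-- Which guards may hurt a builder. -/
theorem P3_hurt {β l m t : ℕ} (hg : β.unpair.2 ≠ 0) (h : hurt (P3 w w0) β l m t = true) :
    l < (β.unpair.2 - 1).unpair.1 + 1 ∨ l < (β.unpair.2 - 1).unpair.2.unpair.1 := by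
  unfold hurt at h
  rw [Bool.and_eq_true, Bool.and_eq_true, decide_eq_true_eq, decide_eq_true_eq,
    decide_eq_true_eq] at h
  obtain ⟨h0, h1, h2⟩ := h
  have hρ := P3_rho (w := w) (w0 := w0) β m t
  rw [if_neg hg] at hρ
  by_cases hl : l % 2 = 0
  · rw [P3_tg_even hl] at h0 h1 h2
    by_cases hc : cA w w0 l (lst (l / 2).unpair.2).length m t = true
    · rw [if_pos hc] at h1 h2
      obtain ⟨c1, c2, c3, c4⟩ := (cA_iff l _ m t).1 hc
      simp only at h1 h2
      have e : (P3 w w0).rho β m t = (lst (l / 2).unpair.2).length := by omega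
      by_cases hb : cB w ((β.unpair.2 - 1).unpair.1 + 1)
          (β.unpair.2 - 1).unpair.2.unpair.1 m t = true
      · right
        rw [if_pos hb] at hρ
        by_contra hle
        have h3 := c4 _ (not_lt.1 hle)
        rw [← e, hρ, ((cB_iff _ _ m t).1 hb).2] at h3
        exact Bool.noConfusion h3
      · exfalso
        rw [if_neg hb] at hρ
        cases hf : fnd w0 (m + 1) ((β.unpair.2 - 1).unpair.1 + 1) m t with
        | none =>
          rw [hf, Option.getD_none] at hρ
          omega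
        | some a =>
          rw [hf, Option.getD_some] at hρ
          have h3 := (fnd_some hf).2.1
          rw [← hρ, e, c3] at h3
          exact Bool.noConfusion h3
    · rw [if_neg hc] at h0
      exact absurd rfl h0
  · left
    rw [P3_tg_odd hl] at h0 h1 h2
    cases hf : fnd w0 m (max l 1) m t with
    | none => rw [hf] at h0; exact absurd rfl h0
    | some k1 =>
      rw [hf] at h1 h2
      simp only [Option.map_some, Option.getD_some] at h1 h2
      obtain ⟨f1, f2, f3, -⟩ := fnd_some hf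
      have f4 : l ≤ k1 := (le_max_left l 1).trans f1
      by_contra hlt
      rw [not_lt] at hlt
      by_cases hb : cB w ((β.unpair.2 - 1).unpair.1 + 1)
          (β.unpair.2 - 1).unpair.2.unpair.1 m t = true
      · rw [if_pos hb] at hρ
        omega
      · rw [if_neg hb] at hρ
        obtain ⟨a, ha, hfa⟩ := fnd_ex (w0 := w0) (n := m + 1)
          (a := (β.unpair.2 - 1).unpair.1 + 1) (i := m) (t := t) (k := k1) (by omega) (by omega) f2
        rw [hfa, Option.getD_some] at hρ
        omega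

theorem P3_hurt_zero (h0 : ∀ k i t, w0 k i t = false) {β l m t : ℕ} (hg : β.unpair.2 = 0) :
    hurt (P3 w w0) β l m t = false := by
  by_contra hne
  rw [Bool.not_eq_false] at hne
  unfold hurt at hne
  rw [Bool.and_eq_true, Bool.and_eq_true, decide_eq_true_eq, decide_eq_true_eq,
    decide_eq_true_eq] at hne
  obtain ⟨h1, h2, h3⟩ := hne
  have hρ := P3_rho (w := w) (w0 := w0) β m t
  rw [if_pos hg] at hρ
  rw [hρ] at h2 h3
  by_cases hl : l % 2 = 0
  · rw [P3_tg_even hl] at h1 h2 h3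
    by_cases hc : cA w w0 l (lst (l / 2).unpair.2).length m t = true
    · rw [if_pos hc] at h2 h3
      obtain ⟨c1, c2, c3, c4⟩ := (cA_iff l _ m t).1 hc
      simp only at h2 h3
      omega
    · rw [if_neg hc] at h1
      exact absurd rfl h1
  · rw [P3_tg_odd hl] at h1
    cases hf : fnd w0 m (max l 1) m t with
    | none => rw [hf] at h1; exact absurd rfl h1
    | some k =>
      have h4 := (fnd_some hf).2.1
      rw [h0] at h4
      exact Bool.noConfusion h4

/-! ## Limits -/

theorem P3_tgf_of (hw : Apx w) (hw0 : Apx w0) {l i : ℕ} {v : ℕ × ℕ × ℕ}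
    (h : ∃ T, ∀ t, T ≤ t → (P3 w w0).tg l i t = v) : (P3 w w0).tgf l i = v := by
  have hs := Classical.epsilon_spec (p := fun T => ∀ t, T ≤ t →
    (P3 w w0).tg l i t = (P3 w w0).tg l i T) (P3_tgl hw hw0 l i)
  obtain ⟨T, hT⟩ := h
  have h1 := hs _ (le_max_right T (Classical.epsilon fun T => ∀ t, T ≤ t →
    (P3 w w0).tg l i t = (P3 w w0).tg l i T))
  unfold Par.tgf
  rw [← h1]
  exact hT _ (le_max_left _ _)

theorem P3_rhof_of (hw : Apx w) (hw0 : Apx w0) {β i v : ℕ}
    (h : ∃ T, ∀ t, T ≤ t → (P3 w w0).rho β i t = v) : (P3 w w0).rhof β i = v := by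
  have hs := Classical.epsilon_spec (p := fun T => ∀ t, T ≤ t →
    (P3 w w0).rho β i t = (P3 w w0).rho β i T) (P3_rhl hw hw0 β i)
  obtain ⟨T, hT⟩ := h
  have h1 := hs _ (le_max_right T (Classical.epsilon fun T => ∀ t, T ≤ t →
    (P3 w w0).rho β i t = (P3 w w0).rho β i T))
  unfold Par.rhof
  rw [← h1]
  exact hT _ (le_max_left _ _)

theorem P3_tgf_A (hw : Apx w) (hw0 : Apx w0) {l i : ℕ} (h0 : l % 2 = 0)
    (h1 : 1 ≤ (lst (l / 2).unpair.2).length) (h2 : (lst (l / 2).unpair.2).length ≤ i)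
    (h3 : Lim w0 (lst (l / 2).unpair.2).length i false)
    (h4 : ∀ e, e ≤ l → Lim w (Nat.pair (lst (l / 2).unpair.2).length e) i false) :
    (P3 w w0).tgf l i = ((lst (l / 2).unpair.2).length + 1, 1, 1) := by
  obtain ⟨T1, hT1⟩ := h3
  obtain ⟨T2, hT2⟩ := apx_common hw (fun e => Nat.pair (lst (l / 2).unpair.2).length e) i l
  refine P3_tgf_of hw hw0 ⟨max T1 T2, fun t ht => ?_⟩
  rw [P3_tg_even h0, if_pos]
  rw [cA_iff]
  refine ⟨h1, h2, hT1 t ((le_max_left _ _).trans ht), fun e he => ?_⟩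
  obtain ⟨T3, hT3⟩ := h4 e he
  rw [hT2 e he t ((le_max_right _ _).trans ht), ← hT2 e he (max T2 T3) (le_max_left _ _)]
  exact hT3 _ (le_max_right _ _)

theorem P3_tgf_B (hw : Apx w) (hw0 : Apx w0) {l i k : ℕ} (h0 : l % 2 = 1) (h1 : max l 1 ≤ k)
    (h2 : k < i) (h3 : Lim w0 k i true) :
    ∃ k', k' ≤ k ∧ (P3 w w0).tgf l i = (i, 0, i - (k' + 1)) := by
  have hl : l % 2 ≠ 0 := by omega
  obtain ⟨T, hT⟩ := h3
  obtain ⟨E, hE⟩ := P3_tgl hw hw0 l i
  obtain ⟨a, ha, hfa⟩ := fnd_ex (w0 := w0) (n := i) (a := max l 1) (i := i) (t := max T E)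
    h1 h2 (hT _ (le_max_left _ _))
  refine ⟨a, ha, P3_tgf_of hw hw0 ⟨max T E, fun t ht => ?_⟩⟩
  rw [hE t ((le_max_right _ _).trans ht), ← hE (max T E) (le_max_right _ _), P3_tg_odd hl, hfa]
  rfl

private theorem unp1 (c k e x : ℕ) :
    ((Nat.pair c (Nat.pair k (Nat.pair e x) + 1)).unpair.2 - 1).unpair.1 = k := by
  simp [Nat.unpair_pair]

private theorem unp2 (c k e x : ℕ) :
    ((Nat.pair c (Nat.pair k (Nat.pair e x) + 1)).unpair.2 - 1).unpair.2.unpair.1 = e := by
  simp [Nat.unpair_pair]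

private theorem unp0 (c k e x : ℕ) :
    (Nat.pair c (Nat.pair k (Nat.pair e x) + 1)).unpair.2 ≠ 0 := by
  simp [Nat.unpair_pair]

theorem P3_rhof (hw : Apx w) (hw0 : Apx w0) {c k e x i : ℕ} (h2 : k + 1 ≤ i)
    (h3 : Lim w (Nat.pair (k + 1) e) i true) :
    (P3 w w0).rhof (Nat.pair c (Nat.pair k (Nat.pair e x) + 1)) i = k + 1 := by
  obtain ⟨T, hT⟩ := h3
  refine P3_rhof_of hw hw0 ⟨T, fun t ht => ?_⟩
  rw [P3_rho, if_neg (unp0 c k e x), if_pos, unp1]
  rw [unp1, unp2, cB_iff]
  exact ⟨h2, hT t ht⟩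

theorem P3_rho_ge {c k e x m t : ℕ} (h : k + 1 ≤ m) :
    k + 1 ≤ (P3 w w0).rho (Nat.pair c (Nat.pair k (Nat.pair e x) + 1)) m t := by
  rw [P3_rho, if_neg (unp0 c k e x), unp1, unp2]
  split_ifs
  · exact le_rfl
  · cases hf : fnd w0 (m + 1) (k + 1) m t with
    | none => rw [Option.getD_none]; omega
    | some a => exact (fnd_some hf).1

theorem P3_ex (c k e x : ℕ) :
    (P3 w w0).ex (Nat.pair c (Nat.pair k (Nat.pair e x) + 1)) = lst x := by
  show (if (Nat.pair c (Nat.pair k (Nat.pair e x) + 1)).unpair.2 = 0 then ([] : List ℕ) else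
    lst ((Nat.pair c (Nat.pair k (Nat.pair e x) + 1)).unpair.2 - 1).unpair.2.unpair.2) = lst x
  rw [if_neg (unp0 c k e x)]
  simp [Nat.unpair_pair]

theorem P3_hurt' {c k e x l m t : ℕ}
    (h : hurt (P3 w w0) (Nat.pair c (Nat.pair k (Nat.pair e x) + 1)) l m t = true) :
    l < max (k + 1) e := by
  have h1 := P3_hurt (unp0 c k e x) h
  rw [unp1, unp2] at h1
  exact lt_max_iff.2 h1

theorem P3_rho_zero (i t : ℕ) : (P3 w w0).rho 0 i t = i + 1 ∧ (P3 w w0).ex 0 = [] := by
  have h0 : (Nat.unpair 0).2 = 0 := by simp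
  constructor
  · rw [P3_rho, if_pos h0]
  · show (if (Nat.unpair 0).2 = 0 then ([] : List ℕ) else
      lst ((Nat.unpair 0).2 - 1).unpair.2.unpair.2) = []
    rw [if_pos h0]

theorem P3_rhof_zero (i : ℕ) : (P3 w w0).rhof 0 i = i + 1 := (P3_rho_zero i _).1

end Pool.Agent.Work.MP_ed0a9a_lc.H
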