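import Mathlib
import Pool.Agent.Work.MP_ed0a9a_lc.H.Ja
import Pool.Agent.Work.MP_ed0a9a_lc.H.Ic
import Pool.Agent.Work.MP_ed0a9a_lc.H.Id

/-!
# Module `Jb`: good builders and killed models of the third instance
-/

namespace Pool.Agent.Work.MP_ed0a9a_lc.H

open FirstOrder FirstOrder.Language

variable {w w0 : ℕ → ℕ → ℕ → Bool}

private theorem lst_enc (L : List ℕ) : lst (Encodable.encode L) = L :=
  Denumerable.ofNat_encode L

theorem P3_builder (hw : Apx w) (hw0 : Apx w0) {k e : ℕ} (h : InfW w (Nat.pair (k + 1) e)) :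
    ∃ β, GB (P3 w w0) β ((k + 1 : ℕ) : ℕ∞) := by
  refine exists_GB (P3_ok hw hw0) ((k + 1 : ℕ) : ℕ∞) (max (k + 1) e)
    (fun c L => Nat.pair c (Nat.pair k (Nat.pair e (Encodable.encode L)) + 1))
    (fun c L => Nat.left_le_pair _ _) (fun c L => ?_) (fun c L l m t hh => P3_hurt' hh)
    (fun c L r hr i0 => ?_)
  · rw [P3_ex, lst_enc]
  · obtain ⟨i, hi, hlim⟩ := h (max i0 (max (Nat.pair c (Nat.pair k (Nat.pair e
      (Encodable.encode L)) + 1)) (k + 1)))
    have hki : k + 1 ≤ i := ((le_max_right _ _).trans (le_max_right _ _)).trans hi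
    have hr' : r ≤ k + 1 := Nat.cast_le.mp hr
    have e1 := P3_rhof hw hw0 (c := c) (x := Encodable.encode L) hki hlim
    refine ⟨i, (le_max_left _ _).trans hi, ((le_max_left _ _).trans (le_max_right _ _)).trans hi,
      ?_, ?_, ?_⟩
    · rw [e1]; exact hr'
    · rw [e1]
    · intro m t hm
      rw [e1]
      exact P3_rho_ge (by omega)

theorem P3_omega (h0 : ∀ k i t, w0 k i t = false) :
    ∃ β, GB (P3 w w0) β ⊤ := by
  refine ⟨0, ?_, ?_, ?_⟩
  · apply liv_of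
    intro t ht p hp
    right
    exact P3_hurt_zero h0 (by simp)
  · intro l hl
    rw [(P3_rho_zero (w := w) (w0 := w0) 0 0).2] at hl
    simp at hl
  · intro r _ i0
    refine ⟨max i0 r, le_max_left _ _, Nat.zero_le _, ?_, le_top, ?_⟩
    · rw [P3_rhof_zero]
      exact (le_max_right i0 r).trans (Nat.le_succ _)
    · intro m t hm
      rw [P3_rhof_zero, (P3_rho_zero m t).1]
      omega

private theorem ev_false3 (hw : Apx w) {k : ℕ} (h : ¬ InfW w k) :
    ∃ i0, ∀ i, i0 ≤ i → Lim w k i false := by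
  unfold InfW at h
  push Not at h
  obtain ⟨i0, hi0⟩ := h
  refine ⟨i0, fun i hi => ?_⟩
  obtain ⟨T, hT⟩ := hw.lim k i
  refine ⟨T, fun t ht => ?_⟩
  rw [hT t ht]
  by_contra hne
  rw [Bool.not_eq_false] at hne
  exact hi0 i hi ⟨T, fun t ht => (hT t ht).trans hne⟩

private theorem ev_false_le (hw : Apx w) (f : ℕ → ℕ) (h : ∀ e, ¬ InfW w (f e)) (l : ℕ) :
    ∃ i0, ∀ i, i0 ≤ i → ∀ e, e ≤ l → Lim w (f e) i false := by
  induction l with
  | zero =>
    obtain ⟨i0, hi0⟩ := ev_false3 hw (h 0)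
    refine ⟨i0, fun i hi e he => ?_⟩
    rw [Nat.le_zero.1 he]
    exact hi0 i hi
  | succ l ih =>
    obtain ⟨i0, hi0⟩ := ih
    obtain ⟨i1, hi1⟩ := ev_false3 hw (h (l + 1))
    refine ⟨max i0 i1, fun i hi e he => ?_⟩
    rcases Nat.le_succ_iff.1 he with h1 | h1
    · exact hi0 i (le_trans (le_max_left _ _) hi) e h1
    · rw [h1]
      exact hi1 i (le_trans (le_max_right _ _) hi)

theorem P3_kill (hw : Apx w) (hw0 : Apx w0) (i : ℕ)
    (h : ∀ e, ¬ InfW w (Nat.pair (i + 1) e)) (h' : ¬ InfW w0 (i + 1)) :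
    ¬ (letI := strM ar (Rf (P3 w w0)) (Md (i : ℕ∞)); HasCompCopy ar (Md (i : ℕ∞))) := by
  refine kill_fin_A (P3_ok hw hw0) i fun e b hb => ?_
  have hm0 : (2 * Nat.pair e (Encodable.encode b)) % 2 = 0 := Nat.mul_mod_right 2 _
  have hd0 : (2 * Nat.pair e (Encodable.encode b)) / 2 = Nat.pair e (Encodable.encode b) :=
    Nat.mul_div_cancel_left _ two_pos
  have hl2 : lst ((2 * Nat.pair e (Encodable.encode b)) / 2).unpair.2 = b := by
    rw [hd0, Nat.unpair_pair]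
    exact lst_enc b
  refine ⟨2 * Nat.pair e (Encodable.encode b), ?_, ?_, ?_, ?_⟩
  · change decide _ = true
    rw [hm0]
    rfl
  · change (if _ then _ else _) = e
    rw [if_pos hm0, hd0, Nat.unpair_pair]
  · change (if _ then _ else _) = b
    rw [if_pos hm0, hl2]
  · obtain ⟨i0, hi0⟩ := ev_false_le hw (fun e => Nat.pair (i + 1) e) h
      (2 * Nat.pair e (Encodable.encode b))
    obtain ⟨i1, hi1⟩ := ev_false3 hw0 h'
    refine ⟨max (max i0 i1) (i + 1), fun m hm => ?_⟩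
    rw [P3_tgf_A hw hw0 hm0 (by rw [hl2, hb]; omega)
      (by rw [hl2, hb]; exact le_trans (le_max_right _ _) hm)
      (by
        rw [hl2, hb]
        exact hi1 m (le_trans (le_trans (le_max_right _ _) (le_max_left _ _)) hm))
      (fun e' he' => by
        rw [hl2, hb]
        exact hi0 m (le_trans (le_trans (le_max_left _ _) (le_max_left _ _)) hm) e' he')]
    exact Nat.succ_ne_zero _

private theorem pigeon3 {p : ℕ → ℕ → Prop} (k : ℕ)
    (h : ∀ i0, ∃ i, i0 ≤ i ∧ ∃ k', k' ≤ k ∧ p k' i) :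
    ∃ k', k' ≤ k ∧ ∀ i0, ∃ i, i0 ≤ i ∧ p k' i := by
  by_contra hcon
  push Not at hcon
  choose! f hf using hcon
  obtain ⟨i, hi, k', hk', hp⟩ := h ((Finset.range (k + 1)).sup f)
  refine hf k' hk' i (le_trans ?_ hi) hp
  exact Finset.le_sup (f := f) (Finset.mem_range.2 (Nat.lt_succ_of_le hk'))

private theorem ntr3 (i : ℕ∞) : Nontrivial (Md i) := by
  have h1 : Nonempty (Jt (i + 1)) := ⟨⟨0, by
    have : (0 : ℕ∞) < i + 1 := lt_of_lt_of_le zero_lt_one le_add_self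
    exact_mod_cast this⟩⟩
  have h2 : Nontrivial K := inferInstance
  exact Finsupp.instNontrivial

theorem P3_kill_omega (hw : Apx w) (hw0 : Apx w0) (hD : ∀ k, ∃ k', k ≤ k' ∧ InfW w0 k') :
    ¬ (letI := strM ar (Rf (P3 w w0)) (Md (⊤ : ℕ∞)); HasCompCopy ar (Md (⊤ : ℕ∞))) := by
  intro h
  obtain ⟨e, ⟨T⟩⟩ := thr_of_comp (P3 w w0) (Md (⊤ : ℕ∞)) h
  have hnt := ntr3 (⊤ : ℕ∞)
  have hm1 : (2 * e + 1) % 2 = 1 := by omega
  have hne : ¬ (2 * e + 1) % 2 = 0 := by omega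
  have hkn : (P3 w w0).knd (2 * e + 1) = false := by
    change decide _ = false
    rw [decide_eq_false_iff_not]
    exact hne
  have hcod : (P3 w w0).cod (2 * e + 1) = e := by
    change (if _ then _ else _) = e
    rw [if_neg hne]
    omega
  obtain ⟨k, hk, hInf⟩ := hD (max (2 * e + 1) 1)
  obtain ⟨k', hk', hp⟩ := pigeon3
    (p := fun k' i => k < i ∧ (P3 w w0).tgf (2 * e + 1) i = (i, 0, i - (k' + 1))) k (by
      intro i0
      obtain ⟨i, hi, hL⟩ := hInf (max i0 (k + 1))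
      have hki : k < i := lt_of_lt_of_le (Nat.lt_succ_self k) (le_trans (le_max_right _ _) hi)
      obtain ⟨k', h1, h2⟩ := P3_tgf_B hw hw0 hm1 hk hki hL
      exact ⟨i, le_trans (le_max_left _ _) hi, k', h1, hki, h2⟩)
  obtain ⟨v, hv1, hv2⟩ := base_top (k' + 1)
  have T' : Thr (P3 w w0) (Md (⊤ : ℕ∞)) ((P3 w w0).cod (2 * e + 1)) := by
    rw [hcod]
    exact T
  refine kill_B (P3_ok hw hw0) hkn T' v hv2 fun i0 => ?_
  obtain ⟨i, hi, hki, htg⟩ := hp i0
  refine ⟨i, hi, by omega, by rw [hv1]; omega, ?_⟩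
  rw [hv1]
  exact htg

end Pool.Agent.Work.MP_ed0a9a_lc.H
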