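import Mathlib
import Pool.Agent.Work.MP_ed0a9a_lc.H.Ba

/-!
# Module `Bb`: positions

PROOFS.  `pos_core`: `pos_succ` (module `Sb`) and `GoodEv.core` (`good_evn`, `oldp_getD`, `dms_getD`,
`β < nbld (st P t) = t`).
`pos_const`: induction on `t' ≥ t`: at `t'` the event has level `m = lv P t' > i` (`tau_spec`),
`kf P (i + 1) ≤ kapA (st P t') m` (`fin_kap`, `kapA_le`, `i + 1 ≤ m ≤ top`), so the coordinates are in
`Fs (kapA (st P t') m)` (`Fs_mono`), and the support is `< P.rhof β i ≤ P.rho β m t'`; `pos_core`; the length: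
`pos_len_mono`.
`pos_tau`: let `τ = tau P i ≥ i ≥ β` (`lv P τ = i`, `lv_le`).  If `β = τ` the builder is new
(`bldA_new`), no positions.  Otherwise it survives `τ`; its positions at `τ + 1` are in `G_β`
or from `cand`; all have length `≤ P.rho β i τ = P.rhof β i` (`fin_tg`) and entries
`< q (evn ..).1 = q (kf P (i + 1))` (`kapA_succ_new`, `fin_kap`): `GoodEv.sup`, definition of `cand`; then
`sem_apply`: coordinates beyond the length are `0`, the others are entries.
`pos_inj`: induction on `t ≥ β + 1`: no positions at `β + 1`; step: the old names: `same_eq_iff` with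
`GoodEv.same` (the lists `(oldp ..).map sem`, `G_β.map sem`); the new name (if any): `cand` checks
`!veq v w` for all `w ∈ G_β` (`veq_iff`).
`pos_new`: if some `w ∈ G_β` has `veq v w` then `sem w = sem v`, it is the position of an old
name; otherwise `cand` is `[v]`, the last position (`bldN` with `thr = true`).
-/

namespace Pool.Agent.Work.MP_ed0a9a_lc.H

variable {P : Par}

private theorem bb_len (hP : P.Ok) {β t : ℕ} (hL : Liv P β) (h : β < t) :
    ((evn P t (st P t)).2.getD β []).length = (pos P t β).length :=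
  evn_len hP t (st P t) (liv_surv hL h)

private theorem bb_cand (ρ N p : ℕ) (G : List Vec) :
    cand ρ N p G = [] ∨ (cand ρ N p G = [Denumerable.ofNat Vec p.unpair.1] ∧
      (Denumerable.ofNat Vec p.unpair.1).length ≤ ρ ∧
      (∀ x ∈ Denumerable.ofNat Vec p.unpair.1, x < q N) ∧
      ∀ w ∈ G, sem (Denumerable.ofNat Vec p.unpair.1) ≠ sem w) := by
  unfold cand
  split_ifs with hc
  · right
    obtain ⟨h1, h2, h3⟩ := hc
    refine ⟨rfl, h1, ?_, ?_⟩
    · intro x hx
      rw [List.all_eq_true] at h2
      simpa using h2 x hx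
    · intro w hw he
      rw [List.all_eq_true] at h3
      have h4 := h3 w hw
      rw [Bool.not_eq_true', ← Bool.not_eq_true, veq_iff] at h4
      exact h4 he
  · left
    rfl

private theorem bb_cases (hP : P.Ok) {β t : ℕ} (hL : Liv P β) (h : β < t) :
    ∃ E : List Vec, pos P (t + 1) β = (evn P t (st P t)).2.getD β [] ++ E ∧
      (E = [] ∨ (∃ v, E = [v] ∧ v.length ≤ P.rho β (lv P t) t ∧
        (∀ x ∈ v, x < q (evn P t (st P t)).1) ∧
        ∀ w ∈ (evn P t (st P t)).2.getD β [], sem v ≠ sem w)) := by
  unfold pos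
  rw [bldA_succ P t h]
  unfold bldN
  rw [if_pos (liv_surv hL h)]
  split_ifs
  · refine ⟨_, rfl, ?_⟩
    rcases bb_cand (P.rho β (lev P t (st P t)) t) (evn P t (st P t)).1 (bldA (st P t) β).2.1
      ((evn P t (st P t)).2.getD β []) with h1 | ⟨h1, h2, h3, h4⟩
    · exact Or.inl h1
    · exact Or.inr ⟨_, h1, h2, h3, h4⟩
  · exact ⟨[], (List.append_nil _).symm, Or.inl rfl⟩

private theorem bb_dms {β t : ℕ} (h : β < t) :
    (dms P t (st P t)).getD β 0 = P.rho β (lv P t) t :=
  dms_getD P t (st P t) (by rw [nbld_st]; exact h)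

private theorem bb_old {β t : ℕ} (hL : Liv P β) (h : β < t) :
    (oldp P t (st P t)).getD β [] = pos P t β := by
  rw [oldp_getD, if_pos (liv_surv hL h)]
  rfl

private theorem bb_mem (hP : P.Ok) {β t : ℕ} (hL : Liv P β) (h : β < t) {v : Vec}
    (hv : v ∈ pos P (t + 1) β) :
    v.length ≤ P.rho β (lv P t) t ∧ ∀ x ∈ v, x < q (evn P t (st P t)).1 := by
  obtain ⟨E, hE, hc⟩ := bb_cases hP hL h
  rw [hE, List.mem_append] at hv
  rcases hv with hv | hv
  · have h1 := (good_evn hP t (st P t)).sup β v hv
    rw [bb_dms h] at h1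
    exact h1
  · rcases hc with rfl | ⟨w, rfl, h1, h2, -⟩
    · simp at hv
    · rw [List.mem_singleton] at hv
      subst hv
      exact ⟨h1, h2⟩

private theorem bb_ps (hP : P.Ok) {β t j : ℕ} (hL : Liv P β) (h : β < t)
    (hj : j < (pos P t β).length) :
    ps P (t + 1) β j = sem (((evn P t (st P t)).2.getD β []).getD j []) := by
  unfold ps
  exact congrArg sem (pos_succ hP (liv_surv hL h) hj)

private theorem bb_getD (p : List Vec) (j : ℕ) : (p.map sem).getD j 0 = sem (p.getD j []) := by
  by_cases h : j < p.length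
  · rw [List.getD_eq_getElem _ _ (by simpa using h), List.getElem_map, List.getD_eq_getElem _ _ h]
  · rw [List.getD_eq_default _ _ (by simpa using h), List.getD_eq_default _ _ (not_lt.1 h), sem_nil]

theorem pos_core (hP : P.Ok) {β t j : ℕ} (hL : Liv P β) (h : β < t)
    (hj : j < (pos P t β).length)
    (hc : ∀ s, ps P t β j s ∈ Fs (kapA (st P t) (lv P t)) ∧
      (P.rho β (lv P t) t ≤ s → ps P t β j s = 0)) :
    ps P (t + 1) β j = ps P t β j := by
  rw [bb_ps hP hL h hj]
  have h1 := (good_evn hP t (st P t)).core β j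
  rw [bb_old hL h, bb_dms h] at h1
  exact h1 hj hc

theorem pos_const (hP : P.Ok) {β i t j : ℕ} (hL : Liv P β)
    (hr : ∀ m t, i < m → P.rhof β i ≤ P.rho β m t) (ht : tau P i < t) (h : β < t)
    (hj : j < (pos P t β).length)
    (hc : ∀ s, ps P t β j s ∈ Fs (kf P (i + 1)) ∧ (P.rhof β i ≤ s → ps P t β j s = 0))
    {t' : ℕ} (ht' : t ≤ t') : j < (pos P t' β).length ∧ ps P t' β j = ps P t β j := by
  induction t', ht' using Nat.le_induction with
  | base => exact ⟨hj, rfl⟩
  | succ t' ht' ih =>
    obtain ⟨ih1, ih2⟩ := ih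
    have hb : β < t' := by omega
    refine ⟨lt_of_lt_of_le ih1 (pos_len_mono hP hL hb (Nat.le_succ _)), ?_⟩
    rw [← ih2]
    apply pos_core hP hL hb ih1
    intro s
    rw [ih2]
    have hlv : i < lv P t' := (tau_spec hP i).2 t' (by omega)
    refine ⟨?_, fun hs => (hc s).2 (le_trans (hr _ t' hlv) hs)⟩
    have h1 := (hc s).1
    rw [mem_Fs] at h1 ⊢
    refine lt_of_lt_of_le h1 (q_mono ?_)
    rw [← fin_kap hP (i := i) (t := t') (by omega) (le_refl (i + 1))]
    exact kapA_le P t' hP hlv (lv_le_top P t')

theorem pos_tau (hP : P.Ok) {β i j : ℕ} (hL : Liv P β) (hβ : β ≤ i)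
    (hj : j < (pos P (tau P i + 1) β).length) (s : ℕ) :
    ps P (tau P i + 1) β j s ∈ Fs (kf P (i + 1)) ∧
      (P.rhof β i ≤ s → ps P (tau P i + 1) β j s = 0) := by
  have hlv : lv P (tau P i) = i := (tau_spec hP i).1
  have hle : i ≤ tau P i := by
    have h1 := lv_le P (tau P i)
    omega
  by_cases he : β = tau P i
  · exfalso
    unfold pos at hj
    rw [he, bldA_new] at hj
    simp at hj
  · have hb : β < tau P i := by omega
    have hmem : (pos P (tau P i + 1) β).getD j [] ∈ pos P (tau P i + 1) β := by
      rw [List.getD_eq_getElem _ _ hj]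
      exact List.getElem_mem hj
    obtain ⟨h1, h2⟩ := bb_mem hP hL hb hmem
    rw [hlv, (fin_tg hP (le_refl (tau P i)) hβ).2] at h1
    have h3 : (evn P (tau P i) (st P (tau P i))).1 = kf P (i + 1) := by
      have h4 := kapA_succ_new P (tau P i)
      rw [hlv, fin_kap hP (Nat.lt_succ_self (tau P i)) (le_refl (i + 1))] at h4
      exact h4.symm
    rw [h3] at h2
    unfold ps
    rw [sem_apply]
    by_cases hs : s < ((pos P (tau P i + 1) β).getD j []).length
    · refine ⟨?_, fun h5 => ?_⟩
      · rw [mem_Fs, List.getD_eq_getElem _ _ hs]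
        exact h2 _ (List.getElem_mem hs)
      · omega
    · rw [List.getD_eq_default _ _ (not_lt.1 hs), toK_zero]
      exact ⟨(Fs _).zero_mem, fun _ => rfl⟩

theorem pos_inj (hP : P.Ok) {β t : ℕ} (hL : Liv P β) (h : β < t) {j j' : ℕ}
    (hj : j < (pos P t β).length) (hj' : j' < (pos P t β).length)
    (he : ps P t β j = ps P t β j') : j = j' := by
  induction t, h using Nat.le_induction generalizing j j' with
  | base =>
    exfalso
    unfold pos at hj
    rw [Nat.succ_eq_add_one, bldA_new] at hj
    simp at hj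
  | succ t ht ih =>
    have hb : β < t := ht
    obtain ⟨E, hE, hc⟩ := bb_cases hP hL hb
    have hlen := bb_len hP hL hb
    have hold : ∀ k, k < (pos P t β).length →
        ps P (t + 1) β k = sem (((evn P t (st P t)).2.getD β []).getD k []) :=
      fun k hk => bb_ps hP hL hb hk
    have hnew : ∀ k, k < (pos P (t + 1) β).length → ¬ k < (pos P t β).length →
        k = (pos P t β).length ∧ ∃ v, ps P (t + 1) β k = sem v ∧
          ∀ w ∈ (evn P t (st P t)).2.getD β [], sem v ≠ sem w := by
      intro k hk hk'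
      rcases hc with rfl | ⟨v, rfl, -, -, hv⟩
      · rw [hE, List.append_nil] at hk
        omega
      · have hk2 : k = (pos P t β).length := by
          rw [hE, List.length_append, List.length_singleton] at hk
          omega
        refine ⟨hk2, v, ?_, hv⟩
        unfold ps
        rw [hE, List.getD_append_right _ _ _ _ (by omega), hk2, hlen]
        simp
    by_cases h1 : j < (pos P t β).length
    · by_cases h2 : j' < (pos P t β).length
      · rw [hold j h1, hold j' h2] at he
        have hs := (good_evn hP t (st P t)).same β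
        rw [bb_old hL hb] at hs
        have h3 := same_eq_iff hs (i := j) (j := j') (by simpa using h1) (by simpa using h2)
        rw [bb_getD, bb_getD, bb_getD, bb_getD] at h3
        exact ih h1 h2 (h3.2 he)
      · exfalso
        obtain ⟨-, v, h3, h4⟩ := hnew j' hj' h2
        rw [hold j h1, h3] at he
        refine h4 (((evn P t (st P t)).2.getD β []).getD j []) ?_ he.symm
        have h5 : j < ((evn P t (st P t)).2.getD β []).length := by rw [hlen]; exact h1
        rw [List.getD_eq_getElem _ _ h5]
        exact List.getElem_mem _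
    · by_cases h2 : j' < (pos P t β).length
      · exfalso
        obtain ⟨-, v, h3, h4⟩ := hnew j hj h1
        rw [hold j' h2, h3] at he
        refine h4 (((evn P t (st P t)).2.getD β []).getD j' []) ?_ he
        have h5 : j' < ((evn P t (st P t)).2.getD β []).length := by rw [hlen]; exact h2
        rw [List.getD_eq_getElem _ _ h5]
        exact List.getElem_mem _
      · rw [(hnew j hj h1).1, (hnew j' hj' h2).1]

theorem pos_new (hP : P.Ok) {β t p : ℕ} (hL : Liv P β) (h : β < t)
    (hp : (bldA (st P t) β).2.1 = p)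
    (hthr : thr P t (st P t) β p ((evn P t (st P t)).2.getD β []).length = true)
    (hlen : (Denumerable.ofNat Vec p.unpair.1).length ≤ P.rho β (lv P t) t)
    (hlt : ∀ x ∈ Denumerable.ofNat Vec p.unpair.1, x < q (evn P t (st P t)).1) :
    ∃ j, j < (pos P (t + 1) β).length ∧
      ps P (t + 1) β j = sem (Denumerable.ofNat Vec p.unpair.1) := by
  have hE : pos P (t + 1) β = (evn P t (st P t)).2.getD β [] ++
      cand (P.rho β (lev P t (st P t)) t) (evn P t (st P t)).1 p
        ((evn P t (st P t)).2.getD β []) := by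
    unfold pos
    rw [bldA_succ P t h]
    unfold bldN
    rw [if_pos (liv_surv hL h), hp, if_pos hthr]
  by_cases hv : ∃ w ∈ (evn P t (st P t)).2.getD β [],
      veq (Denumerable.ofNat Vec p.unpair.1) w = true
  · obtain ⟨w, hw, he⟩ := hv
    obtain ⟨j, hj, hjw⟩ := List.getElem_of_mem hw
    refine ⟨j, ?_, ?_⟩
    · rw [hE, List.length_append]
      omega
    · unfold ps
      rw [hE, List.getD_append _ _ _ _ hj, List.getD_eq_getElem _ _ hj, hjw]
      exact ((veq_iff _ _).1 he).symm
  · have hc : cand (P.rho β (lev P t (st P t)) t) (evn P t (st P t)).1 p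
        ((evn P t (st P t)).2.getD β []) = [Denumerable.ofNat Vec p.unpair.1] := by
      unfold cand
      rw [if_pos]
      refine ⟨hlen, ?_, ?_⟩
      · rw [List.all_eq_true]
        intro x hx
        simpa using hlt x hx
      · rw [List.all_eq_true]
        intro w hw
        rw [Bool.not_eq_true', ← Bool.not_eq_true]
        exact fun h1 => hv ⟨w, hw, h1⟩
    refine ⟨((evn P t (st P t)).2.getD β []).length, ?_, ?_⟩
    · rw [hE, hc, List.length_append, List.length_singleton]
      exact Nat.lt_succ_self _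
    · unfold ps
      rw [hE, hc, List.getD_append_right _ _ _ _ le_rfl]
      simp

end Pool.Agent.Work.MP_ed0a9a_lc.H
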