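import Mathlib
import Pool.Agent.Work.MP_ed0a9a_lc.H.Bb

/-!
# Module `Bc`: the final positions of a good builder

PROOF.  Call a level `i ≥ β` with `(P.rhof β i : ℕ∞) ≤ d` and `∀ m t, i < m → P.rhof β i ≤ P.rho β m t` good.
For a good level `i` all the positions present at stage `tau P i + 1` are final
(`pos_tau`, `pos_const`) and have support `< P.rhof β i ≤ d`.
(a) `(pos P t β).length` is unbounded: let `v` be any vector with support `< d` (see (b)): for each such
`v` some position is finally `v`; there are infinitely many such `v` (`d ≥ 1`: `h.good 1`? no: use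
`P.rhof β i ≥ 1` (`hP.rho1`), so `d ≥ 1` and the vectors `a • e_0`, `a : K`, are infinitely many); final positions of
different vectors have different names.
(b) SURJECTIVE: let `v` have support `< d` (`∀ s, d ≤ s → v s = 0`).  Since the support is finite there is
`r` with `(r : ℕ∞) ≤ d` and `∀ s, r ≤ s → v s = 0` (if `d = ⊤` any bound of the support; otherwise `r = d`).  Choose `i0` with
all coordinates of `v` in `Fs (kf P (i0 + 1))` (`le_kf`), and a good level `i ≥ i0` with `r ≤ P.rhof β i` (`h.good`).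
Raw vector `u` of length `r` with `sem u = v`, entries `< q (kf P (i + 1))` (e.g.
`u = (List.range r).map (fun s => ofK (v s))`).  There are infinitely many `p` with
`Denumerable.ofNat Vec p.unpair.1 = u` (`p = Nat.pair (encode u) x`), the counter is `≤ t` at stage `t`, so there are `p`
and `t > tau P i` as in `grow_at` (choose `p` larger than the counter at stage `tau P i + 1`; the counter is
monotone).  `pos_new`: `lv P t > i`, `u.length = r ≤ P.rhof β i ≤ P.rho β (lv P t) t`, entries
`< q (kf P (i+1)) ≤ q (evn ..).1` (`fin_kap`, `kapA_le`, `kapA_lt_evn`, `q_mono`).  So `v` is the position of some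
name at `t + 1`, and it is final by `pos_const`.
(c) For each name `j` there is by (a) a stage where `j` is a name; the next good level
`i` with `tau P i` beyond that stage (`h.good 0`, `tau_lt`: `i ≤ tau P i`) makes its position final: define `F j`.
INJECTIVE: two names at a common large stage: `pos_inj`.
(d) the final positions have support `< d`: by `pos_tau` at a good level.
-/

namespace Pool.Agent.Work.MP_ed0a9a_lc.H

variable {P : Par}

private theorem bc_lt_q (n : ℕ) : n < q n :=
  lt_trans Nat.lt_two_pow_self Nat.lt_two_pow_self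

private theorem bc_cnt {β t : ℕ} (hL : Liv P β) (h : β < t) : (bldA (st P t) β).2.1 ≤ t := by
  induction t, h using Nat.le_induction with
  | base =>
    rw [Nat.succ_eq_add_one, bldA_new]
    exact Nat.zero_le _
  | succ t ht ih =>
    rw [bldA_succ P t ht]
    unfold bldN
    rw [if_pos (liv_surv hL ht)]
    split_ifs
    · exact Nat.succ_le_succ ih
    · exact Nat.le_succ_of_le ih

private theorem bc_supp {d : ℕ∞} {v : ℕ →₀ K} (hv : ∀ s : ℕ, d ≤ (s : ℕ∞) → v s = 0) :
    ∃ r : ℕ, (r : ℕ∞) ≤ d ∧ ∀ s, r ≤ s → v s = 0 := by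
  cases d with
  | top =>
    refine ⟨v.support.sup id + 1, le_top, fun s hs => ?_⟩
    by_contra hne
    have h1 : s ≤ v.support.sup id := Finset.le_sup (f := id) (Finsupp.mem_support_iff.2 hne)
    omega
  | coe r => exact ⟨r, le_rfl, fun s hs => hv s (by exact_mod_cast hs)⟩

private theorem bc_surj (hP : P.Ok) {β : ℕ} {d : ℕ∞} (h : GB P β d) {v : ℕ →₀ K}
    (hv : ∀ s : ℕ, d ≤ (s : ℕ∞) → v s = 0) :
    ∃ j T, β < T ∧ ∀ t, T ≤ t → j < (pos P t β).length ∧ ps P t β j = v := by
  obtain ⟨r, hrd, hr0⟩ := bc_supp hv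
  obtain ⟨i, hi0, hβi, hri, -, hmono⟩ := h.good r hrd ((Finset.range r).sup fun s => ofK (v s))
  have hvi : ∀ s, s < r → ofK (v s) ≤ i := fun s hs =>
    le_trans (Finset.le_sup (f := fun s => ofK (v s)) (Finset.mem_range.2 hs)) hi0
  have hvq : ∀ s, s < r → ofK (v s) < q (kf P (i + 1)) := by
    intro s hs
    have h1 := hvi s hs
    have h2 := le_kf hP (i + 1)
    have h3 := bc_lt_q (kf P (i + 1))
    omega
  obtain ⟨p, hp1, hp2⟩ : ∃ p, Denumerable.ofNat Vec p.unpair.1 =
      (List.range r).map (fun s => ofK (v s)) ∧ tau P i + 2 ≤ p := by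
    refine ⟨Nat.pair (Encodable.encode ((List.range r).map (fun s => ofK (v s)) : Vec))
      (tau P i + 2), ?_, Nat.right_le_pair _ _⟩
    rw [Nat.unpair_pair]
    exact Denumerable.ofNat_encode _
  obtain ⟨t, hβt, hcnt, hthr⟩ := grow_at hP h.liv h.ex p
  have htau : tau P i < t := by
    have h1 := bc_cnt h.liv hβt
    omega
  have hlv : i < lv P t := (tau_spec hP i).2 t htau
  have hsem : sem ((List.range r).map (fun s => ofK (v s)) : Vec) = v := by
    ext s
    rw [sem_apply]
    by_cases hs : s < r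
    · rw [List.getD_eq_getElem _ _ (by simpa using hs), List.getElem_map, List.getElem_range,
        toK_ofK]
    · rw [List.getD_eq_default _ _ (by simpa using hs), toK_zero, hr0 s (not_lt.1 hs)]
  have hkap : q (kf P (i + 1)) ≤ q (evn P t (st P t)).1 := by
    apply q_mono
    rw [← fin_kap hP (i := i) (t := t) htau (le_refl (i + 1))]
    exact le_trans (kapA_le P t hP hlv (lv_le_top P t)) (kapA_lt_evn hP t (st P t)).le
  obtain ⟨j, hj, hps⟩ := pos_new hP h.liv hβt hcnt hthr (by
    rw [hp1, List.length_map, List.length_range]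
    exact le_trans hri (hmono _ t hlv)) (by
    rw [hp1]
    intro x hx
    obtain ⟨s, hs, rfl⟩ := List.mem_map.1 hx
    exact lt_of_lt_of_le (hvq s (List.mem_range.1 hs)) hkap)
  rw [hp1, hsem] at hps
  refine ⟨j, t + 1, by omega, fun t' ht' => ?_⟩
  have h1 := pos_const hP h.liv hmono (t := t + 1) (by omega) (by omega) hj (by
    intro s
    rw [hps]
    refine ⟨?_, fun hs => hr0 s (le_trans hri hs)⟩
    by_cases hs : s < r
    · rw [mem_Fs]
      exact hvq s hs
    · rw [hr0 s (not_lt.1 hs)]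
      exact (Fs _).zero_mem) ht'
  rw [hps] at h1
  exact h1

private theorem bc_one (hP : P.Ok) {β : ℕ} {d : ℕ∞} (h : GB P β d) : 1 ≤ d := by
  obtain ⟨i, -, -, -, h1, -⟩ := h.good 0 (by simp) 0
  have h2 : 1 ≤ P.rhof β i := hP.rho1 _ _ _
  refine le_trans ?_ h1
  exact_mod_cast h2

private theorem bc_names (hP : P.Ok) {β : ℕ} {d : ℕ∞} (h : GB P β d) (j : ℕ) :
    ∃ T, β < T ∧ j < (pos P T β).length := by
  have hd := bc_one hP h
  have hv : ∀ a : ℕ, ∀ s : ℕ, d ≤ (s : ℕ∞) → (Finsupp.single 0 (toK a) : ℕ →₀ K) s = 0 := by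
    intro a s hs
    have h1 : (1 : ℕ∞) ≤ (s : ℕ∞) := le_trans hd hs
    have h2 : 1 ≤ s := by exact_mod_cast h1
    rw [Finsupp.single_apply, if_neg (by omega)]
  choose f T hT1 hT2 using fun a => bc_surj hP h (hv a)
  have hinj : Function.Injective f := by
    intro a b hab
    have h1 := (hT2 a (max (T a) (T b)) (le_max_left _ _)).2
    have h2 := (hT2 b (max (T a) (T b)) (le_max_right _ _)).2
    rw [hab, h2] at h1
    have h3 := DFunLike.congr_fun h1 0
    rw [Finsupp.single_eq_same, Finsupp.single_eq_same, toK_inj] at h3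
    exact h3.symm
  obtain ⟨b, ⟨a, rfl⟩, hb⟩ := (Set.infinite_range_of_injective hinj).exists_gt j
  exact ⟨T a, hT1 a, lt_trans hb (hT2 a (T a) le_rfl).1⟩

private theorem bc_fin (hP : P.Ok) {β : ℕ} {d : ℕ∞} (h : GB P β d) (j : ℕ) :
    ∃ w : ℕ →₀ K, (∃ T, β < T ∧ ∀ t, T ≤ t → j < (pos P t β).length ∧ ps P t β j = w) ∧
      ∀ s : ℕ, d ≤ (s : ℕ∞) → w s = 0 := by
  obtain ⟨T, hT1, hT2⟩ := bc_names hP h j
  obtain ⟨i, hi, hβi, -, hrd, hmono⟩ := h.good 0 (by simp) T
  have hle : i ≤ tau P i := by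
    have h1 := lv_le P (tau P i)
    rw [(tau_spec hP i).1] at h1
    exact h1
  have hj : j < (pos P (tau P i + 1) β).length :=
    lt_of_lt_of_le hT2 (pos_len_mono hP h.liv hT1 (by omega))
  refine ⟨ps P (tau P i + 1) β j, ⟨tau P i + 1, by omega, fun t ht => ?_⟩, fun s hs => ?_⟩
  · exact pos_const hP h.liv hmono (Nat.lt_succ_self _) (by omega) hj
      (pos_tau hP h.liv hβi hj) ht
  · apply (pos_tau hP h.liv hβi hj s).2
    have h1 := le_trans hrd hs
    exact_mod_cast h1

theorem exists_F (hP : P.Ok) {β : ℕ} {d : ℕ∞} (h : GB P β d) :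
    ∃ F : ℕ → (ℕ →₀ K), Function.Injective F ∧
      (∀ j, ∃ T, β < T ∧ ∀ t, T ≤ t → j < (pos P t β).length ∧ ps P t β j = F j) ∧
      ∀ v : ℕ →₀ K, (∃ j, F j = v) ↔ ∀ s : ℕ, d ≤ (s : ℕ∞) → v s = 0 := by
  choose F hF1 hF2 using bc_fin hP h
  refine ⟨F, ?_, hF1, ?_⟩
  · intro j j' he
    obtain ⟨T, hT1, hT2⟩ := hF1 j
    obtain ⟨T', -, hT2'⟩ := hF1 j'
    have h1 := hT2 (max T T') (le_max_left _ _)
    have h2 := hT2' (max T T') (le_max_right _ _)
    exact pos_inj hP h.liv (lt_of_lt_of_le hT1 (le_max_left _ _)) h1.1 h2.1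
      (by rw [h1.2, h2.2, he])
  · intro v
    constructor
    · rintro ⟨j, rfl⟩
      exact hF2 j
    · intro hv
      obtain ⟨j, T, -, hT⟩ := bc_surj hP h hv
      obtain ⟨T', -, hT'⟩ := hF1 j
      refine ⟨j, ?_⟩
      rw [← (hT (max T T') (le_max_left _ _)).2, ← (hT' (max T T') (le_max_right _ _)).2]

end Pool.Agent.Work.MP_ed0a9a_lc.H
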