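import Mathlib
import Pool.Agent.Work.MP_ed0a9a_lc.H.Ba
import Pool.Agent.Work.MP_ed0a9a_lc.H.Sc

/-!
# Module `Bd`: the declared facts of a good builder are the facts of its final positions

PROOF.  `persist` (module `Sb`) from `t` to any `t' ≥ t` (induction; `β` survives all transitions:
`liv_surv`; `syS i < t'`; the names stay names: `pos_len_mono`).  For `t'` large: `asg P t' i = Rf P i`
(`Rf_eq`), and all the names `j ∈ v` have their final positions, so
`(nm (pos P t' β) v).map sem = v.map F` ; `evA_iff`.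
-/

namespace Pool.Agent.Work.MP_ed0a9a_lc.H

variable {P : Par}

private theorem bd_persist (hP : P.Ok) {β i t : ℕ} {v : List ℕ} (hL : Liv P β)
    (hv : v.length = ar i) (ht : β < t) (hi : syS i < t) (hn : ∀ j ∈ v, j < (pos P t β).length)
    {t' : ℕ} (ht' : t ≤ t') :
    evA (asg P t' i) (nm (pos P t' β) v) = evA (asg P t i) (nm (pos P t β) v) := by
  induction t', ht' using Nat.le_induction with
  | base => rfl
  | succ t' ht' ih =>
    rw [← ih]
    exact persist hP (liv_surv hL (by omega)) (Or.inr (by omega)) v hv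
      fun j hj => lt_of_lt_of_le (hn j hj) (pos_len_mono hP hL ht ht')

private theorem bd_all {F : ℕ → (ℕ →₀ K)} {β : ℕ}
    (hF : ∀ j, ∃ T, β < T ∧ ∀ t, T ≤ t → j < (pos P t β).length ∧ ps P t β j = F j)
    (v : List ℕ) : ∃ T, ∀ t, T ≤ t → ∀ j ∈ v, ps P t β j = F j := by
  induction v with
  | nil => exact ⟨0, fun t _ j hj => by simp at hj⟩
  | cons a v ih =>
    obtain ⟨T1, h1⟩ := ih
    obtain ⟨T2, -, h2⟩ := hF a
    refine ⟨max T1 T2, fun t ht j hj => ?_⟩
    rcases List.mem_cons.1 hj with rfl | hj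
    · exact (h2 t (le_trans (le_max_right _ _) ht)).2
    · exact h1 t (le_trans (le_max_left _ _) ht) j hj

theorem facts (hP : P.Ok) {β : ℕ} (hL : Liv P β) {F : ℕ → (ℕ →₀ K)}
    (hF : ∀ j, ∃ T, β < T ∧ ∀ t, T ≤ t → j < (pos P t β).length ∧ ps P t β j = F j)
    {i t : ℕ} {v : List ℕ} (hv : v.length = ar i) (ht : β < t) (hi : syS i < t)
    (hn : ∀ j ∈ v, j < (pos P t β).length) :
    evA (asg P t i) (nm (pos P t β) v) = true ↔ holds (Rf P i) (v.map F) := by
  obtain ⟨T1, h1⟩ := bd_all hF v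
  obtain ⟨T2, h2⟩ := Rf_eq hP i
  have h3 := bd_persist hP hL hv ht hi hn (t' := max t (max T1 T2)) (le_max_left _ _)
  rw [← h3, evA_iff, h2 _ (le_trans (le_max_right _ _) (le_max_right _ _))]
  have h4 : (nm (pos P (max t (max T1 T2)) β) v).map sem = v.map F := by
    unfold nm
    rw [List.map_map]
    refine List.map_congr_left fun j hj => ?_
    exact h1 _ (le_trans (le_max_left _ _) (le_max_right _ _)) j hj
  rw [h4]

end Pool.Agent.Work.MP_ed0a9a_lc.H
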