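import Pool.Agent.Work.MP_ed0a9a_lc.H.Cmp2

/-!
# Module `Cmp3`: computability of the transitions and of the interpretations
-/

namespace Pool.Agent.Work.MP_ed0a9a_lc.H.HR

open Computable

variable {α : Type} [Primcodable α]

/-- Every event problem has a solution. -/
def EvEx : Prop := ∀ (n m : ℕ) (rs : List ℕ) (Ps : List (List Vec)), rs.length = Ps.length →
  (∀ r ∈ rs, 1 ≤ r ∧ r ≤ m + 1) → ∃ (N : ℕ) (G : List (List Vec)), GoodEv n m rs Ps N G

theorem dms_length (P : Par) (t : ℕ) (S : St) : (dms P t S).length = nbld S := by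
  simp [dms]

theorem oldp_length (P : Par) (t : ℕ) (S : St) : (oldp P t S).length = nbld S := by
  simp [oldp]

theorem evn_ex (hE : EvEx) {P : Par} (hP : P.Ok) (t : ℕ) (S : St) :
    ∃ (N : ℕ) (G : List (List Vec)),
      GoodEv (kapA S (lev P t S)) (lev P t S) (dms P t S) (oldp P t S) N G := by
  refine hE _ _ _ _ (by rw [dms_length, oldp_length]) ?_
  intro r hr
  simp only [dms, List.mem_map] at hr
  obtain ⟨β, -, rfl⟩ := hr
  exact ⟨hP.rho1 _ _ _, hP.rho2 _ _ _⟩

theorem evn_spec (hE : EvEx) {P : Par} (hP : P.Ok) (t : ℕ) (S : St) :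
    GoodEv (kapA S (lev P t S)) (lev P t S) (dms P t S) (oldp P t S)
      (evn P t S).1 (evn P t S).2 := ev_spec (evn_ex hE hP t S)

theorem comp_evn (hE : EvEx) {P : Par} (hP : P.Ok) {S : α → St} {t : α → ℕ}
    (ht : Computable t) (hS : Computable S) : Computable (fun a => evn P (t a) (S a)) := by
  unfold evn
  have hl := comp_lev hP ht hS
  exact comp_ev (comp_kapA hS hl) hl (comp_dms hP ht hS) (comp_oldp hP ht hS)
    fun a => evn_ex hE hP (t a) (S a)

theorem comp_kapN (hE : EvEx) {P : Par} (hP : P.Ok) {S : α → St} {t : α → ℕ}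
    (ht : Computable t) (hS : Computable S) : Computable (fun a => kapN P (t a) (S a)) := by
  unfold kapN
  exact comp_append (comp_take (comp_succ (comp_lev hP ht hS)) (fst.comp hS))
    (comp_sing (fst.comp (comp_evn hE hP ht hS)))

theorem comp_stgN {P : Par} (hP : P.Ok) {S : α → St} {t : α → ℕ}
    (ht : Computable t) (hS : Computable S) : Computable (fun a => stgN P (t a) (S a)) := by
  unfold stgN
  exact comp_append (comp_take (comp_lev hP ht hS) (fst.comp (snd.comp hS)))
    (comp_sing (comp_cond (comp_isc hP ht hS) ht (comp_stgA hS (comp_lev hP ht hS))))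

theorem comp_actsN {P : Par} (hP : P.Ok) {S : α → St} {t : α → ℕ}
    (ht : Computable t) (hS : Computable S) : Computable (fun a => actsN P (t a) (S a)) := by
  unfold actsN
  exact comp_append (comp_take (comp_lev hP ht hS) (fst.comp (snd.comp (snd.comp hS))))
    (comp_sing (comp_actN hP ht hS))

theorem comp_thr (hE : EvEx) {P : Par} (hP : P.Ok) {S : α → St} {t β p n : α → ℕ}
    (ht : Computable t) (hS : Computable S) (hβ : Computable β) (hp : Computable p)
    (hn : Computable n) : Computable (fun a => thr P (t a) (S a) (β a) (p a) (n a)) := by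
  unfold thr
  refine comp_all (comp_ex hP hβ) ?_
  refine comp_all (comp_range (comp_succ (comp_min ((comp_lev hP ht hS).comp fst)
    (hp.comp fst)))) ?_
  have ha : Computable (fun x : (α × ℕ) × ℕ => x.1.1) := fst.comp fst
  have hl : Computable (fun x : (α × ℕ) × ℕ => x.1.2) := snd.comp fst
  have hi : Computable (fun x : (α × ℕ) × ℕ => x.2) := snd
  refine comp_or (comp_dlt hi hl) (comp_or ?_ ?_)
  · exact comp_deq (fst.comp (comp_tg hP hl hi (ht.comp ha))) (const 0)
  · refine comp_oany (comp_lookup hl (comp_getD [] ((comp_actsN hP ht hS).comp ha) hi)) ?_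
    have ha2 : Computable (fun x : ((α × ℕ) × ℕ) × ℕ => x.1.1.1) := ha.comp fst
    have hl2 : Computable (fun x : ((α × ℕ) × ℕ) × ℕ => x.1.1.2) := hl.comp fst
    have hi2 : Computable (fun x : ((α × ℕ) × ℕ) × ℕ => x.1.2) := hi.comp fst
    refine comp_dlt (comp_mul (comp_q (comp_getD 0 ((comp_kapN hE hP ht hS).comp ha2) hi2))
      (comp_succ (hn.comp ha2))) ?_
    exact comp_nwy hP (comp_getD 0 ((comp_stgN hP ht hS).comp ha2) hi2) hl2 hi2 snd
      (ht.comp ha2)

theorem comp_cand {ρ N p : α → ℕ} {G : α → List Vec} (hρ : Computable ρ)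
    (hN : Computable N) (hp : Computable p) (hG : Computable G) :
    Computable (fun a => cand (ρ a) (N a) (p a) (G a)) := by
  unfold cand
  have hv : Computable (fun a => Denumerable.ofNat Vec (p a).unpair.1) :=
    (Computable.ofNat Vec).comp (fst.comp (Computable.unpair.comp hp))
  refine comp_ite (comp_dand (comp_dle (comp_length hv) hρ)
    (comp_dand (comp_dtrue ?_) (comp_dtrue ?_))) (comp_sing hv) (const [])
  · exact comp_all hv (comp_dlt snd (comp_q (hN.comp fst)))
  · exact comp_all hG (comp_not (comp_veq (hv.comp fst) snd))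

theorem comp_bldN (hE : EvEx) {P : Par} (hP : P.Ok) {S : α → St} {t β : α → ℕ}
    (ht : Computable t) (hS : Computable S) (hβ : Computable β) :
    Computable (fun a => bldN P (t a) (S a) (β a)) := by
  unfold bldN
  have hev := comp_evn hE hP ht hS
  have hG : Computable (fun a => (evn P (t a) (S a)).2.getD (β a) []) :=
    comp_getD [] (snd.comp hev) hβ
  have hp : Computable (fun a => (bldA (S a) (β a)).2.1) := fst.comp (snd.comp (comp_bldA hS hβ))
  refine comp_cond (comp_surv hP ht hS hβ) (comp_cond ?_ ?_ ?_) (const (false, 0, []))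
  · exact comp_thr hE hP ht hS hβ hp (comp_length hG)
  · refine pair (const true) (pair (comp_succ hp) (comp_append hG ?_))
    exact comp_cand (comp_rho hP hβ (comp_lev hP ht hS) ht) (fst.comp hev) hp hG
  · exact pair (const true) (pair hp hG)

theorem comp_step (hE : EvEx) {P : Par} (hP : P.Ok) {S : α → St} {t : α → ℕ}
    (ht : Computable t) (hS : Computable S) : Computable (fun a => step P (t a) (S a)) := by
  unfold step
  refine pair (comp_kapN hE hP ht hS) (pair (comp_stgN hP ht hS) (pair (comp_actsN hP ht hS) ?_))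
  refine comp_append (comp_map (comp_range (comp_nbld hS)) ?_) (const [(true, 0, [])])
  exact comp_bldN hE hP (ht.comp fst) (hS.comp fst) snd

theorem computable_st (hE : EvEx) {P : Par} (hP : P.Ok) : Computable (st P) := by
  have h : Computable (fun t : ℕ => (Nat.rec (([0], [], [], []) : St)
      (fun y IH => step P y IH) t : St)) :=
    Computable.nat_rec (f := fun t : ℕ => t) (g := fun _ => (([0], [], [], []) : St))
      (h := fun (_ : ℕ) (p : ℕ × St) => step P p.1 p.2) Computable.id (const _)
      (comp_step hE hP (fst.comp snd) (snd.comp snd))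
  refine h.of_eq fun t => ?_
  induction t with
  | zero => rfl
  | succ t ih => rw [st, ← ih]

theorem comp_st (hE : EvEx) {P : Par} (hP : P.Ok) {t : α → ℕ} (ht : Computable t) :
    Computable (fun a => st P (t a)) := (computable_st hE hP).comp ht

theorem comp_lv (hE : EvEx) {P : Par} (hP : P.Ok) {t : α → ℕ} (ht : Computable t) :
    Computable (fun a => lv P (t a)) := comp_lev hP ht (comp_st hE hP ht)

theorem comp_crt {m n N κ p : α → ℕ} (hm : Computable m) (hn : Computable n)
    (hN : Computable N) (hκ : Computable κ) (hp : Computable p) :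
    Computable (fun a => crt (m a) (n a) (N a) (κ a) (p a)) := by
  unfold crt
  refine comp_ite (comp_deq hκ (const 0)) ?_ (comp_ite (comp_deq hκ (const 1))
    (comp_ite (comp_dand (comp_dle (comp_q hn) hp) (comp_dlt hp (comp_q hN))) ?_ ?_) ?_)
  · exact pair hm (pair (const 0) (pair (const []) (pair (const 1) (pair hn (const (0, 0, 0, 0))))))
  · exact pair (comp_succ hm) (pair (const 0) (pair (const []) (pair (const 2)
      (pair hn (pair hp (const (0, 0, 0)))))))
  · exact const _
  · exact pair (comp_succ hm) (const (0, [], Itn.none))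

theorem comp_patN (hE : EvEx) {P : Par} (hP : P.Ok) {S : α → St} {t b : α → ℕ} {A : α → Asg}
    (ht : Computable t) (hS : Computable S) (hb : Computable b) (hA : Computable A) :
    Computable (fun a => patN P (t a) (S a) (b a) (A a)) := by
  unfold patN
  refine comp_flatMap (comp_range (comp_nbld hS)) ?_
  have hbl : Computable (fun x : α × ℕ => (bldA (S x.1) x.2).2.2) :=
    snd.comp (snd.comp (comp_bldA (hS.comp fst) snd))
  refine comp_cond (comp_surv hP (ht.comp fst) (hS.comp fst) snd) (comp_map ?_ ?_) (const [])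
  · exact comp_cl (comp_length hbl) (hb.comp fst)
  · refine pair (comp_nm ?_ snd) (comp_evA ?_ (comp_nm (hbl.comp fst) snd))
    · exact comp_getD [] ((snd.comp (comp_evn hE hP ht hS)).comp (fst.comp fst)) (snd.comp fst)
    · exact hA.comp (fst.comp fst)

theorem comp_dnnone {β : Type} [Primcodable β] {o : α → Option β} (ho : Computable o)
    [∀ a, Decidable (o a ≠ none)] :
    Computable (fun a => decide (o a ≠ none)) := by
  refine (comp_ocase ho (const false) (const true).to₂).of_eq fun a => ?_
  rw [Bool.eq_iff_iff, decide_eq_true_eq]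
  cases o a <;> simp

theorem comp_itnN (hE : EvEx) {P : Par} (hP : P.Ok) {S : α → St} {t i : α → ℕ}
    (ht : Computable t) (hS : Computable S) (hi : Computable i) :
    Computable (fun a => itnN P (t a) (S a) (i a)) := by
  unfold itnN
  have hl := comp_lev hP ht hS
  have hT := comp_tg hP (comp_syP hi) hl ht
  refine comp_ite (comp_dand (comp_deq (comp_syK hi) (const 2)) (comp_dand (comp_deq
    (comp_getD 0 (comp_stgN hP ht hS) hl) (comp_syS hi))
    (comp_dnnone (comp_lookup (comp_syP hi) (comp_actN hP ht hS))))) ?_ (const _)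
  exact pair (const 3) (pair (comp_kapA hS hl) (pair (fst.comp (comp_evn hE hP ht hS))
    (pair (fst.comp hT) (pair (fst.comp (snd.comp hT)) (snd.comp (snd.comp hT))))))

/-- One step of the recursion which defines `asg`. -/
noncomputable def asgS (P : Par) (i t : ℕ) (IH : Asg) : Asg :=
  if i = 0 then (0, 0, [], Itn.plus)
  else if syS i = t then crt (lv P t) (kapA (st P t) (lv P t)) (evn P t (st P t)).1
    (syK i) (syP i)
  else if t < syS i then (0, 0, [], Itn.none)
  else if IH.1 ≤ lv P t then IH
  else (lv P t + 1, (evn P t (st P t)).1, patN P t (st P t) (ar i) IH,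
    itnN P t (st P t) i)

theorem asg_succ (P : Par) (t i : ℕ) : asg P (t + 1) i = asgS P i t (asg P t i) := rfl

theorem asg_zero (P : Par) (i : ℕ) :
    asg P 0 i = if i = 0 then (0, 0, [], Itn.plus) else (0, 0, [], Itn.none) := rfl

theorem comp_asgS (hE : EvEx) {P : Par} (hP : P.Ok) {i t : α → ℕ} {A : α → Asg}
    (hi : Computable i) (ht : Computable t) (hA : Computable A) :
    Computable (fun a => asgS P (i a) (t a) (A a)) := by
  have hS : Computable (fun a => st P (t a)) := comp_st hE hP ht
  have hlv : Computable (fun a => lv P (t a)) := comp_lv hE hP ht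
  have hev : Computable (fun a => evn P (t a) (st P (t a))) := comp_evn hE hP ht hS
  have h1 : Computable (fun a => crt (lv P (t a)) (kapA (st P (t a)) (lv P (t a)))
      (evn P (t a) (st P (t a))).1 (syK (i a)) (syP (i a))) :=
    comp_crt hlv (comp_kapA hS hlv) (fst.comp hev) (comp_syK hi) (comp_syP hi)
  have h2 : Computable (fun a => ((lv P (t a) + 1, (evn P (t a) (st P (t a))).1,
      patN P (t a) (st P (t a)) (ar (i a)) (A a), itnN P (t a) (st P (t a)) (i a)) : Asg)) :=
    pair (comp_succ hlv) (pair (fst.comp hev) (pair (comp_patN hE hP ht hS (comp_ar hi) hA)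
      (comp_itnN hE hP ht hS hi)))
  have h3 := comp_ite (comp_dle (fst.comp hA) hlv) hA h2
  have h4 := comp_ite (comp_dlt ht (comp_syS hi))
    (const (((0, 0, [], Itn.none) : Asg) : Asg)) h3
  have h5 := comp_ite (comp_deq (comp_syS hi) ht) h1 h4
  exact comp_ite (comp_deq hi (const 0)) (const ((0, 0, [], Itn.plus) : Asg)) h5

theorem comp_asg0 {P : Par} {i : α → ℕ} (hi : Computable i) :
    Computable (fun a => asg P 0 (i a)) := by
  have h := comp_ite (comp_deq hi (const 0)) (const ((0, 0, [], Itn.plus) : Asg))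
    (const ((0, 0, [], Itn.none) : Asg))
  exact h.of_eq fun a => (asg_zero P (i a)).symm

theorem asg_rec (P : Par) (t i : ℕ) :
    (Nat.rec (asg P 0 i) (fun y IH => asgS P i y IH) t : Asg) = asg P t i := by
  induction t with
  | zero => rfl
  | succ t ih => rw [asg_succ, ← ih]

theorem computable_asg (hE : EvEx) {P : Par} (hP : P.Ok) :
    Computable (fun x : ℕ × ℕ => asg P x.1 x.2) := by
  have hs : Computable₂ (fun (x : ℕ × ℕ) (p : ℕ × Asg) => asgS P x.2 p.1 p.2) :=
    comp_asgS hE hP (snd.comp fst) (fst.comp snd) (snd.comp snd)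
  have h : Computable (fun x : ℕ × ℕ =>
      (Nat.rec (asg P 0 x.2) (fun y IH => asgS P x.2 y IH) x.1 : Asg)) :=
    Computable.nat_rec (f := fun x : ℕ × ℕ => x.1) (g := fun x => asg P 0 x.2)
      (h := fun (x : ℕ × ℕ) (p : ℕ × Asg) => asgS P x.2 p.1 p.2)
      Computable.fst (comp_asg0 Computable.snd) hs
  exact h.of_eq fun x => asg_rec P x.1 x.2

theorem comp_asg (hE : EvEx) {P : Par} (hP : P.Ok) {t i : α → ℕ} (ht : Computable t)
    (hi : Computable i) : Computable (fun a => asg P (t a) (i a)) := by
  have h := Computable.comp (f := fun x : ℕ × ℕ => asg P x.1 x.2)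
    (g := fun a => (t a, i a)) (computable_asg hE hP) (pair ht hi)
  exact h

end Pool.Agent.Work.MP_ed0a9a_lc.H.HR
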