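import Mathlib
import Pool.Agent.Work.MP_ed0a9a_lc.H.BDefs
import Pool.Agent.Work.MP_ed0a9a_lc.H.Mb
import Pool.Agent.Work.MP_ed0a9a_lc.H.Cmp3

/-!
# Module `Be`: everything is computable

PROOF of `comp_builder`.  The stage `t = t(i, v)` is the least `t` with `β < t`, `syS i < t` and
`∀ j ∈ v, j < (pos P t β).length` (`Partrec.rfind`, total by `hlen`, `pos` computable from `comp_st`), and
`r i v = evA (asg P t i) (nm (pos P t β) v)`.
-/

namespace Pool.Agent.Work.MP_ed0a9a_lc.H

variable {P : Par}

theorem evEx : HR.EvEx := exists_goodEv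

theorem comp_st (hP : P.Ok) : Computable (st P) := HR.computable_st evEx hP

theorem comp_asg (hP : P.Ok) : Computable₂ (asg P) := HR.computable_asg evEx hP

theorem comp_ar : Computable ar := HR.computable_ar

theorem comp_builder (hP : P.Ok) (β : ℕ)
    (hlen : ∀ n, ∃ T, ∀ t, T ≤ t → n < (pos P t β).length) :
    ∃ r : ℕ → List ℕ → Bool, Computable₂ r ∧ ∀ i v, ∃ t, β < t ∧ syS i < t ∧
      (∀ j ∈ v, j < (pos P t β).length) ∧ r i v = evA (asg P t i) (nm (pos P t β) v) := by
  let p : ℕ × List ℕ → ℕ → Bool := fun x t => decide (β < t) && (decide (syS x.1 < t) &&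
    x.2.all fun j => decide (j < (pos P t β).length))
  have hpos : ∀ {α : Type} [Primcodable α] {t : α → ℕ}, Computable t →
      Computable (fun a => pos P (t a) β) := by
    intro α _ t ht
    exact Computable.snd.comp (Computable.snd.comp
      (HR.comp_bldA ((comp_st hP).comp ht) (Computable.const β)))
  have hp : Computable₂ p := by
    refine HR.comp_and (HR.comp_dlt (Computable.const β) Computable.snd) (HR.comp_and
      (HR.comp_dlt (HR.comp_syS (Computable.fst.comp Computable.fst)) Computable.snd)
      (HR.comp_all (Computable.snd.comp Computable.fst) ?_))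
    exact HR.comp_dlt Computable.snd (HR.comp_length (hpos (Computable.snd.comp Computable.fst)))
  have hex : ∀ x, ∃ n, p x n = true := by
    rintro ⟨i, v⟩
    have h1 : ∀ v : List ℕ, ∃ T, ∀ t, T ≤ t → ∀ j ∈ v, j < (pos P t β).length := by
      intro v
      induction v with
      | nil => exact ⟨0, fun t _ j hj => absurd hj List.not_mem_nil⟩
      | cons k v ih =>
        obtain ⟨T, hT⟩ := ih
        obtain ⟨T', hT'⟩ := hlen k
        refine ⟨max T T', fun t ht j hj => ?_⟩
        rw [List.mem_cons] at hj
        rcases hj with rfl | hj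
        · exact hT' t (le_trans (le_max_right _ _) ht)
        · exact hT t (le_trans (le_max_left _ _) ht) j hj
    obtain ⟨T, hT⟩ := h1 v
    refine ⟨max T (max (β + 1) (syS i + 1)), ?_⟩
    have h2 : max (β + 1) (syS i + 1) ≤ max T (max (β + 1) (syS i + 1)) := le_max_right _ _
    have h3 : β + 1 ≤ max T (max (β + 1) (syS i + 1)) := le_trans (le_max_left _ _) h2
    have h4 : syS i + 1 ≤ max T (max (β + 1) (syS i + 1)) := le_trans (le_max_right _ _) h2
    simp only [p, Bool.and_eq_true, decide_eq_true_eq, List.all_eq_true]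
    exact ⟨h3, h4, fun j hj => hT _ (le_max_left _ _) j hj⟩
  have hT : Computable (fun x : ℕ × List ℕ => sInf {n | p x n = true}) := HR.comp_sInf hp hex
  refine ⟨fun i v => evA (asg P (sInf {n | p (i, v) n = true}) i)
    (nm (pos P (sInf {n | p (i, v) n = true}) β) v), ?_, ?_⟩
  · have h1 : Computable (fun x : ℕ × List ℕ => asg P (sInf {n | p x n = true}) x.1) :=
      HR.comp_asg evEx hP hT Computable.fst
    exact HR.comp_evA h1 (HR.comp_nm (hpos hT) Computable.snd)
  · intro i v
    have h1 : sInf {n | p (i, v) n = true} ∈ {n | p (i, v) n = true} := Nat.sInf_mem (hex (i, v))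
    have h2 : p (i, v) (sInf {n | p (i, v) n = true}) = true := h1
    refine ⟨sInf {n | p (i, v) n = true}, ?_, ?_, ?_, rfl⟩
    all_goals
      generalize sInf {n | p (i, v) n = true} = t at h2
      simp only [p, Bool.and_eq_true, decide_eq_true_eq, List.all_eq_true] at h2
    · exact h2.1
    · exact h2.2.1
    · exact h2.2.2

end Pool.Agent.Work.MP_ed0a9a_lc.H
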