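import Mathlib
import Pool.Agent.Work.MP_ed0a9a_lc.H.Bc
import Pool.Agent.Work.MP_ed0a9a_lc.H.Bd
import Pool.Agent.Work.MP_ed0a9a_lc.H.Be
import Pool.Agent.Work.MP_ed0a9a_lc.H.Ld

/-!
# Module `Bf`: a good builder gives a computable copy

PROOF.  `F` from `exists_F` with `d = i + 1`.  `ι : Md i →ₗ[K] (ℕ →₀ K)` the map `Finsupp.lmapDomain K K Subtype.val`
(`Md i = Jt (i + 1) →₀ K`, `Jt (i+1) = {r : ℕ // (r : ℕ∞) < i + 1}`): injective
(`Finsupp.mapDomain_injective Subtype.val_injective`), with range `{v | ∀ s, i + 1 ≤ s → v s = 0}`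
(`Finsupp.mapDomain_notin_range`; conversely `Finsupp.comapDomain` and
`Finsupp.mapDomain_comapDomain`).  So there is a bijection `g : ℕ → Md i` with `ι (g j) = F j`
(injective because `F` is; surjective because every `ι w` is some `F j`).
Let `S` be the structure on `ℕ` with `RelMap r v := holds (Rf P r.1) (List.ofFn (fun j => g (v j)))` (no functions:
`Empty.elim`).  `comp_builder` gives `r` (`hlen` from the second clause of `exists_F`, monotonicity
`pos_len_mono`: to have `n < length` use the name `n`).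
`r i (ofFn v) = true ↔ holds (Rf P i) ((ofFn v).map F)` (`facts`, `List.length_ofFn`)
`= holds (Rf P i) ((ofFn (g ∘ v)).map ι) ↔ holds (Rf P i) (ofFn (g ∘ v))` (`List.map_ofFn`, `holds_map`).
The isomorphism `Md i ≃[sig ar] ℕ` is the inverse of the bijection `g` (`Equiv.ofBijective`); `map_rel'`:
`holds (Rf P r.1) (ofFn (g ∘ g⁻¹ ∘ x)) ↔ holds (Rf P r.1) (ofFn x)`.
-/

namespace Pool.Agent.Work.MP_ed0a9a_lc.H

open FirstOrder FirstOrder.Language

variable {P : Par}

theorem builder_copy (hP : P.Ok) {β : ℕ} {i : ℕ∞} (h : GB P β (i + 1)) :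
    letI := strM ar (Rf P) (Md i); HasCompCopy ar (Md i) := by
  obtain ⟨F, hinj, hfin, hsurj⟩ := exists_F hP h
  set ι : Md i →ₗ[K] (ℕ →₀ K) := Finsupp.lmapDomain K K Subtype.val with hιdef
  have hι : Function.Injective ι := Finsupp.mapDomain_injective Subtype.val_injective
  have hrange : ∀ v : ℕ →₀ K, (∀ s : ℕ, i + 1 ≤ (s : ℕ∞) → v s = 0) → ∃ w, ι w = v := by
    intro v hv
    refine ⟨Finsupp.comapDomain Subtype.val v Subtype.val_injective.injOn, ?_⟩
    refine Finsupp.mapDomain_comapDomain _ Subtype.val_injective v ?_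
    intro s hs
    have hs' : v s ≠ 0 := by simpa using hs
    have : (s : ℕ∞) < i + 1 := by
      by_contra hc
      exact hs' (hv s (not_lt.1 hc))
    exact ⟨⟨s, this⟩, rfl⟩
  have hrange' : ∀ (w : Md i) (s : ℕ), i + 1 ≤ (s : ℕ∞) → ι w s = 0 := by
    intro w s hs
    refine Finsupp.mapDomain_of_notMem_range w s ?_
    rintro ⟨⟨r, hr⟩, rfl⟩
    exact absurd hr (not_lt.2 hs)
  have hex : ∀ j, ∃ w, ι w = F j := fun j => hrange (F j) ((hsurj (F j)).1 ⟨j, rfl⟩)
  choose g hg using hex
  have gbij : Function.Bijective g := by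
    constructor
    · intro j j' hjj
      apply hinj
      rw [← hg j, ← hg j', hjj]
    · intro w
      obtain ⟨j, hj⟩ := (hsurj (ι w)).2 (hrange' w)
      exact ⟨j, hι (by rw [hg j, hj])⟩
  obtain ⟨r, hr, hrs⟩ := comp_builder hP β (fun n => by
    obtain ⟨T, _, hT⟩ := hfin n
    exact ⟨T, fun t ht => (hT t ht).1⟩)
  let e : ℕ ≃ Md i := Equiv.ofBijective g gbij
  have hS : ∀ (k : ℕ) (v : Fin (ar k) → ℕ), r k (List.ofFn v) = true ↔
      holds (Rf P k) (List.ofFn fun j => g (v j)) := by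
    intro k v
    obtain ⟨t, h1, h2, h3, h4⟩ := hrs k (List.ofFn v)
    rw [h4, facts hP h.liv hfin (List.length_ofFn) h1 h2 h3]
    have e1 : (List.ofFn v).map F = (List.ofFn fun j => g (v j)).map ι := by
      rw [List.map_ofFn, List.map_ofFn]
      congr 1
      funext j
      exact (hg (v j)).symm
    rw [e1]
    exact holds_map ι hι _ _
  letI S : (sig ar).Structure ℕ :=
    { funMap := fun f => Empty.elim f
      RelMap := fun r v => holds (Rf P r.1) (List.ofFn fun j => g (v j)) }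
  letI := strM ar (Rf P) (Md i)
  refine ⟨S, r, hr, hS, ⟨?_⟩⟩
  refine
    { toEquiv := e.symm
      map_fun' := fun f => Empty.elim f
      map_rel' := ?_ }
  intro n R x
  change holds (Rf P R.1) (List.ofFn fun j => g (e.symm (x j))) ↔ holds (Rf P R.1) (List.ofFn x)
  have e2 : (fun j => g (e.symm (x j))) = x := by
    funext j
    exact e.apply_symm_apply (x j)
  rw [e2]

end Pool.Agent.Work.MP_ed0a9a_lc.H
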