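import Mathlib
import Pool.Agent.Work.MP_ed0a9a_lc.H.Ic
import Pool.Agent.Work.MP_ed0a9a_lc.H.Id
import Pool.Agent.Work.MP_ed0a9a_lc.H.Bf
import Pool.Agent.Work.MP_ed0a9a_lc.H.Mt
import Pool.Agent.Work.MP_ed0a9a_lc.V.Main

/-!
# Module `Mn`: the main theorem

PROOFS.  `spectrum_of_par`: `mt ar (Rf P) rfl ⟨0, 0, Rf_zero hP⟩ (exists_sc hP)` gives `T` with all the properties;
`V.IsSpectrum X` with `a = ar` (`comp_ar`), `A = Md`, the structures `strM ar (Rf P) (Md i)`.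
`pi3_top` (`⊤ ∈ X`, `Σ⁰₄`): `R' p x y z := R (p.unpair.1 - 1) p.unpair.2 x y z`, `w` from `exists_approx R'`, `P = P1 w`.
For `i : ℕ`: `i ∈ X ↔ ∃ e, InfW w (Nat.pair (i + 1) e)`.  If `i ∈ X`: `P1_builder` (`k = i + 1`), `builder_copy`
(`((i + 1 : ℕ) : ℕ∞) = (i : ℕ∞) + 1`).  If not: `P1_kill`.  `⊤`: `P1_omega`, `⊤ + 1 = ⊤`.
`pi3`: if `⊤ ∈ X`: the previous case with `R i e x y z` not depending on `e`.  If `⊤ ∉ X` and
`{i : ℕ | ↑i ∈ X}` is finite then `X` is finite: `V.main`.  Otherwise: `R' k x y z := R (k - 1) x y z`,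
`w` from `exists_approx`, `P = P2 w`; `i ∈ X ↔ InfW w (i + 1)`; `P2_builder`, `builder_copy`, `P2_kill`; `⊤`:
`P2_kill_omega` (`hD`: infinitely many `i ∈ X`).
-/

namespace Pool.Agent.Work.MP_ed0a9a_lc.H

open FirstOrder FirstOrder.Language

theorem spectrum_of_par {P : Par} (hP : P.Ok) (X : Set ℕ∞)
    (h : ∀ i : ℕ∞, (letI := strM ar (Rf P) (Md i); HasCompCopy ar (Md i)) ↔ i ∈ X) :
    V.IsSpectrum X := by
  obtain ⟨T, h1, h2, h3, h4, h5, h6⟩ :=
    mt ar (Rf P) rfl ⟨0, 0, Rf_zero hP⟩ (exists_sc hP)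
  exact ⟨ar, T, Md, fun i => strM ar (Rf P) (Md i), comp_ar, h1, h2, h3, h4, h5, h6, h⟩

private theorem coe_succ_enat (n : ℕ) : ((n + 1 : ℕ) : ℕ∞) = (n : ℕ∞) + 1 := by
  push_cast
  rfl

theorem sigma4_top (X : Set ℕ∞) (hX : ⊤ ∈ X) (R : ℕ → ℕ → ℕ → ℕ → ℕ → Bool)
    (hR : Computable fun p : ℕ × ℕ × ℕ × ℕ × ℕ => R p.1 p.2.1 p.2.2.1 p.2.2.2.1 p.2.2.2.2)
    (h : ∀ i : ℕ, (i : ℕ∞) ∈ X ↔ ∃ e, ∀ x, ∃ y, ∀ z, R i e x y z = true) :
    V.IsSpectrum X := by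
  have hg : Computable fun p : ℕ × ℕ × ℕ × ℕ =>
      ((p.1.unpair.1 - 1, p.1.unpair.2, p.2.1, p.2.2.1, p.2.2.2) : ℕ × ℕ × ℕ × ℕ × ℕ) := by
    have hu : Primrec fun p : ℕ × ℕ × ℕ × ℕ => p.1.unpair := Primrec.unpair.comp Primrec.fst
    have h1 : Primrec fun p : ℕ × ℕ × ℕ × ℕ => p.1.unpair.1 - 1 :=
      Primrec.nat_sub.comp (Primrec.fst.comp hu) (Primrec.const 1)
    have h2 : Primrec fun p : ℕ × ℕ × ℕ × ℕ => p.1.unpair.2 := Primrec.snd.comp hu
    have h3 : Primrec fun p : ℕ × ℕ × ℕ × ℕ => p.2.1 := Primrec.fst.comp Primrec.snd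
    have h4 : Primrec fun p : ℕ × ℕ × ℕ × ℕ => p.2.2.1 :=
      Primrec.fst.comp (Primrec.snd.comp Primrec.snd)
    have h5 : Primrec fun p : ℕ × ℕ × ℕ × ℕ => p.2.2.2 :=
      Primrec.snd.comp (Primrec.snd.comp Primrec.snd)
    exact (h1.pair (h2.pair (h3.pair (h4.pair h5)))).to_comp
  have hc := hR.comp hg
  dsimp only at hc
  obtain ⟨w, hw1, hw2, hw3⟩ := exists_approx
    (fun p x y z => R (p.unpair.1 - 1) p.unpair.2 x y z) hc
  have hw : Apx w := ⟨hw1, hw2⟩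
  have key : ∀ n : ℕ, (n : ℕ∞) ∈ X ↔ ∃ e, InfW w (Nat.pair (n + 1) e) := by
    intro n
    rw [h n]
    refine exists_congr fun e => ?_
    have h1 := hw3 (Nat.pair (n + 1) e)
    simp only [Nat.unpair_pair, Nat.add_sub_cancel] at h1
    exact h1
  refine spectrum_of_par (P1_ok hw) X fun i => ?_
  induction i using ENat.recTopCoe with
  | top =>
    refine ⟨fun _ => hX, fun _ => ?_⟩
    obtain ⟨β, hβ⟩ := P1_omega hw
    refine builder_copy (P1_ok hw) (β := β) (i := ⊤) ?_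
    rw [top_add]
    exact hβ
  | coe n =>
    constructor
    · intro hc
      by_contra hn
      rw [key n, not_exists] at hn
      exact P1_kill hw n hn hc
    · intro hn
      obtain ⟨e, he⟩ := (key n).1 hn
      obtain ⟨β, hβ⟩ := P1_builder hw (k := n + 1) (by omega) he
      refine builder_copy (P1_ok hw) (β := β) (i := (n : ℕ∞)) ?_
      rw [← coe_succ_enat]
      exact hβ

theorem pi3 (X : Set ℕ∞) (R : ℕ → ℕ → ℕ → ℕ → Bool)
    (hR : Computable fun p : ℕ × ℕ × ℕ × ℕ => R p.1 p.2.1 p.2.2.1 p.2.2.2)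
    (h : ∀ i : ℕ, (i : ℕ∞) ∈ X ↔ ∀ x, ∃ y, ∀ z, R i x y z = true) :
    V.IsSpectrum X := by
  by_cases hT : ⊤ ∈ X
  · have hg : Computable fun p : ℕ × ℕ × ℕ × ℕ × ℕ =>
        ((p.1, p.2.2.1, p.2.2.2.1, p.2.2.2.2) : ℕ × ℕ × ℕ × ℕ) := by
      have h1 : Primrec fun p : ℕ × ℕ × ℕ × ℕ × ℕ => p.1 := Primrec.fst
      have h2 : Primrec fun p : ℕ × ℕ × ℕ × ℕ × ℕ => p.2.2 := Primrec.snd.comp Primrec.snd
      have h3 : Primrec fun p : ℕ × ℕ × ℕ × ℕ × ℕ => p.2.2.1 := Primrec.fst.comp h2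
      have h4 : Primrec fun p : ℕ × ℕ × ℕ × ℕ × ℕ => p.2.2.2.1 :=
        Primrec.fst.comp (Primrec.snd.comp h2)
      have h5 : Primrec fun p : ℕ × ℕ × ℕ × ℕ × ℕ => p.2.2.2.2 :=
        Primrec.snd.comp (Primrec.snd.comp h2)
      exact (h1.pair (h3.pair (h4.pair h5))).to_comp
    have hc := hR.comp hg
    dsimp only at hc
    have h' : ∀ i : ℕ, (i : ℕ∞) ∈ X ↔ ∃ _e : ℕ, ∀ x, ∃ y, ∀ z, R i x y z = true := by
      intro i
      rw [h i]
      exact ⟨fun h1 => ⟨0, h1⟩, fun ⟨_, h1⟩ => h1⟩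
    exact sigma4_top X hT (fun i _ x y z => R i x y z) hc h'
  · by_cases hfin : {i : ℕ | (i : ℕ∞) ∈ X}.Finite
    · refine V.main X (Or.inl ((hfin.image (fun i : ℕ => (i : ℕ∞))).subset ?_))
      intro x hx
      have hx' : x ≠ ⊤ := by
        rintro rfl
        exact hT hx
      obtain ⟨n, rfl⟩ := ENat.ne_top_iff_exists.1 hx'
      exact ⟨n, hx, rfl⟩
    · have hg : Computable fun p : ℕ × ℕ × ℕ × ℕ =>
          ((p.1 - 1, p.2.1, p.2.2.1, p.2.2.2) : ℕ × ℕ × ℕ × ℕ) := by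
        have h1 : Primrec fun p : ℕ × ℕ × ℕ × ℕ => p.1 - 1 :=
          Primrec.nat_sub.comp Primrec.fst (Primrec.const 1)
        have h3 : Primrec fun p : ℕ × ℕ × ℕ × ℕ => p.2.1 := Primrec.fst.comp Primrec.snd
        have h4 : Primrec fun p : ℕ × ℕ × ℕ × ℕ => p.2.2.1 :=
          Primrec.fst.comp (Primrec.snd.comp Primrec.snd)
        have h5 : Primrec fun p : ℕ × ℕ × ℕ × ℕ => p.2.2.2 :=
          Primrec.snd.comp (Primrec.snd.comp Primrec.snd)
        exact (h1.pair (h3.pair (h4.pair h5))).to_comp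
      have hc := hR.comp hg
      dsimp only at hc
      obtain ⟨w, hw1, hw2, hw3⟩ := exists_approx (fun k x y z => R (k - 1) x y z) hc
      have hw : Apx w := ⟨hw1, hw2⟩
      have key : ∀ n : ℕ, (n : ℕ∞) ∈ X ↔ InfW w (n + 1) := by
        intro n
        rw [h n]
        have h1 := hw3 (n + 1)
        simp only [Nat.add_sub_cancel] at h1
        exact h1
      have hD : ∀ k, ∃ k', k ≤ k' ∧ InfW w k' := by
        intro k
        obtain ⟨m, hm, hkm⟩ := Set.Infinite.exists_gt hfin k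
        exact ⟨m + 1, by omega, (key m).1 hm⟩
      refine spectrum_of_par (P2_ok hw) X fun i => ?_
      induction i using ENat.recTopCoe with
      | top => exact ⟨fun hc => absurd hc (P2_kill_omega hw hD), fun h1 => absurd h1 hT⟩
      | coe n =>
        constructor
        · intro hc
          by_contra hn
          rw [key n] at hn
          exact P2_kill hw n hn hc
        · intro hn
          obtain ⟨β, hβ⟩ := P2_builder hw (k := n + 1) (by omega) ((key n).1 hn)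
          refine builder_copy (P2_ok hw) (β := β) (i := (n : ℕ∞)) ?_
          rw [← coe_succ_enat]
          exact hβ

end Pool.Agent.Work.MP_ed0a9a_lc.H
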