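import Mathlib
import Pool.Agent.Work.MP_ed0a9a_lc.H.Jb
import Pool.Agent.Work.MP_ed0a9a_lc.H.Mn

/-!
# Module `Jn`: the final theorem

Every `X ⊆ ω ∪ {ω}` with `X ∩ ω` in `Σ⁰₄` is a spectrum, if `ω ∈ X`, or `X ∩ ω` is finite or has an
infinite `Π⁰₃` subset.
-/

namespace Pool.Agent.Work.MP_ed0a9a_lc.H

open FirstOrder FirstOrder.Language

/-- `S` is a `Σ⁰₄` set of natural numbers. -/
def Sigma4 (S : Set ℕ) : Prop :=
  ∃ R : ℕ → ℕ → ℕ → ℕ → ℕ → Bool,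
    (Computable fun p : ℕ × ℕ × ℕ × ℕ × ℕ => R p.1 p.2.1 p.2.2.1 p.2.2.2.1 p.2.2.2.2) ∧
      ∀ i, i ∈ S ↔ ∃ e, ∀ x, ∃ y, ∀ z, R i e x y z = true

/-- `S` is a `Π⁰₃` set of natural numbers. -/
def Pi3 (S : Set ℕ) : Prop :=
  ∃ R : ℕ → ℕ → ℕ → ℕ → Bool,
    (Computable fun p : ℕ × ℕ × ℕ × ℕ => R p.1 p.2.1 p.2.2.1 p.2.2.2) ∧
      ∀ i, i ∈ S ↔ ∀ x, ∃ y, ∀ z, R i x y z = true

private theorem coe_succ' (n : ℕ) : ((n + 1 : ℕ) : ℕ∞) = (n : ℕ∞) + 1 := by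
  push_cast
  rfl

private theorem apx4 {S : Set ℕ} (hS : Sigma4 S) : ∃ w, Apx w ∧
    ∀ n, n ∈ S ↔ ∃ e, InfW w (Nat.pair (n + 1) e) := by
  obtain ⟨R, hR, h⟩ := hS
  have hg : Computable fun p : ℕ × ℕ × ℕ × ℕ =>
      ((p.1.unpair.1 - 1, p.1.unpair.2, p.2.1, p.2.2.1, p.2.2.2) : ℕ × ℕ × ℕ × ℕ × ℕ) := by
    have hu : Primrec fun p : ℕ × ℕ × ℕ × ℕ => p.1.unpair := Primrec.unpair.comp Primrec.fst
    have h1 : Primrec fun p : ℕ × ℕ × ℕ × ℕ => p.1.unpair.1 - 1 :=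
      Primrec.nat_sub.comp (Primrec.fst.comp hu) (Primrec.const 1)
    have h2 : Primrec fun p : ℕ × ℕ × ℕ × ℕ => p.1.unpair.2 := Primrec.snd.comp hu
    have h3 : Primrec fun p : ℕ × ℕ × ℕ × ℕ => p.2.1 := Primrec.fst.comp Primrec.snd
    have h4 : Primrec fun p : ℕ × ℕ × ℕ × ℕ => p.2.2.1 :=
      Primrec.fst.comp (Primrec.snd.comp Primrec.snd)
    have h5 : Primrec fun p : ℕ × ℕ × ℕ × ℕ => p.2.2.2 :=
      Primrec.snd.comp (Primrec.snd.comp Primrec.snd)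
    exact (h1.pair (h2.pair (h3.pair (h4.pair h5)))).to_comp
  have hc := hR.comp hg
  dsimp only at hc
  obtain ⟨w, hw1, hw2, hw3⟩ := exists_approx
    (fun p x y z => R (p.unpair.1 - 1) p.unpair.2 x y z) hc
  refine ⟨w, ⟨hw1, hw2⟩, fun n => ?_⟩
  rw [h n]
  refine exists_congr fun e => ?_
  have h1 := hw3 (Nat.pair (n + 1) e)
  simp only [Nat.unpair_pair, Nat.add_sub_cancel] at h1
  exact h1

private theorem apx3 {S : Set ℕ} (hS : Pi3 S) : ∃ w, Apx w ∧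
    ∀ n, n ∈ S ↔ InfW w (n + 1) := by
  obtain ⟨R, hR, h⟩ := hS
  have hg : Computable fun p : ℕ × ℕ × ℕ × ℕ =>
      ((p.1 - 1, p.2.1, p.2.2.1, p.2.2.2) : ℕ × ℕ × ℕ × ℕ) := by
    have h1 : Primrec fun p : ℕ × ℕ × ℕ × ℕ => p.1 - 1 :=
      Primrec.nat_sub.comp Primrec.fst (Primrec.const 1)
    have h3 : Primrec fun p : ℕ × ℕ × ℕ × ℕ => p.2.1 := Primrec.fst.comp Primrec.snd
    have h4 : Primrec fun p : ℕ × ℕ × ℕ × ℕ => p.2.2.1 :=
      Primrec.fst.comp (Primrec.snd.comp Primrec.snd)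
    have h5 : Primrec fun p : ℕ × ℕ × ℕ × ℕ => p.2.2.2 :=
      Primrec.snd.comp (Primrec.snd.comp Primrec.snd)
    exact (h1.pair (h3.pair (h4.pair h5))).to_comp
  have hc := hR.comp hg
  dsimp only at hc
  obtain ⟨w, hw1, hw2, hw3⟩ := exists_approx (fun k x y z => R (k - 1) x y z) hc
  refine ⟨w, ⟨hw1, hw2⟩, fun n => ?_⟩
  rw [h n]
  have h1 := hw3 (n + 1)
  simp only [Nat.add_sub_cancel] at h1
  exact h1

private theorem apx_false : Apx fun _ _ _ => false :=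
  ⟨Computable.const false, fun _ _ => ⟨0, fun _ _ => rfl⟩⟩

theorem final (X : Set ℕ∞) (hX : Sigma4 {i : ℕ | (i : ℕ∞) ∈ X})
    (h : ⊤ ∈ X ∨ {i : ℕ | (i : ℕ∞) ∈ X}.Finite ∨
      ∃ Y ⊆ {i : ℕ | (i : ℕ∞) ∈ X}, Y.Infinite ∧ Pi3 Y) : V.IsSpectrum X := by
  obtain ⟨w, hw, key⟩ := apx4 hX
  by_cases hT : ⊤ ∈ X
  · refine spectrum_of_par (P3_ok hw apx_false) X fun i => ?_
    induction i using ENat.recTopCoe with
    | top =>
      refine ⟨fun _ => hT, fun _ => ?_⟩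
      obtain ⟨β, hβ⟩ := P3_omega (w := w) (w0 := fun _ _ _ => false) fun _ _ _ => rfl
      refine builder_copy (P3_ok hw apx_false) (β := β) (i := ⊤) ?_
      rw [top_add]
      exact hβ
    | coe n =>
      constructor
      · intro hc
        by_contra hn
        have hn' : ∀ e, ¬ InfW w (Nat.pair (n + 1) e) := fun e he => hn ((key n).2 ⟨e, he⟩)
        refine P3_kill hw apx_false n hn' ?_ hc
        intro h1
        obtain ⟨i, -, T, hT'⟩ := h1 0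
        exact Bool.noConfusion (hT' T le_rfl)
      · intro hn
        obtain ⟨e, he⟩ := (key n).1 hn
        obtain ⟨β, hβ⟩ := P3_builder hw apx_false he
        refine builder_copy (P3_ok hw apx_false) (β := β) (i := (n : ℕ∞)) ?_
        rw [← coe_succ']
        exact hβ
  · rcases h with h | hfin | ⟨Y, hYX, hY, hY3⟩
    · exact absurd h hT
    · refine V.main X (Or.inl ((hfin.image (fun i : ℕ => (i : ℕ∞))).subset ?_))
      intro x hx
      have hx' : x ≠ ⊤ := by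
        rintro rfl
        exact hT hx
      obtain ⟨n, rfl⟩ := ENat.ne_top_iff_exists.1 hx'
      exact ⟨n, hx, rfl⟩
    · obtain ⟨w0, hw0, key0⟩ := apx3 hY3
      have hD : ∀ k, ∃ k', k ≤ k' ∧ InfW w0 k' := by
        intro k
        obtain ⟨m, hm, hkm⟩ := Set.Infinite.exists_gt hY k
        exact ⟨m + 1, by omega, (key0 m).1 hm⟩
      refine spectrum_of_par (P3_ok hw hw0) X fun i => ?_
      induction i using ENat.recTopCoe with
      | top => exact ⟨fun hc => absurd hc (P3_kill_omega hw hw0 hD), fun h1 => absurd h1 hT⟩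
      | coe n =>
        constructor
        · intro hc
          by_contra hn
          have hn' : ∀ e, ¬ InfW w (Nat.pair (n + 1) e) := fun e he => hn ((key n).2 ⟨e, he⟩)
          refine P3_kill hw hw0 n hn' ?_ hc
          intro h1
          exact hn (hYX ((key0 n).2 h1))
        · intro hn
          obtain ⟨e, he⟩ := (key n).1 hn
          obtain ⟨β, hβ⟩ := P3_builder hw hw0 he
          refine builder_copy (P3_ok hw hw0) (β := β) (i := (n : ℕ∞)) ?_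
          rw [← coe_succ']
          exact hβ

end Pool.Agent.Work.MP_ed0a9a_lc.H
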