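import Mathlib

/-!
# Module `Cmb`: combinators for computable functions on lists
-/

namespace Pool.Agent.Work.MP_ed0a9a_lc.H.HR

open Computable

variable {α β γ σ : Type} [Primcodable α] [Primcodable β] [Primcodable γ] [Primcodable σ]

theorem comp_foldl {f : α → List β} {g : α → σ} {h : α → σ × β → σ}
    (hf : Computable f) (hg : Computable g) (hh : Computable₂ h) :
    Computable (fun a => (f a).foldl (fun s b => h a (s, b)) (g a)) := by
  have h1 : Computable (fun a => (Nat.rec (g a)
      (fun y IH => ((f a)[y]?).casesOn IH (fun b => h a (IH, b))) (f a).length : σ)) := by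
    refine Computable.nat_rec (f := fun a => (f a).length) (g := g)
      (h := fun a (p : ℕ × σ) => ((f a)[p.1]?).casesOn p.2 (fun b => h a (p.2, b)))
      (Computable.list_length.comp hf) hg ?_
    refine Computable.option_casesOn (o := fun x : α × ℕ × σ => (f x.1)[x.2.1]?)
      (f := fun x : α × ℕ × σ => x.2.2) (g := fun (x : α × ℕ × σ) b => h x.1 (x.2.2, b)) ?_ ?_ ?_
    · exact Computable.list_getElem?.comp (hf.comp Computable.fst)
        (Computable.fst.comp Computable.snd)
    · exact Computable.snd.comp Computable.snd
    · exact hh.comp (Computable.fst.comp Computable.fst)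
        (Computable.pair (Computable.snd.comp (Computable.snd.comp Computable.fst))
          Computable.snd)
  refine h1.of_eq fun a => ?_
  have h2 : ∀ k ≤ (f a).length, (Nat.rec (g a)
      (fun y IH => ((f a)[y]?).casesOn IH (fun b => h a (IH, b))) k : σ) =
      ((f a).take k).foldl (fun s b => h a (s, b)) (g a) := by
    intro k
    induction k with
    | zero => intro _; simp
    | succ k ih =>
      intro hk
      have h3 := ih (by omega)
      have h4 : (Nat.rec (g a)
        (fun y IH => ((f a)[y]?).casesOn IH (fun b => h a (IH, b))) (k + 1) : σ) =
        Option.casesOn (motive := fun _ => σ) ((f a)[k]?) (Nat.rec (g a)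
        (fun y IH => ((f a)[y]?).casesOn IH (fun b => h a (IH, b))) k : σ)
        (fun b => h a ((Nat.rec (g a)
        (fun y IH => ((f a)[y]?).casesOn IH (fun b => h a (IH, b))) k : σ), b)) := rfl
      rw [h4]
      rw [h3, List.take_succ_eq_append_getElem (by omega), List.foldl_append,
        List.getElem?_eq_getElem (by omega)]
      rfl
  rw [h2 _ le_rfl, List.take_length]

theorem comp_map {f : α → List β} {g : α → β → σ} (hf : Computable f) (hg : Computable₂ g) :
    Computable (fun a => (f a).map (g a)) := by
  have h1 := comp_foldl (f := f) (g := fun _ => ([] : List σ))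
    (h := fun a (p : List σ × β) => p.1 ++ [g a p.2]) hf (Computable.const []) (by
      refine Computable.list_append.comp (Computable.fst.comp Computable.snd) ?_
      exact Computable.list_cons.comp
        (hg.comp Computable.fst (Computable.snd.comp Computable.snd)) (Computable.const []))
  refine h1.of_eq fun a => ?_
  have h2 : ∀ (l : List β) (s : List σ),
      l.foldl (fun s b => s ++ [g a b]) s = s ++ l.map (g a) := by
    intro l
    induction l with
    | nil => intro s; simp
    | cons b l ih => intro s; rw [List.foldl_cons, ih, List.map_cons]; simp
  exact (h2 _ _).trans (List.nil_append _)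

theorem comp_flatMap {f : α → List β} {g : α → β → List σ} (hf : Computable f)
    (hg : Computable₂ g) : Computable (fun a => (f a).flatMap (g a)) :=
  Primrec.list_flatten.to_comp.comp (comp_map hf hg)

theorem comp_foldr_max {f : α → List ℕ} (hf : Computable f) :
    Computable (fun a => (f a).foldr max 0) := by
  have h : Primrec (fun l : List ℕ => l.foldr (fun x y => max x y) 0) :=
    Primrec.list_foldr (h := fun _ p => max p.1 p.2) Primrec.id (Primrec.const 0)
      (Primrec.nat_max.comp (Primrec.fst.comp Primrec.snd) (Primrec.snd.comp Primrec.snd)).to₂
  exact h.to_comp.comp hf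

theorem comp_and {p q : α → Bool} (hp : Computable p) (hq : Computable q) :
    Computable (fun a => p a && q a) := Primrec.and.to_comp.comp hp hq

theorem comp_or {p q : α → Bool} (hp : Computable p) (hq : Computable q) :
    Computable (fun a => p a || q a) := Primrec.or.to_comp.comp hp hq

theorem comp_not {p : α → Bool} (hp : Computable p) : Computable (fun a => !p a) :=
  Primrec.not.to_comp.comp hp

theorem comp_beq {f g : α → Bool} (hf : Computable f) (hg : Computable g) :
    Computable (fun a => f a == g a) := by
  have h : Primrec₂ (fun a b : Bool => a == b) := Primrec.dom_bool₂ _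
  exact h.to_comp.comp hf hg

theorem comp_deq [DecidableEq β] {f g : α → β} (hf : Computable f) (hg : Computable g) :
    Computable (fun a => decide (f a = g a)) :=
  (Primrec.eq (α := β)).decide.to_comp.comp hf hg

theorem comp_dne [DecidableEq β] {f g : α → β} (hf : Computable f) (hg : Computable g) :
    Computable (fun a => decide (f a ≠ g a)) := by
  refine (comp_not (comp_deq hf hg)).of_eq fun a => ?_
  simp

theorem comp_dlt {f g : α → ℕ} (hf : Computable f) (hg : Computable g) :
    Computable (fun a => decide (f a < g a)) := Primrec.nat_lt.decide.to_comp.comp hf hg

theorem comp_dle {f g : α → ℕ} (hf : Computable f) (hg : Computable g) :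
    Computable (fun a => decide (f a ≤ g a)) := Primrec.nat_le.decide.to_comp.comp hf hg

theorem comp_all {f : α → List β} {p : α → β → Bool} (hf : Computable f)
    (hp : Computable₂ p) : Computable (fun a => (f a).all (p a)) := by
  have h1 := comp_foldl (f := f) (g := fun _ => true)
    (h := fun a (x : Bool × β) => x.1 && p a x.2) hf (Computable.const true)
    (comp_and (Computable.fst.comp Computable.snd)
      (hp.comp Computable.fst (Computable.snd.comp Computable.snd)))
  refine h1.of_eq fun a => ?_
  have h2 : ∀ (l : List β) (s : Bool), l.foldl (fun s b => s && p a b) s = (s && l.all (p a)) := by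
    intro l
    induction l with
    | nil => intro s; simp
    | cons b l ih => intro s; rw [List.foldl_cons, ih, List.all_cons, Bool.and_assoc]
  exact (h2 _ _).trans (Bool.true_and _)

theorem comp_any {f : α → List β} {p : α → β → Bool} (hf : Computable f)
    (hp : Computable₂ p) : Computable (fun a => (f a).any (p a)) := by
  have h1 := comp_foldl (f := f) (g := fun _ => false)
    (h := fun a (x : Bool × β) => x.1 || p a x.2) hf (Computable.const false)
    (comp_or (Computable.fst.comp Computable.snd)
      (hp.comp Computable.fst (Computable.snd.comp Computable.snd)))
  refine h1.of_eq fun a => ?_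
  have h2 : ∀ (l : List β) (s : Bool), l.foldl (fun s b => s || p a b) s = (s || l.any (p a)) := by
    intro l
    induction l with
    | nil => intro s; simp
    | cons b l ih => intro s; rw [List.foldl_cons, ih, List.any_cons, Bool.or_assoc]
  exact (h2 _ _).trans (Bool.false_or _)

theorem comp_cond {p : α → Bool} {f g : α → σ} (hp : Computable p) (hf : Computable f)
    (hg : Computable g) : Computable (fun a => if p a = true then f a else g a) := by
  refine (Computable.cond hp hf hg).of_eq fun a => ?_
  cases p a <;> rfl

theorem comp_ite {p : α → Prop} [DecidablePred p] {f g : α → σ}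
    (hp : Computable (fun a => decide (p a))) (hf : Computable f)
    (hg : Computable g) : Computable (fun a => if p a then f a else g a) := by
  refine (Computable.cond hp hf hg).of_eq fun a => ?_
  by_cases h : p a <;> simp [h]

theorem comp_dand {p q : α → Prop} [DecidablePred p] [DecidablePred q]
    (hp : Computable (fun a => decide (p a))) (hq : Computable (fun a => decide (q a))) :
    Computable (fun a => decide (p a ∧ q a)) := by
  refine (comp_and hp hq).of_eq fun a => ?_
  exact (Bool.decide_and _ _).symm

theorem comp_filter {f : α → List β} {p : α → β → Bool} (hf : Computable f)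
    (hp : Computable₂ p) : Computable (fun a => (f a).filter (p a)) := by
  have h1 := comp_flatMap (f := f) (g := fun a b => if p a b = true then [b] else []) hf
    (comp_cond hp (Computable.list_cons.comp Computable.snd (Computable.const []))
      (Computable.const []))
  refine h1.of_eq fun a => ?_
  induction f a with
  | nil => rfl
  | cons b l ih =>
    rw [List.flatMap_cons, ih, List.filter_cons]
    split_ifs <;> simp

theorem comp_find {f : α → List β} {p : α → β → Bool} (hf : Computable f)
    (hp : Computable₂ p) : Computable (fun a => (f a).find? (p a)) := by
  have h1 := Primrec.list_head?.to_comp.comp (comp_filter hf hp)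
  refine h1.of_eq fun a => ?_
  exact List.head?_filter

theorem comp_filterMap {f : α → List β} {g : α → β → Option σ} (hf : Computable f)
    (hg : Computable₂ g) : Computable (fun a => (f a).filterMap (g a)) := by
  have h1 := comp_flatMap (f := f) (g := fun a b => (g a b).toList) hf
    (Primrec.optionToList.to_comp.comp hg)
  refine h1.of_eq fun a => ?_
  induction f a with
  | nil => rfl
  | cons b l ih =>
    rw [List.flatMap_cons, ih, List.filterMap_cons]
    cases g a b <;> simp

theorem comp_mem [DecidableEq β] {f : α → β} {l : α → List β} (hf : Computable f)
    (hl : Computable l) : Computable (fun a => decide (f a ∈ l a)) := by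
  have h1 := comp_any (f := l) (p := fun a b => decide (b = f a)) hl
    (comp_deq Computable.snd (hf.comp Computable.fst))
  refine h1.of_eq fun a => ?_
  rw [Bool.eq_iff_iff, List.any_eq_true, decide_eq_true_eq]
  simp

theorem comp_nmem [DecidableEq β] {f : α → β} {l : α → List β} (hf : Computable f)
    (hl : Computable l) : Computable (fun a => decide (f a ∉ l a)) := by
  refine (comp_not (comp_mem hf hl)).of_eq fun a => ?_
  simp

theorem comp_getD {l : α → List β} {n : α → ℕ} (d : β) (hl : Computable l)
    (hn : Computable n) : Computable (fun a => (l a).getD (n a) d) :=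
  (Primrec.list_getD d).to_comp.comp hl hn

theorem comp_range {n : α → ℕ} (hn : Computable n) : Computable (fun a => List.range (n a)) :=
  Primrec.list_range.to_comp.comp hn

theorem comp_length {l : α → List β} (hl : Computable l) :
    Computable (fun a => (l a).length) := Computable.list_length.comp hl

theorem comp_take {n : α → ℕ} {l : α → List β} (hn : Computable n) (hl : Computable l) :
    Computable (fun a => (l a).take (n a)) := Primrec.list_take.to_comp.comp hn hl

theorem comp_drop {n : α → ℕ} {l : α → List β} (hn : Computable n) (hl : Computable l) :
    Computable (fun a => (l a).drop (n a)) := Primrec.list_drop.to_comp.comp hn hl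

theorem comp_append {l l' : α → List β} (hl : Computable l) (hl' : Computable l') :
    Computable (fun a => l a ++ l' a) := Computable.list_append.comp hl hl'

theorem comp_cons {b : α → β} {l : α → List β} (hb : Computable b) (hl : Computable l) :
    Computable (fun a => b a :: l a) := Computable.list_cons.comp hb hl

theorem comp_sing {b : α → β} (hb : Computable b) : Computable (fun a => [b a]) :=
  comp_cons hb (Computable.const [])

theorem comp_lookup [DecidableEq β] {b : α → β} {l : α → List (β × γ)} (hb : Computable b)
    (hl : Computable l) : Computable (fun a => (l a).lookup (b a)) :=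
  Primrec.listLookup.to_comp.comp hb hl

theorem comp_isEmpty {l : α → List β} (hl : Computable l) :
    Computable (fun a => (l a).isEmpty) := by
  refine (comp_deq (comp_length hl) (Computable.const 0)).of_eq fun a => ?_
  rw [Bool.eq_iff_iff, decide_eq_true_eq, List.isEmpty_iff, List.length_eq_zero_iff]

theorem comp_oany {o : α → Option β} {p : α → β → Bool} (ho : Computable o)
    (hp : Computable₂ p) : Computable (fun a => (o a).any (p a)) := by
  refine (Computable.option_casesOn ho (Computable.const false) hp).of_eq fun a => ?_
  cases o a <;> rfl

theorem comp_ocase {o : α → Option β} {f : α → σ} {g : α → β → σ} (ho : Computable o)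
    (hf : Computable f) (hg : Computable₂ g) :
    Computable (fun a => match o a with | some b => g a b | none => f a) := by
  refine (Computable.option_casesOn ho hf hg).of_eq fun a => ?_
  cases o a <;> rfl

theorem comp_add {f g : α → ℕ} (hf : Computable f) (hg : Computable g) :
    Computable (fun a => f a + g a) := Primrec.nat_add.to_comp.comp hf hg

theorem comp_sub {f g : α → ℕ} (hf : Computable f) (hg : Computable g) :
    Computable (fun a => f a - g a) := Primrec.nat_sub.to_comp.comp hf hg

theorem comp_mul {f g : α → ℕ} (hf : Computable f) (hg : Computable g) :
    Computable (fun a => f a * g a) := Primrec.nat_mul.to_comp.comp hf hg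

theorem comp_min {f g : α → ℕ} (hf : Computable f) (hg : Computable g) :
    Computable (fun a => min (f a) (g a)) := Primrec.nat_min.to_comp.comp hf hg

/-- Total unbounded search. -/
theorem comp_sInf {p : α → ℕ → Bool} (hp : Computable₂ p) (h : ∀ a, ∃ n, p a n = true) :
    Computable (fun a => sInf {n | p a n = true}) := by
  have h1 : Partrec (fun a => Nat.rfind (fun n => Part.some (p a n))) :=
    Partrec.rfind (p := fun a n => Part.some (p a n)) hp.partrec₂
  refine h1.of_eq_tot fun a => ?_
  rw [Nat.mem_rfind]
  constructor
  · have h2 : sInf {n | p a n = true} ∈ {n | p a n = true} := Nat.sInf_mem (h a)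
    have h3 : p a (sInf {n | p a n = true}) = true := h2
    rw [h3]
    exact Part.mem_some _
  · intro m hm
    have h2 : m ∉ {n | p a n = true} := Nat.notMem_of_lt_sInf hm
    have h3 : p a m = false := by
      have h4 : ¬ p a m = true := h2
      simpa using h4
    rw [h3]
    exact Part.mem_some _

end Pool.Agent.Work.MP_ed0a9a_lc.H.HR
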