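import Pool.Agent.Work.MP_ed0a9a_lc.H.RawChk
import Pool.Agent.Work.MP_ed0a9a_lc.H.Cmb

/-!
# Module `Cmp1`: computability of the tests of events and of the interpretations
-/

namespace Pool.Agent.Work.MP_ed0a9a_lc.H.HR

open Computable

variable {α : Type} [Primcodable α]

theorem comp_q {n : α → ℕ} (hn : Computable n) : Computable (fun a => q (n a)) :=
  primrec_q.to_comp.comp hn

theorem comp_qpow {n k : α → ℕ} (hn : Computable n) (hk : Computable k) :
    Computable (fun a => q (n a) ^ (k a)) := primrec_qpow.to_comp.comp hn hk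

theorem comp_cl {b L : α → ℕ} (hb : Computable b) (hL : Computable L) :
    Computable (fun a => cl (b a) (L a)) := by
  refine (primrec_allL.to_comp.comp hb hL).of_eq fun a => ?_
  rw [cl_eq]

theorem comp_tups {b L : α → ℕ} (hb : Computable b) (hL : Computable L) :
    Computable (fun a => tups (b a) (L a)) := by
  unfold tups
  refine comp_flatMap (comp_range (Computable.succ.comp hL)) ?_
  exact comp_cl (hb.comp fst) snd

theorem comp_nm {p : α → List Vec} {I : α → List ℕ} (hp : Computable p) (hI : Computable I) :
    Computable (fun a => nm (p a) (I a)) := by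
  unfold nm
  refine comp_map hI ?_
  exact comp_getD [] (hp.comp fst) snd

theorem comp_vadd {u v : α → Vec} (hu : Computable u) (hv : Computable v) :
    Computable (fun a => vadd (u a) (v a)) := by
  unfold vadd
  refine comp_map (comp_range (Primrec.nat_max.to_comp.comp (comp_length hu)
    (comp_length hv))) ?_
  exact primrec_xor.to_comp.comp (comp_getD 0 (hu.comp fst) snd) (comp_getD 0 (hv.comp fst) snd)

theorem comp_vsm {c : α → ℕ} {v : α → Vec} (hc : Computable c) (hv : Computable v) :
    Computable (fun a => vsm (c a) (v a)) := by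
  unfold vsm
  refine comp_map hv ?_
  exact primrec_kmul.to_comp.comp (hc.comp fst) snd

theorem comp_vz {v : α → Vec} (hv : Computable v) : Computable (fun a => vz (v a)) := by
  unfold vz
  refine comp_all hv ?_
  exact comp_deq snd (const 0)

theorem comp_veq {u v : α → Vec} (hu : Computable u) (hv : Computable v) :
    Computable (fun a => veq (u a) (v a)) := comp_vz (comp_vadd hu hv)

theorem comp_sameV {n : α → ℕ} {z z' : α → List Vec} (hn : Computable n) (hz : Computable z)
    (hz' : Computable z') : Computable (fun a => sameV (n a) (z a) (z' a)) := by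
  classical
  have h := primrec_same.decide.to_comp.comp (pair hn (pair hz hz'))
  refine h.of_eq fun a => ?_
  rw [Bool.eq_iff_iff, sameV_iff, decide_eq_true_eq]

theorem comp_indV {n : α → ℕ} {z : α → List Vec} (hn : Computable n) (hz : Computable z) :
    Computable (fun a => indV (n a) (z a)) := by
  classical
  have h := primrec_ind.decide.to_comp.comp (pair hn hz)
  refine h.of_eq fun a => ?_
  rw [Bool.eq_iff_iff, indV_iff, decide_eq_true_eq]

theorem comp_nrelV {n : α → ℕ} {z : α → List Vec} (hn : Computable n) (hz : Computable z) :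
    Computable (fun a => nrelV (n a) (z a)) := by
  have h := primrec_nrel.to_comp.comp hn hz
  refine h.of_eq fun a => ?_
  rw [nrelV_eq]

theorem comp_evA {A : α → Asg} {z : α → List Vec} (hA : Computable A) (hz : Computable z) :
    Computable (fun a => evA (A a) (z a)) := by
  classical
  have h := primrec_holds.decide.to_comp.comp (pair hA hz)
  refine h.of_eq fun a => ?_
  rw [Bool.eq_iff_iff, evA_iff, decide_eq_true_eq]

theorem comp_core {n ρ : α → ℕ} {v : α → Vec} (hn : Computable n) (hρ : Computable ρ)
    (hv : Computable v) : Computable (fun a => core (n a) (ρ a) (v a)) := by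
  unfold core
  refine comp_all (comp_range (comp_length hv)) ?_
  refine comp_and (comp_dlt (comp_getD 0 (hv.comp fst) snd) (comp_q (hn.comp fst))) ?_
  exact comp_or (comp_dlt snd (hρ.comp fst)) (comp_deq (comp_getD 0 (hv.comp fst) snd) (const 0))

theorem comp_chk1 {n ρ N : α → ℕ} {P G : α → List Vec} (hn : Computable n)
    (hρ : Computable ρ) (hN : Computable N) (hP : Computable P) (hG : Computable G) :
    Computable (fun a => chk1 (n a) (ρ a) (N a) (P a) (G a)) := by
  unfold chk1
  refine comp_and (comp_deq (comp_length hG) (comp_length hP))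
    (comp_and (comp_sameV hn hP hG) (comp_and ?_ (comp_and ?_ ?_)))
  · refine comp_all hG ?_
    refine comp_and (comp_dle (comp_length snd) (hρ.comp fst)) ?_
    refine comp_all snd ?_
    exact comp_dlt snd (comp_q (hN.comp (fst.comp fst)))
  · refine comp_all (comp_range (comp_length hP)) ?_
    refine comp_or (comp_not (comp_core (hn.comp fst) (hρ.comp fst)
      (comp_getD [] (hP.comp fst) snd))) ?_
    exact comp_veq (comp_getD [] (hG.comp fst) snd) (comp_getD [] (hP.comp fst) snd)
  · refine comp_all (comp_tups (comp_length hP) (comp_length hP)) ?_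
    refine comp_or (comp_not (comp_indV (hn.comp fst) (comp_nm (hP.comp fst) snd))) ?_
    refine comp_deq (comp_nrelV (hN.comp fst) (comp_nm (hG.comp fst) snd)) ?_
    exact comp_qpow (hN.comp fst) (comp_sub (comp_length snd) (hρ.comp fst))

theorem comp_chk2 {n m N β β' : α → ℕ} {P G P' G' : α → List Vec} (hn : Computable n)
    (hm : Computable m) (hN : Computable N) (hβ : Computable β) (hβ' : Computable β')
    (hP : Computable P) (hG : Computable G) (hP' : Computable P') (hG' : Computable G') :
    Computable (fun a => chk2 (n a) (m a) (N a) (β a) (β' a) (P a) (G a) (P' a) (G' a)) := by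
  unfold chk2
  refine comp_all (comp_tups (comp_length hP) (comp_length hP)) ?_
  refine comp_all (comp_cl (comp_length (hP'.comp fst)) (comp_length snd)) ?_
  have hI : Computable (fun x : (α × List ℕ) × List ℕ => x.1.2) := snd.comp fst
  have hI' : Computable (fun x : (α × List ℕ) × List ℕ => x.2) := snd
  have ha : Computable (fun x : (α × List ℕ) × List ℕ => x.1.1) := fst.comp fst
  refine comp_or (comp_not (comp_and (comp_dle (comp_add (hm.comp ha) (const 2))
    (comp_length hI)) (comp_and (comp_indV (hn.comp ha) (comp_nm (hP.comp ha) hI))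
    (comp_and (comp_indV (hn.comp ha) (comp_nm (hP'.comp ha) hI'))
    (comp_sameV (hN.comp ha) (comp_nm (hG.comp ha) hI) (comp_nm (hG'.comp ha) hI')))))) ?_
  refine comp_and (comp_deq (hβ.comp ha) (hβ'.comp ha)) ?_
  refine comp_any (comp_range (comp_q (hn.comp ha))) ?_
  refine comp_all (comp_range (comp_length (hI.comp fst))) ?_
  have ha2 : Computable (fun x : (((α × List ℕ) × List ℕ) × ℕ) × ℕ => x.1.1.1.1) :=
    ha.comp (fst.comp fst)
  have hI2 : Computable (fun x : (((α × List ℕ) × List ℕ) × ℕ) × ℕ => x.1.1.1.2) :=
    hI.comp (fst.comp fst)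
  have hI2' : Computable (fun x : (((α × List ℕ) × List ℕ) × ℕ) × ℕ => x.1.1.2) :=
    hI'.comp (fst.comp fst)
  refine comp_veq (comp_vsm (snd.comp fst) (comp_getD [] (hP.comp ha2)
    (comp_getD 0 hI2 snd))) ?_
  exact comp_getD [] (hP'.comp ha2) (comp_getD 0 hI2' snd)

theorem comp_chk {n m N : α → ℕ} {rs : α → List ℕ} {Ps G : α → List (List Vec)}
    (hn : Computable n) (hm : Computable m) (hrs : Computable rs) (hPs : Computable Ps)
    (hN : Computable N) (hG : Computable G) :
    Computable (fun a => chk (n a) (m a) (rs a) (Ps a) (N a) (G a)) := by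
  unfold chk
  refine comp_and (comp_dlt hn hN) (comp_and (comp_deq (comp_length hG) (comp_length hPs))
    (comp_and ?_ ?_))
  · refine comp_all (comp_range (comp_length hPs)) ?_
    exact comp_chk1 (hn.comp fst) (comp_getD 0 (hrs.comp fst) snd) (hN.comp fst)
      (comp_getD [] (hPs.comp fst) snd) (comp_getD [] (hG.comp fst) snd)
  · refine comp_all (comp_range (comp_length hPs)) ?_
    refine comp_all (comp_range (comp_length (hPs.comp fst))) ?_
    have ha : Computable (fun x : (α × ℕ) × ℕ => x.1.1) := fst.comp fst
    exact comp_chk2 (hn.comp ha) (hm.comp ha) (hN.comp ha) (snd.comp fst) snd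
      (comp_getD [] (hPs.comp ha) (snd.comp fst)) (comp_getD [] (hG.comp ha) (snd.comp fst))
      (comp_getD [] (hPs.comp ha) snd) (comp_getD [] (hG.comp ha) snd)

/-- The search of an event is computable, if there is always a good event. -/
theorem comp_ev {n m : α → ℕ} {rs : α → List ℕ} {Ps : α → List (List Vec)}
    (hn : Computable n) (hm : Computable m) (hrs : Computable rs) (hPs : Computable Ps)
    (h : ∀ a, ∃ (N : ℕ) (G : List (List Vec)), GoodEv (n a) (m a) (rs a) (Ps a) N G) :
    Computable (fun a => ev (n a) (m a) (rs a) (Ps a)) := by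
  unfold ev evc
  refine (Computable.ofNat (ℕ × List (List Vec))).comp ?_
  refine comp_sInf (p := fun a k => chk (n a) (m a) (rs a) (Ps a)
    (Denumerable.ofNat (ℕ × List (List Vec)) k).1
    (Denumerable.ofNat (ℕ × List (List Vec)) k).2) ?_ ?_
  · have h1 : Computable (fun x : α × ℕ => Denumerable.ofNat (ℕ × List (List Vec)) x.2) :=
      (Computable.ofNat (ℕ × List (List Vec))).comp snd
    exact comp_chk (hn.comp fst) (hm.comp fst) (hrs.comp fst) (hPs.comp fst)
      (fst.comp h1) (snd.comp h1)
  · intro a
    obtain ⟨N, G, hG⟩ := h a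
    refine ⟨Encodable.encode (N, G), ?_⟩
    rw [Denumerable.ofNat_encode]
    exact (chk_iff _ _ _ _ N G).2 hG

end Pool.Agent.Work.MP_ed0a9a_lc.H.HR
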