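import Pool.Agent.Work.MP_ed0a9a_lc.Defs

/-!
# Formulas with named variables, definable and axiomatizable properties (general signature)
-/

set_option linter.unusedVariables false

namespace Pool.Agent.Work.MP_ed0a9a_lc.HM

open FirstOrder FirstOrder.Language

variable {a : ℕ → ℕ}

/-- Formulas with free variables named by natural numbers. -/
abbrev Fo (a : ℕ → ℕ) := (sig a).Formula ℕ

/-- The atomic formula `s(l)`, `l` a list of variables. -/
noncomputable def rl (s : ℕ) (l : List ℕ) : Fo a :=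
  if h : l.length = a s then
    Relations.formula (L := sig a) (n := a s) ⟨s, rfl⟩
      (fun t => Term.var (l.get (t.cast h.symm)))
  else ⊥

theorem realize_rl {N : Type} [S : (sig a).Structure N] (s : ℕ) (l : List ℕ)
    (v : ℕ → N) : (rl s l : Fo a).Realize v ↔ hd a S s (l.map v) := by
  unfold rl hd
  by_cases h : l.length = a s
  · rw [dif_pos h, Formula.realize_rel]
    have h' : (l.map v).length = a s := by simpa using h
    constructor
    · intro hr
      refine ⟨h', ?_⟩
      convert hr using 2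
      simp
    · rintro ⟨_, hr⟩
      convert hr using 2
      simp
  · rw [dif_neg h]
    constructor
    · intro hr; exact absurd hr (by simp [Formula.Realize])
    · rintro ⟨h', _⟩; exact absurd (by simpa using h') h

/-- Existential quantification over the variable `x`. -/
noncomputable def exv (x : ℕ) (φ : Fo a) : Fo a :=
  Formula.iExs Unit (Formula.relabel (fun y : ℕ => if y = x then Sum.inr () else Sum.inl y) φ)

theorem realize_exv {N : Type} [S : (sig a).Structure N] (x : ℕ) (φ : Fo a)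
    (v : ℕ → N) : (exv x φ).Realize v ↔ ∃ y, φ.Realize (Function.update v x y) := by
  unfold exv
  rw [Formula.realize_iExs]
  constructor
  · rintro ⟨i, hi⟩
    refine ⟨i (), ?_⟩
    rw [Formula.realize_relabel] at hi
    convert hi using 1
    funext y
    by_cases hy : y = x
    · subst hy; simp
    · simp [hy]
  · rintro ⟨y, hy⟩
    refine ⟨fun _ => y, ?_⟩
    rw [Formula.realize_relabel]
    convert hy using 1
    funext z
    by_cases hz : z = x
    · subst hz; simp
    · simp [hz]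

/-- Existential quantification over a list of variables (the head is outermost). -/
noncomputable def exs (l : List ℕ) (φ : Fo a) : Fo a := l.foldr exv φ

/-- Universal closure. -/
theorem exists_sentence (φ : Fo a) : ∃ σ : (sig a).Sentence,
    ∀ (N : Type) [Nonempty N] [(sig a).Structure N],
      N ⊨ σ ↔ ∀ v : ℕ → N, φ.Realize v := by
  refine ⟨(Formula.exClosure φ.not).not, ?_⟩
  intro N _ _
  have h := Formula.realize_exClosure (M := N) (φ.not)
  constructor
  · intro hs v
    by_contra hv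
    apply hs
    refine h.2 ⟨fun a => v a, ?_⟩
    refine (BoundedFormula.realize_restrictFreeVar (φ := φ.not) (f := id) (v := fun a => v a)
      (v' := v) (fun _ => rfl)).2 ?_
    exact hv
  · intro hv hs
    obtain ⟨v, hv'⟩ := h.1 hs
    let v' : ℕ → N := fun a => if hmem : a ∈ BoundedFormula.freeVarFinset φ.not
      then v ⟨a, hmem⟩ else Classical.choice inferInstance
    have h2 := (BoundedFormula.realize_restrictFreeVar (φ := φ.not) (f := id) (v := v)
      (xs := default) v' (by intro a; simp only [v', id]; rw [dif_pos a.2])).1 hv'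
    exact h2 (hv v')

/-- The property `C` of systems of relations is axiomatizable. -/
def Axb (a : ℕ → ℕ) (C : ∀ N : Type, (ℕ → List N → Prop) → Prop) : Prop :=
  ∃ T : (sig a).Theory, ∀ (N : Type) [Nonempty N] [S : (sig a).Structure N],
    N ⊨ T ↔ C N (hd a S)

theorem Axb.all {ι : Type*} {C : ι → ∀ N : Type, (ℕ → List N → Prop) → Prop}
    (h : ∀ i, Axb a (C i)) : Axb a (fun N H => ∀ i, C i N H) := by
  choose T hT using h
  refine ⟨⋃ i, T i, fun N _ S => ?_⟩
  simp only [Theory.model_iff, Set.mem_iUnion, forall_exists_index]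
  constructor
  · intro h i
    rw [← hT i N, Theory.model_iff]
    exact fun φ hφ => h φ i hφ
  · intro h φ i hφ
    have := (hT i N).2 (h i)
    rw [Theory.model_iff] at this
    exact this φ hφ

theorem Axb.allProp {p : Prop} {C : ∀ N : Type, (ℕ → List N → Prop) → Prop}
    (h : p → Axb a C) : Axb a (fun N H => p → C N H) := by
  by_cases hp : p
  · obtain ⟨T, hT⟩ := h hp
    exact ⟨T, fun N _ S => by rw [hT]; simp [hp]⟩
  · exact ⟨∅, fun N _ S => by simp [hp]⟩

theorem Axb.and {C D : ∀ N : Type, (ℕ → List N → Prop) → Prop}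
    (hC : Axb a C) (hD : Axb a D) : Axb a (fun N H => C N H ∧ D N H) := by
  obtain ⟨T, hT⟩ := hC
  obtain ⟨T', hT'⟩ := hD
  refine ⟨T ∪ T', fun N _ S => ?_⟩
  rw [Theory.model_union_iff, hT, hT']

theorem Axb.congr {C D : ∀ N : Type, (ℕ → List N → Prop) → Prop}
    (hC : Axb a C) (h : ∀ (N : Type) [Nonempty N] (S : (sig a).Structure N),
      C N (hd a S) ↔ D N (hd a S)) : Axb a D := by
  obtain ⟨T, hT⟩ := hC
  exact ⟨T, fun N _ S => (hT N).trans (h N S)⟩

/-- A property given by the universal closure of a formula is axiomatizable. -/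
theorem Axb.form (φ : Fo a) {C : ∀ N : Type, (ℕ → List N → Prop) → Prop}
    (h : ∀ (N : Type) [Nonempty N] [S : (sig a).Structure N],
      (∀ v : ℕ → N, φ.Realize v) ↔ C N (hd a S)) : Axb a C := by
  obtain ⟨σ, hσ⟩ := exists_sentence φ
  refine ⟨{σ}, fun N _ S => ?_⟩
  rw [← h, ← hσ]
  simp [Theory.model_iff]


/-- The property `Φ` of assignments is given by a formula. -/
def Dfb (a : ℕ → ℕ) (Φ : ∀ N : Type, (ℕ → List N → Prop) → (ℕ → N) → Prop) : Prop :=
  ∃ φ : Fo a, ∀ (N : Type) [S : (sig a).Structure N] (v : ℕ → N),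
    φ.Realize v ↔ Φ N (hd a S) v

namespace Dfb

variable {Φ Ψ : ∀ N : Type, (ℕ → List N → Prop) → (ℕ → N) → Prop}

theorem congr (h : Dfb a Φ) (h' : ∀ (N : Type) (S : (sig a).Structure N) (v : ℕ → N),
    Φ N (hd a S) v ↔ Ψ N (hd a S) v) : Dfb a Ψ := by
  obtain ⟨φ, hφ⟩ := h
  exact ⟨φ, fun N S v => (hφ N v).trans (h' N S v)⟩

theorem rel (s : ℕ) (l : List ℕ) : Dfb a (fun _ H v => H s (l.map v)) :=
  ⟨rl s l, fun _ _ v => realize_rl s l v⟩

theorem rel1 (s : ℕ) (x : ℕ) : Dfb a (fun _ H v => H s [v x]) := rel s [x]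

theorem rel2 (s : ℕ) (x y : ℕ) : Dfb a (fun _ H v => H s [v x, v y]) := rel s [x, y]

theorem eq (x y : ℕ) : Dfb a (fun _ _ v => v x = v y) :=
  ⟨Term.equal (Term.var x) (Term.var y), fun N S v => by
    rw [Formula.realize_equal, Term.realize_var, Term.realize_var]⟩

theorem tru : Dfb a (fun _ _ _ => True) :=
  ⟨⊤, fun N S v => by simp [Formula.Realize]⟩

theorem fls : Dfb a (fun _ _ _ => False) :=
  ⟨⊥, fun N S v => by simp [Formula.Realize]⟩

theorem prp (p : Prop) : Dfb a (fun _ _ _ => p) := by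
  by_cases h : p
  · exact tru.congr fun _ _ _ => by simp [h]
  · exact fls.congr fun _ _ _ => by simp [h]

theorem not (h : Dfb a Φ) : Dfb a (fun N H v => ¬ Φ N H v) := by
  obtain ⟨φ, hφ⟩ := h
  exact ⟨φ.not, fun N S v => by rw [Formula.realize_not, hφ]⟩

theorem and (h : Dfb a Φ) (h' : Dfb a Ψ) : Dfb a (fun N H v => Φ N H v ∧ Ψ N H v) := by
  obtain ⟨φ, hφ⟩ := h
  obtain ⟨ψ, hψ⟩ := h'
  exact ⟨φ ⊓ ψ, fun N S v => by rw [Formula.realize_inf, hφ, hψ]⟩

theorem or (h : Dfb a Φ) (h' : Dfb a Ψ) : Dfb a (fun N H v => Φ N H v ∨ Ψ N H v) := by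
  obtain ⟨φ, hφ⟩ := h
  obtain ⟨ψ, hψ⟩ := h'
  exact ⟨φ ⊔ ψ, fun N S v => by rw [Formula.realize_sup, hφ, hψ]⟩

theorem imp (h : Dfb a Φ) (h' : Dfb a Ψ) : Dfb a (fun N H v => Φ N H v → Ψ N H v) := by
  obtain ⟨φ, hφ⟩ := h
  obtain ⟨ψ, hψ⟩ := h'
  exact ⟨φ.imp ψ, fun N S v => by rw [Formula.realize_imp, hφ, hψ]⟩

theorem iff (h : Dfb a Φ) (h' : Dfb a Ψ) : Dfb a (fun N H v => (Φ N H v ↔ Ψ N H v)) :=
  ((h.imp h').and (h'.imp h)).congr fun _ _ _ =>
    ⟨fun ⟨a, b⟩ => ⟨a, b⟩, fun h => ⟨h.1, h.2⟩⟩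

theorem fin {ι : Type} [Finite ι] {Θ : ι → ∀ N : Type, (ℕ → List N → Prop) → (ℕ → N) → Prop}
    (h : ∀ i, Dfb a (Θ i)) : Dfb a (fun N H v => ∀ i, Θ i N H v) := by
  choose φ hφ using h
  exact ⟨Formula.iInf φ, fun N S v => by
    rw [Formula.realize_iInf]
    exact forall_congr' fun i => hφ i N v⟩

theorem exf {ι : Type} [Finite ι] {Θ : ι → ∀ N : Type, (ℕ → List N → Prop) → (ℕ → N) → Prop}
    (h : ∀ i, Dfb a (Θ i)) : Dfb a (fun N H v => ∃ i, Θ i N H v) := by
  choose φ hφ using h
  exact ⟨Formula.iSup φ, fun N S v => by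
    rw [Formula.realize_iSup]
    exact exists_congr fun i => hφ i N v⟩

/-- quantification over the elements of a finite set -/
theorem exF {F : Finset ℕ} {Θ : ℕ → ∀ N : Type, (ℕ → List N → Prop) → (ℕ → N) → Prop}
    (h : ∀ i, Dfb a (Θ i)) : Dfb a (fun N H v => ∃ i ∈ F, Θ i N H v) :=
  (exf (ι := {i // i ∈ F}) (Θ := fun i => Θ i.1) (fun i => h i.1)).congr fun N S v =>
    ⟨fun ⟨i, hi⟩ => ⟨i.1, i.2, hi⟩, fun ⟨i, hi, h⟩ => ⟨⟨i, hi⟩, h⟩⟩

theorem ex (x : ℕ) (h : Dfb a Φ) : Dfb a (fun N H v => ∃ y, Φ N H (Function.update v x y)) := by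
  obtain ⟨φ, hφ⟩ := h
  exact ⟨exv x φ, fun N S v => by
    rw [realize_exv]
    exact exists_congr fun y => hφ N _⟩

/-- the quantifier with the result of the substitution given -/
theorem ex' (x : ℕ) (h : Dfb a Φ) (h' : ∀ (N : Type) (S : (sig a).Structure N) (v : ℕ → N),
    Ψ N (hd a S) v ↔ ∃ y, Φ N (hd a S) (Function.update v x y)) : Dfb a Ψ :=
  (ex x h).congr fun N S v => (h' N S v).symm

/-- quantification over several variables -/
theorem exs (l : List ℕ) (h : Dfb a Φ) :
    Dfb a (fun N H v => ∃ v' : ℕ → N, (∀ y, y ∉ l → v' y = v y) ∧ Φ N H v') := by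
  induction l with
  | nil =>
    refine h.congr fun N S v => ⟨fun h => ⟨v, fun _ _ => rfl, h⟩, ?_⟩
    rintro ⟨v', h1, h2⟩
    have : v' = v := funext fun y => h1 y List.not_mem_nil
    rwa [← this]
  | cons a l ih =>
    refine ex' a ih fun N S v => ?_
    constructor
    · rintro ⟨v', h1, h2⟩
      refine ⟨v' a, v', fun y hy => ?_, h2⟩
      by_cases hya : y = a
      · rw [hya, Function.update_self]
      · rw [Function.update_of_ne hya]
        exact h1 y (by simp [hya, hy])
    · rintro ⟨y, v', h1, h2⟩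
      refine ⟨v', fun z hz => ?_, h2⟩
      rw [List.mem_cons, not_or] at hz
      rw [h1 z hz.2, Function.update_of_ne hz.1]

/-- quantification over a tuple -/
theorem exT (n m : ℕ) (h : Dfb a Φ) : Dfb a (fun N H v => ∃ x : Fin n → N,
    Φ N H (fun i => if hi : m ≤ i ∧ i - m < n then x ⟨i - m, hi.2⟩ else v i)) := by
  refine (exs (List.range' m n) h).congr fun N S v => ?_
  constructor
  · rintro ⟨v', h1, h2⟩
    refine ⟨fun j => v' (m + j), ?_⟩
    have : (fun i => if hi : m ≤ i ∧ i - m < n then (fun j : Fin n => v' (m + j)) ⟨i - m, hi.2⟩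
        else v i) = v' := by
      funext i
      by_cases hi : m ≤ i ∧ i - m < n
      · rw [dif_pos hi]
        show v' (m + (i - m)) = v' i
        rw [Nat.add_sub_cancel' hi.1]
      · rw [dif_neg hi]
        refine (h1 i fun hmem => hi ?_).symm
        rw [List.mem_range'_1] at hmem
        omega
    rwa [this]
  · rintro ⟨x, h2⟩
    refine ⟨_, fun y hy => ?_, h2⟩
    rw [dif_neg]
    intro hi
    apply hy
    rw [List.mem_range'_1]
    omega

theorem axb (h : Dfb a Φ) : Axb a (fun N H => ∀ v : ℕ → N, Φ N H v) := by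
  obtain ⟨φ, hφ⟩ := h
  exact Axb.form φ fun N _ S => forall_congr' fun v => hφ N v

end Dfb

theorem Axb.of0 {C : ∀ N : Type, (ℕ → List N → Prop) → Prop}
    (h : Dfb a (fun N H _ => C N H)) : Axb a C :=
  h.axb.congr fun N _ S => ⟨fun h => h (fun _ => Classical.arbitrary N), fun h _ => h⟩

theorem Axb.of1 {C : ∀ N : Type, (ℕ → List N → Prop) → N → Prop}
    (h : Dfb a (fun N H v => C N H (v 0))) : Axb a (fun N H => ∀ x, C N H x) :=
  h.axb.congr fun N _ S => ⟨fun h x => h (fun _ => x), fun h v => h (v 0)⟩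

theorem Axb.of2 {C : ∀ N : Type, (ℕ → List N → Prop) → N → N → Prop}
    (h : Dfb a (fun N H v => C N H (v 0) (v 1))) : Axb a (fun N H => ∀ x y, C N H x y) :=
  h.axb.congr fun N _ S => ⟨fun h x y => h (fun n => if n = 0 then x else y),
    fun h v => h (v 0) (v 1)⟩

theorem Axb.of3 {C : ∀ N : Type, (ℕ → List N → Prop) → N → N → N → Prop}
    (h : Dfb a (fun N H v => C N H (v 0) (v 1) (v 2))) :
    Axb a (fun N H => ∀ x y z, C N H x y z) :=
  h.axb.congr fun N _ S => ⟨fun h x y z => h (fun n => if n = 0 then x else if n = 1 then y else z),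
    fun h v => h (v 0) (v 1) (v 2)⟩

theorem Axb.of4 {C : ∀ N : Type, (ℕ → List N → Prop) → N → N → N → N → Prop}
    (h : Dfb a (fun N H v => C N H (v 0) (v 1) (v 2) (v 3))) :
    Axb a (fun N H => ∀ x y z w, C N H x y z w) :=
  h.axb.congr fun N _ S => ⟨fun h x y z w => h (fun n => if n = 0 then x else if n = 1 then y else
    if n = 2 then z else w), fun h v => h (v 0) (v 1) (v 2) (v 3)⟩

/-- quantification over a tuple and three elements -/
theorem Axb.ofT3 {n : ℕ} {C : ∀ N : Type, (ℕ → List N → Prop) → (Fin n → N) → N → N → N → Prop}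
    (h : Dfb a (fun N H v => C N H (fun j => v (j.1 + 5)) (v 0) (v 1) (v 2))) :
    Axb a (fun N H => ∀ x y z w, C N H x y z w) := by
  refine h.axb.congr fun N _ S => ⟨fun h x y z w => ?_, fun h v => h _ (v 0) (v 1) (v 2)⟩
  have h1 := h (fun m => if m = 0 then y else if m = 1 then z else if m = 2 then w else
    if hm : m - 5 < n then x ⟨m - 5, hm⟩ else y)
  have h2 : (fun j : Fin n => (fun m => if m = 0 then y else if m = 1 then z else if m = 2 then w
      else if hm : m - 5 < n then x ⟨m - 5, hm⟩ else y) (j.1 + 5)) = x := by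
    funext j
    have e0 : ¬ (j.1 + 5 = 0) := by omega
    have e1 : ¬ (j.1 + 5 = 1) := by omega
    have e2 : ¬ (j.1 + 5 = 2) := by omega
    have e3 : j.1 + 5 - 5 = j.1 := by omega
    simp only [e0, e1, e2, e3, if_false, j.2, dif_pos]
  rw [h2] at h1
  exact h1

theorem Axb.ofT1 {n : ℕ} {C : ∀ N : Type, (ℕ → List N → Prop) → (Fin n → N) → N → Prop}
    (h : Dfb a (fun N H v => C N H (fun j => v (j.1 + 5)) (v 0))) :
    Axb a (fun N H => ∀ x y, C N H x y) :=
  (Axb.ofT3 (C := fun N H x y _ _ => C N H x y) h).congr fun N _ S =>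
    ⟨fun h x y => h x y y y, fun h x y _ _ => h x y⟩


end Pool.Agent.Work.MP_ed0a9a_lc.HM
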