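import Pool.Agent.Work.MP_ed0a9a_lc.H.MtDefs

/-!
# The axioms are given by a theory
-/

set_option linter.unusedVariables false

namespace Pool.Agent.Work.MP_ed0a9a_lc.HM

open FirstOrder FirstOrder.Language

variable {K : Type} [Field K] {a : ℕ → ℕ}

theorem dfb_Zr (x : ℕ) : Dfb a (fun _ H v => Zr H (v x)) := Dfb.rel 0 [x, x, x]

theorem tuple_map {N : Type} (v : ℕ → N) (x y m : ℕ) (t : Fin m → N) :
    (x :: y :: List.range' (x + y + 1) m).map (fun i => if hi : x + y + 1 ≤ i ∧
        i - (x + y + 1) < m then t ⟨i - (x + y + 1), hi.2⟩ else v i) =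
        v x :: v y :: List.ofFn t := by
  rw [List.map_cons, List.map_cons]
  rw [dif_neg (by omega), dif_neg (by omega)]
  congr 2
  apply List.ext_get
  · simp
  · intro j h1 h2
    simp only [List.length_map, List.length_range'] at h1
    simp only [List.get_eq_getElem, List.getElem_map, List.getElem_range', one_mul,
      List.getElem_ofFn]
    rw [dif_pos (by omega)]
    congr 1
    apply Fin.ext
    simp

theorem dfb_Sc (D : MT K a) (c : K) (x y : ℕ) : Dfb a (fun _ H v => D.Sc H c (v x) (v y)) := by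
  by_cases h0 : c ∈ D.F 0
  · by_cases hc : c = 0
    · refine (dfb_Zr y).congr fun N S v => ?_
      unfold MT.Sc
      rw [dif_pos h0, if_pos hc]
    · refine (Dfb.eq y x).congr fun N S v => ?_
      unfold MT.Sc
      rw [dif_pos h0, if_neg hc]
  · have h1 := Dfb.exT (Classical.choose (Classical.choose_spec (D.sc c h0))) (x + y + 1)
      (Dfb.rel (a := a) (Classical.choose (D.sc c h0)) (x :: y :: List.range' (x + y + 1)
        (Classical.choose (Classical.choose_spec (D.sc c h0)))))
    refine (((dfb_Zr x).and (dfb_Zr y)).or h1).congr fun N S v => ?_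
    unfold MT.Sc
    rw [dif_neg h0]
    refine or_congr Iff.rfl (exists_congr fun t => ?_)
    rw [tuple_map]

theorem dfb_Lc (D : MT K a) (cs : List K) : ∀ (l : List ℕ) (w : ℕ),
    Dfb a (fun _ H v => D.Lc H cs (l.map v) (v w)) := by
  induction cs with
  | nil =>
    intro l w
    exact (dfb_Zr w).congr fun N S v => by rw [MT.Lc]
  | cons c cs ih =>
    intro l w
    cases l with
    | nil =>
      exact (dfb_Zr w).congr fun N S v => by rw [List.map_nil, MT.Lc]
    | cons x l =>
      set p := (x :: l).sum + w + 1 with hp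
      have hx : x < p := by rw [hp, List.sum_cons]; omega
      have hw : w < p := by rw [hp]; omega
      have hl : ∀ y ∈ l, y < p := by
        intro y hy
        have := List.single_le_sum (l := l) (fun _ _ => Nat.zero_le _) y hy
        rw [hp, List.sum_cons]; omega
      have h1 := Dfb.ex p (Dfb.ex (p + 1) ((dfb_Sc D c x p).and
        ((ih l (p + 1)).and (Dfb.rel 0 [p, p + 1, w]))))
      refine h1.congr fun N S v => ?_
      rw [List.map_cons, MT.Lc]
      refine exists_congr fun u => exists_congr fun u' => ?_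
      have e1 : ∀ y, y < p → Function.update (Function.update v p u) (p + 1) u' y = v y := by
        intro y hy
        rw [Function.update_of_ne (by omega), Function.update_of_ne (by omega)]
      have e2 : Function.update (Function.update v p u) (p + 1) u' p = u := by
        rw [Function.update_of_ne (by omega), Function.update_self]
      have e3 : Function.update (Function.update v p u) (p + 1) u' (p + 1) = u' :=
        Function.update_self _ _ _
      have e4 : l.map (Function.update (Function.update v p u) (p + 1) u') = l.map v :=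
        List.map_congr_left fun y hy => e1 y (hl y hy)
      simp only [List.map_cons, List.map_nil, e2, e3, e4, e1 x hx, e1 w hw]

theorem Axb.of5 {C : ∀ N : Type, (ℕ → List N → Prop) → N → N → N → N → N → N → Prop}
    (h : Dfb a (fun N H v => C N H (v 0) (v 1) (v 2) (v 3) (v 4) (v 5))) :
    Axb a (fun N H => ∀ x y z u w t, C N H x y z u w t) :=
  h.axb.congr fun N _ S => ⟨fun h x y z u w t => h (fun n => if n = 0 then x else
    if n = 1 then y else if n = 2 then z else if n = 3 then u else if n = 4 then w else t),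
    fun h v => h (v 0) (v 1) (v 2) (v 3) (v 4) (v 5)⟩

theorem exists_T (D : MT K a) : ∃ T : (sig a).Theory, ∀ (N : Type) [Nonempty N]
    [S : (sig a).Structure N], N ⊨ T ↔ D.Axioms (hd a S) := by
  have A0 : Axb a (fun N H => ∃ x, ¬ Zr (N := N) H x) := by
    refine Axb.of0 ?_
    exact Dfb.ex' 0 (dfb_Zr (a := a) 0).not fun N S v => by
      simp only [Function.update_self]
  have A1 : Axb a (fun N H => ∀ x y : N, ∃ z, H 0 [x, y, z]) :=
    Axb.of2 (Dfb.ex' 2 (Dfb.rel (a := a) 0 [0, 1, 2]) fun N S v => by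
      simp only [List.map_cons, List.map_nil, Function.update_self]
      simp)
  have A2 : Axb a (fun N H => ∀ x y z w : N, H 0 [x, y, z] → H 0 [x, y, w] → z = w) :=
    Axb.of4 ((Dfb.rel 0 [0, 1, 2]).imp ((Dfb.rel 0 [0, 1, 3]).imp (Dfb.eq 2 3)))
  have A3 : Axb a (fun N H => ∀ x y z : N, H 0 [x, y, z] → H 0 [y, x, z]) :=
    Axb.of3 ((Dfb.rel 0 [0, 1, 2]).imp (Dfb.rel 0 [1, 0, 2]))
  have A5 : Axb a (fun N H => ∀ x y z u v w : N, H 0 [x, y, u] → H 0 [y, z, v] →
      H 0 [u, z, w] → H 0 [x, v, w]) :=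
    Axb.of5 ((Dfb.rel 0 [0, 1, 3]).imp ((Dfb.rel 0 [1, 2, 4]).imp
      ((Dfb.rel 0 [3, 2, 5]).imp (Dfb.rel 0 [0, 4, 5]))))
  have A6 : Axb a (fun N H => ∀ x z : N, H 0 [x, x, z] → Zr H z) :=
    Axb.of2 ((Dfb.rel 0 [0, 0, 1]).imp (dfb_Zr 1))
  have A7 : Axb a (fun N H => ∀ x z : N, Zr H z → H 0 [x, z, x]) :=
    Axb.of2 ((dfb_Zr 1).imp (Dfb.rel 0 [0, 1, 0]))
  have S1 : Axb a (fun N H => ∀ (c : K) (x : N), ∃ y, D.Sc H c x y) :=
    Axb.all fun c => Axb.of1 (Dfb.ex' 1 (dfb_Sc D c 0 1) fun N S v => by simp)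
  have S2 : Axb a (fun N H => ∀ (c : K) (x y z : N), D.Sc H c x y → D.Sc H c x z → y = z) :=
    Axb.all fun c => Axb.of3 ((dfb_Sc D c 0 1).imp ((dfb_Sc D c 0 2).imp (Dfb.eq 1 2)))
  have S3 : Axb a (fun N H => ∀ (c : K) (x y x' y' u w : N), D.Sc H c x y → D.Sc H c x' y' →
      H 0 [x, x', u] → H 0 [y, y', w] → D.Sc H c u w) :=
    Axb.all fun c => Axb.of5 ((dfb_Sc D c 0 1).imp ((dfb_Sc D c 2 3).imp
      ((Dfb.rel 0 [0, 2, 4]).imp ((Dfb.rel 0 [1, 3, 5]).imp (dfb_Sc D c 4 5)))))
  have S4 : Axb a (fun N H => ∀ (c d : K) (x y z w : N), D.Sc H c x y → D.Sc H d x z →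
      H 0 [y, z, w] → D.Sc H (c + d) x w) :=
    Axb.all fun c => Axb.all fun d => Axb.of4 ((dfb_Sc D c 0 1).imp ((dfb_Sc D d 0 2).imp
      ((Dfb.rel 0 [1, 2, 3]).imp (dfb_Sc D (c + d) 0 3))))
  have S5 : Axb a (fun N H => ∀ (c d : K) (x y z : N), D.Sc H d x y → D.Sc H c y z →
      D.Sc H (c * d) x z) :=
    Axb.all fun c => Axb.all fun d => Axb.of3 ((dfb_Sc D d 0 1).imp ((dfb_Sc D c 1 2).imp
      (dfb_Sc D (c * d) 0 2)))
  have R1 : Axb a (fun N H => ∀ (i : ℕ) (S : Set (List K)) (z : Fin (a i) → N),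
      (∀ c : Fin (a i) → D.F (D.n i),
        ((∃ w, D.Lc H (List.ofFn fun l => (c l : K)) (List.ofFn z) w ∧ Zr H w) ↔
          (List.ofFn fun l => (c l : K)) ∈ S)) →
      (H i (List.ofFn z) ↔ D.bit i S)) := by
    refine Axb.all fun i => Axb.all fun S => ?_
    have hfin : Finite (D.F (D.n i)) := D.fin _
    have hfin2 : Finite (Fin (a i) → D.F (D.n i)) := inferInstance
    have hlist : ∀ {N : Type} (v : ℕ → N), (List.ofFn fun j : Fin (a i) => (j : ℕ)).map v =
        List.ofFn fun j : Fin (a i) => v j := fun v => by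
      rw [List.map_ofFn]; rfl
    have h1 : Dfb a (fun N H v => (∀ c : Fin (a i) → D.F (D.n i),
        ((∃ w, D.Lc H (List.ofFn fun l => (c l : K)) (List.ofFn fun j : Fin (a i) => v j) w ∧
          Zr H w) ↔ (List.ofFn fun l => (c l : K)) ∈ S)) →
        (H i (List.ofFn fun j : Fin (a i) => v j) ↔ D.bit i S)) := by
      refine Dfb.imp (Dfb.fin fun c => Dfb.iff ?_ (Dfb.prp _)) (Dfb.iff ?_ (Dfb.prp _))
      · refine Dfb.ex' (a i) ((dfb_Lc D (List.ofFn fun l => (c l : K))
          (List.ofFn fun j : Fin (a i) => (j : ℕ)) (a i)).and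
          (dfb_Zr (a i))) fun N S v => ?_
        refine exists_congr fun w => ?_
        rw [Function.update_self, hlist]
        have : (List.ofFn fun j : Fin (a i) => Function.update v (a i) w j) =
            List.ofFn fun j : Fin (a i) => v j := by
          congr 1
          funext j
          rw [Function.update_of_ne (by have := j.2; omega)]
        rw [this]
      · exact (Dfb.rel i (List.ofFn fun j : Fin (a i) => (j : ℕ))).congr fun N S v => by
          rw [hlist]
    refine h1.axb.congr fun N _ S' => ?_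
    constructor
    · intro h z
      have h2 := h (fun m => if hm : m < a i then z ⟨m, hm⟩ else Classical.arbitrary N)
      have h3 : (fun j : Fin (a i) => (fun m => if hm : m < a i then z ⟨m, hm⟩
          else Classical.arbitrary N) (j : ℕ)) = z := by
        funext j
        simp only [j.2, dif_pos]
      rw [h3] at h2
      exact h2
    · intro h v
      exact h fun j => v j
  obtain ⟨T, hT⟩ := A0.and (A1.and (A2.and (A3.and (A5.and (A6.and (A7.and (S1.and (S2.and
    (S3.and (S4.and (S5.and R1)))))))))))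
  refine ⟨T, fun N _ S => ?_⟩
  rw [hT]
  constructor
  · rintro ⟨h0, h1, h2, h3, h5, h6, h7, s1, s2, s3, s4, s5, r⟩
    exact ⟨h0, h1, h2, h3, h5, h6, h7, s1, s2, s3, s4, s5, r⟩
  · rintro ⟨h0, h1, h2, h3, h5, h6, h7, s1, s2, s3, s4, s5, r⟩
    exact ⟨h0, h1, h2, h3, h5, h6, h7, s1, s2, s3, s4, s5, r⟩

end Pool.Agent.Work.MP_ed0a9a_lc.HM
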