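import Pool.Agent.Work.MP_ed0a9a_lc.H.Kit

/-!
# Structures on vector spaces given by linear relations over finite fields: definitions
-/

set_option linter.unusedVariables false

namespace Pool.Agent.Work.MP_ed0a9a_lc.HM

open FirstOrder FirstOrder.Language

/-- The linear combination of the list `l` with the coefficients `c`. -/
def lc {K V : Type} [Field K] [AddCommGroup V] [Module K V] (c : List K) (l : List V) : V :=
  (List.zipWith (fun x y => x • y) c l).sum

/-- The list `l` is independent over `F`. -/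
def IndL {K V : Type} [Field K] [AddCommGroup V] [Module K V] (F : Subfield K)
    (l : List V) : Prop :=
  ∀ c : List K, c.length = l.length → (∀ x ∈ c, x ∈ F) → lc c l = 0 → ∀ x ∈ c, x = 0

/-- Data for a uniform system of relations on all vector spaces over the field `K` of
characteristic two, the union of the finite subfields `F n`: the relation `R i` depends only on
the `F (n i)`-linear relations between its arguments, `R 0` is the addition, and every scalar
is definable. -/
structure MT (K : Type) [Field K] (a : ℕ → ℕ) where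
  F : ℕ → Subfield K
  fin : ∀ n, Finite (F n)
  mono : Monotone F
  cov : ∀ x : K, ∃ n, x ∈ F n
  inf : Infinite K
  two : (1 : K) + 1 = 0
  F0 : ∀ c ∈ F 0, c = 0 ∨ c = 1
  R : ℕ → ∀ (V : Type) [AddCommGroup V] [Module K V], List V → Prop
  n : ℕ → ℕ
  inv : ∀ (i : ℕ) (V : Type) [AddCommGroup V] [Module K V] (V' : Type) [AddCommGroup V']
    [Module K V'] (l : List V) (l' : List V'), l.length = a i → l'.length = a i →
    (∀ c : List K, c.length = a i → (∀ x ∈ c, x ∈ F (n i)) → (lc c l = 0 ↔ lc c l' = 0)) →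
    (R i V l ↔ R i V' l')
  a0 : a 0 = 3
  plus : ∀ (V : Type) [AddCommGroup V] [Module K V] (x y z : V),
    R 0 V [x, y, z] ↔ x + y + z = 0
  sc : ∀ c : K, c ∉ F 0 → ∃ i m k : ℕ, a i = m + 2 ∧ c ∉ F k ∧
    ∀ (V : Type) [AddCommGroup V] [Module K V] (x y : V) (t : List V), t.length = m →
      (R i V (x :: y :: t) ↔ IndL (F k) (x :: y :: t) ∧ y = c • x)

variable {K : Type} [Field K] {a : ℕ → ℕ}

/-- The relations of the structure on the vector space `V`. -/
def MT.rel (D : MT K a) (V : Type) [AddCommGroup V] [Module K V] (i : ℕ) (l : List V) : Prop :=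
  l.length = a i ∧ D.R i V l

/-- The structure on the vector space `V`. -/
@[reducible] def MT.str (D : MT K a) (V : Type) [AddCommGroup V] [Module K V] :
    (sig a).Structure V where
  funMap := fun f => Empty.elim f
  RelMap := fun r v => D.R r.1 V (List.ofFn v)

theorem MT.hd_str (D : MT K a) (V : Type) [AddCommGroup V] [Module K V] :
    hd a (D.str V) = D.rel V := by
  funext i l
  apply propext
  unfold hd MT.rel
  constructor
  · rintro ⟨h, hr⟩
    refine ⟨h, ?_⟩
    have hl : List.ofFn (fun t => l.get (t.cast h.symm)) = l := by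
      apply List.ext_get
      · simp [h]
      · intro m h1 h2
        simp
    have hr' : D.R i V (List.ofFn (fun t => l.get (t.cast h.symm))) := hr
    rwa [hl] at hr'
  · rintro ⟨h, hr⟩
    refine ⟨h, ?_⟩
    have hl : List.ofFn (fun t => l.get (t.cast h.symm)) = l := by
      apply List.ext_get
      · simp [h]
      · intro m h1 h2
        simp
    show D.R i V (List.ofFn (fun t => l.get (t.cast h.symm)))
    rwa [hl]

/-! ## The axioms -/

section

variable {N : Type} (H : ℕ → List N → Prop)

/-- `x` is the zero vector -/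
def Zr (x : N) : Prop := H 0 [x, x, x]

open Classical in
/-- the graph of the multiplication by the scalar `c` -/
noncomputable def MT.Sc (D : MT K a) (c : K) (x y : N) : Prop :=
  if h0 : c ∈ D.F 0 then (if c = 0 then Zr H y else y = x)
  else (Zr H x ∧ Zr H y) ∨
    ∃ t : Fin (Classical.choose (Classical.choose_spec (D.sc c h0))) → N,
      H (Classical.choose (D.sc c h0)) (x :: y :: List.ofFn t)

/-- `w` is the linear combination of `l` with the coefficients `c` -/
def MT.Lc (D : MT K a) : List K → List N → N → Prop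
  | [], _, w => Zr H w
  | _ :: _, [], w => Zr H w
  | c :: cs, x :: l, w => ∃ u v, D.Sc H c x u ∧ MT.Lc D cs l v ∧ H 0 [u, v, w]

/-- the truth value of the relation `i` at the tuples with the set `S` of relations -/
def MT.bit (D : MT K a) (i : ℕ) (S : Set (List K)) : Prop :=
  ∃ (V : Type) (_ : AddCommGroup V) (_ : Module K V) (l : List V), l.length = a i ∧
    (∀ c : List K, c.length = a i → (∀ x ∈ c, x ∈ D.F (D.n i)) → (lc c l = 0 ↔ c ∈ S)) ∧
    D.R i V l

/-- The axioms. -/
structure MT.Axioms (D : MT K a) : Prop where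
  ne : ∃ x, ¬ Zr H x
  p1 : ∀ x y, ∃ z, H 0 [x, y, z]
  p2 : ∀ x y z w, H 0 [x, y, z] → H 0 [x, y, w] → z = w
  p3 : ∀ x y z, H 0 [x, y, z] → H 0 [y, x, z]
  p5 : ∀ x y z u v w, H 0 [x, y, u] → H 0 [y, z, v] → H 0 [u, z, w] → H 0 [x, v, w]
  p6 : ∀ x z, H 0 [x, x, z] → Zr H z
  p7 : ∀ x z, Zr H z → H 0 [x, z, x]
  s1 : ∀ (c : K) (x : N), ∃ y, D.Sc H c x y
  s2 : ∀ (c : K) (x y z : N), D.Sc H c x y → D.Sc H c x z → y = z
  s3 : ∀ (c : K) (x y x' y' u w : N), D.Sc H c x y → D.Sc H c x' y' → H 0 [x, x', u] →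
    H 0 [y, y', w] → D.Sc H c u w
  s4 : ∀ (c d : K) (x y z w : N), D.Sc H c x y → D.Sc H d x z → H 0 [y, z, w] →
    D.Sc H (c + d) x w
  s5 : ∀ (c d : K) (x y z : N), D.Sc H d x y → D.Sc H c y z → D.Sc H (c * d) x z
  r : ∀ (i : ℕ) (S : Set (List K)) (z : Fin (a i) → N),
    (∀ c : Fin (a i) → D.F (D.n i),
      ((∃ w, D.Lc H (List.ofFn fun l => (c l : K)) (List.ofFn z) w ∧ Zr H w) ↔
        (List.ofFn fun l => (c l : K)) ∈ S)) →
    (H i (List.ofFn z) ↔ D.bit i S)

end

/-! ## The models -/

/-- Index set of size `i + 1`. -/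
def Jd (i : ℕ∞) : Type := {r : ℕ // (r : ℕ∞) ≤ i}

end Pool.Agent.Work.MP_ed0a9a_lc.HM
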