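import Pool.Agent.Work.MP_ed0a9a_lc.H.MtDefs

/-!
# Linear combinations of lists and independence over a finite subfield
-/

namespace Pool.Agent.Work.MP_ed0a9a_lc.HM

variable {K V : Type} [Field K] [AddCommGroup V] [Module K V]

@[simp] theorem lc_nil_left (l : List V) : lc ([] : List K) l = 0 := by simp [lc]

@[simp] theorem lc_nil_right (c : List K) : lc c ([] : List V) = 0 := by simp [lc]

@[simp] theorem lc_cons (x : K) (c : List K) (v : V) (l : List V) :
    lc (x :: c) (v :: l) = x • v + lc c l := by simp [lc]

theorem lc_append (c : List K) (l : List V) (h : c.length = l.length) (d : K) (v : V) :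
    lc (c ++ [d]) (l ++ [v]) = lc c l + d • v := by
  induction c generalizing l with
  | nil =>
    have : l = [] := List.length_eq_zero_iff.1 (by simpa using h.symm)
    subst this
    simp
  | cons x c ih =>
    cases l with
    | nil => simp at h
    | cons w l =>
      simp only [List.cons_append, lc_cons]
      rw [ih l (by simpa using h)]
      rw [add_assoc]

theorem lc_smul (a : K) (c : List K) (l : List V) : lc (c.map (a * ·)) l = a • lc c l := by
  induction c generalizing l with
  | nil => simp
  | cons x c ih =>
    cases l with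
    | nil => simp
    | cons w l => simp only [List.map_cons, lc_cons, ih, smul_add, mul_smul]

theorem lc_replicate_zero (n : ℕ) (l : List V) : lc (List.replicate n (0 : K)) l = 0 := by
  induction n generalizing l with
  | zero => simp
  | succ n ih =>
    cases l with
    | nil => simp
    | cons w l => simp [List.replicate_succ, ih]

theorem lc_map {V' : Type} [AddCommGroup V'] [Module K V'] (f : V →ₗ[K] V') (c : List K)
    (l : List V) : lc c (l.map f) = f (lc c l) := by
  induction c generalizing l with
  | nil => simp
  | cons x c ih =>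
    cases l with
    | nil => simp
    | cons w l => simp only [List.map_cons, lc_cons, ih, map_add, map_smul]

theorem infinite_of_ne [Infinite K] {v : V} (hv : v ≠ 0) : Infinite V :=
  Infinite.of_injective (fun x : K => x • v) (smul_left_injective K hv)

/-- A list of given length with entries in a finite subfield: finitely many. -/
theorem finite_lists (F : Subfield K) [Finite F] (n : ℕ) :
    {c : List K | c.length = n ∧ ∀ x ∈ c, x ∈ F}.Finite := by
  have h : {c : List K | c.length = n ∧ ∀ x ∈ c, x ∈ F} ⊆
      Set.range (fun c : Fin n → F => List.ofFn fun i => (c i : K)) := by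
    rintro c ⟨h1, h2⟩
    subst h1
    refine ⟨fun i => ⟨c.get i, h2 _ (List.get_mem _ _)⟩, ?_⟩
    simp
  exact (Set.finite_range _).subset h

theorem exists_append (F : Subfield K) [Finite F] [Infinite V] (l : List V) (h : IndL F l) :
    ∃ v : V, IndL F (l ++ [v]) := by
  have hfin : ((fun c : List K => lc c l) ''
      {c : List K | c.length = l.length ∧ ∀ x ∈ c, x ∈ F}).Finite :=
    (finite_lists F l.length).image _
  obtain ⟨v, hv⟩ := hfin.exists_notMem
  refine ⟨v, ?_⟩
  intro c hc hcF h0
  obtain ⟨c', d, rfl⟩ : ∃ c' d, c = c' ++ [d] := by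
    rcases List.eq_nil_or_concat c with h1 | ⟨c', d, h1⟩
    · subst h1; simp at hc
    · exact ⟨c', d, by simpa using h1⟩
  have hlen : c'.length = l.length := by simpa using hc
  rw [lc_append _ _ hlen] at h0
  have hd : d ∈ F := hcF d (by simp)
  have hd0 : d = 0 := by
    by_contra hd0
    apply hv
    refine ⟨c'.map ((-d⁻¹) * ·), ⟨by simpa using hlen, ?_⟩, ?_⟩
    · intro x hx
      rw [List.mem_map] at hx
      obtain ⟨y, hy, rfl⟩ := hx
      exact F.mul_mem (F.neg_mem (F.inv_mem hd)) (hcF y (by simp [hy]))
    · show lc (c'.map ((-d⁻¹) * ·)) l = v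
      rw [lc_smul, neg_smul, ← smul_neg]
      have h1 : -lc c' l = d • v := by
        rw [neg_eq_iff_add_eq_zero]; exact h0
      rw [h1, smul_smul, inv_mul_cancel₀ hd0, one_smul]
  subst hd0
  rw [zero_smul, add_zero] at h0
  intro x hx
  rw [List.mem_append] at hx
  rcases hx with hx | hx
  · exact h c' hlen (fun y hy => hcF y (by simp [hy])) h0 x hx
  · simpa using hx

theorem exists_extend (F : Subfield K) [Finite F] [Infinite V] (l : List V) (h : IndL F l)
    (m : ℕ) : ∃ t : List V, t.length = m ∧ IndL F (l ++ t) := by
  induction m with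
  | zero => exact ⟨[], rfl, by simpa using h⟩
  | succ m ih =>
    obtain ⟨t, ht, hi⟩ := ih
    obtain ⟨v, hv⟩ := exists_append F (l ++ t) hi
    exact ⟨t ++ [v], by simp [ht], by rw [← List.append_assoc]; exact hv⟩

theorem indL_pair (F : Subfield K) (c : K) (hc : c ∉ F) (x : V) (hx : x ≠ 0) :
    IndL F [x, c • x] := by
  intro d hd hdF h0
  match d, hd with
  | [α, β], _ =>
    simp only [lc_cons, lc_nil_left, add_zero, smul_smul, ← add_smul] at h0
    have h1 : α + β * c = 0 := by
      by_contra h
      exact hx ((smul_eq_zero.1 h0).resolve_left h)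
    have hα : α ∈ F := hdF α (by simp)
    have hβ : β ∈ F := hdF β (by simp)
    have hβ0 : β = 0 := by
      by_contra hβ0
      apply hc
      have h2 : c = -(β⁻¹ * α) := by
        field_simp
        linear_combination h1
      rw [h2]
      exact F.neg_mem (F.mul_mem (F.inv_mem hβ) hα)
    have hα0 : α = 0 := by rw [hβ0] at h1; simpa using h1
    intro y hy
    simp only [List.mem_cons, List.not_mem_nil, or_false] at hy
    rcases hy with rfl | rfl
    · exact hα0
    · exact hβ0

/-- An independent list starts with a non-zero vector. -/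
theorem indL_ne (F : Subfield K) (x : V) (l : List V) (h : IndL F (x :: l)) : x ≠ 0 := by
  rintro rfl
  have h1 := h (1 :: List.replicate l.length 0) (by simp) (by
    intro y hy
    rw [List.mem_cons, List.mem_replicate] at hy
    rcases hy with rfl | ⟨-, rfl⟩
    · exact F.one_mem
    · exact F.zero_mem) (by rw [lc_cons, lc_replicate_zero]; simp) 1 (by simp)
  exact one_ne_zero h1

end Pool.Agent.Work.MP_ed0a9a_lc.HM
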