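import Mathlib
import Pool.Agent.Work.MP_ed0a9a_lc.Bits
import Pool.Agent.Work.MP_ed0a9a_lc.H.Defs
import Pool.Agent.Work.MP_ed0a9a_lc.H.CKit
import Pool.Agent.Work.MP_ed0a9a_lc.H.Pr1

/-!
# Module `Pa`: the raw operations are primitive recursive

PROOFS.  `primrec_q`: `primrec_pow2` twice.  `primrec_cl`: `Primrec.nat_rec` in `L` with parameter `b`:
`Primrec.list_flatMap`, `Primrec.list_map`, `Primrec.list_range`, `Primrec.list_cons`
(uncurried with care).  `primrec_tups`: `Primrec.list_flatMap`.
`primrec_vadd`: `Primrec.list_map` on `Primrec.list_range` of the maximum of the lengths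
(`Primrec.nat_max`), `primrec_xor` (file `Bits`), `primrec_getD 0`.
`primrec_vsm`: `Primrec.list_map`, `primrec_kmul`.
`primrec_linV`: `List.zipWith f c z = (List.range (min c.length z.length)).map
(fun i => f (c.getD i 0) (z.getD i []))`, then `Primrec.list_foldr`.
`primrec_vz`: `v.all p` is `v.foldr (fun x r => p x && r) true`.
`primrec_all`, `primrec_any`, `primrec_filter`, `primrec_find`: `Primrec` versions (with parameter)
of the combinators of `CKit`, by `Primrec.list_foldr`.
-/

namespace Pool.Agent.Work.MP_ed0a9a_lc.H

variable {α β : Type} [Primcodable α] [Primcodable β]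

theorem primrec_all {l : α → List β} {p : α → β → Bool} (hl : Primrec l)
    (hp : Primrec₂ p) : Primrec fun a => (l a).all (p a) := by
  have h : Primrec₂ (fun (a : α) (s : β × Bool) => p a s.1 && s.2) :=
    Primrec.and.comp (hp.comp Primrec.fst (Primrec.fst.comp Primrec.snd))
      (Primrec.snd.comp Primrec.snd)
  refine (Primrec.list_foldr hl (Primrec.const true) h).of_eq fun a => ?_
  induction l a with
  | nil => rfl
  | cons x r ih => rw [List.foldr_cons, List.all_cons, ih]

theorem primrec_any {l : α → List β} {p : α → β → Bool} (hl : Primrec l)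
    (hp : Primrec₂ p) : Primrec fun a => (l a).any (p a) := by
  have h : Primrec₂ (fun (a : α) (s : β × Bool) => p a s.1 || s.2) :=
    Primrec.or.comp (hp.comp Primrec.fst (Primrec.fst.comp Primrec.snd))
      (Primrec.snd.comp Primrec.snd)
  refine (Primrec.list_foldr hl (Primrec.const false) h).of_eq fun a => ?_
  induction l a with
  | nil => rfl
  | cons x r ih => rw [List.foldr_cons, List.any_cons, ih]

theorem primrec_filter {l : α → List β} {p : α → β → Bool} (hl : Primrec l)
    (hp : Primrec₂ p) : Primrec fun a => (l a).filter (p a) := by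
  have h : Primrec₂ (fun (a : α) (s : β × List β) => bif p a s.1 then s.1 :: s.2 else s.2) :=
    Primrec.cond (hp.comp Primrec.fst (Primrec.fst.comp Primrec.snd))
      (Primrec.list_cons.comp (Primrec.fst.comp Primrec.snd) (Primrec.snd.comp Primrec.snd))
      (Primrec.snd.comp Primrec.snd)
  refine (Primrec.list_foldr hl (Primrec.const []) h).of_eq fun a => ?_
  induction l a with
  | nil => rfl
  | cons x r ih =>
    rw [List.foldr_cons, List.filter_cons, ih]
    cases p a x <;> rfl

theorem primrec_cl : Primrec₂ cl := by
  have h1 : Primrec₂ (fun (r : ℕ × ℕ × List (List ℕ)) (x : ℕ) =>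
      r.2.2.map fun c => x :: c) := by
    refine Primrec.list_map (Primrec.snd.comp (Primrec.snd.comp Primrec.fst)) ?_
    exact Primrec.list_cons.comp (Primrec.snd.comp Primrec.fst) Primrec.snd
  have h : Primrec₂ (fun (b : ℕ) (s : ℕ × List (List ℕ)) =>
      (List.range b).flatMap fun x => s.2.map fun c => x :: c) :=
    Primrec.list_flatMap (Primrec.list_range.comp Primrec.fst) h1
  refine (Primrec.nat_rec (Primrec.const [[]]) h).of_eq fun b L => ?_
  induction L with
  | zero => rfl
  | succ L ih =>
    rw [cl, ← ih]

theorem primrec_tups : Primrec₂ tups := by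
  have h : Primrec₂ (fun (p : ℕ × ℕ) (j : ℕ) => cl p.1 j) :=
    primrec_cl.comp (Primrec.fst.comp Primrec.fst) Primrec.snd
  exact Primrec.list_flatMap (Primrec.list_range.comp (Primrec.succ.comp Primrec.snd)) h

theorem primrec_vadd : Primrec₂ vadd := by
  have hl : Primrec (fun p : Vec × Vec => List.range (max p.1.length p.2.length)) :=
    Primrec.list_range.comp (Primrec.nat_max.comp (Primrec.list_length.comp Primrec.fst)
      (Primrec.list_length.comp Primrec.snd))
  have h : Primrec₂ (fun (p : Vec × Vec) (i : ℕ) => p.1.getD i 0 ^^^ p.2.getD i 0) :=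
    primrec_xor.comp
      ((Primrec.list_getD 0).comp (Primrec.fst.comp Primrec.fst) Primrec.snd)
      ((Primrec.list_getD 0).comp (Primrec.snd.comp Primrec.fst) Primrec.snd)
  exact Primrec.list_map hl h

theorem primrec_vsm : Primrec₂ vsm :=
  Primrec.list_map Primrec.snd (primrec_kmul.comp (Primrec.fst.comp Primrec.fst) Primrec.snd)

private theorem zipWith_eq (c : List ℕ) (z : List Vec) :
    List.zipWith (fun a v => vsm a v) c z =
      (List.range (min c.length z.length)).map fun i => vsm (c.getD i 0) (z.getD i []) := by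
  apply List.ext_getElem
  · simp
  · intro i h1 h2
    rw [List.getElem_zipWith, List.getElem_map, List.getElem_range]
    rw [List.length_zipWith] at h1
    rw [List.getD_eq_getElem _ _ (lt_of_lt_of_le h1 (min_le_left _ _)),
      List.getD_eq_getElem _ _ (lt_of_lt_of_le h1 (min_le_right _ _))]

theorem primrec_linV : Primrec₂ linV := by
  have hl : Primrec (fun p : List ℕ × List Vec => List.range (min p.1.length p.2.length)) :=
    Primrec.list_range.comp (Primrec.nat_min.comp (Primrec.list_length.comp Primrec.fst)
      (Primrec.list_length.comp Primrec.snd))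
  have h : Primrec₂ (fun (p : List ℕ × List Vec) (i : ℕ) =>
      vsm (p.1.getD i 0) (p.2.getD i [])) :=
    primrec_vsm.comp
      ((Primrec.list_getD 0).comp (Primrec.fst.comp Primrec.fst) Primrec.snd)
      ((Primrec.list_getD []).comp (Primrec.snd.comp Primrec.fst) Primrec.snd)
  have h2 : Primrec₂ (fun (_ : List ℕ × List Vec) (s : Vec × Vec) => vadd s.1 s.2) :=
    primrec_vadd.comp (Primrec.fst.comp Primrec.snd) (Primrec.snd.comp Primrec.snd)
  refine (Primrec.list_foldr (Primrec.list_map hl h) (Primrec.const []) h2).of_eq fun p => ?_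
  show _ = linV p.1 p.2
  rw [linV, zipWith_eq]

theorem primrec_vz : Primrec vz :=
  primrec_all Primrec.id (Primrec.eq.decide.comp Primrec.snd (Primrec.const 0))

theorem primrec_veq : Primrec₂ veq :=
  primrec_vz.comp primrec_vadd

end Pool.Agent.Work.MP_ed0a9a_lc.H
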