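import Mathlib
import Pool.Agent.Work.MP_ed0a9a_lc.H.Pa

/-!
# Module `Pb`: `sameV`, `indV`, `nrelV`, `evI`, `evA`, `nm`, `core` are primitive recursive

PROOFS.  Compositions of `primrec_all`, `primrec_any`, `primrec_filter`, `primrec_cl`, `primrec_linV`,
`primrec_vz`, `primrec_veq`, `primrec_vsm`, `primrec_vadd`, `primrec_getD`, `primrec_take`,
`Primrec.and`, `Primrec.or`, `Primrec.not`, `Primrec.eq`/`PrimrecRel.decide`, `Primrec.nat_le`,
`Primrec.list_map`, `Primrec.list_length`; `q n ^ k`: `Nat.Primrec.pow` via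
`Primrec₂.unpaired'.1` as in the file `Bits` (`primrec_pow2`).
`evA` : `p.2` is a `Bool`.
-/

namespace Pool.Agent.Work.MP_ed0a9a_lc.H

section Aux

variable {α : Type} [Primcodable α]

private theorem b_and {f g : α → Bool} (hf : Primrec f) (hg : Primrec g) :
    Primrec fun a => f a && g a := Primrec.and.comp hf hg

private theorem b_or {f g : α → Bool} (hf : Primrec f) (hg : Primrec g) :
    Primrec fun a => f a || g a := Primrec.or.comp hf hg

private theorem b_not {f : α → Bool} (hf : Primrec f) :
    Primrec fun a => !f a := Primrec.not.comp hf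

private theorem b_beq {f g : α → Bool} (hf : Primrec f) (hg : Primrec g) :
    Primrec fun a => f a == g a := Primrec.beq.comp hf hg

private theorem d_eq {f g : α → ℕ} (hf : Primrec f) (hg : Primrec g) :
    Primrec fun a => decide (f a = g a) := (Primrec.eq.comp hf hg).decide

private theorem d_lt {f g : α → ℕ} (hf : Primrec f) (hg : Primrec g) :
    Primrec fun a => decide (f a < g a) := (Primrec.nat_lt.comp hf hg).decide

private theorem d_le {f g : α → ℕ} (hf : Primrec f) (hg : Primrec g) :
    Primrec fun a => decide (f a ≤ g a) := (Primrec.nat_le.comp hf hg).decide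

end Aux

theorem primrec_pow : Primrec₂ (fun a b : ℕ => a ^ b) :=
  Primrec₂.unpaired'.1 Nat.Primrec.pow

theorem primrec_nm : Primrec₂ nm := by
  have h : Primrec fun p : List Vec × List ℕ => p.2.map fun j => p.1.getD j [] :=
    Primrec.list_map Primrec.snd
      ((primrec_getD ([] : Vec)).comp (Primrec.fst.comp Primrec.fst) Primrec.snd).to₂
  exact h

theorem primrec_core : Primrec fun p : ℕ × ℕ × Vec => core p.1 p.2.1 p.2.2 := by
  have hv : Primrec fun x : (ℕ × ℕ × Vec) × ℕ => x.1.2.2 :=
    Primrec.snd.comp (Primrec.snd.comp Primrec.fst)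
  have hg : Primrec fun x : (ℕ × ℕ × Vec) × ℕ => x.1.2.2.getD x.2 0 :=
    (primrec_getD (0 : ℕ)).comp hv Primrec.snd
  have h1 : Primrec fun x : (ℕ × ℕ × Vec) × ℕ =>
      (decide (x.1.2.2.getD x.2 0 < q x.1.1) &&
        (decide (x.2 < x.1.2.1) || decide (x.1.2.2.getD x.2 0 = 0))) :=
    b_and (d_lt hg (primrec_q.comp (Primrec.fst.comp Primrec.fst)))
      (b_or (d_lt Primrec.snd (Primrec.fst.comp (Primrec.snd.comp Primrec.fst)))
        (d_eq hg (Primrec.const 0)))
  have hl : Primrec fun p : ℕ × ℕ × Vec => List.range p.2.2.length :=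
    Primrec.list_range.comp (Primrec.list_length.comp (Primrec.snd.comp Primrec.snd))
  exact primrec_all hl h1.to₂

theorem primrec_sameV :
    Primrec fun p : ℕ × List Vec × List Vec => sameV p.1 p.2.1 p.2.2 := by
  have h1 : Primrec fun p : ℕ × List Vec × List Vec => p.2.1 :=
    Primrec.fst.comp Primrec.snd
  have h2 : Primrec fun p : ℕ × List Vec × List Vec => p.2.2 :=
    Primrec.snd.comp Primrec.snd
  have hc : Primrec fun p : ℕ × List Vec × List Vec => cl (q p.1) p.2.1.length :=
    primrec_cl.comp (primrec_q.comp Primrec.fst) (Primrec.list_length.comp h1)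
  have hp : Primrec fun x : (ℕ × List Vec × List Vec) × List ℕ =>
      (vz (linV x.2 x.1.2.1) == vz (linV x.2 x.1.2.2)) :=
    b_beq (primrec_vz.comp (primrec_linV.comp Primrec.snd (h1.comp Primrec.fst)))
      (primrec_vz.comp (primrec_linV.comp Primrec.snd (h2.comp Primrec.fst)))
  exact b_and (d_eq (Primrec.list_length.comp h1) (Primrec.list_length.comp h2))
    (primrec_all hc hp.to₂)

theorem primrec_indV : Primrec₂ indV := by
  have hc : Primrec fun p : ℕ × List Vec => cl (q p.1) p.2.length :=
    primrec_cl.comp (primrec_q.comp Primrec.fst) (Primrec.list_length.comp Primrec.snd)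
  have hp : Primrec fun x : (ℕ × List Vec) × List ℕ => (!vz (linV x.2 x.1.2) || vz x.2) :=
    b_or (b_not (primrec_vz.comp (primrec_linV.comp Primrec.snd
      (Primrec.snd.comp Primrec.fst)))) (primrec_vz.comp Primrec.snd)
  exact primrec_all hc hp.to₂

theorem primrec_nrelV : Primrec₂ nrelV := by
  have hc : Primrec fun p : ℕ × List Vec => cl (q p.1) p.2.length :=
    primrec_cl.comp (primrec_q.comp Primrec.fst) (Primrec.list_length.comp Primrec.snd)
  have hp : Primrec fun x : (ℕ × List Vec) × List ℕ => vz (linV x.2 x.1.2) :=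
    primrec_vz.comp (primrec_linV.comp Primrec.snd (Primrec.snd.comp Primrec.fst))
  exact Primrec.list_length.comp (primrec_filter hc hp.to₂)

theorem primrec_evI : Primrec₂ evI := by
  have ht : Primrec fun p : Itn × List Vec => p.1.1 := Primrec.fst.comp Primrec.fst
  have a1 : Primrec fun p : Itn × List Vec => p.1.2 := Primrec.snd.comp Primrec.fst
  have hn : Primrec fun p : Itn × List Vec => p.1.2.1 := Primrec.fst.comp a1
  have a2 : Primrec fun p : Itn × List Vec => p.1.2.2 := Primrec.snd.comp a1
  have hn' : Primrec fun p : Itn × List Vec => p.1.2.2.1 := Primrec.fst.comp a2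
  have a3 : Primrec fun p : Itn × List Vec => p.1.2.2.2 := Primrec.snd.comp a2
  have hc : Primrec fun p : Itn × List Vec => p.1.2.2.2.1 := Primrec.fst.comp a3
  have a4 : Primrec fun p : Itn × List Vec => p.1.2.2.2.2 := Primrec.snd.comp a3
  have hlo : Primrec fun p : Itn × List Vec => p.1.2.2.2.2.1 := Primrec.fst.comp a4
  have hhi : Primrec fun p : Itn × List Vec => p.1.2.2.2.2.2 := Primrec.snd.comp a4
  have hz : Primrec fun p : Itn × List Vec => p.2 := Primrec.snd
  have hlen : Primrec fun p : Itn × List Vec => p.2.length := Primrec.list_length.comp hz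
  have hg : ∀ i : ℕ, Primrec fun p : Itn × List Vec => p.2.getD i [] := fun i =>
    (primrec_getD ([] : Vec)).comp hz (Primrec.const i)
  have hind : Primrec fun p : Itn × List Vec => indV p.1.2.1 p.2 := primrec_indV.comp hn hz
  have hnr : Primrec fun p : Itn × List Vec => nrelV p.1.2.2.1 (p.2.take p.1.2.2.2.1) :=
    primrec_nrelV.comp hn' (primrec_take.comp hc hz)
  have hql : Primrec fun p : Itn × List Vec => q p.1.2.2.1 ^ p.1.2.2.2.2.1 :=
    primrec_pow.comp (primrec_q.comp hn') hlo
  have hqh : Primrec fun p : Itn × List Vec => q p.1.2.2.1 ^ p.1.2.2.2.2.2 :=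
    primrec_pow.comp (primrec_q.comp hn') hhi
  exact b_or (b_and (d_eq ht (Primrec.const 0)) (b_and (d_eq hlen (Primrec.const 3))
      (primrec_veq.comp (primrec_vadd.comp (hg 0) (hg 1)) (hg 2))))
    (b_or (b_and (d_eq ht (Primrec.const 1)) hind)
      (b_or (b_and (d_eq ht (Primrec.const 2)) (b_and hind
          (b_and (d_le (Primrec.const 2) hlen)
            (primrec_veq.comp (primrec_vsm.comp hn' (hg 0)) (hg 1)))))
        (b_and (d_eq ht (Primrec.const 3)) (b_and hind
          (b_and (d_le hql hnr) (d_le hnr hqh))))))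

theorem primrec_evA : Primrec₂ evA := by
  have a1 : Primrec fun p : Asg × List Vec => p.1.2 := Primrec.snd.comp Primrec.fst
  have hn : Primrec fun p : Asg × List Vec => p.1.2.1 := Primrec.fst.comp a1
  have a2 : Primrec fun p : Asg × List Vec => p.1.2.2 := Primrec.snd.comp a1
  have hl : Primrec fun p : Asg × List Vec => p.1.2.2.1 := Primrec.fst.comp a2
  have hI : Primrec fun p : Asg × List Vec => p.1.2.2.2 := Primrec.snd.comp a2
  have hz : Primrec fun p : Asg × List Vec => p.2 := Primrec.snd
  have k1 : Primrec fun x : (Asg × List Vec) × (List Vec × Bool) => x.1.1.2.1 :=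
    hn.comp Primrec.fst
  have k2 : Primrec fun x : (Asg × List Vec) × (List Vec × Bool) => x.2.1 :=
    Primrec.fst.comp Primrec.snd
  have k3 : Primrec fun x : (Asg × List Vec) × (List Vec × Bool) => x.1.2 :=
    hz.comp Primrec.fst
  have k4 : Primrec fun x : (Asg × List Vec) × (List Vec × Bool) =>
      (x.1.1.2.1, x.2.1, x.1.2) := k1.pair (k2.pair k3)
  have hs : Primrec fun x : (Asg × List Vec) × (List Vec × Bool) =>
      sameV x.1.1.2.1 x.2.1 x.1.2 :=
    Primrec.comp (f := fun p : ℕ × List Vec × List Vec => sameV p.1 p.2.1 p.2.2)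
      (g := fun x : (Asg × List Vec) × (List Vec × Bool) => (x.1.1.2.1, x.2.1, x.1.2))
      primrec_sameV k4
  have hs2 : Primrec fun x : (Asg × List Vec) × (List Vec × Bool) =>
      (sameV x.1.1.2.1 x.2.1 x.1.2 && x.2.2) :=
    b_and hs (Primrec.snd.comp Primrec.snd)
  have e1 : Primrec fun p : Asg × List Vec =>
      (p.1.2.2.1.any fun x => sameV p.1.2.1 x.1 p.2 && x.2) := primrec_any hl hs2.to₂
  have e2 : Primrec fun p : Asg × List Vec =>
      (p.1.2.2.1.all fun x => !sameV p.1.2.1 x.1 p.2) := primrec_all hl (b_not hs).to₂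
  have e3 : Primrec fun p : Asg × List Vec => evI p.1.2.2.2 p.2 := primrec_evI.comp hI hz
  exact b_or e1 (b_and e2 e3)

end Pool.Agent.Work.MP_ed0a9a_lc.H
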