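import Mathlib
import Pool.Agent.Work.MP_ed0a9a_lc.H.Pb

/-!
# Module `Pc`: the test `chk` is primitive recursive

PROOFS.  Unfold; compositions of the lemmas of `Pa` and `Pb` (`primrec_all`, `primrec_any`,
`primrec_tups`, `primrec_cl`, `primrec_nm`, `primrec_indV`, `primrec_sameV`, `primrec_nrelV`,
`primrec_core`, `primrec_veq`, `primrec_vsm`, `primrec_pow`, `primrec_getD`).  It is a good idea to prove
first that the bodies (as functions of all their variables, including the bound ones, as one
tuple) are primitive recursive.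
-/

namespace Pool.Agent.Work.MP_ed0a9a_lc.H

private theorem bAnd {α : Type} [Primcodable α] {f g : α → Bool} (hf : Primrec f)
    (hg : Primrec g) : Primrec fun a => f a && g a := Primrec.and.comp hf hg

private theorem bOr {α : Type} [Primcodable α] {f g : α → Bool} (hf : Primrec f)
    (hg : Primrec g) : Primrec fun a => f a || g a := Primrec.or.comp hf hg

private theorem bNot {α : Type} [Primcodable α] {f : α → Bool} (hf : Primrec f) :
    Primrec fun a => !f a := Primrec.not.comp hf

private theorem dEq {α : Type} [Primcodable α] {f g : α → ℕ} (hf : Primrec f)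
    (hg : Primrec g) : Primrec fun a => decide (f a = g a) := (Primrec.eq.comp hf hg).decide

private theorem dLe {α : Type} [Primcodable α] {f g : α → ℕ} (hf : Primrec f)
    (hg : Primrec g) : Primrec fun a => decide (f a ≤ g a) := (Primrec.nat_le.comp hf hg).decide

private theorem dLt {α : Type} [Primcodable α] {f g : α → ℕ} (hf : Primrec f)
    (hg : Primrec g) : Primrec fun a => decide (f a < g a) := (Primrec.nat_lt.comp hf hg).decide

private theorem pAll {α β : Type} [Primcodable α] [Primcodable β] {l : α → List β}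
    {p : α → β → Bool} (hl : Primrec l) (hp : Primrec fun x : α × β => p x.1 x.2) :
    Primrec fun a => (l a).all (p a) := primrec_all hl hp

private theorem pAny {α β : Type} [Primcodable α] [Primcodable β] {l : α → List β}
    {p : α → β → Bool} (hl : Primrec l) (hp : Primrec fun x : α × β => p x.1 x.2) :
    Primrec fun a => (l a).any (p a) := primrec_any hl hp

private theorem gD {α β : Type} [Primcodable α] [Primcodable β] {l : α → List β} {i : α → ℕ}
    (d : β) (hl : Primrec l) (hi : Primrec i) : Primrec fun a => (l a).getD (i a) d :=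
  (Primrec.list_getD d).comp hl hi

private theorem len {α β : Type} [Primcodable α] [Primcodable β] {l : α → List β}
    (hl : Primrec l) : Primrec fun a => (l a).length := Primrec.list_length.comp hl

private theorem rng {α : Type} [Primcodable α] {l : α → ℕ}
    (hl : Primrec l) : Primrec fun a => List.range (l a) := Primrec.list_range.comp hl

private theorem chk1_aux {α : Type} [Primcodable α] {n ρ N : α → ℕ} {P G : α → List Vec}
    (hn : Primrec n) (hρ : Primrec ρ) (hN : Primrec N) (hP : Primrec P) (hG : Primrec G) :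
    Primrec fun a => chk1 (n a) (ρ a) (N a) (P a) (G a) := by
  unfold chk1
  refine bAnd (dEq (len hG) (len hP)) (bAnd ?_ (bAnd ?_ (bAnd ?_ ?_)))
  · exact primrec_sameV.comp (hn.pair (hP.pair hG))
  · refine pAll hG ?_
    refine bAnd (dLe (len Primrec.snd) (hρ.comp Primrec.fst)) ?_
    refine pAll Primrec.snd ?_
    exact dLt Primrec.snd (primrec_q.comp (hN.comp (Primrec.fst.comp Primrec.fst)))
  · refine pAll (rng (len hP)) ?_
    refine bOr (bNot ?_) ?_
    · exact primrec_core.comp ((hn.comp Primrec.fst).pair ((hρ.comp Primrec.fst).pair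
        (gD [] (hP.comp Primrec.fst) Primrec.snd)))
    · exact primrec_veq.comp (gD [] (hG.comp Primrec.fst) Primrec.snd)
        (gD [] (hP.comp Primrec.fst) Primrec.snd)
  · refine pAll (primrec_tups.comp (len hP) (len hP)) ?_
    refine bOr (bNot ?_) (dEq ?_ ?_)
    · exact primrec_indV.comp (hn.comp Primrec.fst)
        (primrec_nm.comp (hP.comp Primrec.fst) Primrec.snd)
    · exact primrec_nrelV.comp (hN.comp Primrec.fst)
        (primrec_nm.comp (hG.comp Primrec.fst) Primrec.snd)
    · exact primrec_pow.comp (primrec_q.comp (hN.comp Primrec.fst))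
        (Primrec.nat_sub.comp (len Primrec.snd) (hρ.comp Primrec.fst))

private theorem chk2_aux {α : Type} [Primcodable α] {n m N β β' : α → ℕ}
    {P G P' G' : α → List Vec} (hn : Primrec n) (hm : Primrec m) (hN : Primrec N)
    (hβ : Primrec β) (hβ' : Primrec β') (hP : Primrec P) (hG : Primrec G)
    (hP' : Primrec P') (hG' : Primrec G') :
    Primrec fun a => chk2 (n a) (m a) (N a) (β a) (β' a) (P a) (G a) (P' a) (G' a) := by
  unfold chk2
  refine pAll (primrec_tups.comp (len hP) (len hP)) ?_
  refine pAll (primrec_cl.comp (len (hP'.comp Primrec.fst)) (len Primrec.snd)) ?_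
  have f2 : Primrec fun x : (α × List ℕ) × List ℕ => x.1.1 := Primrec.fst.comp Primrec.fst
  have hI : Primrec fun x : (α × List ℕ) × List ℕ => x.1.2 := Primrec.snd.comp Primrec.fst
  have hI' : Primrec fun x : (α × List ℕ) × List ℕ => x.2 := Primrec.snd
  refine bOr (bNot (bAnd (dLe ?_ (len hI)) (bAnd ?_ (bAnd ?_ ?_)))) (bAnd ?_ ?_)
  · exact Primrec.nat_add.comp (hm.comp f2) (Primrec.const 2)
  · exact primrec_indV.comp (hn.comp f2) (primrec_nm.comp (hP.comp f2) hI)
  · exact primrec_indV.comp (hn.comp f2) (primrec_nm.comp (hP'.comp f2) hI')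
  · exact primrec_sameV.comp ((hN.comp f2).pair ((primrec_nm.comp (hG.comp f2) hI).pair
      (primrec_nm.comp (hG'.comp f2) hI')))
  · exact dEq (hβ.comp f2) (hβ'.comp f2)
  · refine pAny (rng (primrec_q.comp (hn.comp f2))) ?_
    refine pAll (rng (len (hI.comp Primrec.fst))) ?_
    have g1 : Primrec fun x : (((α × List ℕ) × List ℕ) × ℕ) × ℕ => x.1.1 :=
      Primrec.fst.comp Primrec.fst
    have g2 : Primrec fun x : (((α × List ℕ) × List ℕ) × ℕ) × ℕ => x.1.2 :=
      Primrec.snd.comp Primrec.fst
    exact primrec_veq.comp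
      (primrec_vsm.comp g2 (gD [] (hP.comp (f2.comp g1)) (gD 0 (hI.comp g1) Primrec.snd)))
      (gD [] (hP'.comp (f2.comp g1)) (gD 0 (hI'.comp g1) Primrec.snd))

private theorem chk_aux {α : Type} [Primcodable α] {n m N : α → ℕ} {rs : α → List ℕ}
    {Ps G : α → List (List Vec)} (hn : Primrec n) (hm : Primrec m) (hrs : Primrec rs)
    (hPs : Primrec Ps) (hN : Primrec N) (hG : Primrec G) :
    Primrec fun a => chk (n a) (m a) (rs a) (Ps a) (N a) (G a) := by
  unfold chk
  refine bAnd (dLt hn hN) (bAnd (dEq (len hG) (len hPs)) (bAnd ?_ ?_))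
  · refine pAll (rng (len hPs)) ?_
    exact chk1_aux (hn.comp Primrec.fst) (gD 0 (hrs.comp Primrec.fst) Primrec.snd)
      (hN.comp Primrec.fst) (gD [] (hPs.comp Primrec.fst) Primrec.snd)
      (gD [] (hG.comp Primrec.fst) Primrec.snd)
  · refine pAll (rng (len hPs)) ?_
    refine pAll (rng (len (hPs.comp Primrec.fst))) ?_
    have f2 : Primrec fun x : (α × ℕ) × ℕ => x.1.1 := Primrec.fst.comp Primrec.fst
    have hb : Primrec fun x : (α × ℕ) × ℕ => x.1.2 := Primrec.snd.comp Primrec.fst
    have hb' : Primrec fun x : (α × ℕ) × ℕ => x.2 := Primrec.snd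
    exact chk2_aux (hn.comp f2) (hm.comp f2) (hN.comp f2) hb hb' (gD [] (hPs.comp f2) hb)
      (gD [] (hG.comp f2) hb) (gD [] (hPs.comp f2) hb') (gD [] (hG.comp f2) hb')

theorem primrec_chk1 : Primrec fun p : ℕ × ℕ × ℕ × List Vec × List Vec =>
    chk1 p.1 p.2.1 p.2.2.1 p.2.2.2.1 p.2.2.2.2 := by
  exact chk1_aux Primrec.fst (Primrec.fst.comp Primrec.snd)
    (Primrec.fst.comp (Primrec.snd.comp Primrec.snd))
    (Primrec.fst.comp (Primrec.snd.comp (Primrec.snd.comp Primrec.snd)))
    (Primrec.snd.comp (Primrec.snd.comp (Primrec.snd.comp Primrec.snd)))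

theorem primrec_chk2 :
    Primrec fun p : (ℕ × ℕ × ℕ) × (ℕ × ℕ) × (List Vec × List Vec) × (List Vec × List Vec) =>
    chk2 p.1.1 p.1.2.1 p.1.2.2 p.2.1.1 p.2.1.2 p.2.2.1.1 p.2.2.1.2 p.2.2.2.1 p.2.2.2.2 := by
  exact chk2_aux (Primrec.fst.comp Primrec.fst)
    (Primrec.fst.comp (Primrec.snd.comp Primrec.fst))
    (Primrec.snd.comp (Primrec.snd.comp Primrec.fst))
    (Primrec.fst.comp (Primrec.fst.comp Primrec.snd))
    (Primrec.snd.comp (Primrec.fst.comp Primrec.snd))
    (Primrec.fst.comp (Primrec.fst.comp (Primrec.snd.comp Primrec.snd)))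
    (Primrec.snd.comp (Primrec.fst.comp (Primrec.snd.comp Primrec.snd)))
    (Primrec.fst.comp (Primrec.snd.comp (Primrec.snd.comp Primrec.snd)))
    (Primrec.snd.comp (Primrec.snd.comp (Primrec.snd.comp Primrec.snd)))

theorem primrec_chk :
    Primrec fun p : (ℕ × ℕ × List ℕ × List (List Vec)) × (ℕ × List (List Vec)) =>
    chk p.1.1 p.1.2.1 p.1.2.2.1 p.1.2.2.2 p.2.1 p.2.2 := by
  exact chk_aux (Primrec.fst.comp Primrec.fst)
    (Primrec.fst.comp (Primrec.snd.comp Primrec.fst))
    (Primrec.fst.comp (Primrec.snd.comp (Primrec.snd.comp Primrec.fst)))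
    (Primrec.snd.comp (Primrec.snd.comp (Primrec.snd.comp Primrec.fst)))
    (Primrec.fst.comp Primrec.snd) (Primrec.snd.comp Primrec.snd)

end Pool.Agent.Work.MP_ed0a9a_lc.H
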